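import Pool.Agent.Lib.DK4.Defs

/-!
Module DK4.Loc: elementary facts on Lipschitz functions with compact support on ℂ.

* `fderiv_zero_of_nonneg`: a zero of `f ≥ 0` is a minimum: `IsLocalMin.fderiv_eq_zero` (true for
  non-differentiable `f` too, by the junk value).
* `ae_fderiv_zero`: Rademacher (`LipschitzWith.ae_differentiableAt`) applied to `u⁺`, `u⁻`: at a point
  with `u = 0` where both are differentiable, `fderiv u = fderiv u⁺ - fderiv u⁻ = 0 - 0`.
* integrability: `measurable_fderiv`, `‖fderiv u‖ ≤ K` (norm_fderiv_le_of_lipschitz), and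
  `fderiv u` vanishes off `tsupport u` (compact).
* `q_split`: on the open set `{u > 0}`, `fderiv u⁺ = fderiv u`; on `{u < 0}`, `fderiv u⁺ = 0`; on
  `{u = 0}` both parts have `fderiv = 0` everywhere and `fderiv u = 0` a.e.
-/

open MeasureTheory Set
open scoped ContDiff

namespace DK4

theorem fderiv_zero_of_nonneg {f : ℂ → ℝ} (hf : ∀ z, 0 ≤ f z) {z : ℂ} (hz : f z = 0) :
    fderiv ℝ f z = 0 := by
  have h : IsLocalMin f z := Filter.Eventually.of_forall fun w => by
    rw [hz]
    exact hf w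
  exact h.fderiv_eq_zero

theorem IsTest.adm {Ω : Set ℂ} {u : ℂ → ℝ} (hu : IsTest Ω u) : Adm u :=
  ⟨hu.1.lipschitzWith_of_hasCompactSupport hu.2.1 (by simp), hu.2.1⟩

theorem Adm.continuous {u : ℂ → ℝ} (hu : Adm u) : Continuous u := by
  obtain ⟨K, hK⟩ := hu.lip
  exact hK.continuous

theorem Adm.neg {u : ℂ → ℝ} (hu : Adm u) : Adm (fun z => -u z) := by
  obtain ⟨K, hK⟩ := hu.lip
  exact ⟨⟨K, hK.neg⟩, hu.cpt.comp_left (g := fun x : ℝ => -x) neg_zero⟩

theorem Adm.pos {u : ℂ → ℝ} (hu : Adm u) : Adm (fun z => max (u z) 0) := by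
  obtain ⟨K, hK⟩ := hu.lip
  exact ⟨⟨K, hK.max_const 0⟩, hu.cpt.comp_left (g := fun x : ℝ => max x 0) (max_self 0)⟩

theorem Adm.integrable_sq {u : ℂ → ℝ} (hu : Adm u) : Integrable (fun z => u z ^ 2) := by
  have h : HasCompactSupport (fun z => u z ^ 2) :=
    hu.cpt.comp_left (g := fun x : ℝ => x ^ 2) (by simp)
  exact Continuous.integrable_of_hasCompactSupport (hu.continuous.pow 2) h

theorem Adm.integrable_en {u : ℂ → ℝ} (hu : Adm u) :
    Integrable (fun z => ‖fderiv ℝ u z‖ ^ 2) := by
  obtain ⟨K, hK⟩ := hu.lip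
  have hs : Function.support (fun z => ‖fderiv ℝ u z‖ ^ 2) ⊆ tsupport u := fun z hz => by
    refine support_fderiv_subset ℝ ?_
    rw [Function.mem_support] at hz ⊢
    intro h
    exact hz (by rw [h, norm_zero]; norm_num)
  rw [← integrableOn_iff_integrable_of_support_subset hs]
  refine Measure.integrableOn_of_bounded (M := (K : ℝ) ^ 2) hu.cpt.measure_lt_top.ne
    ((measurable_fderiv ℝ u).norm.pow_const 2).aestronglyMeasurable
    (Filter.Eventually.of_forall fun z => ?_)
  rw [Real.norm_of_nonneg (by positivity)]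
  exact pow_le_pow_left₀ (norm_nonneg _) (norm_fderiv_le_of_lipschitz ℝ hK) 2

theorem Adm.ae_fderiv_zero {u : ℂ → ℝ} (hu : Adm u) :
    ∀ᵐ z, u z = 0 → fderiv ℝ u z = 0 := by
  obtain ⟨K, hK⟩ := hu.pos.lip
  obtain ⟨K', hK'⟩ := hu.neg.pos.lip
  filter_upwards [hK.ae_differentiableAt (μ := volume), hK'.ae_differentiableAt (μ := volume)]
    with z h1 h2 hz
  have e : u = fun z => max (u z) 0 - max (-u z) 0 := by
    funext w
    rcases le_total (u w) 0 with h | h
    · rw [max_eq_right h, max_eq_left (by linarith)]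
      ring
    · rw [max_eq_left h, max_eq_right (by linarith)]
      ring
  rw [e]
  have h3 : fderiv ℝ (fun z => max (u z) 0) z = 0 :=
    fderiv_zero_of_nonneg (fun w => le_max_right _ _) (by rw [hz, max_self])
  have h4 : fderiv ℝ (fun z => max (-u z) 0) z = 0 :=
    fderiv_zero_of_nonneg (fun w => le_max_right _ _) (by rw [hz, neg_zero, max_self])
  rw [fderiv_fun_sub h1 h2, h3, h4, sub_zero]

theorem q_eq_integral {Λ : ℝ} {u : ℂ → ℝ} (hu : Adm u) :
    q Λ u = ∫ z, (‖fderiv ℝ u z‖ ^ 2 - Λ * u z ^ 2) := by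
  rw [q, integral_sub hu.integrable_en (hu.integrable_sq.const_mul Λ), integral_const_mul]

/-- value of `fderiv` of the positive part -/
theorem fderiv_pos {u : ℂ → ℝ} (hu : Continuous u) (z : ℂ) :
    fderiv ℝ (fun z => max (u z) 0) z = {z | 0 < u z}.indicator (fderiv ℝ u) z := by
  by_cases hz : 0 < u z
  · rw [indicator_of_mem (s := {z | 0 < u z}) hz]
    refine Filter.EventuallyEq.fderiv_eq ?_
    filter_upwards [(isOpen_lt continuous_const hu).mem_nhds hz] with w hw
    exact max_eq_left (le_of_lt hw)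
  · rw [indicator_of_notMem (s := {z | 0 < u z}) hz]
    exact fderiv_zero_of_nonneg (fun w => le_max_right _ _) (max_eq_right (not_lt.1 hz))

theorem q_pos {Λ : ℝ} {u : ℂ → ℝ} (hu : Adm u) :
    q Λ (fun z => max (u z) 0) = ∫ z in {z | 0 < u z}, (‖fderiv ℝ u z‖ ^ 2 - Λ * u z ^ 2) := by
  rw [q_eq_integral hu.pos,
    ← integral_indicator (isOpen_lt continuous_const hu.continuous).measurableSet]
  refine integral_congr_ae (Filter.Eventually.of_forall fun z => ?_)
  simp only [fderiv_pos hu.continuous]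
  by_cases hz : 0 < u z
  · rw [indicator_of_mem (s := {z | 0 < u z}) hz, indicator_of_mem (s := {z | 0 < u z}) hz,
      max_eq_left hz.le]
  · rw [indicator_of_notMem (s := {z | 0 < u z}) hz, indicator_of_notMem (s := {z | 0 < u z}) hz,
      max_eq_right (not_lt.1 hz), norm_zero]
    ring

theorem q_split {Λ : ℝ} {u : ℂ → ℝ} (hu : Adm u) :
    q Λ u = q Λ (fun z => max (u z) 0) + q Λ (fun z => max (-u z) 0) := by
  have hF : Integrable fun z => ‖fderiv ℝ u z‖ ^ 2 - Λ * u z ^ 2 :=
    hu.integrable_en.sub (hu.integrable_sq.const_mul Λ)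
  have m1 : MeasurableSet {z | 0 < u z} := (isOpen_lt continuous_const hu.continuous).measurableSet
  have m2 : MeasurableSet {z | 0 < -u z} :=
    (isOpen_lt continuous_const hu.neg.continuous).measurableSet
  have h2 : q Λ (fun z => max (-u z) 0) =
      ∫ z in {z | 0 < -u z}, (‖fderiv ℝ u z‖ ^ 2 - Λ * u z ^ 2) := by
    rw [q_pos hu.neg]
    refine integral_congr_ae (Filter.Eventually.of_forall fun z => ?_)
    have e : fderiv ℝ (fun z => -u z) z = -fderiv ℝ u z := fderiv_fun_neg
    simp only [e, norm_neg, neg_sq]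
  rw [h2, q_pos hu, q_eq_integral hu, ← integral_indicator m1, ← integral_indicator m2,
    ← integral_add (hF.indicator m1) (hF.indicator m2)]
  refine integral_congr_ae ?_
  filter_upwards [hu.ae_fderiv_zero] with z hz
  rcases lt_trichotomy (u z) 0 with h | h | h
  · rw [indicator_of_notMem (s := {z | 0 < u z}) (not_lt.2 h.le),
      indicator_of_mem (s := {z | 0 < -u z}) (neg_pos.2 h), zero_add]
  · rw [indicator_of_notMem (s := {z | 0 < u z}) (not_lt.2 h.le),
      indicator_of_notMem (s := {z | 0 < -u z}) (by simp [h]), hz h, h, norm_zero]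
    ring
  · rw [indicator_of_mem (s := {z | 0 < u z}) h,
      indicator_of_notMem (s := {z | 0 < -u z}) (not_lt.2 (neg_nonpos.2 h.le)), add_zero]

end DK4
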