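import Pool.Agent.Lib.DK4.TopoE
import Pool.Agent.Lib.DK4.Loc

/-!
Module DK4.Inv: invariance of integrals under rotations about `0` and complex conjugation.

`z ↦ ζ z` (‖ζ‖ = 1) and `z ↦ conj z` are linear isometric equivalences of ℂ, hence measure
preserving (LinearIsometryEquiv.measurePreserving; `rotation`, `Complex.conjLIE`), and
`‖fderiv ℝ (u ∘ L) z‖ = ‖fderiv ℝ u (L z)‖` for a linear isometric equivalence `L`
(fderiv_comp with ContinuousLinearEquiv.comp_right_fderiv, and the norm is unchanged by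
composition with an isometry: LinearIsometryEquiv norm_comp...).
-/

open MeasureTheory Set
open scoped ContDiff

namespace DK4

namespace InvAux

/-- multiplication by `ζ` as a linear isometric equivalence -/
theorem exists_rot {ζ : ℂ} (hζ : ‖ζ‖ = 1) : ∃ L : ℂ ≃ₗᵢ[ℝ] ℂ, ∀ z, L z = ζ * z := by
  refine ⟨rotation ⟨ζ, ?_⟩, fun z => ?_⟩
  · exact mem_sphere_zero_iff_norm.2 hζ
  · rfl

theorem fd (L : ℂ ≃ₗᵢ[ℝ] ℂ) (u : ℂ → ℝ) (z : ℂ) :
    ‖fderiv ℝ (fun z => u (L z)) z‖ = ‖fderiv ℝ u (L z)‖ := by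
  have h := (L.toContinuousLinearEquiv).comp_right_fderiv (f := u) (x := z)
  have h2 : fderiv ℝ (fun z => u (L z)) z =
      (fderiv ℝ u (L z)).comp (L.toContinuousLinearEquiv : ℂ →L[ℝ] ℂ) := h
  rw [h2]
  exact ContinuousLinearMap.opNorm_comp_linearIsometryEquiv (fderiv ℝ u (L z)) L

theorem emb (L : ℂ ≃ₗᵢ[ℝ] ℂ) : MeasurableEmbedding (L : ℂ → ℂ) :=
  L.toHomeomorph.measurableEmbedding

theorem integ (L : ℂ ≃ₗᵢ[ℝ] ℂ) (g : ℂ → ℝ) : ∫ z, g (L z) = ∫ z, g z :=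
  (L.measurePreserving).integral_comp (emb L) g

theorem qL (L : ℂ ≃ₗᵢ[ℝ] ℂ) (Λ : ℝ) (u : ℂ → ℝ) : q Λ (fun z => u (L z)) = q Λ u := by
  unfold q
  have h1 : (∫ z, ‖fderiv ℝ (fun z => u (L z)) z‖ ^ 2) = ∫ z, ‖fderiv ℝ u z‖ ^ 2 := by
    rw [← integ L (fun z => ‖fderiv ℝ u z‖ ^ 2)]
    congr 1
    funext z
    rw [fd]
  rw [h1, integ L (fun z => u z ^ 2)]

end InvAux

open InvAux

theorem fderiv_rot {ζ : ℂ} (hζ : ‖ζ‖ = 1) (u : ℂ → ℝ) (z : ℂ) :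
    ‖fderiv ℝ (fun z => u (ζ * z)) z‖ = ‖fderiv ℝ u (ζ * z)‖ := by
  obtain ⟨L, hL⟩ := exists_rot hζ
  have h := fd L u z
  simp only [hL] at h
  exact h

theorem fderiv_conj (u : ℂ → ℝ) (z : ℂ) :
    ‖fderiv ℝ (fun z => u ((starRingEnd ℂ) z)) z‖ = ‖fderiv ℝ u ((starRingEnd ℂ) z)‖ :=
  fd Complex.conjLIE u z

theorem q_rot {Λ : ℝ} {ζ : ℂ} (hζ : ‖ζ‖ = 1) (u : ℂ → ℝ) :
    q Λ (fun z => u (ζ * z)) = q Λ u := by
  obtain ⟨L, hL⟩ := exists_rot hζ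
  have h := qL L Λ u
  simp only [hL] at h
  exact h

theorem q_conj {Λ : ℝ} (u : ℂ → ℝ) :
    q Λ (fun z => u ((starRingEnd ℂ) z)) = q Λ u :=
  qL Complex.conjLIE Λ u

/-- integrals over rotated sets -/
theorem setIntegral_rot {ζ : ℂ} (hζ : ‖ζ‖ = 1) (g : ℂ → ℝ) (S : Set ℂ) :
    ∫ z in (fun z => ζ * z) ⁻¹' S, g (ζ * z) = ∫ z in S, g z := by
  obtain ⟨L, hL⟩ := exists_rot hζ
  have h := (L.measurePreserving).setIntegral_preimage_emb (emb L) g S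
  have hf : (L : ℂ → ℂ) = fun z => ζ * z := funext hL
  rw [hf] at h
  exact h

theorem vol_rot {ζ : ℂ} (hζ : ‖ζ‖ = 1) (S : Set ℂ) :
    volume ((fun z : ℂ => ζ * z) ⁻¹' S) = volume S := by
  obtain ⟨L, hL⟩ := exists_rot hζ
  have h := (L.measurePreserving).measure_preimage_emb (emb L) S
  have hf : (L : ℂ → ℂ) = fun z => ζ * z := funext hL
  rw [hf] at h
  exact h

theorem vol_conj (S : Set ℂ) :
    volume ((fun z : ℂ => (starRingEnd ℂ) z) ⁻¹' S) = volume S :=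
  (Complex.conjLIE.measurePreserving).measure_preimage_emb (emb Complex.conjLIE) S

end DK4
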