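import Pool.Agent.Lib.DK4.TopoE
import Pool.Agent.Lib.DK4.Loc
import Pool.Agent.Lib.DK4.Inv

/-!
Module DK4.Alg (proved, helper50): from a four-dimensional negative space to a
two-dimensional negative space of `C_k`-invariant functions.

* `inv_neg_space` (abstract): `X` finite dimensional, `b` symmetric bilinear, positive definite on `X`,
  `a` symmetric bilinear, a set `T` of linear maps preserving `X`, `a`, `b`.  If `V ≤ X` and `a < 0` on
  `V \ 0` then there is `N ≤ X`, invariant under `T`, `a < 0` on `N \ 0`, `finrank V ≤ finrank N`.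
  Proof: `N` = the sum of the eigenspaces with negative eigenvalue of the `b`-selfadjoint operator
  of `a` on `X` (or: a maximal `T`-invariant negative subspace `N`; on its `a`-orthogonal complement in
  `X` the form is `≥ 0`, since otherwise the minimum of `a/b` there is `μ < 0` and
  `{x | a x x = μ b x x}` is a further invariant negative subspace).
* `inv_space`: apply it to `X` = the span of all `g·V`, `g ∈ D_k` (finitely many), `b(u,v) = ∫ u v`,
  `a(u,v) = ∫ ⟪∇u, ∇v⟫ - Λ ∫ u v` (polarisation of `q`), `T = {u ↦ u(ω ·), u ↦ u(conj ·)}`.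
  `N = N⁺ ⊕ N⁻` (even/odd under conj), `finrank N⁻ ≤ 1` by `A1`, so `finrank N⁺ ≥ 3`.
  `(T u)(z) = u(ω z) - u(ω⁻¹ z)` maps `N⁺` into `N⁻`; `K = ker T ∩ N⁺` has `finrank ≥ 2`, is invariant
  under `ω`, and for `u ∈ K`: `u(ω² z) = u z`, so `w = u(ω ·) - u ∈ K` has `w(ω ·) = -w`, `w(conj ·) = w`,
  hence `w = 0` by `A2` (`q w < 0` if `w ≠ 0`).  So `K` consists of `ω`-invariant functions.
-/

open MeasureTheory Set
open scoped ContDiff

namespace DK4

namespace AlgAux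

theorem inv_neg_space {X : Type*} [AddCommGroup X] [Module ℝ X] [FiniteDimensional ℝ X]
    (a b : X →ₗ[ℝ] X →ₗ[ℝ] ℝ) (ha : ∀ x y, a x y = a y x) (hb : ∀ x y, b x y = b y x)
    (hbp : ∀ x, x ≠ 0 → 0 < b x x) {ι : Type*} (T : ι → X →ₗ[ℝ] X)
    (hTa : ∀ i x, a (T i x) (T i x) = a x x) (hTb : ∀ i x, b (T i x) (T i x) = b x x)
    (V : Submodule ℝ X) (hV : ∀ x ∈ V, x ≠ 0 → a x x < 0) :
    ∃ N : Submodule ℝ X, (∀ i, ∀ x ∈ N, T i x ∈ N) ∧ (∀ x ∈ N, x ≠ 0 → a x x < 0) ∧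
      Module.finrank ℝ V ≤ Module.finrank ℝ N := by
  classical
  -- polarisation
  have pol : ∀ (c : X →ₗ[ℝ] X →ₗ[ℝ] ℝ), (∀ x y, c x y = c y x) → ∀ (i : ι),
      (∀ x, c (T i x) (T i x) = c x x) → ∀ x y, c (T i x) (T i y) = c x y := by
    intro c hc i h x y
    have h1 := h (x + y)
    simp only [map_add, LinearMap.add_apply] at h1
    rw [h x, h y, hc (T i y) (T i x), hc y x] at h1
    linarith
  have hTa' := fun i => pol a ha i (hTa i)
  have hTb' := fun i => pol b hb i (hTb i)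
  have hb0 : ∀ x, b x x = 0 → x = 0 := by
    intro x hx
    by_contra h
    exact (hbp x h).ne' hx
  -- the inner product
  let core : InnerProductSpace.Core ℝ X :=
    { inner := fun x y => b x y
      conj_inner_symm := fun x y => by simpa using hb y x
      re_inner_nonneg := fun x => by
        rcases eq_or_ne x 0 with rfl | hx
        · simp
        · simpa using (hbp x hx).le
      add_left := fun x y z => by simp
      smul_left := fun x y r => by simp
      definite := fun x hx => hb0 x hx }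
  letI : NormedAddCommGroup X := core.toNormedAddCommGroup
  letI : InnerProductSpace ℝ X := InnerProductSpace.ofCore core.toCore
  have hin : ∀ x y : X, inner ℝ x y = b x y := fun _ _ => rfl
  -- the operator of `a`
  have hinj : Function.Injective b := by
    rw [← LinearMap.ker_eq_bot, LinearMap.ker_eq_bot']
    intro x hx
    exact hb0 x (by rw [hx]; rfl)
  have hsurj : Function.Surjective b :=
    (LinearMap.injective_iff_surjective_of_finrank_eq_finrank
      (Subspace.dual_finrank_eq (K := ℝ) (V := X)).symm).1 hinj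
  let E : X ≃ₗ[ℝ] (X →ₗ[ℝ] ℝ) := LinearEquiv.ofBijective b ⟨hinj, hsurj⟩
  let S : X →ₗ[ℝ] X := E.symm.toLinearMap ∘ₗ a
  have hSa : ∀ x, b (S x) = a x := fun x => E.apply_symm_apply (a x)
  have hS : S.IsSymmetric := by
    intro x y
    rw [hin, hin, hSa, hb x (S y), hSa, ha]
  have hn : Module.finrank ℝ X = Module.finrank ℝ X := rfl
  set e := hS.eigenvectorBasis hn with he
  set l := hS.eigenvalues hn with hl
  have hSe : ∀ i, S (e i) = l i • e i := fun i => hS.apply_eigenvectorBasis hn i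
  have hexp : ∀ x : X, ∑ i, b (e i) x • e i = x := fun x => e.sum_repr' x
  have haexp : ∀ x : X, a x x = ∑ i, l i * (b (e i) x) ^ 2 := by
    intro x
    have h1 : a x x = b (S x) x := by rw [hSa]
    have h2 := e.sum_inner_mul_inner (S x) x
    rw [h1, ← hin, ← h2]
    refine Finset.sum_congr rfl fun i _ => ?_
    rw [hin, hin, hSa, ha, ← hSa, hSe, map_smul, LinearMap.smul_apply, smul_eq_mul]
    ring
  have hTsurj : ∀ i, Function.Surjective (T i) := by
    intro i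
    rw [← LinearMap.injective_iff_surjective, ← LinearMap.ker_eq_bot, LinearMap.ker_eq_bot']
    intro x hx
    refine hb0 x ?_
    rw [← hTb i x, hx]
    simp
  have hcross : ∀ t i j, l i * b (e i) (T t (e j)) = l j * b (e i) (T t (e j)) := by
    intro t i j
    obtain ⟨y, hy⟩ := hTsurj t (e i)
    have h1 : l i * b (e i) (T t (e j)) = a (e i) (T t (e j)) := by
      rw [← hSa, hSe, map_smul, LinearMap.smul_apply, smul_eq_mul]
    have h2 : a (e i) (T t (e j)) = l j * b (e j) y := by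
      rw [← hy, hTa', ha, ← hSa, hSe, map_smul, LinearMap.smul_apply, smul_eq_mul]
    have h3 : b (e i) (T t (e j)) = b (e j) y := by
      rw [← hy, hTb', hb]
    rw [h1, h2, h3]
  let N : Submodule ℝ X :=
    { carrier := {x | ∀ i, 0 ≤ l i → b (e i) x = 0}
      add_mem' := fun {x y} hx hy i hi => by rw [map_add, hx i hi, hy i hi, add_zero]
      zero_mem' := fun i _ => map_zero _
      smul_mem' := fun c x hx i hi => by rw [map_smul, hx i hi, smul_zero] }
  have hNm : ∀ x, x ∈ N ↔ ∀ i, 0 ≤ l i → b (e i) x = 0 := fun x => Iff.rfl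
  refine ⟨N, fun t x hx i hi => ?_, fun x hx hx0 => ?_, ?_⟩
  · conv_lhs => rw [← hexp x]
    rw [map_sum, map_sum]
    refine Finset.sum_eq_zero fun j _ => ?_
    rw [map_smul, map_smul, smul_eq_mul]
    rcases le_or_gt 0 (l j) with hj | hj
    · rw [hx j hj, zero_mul]
    · have h1 := hcross t i j
      have h2 : (l i - l j) * b (e i) (T t (e j)) = 0 := by linarith
      rcases mul_eq_zero.1 h2 with h3 | h3
      · linarith
      · rw [h3, mul_zero]
  · rw [haexp]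
    obtain ⟨i, hi⟩ : ∃ i, b (e i) x ≠ 0 := by
      by_contra hcon
      push Not at hcon
      apply hx0
      rw [← hexp x]
      exact Finset.sum_eq_zero fun i _ => by rw [hcon i, zero_smul]
    have hli : l i < 0 := by
      by_contra h
      exact hi (hx i (not_lt.1 h))
    refine Finset.sum_neg' (fun j _ => ?_) ⟨i, Finset.mem_univ _, ?_⟩
    · rcases le_or_gt 0 (l j) with hj | hj
      · rw [hx j hj]; simp
      · exact mul_nonpos_of_nonpos_of_nonneg hj.le (sq_nonneg _)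
    · exact mul_neg_of_neg_of_pos hli (by positivity)
  · let J := {i // l i < 0}
    let F : V →ₗ[ℝ] (J → ℝ) := LinearMap.pi fun i => (b (e i.1)).comp V.subtype
    have hF : Function.Injective F := by
      rw [← LinearMap.ker_eq_bot, LinearMap.ker_eq_bot']
      intro x hx
      by_contra hx0
      have h1 := hV x x.2 (fun h => hx0 (Subtype.ext h))
      rw [haexp] at h1
      have h2 : 0 ≤ ∑ i, l i * (b (e i) (x : X)) ^ 2 := by
        refine Finset.sum_nonneg fun i _ => ?_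
        rcases lt_or_ge (l i) 0 with hi | hi
        · have h3 : F x ⟨i, hi⟩ = 0 := by rw [hx]; rfl
          have h4 : b (e i) (x : X) = 0 := h3
          rw [h4]; simp
        · exact mul_nonneg hi (sq_nonneg _)
      linarith
    have h1 : Module.finrank ℝ V ≤ Fintype.card J := by
      have := LinearMap.finrank_le_finrank_of_injective hF
      simpa using this
    have hmem : ∀ i : J, e i.1 ∈ N := by
      intro i j hj
      have hij : j ≠ i.1 := by
        rintro rfl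
        exact absurd i.2 (not_lt.2 hj)
      have := e.orthonormal.2 hij
      exact this
    have hli : LinearIndependent ℝ (fun i : J => (⟨e i.1, hmem i⟩ : N)) := by
      apply LinearIndependent.of_comp N.subtype
      exact (e.orthonormal.linearIndependent).comp (fun i : J => i.1) Subtype.val_injective
    exact h1.trans hli.fintype_card_le_finrank

/-- tests as a submodule -/
def TS (Ω : Set ℂ) : Submodule ℝ (ℂ → ℝ) where
  carrier := {u | IsTest Ω u}
  add_mem' := fun {u v} hu hv => ⟨hu.1.add hv.1, hu.2.1.add hv.2.1,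
    (tsupport_add u v).trans (union_subset hu.2.2 hv.2.2)⟩
  zero_mem' := ⟨contDiff_const, HasCompactSupport.zero, by
    have : tsupport (0 : ℂ → ℝ) = ∅ := by simp
    rw [this]; exact empty_subset _⟩
  smul_mem' := fun c u hu => ⟨hu.1.const_smul c, by
      have := hu.2.1.comp_left (g := fun x : ℝ => c * x) (by simp)
      exact this, by
      refine Subset.trans ?_ hu.2.2
      exact closure_mono (Function.support_const_smul_subset c u)⟩

theorem mem_TS {Ω : Set ℂ} {u : ℂ → ℝ} : u ∈ TS Ω ↔ IsTest Ω u := Iff.rfl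

/-- the rotation of functions -/
noncomputable def Rr (k : ℕ) : (ℂ → ℝ) →ₗ[ℝ] (ℂ → ℝ) where
  toFun u z := u (rot k * z)
  map_add' _ _ := rfl
  map_smul' _ _ := rfl

/-- the reflection of functions -/
def Cc : (ℂ → ℝ) →ₗ[ℝ] (ℂ → ℝ) where
  toFun u z := u ((starRingEnd ℂ) z)
  map_add' _ _ := rfl
  map_smul' _ _ := rfl

theorem Rr_pow (k j : ℕ) (u : ℂ → ℝ) : ((Rr k) ^ j) u = fun z => u (rot k ^ j * z) := by
  induction j generalizing u with
  | zero => simp
  | succ j ih =>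
    rw [pow_succ, Module.End.mul_apply, ih]
    funext z
    change u (rot k * (rot k ^ j * z)) = _
    rw [← mul_assoc, ← pow_succ']

theorem Cc_Cc (u : ℂ → ℝ) : Cc (Cc u) = u := by
  funext z
  change u ((starRingEnd ℂ) ((starRingEnd ℂ) z)) = u z
  rw [Complex.conj_conj]

theorem conj_rot {k : ℕ} (hk : 0 < k) : (starRingEnd ℂ) (rot k) = rot k ^ (k - 1) := by
  have h1 : rot k ^ (k - 1) * rot k = 1 := by
    rw [← pow_succ, Nat.sub_add_cancel hk, rot_pow hk]
  have h2 : (starRingEnd ℂ) (rot k) * rot k = 1 := by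
    rw [mul_comm, Complex.mul_conj, Complex.normSq_eq_norm_sq, norm_rot]
    simp
  have h3 : rot k ≠ 0 := Complex.exp_ne_zero _
  exact mul_right_cancel₀ h3 (h2.trans h1.symm)

theorem Rr_Cc {k : ℕ} (hk : 0 < k) (u : ℂ → ℝ) : Rr k (Cc u) = Cc ((Rr k ^ (k - 1)) u) := by
  rw [Rr_pow]
  funext z
  change u ((starRingEnd ℂ) (rot k * z)) = u (rot k ^ (k - 1) * (starRingEnd ℂ) z)
  rw [map_mul, conj_rot hk]

theorem Rr_k {k : ℕ} (hk : 0 < k) (u : ℂ → ℝ) : (Rr k ^ k) u = u := by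
  rw [Rr_pow, rot_pow hk]
  simp

theorem inv_mem {k : ℕ} (hk : 0 < k) {Ω : Set ℂ} (hΩ : DSym k Ω) {z : ℂ} (h : rot k * z ∈ Ω) :
    z ∈ Ω := by
  have h1 : CSym k Ω := fun z hz => (hΩ z hz).1
  have h2 := TopoEAux.sym_pow h1 (k - 1) h
  rwa [← mul_assoc, ← pow_succ, Nat.sub_add_cancel hk, rot_pow hk, one_mul] at h2

theorem Rr_mem {k : ℕ} (hk : 0 < k) {Ω : Set ℂ} (hΩ : DSym k Ω) {u : ℂ → ℝ} (hu : u ∈ TS Ω) :
    Rr k u ∈ TS Ω := by
  have h0 : rot k ≠ 0 := Complex.exp_ne_zero _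
  refine ⟨?_, ?_, ?_⟩
  · exact hu.1.comp (contDiff_const.mul contDiff_id)
  · exact hu.2.1.comp_homeomorph (Homeomorph.mulLeft₀ (rot k) h0)
  · have h1 := tsupport_comp_eq_preimage u (Homeomorph.mulLeft₀ (rot k) h0)
    intro z hz
    have h2 : z ∈ (Homeomorph.mulLeft₀ (rot k) h0) ⁻¹' tsupport u := by
      rw [← h1]; exact hz
    exact inv_mem hk hΩ (hu.2.2 h2)

theorem Cc_mem {k : ℕ} {Ω : Set ℂ} (hΩ : DSym k Ω) {u : ℂ → ℝ} (hu : u ∈ TS Ω) :
    Cc u ∈ TS Ω := by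
  refine ⟨?_, ?_, ?_⟩
  · exact hu.1.comp Complex.conjCLE.contDiff
  · exact hu.2.1.comp_homeomorph Complex.conjCLE.toHomeomorph
  · have h1 := tsupport_comp_eq_preimage u Complex.conjCLE.toHomeomorph
    intro z hz
    have h2 : z ∈ Complex.conjCLE.toHomeomorph ⁻¹' tsupport u := by
      rw [← h1]; exact hz
    have h3 := (hΩ _ (hu.2.2 h2)).2
    have h4 : (starRingEnd ℂ) (Complex.conjCLE.toHomeomorph z) = z := Complex.conj_conj z
    rwa [h4] at h3

theorem norm_sq_dual (L : ℂ →L[ℝ] ℝ) : ‖L‖ ^ 2 = L 1 ^ 2 + L Complex.I ^ 2 := by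
  have hz : ∀ z : ℂ, L z = z.re * L 1 + z.im * L Complex.I := by
    intro z
    conv_lhs => rw [← Complex.re_add_im z]
    have e1 : ((z.re : ℂ) + (z.im : ℂ) * Complex.I) = z.re • (1 : ℂ) + z.im • Complex.I := by
      simp
    rw [e1, map_add, map_smul, map_smul, smul_eq_mul, smul_eq_mul]
  set s : ℝ := L 1 ^ 2 + L Complex.I ^ 2 with hs
  have hs0 : 0 ≤ s := by positivity
  have h1 : ‖L‖ ≤ Real.sqrt s := by
    refine L.opNorm_le_bound (Real.sqrt_nonneg _) fun z => ?_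
    rw [hz z, Real.norm_eq_abs]
    have h2 : ‖z‖ = Real.sqrt (z.re ^ 2 + z.im ^ 2) := by
      rw [Complex.norm_eq_sqrt_sq_add_sq]
    rw [h2, ← Real.sqrt_mul hs0]
    apply Real.abs_le_sqrt
    nlinarith [sq_nonneg (L 1 * z.im - L Complex.I * z.re)]
  have h2 : s ≤ ‖L‖ * Real.sqrt s := by
    have h3 := L.le_opNorm (⟨L 1, L Complex.I⟩ : ℂ)
    rw [hz] at h3
    have h4 : ‖(⟨L 1, L Complex.I⟩ : ℂ)‖ = Real.sqrt s := by
      rw [Complex.norm_eq_sqrt_sq_add_sq]
    rw [h4, Real.norm_eq_abs] at h3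
    refine le_trans ?_ h3
    refine le_trans (le_of_eq ?_) (le_abs_self _)
    simp only []
    ring
  have h3 : Real.sqrt s ≤ ‖L‖ := by
    rcases hs0.eq_or_lt with h4 | h4
    · rw [← h4, Real.sqrt_zero]; exact norm_nonneg _
    · have h5 : 0 < Real.sqrt s := Real.sqrt_pos.2 h4
      have h6 : Real.sqrt s * Real.sqrt s ≤ ‖L‖ * Real.sqrt s := by
        rw [Real.mul_self_sqrt hs0]; exact h2
      exact le_of_mul_le_mul_right h6 h5
  have h4 : ‖L‖ = Real.sqrt s := le_antisymm h1 h3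
  rw [h4, Real.sq_sqrt hs0]

/-- the derivative of a test in a direction is continuous with compact support -/
theorem dc {Ω : Set ℂ} {u : ℂ → ℝ} (hu : u ∈ TS Ω) (e : ℂ) :
    Continuous (fun z => fderiv ℝ u z e) ∧ HasCompactSupport (fun z => fderiv ℝ u z e) := by
  refine ⟨(hu.1.continuous_fderiv (by simp)).clm_apply continuous_const, ?_⟩
  exact hu.2.1.fderiv_apply ℝ e

theorem int_mul {f g : ℂ → ℝ} (hf : Continuous f) (hc : HasCompactSupport f) (hg : Continuous g) :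
    Integrable (fun z => f z * g z) :=
  (hf.mul hg).integrable_of_hasCompactSupport hc.mul_right

theorem test_diff {Ω : Set ℂ} {u : ℂ → ℝ} (hu : u ∈ TS Ω) (z : ℂ) : DifferentiableAt ℝ u z :=
  (hu.1.differentiable (by simp)) z

/-- the `L²` form -/
noncomputable def bF (Ω : Set ℂ) : TS Ω →ₗ[ℝ] TS Ω →ₗ[ℝ] ℝ :=
  LinearMap.mk₂ ℝ (fun u v => ∫ z, (u : ℂ → ℝ) z * (v : ℂ → ℝ) z)
    (fun u v w => by
      rw [← integral_add (int_mul u.2.1.continuous u.2.2.1 w.2.1.continuous)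
        (int_mul v.2.1.continuous v.2.2.1 w.2.1.continuous)]
      congr 1; funext z
      change ((u : ℂ → ℝ) z + (v : ℂ → ℝ) z) * _ = _
      ring)
    (fun c u v => by
      rw [smul_eq_mul, ← integral_const_mul]
      congr 1; funext z
      change (c * (u : ℂ → ℝ) z) * _ = _
      ring)
    (fun u v w => by
      rw [← integral_add (int_mul u.2.1.continuous u.2.2.1 v.2.1.continuous)
        (int_mul u.2.1.continuous u.2.2.1 w.2.1.continuous)]
      congr 1; funext z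
      change _ * ((v : ℂ → ℝ) z + (w : ℂ → ℝ) z) = _
      ring)
    (fun c u v => by
      rw [smul_eq_mul, ← integral_const_mul]
      congr 1; funext z
      change _ * (c * (v : ℂ → ℝ) z) = _
      ring)

/-- the directional Dirichlet form -/
noncomputable def dF (Ω : Set ℂ) (e : ℂ) : TS Ω →ₗ[ℝ] TS Ω →ₗ[ℝ] ℝ :=
  LinearMap.mk₂ ℝ (fun u v => ∫ z, fderiv ℝ (u : ℂ → ℝ) z e * fderiv ℝ (v : ℂ → ℝ) z e)
    (fun u v w => by
      rw [← integral_add (int_mul (dc u.2 e).1 (dc u.2 e).2 (dc w.2 e).1)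
        (int_mul (dc v.2 e).1 (dc v.2 e).2 (dc w.2 e).1)]
      congr 1; funext z
      have h1 : fderiv ℝ ((u + v : TS Ω) : ℂ → ℝ) z = fderiv ℝ (u : ℂ → ℝ) z +
        fderiv ℝ (v : ℂ → ℝ) z := fderiv_add (test_diff u.2 z) (test_diff v.2 z)
      rw [h1, add_apply]
      ring)
    (fun c u v => by
      rw [smul_eq_mul, ← integral_const_mul]
      congr 1; funext z
      have h1 : fderiv ℝ ((c • u : TS Ω) : ℂ → ℝ) z = c • fderiv ℝ (u : ℂ → ℝ) z :=
        fderiv_const_smul (test_diff u.2 z) c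
      rw [h1, smul_apply, smul_eq_mul]
      ring)
    (fun u v w => by
      rw [← integral_add (int_mul (dc u.2 e).1 (dc u.2 e).2 (dc v.2 e).1)
        (int_mul (dc u.2 e).1 (dc u.2 e).2 (dc w.2 e).1)]
      congr 1; funext z
      have h1 : fderiv ℝ ((v + w : TS Ω) : ℂ → ℝ) z = fderiv ℝ (v : ℂ → ℝ) z +
        fderiv ℝ (w : ℂ → ℝ) z := fderiv_add (test_diff v.2 z) (test_diff w.2 z)
      rw [h1, add_apply]
      ring)
    (fun c u v => by
      rw [smul_eq_mul, ← integral_const_mul]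
      congr 1; funext z
      have h1 : fderiv ℝ ((c • v : TS Ω) : ℂ → ℝ) z = c • fderiv ℝ (v : ℂ → ℝ) z :=
        fderiv_const_smul (test_diff v.2 z) c
      rw [h1, smul_apply, smul_eq_mul]
      ring)

/-- the form of `q Λ` -/
noncomputable def aF (Ω : Set ℂ) (Λ : ℝ) : TS Ω →ₗ[ℝ] TS Ω →ₗ[ℝ] ℝ :=
  dF Ω 1 + dF Ω Complex.I - Λ • bF Ω

theorem bF_apply {Ω : Set ℂ} (u v : TS Ω) : bF Ω u v = ∫ z, (u : ℂ → ℝ) z * (v : ℂ → ℝ) z := rfl

theorem dF_apply {Ω : Set ℂ} (e : ℂ) (u v : TS Ω) : dF Ω e u v =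
    ∫ z, fderiv ℝ (u : ℂ → ℝ) z e * fderiv ℝ (v : ℂ → ℝ) z e := rfl

theorem bF_symm {Ω : Set ℂ} (u v : TS Ω) : bF Ω u v = bF Ω v u := by
  rw [bF_apply, bF_apply]
  congr 1; funext z
  ring

theorem dF_symm {Ω : Set ℂ} (e : ℂ) (u v : TS Ω) : dF Ω e u v = dF Ω e v u := by
  rw [dF_apply, dF_apply]
  congr 1; funext z
  ring

theorem aF_symm {Ω : Set ℂ} (Λ : ℝ) (u v : TS Ω) : aF Ω Λ u v = aF Ω Λ v u := by
  have h : ∀ u v, aF Ω Λ u v = dF Ω 1 u v + dF Ω Complex.I u v - Λ * bF Ω u v := fun u v => rfl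
  rw [h, h, dF_symm, dF_symm Complex.I, bF_symm]

theorem aF_self {Ω : Set ℂ} (Λ : ℝ) (u : TS Ω) : aF Ω Λ u u = q Λ u := by
  have h : aF Ω Λ u u = dF Ω 1 u u + dF Ω Complex.I u u - Λ * bF Ω u u := rfl
  rw [h, dF_apply, dF_apply, bF_apply, q]
  rw [← integral_add (int_mul (dc u.2 1).1 (dc u.2 1).2 (dc u.2 1).1)
        (int_mul (dc u.2 Complex.I).1 (dc u.2 Complex.I).2 (dc u.2 Complex.I).1)]
  congr 1
  · congr 1; funext z
    rw [norm_sq_dual]
    ring
  · congr 2; funext z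
    ring

theorem bF_self {Ω : Set ℂ} (u : TS Ω) : bF Ω u u = q (-1) u - q 0 u := by
  rw [bF_apply]
  unfold q
  have : ∀ z, (u : ℂ → ℝ) z * (u : ℂ → ℝ) z = (u : ℂ → ℝ) z ^ 2 := fun z => by ring
  simp only [this]
  ring

theorem bF_pos {Ω : Set ℂ} (u : TS Ω) (hu : u ≠ 0) : 0 < bF Ω u u := by
  rw [bF_apply]
  have hc : Continuous fun z => (u : ℂ → ℝ) z * (u : ℂ → ℝ) z := u.2.1.continuous.mul u.2.1.continuous
  obtain ⟨z0, hz0⟩ : ∃ z, (u : ℂ → ℝ) z ≠ 0 := by
    by_contra h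
    push Not at h
    exact hu (Subtype.ext (funext h))
  refine hc.integral_pos_of_hasCompactSupport_nonneg_nonzero (x := z0) u.2.2.1.mul_right
    (fun z => mul_self_nonneg _) (mul_ne_zero hz0 hz0)


theorem rk {N : Submodule ℝ (ℂ → ℝ)} [FiniteDimensional ℝ N] (D : (ℂ → ℝ) →ₗ[ℝ] (ℂ → ℝ)) :
    Module.finrank ℝ N ≤ Module.finrank ℝ (N.map D) +
      Module.finrank ℝ (N ⊓ LinearMap.ker D : Submodule ℝ (ℂ → ℝ)) := by
  have h1 := LinearMap.finrank_range_add_finrank_ker (D.domRestrict N)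
  have h2 : LinearMap.range (D.domRestrict N) = N.map D := LinearMap.range_domRestrict N D
  have h3 : Module.finrank ℝ (LinearMap.ker (D.domRestrict N)) =
      Module.finrank ℝ ((LinearMap.ker (D.domRestrict N)).map N.subtype) :=
    (Submodule.finrank_map_subtype_eq N _).symm
  have h4 : (LinearMap.ker (D.domRestrict N)).map N.subtype ≤ N ⊓ LinearMap.ker D := by
    rintro _ ⟨x, hx, rfl⟩
    exact ⟨x.2, hx⟩
  haveI : FiniteDimensional ℝ (N ⊓ LinearMap.ker D : Submodule ℝ (ℂ → ℝ)) :=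
    Submodule.finiteDimensional_of_le inf_le_left
  have h5 := Submodule.finrank_mono h4
  rw [h2] at h1
  omega

/-- an invariant finite dimensional space of tests containing `V` -/
theorem exists_X {k : ℕ} (hk : 0 < k) {Ω : Set ℂ} (hΩ : DSym k Ω)
    {V : Submodule ℝ (ℂ → ℝ)} [FiniteDimensional ℝ V] (hVt : V ≤ TS Ω) :
    ∃ X : Submodule ℝ (ℂ → ℝ), FiniteDimensional ℝ X ∧ V ≤ X ∧ X ≤ TS Ω ∧
      (∀ u ∈ X, Rr k u ∈ X) ∧ ∀ u ∈ X, Cc u ∈ X := by
  let X0 : Submodule ℝ (ℂ → ℝ) := ⨆ j : Fin k, V.map (Rr k ^ (j : ℕ))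
  haveI : FiniteDimensional ℝ X0 := by
    have : ∀ j : Fin k, FiniteDimensional ℝ (V.map (Rr k ^ (j : ℕ))) := fun j => inferInstance
    exact Submodule.finiteDimensional_iSup _
  have hmemj : ∀ (j : ℕ), V.map (Rr k ^ j) ≤ X0 := by
    intro j
    have h1 : V.map (Rr k ^ j) = V.map (Rr k ^ (j % k)) := by
      congr 1
      apply LinearMap.ext
      intro u
      rw [Rr_pow, Rr_pow]
      have : rot k ^ j = rot k ^ (j % k) := by
        conv_lhs => rw [← Nat.mod_add_div j k, pow_add, pow_mul, rot_pow hk, one_pow, mul_one]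
      rw [this]
    rw [h1]
    exact le_iSup (fun j : Fin k => V.map (Rr k ^ (j : ℕ))) ⟨j % k, Nat.mod_lt _ hk⟩
  have hR0 : ∀ j : ℕ, ∀ u ∈ X0, (Rr k ^ j) u ∈ X0 := by
    intro j u hu
    have h1 : X0.map (Rr k ^ j) ≤ X0 := by
      rw [Submodule.map_iSup]
      refine iSup_le fun i => ?_
      rw [← Submodule.map_comp, ← Module.End.mul_eq_comp, ← pow_add]
      exact hmemj _
    exact h1 ⟨u, hu, rfl⟩
  have hX0t : X0 ≤ TS Ω := by
    refine iSup_le fun j => ?_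
    rintro _ ⟨u, hu, rfl⟩
    have h1 : ∀ (j : ℕ) (u : ℂ → ℝ), u ∈ TS Ω → (Rr k ^ j) u ∈ TS Ω := by
      intro j
      induction j with
      | zero => intro u hu; simpa using hu
      | succ j ih =>
        intro u hu
        rw [pow_succ, Module.End.mul_apply]
        exact ih _ (Rr_mem hk hΩ hu)
    exact h1 _ _ (hVt hu)
  refine ⟨X0 ⊔ X0.map Cc, inferInstance, ?_, ?_, ?_, ?_⟩
  · refine le_trans ?_ le_sup_left
    have := hmemj 0
    rwa [pow_zero, Module.End.one_eq_id, Submodule.map_id] at this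
  · refine sup_le hX0t ?_
    rintro _ ⟨u, hu, rfl⟩
    exact Cc_mem hΩ (hX0t hu)
  · intro u hu
    obtain ⟨x, hx, y, hy, rfl⟩ := Submodule.mem_sup.1 hu
    obtain ⟨w, hw, rfl⟩ := hy
    rw [map_add, Rr_Cc hk]
    refine Submodule.add_mem_sup ?_ ⟨_, hR0 _ w hw, rfl⟩
    have := hR0 1 x hx
    rwa [pow_one] at this
  · intro u hu
    obtain ⟨x, hx, y, hy, rfl⟩ := Submodule.mem_sup.1 hu
    obtain ⟨w, hw, rfl⟩ := hy
    rw [map_add, Cc_Cc, add_comm]
    exact Submodule.add_mem_sup hw ⟨x, hx, rfl⟩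

/-- invariant negative space -/
theorem exists_N {k : ℕ} (hk : 0 < k) {Ω : Set ℂ} (hΩ : DSym k Ω) {Λ : ℝ}
    {V : Submodule ℝ (ℂ → ℝ)} [FiniteDimensional ℝ V] (hVt : V ≤ TS Ω)
    (hneg : ∀ u ∈ V, u ≠ 0 → q Λ u < 0) :
    ∃ N : Submodule ℝ (ℂ → ℝ), FiniteDimensional ℝ N ∧ N ≤ TS Ω ∧ (∀ u ∈ N, Rr k u ∈ N) ∧
      (∀ u ∈ N, Cc u ∈ N) ∧ (∀ u ∈ N, u ≠ 0 → q Λ u < 0) ∧
      Module.finrank ℝ V ≤ Module.finrank ℝ N := by
  obtain ⟨X, hXf, hVX, hXt, hXR, hXC⟩ := exists_X hk hΩ hVt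
  let ι := Submodule.inclusion hXt
  let a : X →ₗ[ℝ] X →ₗ[ℝ] ℝ := (aF Ω Λ).compl₁₂ ι ι
  let b : X →ₗ[ℝ] X →ₗ[ℝ] ℝ := (bF Ω).compl₁₂ ι ι
  have hainst : ∀ x : X, a x x = q Λ (x : ℂ → ℝ) := fun x => aF_self Λ (ι x)
  have hbinst : ∀ x : X, b x x = q (-1) (x : ℂ → ℝ) - q 0 (x : ℂ → ℝ) := fun x => bF_self (ι x)
  let T : Bool → X →ₗ[ℝ] X := fun i =>
    if i then (Rr k).restrict hXR else Cc.restrict hXC
  have hqR : ∀ (M : ℝ) (u : ℂ → ℝ), q M (Rr k u) = q M u := fun M u => q_rot (norm_rot k) u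
  have hqC : ∀ (M : ℝ) (u : ℂ → ℝ), q M (Cc u) = q M u := fun M u => q_conj u
  have hTq : ∀ (M : ℝ) (i : Bool) (x : X), q M ((T i x : X) : ℂ → ℝ) = q M (x : ℂ → ℝ) := by
    intro M i x
    cases i
    · exact hqC M x
    · exact hqR M x
  obtain ⟨N', hN1, hN2, hN3⟩ := inv_neg_space a b (fun x y => aF_symm Λ _ _)
    (fun x y => bF_symm _ _) (fun x hx => bF_pos _ (fun h => hx (by
      have := congrArg (Subtype.val) h
      exact Subtype.ext this))) T
    (fun i x => by rw [hainst, hainst, hTq])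
    (fun i x => by rw [hbinst, hbinst, hTq, hTq])
    (V.comap X.subtype) (fun x hx hx0 => by
      rw [hainst]
      exact hneg x hx (fun h => hx0 (Subtype.ext h)))
  refine ⟨N'.map X.subtype, inferInstance, ?_, ?_, ?_, ?_, ?_⟩
  · rintro _ ⟨x, -, rfl⟩
    exact hXt x.2
  · rintro _ ⟨x, hx, rfl⟩
    exact ⟨T true x, hN1 true x hx, rfl⟩
  · rintro _ ⟨x, hx, rfl⟩
    exact ⟨T false x, hN1 false x hx, rfl⟩
  · rintro _ ⟨x, hx, rfl⟩ h0
    have h1 := hN2 x hx (fun h => h0 (by rw [h]; rfl))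
    rw [hainst] at h1
    exact h1
  · rw [Submodule.finrank_map_subtype_eq]
    refine le_trans (le_of_eq ?_) hN3
    exact ((Submodule.comapSubtypeEquivOfLe hVX).finrank_eq).symm

end AlgAux

theorem inv_space {k : ℕ} (hk : 3 ≤ k) {Ω : Set ℂ} (hΩ : DSym k Ω) {Λ : ℝ}
    {V : Submodule ℝ (ℂ → ℝ)} (hV : Module.finrank ℝ V = 4) (hVt : ∀ u ∈ V, IsTest Ω u)
    (hneg : ∀ u ∈ V, u ≠ 0 → q Λ u < 0)
    (A1 : ∀ M : Submodule ℝ (ℂ → ℝ), (∀ u ∈ M, IsTest Ω u) →
      (∀ u ∈ M, ∀ z, u ((starRingEnd ℂ) z) = -u z) → (∀ u ∈ M, u ≠ 0 → q Λ u < 0) →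
      Module.finrank ℝ M ≤ 1)
    (A2 : ∀ u : ℂ → ℝ, IsTest Ω u → (∀ z, u ((starRingEnd ℂ) z) = u z) →
      (∀ z, u (rot k * z) = -u z) → 0 ≤ q Λ u) :
    ∃ K : Submodule ℝ (ℂ → ℝ), 2 ≤ Module.finrank ℝ K ∧ (∀ u ∈ K, IsTest Ω u) ∧
      (∀ u ∈ K, ∀ z, u (rot k * z) = u z) ∧ (∀ u ∈ K, u ≠ 0 → q Λ u < 0) := by
  have hk0 : 0 < k := by omega
  haveI : FiniteDimensional ℝ V := Module.finite_of_finrank_pos (by omega)
  obtain ⟨N, hNf, hNt, hNR, hNC, hNn, hN4⟩ := AlgAux.exists_N hk0 hΩ (fun u hu => hVt u hu) hneg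
  rw [hV] at hN4
  -- odd and even parts
  let D : (ℂ → ℝ) →ₗ[ℝ] (ℂ → ℝ) := LinearMap.id - AlgAux.Cc
  have hD : ∀ u, D u = u - AlgAux.Cc u := fun u => rfl
  have h1 := AlgAux.rk (N := N) D
  have h2 : Module.finrank ℝ (N.map D) ≤ 1 := by
    refine A1 _ ?_ ?_ ?_
    · rintro _ ⟨u, hu, rfl⟩
      exact hNt (N.sub_mem hu (hNC u hu))
    · rintro _ ⟨u, hu, rfl⟩ z
      rw [hD]
      have h3 : AlgAux.Cc (u - AlgAux.Cc u) = AlgAux.Cc u - u := by
        rw [map_sub, AlgAux.Cc_Cc]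
      have h4 := congrFun h3 z
      change (u - AlgAux.Cc u) ((starRingEnd ℂ) z) = _ at h4
      rw [h4, Pi.sub_apply, Pi.sub_apply]
      ring
    · rintro _ ⟨u, hu, rfl⟩ h0
      exact hNn _ (N.sub_mem hu (hNC u hu)) h0
  set P : Submodule ℝ (ℂ → ℝ) := N ⊓ LinearMap.ker D with hP
  have hP3 : 3 ≤ Module.finrank ℝ P := by omega
  have hPC : ∀ u ∈ P, AlgAux.Cc u = u := by
    rintro u ⟨-, hu⟩
    have h3 : u - AlgAux.Cc u = 0 := hu
    exact (sub_eq_zero.1 h3).symm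
  haveI : FiniteDimensional ℝ P := Submodule.finiteDimensional_of_le inf_le_left
  let E : (ℂ → ℝ) →ₗ[ℝ] (ℂ → ℝ) := AlgAux.Rr k - (AlgAux.Rr k) ^ (k - 1)
  have hE : ∀ u, E u = AlgAux.Rr k u - ((AlgAux.Rr k) ^ (k - 1)) u := fun u => rfl
  have hNRj : ∀ (j : ℕ) (u : ℂ → ℝ), u ∈ N → ((AlgAux.Rr k) ^ j) u ∈ N := by
    intro j
    induction j with
    | zero => intro u hu; simpa using hu
    | succ j ih =>
      intro u hu
      rw [pow_succ, Module.End.mul_apply]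
      exact ih _ (hNR _ hu)
  have hCR1 : ∀ u, AlgAux.Cc (AlgAux.Rr k (AlgAux.Cc u)) = ((AlgAux.Rr k) ^ (k - 1)) u := by
    intro u
    rw [AlgAux.Rr_Cc hk0, AlgAux.Cc_Cc]
  have hCRP : ∀ u ∈ P, AlgAux.Cc (AlgAux.Rr k u) = ((AlgAux.Rr k) ^ (k - 1)) u := by
    intro u hu
    have := hCR1 u
    rwa [hPC u hu] at this
  have hCRP' : ∀ u ∈ P, AlgAux.Cc (((AlgAux.Rr k) ^ (k - 1)) u) = AlgAux.Rr k u := by
    intro u hu
    rw [← hCRP u hu, AlgAux.Cc_Cc]
  have hEN : ∀ u ∈ P, E u ∈ N := fun u hu => N.sub_mem (hNR _ hu.1) (hNRj _ _ hu.1)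
  have h5 := AlgAux.rk (N := P) E
  have h6 : Module.finrank ℝ (P.map E) ≤ 1 := by
    refine A1 _ ?_ ?_ ?_
    · rintro _ ⟨u, hu, rfl⟩
      exact hNt (hEN u hu)
    · rintro _ ⟨u, hu, rfl⟩ z
      have h3 : AlgAux.Cc (E u) = -E u := by
        rw [hE, map_sub, hCRP u hu, hCRP' u hu]
        abel
      exact congrFun h3 z
    · rintro _ ⟨u, hu, rfl⟩ h0
      exact hNn _ (hEN u hu) h0
  refine ⟨P ⊓ LinearMap.ker E, by omega, fun u hu => hNt hu.1.1, ?_, fun u hu h0 =>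
    hNn u hu.1.1 h0⟩
  rintro u ⟨hu, huE⟩
  have hRR : AlgAux.Rr k u = ((AlgAux.Rr k) ^ (k - 1)) u := by
    have h3 : AlgAux.Rr k u - ((AlgAux.Rr k) ^ (k - 1)) u = 0 := huE
    exact sub_eq_zero.1 h3
  have hR2 : AlgAux.Rr k (AlgAux.Rr k u) = u := by
    have h3 : AlgAux.Rr k (((AlgAux.Rr k) ^ (k - 1)) u) = ((AlgAux.Rr k) ^ k) u := by
      rw [← Module.End.mul_apply, ← pow_succ', Nat.sub_add_cancel hk0]
    rw [hRR, h3, AlgAux.Rr_k hk0]
  have hw : AlgAux.Rr k u - u = 0 := by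
    by_contra h0
    have hwN : AlgAux.Rr k u - u ∈ N := N.sub_mem (hNR _ hu.1) hu.1
    have h7 := hNn _ hwN h0
    have h8 := A2 (AlgAux.Rr k u - u) (hNt hwN) (fun z => by
      have h9 : AlgAux.Cc (AlgAux.Rr k u - u) = AlgAux.Rr k u - u := by
        rw [map_sub, hCRP u hu, hPC u hu, hRR]
      exact congrFun h9 z) (fun z => by
      have h9 : AlgAux.Rr k (AlgAux.Rr k u - u) = -(AlgAux.Rr k u - u) := by
        rw [map_sub, hR2]
        abel
      exact congrFun h9 z)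
    linarith
  intro z
  have h9 := congrFun hw z
  rw [Pi.sub_apply, Pi.zero_apply] at h9
  have h10 : u (rot k * z) = (AlgAux.Rr k u) z := rfl
  rw [h10]
  linarith

end DK4
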