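import Pool.Agent.Lib.DK4.Inv

/-!
Module DK4.Iso: invariance of `dirEig` and of the area under the orientation preserving isometries
`w ↦ p + a w`, `‖a‖ = 1`.

Proof.  `φ w = p + a w` is an isometric equivalence of ℂ (translation and rotation), measure
preserving.  `u ↦ u ∘ φ` is a linear automorphism of `ℂ → ℝ` (inverse: composition with `φ⁻¹`); it
maps a space `V` admissible for `Ω` onto one admissible for `φ⁻¹' Ω` with the same `finrank`: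
`u ∘ φ` is smooth, `tsupport (u ∘ φ) = φ⁻¹' tsupport u` compact, `‖fderiv (u ∘ φ) w‖ =
‖fderiv u (φ w)‖` (chain rule for the translation: fderiv_comp_add_left or similar, and `fderiv_rot`),
and the two integrals agree (translation invariance and `setIntegral_rot`/measure preserving).  So the two sets of
`Λ` coincide (use the inclusion for `φ` and for `φ⁻¹`, which has the same form with `a⁻¹`, `-a⁻¹ p`).
-/

open MeasureTheory Set
open scoped ContDiff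

namespace DK4

namespace IsoAux

/-- the isometry as a homeomorphism -/
noncomputable def hom (L : ℂ ≃ₗᵢ[ℝ] ℂ) (p : ℂ) : ℂ ≃ₜ ℂ := L.toHomeomorph.trans (Homeomorph.addLeft p)

theorem hom_apply (L : ℂ ≃ₗᵢ[ℝ] ℂ) (p z : ℂ) : hom L p z = p + L z := rfl

theorem fd (L : ℂ ≃ₗᵢ[ℝ] ℂ) (p : ℂ) (u : ℂ → ℝ) (z : ℂ) :
    ‖fderiv ℝ (fun z => u (hom L p z)) z‖ = ‖fderiv ℝ u (hom L p z)‖ := by
  have h := InvAux.fd L (fun y => u (p + y)) z
  rw [fderiv_comp_add_left] at h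
  exact h

theorem integ (L : ℂ ≃ₗᵢ[ℝ] ℂ) (p : ℂ) (G : ℂ → ℝ) : ∫ z, G (hom L p z) = ∫ z, G z := by
  have h := InvAux.integ L (fun y => G (p + y))
  rw [integral_add_left_eq_self (μ := (volume : Measure ℂ)) G p] at h
  exact h

theorem incl (n : ℕ) (L : ℂ ≃ₗᵢ[ℝ] ℂ) (p : ℂ) (Ω : Set ℂ) (Λ : ℝ)
    (h : ∃ V : Submodule ℝ (ℂ → ℝ), Module.finrank ℝ V = n ∧
      (∀ u ∈ V, ContDiff ℝ ∞ u ∧ HasCompactSupport u ∧ tsupport u ⊆ Ω) ∧
      ∀ u ∈ V, ∫ z, ‖fderiv ℝ u z‖ ^ 2 ≤ Λ * ∫ z, u z ^ 2) :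
    ∃ V : Submodule ℝ (ℂ → ℝ), Module.finrank ℝ V = n ∧
      (∀ u ∈ V, ContDiff ℝ ∞ u ∧ HasCompactSupport u ∧ tsupport u ⊆ hom L p ⁻¹' Ω) ∧
      ∀ u ∈ V, ∫ z, ‖fderiv ℝ u z‖ ^ 2 ≤ Λ * ∫ z, u z ^ 2 := by
  obtain ⟨V, hV, h1, h2⟩ := h
  let T : (ℂ → ℝ) ≃ₗ[ℝ] (ℂ → ℝ) := LinearEquiv.funCongrLeft ℝ ℝ (hom L p).toEquiv
  have hT : ∀ u : ℂ → ℝ, T u = fun z => u (hom L p z) := fun u => rfl
  refine ⟨V.map T.toLinearMap, ?_, ?_, ?_⟩
  · rw [← hV]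
    exact LinearEquiv.finrank_map_eq T V
  · rintro _ ⟨u, hu, rfl⟩
    obtain ⟨c1, c2, c3⟩ := h1 u hu
    have hts : tsupport (fun z => u (hom L p z)) = hom L p ⁻¹' tsupport u :=
      tsupport_comp_eq_preimage u (hom L p)
    refine ⟨?_, ?_, ?_⟩
    · change ContDiff ℝ ∞ (fun z => u (p + L z))
      exact c1.comp (contDiff_const.add L.contDiff)
    · change IsCompact (tsupport (fun z => u (hom L p z)))
      rw [hts]
      exact (hom L p).isClosedEmbedding.isCompact_preimage c2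
    · change tsupport (fun z => u (hom L p z)) ⊆ _
      rw [hts]
      exact preimage_mono c3
  · rintro _ ⟨u, hu, rfl⟩
    change ∫ z, ‖fderiv ℝ (fun z => u (hom L p z)) z‖ ^ 2 ≤ Λ * ∫ z, u (hom L p z) ^ 2
    simp only [fd]
    rw [integ L p (fun z => ‖fderiv ℝ u z‖ ^ 2), integ L p (fun z => u z ^ 2)]
    exact h2 u hu

end IsoAux

theorem vol_iso {a p : ℂ} (ha : ‖a‖ = 1) (Ω : Set ℂ) :
    volume ((fun w => p + a * w) ⁻¹' Ω) = volume Ω := by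
  have h : (fun w => p + a * w) ⁻¹' Ω = (fun w => a * w) ⁻¹' ((fun w => p + w) ⁻¹' Ω) := rfl
  rw [h, vol_rot ha, measure_preimage_add]

theorem dirEig_iso (n : ℕ) {a p : ℂ} (ha : ‖a‖ = 1) (Ω : Set ℂ) :
    dirEig n ((fun w => p + a * w) ⁻¹' Ω) = dirEig n Ω := by
  have ha0 : a ≠ 0 := by
    rintro rfl
    simp at ha
  have ha' : ‖a⁻¹‖ = 1 := by rw [norm_inv, ha, inv_one]
  have key : ∀ (b r : ℂ), ‖b‖ = 1 → ∀ (S : Set ℂ) (Λ : ℝ),
      (∃ V : Submodule ℝ (ℂ → ℝ), Module.finrank ℝ V = n ∧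
        (∀ u ∈ V, ContDiff ℝ ∞ u ∧ HasCompactSupport u ∧ tsupport u ⊆ S) ∧
        ∀ u ∈ V, ∫ z, ‖fderiv ℝ u z‖ ^ 2 ≤ Λ * ∫ z, u z ^ 2) →
      ∃ V : Submodule ℝ (ℂ → ℝ), Module.finrank ℝ V = n ∧
        (∀ u ∈ V, ContDiff ℝ ∞ u ∧ HasCompactSupport u ∧
          tsupport u ⊆ (fun w => r + b * w) ⁻¹' S) ∧
        ∀ u ∈ V, ∫ z, ‖fderiv ℝ u z‖ ^ 2 ≤ Λ * ∫ z, u z ^ 2 := by
    intro b r hb S Λ h
    obtain ⟨L, hL⟩ := InvAux.exists_rot hb
    have h1 := IsoAux.incl n L r S Λ h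
    have h2 : (IsoAux.hom L r : ℂ → ℂ) = fun w => r + b * w := by
      funext w
      rw [IsoAux.hom_apply, hL]
    rwa [h2] at h1
  unfold dirEig
  congr 1
  ext Λ
  constructor
  · intro h
    have h1 := key a⁻¹ (-(a⁻¹ * p)) ha' _ Λ h
    have h2 : (fun w => -(a⁻¹ * p) + a⁻¹ * w) ⁻¹' ((fun w => p + a * w) ⁻¹' Ω) = Ω := by
      ext w
      have h3 : p + a * (-(a⁻¹ * p) + a⁻¹ * w) = w := by
        field_simp
        ring
      rw [mem_preimage, mem_preimage, h3]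
    rwa [h2] at h1
  · intro h
    exact key a p ha Ω Λ h

end DK4
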