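import Pool.Agent.Lib.DK4.Cases
import Pool.Agent.Lib.DK4.Alg
import Pool.Agent.Lib.DK4.Iso

/-!
Module DK4.Ax: spaces of even functions for sets with one axis, or two perpendicular axes.

* `odd_le_one_re`: apply `odd_le_one` (with `k = 1`, `DSym 1`; `rot 1 = 1`) to the rotated set
  `Ω' = (fun z => I * z) ⁻¹' Ω` and to the space `M'` of the functions `z ↦ u (I * z)`, `u ∈ M`
  (composition with a linear isometry keeps `q`, IsTest, `volume`; see DK4.Inv / DK4.Iso: `vol_rot`,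
  `InvAux.fd`, `InvAux.integ`, and `incl` in DK4.Iso for a space of composed functions).
  `-conj (I w) = I conj w`, so `u (I conj w) = u (-conj (I w)) = -u (I w)`.
* `even_space1`: `AlgAux.exists_N` with `k = 1` gives the invariant space `N`, `finrank N ≥ 4`; its odd
  part `N.map D`, `D = id - Cc`, has dimension `≤ 1` by `odd_le_one`, so `P = N ⊓ ker D` has
  dimension `≥ 3` (rank-nullity, `AlgAux.rk`).  This is the first half of the proof of `inv_space`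
  in DK4.Alg.
* `even_space2`: `k = 2` (`rot 2 = -1`, theorem `rot2` in DK4.Pair, reprove it here if needed): `P` as
  before; on `P` the map `E = id - Rr 2` has image in `N`, its members `w = u - u(-·)` satisfy
  `w (-conj z) = -w z`, so `finrank (P.map E) ≤ 1` by `odd_le_one_re` and `P ⊓ ker E` has dimension `≥ 2`.
-/

open MeasureTheory Set
open scoped ContDiff

namespace DK4

namespace AxAux

theorem rot1 : rot 1 = 1 := by
  have e : (2 * Real.pi * Complex.I / (1 : ℕ) : ℂ) = 2 * Real.pi * Complex.I := by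
    push_cast; ring
  unfold rot
  rw [e, Complex.exp_two_pi_mul_I]

theorem rotTwo : rot 2 = -1 := by
  have e : (2 * Real.pi * Complex.I / (2 : ℕ) : ℂ) = Real.pi * Complex.I := by
    push_cast; ring
  unfold rot
  rw [e, Complex.exp_pi_mul_I]

/-- the even part of an invariant space -/
theorem even_part {Ω : Set ℂ} {Λ : ℝ} (N : Submodule ℝ (ℂ → ℝ)) [FiniteDimensional ℝ N]
    (hNt : N ≤ AlgAux.TS Ω) (hNC : ∀ u ∈ N, AlgAux.Cc u ∈ N)
    (hNn : ∀ u ∈ N, u ≠ 0 → q Λ u < 0)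
    (A1 : ∀ M : Submodule ℝ (ℂ → ℝ), (∀ u ∈ M, IsTest Ω u) →
      (∀ u ∈ M, ∀ z, u ((starRingEnd ℂ) z) = -u z) → (∀ u ∈ M, u ≠ 0 → q Λ u < 0) →
      Module.finrank ℝ M ≤ 1) :
    ∃ P : Submodule ℝ (ℂ → ℝ), P ≤ N ∧ Module.finrank ℝ N ≤ Module.finrank ℝ P + 1 ∧
      ∀ u ∈ P, ∀ z, u ((starRingEnd ℂ) z) = u z := by
  let D : (ℂ → ℝ) →ₗ[ℝ] (ℂ → ℝ) := LinearMap.id - AlgAux.Cc
  have hD : ∀ u, D u = u - AlgAux.Cc u := fun u => rfl
  have h1 := AlgAux.rk (N := N) D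
  have h2 : Module.finrank ℝ (N.map D) ≤ 1 := by
    refine A1 _ ?_ ?_ ?_
    · rintro _ ⟨u, hu, rfl⟩
      exact hNt (N.sub_mem hu (hNC u hu))
    · rintro _ ⟨u, hu, rfl⟩ z
      rw [hD]
      have h3 : AlgAux.Cc (u - AlgAux.Cc u) = AlgAux.Cc u - u := by
        rw [map_sub, AlgAux.Cc_Cc]
      have h4 := congrFun h3 z
      change (u - AlgAux.Cc u) ((starRingEnd ℂ) z) = _ at h4
      rw [h4, Pi.sub_apply, Pi.sub_apply]
      ring
    · rintro _ ⟨u, hu, rfl⟩ h0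
      exact hNn _ (N.sub_mem hu (hNC u hu)) h0
  refine ⟨N ⊓ LinearMap.ker D, inf_le_left, by omega, ?_⟩
  rintro u ⟨-, hu⟩ z
  have h3 : u - AlgAux.Cc u = 0 := hu
  exact congrFun (sub_eq_zero.1 h3).symm z

end AxAux

theorem odd_le_one_re {Ω : Set ℂ} (hΩo : IsOpen Ω) (hΩ : ∀ z ∈ Ω, -(starRingEnd ℂ) z ∈ Ω)
    (hfin : volume Ω ≠ ⊤) {Λ : ℝ} (hΛ : Λ * volume.real Ω < 4 * (Real.pi * j01 ^ 2))
    (M : Submodule ℝ (ℂ → ℝ)) (hM : ∀ u ∈ M, IsTest Ω u)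
    (hodd : ∀ u ∈ M, ∀ z, u (-(starRingEnd ℂ) z) = -u z)
    (hneg : ∀ u ∈ M, u ≠ 0 → q Λ u < 0) :
    Module.finrank ℝ M ≤ 1 := by
  obtain ⟨L, hL⟩ := InvAux.exists_rot Complex.norm_I
  have hLf : (L : ℂ → ℂ) = fun z => Complex.I * z := funext hL
  have hconj : ∀ z : ℂ, Complex.I * (starRingEnd ℂ) z = -(starRingEnd ℂ) (Complex.I * z) := by
    intro z
    rw [map_mul, Complex.conj_I]
    ring
  let T : (ℂ → ℝ) ≃ₗ[ℝ] (ℂ → ℝ) := LinearEquiv.funCongrLeft ℝ ℝ L.toLinearEquiv.toEquiv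
  have hT : ∀ u : ℂ → ℝ, T u = fun z => u (L z) := fun u => rfl
  have hv : volume ((fun z : ℂ => Complex.I * z) ⁻¹' Ω) = volume Ω := vol_rot Complex.norm_I Ω
  have h := odd_le_one (k := 1) (Ω := (fun z : ℂ => Complex.I * z) ⁻¹' Ω)
    (hΩo.preimage (continuous_const.mul continuous_id)) (fun z hz => by
      rw [AxAux.rot1, one_mul]
      refine ⟨hz, ?_⟩
      rw [mem_preimage, hconj]
      exact hΩ _ hz) (by rw [hv]; exact hfin) (Λ := Λ)
    (by unfold Measure.real; rw [hv]; exact hΛ) (M.map T.toLinearMap) (by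
      rintro _ ⟨u, hu, rfl⟩
      obtain ⟨c1, c2, c3⟩ := hM u hu
      have hts : tsupport (fun z => u (L z)) = L ⁻¹' tsupport u :=
        tsupport_comp_eq_preimage u L.toHomeomorph
      refine ⟨?_, ?_, ?_⟩
      · change ContDiff ℝ ∞ (fun z => u (L z))
        exact c1.comp L.contDiff
      · change IsCompact (tsupport (fun z => u (L z)))
        rw [hts]
        exact L.toHomeomorph.isClosedEmbedding.isCompact_preimage c2
      · change tsupport (fun z => u (L z)) ⊆ _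
        rw [hts, hLf]
        exact preimage_mono c3) (by
      rintro _ ⟨u, hu, rfl⟩ z
      change u (L ((starRingEnd ℂ) z)) = -u (L z)
      rw [hL, hL, hconj]
      exact hodd u hu _) (by
      rintro _ ⟨u, hu, rfl⟩ h0
      change q Λ (fun z => u (L z)) < 0
      rw [InvAux.qL]
      refine hneg u hu fun h => h0 ?_
      rw [h]
      exact map_zero _)
  have h2 : Module.finrank ℝ (M.map T.toLinearMap) = Module.finrank ℝ M :=
    LinearEquiv.finrank_map_eq T M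
  rwa [h2] at h

theorem even_space1 {Ω : Set ℂ} (hΩo : IsOpen Ω) (hΩ : ∀ z ∈ Ω, (starRingEnd ℂ) z ∈ Ω)
    (hfin : volume Ω ≠ ⊤) {Λ : ℝ} (hΛ : Λ * volume.real Ω < 4 * (Real.pi * j01 ^ 2))
    (V : Submodule ℝ (ℂ → ℝ)) (hV : Module.finrank ℝ V = 4) (hVt : ∀ u ∈ V, IsTest Ω u)
    (hneg : ∀ u ∈ V, u ≠ 0 → q Λ u < 0) :
    ∃ P : Submodule ℝ (ℂ → ℝ), 3 ≤ Module.finrank ℝ P ∧ (∀ u ∈ P, IsTest Ω u) ∧
      (∀ u ∈ P, ∀ z, u ((starRingEnd ℂ) z) = u z) ∧ (∀ u ∈ P, u ≠ 0 → q Λ u < 0) := by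
  have hd : DSym 1 Ω := fun z hz => ⟨by rw [AxAux.rot1, one_mul]; exact hz, hΩ z hz⟩
  have : FiniteDimensional ℝ V := Module.finite_of_finrank_pos (by omega)
  obtain ⟨N, hNf, hNt, hNR, hNC, hNn, hN4⟩ := AlgAux.exists_N (k := 1) one_pos hd
    (fun u hu => hVt u hu) hneg
  obtain ⟨P, hPN, hP, hPC⟩ := AxAux.even_part N hNt hNC hNn
    (fun M h1 h2 h3 => odd_le_one hΩo hd hfin hΛ M h1 h2 h3)
  exact ⟨P, by omega, fun u hu => hNt (hPN hu), hPC, fun u hu h0 => hNn u (hPN hu) h0⟩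

theorem even_space2 {Ω : Set ℂ} (hΩo : IsOpen Ω)
    (hΩ : ∀ z ∈ Ω, -z ∈ Ω ∧ (starRingEnd ℂ) z ∈ Ω)
    (hfin : volume Ω ≠ ⊤) {Λ : ℝ} (hΛ : Λ * volume.real Ω < 4 * (Real.pi * j01 ^ 2))
    (V : Submodule ℝ (ℂ → ℝ)) (hV : Module.finrank ℝ V = 4) (hVt : ∀ u ∈ V, IsTest Ω u)
    (hneg : ∀ u ∈ V, u ≠ 0 → q Λ u < 0) :
    ∃ P : Submodule ℝ (ℂ → ℝ), 2 ≤ Module.finrank ℝ P ∧ (∀ u ∈ P, IsTest Ω u) ∧
      (∀ u ∈ P, ∀ z, u (-z) = u z) ∧ (∀ u ∈ P, u ≠ 0 → q Λ u < 0) := by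
  have hd : DSym 2 Ω := fun z hz =>
    ⟨by rw [AxAux.rotTwo, neg_one_mul]; exact (hΩ z hz).1, (hΩ z hz).2⟩
  have : FiniteDimensional ℝ V := Module.finite_of_finrank_pos (by omega)
  obtain ⟨N, hNf, hNt, hNR, hNC, hNn, hN4⟩ := AlgAux.exists_N (k := 2) two_pos hd
    (fun u hu => hVt u hu) hneg
  obtain ⟨P, hPN, hP, hPC⟩ := AxAux.even_part N hNt hNC hNn
    (fun M h1 h2 h3 => odd_le_one hΩo hd hfin hΛ M h1 h2 h3)
  have : FiniteDimensional ℝ P := Submodule.finiteDimensional_of_le hPN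
  have hR : ∀ (u : ℂ → ℝ) (z : ℂ), AlgAux.Rr 2 u z = u (-z) := by
    intro u z
    change u (rot 2 * z) = u (-z)
    rw [AxAux.rotTwo, neg_one_mul]
  let E : (ℂ → ℝ) →ₗ[ℝ] (ℂ → ℝ) := LinearMap.id - AlgAux.Rr 2
  have hE : ∀ (u : ℂ → ℝ) (z : ℂ), E u z = u z - u (-z) := by
    intro u z
    have h1 : E u z = u z - AlgAux.Rr 2 u z := rfl
    rw [h1, hR]
  have hEN : ∀ u ∈ P, E u ∈ N := fun u hu => N.sub_mem (hPN hu) (hNR _ (hPN hu))
  have h5 := AlgAux.rk (N := P) E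
  have h6 : Module.finrank ℝ (P.map E) ≤ 1 := by
    refine odd_le_one_re hΩo (fun z hz => (hΩ _ (hΩ z hz).2).1) hfin hΛ _ ?_ ?_ ?_
    · rintro _ ⟨u, hu, rfl⟩
      exact hNt (hEN u hu)
    · rintro _ ⟨u, hu, rfl⟩ z
      have h3 : -(starRingEnd ℂ) z = (starRingEnd ℂ) (-z) := (map_neg _ z).symm
      rw [hE, hE, neg_neg, hPC u hu z, h3, hPC u hu (-z)]
      ring
    · rintro _ ⟨u, hu, rfl⟩ h0
      exact hNn _ (hEN u hu) h0
  refine ⟨P ⊓ LinearMap.ker E, by omega, fun u hu => hNt (hPN hu.1), ?_, fun u hu h0 =>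
    hNn u (hPN hu.1) h0⟩
  rintro u ⟨hu, huE⟩ z
  have h3 : E u = 0 := huE
  have h4 := congrFun h3 z
  rw [hE, Pi.zero_apply] at h4
  linarith

end DK4
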