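import Pool.Agent.Lib.DK4.Cases
import Pool.Agent.Lib.DK4.Alg

/-!
Module DK4.Ax2: even and odd functions on a centrally symmetric set.
-/

open MeasureTheory Set
open scoped ContDiff

namespace DK4

namespace Ax2Aux

/-- the central reflection of functions -/
def Rn : (ℂ → ℝ) →ₗ[ℝ] (ℂ → ℝ) where
  toFun u z := u (-1 * z)
  map_add' _ _ := rfl
  map_smul' _ _ := rfl

theorem Rn_apply (u : ℂ → ℝ) (z : ℂ) : Rn u z = u (-1 * z) := rfl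

theorem Rn_Rn (u : ℂ → ℝ) : Rn (Rn u) = u := by
  funext z
  rw [Rn_apply, Rn_apply]
  congr 1
  ring

theorem Rn_mem {Ω : Set ℂ} (hΩ : ∀ z ∈ Ω, -z ∈ Ω) {u : ℂ → ℝ} (hu : u ∈ AlgAux.TS Ω) :
    Rn u ∈ AlgAux.TS Ω := by
  have h0 : (-1 : ℂ) ≠ 0 := by norm_num
  refine ⟨?_, ?_, ?_⟩
  · exact hu.1.comp (contDiff_const.mul contDiff_id)
  · exact hu.2.1.comp_homeomorph (Homeomorph.mulLeft₀ (-1 : ℂ) h0)
  · have h1 := tsupport_comp_eq_preimage u (Homeomorph.mulLeft₀ (-1 : ℂ) h0)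
    intro z hz
    have h2 : z ∈ (Homeomorph.mulLeft₀ (-1 : ℂ) h0) ⁻¹' tsupport u := by
      rw [← h1]; exact hz
    have h3 : (-1 : ℂ) * z ∈ Ω := hu.2.2 h2
    have h4 := hΩ _ h3
    have h5 : -((-1 : ℂ) * z) = z := by ring
    rwa [h5] at h4

theorem exists_N {Ω : Set ℂ} (hΩ : ∀ z ∈ Ω, -z ∈ Ω) {Λ : ℝ}
    {V : Submodule ℝ (ℂ → ℝ)} [FiniteDimensional ℝ V] (hVt : V ≤ AlgAux.TS Ω)
    (hneg : ∀ u ∈ V, u ≠ 0 → q Λ u < 0) :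
    ∃ N : Submodule ℝ (ℂ → ℝ), FiniteDimensional ℝ N ∧ N ≤ AlgAux.TS Ω ∧ (∀ u ∈ N, Rn u ∈ N) ∧
      (∀ u ∈ N, u ≠ 0 → q Λ u < 0) ∧ Module.finrank ℝ V ≤ Module.finrank ℝ N := by
  obtain ⟨X, hXf, hVX, hXt, hXR⟩ : ∃ X : Submodule ℝ (ℂ → ℝ), FiniteDimensional ℝ X ∧ V ≤ X ∧
      X ≤ AlgAux.TS Ω ∧ ∀ u ∈ X, Rn u ∈ X := by
    refine ⟨V ⊔ V.map Rn, inferInstance, le_sup_left, ?_, ?_⟩
    · refine sup_le hVt ?_
      rintro _ ⟨u, hu, rfl⟩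
      exact Rn_mem hΩ (hVt hu)
    · intro u hu
      obtain ⟨x, hx, y, hy, rfl⟩ := Submodule.mem_sup.1 hu
      obtain ⟨w, hw, rfl⟩ := hy
      rw [map_add, Rn_Rn, add_comm]
      exact Submodule.add_mem_sup hw ⟨x, hx, rfl⟩
  let ι := Submodule.inclusion hXt
  let a : X →ₗ[ℝ] X →ₗ[ℝ] ℝ := (AlgAux.aF Ω Λ).compl₁₂ ι ι
  let b : X →ₗ[ℝ] X →ₗ[ℝ] ℝ := (AlgAux.bF Ω).compl₁₂ ι ι
  have hainst : ∀ x : X, a x x = q Λ (x : ℂ → ℝ) := fun x => AlgAux.aF_self Λ (ι x)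
  have hbinst : ∀ x : X, b x x = q (-1) (x : ℂ → ℝ) - q 0 (x : ℂ → ℝ) :=
    fun x => AlgAux.bF_self (ι x)
  let T : Unit → X →ₗ[ℝ] X := fun _ => Rn.restrict hXR
  have h1 : ‖(-1 : ℂ)‖ = 1 := by simp
  have hqR : ∀ (M : ℝ) (u : ℂ → ℝ), q M (Rn u) = q M u := fun M u => q_rot h1 u
  have hTq : ∀ (M : ℝ) (i : Unit) (x : X), q M ((T i x : X) : ℂ → ℝ) = q M (x : ℂ → ℝ) :=
    fun M i x => hqR M x
  obtain ⟨N', hN1, hN2, hN3⟩ := AlgAux.inv_neg_space a b (fun x y => AlgAux.aF_symm Λ _ _)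
    (fun x y => AlgAux.bF_symm _ _) (fun x hx => AlgAux.bF_pos _ (fun h => hx (by
      have := congrArg (Subtype.val) h
      exact Subtype.ext this))) T
    (fun i x => by rw [hainst, hainst, hTq Λ i x])
    (fun i x => by rw [hbinst, hbinst, hTq (-1) i x, hTq 0 i x])
    (V.comap X.subtype) (fun x hx hx0 => by
      rw [hainst]
      exact hneg x hx (fun h => hx0 (Subtype.ext h)))
  refine ⟨N'.map X.subtype, inferInstance, ?_, ?_, ?_, ?_⟩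
  · rintro _ ⟨x, -, rfl⟩
    exact hXt x.2
  · rintro _ ⟨x, hx, rfl⟩
    exact ⟨T () x, hN1 () x hx, rfl⟩
  · rintro _ ⟨x, hx, rfl⟩ h0
    have h1 := hN2 x hx (fun h => h0 (by rw [h]; rfl))
    rw [hainst] at h1
    exact h1
  · rw [Submodule.finrank_map_subtype_eq]
    refine le_trans (le_of_eq ?_) hN3
    exact ((Submodule.comapSubtypeEquivOfLe hVX).finrank_eq).symm

end Ax2Aux

theorem central_space {Ω : Set ℂ} (hΩo : IsOpen Ω) (hΩ : ∀ z ∈ Ω, -z ∈ Ω) {Λ : ℝ}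
    (V : Submodule ℝ (ℂ → ℝ)) (hV : Module.finrank ℝ V = 4) (hVt : ∀ u ∈ V, IsTest Ω u)
    (hneg : ∀ u ∈ V, u ≠ 0 → q Λ u < 0) :
    (∃ P : Submodule ℝ (ℂ → ℝ), 2 ≤ Module.finrank ℝ P ∧ (∀ u ∈ P, IsTest Ω u) ∧
      (∀ u ∈ P, ∀ z, u (-z) = u z) ∧ (∀ u ∈ P, u ≠ 0 → q Λ u < 0)) ∨
    (∃ P : Submodule ℝ (ℂ → ℝ), 3 ≤ Module.finrank ℝ P ∧ (∀ u ∈ P, IsTest Ω u) ∧
      (∀ u ∈ P, ∀ z, u (-z) = -u z) ∧ (∀ u ∈ P, u ≠ 0 → q Λ u < 0)) := by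
  haveI : FiniteDimensional ℝ V := Module.finite_of_finrank_pos (by omega)
  obtain ⟨N, hNf, hNt, hNR, hNn, hN4⟩ := Ax2Aux.exists_N hΩ (fun u hu => hVt u hu) hneg
  rw [hV] at hN4
  let D : (ℂ → ℝ) →ₗ[ℝ] (ℂ → ℝ) := LinearMap.id - Ax2Aux.Rn
  have hD : ∀ u, D u = u - Ax2Aux.Rn u := fun u => rfl
  have h1 := AlgAux.rk (N := N) D
  by_cases h2 : 2 ≤ Module.finrank ℝ (N ⊓ LinearMap.ker D : Submodule ℝ (ℂ → ℝ))
  · left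
    refine ⟨N ⊓ LinearMap.ker D, h2, fun u hu => hNt hu.1, ?_, fun u hu h0 => hNn u hu.1 h0⟩
    rintro u ⟨-, hu⟩ z
    have h3 : u - Ax2Aux.Rn u = 0 := hu
    have h4 := congrFun (sub_eq_zero.1 h3) z
    rw [Ax2Aux.Rn_apply, neg_one_mul] at h4
    exact h4.symm
  · right
    refine ⟨N.map D, by omega, ?_, ?_, ?_⟩
    · rintro _ ⟨u, hu, rfl⟩
      exact hNt (N.sub_mem hu (hNR u hu))
    · rintro _ ⟨u, hu, rfl⟩ z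
      rw [hD]
      have h3 : Ax2Aux.Rn (u - Ax2Aux.Rn u) = Ax2Aux.Rn u - u := by
        rw [map_sub, Ax2Aux.Rn_Rn]
      have h4 := congrFun h3 z
      rw [Ax2Aux.Rn_apply, neg_one_mul] at h4
      rw [h4, Pi.sub_apply, Pi.sub_apply]
      ring
    · rintro _ ⟨u, hu, rfl⟩ h0
      exact hNn _ (N.sub_mem hu (hNR u hu)) h0

end DK4
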