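import Pool.Agent.Lib.DK4.TopoE

/-!
Module DK4.Axes: an open set symmetric with respect to two lines through `0` which are neither equal
nor perpendicular has dihedral symmetry `D_k` for some `k ≥ 3`.

Proof.  `Ω` is invariant under `z ↦ c z` (compose the two reflections: `z ∈ Ω ⇒ conj z ∈ Ω ⇒
c * conj (conj z) ∈ Ω`) and under `z ↦ c⁻¹ z` (`conj (c * conj z) = c⁻¹ z` as `‖c‖ = 1`), so under all
`c^n`, `n ∈ ℤ`.  If `c` has finite order `k`, then `k ≥ 3` as `c ≠ ±1`, and `rot k` is a power of `c`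
(IsPrimitiveRoot.orderOf, IsPrimitiveRoot.eq_pow_of_pow_eq_one with rot_pow).  If `c` has infinite order its powers
are dense in the circle (AddCircle.dense_zmultiples_iff_addOrderOf_eq_zero, or pigeonhole), so for
`z ∈ Ω` (open) `rot 3 * z ∈ Ω`: choose a ball `B(z, ε) ⊆ Ω` and `n` with `‖c^n - rot 3‖ ‖z‖ < ε`; then
`w = c^(-n) * rot 3 * z ∈ B(z, ε)`, and `rot 3 * z = c^n w ∈ Ω`.  So `k = 3` works.
-/

open MeasureTheory Set

namespace DK4

namespace AxesAux

theorem inv_zpow {c : ℂ} (hc : ‖c‖ = 1) {Ω : Set ℂ} (hconj : ∀ z ∈ Ω, (starRingEnd ℂ) z ∈ Ω)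
    (hrefl : ∀ z ∈ Ω, c * (starRingEnd ℂ) z ∈ Ω) (n : ℤ) : ∀ z ∈ Ω, c ^ n * z ∈ Ω := by
  have hc0 : c ≠ 0 := by
    intro h
    rw [h, norm_zero] at hc
    exact zero_ne_one hc
  have h1 : ∀ z ∈ Ω, c * z ∈ Ω := by
    intro z hz
    have h := hrefl _ (hconj z hz)
    rwa [Complex.conj_conj] at h
  have h2 : ∀ z ∈ Ω, c⁻¹ * z ∈ Ω := by
    intro z hz
    have h := hconj _ (hrefl z hz)
    rw [map_mul, Complex.conj_conj] at h
    have h3 : (starRingEnd ℂ) c = c⁻¹ := by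
      rw [Complex.inv_def, Complex.normSq_eq_norm_sq, hc]
      simp
    rwa [h3] at h
  induction n using Int.induction_on with
  | zero =>
    intro z hz
    rwa [zpow_zero, one_mul]
  | succ n ih =>
    intro z hz
    rw [zpow_add_one₀ hc0, mul_assoc]
    exact ih _ (h1 z hz)
  | pred n ih =>
    intro z hz
    rw [zpow_sub_one₀ hc0, mul_assoc]
    exact ih _ (h2 z hz)

theorem dense_zpow {c : ℂ} (hc : ‖c‖ = 1) (hinf : ∀ k : ℕ, 0 < k → c ^ k ≠ 1) {w : ℂ}
    (hw : ‖w‖ = 1) {ε : ℝ} (hε : 0 < ε) : ∃ n : ℤ, ‖c ^ n - w‖ < ε := by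
  have hcθ : Complex.exp ((Complex.arg c : ℂ) * Complex.I) = c := by
    have h := Complex.norm_mul_exp_arg_mul_I c
    rw [hc, Complex.ofReal_one, one_mul] at h
    exact h
  have hirr : Irrational (Complex.arg c / (2 * Real.pi)) := by
    rintro ⟨r, hr⟩
    apply hinf r.den r.den_pos
    have h2 : (2 * Real.pi : ℝ) ≠ 0 := by positivity
    have h3 : Complex.arg c = (r : ℝ) * (2 * Real.pi) := by
      rw [hr]
      field_simp
    have h4 : (r.den : ℝ) * (r : ℝ) = (r.num : ℝ) := by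
      have h5 : (r.den : ℚ) * r = r.num := by
        rw [mul_comm]
        exact Rat.mul_den_eq_num r
      exact_mod_cast h5
    have h6 : (r.den : ℝ) * Complex.arg c = (r.num : ℝ) * (2 * Real.pi) := by
      rw [h3, ← mul_assoc, h4]
    rw [← hcθ, ← Complex.exp_nat_mul]
    have h7 : (r.den : ℂ) * ((Complex.arg c : ℂ) * Complex.I) =
        (r.num : ℂ) * (2 * Real.pi * Complex.I) := by
      have h8 : ((r.den : ℝ) : ℂ) * (Complex.arg c : ℂ) = ((r.num : ℝ) : ℂ) * (2 * Real.pi) := by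
        exact_mod_cast congrArg (fun x : ℝ => (x : ℂ)) h6
      push_cast at h8
      linear_combination Complex.I * h8
    rw [h7]
    exact Complex.exp_int_mul_two_pi_mul_I r.num
  have hd : DenseRange (fun n : ℤ => n • ((Complex.arg c : ℝ) : AddCircle (2 * Real.pi))) :=
    AddCircle.denseRange_zsmul_coe_iff.2 hirr
  have hd2 : DenseRange (AddCircle.homeomorphCircle' ∘
      (fun n : ℤ => n • ((Complex.arg c : ℝ) : AddCircle (2 * Real.pi)))) :=
    AddCircle.homeomorphCircle'.surjective.denseRange.comp hd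
      AddCircle.homeomorphCircle'.continuous
  let ww : Circle := ⟨w, mem_sphere_zero_iff_norm.2 hw⟩
  obtain ⟨n, hn⟩ := hd2.exists_dist_lt ww hε
  refine ⟨n, ?_⟩
  have h1 : ((AddCircle.homeomorphCircle'
      (n • ((Complex.arg c : ℝ) : AddCircle (2 * Real.pi))) : Circle) : ℂ) = c ^ n := by
    have h2 : n • ((Complex.arg c : ℝ) : AddCircle (2 * Real.pi)) =
        ((n • Complex.arg c : ℝ) : AddCircle (2 * Real.pi)) := rfl
    rw [h2, AddCircle.homeomorphCircle'_apply_mk, Circle.coe_exp]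
    rw [← hcθ, ← Complex.exp_int_mul]
    congr 1
    rw [hcθ, zsmul_eq_mul]
    push_cast
    ring
  have h3 : dist ww (AddCircle.homeomorphCircle'
      (n • ((Complex.arg c : ℝ) : AddCircle (2 * Real.pi)))) < ε := hn
  change dist w ((AddCircle.homeomorphCircle'
      (n • ((Complex.arg c : ℝ) : AddCircle (2 * Real.pi))) : Circle) : ℂ) < ε at h3
  rw [h1, dist_comm, dist_eq_norm] at h3
  exact h3

end AxesAux

open AxesAux

theorem dsym_of_axes {c : ℂ} (hc : ‖c‖ = 1) (h1 : c ≠ 1) (h2 : c ≠ -1) {Ω : Set ℂ}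
    (hΩ : IsOpen Ω) (hconj : ∀ z ∈ Ω, (starRingEnd ℂ) z ∈ Ω)
    (hrefl : ∀ z ∈ Ω, c * (starRingEnd ℂ) z ∈ Ω) : ∃ k : ℕ, 3 ≤ k ∧ DSym k Ω := by
  have hinv := inv_zpow hc hconj hrefl
  have hc0 : c ≠ 0 := by
    intro h
    rw [h, norm_zero] at hc
    exact zero_ne_one hc
  by_cases hfin : ∃ k : ℕ, 0 < k ∧ c ^ k = 1
  · obtain ⟨m, hm, hm1⟩ := hfin
    have hpos : 0 < orderOf c := orderOf_pos_iff.2 (isOfFinOrder_iff_pow_eq_one.2 ⟨m, hm, hm1⟩)
    have hpow : c ^ orderOf c = 1 := pow_orderOf_eq_one c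
    refine ⟨orderOf c, ?_, fun z hz => ⟨?_, hconj z hz⟩⟩
    · by_contra hlt
      have h3 : orderOf c = 1 ∨ orderOf c = 2 := by omega
      rcases h3 with h3 | h3
      · rw [h3, pow_one] at hpow
        exact h1 hpow
      · rw [h3] at hpow
        have h5 : (c - 1) * (c + 1) = 0 := by linear_combination hpow
        rcases mul_eq_zero.1 h5 with h4 | h4
        · exact h1 (sub_eq_zero.1 h4)
        · exact h2 (eq_neg_of_add_eq_zero_left h4)
    · have hprim : IsPrimitiveRoot c (orderOf c) := IsPrimitiveRoot.orderOf c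
      haveI : NeZero (orderOf c) := ⟨hpos.ne'⟩
      obtain ⟨j, -, hj⟩ := hprim.eq_pow_of_pow_eq_one (rot_pow hpos)
      rw [← hj, ← zpow_natCast]
      exact hinv j z hz
  · push Not at hfin
    refine ⟨3, le_refl 3, fun z hz => ⟨?_, hconj z hz⟩⟩
    obtain ⟨ε, hε, hball⟩ := Metric.isOpen_iff.1 hΩ z hz
    have hz1 : 0 < ‖z‖ + 1 := by positivity
    obtain ⟨n, hn⟩ := dense_zpow hc hfin (norm_rot 3) (div_pos hε hz1)
    have hcn : c ^ n ≠ 0 := zpow_ne_zero n hc0
    have hcn1 : ‖c ^ (-n)‖ = 1 := by rw [norm_zpow, hc, one_zpow]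
    have hw : c ^ (-n) * (rot 3 * z) ∈ Ω := by
      apply hball
      rw [Metric.mem_ball, dist_eq_norm]
      have h3 : c ^ (-n) * (rot 3 * z) - z = c ^ (-n) * ((rot 3 - c ^ n) * z) := by
        have h4 : c ^ (-n) * c ^ n = 1 := by
          rw [← zpow_add₀ hc0, neg_add_cancel, zpow_zero]
        linear_combination z * h4
      rw [h3, norm_mul, norm_mul, hcn1, one_mul, norm_sub_rev]
      calc ‖c ^ n - rot 3‖ * ‖z‖ ≤ ‖c ^ n - rot 3‖ * (‖z‖ + 1) :=
            mul_le_mul_of_nonneg_left (by linarith) (norm_nonneg _)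
        _ < ε / (‖z‖ + 1) * (‖z‖ + 1) := mul_lt_mul_of_pos_right hn hz1
        _ = ε := div_mul_cancel₀ _ hz1.ne'
    have h5 := hinv n _ hw
    have h6 : c ^ n * (c ^ (-n) * (rot 3 * z)) = rot 3 * z := by
      rw [← mul_assoc, ← zpow_add₀ hc0, add_neg_cancel, zpow_zero, one_mul]
    rwa [h6] at h5

end DK4
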