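import Pool.Agent.Lib.DK4.BU2

/-!
Module DK4.BU: the Borsuk-Ulam theorem for maps `S³ → ℝ³`, elementary, from `bu2` (maps `S² → S¹`).

`bu3`.  Suppose `F : S³ → ℝ³` is continuous, odd and without zero.  `G x = F (x, √(1-|x|²))/|..|` for `x` in the
closed unit ball `D³`, as a purely imaginary unit quaternion (`G² = -1`).  For unit imaginary `a, b` with
`b ≠ -a` the quaternion `r = 1 - b a` is nonzero and `r a = b r` (both are `a + b`).
LIFT: there is a continuous nonvanishing `g : D³ → ℍ` with `g x * i = G x * g x`: choose `N` with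
`‖G ((k+1)x/N) - G (k x/N)‖ < 1` for all `x ∈ D³`, `k < N`, and put
`g x = r_{N-1} ⋯ r_0 q₀`, `r_k = 1 - G ((k+1)x/N) * G (k x/N)`, `q₀ i = G(0) q₀` (`q₀ = 1 - G(0) i`, or `j` if
`G 0 = -i`).
For `|x| = 1`, `G (-x) = -G x`.  Put `w x = star (g x) * g (-x)`.  Then `i * w x = -w x * i`, so the real and the
`i` component of `w x` vanish, and `w (-x) = star (w x) = -w x`: the `j` and `k` components of `w` form an odd
continuous map `S² → ℂ \ 0`, contradicting `bu2`.
-/

open Set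

namespace DK4

namespace BUAux

open Quaternion

noncomputable def qi : ℍ[ℝ] := ⟨0, 1, 0, 0⟩
noncomputable def qj : ℍ[ℝ] := ⟨0, 0, 1, 0⟩
noncomputable def qk : ℍ[ℝ] := ⟨0, 0, 0, 1⟩

theorem qi_sq : qi * qi = -1 := by
  ext <;> simp [qi]

theorem lift_step (a b q : ℍ[ℝ]) (ha : a * a = -1) (hb : b * b = -1) (hab : b ≠ -a) (hq : q ≠ 0)
    (hqi : q * qi = a * q) :
    (1 - b * a) * q ≠ 0 ∧ ((1 - b * a) * q) * qi = b * ((1 - b * a) * q) := by
  constructor
  · refine mul_ne_zero ?_ hq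
    intro h
    have h1 : b * a = 1 := (sub_eq_zero.1 h).symm
    have h2 : b * (a * a) = a := by rw [← mul_assoc, h1, one_mul]
    rw [ha] at h2
    apply hab
    rw [← h2]
    simp
  · calc ((1 - b * a) * q) * qi = (1 - b * a) * (q * qi) := by rw [mul_assoc]
      _ = (1 - b * a) * (a * q) := by rw [hqi]
      _ = (a - b * (a * a)) * q := by noncomm_ring
      _ = (a + b) * q := by rw [ha]; simp
      _ = (b - (b * b) * a) * q := by rw [hb]; simp [add_comm]
      _ = b * ((1 - b * a) * q) := by noncomm_ring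

theorem norm_of_sq (a : ℍ[ℝ]) (ha : a * a = -1) : ‖a‖ = 1 := by
  have h : ‖a‖ * ‖a‖ = 1 := by rw [← norm_mul, ha]; simp
  nlinarith [norm_nonneg a]

theorem ne_of_near (a b : ℍ[ℝ]) (ha : a * a = -1) (h : dist b a < 1) : b ≠ -a := by
  rintro rfl
  rw [dist_eq_norm] at h
  have h1 : (-a - a : ℍ[ℝ]) = (-2 : ℝ) • a := by
    rw [neg_smul, two_smul]; abel
  rw [h1, norm_smul, norm_of_sq a ha] at h
  norm_num at h

theorem lift (G : (Fin 3 → ℝ) → ℍ[ℝ]) (B : Set (Fin 3 → ℝ)) (hB : IsCompact B)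
    (hstar : ∀ x ∈ B, ∀ t : ℝ, 0 ≤ t → t ≤ 1 → t • x ∈ B)
    (hnorm : ∀ x ∈ B, ‖x‖ ≤ 1)
    (hG : ContinuousOn G B) (hGG : ∀ x ∈ B, G x * G x = -1) (h0 : (0 : Fin 3 → ℝ) ∈ B) :
    ∃ g : (Fin 3 → ℝ) → ℍ[ℝ], ContinuousOn g B ∧ (∀ x ∈ B, g x ≠ 0) ∧
      ∀ x ∈ B, g x * qi = G x * g x := by
  have hU := hB.uniformContinuousOn_of_continuous hG
  rw [Metric.uniformContinuousOn_iff] at hU
  obtain ⟨δ, hδ, hU⟩ := hU 1 one_pos
  obtain ⟨N, hN⟩ := exists_nat_gt (1 / δ)
  have hN0 : (0 : ℝ) < N := lt_trans (by positivity) hN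
  have hNδ : 1 / (N : ℝ) < δ := by
    rw [div_lt_iff₀ hN0]
    rw [div_lt_iff₀ hδ] at hN
    linarith
  have key : ∀ k : ℕ, k ≤ N → ∃ g : (Fin 3 → ℝ) → ℍ[ℝ], ContinuousOn g B ∧ (∀ x ∈ B, g x ≠ 0) ∧
      ∀ x ∈ B, g x * qi = G (((k : ℝ) / N) • x) * g x := by
    intro k
    induction k with
    | zero =>
      intro _
      by_cases h : G 0 = -qi
      · refine ⟨fun _ => qj, continuousOn_const, fun x _ => ?_, fun x _ => ?_⟩
        · intro h'
          have := congrArg QuaternionAlgebra.imJ h'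
          simp [qj] at this
        · simp only [Nat.cast_zero, zero_div, zero_smul, h]
          ext <;> simp [qi, qj]
      · obtain ⟨h1, h2⟩ := lift_step qi (G 0) 1 qi_sq (hGG 0 h0) h one_ne_zero (by simp)
        refine ⟨fun _ => (1 - G 0 * qi) * 1, continuousOn_const, fun x _ => h1, fun x _ => ?_⟩
        simp only [Nat.cast_zero, zero_div, zero_smul]
        exact h2
    | succ k ih =>
      intro hk
      obtain ⟨g, hg, hg0, hgi⟩ := ih (by omega)
      have hkN : ((k + 1 : ℕ) : ℝ) ≤ N := by exact_mod_cast hk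
      have hkN' : ((k : ℕ) : ℝ) ≤ N := by exact_mod_cast (by omega : k ≤ N)
      have m1 : ∀ x ∈ B, ((k : ℝ) / N) • x ∈ B := fun x hx =>
        hstar x hx _ (by positivity) ((div_le_one hN0).2 hkN')
      have m2 : ∀ x ∈ B, (((k + 1 : ℕ) : ℝ) / N) • x ∈ B := fun x hx =>
        hstar x hx _ (by positivity) ((div_le_one hN0).2 hkN)
      have c1 : ContinuousOn (fun x => G (((k : ℝ) / N) • x)) B :=
        hG.comp (by fun_prop) m1
      have c2 : ContinuousOn (fun x => G ((((k + 1 : ℕ) : ℝ) / N) • x)) B :=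
        hG.comp (by fun_prop) m2
      have st : ∀ x ∈ B, _ := fun x hx =>
        lift_step (G (((k : ℝ) / N) • x)) (G ((((k + 1 : ℕ) : ℝ) / N) • x)) (g x)
          (hGG _ (m1 x hx)) (hGG _ (m2 x hx))
          (ne_of_near _ _ (hGG _ (m1 x hx)) (hU _ (m2 x hx) _ (m1 x hx) (by
            rw [dist_eq_norm, ← sub_smul, norm_smul]
            have : (((k + 1 : ℕ) : ℝ) / N) - (k : ℝ) / N = 1 / N := by
              push_cast; ring
            rw [this, Real.norm_of_nonneg (by positivity)]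
            calc 1 / (N : ℝ) * ‖x‖ ≤ 1 / (N : ℝ) * 1 :=
                  mul_le_mul_of_nonneg_left (hnorm x hx) (by positivity)
              _ < δ := by rw [mul_one]; exact hNδ))) (hg0 x hx) (hgi x hx)
      exact ⟨fun x => (1 - G ((((k + 1 : ℕ) : ℝ) / N) • x) * G (((k : ℝ) / N) • x)) * g x,
        (continuousOn_const.sub (c2.mul c1)).mul hg, fun x hx => (st x hx).1,
        fun x hx => (st x hx).2⟩
  obtain ⟨g, hg, hg0, hgi⟩ := key N le_rfl
  refine ⟨g, hg, hg0, fun x hx => ?_⟩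
  have := hgi x hx
  rwa [div_self hN0.ne', one_smul] at this

/-- a point of the sphere over a point of the ball -/
noncomputable def up (x : Fin 3 → ℝ) : Fin 4 → ℝ := ![x 0, x 1, x 2, √(1 - ∑ i, x i ^ 2)]

theorem up_cont : Continuous up := by
  unfold up
  refine continuous_pi fun i => ?_
  fin_cases i <;> simp <;> fun_prop

theorem up_mem (x : Fin 3 → ℝ) (hx : ∑ i, x i ^ 2 ≤ 1) : ∑ i, up x i ^ 2 = 1 := by
  have h : (√(1 - ∑ i, x i ^ 2)) ^ 2 = 1 - ∑ i, x i ^ 2 := Real.sq_sqrt (by linarith)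
  simp only [up, Fin.sum_univ_succ, Fin.sum_univ_zero] at h ⊢
  simp at h ⊢
  rw [h]
  ring

theorem up_neg (x : Fin 3 → ℝ) (hx : ∑ i, x i ^ 2 = 1) : up (-x) = -up x := by
  have h1 : ∑ i, (-x) i ^ 2 = 1 := by simpa using hx
  funext i
  unfold up
  rw [h1, hx]
  fin_cases i <;> simp

end BUAux

open BUAux in
open Quaternion in
theorem bu3 (F : (Fin 4 → ℝ) → (Fin 3 → ℝ)) (hF : ContinuousOn F {a | ∑ i, a i ^ 2 = 1})
    (hodd : ∀ a : Fin 4 → ℝ, ∑ i, a i ^ 2 = 1 → F (-a) = -F a) :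
    ∃ a : Fin 4 → ℝ, ∑ i, a i ^ 2 = 1 ∧ F a = 0 := by
  by_contra hcon
  push Not at hcon
  set B : Set (Fin 3 → ℝ) := {x | ∑ i, x i ^ 2 ≤ 1} with hBdef
  set S : Set (Fin 3 → ℝ) := {x | ∑ i, x i ^ 2 = 1} with hSdef
  have hSB : S ⊆ B := fun x hx => le_of_eq hx
  have hnorm : ∀ x ∈ B, ‖x‖ ≤ 1 := by
    intro x hx
    rw [pi_norm_le_iff_of_nonneg one_pos.le]
    intro i
    have h1 : x i ^ 2 ≤ ∑ i, x i ^ 2 :=
      Finset.single_le_sum (f := fun i => x i ^ 2) (fun i _ => sq_nonneg _) (Finset.mem_univ i)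
    have h2 : x i ^ 2 ≤ 1 := h1.trans hx
    rw [Real.norm_eq_abs]
    exact abs_le_one_iff_mul_self_le_one.2 (by nlinarith)
  have hBc : IsCompact B := by
    refine Metric.isCompact_of_isClosed_isBounded ?_ ?_
    · exact isClosed_le (by fun_prop) continuous_const
    · refine (Metric.isBounded_closedBall (x := (0 : Fin 3 → ℝ)) (r := 1)).subset fun x hx => ?_
      rw [mem_closedBall_zero_iff]
      exact hnorm x hx
  have hstar : ∀ x ∈ B, ∀ t : ℝ, 0 ≤ t → t ≤ 1 → t • x ∈ B := by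
    intro x hx t ht0 ht1
    have hx' : ∑ i, x i ^ 2 ≤ 1 := hx
    change ∑ i, (t • x) i ^ 2 ≤ 1
    have h1 : ∑ i, (t • x) i ^ 2 = t ^ 2 * ∑ i, x i ^ 2 := by
      rw [Finset.mul_sum]
      exact Finset.sum_congr rfl fun i _ => by simp [mul_pow]
    rw [h1]
    have h2 : 0 ≤ ∑ i, x i ^ 2 := Finset.sum_nonneg fun i _ => sq_nonneg _
    have h3 : t ^ 2 ≤ 1 := by nlinarith
    nlinarith
  have h0B : (0 : Fin 3 → ℝ) ∈ B := by simp [hBdef]
  -- the quaternion
  set P : (Fin 3 → ℝ) → ℍ[ℝ] := fun x => (F (up x) 0) • qi + (F (up x) 1) • qj + (F (up x) 2) • qk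
    with hPdef
  have hFup : ContinuousOn (fun x => F (up x)) B :=
    hF.comp up_cont.continuousOn fun x hx => up_mem x hx
  have hPc : ContinuousOn P B := by
    have h (i : Fin 3) : ContinuousOn (fun x => F (up x) i) B :=
      (continuous_apply i).comp_continuousOn hFup
    exact (((h 0).smul continuousOn_const).add ((h 1).smul continuousOn_const)).add
      ((h 2).smul continuousOn_const)
  have hP0 : ∀ x ∈ B, P x ≠ 0 := by
    intro x hx h
    apply hcon (up x) (up_mem x hx)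
    have e1 := congrArg QuaternionAlgebra.imI h
    have e2 := congrArg QuaternionAlgebra.imJ h
    have e3 := congrArg QuaternionAlgebra.imK h
    simp [hPdef, qi, qj, qk] at e1 e2 e3
    funext i
    fin_cases i
    · exact e1
    · exact e2
    · exact e3
  have hPneg : ∀ x ∈ S, P (-x) = -P x := by
    intro x hx
    simp only [hPdef]
    rw [up_neg x hx, hodd _ (up_mem x (le_of_eq hx))]
    simp only [Pi.neg_apply, neg_smul, neg_add]
  have hPsq : ∀ x, P x * P x = -((‖P x‖ ^ 2 : ℝ) : ℍ[ℝ]) := by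
    intro x
    have h1 : star (P x) = -P x := by
      ext <;> simp [hPdef, qi, qj, qk]
    have h2 := Quaternion.self_mul_star (P x)
    rw [h1, Quaternion.normSq_eq_norm_mul_self, mul_neg] at h2
    rw [pow_two, ← h2, neg_neg]
  set G : (Fin 3 → ℝ) → ℍ[ℝ] := fun x => (‖P x‖⁻¹ : ℝ) • P x with hGdef
  have hGc : ContinuousOn G B :=
    (hPc.norm.inv₀ fun x hx => norm_ne_zero_iff.2 (hP0 x hx)).smul hPc
  have hGG : ∀ x ∈ B, G x * G x = -1 := by
    intro x hx
    have hn : ‖P x‖ ≠ 0 := norm_ne_zero_iff.2 (hP0 x hx)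
    simp only [hGdef]
    rw [smul_mul_smul_comm, hPsq, smul_neg, ← Quaternion.coe_mul_eq_smul, ← Quaternion.coe_mul]
    have h1 : ‖P x‖⁻¹ * ‖P x‖⁻¹ * ‖P x‖ ^ 2 = 1 := by field_simp
    rw [h1, Quaternion.coe_one]
  have hGneg : ∀ x ∈ S, G (-x) = -G x := by
    intro x hx
    simp only [hGdef]
    rw [hPneg x hx, norm_neg, smul_neg]
  obtain ⟨g, hgc, hg0, hgi⟩ := lift G B hBc hstar hnorm hGc hGG h0B
  have hstarG : ∀ x, star (G x) = -G x := by
    intro x
    ext <;> simp [hGdef, hPdef, qi, qj, qk]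
  have hSneg : ∀ x ∈ S, -x ∈ S := fun x hx => by
    have hx' : ∑ i, x i ^ 2 = 1 := hx
    change ∑ i, (-x) i ^ 2 = 1
    simpa using hx'
  set w : (Fin 3 → ℝ) → ℍ[ℝ] := fun x => star (g x) * g (-x) with hwdef
  have hwi : ∀ x ∈ S, qi * w x = -(w x * qi) := by
    intro x hx
    have e1 := hgi x (hSB hx)
    have e2 := hgi (-x) (hSB (hSneg x hx))
    have e3 : qi * star (g x) = star (g x) * G x := by
      have := congrArg star e1
      rw [star_mul, star_mul, hstarG] at this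
      have hsi : star qi = -qi := by ext <;> simp [qi]
      rw [hsi, neg_mul, mul_neg, neg_inj] at this
      exact this
    rw [hGneg x hx] at e2
    simp only [hwdef]
    rw [← mul_assoc, e3, mul_assoc (star (g x)) (g (-x)) qi, e2, neg_mul, mul_neg, neg_neg, mul_assoc]
  have hwre : ∀ x ∈ S, (w x).re = 0 ∧ (w x).imI = 0 := by
    intro x hx
    have e := hwi x hx
    have e1 := congrArg QuaternionAlgebra.re e
    have e2 := congrArg QuaternionAlgebra.imI e
    simp [qi] at e1 e2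
    constructor <;> linarith
  have hwneg : ∀ x, w (-x) = star (w x) := by
    intro x
    simp [hwdef]
  have hw0 : ∀ x ∈ S, w x ≠ 0 := fun x hx =>
    mul_ne_zero (star_ne_zero.2 (hg0 x (hSB hx))) (hg0 _ (hSB (hSneg x hx)))
  have hwc : ContinuousOn w S := by
    refine ContinuousOn.mul ?_ ?_
    · exact (hgc.mono hSB).star
    · exact hgc.comp continuous_neg.continuousOn fun x hx => hSB (hSneg x hx)
  refine bu2 (fun x => ⟨(w x).imJ, (w x).imK⟩) ?_ ?_ ?_
  · have h1 : ContinuousOn (fun x => (w x).imJ) S := Quaternion.continuous_imJ.comp_continuousOn hwc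
    have h2 : ContinuousOn (fun x => (w x).imK) S := Quaternion.continuous_imK.comp_continuousOn hwc
    exact Complex.equivRealProdCLM.symm.continuous.comp_continuousOn (h1.prodMk h2)
  · intro x hx h
    apply hw0 x hx
    have e1 := congrArg Complex.re h
    have e2 := congrArg Complex.im h
    simp at e1 e2
    exact Quaternion.ext _ _ (hwre x hx).1 (hwre x hx).2 e1 e2
  · intro x hx
    rw [hwneg x]
    apply Complex.ext <;> simp

end DK4
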