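import Mathlib

/-!
Module DK4.BU2: the Borsuk-Ulam theorem for maps `S² → S¹`, elementary.

Suppose `c : S² → ℂ \ 0` is continuous and odd.  On the closed unit disc of ℂ put
`C z = c (re z, im z, √(1 - |z|²))`.  `C` is continuous and nonvanishing, so there is a continuous `ℓ` on the disc
with `exp ℓ = C` (partition: `C ((k+1)z/N) / C (k z/N)` is within distance < 1 of 1 for large `N`, by
uniform continuity, and `Complex.log` is continuous on the slit plane; sum the logs; or the lifting
theorem for `Complex.isCoveringMap_exp` on a simply connected space).  For `|z| = 1`: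
`C (-z) = c (-z, 0) = -C z`, so `ℓ (-z) - ℓ z = iπ(2n+1)`, continuous on the (connected) circle, hence
constant `= κ`; exchanging `z` and `-z` gives `κ = -κ`, so `κ = 0`, contradiction.
(Compare DK4.TopoB, `no_log`, for the same kind of argument.)
-/

open Set

namespace DK4

namespace BU2Aux

/-- continuous logarithm on the closed unit disc -/
theorem exists_log (C : ℂ → ℂ) (hC : ContinuousOn C (Metric.closedBall 0 1))
    (h0 : ∀ z ∈ Metric.closedBall (0 : ℂ) 1, C z ≠ 0) :
    ∃ l : ℂ → ℂ, ContinuousOn l (Metric.closedBall 0 1) ∧ ∀ z ∈ Metric.closedBall (0 : ℂ) 1, Complex.exp (l z) = C z := by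
  have hcomp : IsCompact (Metric.closedBall (0 : ℂ) 1) := isCompact_closedBall 0 1
  -- minimum
  obtain ⟨z0, hz0, hmin⟩ := hcomp.exists_isMinOn ⟨0, by simp⟩ hC.norm
  have hm : 0 < ‖C z0‖ := norm_pos_iff.2 (h0 z0 hz0)
  have huc := hcomp.uniformContinuousOn_of_continuous hC
  rw [Metric.uniformContinuousOn_iff] at huc
  obtain ⟨δ, hδ, huc⟩ := huc ‖C z0‖ hm
  obtain ⟨N, hN⟩ := exists_nat_gt (1 / δ)
  have hNpos : (0 : ℝ) < N := lt_trans (by positivity) hN
  have hN' : 1 / (N : ℝ) < δ := by
    rw [div_lt_iff₀ hNpos]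
    rw [div_lt_iff₀ hδ] at hN
    linarith [mul_comm δ (N : ℝ)]
  -- scaled points
  let P : ℕ → ℂ → ℂ := fun k z => ((k : ℝ) / N : ℝ) • z
  have hP : ∀ k ≤ N, ∀ z ∈ Metric.closedBall (0 : ℂ) 1, P k z ∈ Metric.closedBall (0 : ℂ) 1 := by
    intro k hk z hz
    rw [mem_closedBall_zero_iff] at hz ⊢
    have hk' : (k : ℝ) ≤ N := by exact_mod_cast hk
    have h1 : ((k : ℝ) / N) ≤ 1 := (div_le_one hNpos).2 hk'
    have h2 : 0 ≤ ((k : ℝ) / N) := by positivity
    simp only [P, norm_smul, Real.norm_eq_abs, abs_of_nonneg h2]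
    nlinarith [norm_nonneg z]
  have hPc : ∀ k, Continuous (P k) := fun k => continuous_const_smul _
  have hratio : ∀ k < N, ∀ z ∈ Metric.closedBall (0 : ℂ) 1, C (P (k + 1) z) / C (P k z) ∈ Complex.slitPlane := by
    intro k hk z hz
    have h1 := hP k hk.le z hz
    have h2 := hP (k + 1) hk z hz
    have h3 : dist (P (k + 1) z) (P k z) < δ := by
      rw [dist_eq_norm]
      have h4 : P (k + 1) z - P k z = (1 / (N : ℝ)) • z := by
        simp only [P]
        rw [← sub_smul]
        congr 1
        push_cast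
        ring
      rw [h4, norm_smul, Real.norm_eq_abs, abs_of_nonneg (by positivity)]
      rw [mem_closedBall_zero_iff] at hz
      have : 0 < 1 / (N : ℝ) := by positivity
      nlinarith
    have h4 := huc _ h2 _ h1 h3
    have h5 : ‖C z0‖ ≤ ‖C (P k z)‖ := hmin h1
    have h6 : C (P k z) ≠ 0 := h0 _ h1
    have h7 : ‖C (P (k + 1) z) / C (P k z) - 1‖ < 1 := by
      rw [div_sub_one h6, norm_div, div_lt_one (norm_pos_iff.2 h6)]
      rw [dist_eq_norm] at h4
      exact lt_of_lt_of_le h4 h5
    exact Complex.mem_slitPlane_of_norm_lt_one (z := C (P (k + 1) z) / C (P k z) - 1) h7 |> fun h => by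
      simpa using h
  refine ⟨fun z => Complex.log (C 0) + ∑ k ∈ Finset.range N, Complex.log (C (P (k + 1) z) / C (P k z)), ?_, ?_⟩
  · refine continuousOn_const.add (continuousOn_finsetSum _ fun k hk => ?_)
    rw [Finset.mem_range] at hk
    refine ContinuousOn.clog ?_ (hratio k hk)
    refine ContinuousOn.div ?_ ?_ (fun z hz => h0 _ (hP k hk.le z hz))
    · exact hC.comp (hPc (k + 1)).continuousOn (fun z hz => hP (k + 1) hk z hz)
    · exact hC.comp (hPc k).continuousOn (fun z hz => hP k hk.le z hz)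
  · intro z hz
    have h1 : ∀ n ≤ N, Complex.exp (Complex.log (C 0) + ∑ k ∈ Finset.range n, Complex.log (C (P (k + 1) z) / C (P k z))) =
        C (P n z) := by
      intro n
      induction n with
      | zero =>
        intro _
        have : P 0 z = 0 := by simp [P]
        rw [this]
        simp [Complex.exp_log (h0 0 (by simp))]
      | succ n ih =>
        intro hn
        rw [Finset.sum_range_succ, ← add_assoc, Complex.exp_add, ih (by omega),
          Complex.exp_log (Complex.slitPlane_ne_zero (hratio n hn z hz)), mul_div_cancel₀ _ (h0 _ (hP n (by omega) z hz))]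
    rw [h1 N le_rfl]
    have h2 : P N z = z := by
      simp only [P]
      rw [div_self hNpos.ne', one_smul]
    rw [h2]

end BU2Aux

theorem bu2 (c : (Fin 3 → ℝ) → ℂ) (hc : ContinuousOn c {x | ∑ i, x i ^ 2 = 1})
    (h0 : ∀ x : Fin 3 → ℝ, ∑ i, x i ^ 2 = 1 → c x ≠ 0)
    (hodd : ∀ x : Fin 3 → ℝ, ∑ i, x i ^ 2 = 1 → c (-x) = -c x) : False := by
  let J : ℂ → Fin 3 → ℝ := fun z => ![z.re, z.im, Real.sqrt (1 - ‖z‖ ^ 2)]
  have hJc : Continuous J := by
    refine continuous_pi fun i => ?_
    fin_cases i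
    · exact Complex.continuous_re
    · exact Complex.continuous_im
    · exact Real.continuous_sqrt.comp (continuous_const.sub (continuous_norm.pow 2))
  have hJs : ∀ z ∈ Metric.closedBall (0 : ℂ) 1, J z ∈ {x : Fin 3 → ℝ | ∑ i, x i ^ 2 = 1} := by
    intro z hz
    rw [mem_closedBall_zero_iff] at hz
    have h1 : 0 ≤ 1 - ‖z‖ ^ 2 := by nlinarith [norm_nonneg z]
    have h2 : ‖z‖ ^ 2 = z.re ^ 2 + z.im ^ 2 := by
      rw [← Complex.normSq_eq_norm_sq, Complex.normSq_apply]
      ring
    change ∑ i, J z i ^ 2 = 1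
    rw [Fin.sum_univ_three]
    change z.re ^ 2 + z.im ^ 2 + Real.sqrt (1 - ‖z‖ ^ 2) ^ 2 = 1
    rw [Real.sq_sqrt h1, h2]
    ring
  obtain ⟨l, hl, hexp⟩ := BU2Aux.exists_log (fun z => c (J z)) (hc.comp hJc.continuousOn hJs)
    (fun z hz => h0 _ (hJs z hz))
  let e : ℝ → ℂ := fun t => Complex.exp (t * Complex.I)
  have hec : Continuous e := by fun_prop
  have hen : ∀ t, ‖e t‖ = 1 := fun t => Complex.norm_exp_ofReal_mul_I t
  have heb : ∀ t, e t ∈ Metric.closedBall (0 : ℂ) 1 := fun t => by
    rw [mem_closedBall_zero_iff, hen]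
  have heb' : ∀ t, -e t ∈ Metric.closedBall (0 : ℂ) 1 := fun t => by
    rw [mem_closedBall_zero_iff, norm_neg, hen]
  let h : ℝ → ℝ := fun t => (l (-e t) - l (e t)).im
  have hh : Continuous h := by
    refine Complex.continuous_im.comp (Continuous.sub ?_ ?_)
    · exact hl.comp_continuous hec.neg heb'
    · exact hl.comp_continuous hec heb
  have hpi : h Real.pi = - h 0 := by
    have h1 : e Real.pi = -1 := Complex.exp_pi_mul_I
    have h2 : e 0 = 1 := by simp [e]
    simp only [h, h1, h2, neg_neg, Complex.sub_im]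
    ring
  have hzero : ∃ t, h t = 0 := by
    have h1 := intermediate_value_uIcc (a := 0) (b := Real.pi) hh.continuousOn
    have h2 : (0 : ℝ) ∈ uIcc (h 0) (h Real.pi) := by
      rw [hpi, Set.mem_uIcc]
      rcases le_total (h 0) 0 with h3 | h3
      · left
        exact ⟨h3, by linarith⟩
      · right
        exact ⟨by linarith, h3⟩
    obtain ⟨t, -, ht⟩ := h1 h2
    exact ⟨t, ht⟩
  obtain ⟨t, ht⟩ := hzero
  have h1 : J (-e t) = - J (e t) := by
    funext i
    fin_cases i
    · simp [J]
    · simp [J]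
    · simp [J, hen]
  have h2 : Complex.exp (l (-e t) - l (e t)) = -1 := by
    rw [Complex.exp_sub, hexp _ (heb' t), hexp _ (heb t), h1, hodd _ (hJs _ (heb t)), neg_div,
      div_self (h0 _ (hJs _ (heb t)))]
  have h3 : (Complex.exp (l (-e t) - l (e t))).re = Real.exp (l (-e t) - l (e t)).re := by
    rw [Complex.exp_re]
    change Real.exp (l (-e t) - l (e t)).re * Real.cos (h t) = _
    rw [ht, Real.cos_zero, mul_one]
  rw [h2] at h3
  have h4 := Real.exp_pos (l (-e t) - l (e t)).re
  simp only [Complex.neg_re, Complex.one_re] at h3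
  linarith

end DK4
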