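import Pool.Agent.Lib.DK4.BU

/-!
Module DK4.BU2E: Borsuk-Ulam for `S² × [0,1] → ℂ × ℝ`, odd in the first and even in the second
component, where the even component changes sign from `t = 0` to `t = 1`.

PROOF (quaternions as in DK4.BU; `BUAux.lift_step`, `ne_of_near`).
Suppose there is no common zero.  `G(x,t)` = the imaginary quaternion `g i + (re c) j + (im c) k` divided by
its norm: continuous on `S² × [0,1]`, `G² = -1`, and `G(-x,t) = cj G(x,t)`, where `cj q = -i q i` changes the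
signs of the `j` and `k` components (a ring automorphism that commutes with `star`).
For unit imaginary `a, b` with `b ≠ -a`, the quaternion `r = 1 - b a` is nonzero and `r a = b r`.
`S² × [0,1]` is compact: choose `N` with `‖G(x,(k+1)/N) - G(x,k/N)‖ < 1` for all `x ∈ S²`, `k < N`, and put
`h(x) = r_{N-1}(x) ⋯ r_0(x) r_{-1}(x)`, where `r_k(x) = 1 - G(x,(k+1)/N) G(x,k/N)` and
`r_{-1}(x) = 1 - G(x,0) i` (nonzero because `G(x,0)` has positive `i`-component, so `G(x,0) ≠ -i`).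
Then `h` is continuous on `S²`, `h(x) ≠ 0`, `h(x) i = G(x,1) h(x)`, and `h(-x) = cj h(x)`.
`G(x,1)` has negative `i`-component, so `m(x) = 1 + G(x,1) i ≠ 0`, and `m(-x) = cj m(x)`,
`star m(x) G(x,1) = - i star m(x)`.
Put `z(x) = star m(x) h(x)`.  Then `z i = - i z`, so the real and the `i` component of `z` vanish, and
`z(-x) = cj z(x) = - z(x)`: the `j`, `k` components of `z` are a continuous, odd, nonvanishing map `S² → ℂ`,
which contradicts `bu2`.
-/

open Set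

namespace DK4

namespace BU2EAux

open Quaternion BUAux

/-- conjugation by `i` -/
noncomputable def cj (q : ℍ[ℝ]) : ℍ[ℝ] := ⟨q.re, q.imI, -q.imJ, -q.imK⟩

@[simp] theorem cj_re (q : ℍ[ℝ]) : (cj q).re = q.re := rfl
@[simp] theorem cj_imI (q : ℍ[ℝ]) : (cj q).imI = q.imI := rfl
@[simp] theorem cj_imJ (q : ℍ[ℝ]) : (cj q).imJ = -q.imJ := rfl
@[simp] theorem cj_imK (q : ℍ[ℝ]) : (cj q).imK = -q.imK := rfl

theorem cj_mul (a b : ℍ[ℝ]) : cj (a * b) = cj a * cj b := by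
  ext <;> simp <;> ring

theorem cj_one : cj 1 = 1 := by
  ext <;> simp

theorem cj_sub (a b : ℍ[ℝ]) : cj (a - b) = cj a - cj b := by
  ext <;> simp <;> ring

theorem cj_add (a b : ℍ[ℝ]) : cj (a + b) = cj a + cj b := by
  ext <;> simp <;> ring

theorem cj_star (a : ℍ[ℝ]) : cj (star a) = star (cj a) := by
  ext <;> simp

theorem cj_qi : cj qi = qi := by
  ext <;> simp [qi]

theorem liftT (G : (Fin 3 → ℝ) × ℝ → ℍ[ℝ]) (S : Set (Fin 3 → ℝ)) (hS : IsCompact S)
    (hG : ContinuousOn G (S ×ˢ Icc (0 : ℝ) 1))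
    (hGG : ∀ x ∈ S, ∀ t ∈ Icc (0 : ℝ) 1, G (x, t) * G (x, t) = -1)
    (hGc : ∀ x ∈ S, ∀ t ∈ Icc (0 : ℝ) 1, G (-x, t) = cj (G (x, t)))
    (h0 : ∀ x ∈ S, G (x, 0) ≠ -qi) :
    ∃ h : (Fin 3 → ℝ) → ℍ[ℝ], ContinuousOn h S ∧ (∀ x ∈ S, h x ≠ 0) ∧
      (∀ x ∈ S, h x * qi = G (x, 1) * h x) ∧ ∀ x ∈ S, h (-x) = cj (h x) := by
  have hK : IsCompact (S ×ˢ Icc (0 : ℝ) 1) := hS.prod isCompact_Icc
  have hU := hK.uniformContinuousOn_of_continuous hG
  rw [Metric.uniformContinuousOn_iff] at hU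
  obtain ⟨δ, hδ, hU⟩ := hU 1 one_pos
  obtain ⟨N, hN⟩ := exists_nat_gt (1 / δ)
  have hN0 : (0 : ℝ) < N := lt_trans (by positivity) hN
  have hNδ : 1 / (N : ℝ) < δ := by
    rw [div_lt_iff₀ hN0]
    rw [div_lt_iff₀ hδ] at hN
    linarith
  have hcomp : ∀ t ∈ Icc (0 : ℝ) 1, ContinuousOn (fun x => G (x, t)) S := fun t ht =>
    hG.comp (by fun_prop) fun x hx => ⟨hx, ht⟩
  have key : ∀ k : ℕ, k ≤ N → ∃ h : (Fin 3 → ℝ) → ℍ[ℝ], ContinuousOn h S ∧ (∀ x ∈ S, h x ≠ 0) ∧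
      (∀ x ∈ S, h x * qi = G (x, (k : ℝ) / N) * h x) ∧ ∀ x ∈ S, h (-x) = cj (h x) := by
    intro k
    induction k with
    | zero =>
      intro _
      have z0 : (0 : ℝ) ∈ Icc (0 : ℝ) 1 := ⟨le_rfl, zero_le_one⟩
      have st : ∀ x ∈ S, _ := fun x hx =>
        lift_step qi (G (x, 0)) 1 qi_sq (hGG x hx 0 z0) (h0 x hx) one_ne_zero (by simp)
      refine ⟨fun x => (1 - G (x, 0) * qi) * 1, ?_, fun x hx => (st x hx).1, fun x hx => ?_,
        fun x hx => ?_⟩
      · exact (continuousOn_const.sub ((hcomp 0 z0).mul continuousOn_const)).mul continuousOn_const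
      · simp only [Nat.cast_zero, zero_div]
        exact (st x hx).2
      · simp only [mul_one]
        rw [hGc x hx 0 z0, cj_sub, cj_mul, cj_one, cj_qi]
    | succ k ih =>
      intro hk
      obtain ⟨g, hg, hg0, hgi, hgc⟩ := ih (by omega)
      have hkN : ((k + 1 : ℕ) : ℝ) ≤ N := by exact_mod_cast hk
      have hkN' : ((k : ℕ) : ℝ) ≤ N := by exact_mod_cast (by omega : k ≤ N)
      have m1 : (k : ℝ) / N ∈ Icc (0 : ℝ) 1 := ⟨by positivity, (div_le_one hN0).2 hkN'⟩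
      have m2 : ((k + 1 : ℕ) : ℝ) / N ∈ Icc (0 : ℝ) 1 := ⟨by positivity, (div_le_one hN0).2 hkN⟩
      have st : ∀ x ∈ S, _ := fun x hx =>
        lift_step (G (x, (k : ℝ) / N)) (G (x, ((k + 1 : ℕ) : ℝ) / N)) (g x)
          (hGG x hx _ m1) (hGG x hx _ m2)
          (ne_of_near _ _ (hGG x hx _ m1) (hU _ ⟨hx, m2⟩ _ ⟨hx, m1⟩ (by
            rw [Prod.dist_eq, dist_self, Real.dist_eq]
            have : (((k + 1 : ℕ) : ℝ) / N) - (k : ℝ) / N = 1 / N := by
              push_cast; ring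
            simp only [this]
            rw [abs_of_nonneg (by positivity), max_eq_right (by positivity)]
            exact hNδ))) (hg0 x hx) (hgi x hx)
      refine ⟨fun x => (1 - G (x, ((k + 1 : ℕ) : ℝ) / N) * G (x, (k : ℝ) / N)) * g x,
        (continuousOn_const.sub ((hcomp _ m2).mul (hcomp _ m1))).mul hg, fun x hx => (st x hx).1,
        fun x hx => (st x hx).2, fun x hx => ?_⟩
      simp only
      rw [hGc x hx _ m2, hGc x hx _ m1, hgc x hx, cj_mul, cj_sub, cj_mul, cj_one]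
  obtain ⟨h, hh, hh0, hhi, hhc⟩ := key N le_rfl
  refine ⟨h, hh, hh0, fun x hx => ?_, hhc⟩
  have := hhi x hx
  rwa [div_self hN0.ne'] at this

end BU2EAux

open BUAux BU2EAux in
open Quaternion in
theorem bu2e {c : (Fin 3 → ℝ) → ℝ → ℂ} {g : (Fin 3 → ℝ) → ℝ → ℝ}
    (hc : Continuous fun x : (Fin 3 → ℝ) × ℝ => c x.1 x.2)
    (hg : Continuous fun x : (Fin 3 → ℝ) × ℝ => g x.1 x.2)
    (codd : ∀ x t, c (-x) t = -c x t) (geven : ∀ x t, g (-x) t = g x t)
    (h0 : ∀ x : Fin 3 → ℝ, ∑ i, x i ^ 2 = 1 → 0 < g x 0)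
    (h1 : ∀ x : Fin 3 → ℝ, ∑ i, x i ^ 2 = 1 → g x 1 < 0) :
    ∃ (x : Fin 3 → ℝ) (t : ℝ), ∑ i, x i ^ 2 = 1 ∧ t ∈ Icc (0 : ℝ) 1 ∧ c x t = 0 ∧ g x t = 0 := by
  by_contra hcon
  push Not at hcon
  set S : Set (Fin 3 → ℝ) := {x | ∑ i, x i ^ 2 = 1} with hSdef
  have hSc : IsCompact S := by
    refine Metric.isCompact_of_isClosed_isBounded ?_ ?_
    · exact isClosed_eq (by fun_prop) continuous_const
    · refine (Metric.isBounded_closedBall (x := (0 : Fin 3 → ℝ)) (r := 1)).subset fun x hx => ?_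
      rw [mem_closedBall_zero_iff, pi_norm_le_iff_of_nonneg one_pos.le]
      intro i
      have h1 : x i ^ 2 ≤ ∑ i, x i ^ 2 :=
        Finset.single_le_sum (f := fun i => x i ^ 2) (fun i _ => sq_nonneg _) (Finset.mem_univ i)
      have h2 : x i ^ 2 ≤ 1 := h1.trans (le_of_eq hx)
      rw [Real.norm_eq_abs]
      exact abs_le_one_iff_mul_self_le_one.2 (by nlinarith)
  have hSneg : ∀ x ∈ S, -x ∈ S := fun x hx => by
    have hx' : ∑ i, x i ^ 2 = 1 := hx
    change ∑ i, (-x) i ^ 2 = 1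
    simpa using hx'
  set P : (Fin 3 → ℝ) × ℝ → ℍ[ℝ] := fun p =>
    (g p.1 p.2) • qi + (c p.1 p.2).re • qj + (c p.1 p.2).im • qk with hPdef
  have hPc : Continuous P :=
    ((hg.smul continuous_const).add ((Complex.continuous_re.comp hc).smul continuous_const)).add
      ((Complex.continuous_im.comp hc).smul continuous_const)
  have hPre : ∀ p, (P p).re = 0 := fun p => by simp [hPdef, qi, qj, qk]
  have hPI : ∀ p, (P p).imI = g p.1 p.2 := fun p => by simp [hPdef, qi, qj, qk]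
  have hPJ : ∀ p, (P p).imJ = (c p.1 p.2).re := fun p => by simp [hPdef, qi, qj, qk]
  have hPK : ∀ p, (P p).imK = (c p.1 p.2).im := fun p => by simp [hPdef, qi, qj, qk]
  have hP0 : ∀ x ∈ S, ∀ t ∈ Icc (0 : ℝ) 1, P (x, t) ≠ 0 := by
    intro x hx t ht h
    have e1 := congrArg QuaternionAlgebra.imI h
    have e2 := congrArg QuaternionAlgebra.imJ h
    have e3 := congrArg QuaternionAlgebra.imK h
    rw [hPI] at e1
    rw [hPJ] at e2
    rw [hPK] at e3
    exact hcon x t hx ht (Complex.ext e2 e3) e1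
  have hPneg : ∀ x t, P (-x, t) = cj (P (x, t)) := by
    intro x t
    refine Quaternion.ext _ _ ?_ ?_ ?_ ?_
    · rw [cj_re, hPre, hPre]
    · rw [cj_imI, hPI, hPI]; exact geven x t
    · rw [cj_imJ, hPJ, hPJ]; simp [codd]
    · rw [cj_imK, hPK, hPK]; simp [codd]
  have hPst : ∀ p, star (P p) = -P p := by
    intro p
    refine Quaternion.ext _ _ ?_ ?_ ?_ ?_
    · simp [hPre]
    · simp
    · simp
    · simp
  have hPsq : ∀ p, P p * P p = -((‖P p‖ ^ 2 : ℝ) : ℍ[ℝ]) := by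
    intro p
    have h2 := Quaternion.self_mul_star (P p)
    rw [hPst, Quaternion.normSq_eq_norm_mul_self, mul_neg] at h2
    rw [pow_two, ← h2, neg_neg]
  have hnorm : ∀ x t, ‖P (-x, t)‖ = ‖P (x, t)‖ := by
    intro x t
    have e : normSq (P (-x, t)) = normSq (P (x, t)) := by
      rw [hPneg, Quaternion.normSq_def', Quaternion.normSq_def']
      simp
    rw [Quaternion.normSq_eq_norm_mul_self, Quaternion.normSq_eq_norm_mul_self] at e
    nlinarith [norm_nonneg (P (-x, t)), norm_nonneg (P (x, t))]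
  set G : (Fin 3 → ℝ) × ℝ → ℍ[ℝ] := fun p => (‖P p‖⁻¹ : ℝ) • P p with hGdef
  have hGc : ContinuousOn G (S ×ˢ Icc (0 : ℝ) 1) :=
    (hPc.norm.continuousOn.inv₀ fun p hp => norm_ne_zero_iff.2 (hP0 p.1 hp.1 p.2 hp.2)).smul
      hPc.continuousOn
  have hGG : ∀ x ∈ S, ∀ t ∈ Icc (0 : ℝ) 1, G (x, t) * G (x, t) = -1 := by
    intro x hx t ht
    have hn : ‖P (x, t)‖ ≠ 0 := norm_ne_zero_iff.2 (hP0 x hx t ht)
    simp only [hGdef]
    rw [smul_mul_smul_comm, hPsq, smul_neg, ← Quaternion.coe_mul_eq_smul, ← Quaternion.coe_mul]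
    have h1 : ‖P (x, t)‖⁻¹ * ‖P (x, t)‖⁻¹ * ‖P (x, t)‖ ^ 2 = 1 := by field_simp
    rw [h1, Quaternion.coe_one]
  have hGneg : ∀ x ∈ S, ∀ t ∈ Icc (0 : ℝ) 1, G (-x, t) = cj (G (x, t)) := by
    intro x _ t _
    simp only [hGdef]
    rw [hnorm, hPneg]
    ext <;> simp
  have hGI : ∀ x t, (G (x, t)).imI = ‖P (x, t)‖⁻¹ * g x t := by
    intro x t
    simp only [hGdef]
    rw [← hPI (x, t)]
    simp
  have hinv : ∀ x ∈ S, ∀ t ∈ Icc (0 : ℝ) 1, 0 < ‖P (x, t)‖⁻¹ := fun x hx t ht =>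
    inv_pos.2 (norm_pos_iff.2 (hP0 x hx t ht))
  have t0 : (0 : ℝ) ∈ Icc (0 : ℝ) 1 := ⟨le_rfl, zero_le_one⟩
  have t1 : (1 : ℝ) ∈ Icc (0 : ℝ) 1 := ⟨zero_le_one, le_rfl⟩
  obtain ⟨h, hhc, hh0, hhi, hhn⟩ := liftT G S hSc hGc hGG hGneg (by
    intro x hx e
    have e1 := congrArg QuaternionAlgebra.imI e
    rw [hGI] at e1
    have e2 : 0 < ‖P (x, 0)‖⁻¹ * g x 0 := mul_pos (hinv x hx 0 t0) (h0 x hx)
    simp [qi] at e1
    linarith)
  have hstarG : ∀ p, star (G p) = -G p := by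
    intro p
    simp only [hGdef]
    rw [Quaternion.star_smul, hPst, smul_neg]
  set m : (Fin 3 → ℝ) → ℍ[ℝ] := fun x => 1 + G (x, 1) * qi with hmdef
  have hm0 : ∀ x ∈ S, m x ≠ 0 := by
    intro x hx e
    have e1 : G (x, 1) * qi = -1 := by
      have : 1 + G (x, 1) * qi = 0 := e
      exact (neg_eq_of_add_eq_zero_right this).symm
    have e2 : G (x, 1) = qi := by
      have : G (x, 1) * (qi * qi) = -1 * qi := by rw [← mul_assoc, e1]
      rw [qi_sq] at this
      simpa using this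
    have e3 := congrArg QuaternionAlgebra.imI e2
    rw [hGI] at e3
    have e4 : ‖P (x, 1)‖⁻¹ * g x 1 < 0 := mul_neg_of_pos_of_neg (hinv x hx 1 t1) (h1 x hx)
    simp [qi] at e3
    linarith
  have hmn : ∀ x ∈ S, m (-x) = cj (m x) := by
    intro x hx
    simp only [hmdef]
    rw [hGneg x hx 1 t1, cj_add, cj_mul, cj_one, cj_qi]
  have hmc : ContinuousOn m S :=
    continuousOn_const.add ((hGc.comp (f := fun x : Fin 3 → ℝ => (x, (1 : ℝ))) (by fun_prop)
      fun x hx => ⟨hx, t1⟩).mul continuousOn_const)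
  have hmG : ∀ x ∈ S, star (m x) * G (x, 1) = -(qi * star (m x)) := by
    intro x hx
    have hsi : star qi = -qi := by ext <;> simp [qi]
    have e : star (m x) = 1 + qi * G (x, 1) := by
      simp only [hmdef]
      rw [star_add, star_mul, hstarG, hsi, star_one]
      simp
    rw [e, add_mul, one_mul, mul_assoc, hGG x hx 1 t1, mul_add, ← mul_assoc, qi_sq]
    simp
  set z : (Fin 3 → ℝ) → ℍ[ℝ] := fun x => star (m x) * h x with hzdef
  have hzi : ∀ x ∈ S, z x * qi = -(qi * z x) := by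
    intro x hx
    simp only [hzdef]
    rw [mul_assoc, hhi x hx, ← mul_assoc, hmG x hx, neg_mul, mul_assoc]
  have hz0 : ∀ x ∈ S, z x ≠ 0 := fun x hx =>
    mul_ne_zero (star_ne_zero.2 (hm0 x hx)) (hh0 x hx)
  have hzre : ∀ x ∈ S, (z x).re = 0 ∧ (z x).imI = 0 := by
    intro x hx
    have e := hzi x hx
    have e1 := congrArg QuaternionAlgebra.re e
    have e2 := congrArg QuaternionAlgebra.imI e
    simp [qi] at e1 e2
    constructor <;> linarith
  have hzn : ∀ x ∈ S, z (-x) = cj (z x) := by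
    intro x hx
    simp only [hzdef]
    rw [hmn x hx, hhn x hx, cj_mul, cj_star]
  have hzc : ContinuousOn z S := hmc.star.mul hhc
  refine bu2 (fun x => ⟨(z x).imJ, (z x).imK⟩) ?_ ?_ ?_
  · have h1 : ContinuousOn (fun x => (z x).imJ) S := Quaternion.continuous_imJ.comp_continuousOn hzc
    have h2 : ContinuousOn (fun x => (z x).imK) S := Quaternion.continuous_imK.comp_continuousOn hzc
    exact Complex.equivRealProdCLM.symm.continuous.comp_continuousOn (h1.prodMk h2)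
  · intro x hx e
    apply hz0 x hx
    have e1 := congrArg Complex.re e
    have e2 := congrArg Complex.im e
    simp at e1 e2
    exact Quaternion.ext _ _ (hzre x hx).1 (hzre x hx).2 e1 e2
  · intro x hx
    rw [hzn x hx]
    apply Complex.ext <;> simp

end DK4
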