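import Pool.Agent.Lib.DK4.BU

/-!
Module DK4.BU2T: Borsuk-Ulam for `S² × [0,1] → ℂ × ℝ` with a twisted identification of the ends.

PROOF (quaternions as in DK4.BU and DK4.BU2E; reuse `BUAux.lift_step`, `ne_of_near`, ...).
Suppose there is no common zero.  `G(x,t)` = the imaginary quaternion `g i + (re c) j + (im c) k` divided by
its norm: continuous, `G² = -1`, `G(-x,t) = i G(x,t) i⁻¹`.  The condition at the ends says
`G(x,1) = - ε G(x,0) ε⁻¹` with `ε = 1 + i` (conjugation by `ε` is `i ↦ i, j ↦ k, k ↦ -j`; `c(x,1) = -I c(x,0)`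
means `re c(x,1) = im c(x,0)`, `im c(x,1) = - re c(x,0)`).
For unit imaginary `a, b` with `b ≠ -a`, `r = 1 - b a` is nonzero and `r a = b r`.
Choose `N` with `‖G(x,(k+1)/N) - G(x,k/N)‖ < 1` for `x ∈ S²`, `k < N`; `r(x) = ∏ (1 - G(x,(k+1)/N) G(x,k/N))` (in the
right order): continuous, nonzero, `G(x,1) r(x) = r(x) G(x,0)`, `r(-x) = i r(x) i⁻¹`.
`s(x) = ε⁻¹ r(x) / norm` is a unit quaternion with `s G₀ = - G₀ s`, `G₀ = G(x,0)`; hence `s` is imaginary and
orthogonal to `G₀` (so `s² = -1`), and `s(-x) = i s(x) i⁻¹`.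
FRAME LIFT.  On the closed unit disc `D` of `ℂ` let `J z = (re z, im z, √(1-|z|²)) ∈ S²`.  There is a continuous
nonvanishing `h : D → ℍ` with `G₀(J z) h = h i` and `s(J z) h = h j`: start with a quaternion `h₀` for `z = 0` (any
orthonormal pair of imaginary quaternions is conjugate to `(i, j)`: first `r = 1 - G₀ i` or `j` if `G₀ = -i`, then
`1 - s s'` or `G₀` ...) and use products along the rays `k z / N`: if `(a, b)` and `(a', b')` are two
orthonormal pairs with `‖a - a'‖, ‖b - b'‖` small then `r₁ = 1 - a' a` takes `a` to `a'` and `b` to some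
`b₁ ⊥ a'` (`b₁ = r₁ b r₁⁻¹`, close to `b'`), and `r₂ = 1 - b' b₁` takes `b₁` to `b'` and commutes with `a'` (as
`b' b₁` is in the span of `1` and `a'`); multiply by `r₂ r₁`.
CONTRADICTION.  For `|z| = 1`, `J (-z) = -J z`, and `h(-z)`, `i h(z)` have the same effect:
`(i h(z))⁻¹ h(-z)` commutes with `i` and `j`, so it is a nonzero real number; normalise `h` to norm 1, then it is
`±1`, continuous on the circle (connected), hence a constant `σ`: `h(-z) = σ i h(z)`.  Applying this twice: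
`h(z) = σ i h(-z) = σ² i² h(z) = -h(z)`, contradiction.
-/

open Set

namespace DK4

namespace BU2TAux

open Quaternion BUAux

theorem one_sub_ne (a b : ℍ[ℝ]) (ha : a * a = -1) (hab : b ≠ -a) : 1 - b * a ≠ 0 := by
  intro h
  have h1 : b * a = 1 := (sub_eq_zero.1 h).symm
  have h2 : b * (a * a) = a := by rw [← mul_assoc, h1, one_mul]
  rw [ha] at h2
  apply hab
  rw [← h2]
  simp

/-- the quaternion that takes the frame `(a, b)` to the frame `(a', b')` -/
noncomputable def R (a b a' b' : ℍ[ℝ]) : ℍ[ℝ] := 1 - a' * a - b' * b + (b' * a') * (a * b)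

theorem R_comm {a b a' b' : ℍ[ℝ]} (ha : a * a = -1) (hb : b * b = -1) (hab : a * b = -(b * a))
    (ha' : a' * a' = -1) (hb' : b' * b' = -1) (hab' : a' * b' = -(b' * a')) :
    R a b a' b' * a = a' * R a b a' b' ∧ R a b a' b' * b = b' * R a b a' b' := by
  have e1 : a * b * a = b := by
    rw [hab, neg_mul, mul_assoc, ha]
    simp
  have e2 : a' * b' * a' = b' := by
    rw [hab', neg_mul, mul_assoc, ha']
    simp
  constructor
  · have h1 : R a b a' b' * a = a - a' * (a * a) - b' * (b * a) + (b' * a') * (a * b * a) := by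
      unfold R
      noncomm_ring
    have h2 : a' * R a b a' b' =
        a' - (a' * a') * a - (a' * b') * b + (a' * b' * a') * (a * b) := by
      unfold R
      noncomm_ring
    rw [h1, h2, e1, e2, ha, ha', hab', hab]
    noncomm_ring
  · have h1 : R a b a' b' * b = b - a' * (a * b) - b' * (b * b) + (b' * a') * (a * (b * b)) := by
      unfold R
      noncomm_ring
    have h2 : b' * R a b a' b' =
        b' - b' * a' * a - (b' * b') * b + (b' * b') * (a' * (a * b)) := by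
      unfold R
      noncomm_ring
    rw [h1, h2, hb, hb']
    noncomm_ring

theorem R_ne {a b a' b' : ℍ[ℝ]} (ha : a * a = -1) (hb : b * b = -1)
    (hb' : b' * b' = -1) (hd : dist a' a < 1) (hd' : dist b' b < 1) :
    R a b a' b' ≠ 0 := by
  intro h
  have na := norm_of_sq a ha
  have nb := norm_of_sq b hb
  have nb' := norm_of_sq b' hb'
  rw [dist_eq_norm] at hd hd'
  have e1 : (b * a) * (a * b) = 1 := by
    have : (b * a) * (a * b) = b * (a * a) * b := by noncomm_ring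
    rw [this, ha, mul_neg, mul_one, neg_mul, hb, neg_neg]
  have e2 : R a b a' b' = 4 - (a' - a) * a - (b' - b) * b +
      (b' * (a' - a) + (b' - b) * a) * (a * b) := by
    have e3 : (4 : ℍ[ℝ]) - (a' - a) * a - (b' - b) * b +
      (b' * (a' - a) + (b' - b) * a) * (a * b) =
      4 - a' * a - b' * b + (b' * a') * (a * b) + a * a + b * b - (b * a) * (a * b) := by
      noncomm_ring
    have h4 : (4 : ℍ[ℝ]) = 1 + 1 + 1 + 1 := by norm_num
    rw [e3, ha, hb, e1, h4]
    unfold R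
    noncomm_ring
  rw [h] at e2
  have e4 : (4 : ℍ[ℝ]) = (a' - a) * a + (b' - b) * b -
      (b' * (a' - a) + (b' - b) * a) * (a * b) := by
    have : (4 : ℍ[ℝ]) = ((4 : ℍ[ℝ]) - (a' - a) * a - (b' - b) * b +
      (b' * (a' - a) + (b' - b) * a) * (a * b)) + ((a' - a) * a + (b' - b) * b -
      (b' * (a' - a) + (b' - b) * a) * (a * b)) := by abel
    rw [← e2, zero_add] at this
    exact this
  have n4 : ‖(4 : ℍ[ℝ])‖ = 4 := by
    have : (4 : ℍ[ℝ]) = ((4 : ℝ) : ℍ[ℝ]) := by norm_cast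
    rw [this, Quaternion.norm_coe]
    norm_num
  have n1 : ‖(a' - a) * a‖ = ‖a' - a‖ := by rw [norm_mul, na, mul_one]
  have n2 : ‖(b' - b) * b‖ = ‖b' - b‖ := by rw [norm_mul, nb, mul_one]
  have n3 : ‖(b' * (a' - a) + (b' - b) * a) * (a * b)‖ ≤ ‖a' - a‖ + ‖b' - b‖ := by
    rw [norm_mul, norm_mul, na, nb, mul_one, mul_one]
    refine (norm_add_le _ _).trans ?_
    rw [norm_mul, norm_mul, nb', na, one_mul, mul_one]
  have n5 : (4 : ℝ) ≤ ‖a' - a‖ + ‖b' - b‖ + (‖a' - a‖ + ‖b' - b‖) := by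
    rw [← n4, e4]
    refine (norm_sub_le _ _).trans (add_le_add ((norm_add_le _ _).trans ?_) n3)
    rw [n1, n2]
  linarith

theorem qj_sq : qj * qj = -1 := by
  ext <;> simp [qj]

theorem qk_sq : qk * qk = -1 := by
  ext <;> simp [qk]

theorem qij : qi * qj = -(qj * qi) := by
  ext <;> simp [qi, qj]

/-- the existence of a quaternion for a frame -/
theorem start {a b : ℍ[ℝ]} (ha : a * a = -1) (hb : b * b = -1) (hab : a * b = -(b * a)) :
    ∃ q : ℍ[ℝ], q ≠ 0 ∧ q * qi = a * q ∧ q * qj = b * q := by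
  have key : ∀ u v m : ℍ[ℝ], u * u = -1 → v * v = -1 → u * v = -(v * u) → m ≠ 0 →
      m * qi = u * m → m * qj = v * m → R u v a b ≠ 0 →
      ∃ q : ℍ[ℝ], q ≠ 0 ∧ q * qi = a * q ∧ q * qj = b * q := by
    intro u v m hu hv huv hm h1 h2 h3
    obtain ⟨h4, h5⟩ := R_comm hu hv huv ha hb hab
    refine ⟨R u v a b * m, mul_ne_zero h3 hm, ?_, ?_⟩
    · rw [mul_assoc, h1, ← mul_assoc, h4, mul_assoc]
    · rw [mul_assoc, h2, ← mul_assoc, h5, mul_assoc]
  by_contra hcon
  have r0 : R qi qj a b = 0 := by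
    by_contra h
    exact hcon (key qi qj 1 qi_sq qj_sq qij one_ne_zero (by simp) (by simp) h)
  have hqi : qi ≠ 0 := by
    intro h
    have := congrArg QuaternionAlgebra.imI h
    simp [qi] at this
  have hqj : qj ≠ 0 := by
    intro h
    have := congrArg QuaternionAlgebra.imJ h
    simp [qj] at this
  have hqk : qk ≠ 0 := by
    intro h
    have := congrArg QuaternionAlgebra.imK h
    simp [qk] at this
  have r1 : R qi (-qj) a b = 0 := by
    by_contra h
    refine hcon (key qi (-qj) qi qi_sq (by rw [neg_mul_neg, qj_sq]) ?_ hqi rfl ?_ h)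
    · ext <;> simp [qi, qj]
    · ext <;> simp [qi, qj]
  have r2 : R (-qi) qj a b = 0 := by
    by_contra h
    refine hcon (key (-qi) qj qj (by rw [neg_mul_neg, qi_sq]) qj_sq ?_ hqj ?_ rfl h)
    · ext <;> simp [qi, qj]
    · ext <;> simp [qi, qj]
  have r3 : R (-qi) (-qj) a b = 0 := by
    by_contra h
    refine hcon (key (-qi) (-qj) qk (by rw [neg_mul_neg, qi_sq]) (by rw [neg_mul_neg, qj_sq])
      ?_ hqk ?_ ?_ h)
    · ext <;> simp [qi, qj]
    · ext <;> simp [qi, qk]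
    · ext <;> simp [qj, qk]
  have hs : R qi qj a b + R qi (-qj) a b + R (-qi) qj a b + R (-qi) (-qj) a b =
      1 + 1 + 1 + 1 := by
    unfold R
    noncomm_ring
  rw [r0, r1, r2, r3] at hs
  have := congrArg QuaternionAlgebra.re hs
  simp only [Quaternion.re_add, Quaternion.re_one, Quaternion.re_zero] at this
  norm_num at this

/-- lift of a map to the frames on the disc -/
theorem frame_lift (a b : ℂ → ℍ[ℝ]) (ha : ContinuousOn a (Metric.closedBall 0 1))
    (hb : ContinuousOn b (Metric.closedBall 0 1))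
    (haa : ∀ x ∈ Metric.closedBall (0 : ℂ) 1, a x * a x = -1)
    (hbb : ∀ x ∈ Metric.closedBall (0 : ℂ) 1, b x * b x = -1)
    (hab : ∀ x ∈ Metric.closedBall (0 : ℂ) 1, a x * b x = -(b x * a x)) :
    ∃ h : ℂ → ℍ[ℝ], ContinuousOn h (Metric.closedBall 0 1) ∧
      (∀ x ∈ Metric.closedBall (0 : ℂ) 1, h x ≠ 0) ∧
      ∀ x ∈ Metric.closedBall (0 : ℂ) 1, h x * qi = a x * h x ∧ h x * qj = b x * h x := by
  have hBc : IsCompact (Metric.closedBall (0 : ℂ) 1) := isCompact_closedBall 0 1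
  have hU := hBc.uniformContinuousOn_of_continuous ha
  have hV := hBc.uniformContinuousOn_of_continuous hb
  rw [Metric.uniformContinuousOn_iff] at hU hV
  obtain ⟨δ1, hδ1, hU⟩ := hU 1 one_pos
  obtain ⟨δ2, hδ2, hV⟩ := hV 1 one_pos
  have hδ : 0 < min δ1 δ2 := lt_min hδ1 hδ2
  obtain ⟨N, hN⟩ := exists_nat_gt (1 / min δ1 δ2)
  have hN0 : (0 : ℝ) < N := lt_trans (by positivity) hN
  have hNδ : 1 / (N : ℝ) < min δ1 δ2 := by
    rw [div_lt_iff₀ hN0]
    rw [div_lt_iff₀ hδ] at hN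
    linarith
  have h0 : (0 : ℂ) ∈ Metric.closedBall (0 : ℂ) 1 := by simp
  have hstar : ∀ x ∈ Metric.closedBall (0 : ℂ) 1, ∀ t : ℝ, 0 ≤ t → t ≤ 1 →
      t • x ∈ Metric.closedBall (0 : ℂ) 1 := by
    intro x hx t ht0 ht1
    rw [mem_closedBall_zero_iff] at hx ⊢
    rw [norm_smul, Real.norm_of_nonneg ht0]
    nlinarith [norm_nonneg x]
  have key : ∀ k : ℕ, k ≤ N → ∃ h : ℂ → ℍ[ℝ], ContinuousOn h (Metric.closedBall 0 1) ∧
      (∀ x ∈ Metric.closedBall (0 : ℂ) 1, h x ≠ 0) ∧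
      ∀ x ∈ Metric.closedBall (0 : ℂ) 1, h x * qi = a (((k : ℝ) / N) • x) * h x ∧
        h x * qj = b (((k : ℝ) / N) • x) * h x := by
    intro k
    induction k with
    | zero =>
      intro _
      obtain ⟨q, h1, h2, h3⟩ := start (haa 0 h0) (hbb 0 h0) (hab 0 h0)
      refine ⟨fun _ => q, continuousOn_const, fun x _ => h1, fun x _ => ?_⟩
      simp only [Nat.cast_zero, zero_div, zero_smul]
      exact ⟨h2, h3⟩
    | succ k ih =>
      intro hk
      obtain ⟨h, hh, hh0, hhi⟩ := ih (by omega)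
      have hkN : ((k + 1 : ℕ) : ℝ) ≤ N := by exact_mod_cast hk
      have hkN' : ((k : ℕ) : ℝ) ≤ N := by exact_mod_cast (by omega : k ≤ N)
      have m1 : ∀ x ∈ Metric.closedBall (0 : ℂ) 1, ((k : ℝ) / N) • x ∈
          Metric.closedBall (0 : ℂ) 1 := fun x hx =>
        hstar x hx _ (by positivity) ((div_le_one hN0).2 hkN')
      have m2 : ∀ x ∈ Metric.closedBall (0 : ℂ) 1, (((k + 1 : ℕ) : ℝ) / N) • x ∈
          Metric.closedBall (0 : ℂ) 1 := fun x hx =>
        hstar x hx _ (by positivity) ((div_le_one hN0).2 hkN)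
      have a1 : ContinuousOn (fun x : ℂ => a (((k : ℝ) / N) • x)) (Metric.closedBall 0 1) :=
        ha.comp (by fun_prop) m1
      have a2 : ContinuousOn (fun x : ℂ => a ((((k + 1 : ℕ) : ℝ) / N) • x))
          (Metric.closedBall 0 1) := ha.comp (by fun_prop) m2
      have b1 : ContinuousOn (fun x : ℂ => b (((k : ℝ) / N) • x)) (Metric.closedBall 0 1) :=
        hb.comp (by fun_prop) m1
      have b2 : ContinuousOn (fun x : ℂ => b ((((k + 1 : ℕ) : ℝ) / N) • x))
          (Metric.closedBall 0 1) := hb.comp (by fun_prop) m2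
      have hdist : ∀ x ∈ Metric.closedBall (0 : ℂ) 1,
          dist ((((k + 1 : ℕ) : ℝ) / N) • x) (((k : ℝ) / N) • x) < min δ1 δ2 := by
        intro x hx
        rw [mem_closedBall_zero_iff] at hx
        rw [dist_eq_norm, ← sub_smul, norm_smul]
        have : (((k + 1 : ℕ) : ℝ) / N) - (k : ℝ) / N = 1 / N := by
          push_cast; ring
        rw [this, Real.norm_of_nonneg (by positivity)]
        calc 1 / (N : ℝ) * ‖x‖ ≤ 1 / (N : ℝ) * 1 :=
              mul_le_mul_of_nonneg_left hx (by positivity)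
          _ < min δ1 δ2 := by rw [mul_one]; exact hNδ
      refine ⟨fun x => R (a (((k : ℝ) / N) • x)) (b (((k : ℝ) / N) • x))
        (a ((((k + 1 : ℕ) : ℝ) / N) • x)) (b ((((k + 1 : ℕ) : ℝ) / N) • x)) * h x,
        ?_, fun x hx => ?_, fun x hx => ?_⟩
      · unfold R
        exact (((continuousOn_const.sub (a2.mul a1)).sub (b2.mul b1)).add
          ((b2.mul a2).mul (a1.mul b1))).mul hh
      · exact mul_ne_zero (R_ne (haa _ (m1 x hx)) (hbb _ (m1 x hx))
          (hbb _ (m2 x hx)) (hU _ (m2 x hx) _ (m1 x hx) ((hdist x hx).trans_le (min_le_left _ _)))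
          (hV _ (m2 x hx) _ (m1 x hx) ((hdist x hx).trans_le (min_le_right _ _)))) (hh0 x hx)
      · obtain ⟨c1, c2⟩ := R_comm (haa _ (m1 x hx)) (hbb _ (m1 x hx)) (hab _ (m1 x hx))
          (haa _ (m2 x hx)) (hbb _ (m2 x hx)) (hab _ (m2 x hx))
        obtain ⟨d1, d2⟩ := hhi x hx
        constructor
        · rw [mul_assoc, d1, ← mul_assoc, c1, mul_assoc]
        · rw [mul_assoc, d2, ← mul_assoc, c2, mul_assoc]
  obtain ⟨h, hh, hh0, hhi⟩ := key N le_rfl
  refine ⟨h, hh, hh0, fun x hx => ?_⟩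
  have := hhi x hx
  rwa [div_self hN0.ne', one_smul] at this

/-- the point of the sphere over a point of the disc -/
noncomputable def J (z : ℂ) : Fin 3 → ℝ := ![z.re, z.im, √(1 - (z.re ^ 2 + z.im ^ 2))]

theorem J_cont : Continuous J := by
  unfold J
  refine continuous_pi fun i => ?_
  fin_cases i <;> simp <;> fun_prop

theorem sq_norm (z : ℂ) : z.re ^ 2 + z.im ^ 2 = ‖z‖ ^ 2 := by
  rw [Complex.sq_norm, Complex.normSq_apply]
  ring

theorem J_mem {z : ℂ} (hz : ‖z‖ ≤ 1) : ∑ i, J z i ^ 2 = 1 := by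
  have h0 : 0 ≤ 1 - (z.re ^ 2 + z.im ^ 2) := by
    rw [sq_norm]
    nlinarith [norm_nonneg z]
  have h : (√(1 - (z.re ^ 2 + z.im ^ 2))) ^ 2 = 1 - (z.re ^ 2 + z.im ^ 2) := Real.sq_sqrt h0
  rw [Fin.sum_univ_three]
  show z.re ^ 2 + z.im ^ 2 + (√(1 - (z.re ^ 2 + z.im ^ 2))) ^ 2 = 1
  rw [h]
  ring

theorem J_neg {z : ℂ} (hz : ‖z‖ = 1) : J (-z) = -J z := by
  have h1 : z.re ^ 2 + z.im ^ 2 = 1 := by rw [sq_norm, hz]; norm_num
  have h2 : (-z).re ^ 2 + (-z).im ^ 2 = 1 := by simpa using h1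
  funext i
  unfold J
  rw [h1, h2]
  fin_cases i <;> simp

theorem re_comm (x y : ℍ[ℝ]) : (x * y).re = (y * x).re := by
  rw [Quaternion.re_mul, Quaternion.re_mul]
  ring

/-- a quaternion which anticommutes with a square root of `-1` is imaginary -/
theorem re_zero {a q : ℍ[ℝ]} (ha : a * a = -1) (h : q * a = -(a * q)) : q.re = 0 := by
  have h1 : a * (q * a) = q := by
    rw [h, mul_neg, ← mul_assoc, ha]
    simp
  have h2 : (a * (q * a)).re = -q.re := by
    rw [re_comm, mul_assoc, ha]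
    simp
  rw [h1] at h2
  linarith

theorem sq_of_re_zero {q : ℍ[ℝ]} (h : q.re = 0) : q * q = -((‖q‖ ^ 2 : ℝ) : ℍ[ℝ]) := by
  have h1 : star q = -q := by
    ext <;> simp [h]
  have h2 := Quaternion.self_mul_star q
  rw [h1, Quaternion.normSq_eq_norm_mul_self, mul_neg] at h2
  rw [pow_two, ← h2, neg_neg]

theorem unit_sq {q : ℍ[ℝ]} (h : q.re = 0) (h0 : q ≠ 0) :
    ((‖q‖⁻¹ : ℝ) • q) * ((‖q‖⁻¹ : ℝ) • q) = -1 := by
  have hn : ‖q‖ ≠ 0 := norm_ne_zero_iff.2 h0
  rw [smul_mul_smul_comm, sq_of_re_zero h, smul_neg, ← Quaternion.coe_mul_eq_smul,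
    ← Quaternion.coe_mul]
  have h1 : ‖q‖⁻¹ * ‖q‖⁻¹ * ‖q‖ ^ 2 = 1 := by field_simp
  rw [h1, Quaternion.coe_one]

theorem real_of_comm {w : ℍ[ℝ]} (h1 : w * qi = qi * w) (h2 : w * qj = qj * w) :
    w = (w.re : ℍ[ℝ]) := by
  have e1 := congrArg QuaternionAlgebra.imJ h1
  have e2 := congrArg QuaternionAlgebra.imK h1
  have e3 := congrArg QuaternionAlgebra.imK h2
  simp [qi, qj] at e1 e2 e3
  have f1 : w.imI = 0 := by linarith
  have f2 : w.imJ = 0 := by linarith
  have f3 : w.imK = 0 := by linarith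
  exact Quaternion.ext _ _ rfl f1 f2 f3

theorem norm_qi : ‖qi‖ = 1 := norm_of_sq _ qi_sq

end BU2TAux

open BU2TAux BUAux in
open Quaternion in
theorem bu2t {c : (Fin 3 → ℝ) → ℝ → ℂ} {g : (Fin 3 → ℝ) → ℝ → ℝ}
    (hc : Continuous fun x : (Fin 3 → ℝ) × ℝ => c x.1 x.2)
    (hg : Continuous fun x : (Fin 3 → ℝ) × ℝ => g x.1 x.2)
    (codd : ∀ x t, c (-x) t = -c x t) (geven : ∀ x t, g (-x) t = g x t)
    (cper : ∀ x, c x 1 = -Complex.I * c x 0) (gper : ∀ x, g x 1 = -g x 0) :
    ∃ (x : Fin 3 → ℝ) (t : ℝ), ∑ i, x i ^ 2 = 1 ∧ t ∈ Icc (0 : ℝ) 1 ∧ c x t = 0 ∧ g x t = 0 := by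
  by_contra hcon
  push Not at hcon
  set S : Set (Fin 3 → ℝ) := {x | ∑ i, x i ^ 2 = 1} with hSdef
  have hnorm : ∀ x ∈ S, ‖x‖ ≤ 1 := by
    intro x hx
    rw [pi_norm_le_iff_of_nonneg one_pos.le]
    intro i
    have h1 : x i ^ 2 ≤ ∑ i, x i ^ 2 :=
      Finset.single_le_sum (f := fun i => x i ^ 2) (fun i _ => sq_nonneg _) (Finset.mem_univ i)
    have h2 : x i ^ 2 ≤ 1 := h1.trans (le_of_eq hx)
    rw [Real.norm_eq_abs]
    exact abs_le_one_iff_mul_self_le_one.2 (by nlinarith)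
  have hSc : IsCompact S := by
    refine Metric.isCompact_of_isClosed_isBounded ?_ ?_
    · exact isClosed_eq (by fun_prop) continuous_const
    · refine (Metric.isBounded_closedBall (x := (0 : Fin 3 → ℝ)) (r := 1)).subset fun x hx => ?_
      rw [mem_closedBall_zero_iff]
      exact hnorm x hx
  have hSneg : ∀ x ∈ S, -x ∈ S := fun x hx => by
    have hx' : ∑ i, x i ^ 2 = 1 := hx
    change ∑ i, (-x) i ^ 2 = 1
    simpa using hx'
  -- the quaternion
  set P : (Fin 3 → ℝ) → ℝ → ℍ[ℝ] := fun x t =>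
    (g x t) • qi + ((c x t).re) • qj + ((c x t).im) • qk with hPdef
  have hPc : Continuous fun x : (Fin 3 → ℝ) × ℝ => P x.1 x.2 :=
    ((hg.smul continuous_const).add ((Complex.continuous_re.comp hc).smul continuous_const)).add
      ((Complex.continuous_im.comp hc).smul continuous_const)
  have hP0 : ∀ x ∈ S, ∀ t ∈ Icc (0 : ℝ) 1, P x t ≠ 0 := by
    intro x hx t ht h
    have e1 := congrArg QuaternionAlgebra.imI h
    have e2 := congrArg QuaternionAlgebra.imJ h
    have e3 := congrArg QuaternionAlgebra.imK h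
    simp [hPdef, qi, qj, qk] at e1 e2 e3
    exact hcon x t hx ht (Complex.ext e2 e3) e1
  have hPre : ∀ x t, (P x t).re = 0 := by
    intro x t
    simp [hPdef, qi, qj, qk]
  have hPi : ∀ x t, P (-x) t * qi = qi * P x t := by
    intro x t
    simp only [hPdef]
    rw [codd, geven]
    ext <;> simp [qi, qj, qk]
  have hPn : ∀ x t, ‖P (-x) t‖ = ‖P x t‖ := by
    intro x t
    have := congrArg norm (hPi x t)
    rwa [norm_mul, norm_mul, norm_qi, mul_one, one_mul] at this
  have hPe : ∀ x, (1 - qi) * P x 1 = -(P x 0 * (1 - qi)) := by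
    intro x
    simp only [hPdef]
    rw [cper, gper]
    ext
    · simp [qi, qj, qk]
    · simp [qi, qj, qk]
    · simp [qi, qj, qk]
      ring
    · simp [qi, qj, qk]
      ring
  have hPen : ∀ x, ‖P x 1‖ = ‖P x 0‖ := by
    intro x
    have := congrArg norm (hPe x)
    rw [norm_neg, norm_mul, norm_mul, mul_comm ‖P x 0‖] at this
    have hne : ‖(1 - qi : ℍ[ℝ])‖ ≠ 0 := by
      rw [norm_ne_zero_iff]
      intro h
      have := congrArg QuaternionAlgebra.re h
      simp [qi] at this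
    exact mul_left_cancel₀ hne this
  set G : (Fin 3 → ℝ) → ℝ → ℍ[ℝ] := fun x t => (‖P x t‖⁻¹ : ℝ) • P x t with hGdef
  have hGc : ContinuousOn (fun x : (Fin 3 → ℝ) × ℝ => G x.1 x.2) (S ×ˢ Icc (0 : ℝ) 1) :=
    (hPc.norm.continuousOn.inv₀ fun x hx => norm_ne_zero_iff.2 (hP0 x.1 hx.1 x.2 hx.2)).smul
      hPc.continuousOn
  have hGG : ∀ x ∈ S, ∀ t ∈ Icc (0 : ℝ) 1, G x t * G x t = -1 := fun x hx t ht =>
    unit_sq (hPre x t) (hP0 x hx t ht)
  have hGi : ∀ x t, G (-x) t * qi = qi * G x t := by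
    intro x t
    simp only [hGdef]
    rw [hPn, smul_mul_assoc, hPi, mul_smul_comm]
  have hGe : ∀ x, (1 - qi) * G x 1 = -(G x 0 * (1 - qi)) := by
    intro x
    simp only [hGdef]
    rw [hPen, mul_smul_comm, hPe, smul_mul_assoc, smul_neg]
  have hGstar : ∀ x t, star (G x t) = -G x t := by
    intro x t
    ext <;> simp [hGdef, hPdef, qi, qj, qk]
  -- the product along the interval
  have hK : IsCompact (S ×ˢ Icc (0 : ℝ) 1) := hSc.prod isCompact_Icc
  have hU := hK.uniformContinuousOn_of_continuous hGc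
  rw [Metric.uniformContinuousOn_iff] at hU
  obtain ⟨δ, hδ, hU⟩ := hU 1 one_pos
  obtain ⟨N, hN⟩ := exists_nat_gt (1 / δ)
  have hN0 : (0 : ℝ) < N := lt_trans (by positivity) hN
  have hNδ : 1 / (N : ℝ) < δ := by
    rw [div_lt_iff₀ hN0]
    rw [div_lt_iff₀ hδ] at hN
    linarith
  have key : ∀ k : ℕ, k ≤ N → ∃ r : (Fin 3 → ℝ) → ℍ[ℝ], ContinuousOn r S ∧ (∀ x ∈ S, r x ≠ 0) ∧
      (∀ x ∈ S, r x * G x 0 = G x ((k : ℝ) / N) * r x) ∧ ∀ x ∈ S, r (-x) * qi = qi * r x := by
    intro k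
    induction k with
    | zero =>
      intro _
      refine ⟨fun _ => 1, continuousOn_const, fun x _ => one_ne_zero, fun x _ => ?_,
        fun x _ => ?_⟩
      · simp only [Nat.cast_zero, zero_div, one_mul, mul_one]
      · simp only [one_mul, mul_one]
    | succ k ih =>
      intro hk
      obtain ⟨r, hr, hr0, hrG, hri⟩ := ih (by omega)
      have hkN : ((k + 1 : ℕ) : ℝ) ≤ N := by exact_mod_cast hk
      have hkN' : ((k : ℕ) : ℝ) ≤ N := by exact_mod_cast (by omega : k ≤ N)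
      have m1 : (k : ℝ) / N ∈ Icc (0 : ℝ) 1 := ⟨by positivity, (div_le_one hN0).2 hkN'⟩
      have m2 : ((k + 1 : ℕ) : ℝ) / N ∈ Icc (0 : ℝ) 1 :=
        ⟨by positivity, (div_le_one hN0).2 hkN⟩
      have c1 : ContinuousOn (fun x => G x ((k : ℝ) / N)) S :=
        hGc.comp (f := fun x : Fin 3 → ℝ => (x, (k : ℝ) / N)) (by fun_prop)
          fun x hx => ⟨hx, m1⟩
      have c2 : ContinuousOn (fun x => G x (((k + 1 : ℕ) : ℝ) / N)) S :=
        hGc.comp (f := fun x : Fin 3 → ℝ => (x, ((k + 1 : ℕ) : ℝ) / N)) (by fun_prop)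
          fun x hx => ⟨hx, m2⟩
      refine ⟨fun x => (1 - G x (((k + 1 : ℕ) : ℝ) / N) * G x ((k : ℝ) / N)) * r x,
        (continuousOn_const.sub (c2.mul c1)).mul hr, fun x hx => ?_, fun x hx => ?_,
        fun x hx => ?_⟩
      · refine mul_ne_zero (one_sub_ne _ _ (hGG x hx _ m1) (ne_of_near _ _ (hGG x hx _ m1) ?_))
          (hr0 x hx)
        refine hU (x, ((k + 1 : ℕ) : ℝ) / N) ⟨hx, m2⟩ (x, (k : ℝ) / N) ⟨hx, m1⟩ ?_
        rw [Prod.dist_eq]
        refine max_lt ?_ ?_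
        · show dist x x < δ
          rw [dist_self]
          exact hδ
        · show dist (((k + 1 : ℕ) : ℝ) / N) ((k : ℝ) / N) < δ
          rw [Real.dist_eq]
          have : (((k + 1 : ℕ) : ℝ) / N) - (k : ℝ) / N = 1 / N := by
            push_cast; ring
          rw [this, abs_of_nonneg (by positivity)]
          exact hNδ
      · have ea := hGG x hx _ m1
        have eb := hGG x hx _ m2
        have er := hrG x hx
        show (1 - G x (((k + 1 : ℕ) : ℝ) / N) * G x ((k : ℝ) / N)) * r x * G x 0 =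
          G x (((k + 1 : ℕ) : ℝ) / N) *
            ((1 - G x (((k + 1 : ℕ) : ℝ) / N) * G x ((k : ℝ) / N)) * r x)
        generalize G x (((k + 1 : ℕ) : ℝ) / N) = b at eb ⊢
        generalize G x ((k : ℝ) / N) = a at ea er ⊢
        have e1 : (1 - b * a) * r x * G x 0 = (1 - b * a) * (r x * G x 0) := mul_assoc _ _ _
        have e2 : (1 - b * a) * (a * r x) = (a - b * (a * a)) * r x := by noncomm_ring
        have e3 : b * ((1 - b * a) * r x) = (b - (b * b) * a) * r x := by noncomm_ring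
        rw [e1, er, e2, e3, ea, eb]
        noncomm_ring
      · have ea := hGi x ((k : ℝ) / N)
        have eb := hGi x (((k + 1 : ℕ) : ℝ) / N)
        have er := hri x hx
        show (1 - G (-x) (((k + 1 : ℕ) : ℝ) / N) * G (-x) ((k : ℝ) / N)) * r (-x) * qi =
          qi * ((1 - G x (((k + 1 : ℕ) : ℝ) / N) * G x ((k : ℝ) / N)) * r x)
        generalize G x (((k + 1 : ℕ) : ℝ) / N) = b at eb ⊢
        generalize G x ((k : ℝ) / N) = a at ea ⊢
        generalize G (-x) (((k + 1 : ℕ) : ℝ) / N) = b' at eb ⊢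
        generalize G (-x) ((k : ℝ) / N) = a' at ea ⊢
        calc (1 - b' * a') * r (-x) * qi = (1 - b' * a') * (r (-x) * qi) := mul_assoc _ _ _
          _ = (1 - b' * a') * (qi * r x) := by rw [er]
          _ = qi * r x - b' * (a' * qi) * r x := by noncomm_ring
          _ = qi * r x - (b' * qi) * a * r x := by rw [ea]; noncomm_ring
          _ = qi * r x - (qi * b) * a * r x := by rw [eb]
          _ = qi * ((1 - b * a) * r x) := by noncomm_ring
  obtain ⟨r, hr, hr0, hrG, hri⟩ := key N le_rfl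
  rw [div_self hN0.ne'] at hrG
  -- the second vector of the frame
  set s' : (Fin 3 → ℝ) → ℍ[ℝ] := fun x => (1 - qi) * r x with hs'def
  have he0 : (1 - qi : ℍ[ℝ]) ≠ 0 := by
    intro h
    have := congrArg QuaternionAlgebra.re h
    simp [qi] at this
  have hs0 : ∀ x ∈ S, s' x ≠ 0 := fun x hx => mul_ne_zero he0 (hr0 x hx)
  have m0 : (0 : ℝ) ∈ Icc (0 : ℝ) 1 := ⟨le_rfl, zero_le_one⟩
  have hsG : ∀ x ∈ S, s' x * G x 0 = -(G x 0 * s' x) := by
    intro x hx
    simp only [hs'def]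
    rw [mul_assoc, hrG x hx, ← mul_assoc, hGe, neg_mul, mul_assoc]
  have hsre : ∀ x ∈ S, (s' x).re = 0 := fun x hx => re_zero (hGG x hx 0 m0) (hsG x hx)
  have hsi : ∀ x ∈ S, s' (-x) * qi = qi * s' x := by
    intro x hx
    simp only [hs'def]
    rw [mul_assoc, hri x hx]
    noncomm_ring
  have hsn : ∀ x ∈ S, ‖s' (-x)‖ = ‖s' x‖ := by
    intro x hx
    have e1 := norm_mul (s' (-x)) qi
    have e2 := norm_mul qi (s' x)
    rw [hsi x hx] at e1
    rw [e2, norm_qi, one_mul, mul_one] at e1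
    exact e1.symm
  set s : (Fin 3 → ℝ) → ℍ[ℝ] := fun x => (‖s' x‖⁻¹ : ℝ) • s' x with hsdef
  have hs'c : ContinuousOn s' S := continuousOn_const.mul hr
  have hsc : ContinuousOn s S :=
    (hs'c.norm.inv₀ fun x hx => norm_ne_zero_iff.2 (hs0 x hx)).smul hs'c
  have hss : ∀ x ∈ S, s x * s x = -1 := fun x hx => unit_sq (hsre x hx) (hs0 x hx)
  have hsG' : ∀ x ∈ S, G x 0 * s x = -(s x * G x 0) := by
    intro x hx
    show G x 0 * ((‖s' x‖⁻¹ : ℝ) • s' x) = -(((‖s' x‖⁻¹ : ℝ) • s' x) * G x 0)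
    rw [mul_smul_comm (‖s' x‖⁻¹) (G x 0) (s' x), smul_mul_assoc (‖s' x‖⁻¹) (s' x) (G x 0),
      hsG x hx, smul_neg, neg_neg]
  have hsi' : ∀ x ∈ S, s (-x) * qi = qi * s x := by
    intro x hx
    show ((‖s' (-x)‖⁻¹ : ℝ) • s' (-x)) * qi = qi * ((‖s' x‖⁻¹ : ℝ) • s' x)
    rw [hsn x hx, smul_mul_assoc (‖s' x‖⁻¹) (s' (-x)) qi, hsi x hx,
      mul_smul_comm (‖s' x‖⁻¹) qi (s' x)]
  have hsstar : ∀ x ∈ S, star (s x) = -s x := by
    intro x hx
    have h1 : (s x).re = 0 := by
      simp [hsdef, hsre x hx]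
    ext <;> simp [h1]
  -- the lift
  have hJ : ∀ z ∈ Metric.closedBall (0 : ℂ) 1, J z ∈ S := fun z hz =>
    J_mem (mem_closedBall_zero_iff.1 hz)
  have hG0c : ContinuousOn (fun x => G x 0) S :=
    hGc.comp (f := fun x : Fin 3 → ℝ => (x, (0 : ℝ))) (by fun_prop) fun x hx => ⟨hx, m0⟩
  obtain ⟨h, hhc, hh0, hhi⟩ := frame_lift (fun z => G (J z) 0) (fun z => s (J z))
    (hG0c.comp J_cont.continuousOn hJ) (hsc.comp J_cont.continuousOn hJ)
    (fun z hz => hGG _ (hJ z hz) 0 m0) (fun z hz => hss _ (hJ z hz))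
    (fun z hz => hsG' _ (hJ z hz))
  set w : ℂ → ℍ[ℝ] := fun z => star (h z) * (qi * h (-z)) with hwdef
  have hsph : ∀ z ∈ Metric.sphere (0 : ℂ) 1, z ∈ Metric.closedBall (0 : ℂ) 1 ∧
      -z ∈ Metric.closedBall (0 : ℂ) 1 ∧ ‖z‖ = 1 := by
    intro z hz
    have h1 : ‖z‖ = 1 := mem_sphere_zero_iff_norm.1 hz
    refine ⟨mem_closedBall_zero_iff.2 h1.le, mem_closedBall_zero_iff.2 ?_, h1⟩
    rw [norm_neg]
    exact h1.le
  have hstar_i : star qi = -qi := by ext <;> simp [qi]
  have hstar_j : star qj = -qj := by ext <;> simp [qj]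
  have hwi : ∀ z ∈ Metric.sphere (0 : ℂ) 1, w z * qi = qi * w z ∧ w z * qj = qj * w z := by
    intro z hz
    obtain ⟨hz1, hz2, hz3⟩ := hsph z hz
    have hx := hJ z hz1
    obtain ⟨e1, e2⟩ := hhi z hz1
    obtain ⟨e3, e4⟩ := hhi (-z) hz2
    have hJn : J (-z) = -J z := J_neg hz3
    have g1 : qi * G (-J z) 0 = G (J z) 0 * qi := by
      have := hGi (-J z) 0
      rw [neg_neg] at this
      exact this.symm
    have g2 : qi * s (-J z) = s (J z) * qi := by
      have := hsi' (-J z) (hSneg _ hx)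
      rw [neg_neg] at this
      exact this.symm
    have f1 : star (h z) * G (J z) 0 = qi * star (h z) := by
      have := congrArg star e1
      rw [star_mul, star_mul, hstar_i, hGstar, neg_mul, mul_neg, neg_inj] at this
      exact this.symm
    have f2 : star (h z) * s (J z) = qj * star (h z) := by
      have := congrArg star e2
      rw [star_mul, star_mul, hstar_j, hsstar _ hx, neg_mul, mul_neg, neg_inj] at this
      exact this.symm
    constructor
    · calc w z * qi = star (h z) * (qi * (h (-z) * qi)) := by simp only [hwdef, mul_assoc]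
        _ = star (h z) * (qi * (G (-J z) 0 * h (-z))) := by rw [e3, hJn]
        _ = star (h z) * ((qi * G (-J z) 0) * h (-z)) := by rw [mul_assoc qi]
        _ = star (h z) * (G (J z) 0 * qi * h (-z)) := by rw [g1]
        _ = (star (h z) * G (J z) 0) * (qi * h (-z)) := by simp only [mul_assoc]
        _ = qi * w z := by rw [f1]; simp only [hwdef, mul_assoc]
    · calc w z * qj = star (h z) * (qi * (h (-z) * qj)) := by simp only [hwdef, mul_assoc]
        _ = star (h z) * (qi * (s (-J z) * h (-z))) := by rw [e4, hJn]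
        _ = star (h z) * ((qi * s (-J z)) * h (-z)) := by rw [mul_assoc qi]
        _ = star (h z) * (s (J z) * qi * h (-z)) := by rw [g2]
        _ = (star (h z) * s (J z)) * (qi * h (-z)) := by simp only [mul_assoc]
        _ = qj * w z := by rw [f2]; simp only [hwdef, mul_assoc]
  have hqi0 : qi ≠ 0 := by
    intro h
    have := congrArg QuaternionAlgebra.imI h
    simp [qi] at this
  have hw0 : ∀ z ∈ Metric.sphere (0 : ℂ) 1, (w z).re ≠ 0 := by
    intro z hz h0
    obtain ⟨hz1, hz2, hz3⟩ := hsph z hz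
    have h1 := real_of_comm (hwi z hz).1 (hwi z hz).2
    rw [h0, Quaternion.coe_zero] at h1
    exact mul_ne_zero (star_ne_zero.2 (hh0 z hz1)) (mul_ne_zero hqi0 (hh0 _ hz2)) h1
  have hwneg : ∀ z, (w (-z)).re = -(w z).re := by
    intro z
    have h1 : w (-z) = -star (w z) := by
      simp only [hwdef, neg_neg]
      rw [star_mul, star_mul, star_star, hstar_i, mul_assoc, neg_mul, mul_neg, neg_neg]
    rw [h1]
    simp
  have hwc : ContinuousOn (fun z => (w z).re) (Metric.sphere (0 : ℂ) 1) := by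
    refine Quaternion.continuous_re.comp_continuousOn ?_
    refine ContinuousOn.mul ?_ (continuousOn_const.mul ?_)
    · exact (hhc.mono fun z hz => (hsph z hz).1).star
    · exact hhc.comp continuous_neg.continuousOn fun z hz => (hsph z hz).2.1
  have hpc : IsPreconnected (Metric.sphere (0 : ℂ) 1) :=
    isPreconnected_sphere (by rw [Complex.rank_real_complex]; exact Cardinal.one_lt_two) 0 1
  have h1S : (1 : ℂ) ∈ Metric.sphere (0 : ℂ) 1 := by simp
  have h2S : (-1 : ℂ) ∈ Metric.sphere (0 : ℂ) 1 := by simp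
  have hz : ∃ z ∈ Metric.sphere (0 : ℂ) 1, (w z).re = 0 := by
    have hn := hwneg 1
    rcases le_total (w 1).re 0 with hle | hle
    · exact hpc.intermediate_value h1S h2S hwc ⟨hle, by
        show 0 ≤ (w (-1)).re
        rw [hn]
        linarith⟩
    · exact hpc.intermediate_value h2S h1S hwc ⟨by
        show (w (-1)).re ≤ 0
        rw [hn]
        linarith, hle⟩
  obtain ⟨z, hz1, hz2⟩ := hz
  exact hw0 z hz1 hz2

end DK4
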