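import Pool.Agent.Lib.DK4.GDefs

/-!
Module DK4.ContM: joint continuity of the masses of `u_a⁺` in half planes and quadrants.

Dominated convergence: as `(a, t, s) → (a₀, t₀, s₀)` the function `1_{Qd t s σ τ} (u_a⁺)²` converges
pointwise off the two lines `x = t₀`, `y = s₀`, which are null sets; bound `C 1_K` near `a₀`.
-/

open MeasureTheory Set Filter Topology
open scoped ContDiff

namespace DK4

namespace ContMAux

theorem null_re (t : ℝ) : ∀ᵐ z : ℂ, z.re ≠ t := by
  have h := Complex.volume_preserving_equiv_real_prod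
  have h1 : ∀ᵐ p : ℝ × ℝ, p.1 ≠ t := by
    have h2 : (volume : Measure (ℝ × ℝ)) ({t} ×ˢ univ) = 0 := by
      rw [Measure.volume_eq_prod, Measure.prod_prod]
      simp
    rw [ae_iff]
    refine measure_mono_null ?_ h2
    intro p hp
    simp only [ne_eq, not_not, mem_ofPred_eq] at hp
    exact ⟨hp, mem_univ _⟩
  have h3 := h.quasiMeasurePreserving.ae h1
  simpa using h3

theorem null_im (t : ℝ) : ∀ᵐ z : ℂ, z.im ≠ t := by
  have h := Complex.volume_preserving_equiv_real_prod
  have h1 : ∀ᵐ p : ℝ × ℝ, p.2 ≠ t := by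
    have h2 : (volume : Measure (ℝ × ℝ)) (univ ×ˢ {t}) = 0 := by
      rw [Measure.volume_eq_prod, Measure.prod_prod]
      simp
    rw [ae_iff]
    refine measure_mono_null ?_ h2
    intro p hp
    simp only [ne_eq, not_not, mem_ofPred_eq] at hp
    exact ⟨mem_univ _, hp⟩
  have h3 := h.quasiMeasurePreserving.ae h1
  simpa using h3

theorem sgn_loc {X : Type*} [TopologicalSpace X] {g : X → ℝ} (hg : Continuous g) {σ : ℝ}
    (hσ : σ = 1 ∨ σ = -1) (x0 : X) (c : ℝ) (h : c ≠ g x0) :
    (∀ᶠ x in 𝓝 x0, 0 < σ * (c - g x)) ∨ (∀ᶠ x in 𝓝 x0, ¬ 0 < σ * (c - g x)) := by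
  have hc : ContinuousAt (fun x => σ * (c - g x)) x0 := by
    exact (continuous_const.mul (continuous_const.sub hg)).continuousAt
  have hne : σ * (c - g x0) ≠ 0 := by
    refine mul_ne_zero ?_ (sub_ne_zero.2 h)
    rcases hσ with h | h <;> rw [h] <;> norm_num
  rcases lt_or_gt_of_ne hne with h1 | h1
  · right
    filter_upwards [hc.eventually_lt continuousAt_const h1] with x hx
    exact not_lt.2 hx.le
  · left
    exact continuousAt_const.eventually_lt hc h1

theorem main {X : Type*} [TopologicalSpace X] [FirstCountableTopology X] {n : ℕ}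
    {v : Fin n → ℂ → ℝ} (hv : ∀ i, ContDiff ℝ ∞ (v i)) (hvc : ∀ i, HasCompactSupport (v i))
    (A : X → Set ℂ) (hA : ∀ x, MeasurableSet (A x))
    (hcont : ∀ x0, ∀ᵐ z, (∀ᶠ x in 𝓝 x0, z ∈ A x) ∨ (∀ᶠ x in 𝓝 x0, z ∉ A x))
    (a : X → Fin n → ℝ) (ha : Continuous a) :
    Continuous fun x => ∫ z in A x, (max (uc v (a x) z) 0) ^ 2 := by
  have hcv : ∀ i, Continuous (v i) := fun i => (hv i).continuous
  have e : (fun x => ∫ z in A x, (max (uc v (a x) z) 0) ^ 2) =
      fun x => ∫ z, (A x).indicator (fun z => (max (uc v (a x) z) 0) ^ 2) z := by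
    funext x
    rw [integral_indicator (hA x)]
  rw [e, continuous_iff_continuousAt]
  intro x0
  have hu : ∀ x, Continuous fun z => (max (uc v (a x) z) 0) ^ 2 := by
    intro x
    unfold uc
    fun_prop
  refine continuousAt_of_dominated
    (bound := fun z => (∑ i, (|a x0 i| + 1) * |v i z|) ^ 2) ?_ ?_ ?_ ?_
  · exact Eventually.of_forall fun x => ((hu x).aestronglyMeasurable).indicator (hA x)
  · have h1 : ∀ᶠ x in 𝓝 x0, ∀ i, |a x i| < |a x0 i| + 1 := by
      rw [eventually_all]
      intro i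
      have hc : Continuous fun x => |a x i| := ((continuous_apply i).comp ha).abs
      exact hc.continuousAt.eventually_lt continuousAt_const (by linarith)
    filter_upwards [h1] with x hx
    refine Eventually.of_forall fun z => ?_
    have h2 : |uc v (a x) z| ≤ ∑ i, (|a x0 i| + 1) * |v i z| := by
      unfold uc
      refine (Finset.abs_sum_le_sum_abs _ _).trans (Finset.sum_le_sum fun i _ => ?_)
      rw [abs_mul]
      exact mul_le_mul_of_nonneg_right (hx i).le (abs_nonneg _)
    have h3 : (max (uc v (a x) z) 0) ^ 2 ≤ (∑ i, (|a x0 i| + 1) * |v i z|) ^ 2 := by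
      refine pow_le_pow_left₀ (le_max_right _ _) ?_ 2
      exact max_le ((le_abs_self _).trans h2) ((abs_nonneg _).trans h2)
    by_cases hz : z ∈ A x
    · rw [indicator_of_mem hz, Real.norm_eq_abs, abs_of_nonneg (sq_nonneg _)]
      exact h3
    · rw [indicator_of_notMem hz, norm_zero]
      positivity
  · have hc : Continuous fun z => (∑ i, (|a x0 i| + 1) * |v i z|) ^ 2 := by fun_prop
    refine hc.integrable_of_hasCompactSupport ?_
    have h4 : HasCompactSupport fun z => ∑ i, (|a x0 i| + 1) * |v i z| := by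
      have h5 : IsCompact (⋃ i, tsupport (v i)) := isCompact_iUnion fun i => hvc i
      refine HasCompactSupport.intro h5 fun z hz => ?_
      refine Finset.sum_eq_zero fun i _ => ?_
      have h6 : z ∉ tsupport (v i) := fun h7 => hz (mem_iUnion.2 ⟨i, h7⟩)
      rw [image_eq_zero_of_notMem_tsupport h6]
      simp
    exact h4.comp_left (g := fun x : ℝ => x ^ 2) (by simp)
  · filter_upwards [hcont x0] with z hz
    have hcu : Continuous fun x => (max (uc v (a x) z) 0) ^ 2 := by
      unfold uc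
      have : ∀ i, Continuous fun x => a x i := fun i => (continuous_apply i).comp ha
      fun_prop
    rcases hz with h | h
    · refine hcu.continuousAt.congr ?_
      filter_upwards [h] with x hx
      rw [indicator_of_mem hx]
    · refine (continuousAt_const (y := (0 : ℝ))).congr ?_
      filter_upwards [h] with x hx
      rw [indicator_of_notMem hx]

end ContMAux

open ContMAux

theorem cont_massh {n : ℕ} {v : Fin n → ℂ → ℝ} (hv : ∀ i, ContDiff ℝ ∞ (v i))
    (hvc : ∀ i, HasCompactSupport (v i)) {σ : ℝ} (hσ : σ = 1 ∨ σ = -1) :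
    Continuous fun x : (Fin n → ℝ) × ℝ =>
      ∫ z in Hf x.2 σ, (max (uc v x.1 z) 0) ^ 2 := by
  refine main hv hvc (fun x : (Fin n → ℝ) × ℝ => Hf x.2 σ) (fun x => ?_) (fun x0 => ?_)
    (fun x => x.1) continuous_fst
  · unfold Hf
    exact (isOpen_lt continuous_const (by fun_prop)).measurableSet
  · filter_upwards [null_re x0.2] with z hz
    exact sgn_loc (g := fun x : (Fin n → ℝ) × ℝ => x.2) continuous_snd hσ x0 z.re hz

theorem cont_massq {n : ℕ} {v : Fin n → ℂ → ℝ} (hv : ∀ i, ContDiff ℝ ∞ (v i))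
    (hvc : ∀ i, HasCompactSupport (v i)) {σ τ : ℝ} (hσ : σ = 1 ∨ σ = -1)
    (hτ : τ = 1 ∨ τ = -1) :
    Continuous fun x : (Fin n → ℝ) × ℝ × ℝ =>
      ∫ z in Qd x.2.1 x.2.2 σ τ, (max (uc v x.1 z) 0) ^ 2 := by
  refine main hv hvc (fun x : (Fin n → ℝ) × ℝ × ℝ => Qd x.2.1 x.2.2 σ τ) (fun x => ?_)
    (fun x0 => ?_) (fun x => x.1) continuous_fst
  · have h1 : IsOpen {z : ℂ | 0 < σ * (z.re - x.2.1)} := isOpen_lt continuous_const (by fun_prop)
    have h2 : IsOpen {z : ℂ | 0 < τ * (z.im - x.2.2)} := isOpen_lt continuous_const (by fun_prop)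
    exact (h1.inter h2).measurableSet
  · filter_upwards [null_re x0.2.1, null_im x0.2.2] with z hz hz2
    have h1 := sgn_loc (g := fun x : (Fin n → ℝ) × ℝ × ℝ => x.2.1) (by fun_prop) hσ x0 z.re hz
    have h2 := sgn_loc (g := fun x : (Fin n → ℝ) × ℝ × ℝ => x.2.2) (by fun_prop) hτ x0 z.im hz2
    rcases h1 with h1 | h1
    · rcases h2 with h2 | h2
      · left
        filter_upwards [h1, h2] with x a b
        exact ⟨a, b⟩
      · right
        filter_upwards [h2] with x b h
        exact b h.2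
    · right
      filter_upwards [h1] with x b h
      exact b h.1

end DK4
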