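import Pool.Agent.Lib.DK4.GDefs

/-!
Module DK4.ContP: the energy of the positive part of `u_a` is a continuous function of `a`.

`q Λ (u_a⁺) = ∫_{u_a > 0} (‖∇u_a‖² - Λ u_a²)` (q_pos).  Dominated convergence at `a₀`
(tendsto_integral_of_dominated_convergence / continuous_of_dominated needs continuity for a.e. `z` at
each `a₀`): for a.e. `z` either `u_{a₀} z ≠ 0`, and the indicator is constant near `a₀`, or
`u_{a₀} z = 0` and `∇u_{a₀} z = 0` (Adm.ae_fderiv_zero), and then the integrand tends to 0 whatever the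
indicator does.  Bound near `a₀`: `(|a₀|+1)² C 1_K`-type, with `K` the union of the compact supports.
Compare the proof of `cont_FF` in DK4.Sign (same argument with `a = (cos t, sin t)`).
-/

open MeasureTheory Set
open scoped ContDiff

namespace DK4

namespace ContPAux

variable {n : ℕ} {v : Fin n → ℂ → ℝ} {Λ : ℝ}

/-- the energy density -/
noncomputable def ee (Λ : ℝ) (v : Fin n → ℂ → ℝ) (a : Fin n → ℝ) (z : ℂ) : ℝ :=
  ‖∑ i, a i • fderiv ℝ (v i) z‖ ^ 2 - Λ * (uc v a z) ^ 2

/-- the dominating function -/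
noncomputable def bd (R Λ : ℝ) (v : Fin n → ℂ → ℝ) (z : ℂ) : ℝ :=
  (∑ i, R * ‖fderiv ℝ (v i) z‖) ^ 2 + |Λ| * (∑ i, R * |v i z|) ^ 2

theorem fderiv_uc (hv : ∀ i, ContDiff ℝ ∞ (v i)) (a : Fin n → ℝ) (z : ℂ) :
    fderiv ℝ (uc v a) z = ∑ i, a i • fderiv ℝ (v i) z := by
  have h1 : HasFDerivAt (fun z => ∑ i, a i * v i z) (∑ i, a i • fderiv ℝ (v i) z) z := by
    refine HasFDerivAt.fun_sum fun i _ => ?_
    exact (((hv i).differentiable (by simp)) z).hasFDerivAt.const_mul (a i)
  exact h1.fderiv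

theorem cont_uc_a (z : ℂ) : Continuous fun a : Fin n → ℝ => uc v a z :=
  continuous_finsetSum _ fun i _ => (continuous_apply i).mul continuous_const

theorem cont_uc_z (hv : ∀ i, ContDiff ℝ ∞ (v i)) (a : Fin n → ℝ) : Continuous (uc v a) :=
  continuous_finsetSum _ fun i _ => continuous_const.mul (hv i).continuous

theorem cont_fd (hv : ∀ i, ContDiff ℝ ∞ (v i)) (i : Fin n) : Continuous (fderiv ℝ (v i)) :=
  (hv i).continuous_fderiv (by simp)

theorem cont_ee_a (z : ℂ) : Continuous fun a : Fin n → ℝ => ee Λ v a z := by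
  have h1 : Continuous fun a : Fin n → ℝ => ∑ i, a i • fderiv ℝ (v i) z :=
    continuous_finsetSum _ fun i _ => (continuous_apply i).smul continuous_const
  exact (h1.norm.pow 2).sub (continuous_const.mul ((cont_uc_a z).pow 2))

theorem cont_ee_z (hv : ∀ i, ContDiff ℝ ∞ (v i)) (a : Fin n → ℝ) :
    Continuous (ee Λ v a) := by
  have h1 : Continuous fun z => ∑ i, a i • fderiv ℝ (v i) z :=
    continuous_finsetSum _ fun i _ => (cont_fd hv i).const_smul (a i)
  exact (h1.norm.pow 2).sub (continuous_const.mul ((cont_uc_z hv a).pow 2))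

theorem ee_le {R : ℝ} {a : Fin n → ℝ} (ha : ∀ i, |a i| ≤ R) (z : ℂ) :
    |ee Λ v a z| ≤ bd R Λ v z := by
  have h1 : ‖∑ i, a i • fderiv ℝ (v i) z‖ ≤ ∑ i, R * ‖fderiv ℝ (v i) z‖ := by
    refine (norm_sum_le _ _).trans (Finset.sum_le_sum fun i _ => ?_)
    rw [norm_smul, Real.norm_eq_abs]
    exact mul_le_mul_of_nonneg_right (ha i) (norm_nonneg _)
  have h2 : |uc v a z| ≤ ∑ i, R * |v i z| := by
    refine (Finset.abs_sum_le_sum_abs _ _).trans (Finset.sum_le_sum fun i _ => ?_)
    rw [abs_mul]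
    exact mul_le_mul_of_nonneg_right (ha i) (abs_nonneg _)
  have h3 := pow_le_pow_left₀ (norm_nonneg _) h1 2
  have h4 := pow_le_pow_left₀ (abs_nonneg _) h2 2
  unfold ee bd
  refine (abs_sub _ _).trans ?_
  rw [abs_of_nonneg (sq_nonneg ‖∑ i, a i • fderiv ℝ (v i) z‖), abs_mul, abs_pow]
  exact add_le_add h3 (mul_le_mul_of_nonneg_left h4 (abs_nonneg _))

theorem bd_int (hv : ∀ i, ContDiff ℝ ∞ (v i)) (hvc : ∀ i, HasCompactSupport (v i)) (R : ℝ) :
    Integrable (bd R Λ v) := by
  have hc : Continuous (bd R Λ v) := by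
    have h1 : Continuous fun z => ∑ i, R * ‖fderiv ℝ (v i) z‖ :=
      continuous_finsetSum _ fun i _ => continuous_const.mul (cont_fd hv i).norm
    have h2 : Continuous fun z => ∑ i, R * |v i z| :=
      continuous_finsetSum _ fun i _ => continuous_const.mul (hv i).continuous.abs
    exact (h1.pow 2).add (continuous_const.mul (h2.pow 2))
  refine hc.integrable_of_hasCompactSupport ?_
  refine HasCompactSupport.intro (isCompact_iUnion fun i => (hvc i).isCompact) ?_
  intro z hz
  have hz1 : ∀ i, z ∉ tsupport (v i) := fun i h => hz (mem_iUnion.2 ⟨i, h⟩)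
  have e1 : ∀ i, v i z = 0 := fun i => image_eq_zero_of_notMem_tsupport (hz1 i)
  have e3 : ∀ i, fderiv ℝ (v i) z = 0 := by
    intro i
    by_contra h
    exact hz1 i (support_fderiv_subset ℝ h)
  unfold bd
  simp [e1, e3]

theorem ind_le (s : Set ℂ) (a : Fin n → ℝ) (z : ℂ) :
    ‖s.indicator (ee Λ v a) z‖ ≤ |ee Λ v a z| := by
  by_cases h : z ∈ s
  · rw [Set.indicator_of_mem h, Real.norm_eq_abs]
  · rw [Set.indicator_of_notMem h, norm_zero]
    exact abs_nonneg _

theorem ind_pos {a : Fin n → ℝ} {z : ℂ} (h : uc v a z ≤ 0) :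
    {z | 0 < uc v a z}.indicator (ee Λ v a) z = 0 := by
  have h1 : z ∉ {z | 0 < uc v a z} := fun h' => absurd h' (not_lt.2 h)
  exact Set.indicator_of_notMem h1 _

theorem meas_pos (hv : ∀ i, ContDiff ℝ ∞ (v i)) (a : Fin n → ℝ) :
    MeasurableSet {z | 0 < uc v a z} :=
  (isOpen_lt continuous_const (cont_uc_z hv a)).measurableSet

end ContPAux

theorem uc_test {n : ℕ} {v : Fin n → ℂ → ℝ} (hv : ∀ i, ContDiff ℝ ∞ (v i))
    (hvc : ∀ i, HasCompactSupport (v i)) (a : Fin n → ℝ) :
    ContDiff ℝ ∞ (uc v a) ∧ HasCompactSupport (uc v a) := by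
  constructor
  · exact ContDiff.sum fun i _ => contDiff_const.mul (hv i)
  · refine HasCompactSupport.intro (isCompact_iUnion fun i => (hvc i).isCompact) ?_
    intro z hz
    refine Finset.sum_eq_zero fun i _ => ?_
    have hz1 : z ∉ tsupport (v i) := fun h => hz (mem_iUnion.2 ⟨i, h⟩)
    rw [image_eq_zero_of_notMem_tsupport hz1, mul_zero]

theorem uc_adm {n : ℕ} {v : Fin n → ℂ → ℝ} (hv : ∀ i, ContDiff ℝ ∞ (v i))
    (hvc : ∀ i, HasCompactSupport (v i)) (a : Fin n → ℝ) : Adm (uc v a) := by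
  exact IsTest.adm (Ω := Set.univ) ⟨(uc_test hv hvc a).1, (uc_test hv hvc a).2, Set.subset_univ _⟩

theorem cont_qpos {n : ℕ} {v : Fin n → ℂ → ℝ} (hv : ∀ i, ContDiff ℝ ∞ (v i))
    (hvc : ∀ i, HasCompactSupport (v i)) (Λ : ℝ) :
    Continuous fun a : Fin n → ℝ => q Λ (fun z => max (uc v a z) 0) := by
  have hq : (fun a : Fin n → ℝ => q Λ (fun z => max (uc v a z) 0)) =
      fun a => ∫ z, {z | 0 < uc v a z}.indicator (ContPAux.ee Λ v a) z := by
    funext a
    rw [q_pos (uc_adm hv hvc a), integral_indicator (ContPAux.meas_pos hv a)]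
    refine integral_congr_ae (Filter.Eventually.of_forall fun z => ?_)
    simp only [ContPAux.ee, ContPAux.fderiv_uc hv]
  rw [hq, continuous_iff_continuousAt]
  intro a₀
  have hev : ∀ᶠ a in nhds a₀, ∀ i, |a i| ≤ ‖a₀‖ + 1 := by
    have h1 : ∀ᶠ a in nhds a₀, ‖a‖ < ‖a₀‖ + 1 :=
      continuous_norm.continuousAt.eventually_lt continuousAt_const (by linarith)
    filter_upwards [h1] with a ha i
    have := norm_le_pi_norm a i
    rw [Real.norm_eq_abs] at this
    linarith
  refine MeasureTheory.continuousAt_of_dominated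
    (bound := ContPAux.bd (‖a₀‖ + 1) Λ v) ?_ ?_ ?_ ?_
  · exact Filter.Eventually.of_forall fun a =>
      (((ContPAux.cont_ee_z hv a).measurable.indicator
        (ContPAux.meas_pos hv a)).aestronglyMeasurable)
  · filter_upwards [hev] with a ha
    exact Filter.Eventually.of_forall fun z =>
      (ContPAux.ind_le _ a z).trans (ContPAux.ee_le ha z)
  · exact ContPAux.bd_int hv hvc _
  · filter_upwards [(uc_adm hv hvc a₀).ae_fderiv_zero] with z hz
    rcases lt_trichotomy (uc v a₀ z) 0 with h | h | h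
    · have h1 : ∀ᶠ a in nhds a₀, uc v a z < 0 :=
        (ContPAux.cont_uc_a z).continuousAt.eventually_lt continuousAt_const h
      have h2 : (fun a => {z | 0 < uc v a z}.indicator (ContPAux.ee Λ v a) z) =ᶠ[nhds a₀]
          fun _ => 0 := by
        filter_upwards [h1] with a ha
        exact ContPAux.ind_pos ha.le
      exact continuousAt_const.congr h2.symm
    · have h0 : ContPAux.ee Λ v a₀ z = 0 := by
        have h5 := hz h
        rw [ContPAux.fderiv_uc hv] at h5
        unfold ContPAux.ee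
        rw [h5, h]
        simp
      have hval : {z | 0 < uc v a₀ z}.indicator (ContPAux.ee Λ v a₀) z = 0 :=
        ContPAux.ind_pos h.le
      change Filter.Tendsto (fun a => {z | 0 < uc v a z}.indicator (ContPAux.ee Λ v a) z) (nhds a₀)
        (nhds ({z | 0 < uc v a₀ z}.indicator (ContPAux.ee Λ v a₀) z))
      rw [hval]
      refine squeeze_zero_norm (fun a => ContPAux.ind_le _ a z) ?_
      have h3 := ((ContPAux.cont_ee_a (Λ := Λ) (v := v) z).abs).continuousAt (x := a₀)
      change Filter.Tendsto (fun a => |ContPAux.ee Λ v a z|) (nhds a₀)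
        (nhds |ContPAux.ee Λ v a₀ z|) at h3
      rw [h0, abs_zero] at h3
      exact h3
    · have h1 : ∀ᶠ a in nhds a₀, 0 < uc v a z :=
        continuousAt_const.eventually_lt (ContPAux.cont_uc_a z).continuousAt h
      have h2 : (fun a => {z | 0 < uc v a z}.indicator (ContPAux.ee Λ v a) z) =ᶠ[nhds a₀]
          fun a => ContPAux.ee Λ v a z := by
        filter_upwards [h1] with a ha
        exact Set.indicator_of_mem (show z ∈ {z | 0 < uc v a z} from ha) _
      exact (ContPAux.cont_ee_a z).continuousAt.congr h2.symm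

end DK4
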