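import Pool.Agent.Lib.DK4.BU
import Pool.Agent.Lib.DK4.ContP
import Pool.Agent.Lib.DK4.ContM

/-!
Module DK4.Balance: the balanced function (Borsuk-Ulam).

For `ε > 0` let `τ(t) = t/(1+|t|)` (continuous, strictly increasing, odd, bounded by 1),
`G(a,t) = (1-p) ∫_{x<t} (u_a⁺)² - p ∫_{x>t} (u_a⁺)² + ε τ(t)`: continuous in `(a,t)` (cont_massh), strictly
increasing in `t`, negative for very negative `t` and positive for large `t`, so it has a unique
zero `T(a)`, and `T` is continuous (lemma: the zero of a jointly continuous function strictly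
increasing in `t` depends continuously on `a`).  `T̄(a) = (T(a) + T(-a))/2` is even.
`J(a,s) = ∫_{x<T̄, y<s} (u_a⁺)² - ∫_{x<T̄, y>s} (u_a⁺)² + ε τ(s)` has a unique zero `S(a)`, continuous.
`F(a) = (q Λ (u_a⁺) - q Λ (u_{-a}⁺), T(a) - T(-a), S(a) - S(-a))` is odd and continuous on `S³`, so by `bu3`
it has a zero `a_ε`; put `t_ε = T(a_ε) = T(-a_ε)`, `s_ε = S(a_ε) = S(-a_ε)`.
As `q(u_a⁺) + q(u_{-a}⁺) = q(u_a) < 0` (q_split, `(-u)⁺` is the negative part) both are `< 0`, in particular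
`u_a⁺, u_a⁻ ≠ 0`.  If all `v_i` vanish outside `[-R,R]²` then `|t_ε| ≤ R` (for `t < -R` the first integral vanishes
and `G = -p m + ε τ(t) < 0`; similarly `t > R`), and `|s_ε| ≤ R` (if the left mass is positive, as before;
if it is 0 then `s_ε = 0`).  Compactness: `ε = 1/(n+1) → 0`, a subsequence of `(a, t, s)` converges, and by
continuity the limit satisfies all equalities with `ε = 0` and `q(u_a⁺) = q(u_{-a}⁺)`, so both are `< 0`
as `a ≠ 0`.
-/

open MeasureTheory Set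
open scoped ContDiff

namespace DK4

namespace BalanceAux

/-- the zero of a jointly continuous function, strictly increasing in `t`, is continuous -/
theorem zero_cont {X : Type*} [TopologicalSpace X] {A B : X × ℝ → ℝ} (hA : Continuous A)
    (hB : Continuous B) {R ε : ℝ} (hε : 0 < ε) (hR : 0 ≤ R)
    (mA : ∀ x, Monotone fun t => A (x, t)) (mB : ∀ x, Antitone fun t => B (x, t))
    (nA : ∀ x, 0 ≤ A x) (nB : ∀ x, 0 ≤ B x)
    (zA : ∀ x t, t ≤ -R → A (x, t) = 0) (zB : ∀ x t, R ≤ t → B (x, t) = 0) :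
    ∃ T : X → ℝ, Continuous T ∧ ∀ x, T x ∈ Icc (-R) R ∧
      A (x, T x) - B (x, T x) + ε * T x = 0 := by
  have hs : ∀ x, StrictMono fun t => A (x, t) - B (x, t) + ε * t := by
    intro x s t h
    have h1 : A (x, s) ≤ A (x, t) := mA x h.le
    have h2 : B (x, t) ≤ B (x, s) := mB x h.le
    have h3 : ε * s < ε * t := mul_lt_mul_of_pos_left h hε
    change A (x, s) - B (x, s) + ε * s < A (x, t) - B (x, t) + ε * t
    linarith
  have hz : ∀ x, ∃ t ∈ Icc (-R) R, A (x, t) - B (x, t) + ε * t = 0 := by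
    intro x
    have hc : ContinuousOn (fun t => A (x, t) - B (x, t) + ε * t) (Icc (-R) R) := by
      apply Continuous.continuousOn
      fun_prop
    have h1 : A (x, -R) - B (x, -R) + ε * (-R) ≤ 0 := by
      rw [zA x _ le_rfl]
      nlinarith [nB (x, -R), mul_nonneg hε.le hR]
    have h2 : 0 ≤ A (x, R) - B (x, R) + ε * R := by
      rw [zB x _ le_rfl]
      nlinarith [nA (x, R), mul_nonneg hε.le hR]
    obtain ⟨t, ht, h⟩ := intermediate_value_Icc (by linarith : -R ≤ R) hc ⟨h1, h2⟩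
    exact ⟨t, ht, h⟩
  choose T hT hT0 using hz
  refine ⟨T, ?_, fun x => ⟨hT x, hT0 x⟩⟩
  rw [continuous_iff_continuousAt]
  intro x₀
  have hcx : ∀ a : ℝ, Continuous fun x => A (x, a) - B (x, a) + ε * a := by
    intro a
    fun_prop
  refine tendsto_order.2 ⟨fun a ha => ?_, fun a ha => ?_⟩
  · have h1 : A (x₀, a) - B (x₀, a) + ε * a < 0 := by
      rw [← hT0 x₀]
      exact hs x₀ ha
    filter_upwards [(hcx a).continuousAt.eventually_lt_const h1] with x hx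
    rw [← hT0 x] at hx
    exact (hs x).lt_iff_lt.1 hx
  · have h1 : 0 < A (x₀, a) - B (x₀, a) + ε * a := by
      rw [← hT0 x₀]
      exact hs x₀ ha
    filter_upwards [(hcx a).continuousAt.eventually_const_lt h1] with x hx
    rw [← hT0 x] at hx
    exact (hs x).lt_iff_lt.1 hx

/-- the conditions for one `ε > 0` -/
theorem abs_eps {Q : (Fin 4 → ℝ) → ℝ} {M₁ M₂ : (Fin 4 → ℝ) × ℝ → ℝ}
    {N₁ N₂ : (Fin 4 → ℝ) × ℝ × ℝ → ℝ} (hQ : Continuous Q) (hM₁ : Continuous M₁)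
    (hM₂ : Continuous M₂) (hN₁ : Continuous N₁) (hN₂ : Continuous N₂) {R ε : ℝ} (hε : 0 < ε)
    (hR : 0 ≤ R) (mM₁ : ∀ x, Monotone fun t => M₁ (x, t)) (mM₂ : ∀ x, Antitone fun t => M₂ (x, t))
    (nM₁ : ∀ x, 0 ≤ M₁ x) (nM₂ : ∀ x, 0 ≤ M₂ x)
    (zM₁ : ∀ x t, t ≤ -R → M₁ (x, t) = 0) (zM₂ : ∀ x t, R ≤ t → M₂ (x, t) = 0)
    (mN₁ : ∀ x t, Monotone fun s => N₁ (x, t, s)) (mN₂ : ∀ x t, Antitone fun s => N₂ (x, t, s))
    (nN₁ : ∀ x, 0 ≤ N₁ x) (nN₂ : ∀ x, 0 ≤ N₂ x)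
    (zN₁ : ∀ x t s, s ≤ -R → N₁ (x, t, s) = 0) (zN₂ : ∀ x t s, R ≤ s → N₂ (x, t, s) = 0) :
    ∃ (a : Fin 4 → ℝ) (t s : ℝ), ∑ i, a i ^ 2 = 1 ∧ t ∈ Icc (-R) R ∧ s ∈ Icc (-R) R ∧
      Q a - Q (-a) = 0 ∧ M₁ (a, t) - M₂ (a, t) + ε * t = 0 ∧ M₁ (-a, t) - M₂ (-a, t) + ε * t = 0 ∧
      N₁ (a, t, s) - N₂ (a, t, s) + ε * s = 0 ∧ N₁ (-a, t, s) - N₂ (-a, t, s) + ε * s = 0 := by
  obtain ⟨T, hT, hT0⟩ := zero_cont hM₁ hM₂ hε hR mM₁ mM₂ nM₁ nM₂ zM₁ zM₂
  let U : (Fin 4 → ℝ) → ℝ := fun a => (T a + T (-a)) / 2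
  have hU : Continuous U := by
    have h : Continuous fun a : Fin 4 → ℝ => T (-a) := hT.comp continuous_neg
    exact (hT.add h).div_const 2
  have hUn : ∀ a, U (-a) = U a := by
    intro a
    simp only [U, neg_neg]
    ring
  have hg : Continuous fun x : (Fin 4 → ℝ) × ℝ => ((x.1, U x.1, x.2) : (Fin 4 → ℝ) × ℝ × ℝ) := by
    fun_prop
  obtain ⟨S, hS, hS0⟩ := zero_cont (A := fun x : (Fin 4 → ℝ) × ℝ => N₁ (x.1, U x.1, x.2))
    (B := fun x : (Fin 4 → ℝ) × ℝ => N₂ (x.1, U x.1, x.2)) (hN₁.comp hg) (hN₂.comp hg) hε hR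
    (fun x => mN₁ x (U x)) (fun x => mN₂ x (U x)) (fun x => nN₁ _) (fun x => nN₂ _)
    (fun x s hs => zN₁ x (U x) s hs) (fun x s hs => zN₂ x (U x) s hs)
  have hTn : Continuous fun a : Fin 4 → ℝ => T (-a) := hT.comp continuous_neg
  have hSn : Continuous fun a : Fin 4 → ℝ => S (-a) := hS.comp continuous_neg
  have hQn : Continuous fun a : Fin 4 → ℝ => Q (-a) := hQ.comp continuous_neg
  let F : (Fin 4 → ℝ) → (Fin 3 → ℝ) := fun a => ![Q a - Q (-a), T a - T (-a), S a - S (-a)]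
  have hF : Continuous F := by
    refine continuous_pi fun i => ?_
    fin_cases i
    · exact hQ.sub hQn
    · exact hT.sub hTn
    · exact hS.sub hSn
  obtain ⟨a, ha, h0⟩ := bu3 F hF.continuousOn (by
    intro a _
    funext i
    fin_cases i <;> simp [F])
  have h1 : Q a - Q (-a) = 0 := congrFun h0 0
  have h2 : T a - T (-a) = 0 := congrFun h0 1
  have h3 : S a - S (-a) = 0 := congrFun h0 2
  have h4 : T (-a) = T a := by linarith
  have h5 : S (-a) = S a := by linarith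
  have h6 : U a = T a := by
    simp only [U, h4]
    ring
  refine ⟨a, T a, S a, ha, (hT0 a).1, (hS0 a).1, h1, (hT0 a).2, ?_, ?_, ?_⟩
  · have h := (hT0 (-a)).2
    rwa [h4] at h
  · have h := (hS0 a).2
    simp only [h6] at h
    exact h
  · have h := (hS0 (-a)).2
    simp only [hUn, h6, h5] at h
    exact h

/-- the limit `ε → 0` -/
theorem abs_zero {Q : (Fin 4 → ℝ) → ℝ} {M₁ M₂ : (Fin 4 → ℝ) × ℝ → ℝ}
    {N₁ N₂ : (Fin 4 → ℝ) × ℝ × ℝ → ℝ} (hQ : Continuous Q) (hM₁ : Continuous M₁)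
    (hM₂ : Continuous M₂) (hN₁ : Continuous N₁) (hN₂ : Continuous N₂) {R : ℝ}
    (hR : 0 ≤ R) (mM₁ : ∀ x, Monotone fun t => M₁ (x, t)) (mM₂ : ∀ x, Antitone fun t => M₂ (x, t))
    (nM₁ : ∀ x, 0 ≤ M₁ x) (nM₂ : ∀ x, 0 ≤ M₂ x)
    (zM₁ : ∀ x t, t ≤ -R → M₁ (x, t) = 0) (zM₂ : ∀ x t, R ≤ t → M₂ (x, t) = 0)
    (mN₁ : ∀ x t, Monotone fun s => N₁ (x, t, s)) (mN₂ : ∀ x t, Antitone fun s => N₂ (x, t, s))
    (nN₁ : ∀ x, 0 ≤ N₁ x) (nN₂ : ∀ x, 0 ≤ N₂ x)
    (zN₁ : ∀ x t s, s ≤ -R → N₁ (x, t, s) = 0) (zN₂ : ∀ x t s, R ≤ s → N₂ (x, t, s) = 0) :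
    ∃ (a : Fin 4 → ℝ) (t s : ℝ), ∑ i, a i ^ 2 = 1 ∧
      Q a = Q (-a) ∧ M₁ (a, t) = M₂ (a, t) ∧ M₁ (-a, t) = M₂ (-a, t) ∧
      N₁ (a, t, s) = N₂ (a, t, s) ∧ N₁ (-a, t, s) = N₂ (-a, t, s) := by
  let S : Set (Fin 4 → ℝ) := {a | ∑ i, a i ^ 2 = 1}
  have hS : IsCompact S := by
    refine Metric.isCompact_of_isClosed_isBounded ?_ ?_
    · exact isClosed_eq (by fun_prop) continuous_const
    · refine (Metric.isBounded_closedBall (x := (0 : Fin 4 → ℝ)) (r := 1)).subset fun a ha => ?_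
      rw [mem_closedBall_zero_iff, pi_norm_le_iff_of_nonneg zero_le_one]
      intro i
      have h1 : a i ^ 2 ≤ 1 := by
        have h2 : ∑ i, a i ^ 2 = 1 := ha
        rw [← h2]
        exact Finset.single_le_sum (f := fun i => a i ^ 2) (fun j _ => sq_nonneg _)
          (Finset.mem_univ i)
      rw [Real.norm_eq_abs]
      exact (sq_le_one_iff_abs_le_one _).1 h1
  let K : Set (ℝ × (Fin 4 → ℝ) × ℝ × ℝ) := Icc 0 1 ×ˢ (S ×ˢ (Icc (-R) R ×ˢ Icc (-R) R))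
  have hK : IsCompact K := isCompact_Icc.prod (hS.prod (isCompact_Icc.prod isCompact_Icc))
  let C : Set (ℝ × (Fin 4 → ℝ) × ℝ × ℝ) := {x |
    Q x.2.1 - Q (-x.2.1) = 0 ∧
    M₁ (x.2.1, x.2.2.1) - M₂ (x.2.1, x.2.2.1) + x.1 * x.2.2.1 = 0 ∧
    M₁ (-x.2.1, x.2.2.1) - M₂ (-x.2.1, x.2.2.1) + x.1 * x.2.2.1 = 0 ∧
    N₁ (x.2.1, x.2.2.1, x.2.2.2) - N₂ (x.2.1, x.2.2.1, x.2.2.2) + x.1 * x.2.2.2 = 0 ∧
    N₁ (-x.2.1, x.2.2.1, x.2.2.2) - N₂ (-x.2.1, x.2.2.1, x.2.2.2) + x.1 * x.2.2.2 = 0}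
  have hC : IsClosed C := by
    refine (isClosed_eq ?_ continuous_const).inter <| (isClosed_eq ?_ continuous_const).inter <|
      (isClosed_eq ?_ continuous_const).inter <| (isClosed_eq ?_ continuous_const).inter <|
      (isClosed_eq ?_ continuous_const) <;> fun_prop
  have hKC : IsCompact (K ∩ C) := hK.inter_right hC
  have him : IsClosed (Prod.fst '' (K ∩ C)) := (hKC.image continuous_fst).isClosed
  have hsub : Ioc (0 : ℝ) 1 ⊆ Prod.fst '' (K ∩ C) := by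
    intro ε hε
    obtain ⟨a, t, s, ha, ht, hs, h⟩ := abs_eps hQ hM₁ hM₂ hN₁ hN₂ hε.1 hR mM₁ mM₂ nM₁ nM₂ zM₁ zM₂
      mN₁ mN₂ nN₁ nN₂ zN₁ zN₂
    exact ⟨(ε, a, t, s), ⟨⟨⟨hε.1.le, hε.2⟩, ha, ht, hs⟩, h⟩, rfl⟩
  have h0 : (0 : ℝ) ∈ Prod.fst '' (K ∩ C) := by
    have h1 := closure_minimal hsub him
    rw [closure_Ioc (by norm_num : (0 : ℝ) ≠ 1)] at h1
    exact h1 ⟨le_rfl, zero_le_one⟩
  obtain ⟨⟨ε, a, t, s⟩, ⟨hk, hc⟩, he⟩ := h0
  have he' : ε = 0 := he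
  subst he'
  obtain ⟨h1, h2, h3, h4, h5⟩ := hc
  simp only [zero_mul, add_zero] at h2 h3 h4 h5
  exact ⟨a, t, s, hk.2.1, sub_eq_zero.1 h1, sub_eq_zero.1 h2, sub_eq_zero.1 h3, sub_eq_zero.1 h4,
    sub_eq_zero.1 h5⟩

theorem uc_neg {n : ℕ} (v : Fin n → ℂ → ℝ) (a : Fin n → ℝ) (z : ℂ) :
    uc v (-a) z = -uc v a z := by
  simp only [uc, Pi.neg_apply, neg_mul, Finset.sum_neg_distrib]

end BalanceAux

open BalanceAux

theorem exists_balanced {v : Fin 4 → ℂ → ℝ} (hv : ∀ i, ContDiff ℝ ∞ (v i))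
    (hvc : ∀ i, HasCompactSupport (v i)) {Λ p : ℝ} (hp : 0 < p) (hp1 : p < 1)
    (hneg : ∀ a : Fin 4 → ℝ, a ≠ 0 → q Λ (uc v a) < 0) :
    ∃ a : Fin 4 → ℝ, ∃ t s : ℝ,
      q Λ (fun z => max (uc v a z) 0) < 0 ∧ q Λ (fun z => max (-uc v a z) 0) < 0 ∧
      (1 - p) * ∫ z in Hf t (-1), (max (uc v a z) 0) ^ 2 =
        p * ∫ z in Hf t 1, (max (uc v a z) 0) ^ 2 ∧
      (1 - p) * ∫ z in Hf t (-1), (max (-uc v a z) 0) ^ 2 =
        p * ∫ z in Hf t 1, (max (-uc v a z) 0) ^ 2 ∧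
      ∫ z in Qd t s (-1) (-1), (max (uc v a z) 0) ^ 2 =
        ∫ z in Qd t s (-1) 1, (max (uc v a z) 0) ^ 2 ∧
      ∫ z in Qd t s (-1) (-1), (max (-uc v a z) 0) ^ 2 =
        ∫ z in Qd t s (-1) 1, (max (-uc v a z) 0) ^ 2 := by
  classical
  -- a box containing all supports
  obtain ⟨R, hR, hRz⟩ : ∃ R : ℝ, 0 ≤ R ∧ ∀ z : ℂ, R < ‖z‖ → ∀ i, v i z = 0 := by
    have h : ∀ i, ∃ r : ℝ, ∀ z : ℂ, r < ‖z‖ → v i z = 0 := by
      intro i
      obtain ⟨r, hr⟩ := (hvc i).isCompact.isBounded.subset_closedBall (0 : ℂ)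
      refine ⟨r, fun z hz => image_eq_zero_of_notMem_tsupport fun hz' => ?_⟩
      have h2 := hr hz'
      rw [mem_closedBall_zero_iff] at h2
      linarith
    choose r hr using h
    refine ⟨∑ i, |r i|, Finset.sum_nonneg fun i _ => abs_nonneg _, fun z hz i => hr i z ?_⟩
    refine lt_of_le_of_lt ?_ hz
    exact (le_abs_self _).trans
      (Finset.single_le_sum (f := fun i => |r i|) (fun j _ => abs_nonneg _) (Finset.mem_univ i))
  have hz0 : ∀ (a : Fin 4 → ℝ) (z : ℂ), R < ‖z‖ → (max (uc v a z) 0) ^ 2 = 0 := by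
    intro a z hz
    have h : uc v a z = 0 := by
      unfold uc
      exact Finset.sum_eq_zero fun i _ => by rw [hRz z hz i, mul_zero]
    rw [h, max_self]
    norm_num
  have hint : ∀ a : Fin 4 → ℝ, Integrable fun z => (max (uc v a z) 0) ^ 2 := fun a =>
    (uc_adm hv hvc a).pos.integrable_sq
  have hnn : ∀ (a : Fin 4 → ℝ) (z : ℂ), 0 ≤ (max (uc v a z) 0) ^ 2 := fun a z => sq_nonneg _
  have hmono : ∀ (a : Fin 4 → ℝ) {A B : Set ℂ}, A ⊆ B →
      ∫ z in A, (max (uc v a z) 0) ^ 2 ≤ ∫ z in B, (max (uc v a z) 0) ^ 2 := by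
    intro a A B h
    exact setIntegral_mono_set (hint a).integrableOn
      (Filter.Eventually.of_forall fun z => hnn a z) h.eventuallyLE
  have hzero : ∀ (a : Fin 4 → ℝ) {A : Set ℂ}, (∀ z ∈ A, R < ‖z‖) →
      ∫ z in A, (max (uc v a z) 0) ^ 2 = 0 := by
    intro a A h
    exact setIntegral_eq_zero_of_forall_eq_zero fun z hz => hz0 a z (h z hz)
  obtain ⟨a, t, s, ha, h1, h2, h3, h4, h5⟩ := abs_zero
    (Q := fun a => q Λ (fun z => max (uc v a z) 0))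
    (M₁ := fun x => (1 - p) * ∫ z in Hf x.2 (-1), (max (uc v x.1 z) 0) ^ 2)
    (M₂ := fun x => p * ∫ z in Hf x.2 1, (max (uc v x.1 z) 0) ^ 2)
    (N₁ := fun x => ∫ z in Qd x.2.1 x.2.2 (-1) (-1), (max (uc v x.1 z) 0) ^ 2)
    (N₂ := fun x => ∫ z in Qd x.2.1 x.2.2 (-1) 1, (max (uc v x.1 z) 0) ^ 2) (R := R)
    (cont_qpos hv hvc Λ) (continuous_const.mul (cont_massh hv hvc (Or.inr rfl)))
    (continuous_const.mul (cont_massh hv hvc (Or.inl rfl)))
    (cont_massq hv hvc (Or.inr rfl) (Or.inr rfl)) (cont_massq hv hvc (Or.inr rfl) (Or.inl rfl)) hR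
    (by
      intro x t t' h
      refine mul_le_mul_of_nonneg_left (hmono x fun z hz => ?_) (by linarith)
      simp only [Hf, mem_ofPred_eq] at hz ⊢
      linarith)
    (by
      intro x t t' h
      refine mul_le_mul_of_nonneg_left (hmono x fun z hz => ?_) hp.le
      simp only [Hf, mem_ofPred_eq] at hz ⊢
      linarith)
    (fun x => mul_nonneg (by linarith) (integral_nonneg fun z => hnn _ z))
    (fun x => mul_nonneg hp.le (integral_nonneg fun z => hnn _ z))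
    (by
      intro x t h
      simp only
      rw [hzero x (A := Hf t (-1)), mul_zero]
      intro z hz
      simp only [Hf, mem_ofPred_eq] at hz
      have h1 := Complex.abs_re_le_norm z
      have h2 := neg_abs_le z.re
      linarith)
    (by
      intro x t h
      simp only
      rw [hzero x (A := Hf t 1), mul_zero]
      intro z hz
      simp only [Hf, mem_ofPred_eq] at hz
      have h1 := Complex.abs_re_le_norm z
      have h2 := le_abs_self z.re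
      linarith)
    (by
      intro x t s s' h
      refine hmono x fun z hz => ?_
      simp only [Qd, mem_ofPred_eq] at hz ⊢
      exact ⟨hz.1, by linarith [hz.2]⟩)
    (by
      intro x t s s' h
      refine hmono x fun z hz => ?_
      simp only [Qd, mem_ofPred_eq] at hz ⊢
      exact ⟨hz.1, by linarith [hz.2]⟩)
    (fun x => integral_nonneg fun z => hnn _ z)
    (fun x => integral_nonneg fun z => hnn _ z)
    (by
      intro x t s h
      refine hzero x fun z hz => ?_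
      simp only [Qd, mem_ofPred_eq] at hz
      have h1 := Complex.abs_im_le_norm z
      have h2 := neg_abs_le z.im
      linarith [hz.2])
    (by
      intro x t s h
      refine hzero x fun z hz => ?_
      simp only [Qd, mem_ofPred_eq] at hz
      have h1 := Complex.abs_im_le_norm z
      have h2 := le_abs_self z.im
      linarith [hz.2])
  simp only [uc_neg] at h1 h2 h3 h4 h5
  have ha0 : a ≠ 0 := by
    rintro rfl
    simp at ha
  have h6 := hneg a ha0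
  rw [q_split (uc_adm hv hvc a)] at h6
  refine ⟨a, t, s, ?_, ?_, h2, h3, h4, h5⟩
  · linarith
  · linarith

end DK4
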