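import Pool.Agent.Lib.DK4.Balance

/-!
Module DK4.Balance1: the balanced function (Borsuk-Ulam) for three dimensional spaces.

Same proof as `DK4.exists_balanced` (module DK4.Balance, copy and simplify it: `abs_eps`, `abs_zero`) with
`Fin 3` instead of `Fin 4`, `p = 1/2`, and without the second line: `F(a) = (q Λ (u_a⁺) - q Λ (u_{-a}⁺), T(a) - T(-a))`
is an odd continuous map `S² → ℝ²`; it has a zero by `bu2` (DK4.BU2; use `c a = F₁ a + i F₂ a`, if it has no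
zero then it contradicts `bu2`).
-/

open MeasureTheory Set
open scoped ContDiff

namespace DK4

namespace Balance1Aux

/-- the conditions for one `ε > 0` -/
theorem abs_eps {Q : (Fin 3 → ℝ) → ℝ} {M₁ M₂ : (Fin 3 → ℝ) × ℝ → ℝ}
    (hQ : Continuous Q) (hM₁ : Continuous M₁)
    (hM₂ : Continuous M₂) {R ε : ℝ} (hε : 0 < ε)
    (hR : 0 ≤ R) (mM₁ : ∀ x, Monotone fun t => M₁ (x, t)) (mM₂ : ∀ x, Antitone fun t => M₂ (x, t))
    (nM₁ : ∀ x, 0 ≤ M₁ x) (nM₂ : ∀ x, 0 ≤ M₂ x)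
    (zM₁ : ∀ x t, t ≤ -R → M₁ (x, t) = 0) (zM₂ : ∀ x t, R ≤ t → M₂ (x, t) = 0) :
    ∃ (a : Fin 3 → ℝ) (t : ℝ), ∑ i, a i ^ 2 = 1 ∧ t ∈ Icc (-R) R ∧
      Q a - Q (-a) = 0 ∧ M₁ (a, t) - M₂ (a, t) + ε * t = 0 ∧
      M₁ (-a, t) - M₂ (-a, t) + ε * t = 0 := by
  obtain ⟨T, hT, hT0⟩ := BalanceAux.zero_cont hM₁ hM₂ hε hR mM₁ mM₂ nM₁ nM₂ zM₁ zM₂
  have hTn : Continuous fun a : Fin 3 → ℝ => T (-a) := hT.comp continuous_neg
  have hQn : Continuous fun a : Fin 3 → ℝ => Q (-a) := hQ.comp continuous_neg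
  let c : (Fin 3 → ℝ) → ℂ := fun a =>
    ((Q a - Q (-a) : ℝ) : ℂ) + ((T a - T (-a) : ℝ) : ℂ) * Complex.I
  have hc : Continuous c := by
    have h1 : Continuous fun a : Fin 3 → ℝ => ((Q a - Q (-a) : ℝ) : ℂ) :=
      Complex.continuous_ofReal.comp (hQ.sub hQn)
    have h2 : Continuous fun a : Fin 3 → ℝ => ((T a - T (-a) : ℝ) : ℂ) :=
      Complex.continuous_ofReal.comp (hT.sub hTn)
    exact h1.add (h2.mul continuous_const)
  have hodd : ∀ a, c (-a) = -c a := by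
    intro a
    simp only [c, neg_neg]
    push_cast
    ring
  obtain ⟨a, ha, h0⟩ : ∃ a : Fin 3 → ℝ, ∑ i, a i ^ 2 = 1 ∧ c a = 0 := by
    by_contra hcon
    push Not at hcon
    exact bu2 c hc.continuousOn hcon fun a _ => hodd a
  have hre : (c a).re = Q a - Q (-a) := by simp [c]
  have him : (c a).im = T a - T (-a) := by simp [c]
  have h1 : Q a - Q (-a) = 0 := by rw [← hre, h0, Complex.zero_re]
  have h2 : T a - T (-a) = 0 := by rw [← him, h0, Complex.zero_im]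
  have h4 : T (-a) = T a := by linarith
  refine ⟨a, T a, ha, (hT0 a).1, h1, (hT0 a).2, ?_⟩
  have h := (hT0 (-a)).2
  rwa [h4] at h

/-- the limit `ε → 0` -/
theorem abs_zero {Q : (Fin 3 → ℝ) → ℝ} {M₁ M₂ : (Fin 3 → ℝ) × ℝ → ℝ}
    (hQ : Continuous Q) (hM₁ : Continuous M₁)
    (hM₂ : Continuous M₂) {R : ℝ}
    (hR : 0 ≤ R) (mM₁ : ∀ x, Monotone fun t => M₁ (x, t)) (mM₂ : ∀ x, Antitone fun t => M₂ (x, t))
    (nM₁ : ∀ x, 0 ≤ M₁ x) (nM₂ : ∀ x, 0 ≤ M₂ x)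
    (zM₁ : ∀ x t, t ≤ -R → M₁ (x, t) = 0) (zM₂ : ∀ x t, R ≤ t → M₂ (x, t) = 0) :
    ∃ (a : Fin 3 → ℝ) (t : ℝ), ∑ i, a i ^ 2 = 1 ∧
      Q a = Q (-a) ∧ M₁ (a, t) = M₂ (a, t) ∧ M₁ (-a, t) = M₂ (-a, t) := by
  let S : Set (Fin 3 → ℝ) := {a | ∑ i, a i ^ 2 = 1}
  have hS : IsCompact S := by
    refine Metric.isCompact_of_isClosed_isBounded ?_ ?_
    · exact isClosed_eq (by fun_prop) continuous_const
    · refine (Metric.isBounded_closedBall (x := (0 : Fin 3 → ℝ)) (r := 1)).subset fun a ha => ?_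
      rw [mem_closedBall_zero_iff, pi_norm_le_iff_of_nonneg zero_le_one]
      intro i
      have h1 : a i ^ 2 ≤ 1 := by
        have h2 : ∑ i, a i ^ 2 = 1 := ha
        rw [← h2]
        exact Finset.single_le_sum (f := fun i => a i ^ 2) (fun j _ => sq_nonneg _)
          (Finset.mem_univ i)
      rw [Real.norm_eq_abs]
      exact (sq_le_one_iff_abs_le_one _).1 h1
  let K : Set (ℝ × (Fin 3 → ℝ) × ℝ) := Icc 0 1 ×ˢ (S ×ˢ Icc (-R) R)
  have hK : IsCompact K := isCompact_Icc.prod (hS.prod isCompact_Icc)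
  let C : Set (ℝ × (Fin 3 → ℝ) × ℝ) := {x |
    Q x.2.1 - Q (-x.2.1) = 0 ∧
    M₁ (x.2.1, x.2.2) - M₂ (x.2.1, x.2.2) + x.1 * x.2.2 = 0 ∧
    M₁ (-x.2.1, x.2.2) - M₂ (-x.2.1, x.2.2) + x.1 * x.2.2 = 0}
  have hC : IsClosed C := by
    refine (isClosed_eq ?_ continuous_const).inter <| (isClosed_eq ?_ continuous_const).inter <|
      (isClosed_eq ?_ continuous_const) <;> fun_prop
  have hKC : IsCompact (K ∩ C) := hK.inter_right hC
  have him : IsClosed (Prod.fst '' (K ∩ C)) := (hKC.image continuous_fst).isClosed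
  have hsub : Ioc (0 : ℝ) 1 ⊆ Prod.fst '' (K ∩ C) := by
    intro ε hε
    obtain ⟨a, t, ha, ht, h⟩ := abs_eps hQ hM₁ hM₂ hε.1 hR mM₁ mM₂ nM₁ nM₂ zM₁ zM₂
    exact ⟨(ε, a, t), ⟨⟨⟨hε.1.le, hε.2⟩, ha, ht⟩, h⟩, rfl⟩
  have h0 : (0 : ℝ) ∈ Prod.fst '' (K ∩ C) := by
    have h1 := closure_minimal hsub him
    rw [closure_Ioc (by norm_num : (0 : ℝ) ≠ 1)] at h1
    exact h1 ⟨le_rfl, zero_le_one⟩
  obtain ⟨⟨ε, a, t⟩, ⟨hk, hc⟩, he⟩ := h0
  have he' : ε = 0 := he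
  subst he'
  obtain ⟨h1, h2, h3⟩ := hc
  simp only [zero_mul, add_zero] at h2 h3
  exact ⟨a, t, hk.2.1, sub_eq_zero.1 h1, sub_eq_zero.1 h2, sub_eq_zero.1 h3⟩

end Balance1Aux

open BalanceAux

theorem exists_balanced1 {v : Fin 3 → ℂ → ℝ} (hv : ∀ i, ContDiff ℝ ∞ (v i))
    (hvc : ∀ i, HasCompactSupport (v i)) {Λ : ℝ}
    (hneg : ∀ a : Fin 3 → ℝ, a ≠ 0 → q Λ (uc v a) < 0) :
    ∃ a : Fin 3 → ℝ, ∃ t : ℝ,
      q Λ (fun z => max (uc v a z) 0) < 0 ∧ q Λ (fun z => max (-uc v a z) 0) < 0 ∧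
      ∫ z in Hf t (-1), (max (uc v a z) 0) ^ 2 = ∫ z in Hf t 1, (max (uc v a z) 0) ^ 2 ∧
      ∫ z in Hf t (-1), (max (-uc v a z) 0) ^ 2 = ∫ z in Hf t 1, (max (-uc v a z) 0) ^ 2 := by
  classical
  -- a box containing all supports
  obtain ⟨R, hR, hRz⟩ : ∃ R : ℝ, 0 ≤ R ∧ ∀ z : ℂ, R < ‖z‖ → ∀ i, v i z = 0 := by
    have h : ∀ i, ∃ r : ℝ, ∀ z : ℂ, r < ‖z‖ → v i z = 0 := by
      intro i
      obtain ⟨r, hr⟩ := (hvc i).isCompact.isBounded.subset_closedBall (0 : ℂ)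
      refine ⟨r, fun z hz => image_eq_zero_of_notMem_tsupport fun hz' => ?_⟩
      have h2 := hr hz'
      rw [mem_closedBall_zero_iff] at h2
      linarith
    choose r hr using h
    refine ⟨∑ i, |r i|, Finset.sum_nonneg fun i _ => abs_nonneg _, fun z hz i => hr i z ?_⟩
    refine lt_of_le_of_lt ?_ hz
    exact (le_abs_self _).trans
      (Finset.single_le_sum (f := fun i => |r i|) (fun j _ => abs_nonneg _) (Finset.mem_univ i))
  have hz0 : ∀ (a : Fin 3 → ℝ) (z : ℂ), R < ‖z‖ → (max (uc v a z) 0) ^ 2 = 0 := by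
    intro a z hz
    have h : uc v a z = 0 := by
      unfold uc
      exact Finset.sum_eq_zero fun i _ => by rw [hRz z hz i, mul_zero]
    rw [h, max_self]
    norm_num
  have hint : ∀ a : Fin 3 → ℝ, Integrable fun z => (max (uc v a z) 0) ^ 2 := fun a =>
    (uc_adm hv hvc a).pos.integrable_sq
  have hnn : ∀ (a : Fin 3 → ℝ) (z : ℂ), 0 ≤ (max (uc v a z) 0) ^ 2 := fun a z => sq_nonneg _
  have hmono : ∀ (a : Fin 3 → ℝ) {A B : Set ℂ}, A ⊆ B →
      ∫ z in A, (max (uc v a z) 0) ^ 2 ≤ ∫ z in B, (max (uc v a z) 0) ^ 2 := by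
    intro a A B h
    exact setIntegral_mono_set (hint a).integrableOn
      (Filter.Eventually.of_forall fun z => hnn a z) h.eventuallyLE
  have hzero : ∀ (a : Fin 3 → ℝ) {A : Set ℂ}, (∀ z ∈ A, R < ‖z‖) →
      ∫ z in A, (max (uc v a z) 0) ^ 2 = 0 := by
    intro a A h
    exact setIntegral_eq_zero_of_forall_eq_zero fun z hz => hz0 a z (h z hz)
  obtain ⟨a, t, ha, h1, h2, h3⟩ := Balance1Aux.abs_zero
    (Q := fun a => q Λ (fun z => max (uc v a z) 0))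
    (M₁ := fun x => ∫ z in Hf x.2 (-1), (max (uc v x.1 z) 0) ^ 2)
    (M₂ := fun x => ∫ z in Hf x.2 1, (max (uc v x.1 z) 0) ^ 2) (R := R)
    (cont_qpos hv hvc Λ) (cont_massh hv hvc (Or.inr rfl))
    (cont_massh hv hvc (Or.inl rfl)) hR
    (by
      intro x t t' h
      refine hmono x fun z hz => ?_
      simp only [Hf, mem_ofPred_eq] at hz ⊢
      linarith)
    (by
      intro x t t' h
      refine hmono x fun z hz => ?_
      simp only [Hf, mem_ofPred_eq] at hz ⊢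
      linarith)
    (fun x => integral_nonneg fun z => hnn _ z)
    (fun x => integral_nonneg fun z => hnn _ z)
    (by
      intro x t h
      refine hzero x fun z hz => ?_
      simp only [Hf, mem_ofPred_eq] at hz
      have h1 := Complex.abs_re_le_norm z
      have h2 := neg_abs_le z.re
      linarith)
    (by
      intro x t h
      refine hzero x fun z hz => ?_
      simp only [Hf, mem_ofPred_eq] at hz
      have h1 := Complex.abs_re_le_norm z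
      have h2 := le_abs_self z.re
      linarith)
  simp only [uc_neg] at h1 h2 h3
  have ha0 : a ≠ 0 := by
    rintro rfl
    simp at ha
  have h6 := hneg a ha0
  rw [q_split (uc_adm hv hvc a)] at h6
  refine ⟨a, t, ?_, ?_, h2, h3⟩
  · linarith
  · linarith

end DK4
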