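import Pool.Agent.Lib.DK4.Loc

/-!
Module DK4.Bump: for nonempty open `Ω` the set in the definition of `dirEig n Ω` is nonempty.

Proof.  Choose `n` distinct points of `Ω` (an open nonempty set is infinite) and disjoint small
closed balls around them inside `Ω`; smooth bumps `b_i` (ContDiffBump) supported in those balls.
`V` = span of the `b_i`, of dimension `n` (disjoint supports, nonzero).  For `u = ∑ c_i b_i`,
`∫ u² = ∑ c_i² ∫ b_i²` and `∫ |∇u|² = ∑ c_i² ∫ |∇b_i|²`, so `Λ = ∑_i E_i / M_i` works.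
(Alternative for the last step: on any finite-dimensional `V` of test functions the quadratic form
is bounded by `Λ ∫ u²`, by compactness of the unit sphere / equivalence of norms.)
-/

open MeasureTheory Set
open scoped ContDiff

namespace DK4

namespace BumpAux

/-- at most one of the vectors is nonzero -/
theorem norm_sum_sq {n : ℕ} {W : Type*} [NormedAddCommGroup W] (v : Fin n → W)
    (h : ∀ i j, i ≠ j → v i = 0 ∨ v j = 0) : ‖∑ i, v i‖ ^ 2 = ∑ i, ‖v i‖ ^ 2 := by
  by_cases h0 : ∀ i, v i = 0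
  · simp [h0]
  · push Not at h0
    obtain ⟨i, hi⟩ := h0
    have hj : ∀ j, j ≠ i → v j = 0 := fun j hj => (h i j hj.symm).resolve_left hi
    rw [Finset.sum_eq_single i (fun j _ hji => hj j hji)
      (fun h => absurd (Finset.mem_univ i) h),
      Finset.sum_eq_single i (fun j _ hji => by rw [hj j hji, norm_zero]; simp)
      (fun h => absurd (Finset.mem_univ i) h)]

/-- the energy bound for a sum of functions with disjoint supports -/
theorem energy {n : ℕ} (b : Fin n → ℂ → ℝ) (hb : ∀ i, ContDiff ℝ ∞ (b i))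
    (hc : ∀ i, HasCompactSupport (b i)) (hd : ∀ i j, i ≠ j → ∀ z, z ∈ tsupport (b i) →
      z ∉ tsupport (b j)) (hpos : ∀ i, 0 < ∫ z, b i z ^ 2) (g : Fin n → ℝ) :
    ∫ z, ‖fderiv ℝ (∑ i, g i • b i) z‖ ^ 2 ≤
      (∑ i, (∫ z, ‖fderiv ℝ (b i) z‖ ^ 2) / ∫ z, b i z ^ 2) *
        ∫ z, (∑ i, g i • b i) z ^ 2 := by
  have hdiff : ∀ i z, DifferentiableAt ℝ (b i) z := fun i z =>
    ((hb i).differentiable (by simp)).differentiableAt
  have hE : ∀ z, ‖fderiv ℝ (∑ i, g i • b i) z‖ ^ 2 =
      ∑ i, g i ^ 2 * ‖fderiv ℝ (b i) z‖ ^ 2 := by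
    intro z
    have h1 : HasFDerivAt (∑ i, g i • b i) (∑ i, g i • fderiv ℝ (b i) z) z :=
      HasFDerivAt.sum fun i _ => (hdiff i z).hasFDerivAt.const_smul (g i)
    rw [h1.fderiv, norm_sum_sq]
    · refine Finset.sum_congr rfl fun i _ => ?_
      rw [norm_smul, mul_pow, Real.norm_eq_abs, sq_abs]
    · intro i j hij
      by_cases hz : z ∈ tsupport (b i)
      · right
        rw [fderiv_of_notMem_tsupport ℝ (hd i j hij z hz), smul_zero]
      · left
        rw [fderiv_of_notMem_tsupport ℝ hz, smul_zero]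
  have hM : ∀ z, (∑ i, g i • b i) z ^ 2 = ∑ i, g i ^ 2 * b i z ^ 2 := by
    intro z
    have h1 : (∑ i, g i • b i) z = ∑ i, g i * b i z := by
      rw [Finset.sum_apply]
      rfl
    rw [h1, ← sq_abs, ← Real.norm_eq_abs, norm_sum_sq]
    · refine Finset.sum_congr rfl fun i _ => ?_
      rw [Real.norm_eq_abs, sq_abs, mul_pow]
    · intro i j hij
      by_cases hz : z ∈ tsupport (b i)
      · right
        rw [image_eq_zero_of_notMem_tsupport (hd i j hij z hz), mul_zero]
      · left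
        rw [image_eq_zero_of_notMem_tsupport hz, mul_zero]
  have hcontE : ∀ i, Integrable (fun z => g i ^ 2 * ‖fderiv ℝ (b i) z‖ ^ 2) := by
    intro i
    have h1 : Continuous (fderiv ℝ (b i)) := (hb i).continuous_fderiv (by simp)
    have h2 : HasCompactSupport (fderiv ℝ (b i)) := (hc i).fderiv ℝ
    have h3 : HasCompactSupport fun z => ‖fderiv ℝ (b i) z‖ ^ 2 := by
      refine h2.mono' ?_
      intro z hz
      apply subset_tsupport
      intro h4
      exact hz (by simp [h4])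
    exact ((h1.norm.pow 2).integrable_of_hasCompactSupport h3).const_mul _
  have hcontM : ∀ i, Integrable (fun z => g i ^ 2 * b i z ^ 2) := by
    intro i
    have h1 : Continuous (b i) := (hb i).continuous
    have h3 : HasCompactSupport fun z => b i z ^ 2 := by
      refine (hc i).mono' ?_
      intro z hz
      apply subset_tsupport
      intro h4
      exact hz (by simp [h4])
    exact ((h1.pow 2).integrable_of_hasCompactSupport h3).const_mul _
  have hEI : ∫ z, ‖fderiv ℝ (∑ i, g i • b i) z‖ ^ 2 =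
      ∑ i, g i ^ 2 * ∫ z, ‖fderiv ℝ (b i) z‖ ^ 2 := by
    rw [integral_congr_ae (Filter.Eventually.of_forall hE),
      integral_finsetSum _ fun i _ => hcontE i]
    exact Finset.sum_congr rfl fun i _ => integral_const_mul _ _
  have hMI : ∫ z, (∑ i, g i • b i) z ^ 2 = ∑ i, g i ^ 2 * ∫ z, b i z ^ 2 := by
    rw [integral_congr_ae (Filter.Eventually.of_forall hM),
      integral_finsetSum _ fun i _ => hcontM i]
    exact Finset.sum_congr rfl fun i _ => integral_const_mul _ _
  rw [hEI, hMI, Finset.mul_sum]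
  refine Finset.sum_le_sum fun i _ => ?_
  have h1 : (∫ z, ‖fderiv ℝ (b i) z‖ ^ 2) / ∫ z, b i z ^ 2 ≤
      ∑ j, (∫ z, ‖fderiv ℝ (b j) z‖ ^ 2) / ∫ z, b j z ^ 2 := by
    refine Finset.single_le_sum (f := fun j => (∫ z, ‖fderiv ℝ (b j) z‖ ^ 2) / ∫ z, b j z ^ 2)
      (fun j _ => ?_) (Finset.mem_univ i)
    exact div_nonneg (integral_nonneg fun z => by positivity) (hpos j).le
  rw [div_le_iff₀ (hpos i)] at h1
  calc g i ^ 2 * ∫ z, ‖fderiv ℝ (b i) z‖ ^ 2 ≤ g i ^ 2 *
      ((∑ j, (∫ z, ‖fderiv ℝ (b j) z‖ ^ 2) / ∫ z, b j z ^ 2) * ∫ z, b i z ^ 2) :=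
        mul_le_mul_of_nonneg_left h1 (by positivity)
    _ = _ := by ring

end BumpAux

open BumpAux

theorem exists_space (n : ℕ) {Ω : Set ℂ} (hΩ : IsOpen Ω) (hne : Ω.Nonempty) :
    ∃ Λ : ℝ, ∃ V : Submodule ℝ (ℂ → ℝ), Module.finrank ℝ V = n ∧
      (∀ u ∈ V, ContDiff ℝ ∞ u ∧ HasCompactSupport u ∧ tsupport u ⊆ Ω) ∧
      ∀ u ∈ V, ∫ z, ‖fderiv ℝ u z‖ ^ 2 ≤ Λ * ∫ z, u z ^ 2 := by
  obtain ⟨z0, hz0⟩ := hne
  obtain ⟨ρ, hρ, hball⟩ := Metric.isOpen_iff.1 hΩ z0 hz0
  have hn : (0 : ℝ) < (n : ℝ) + 1 := by positivity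
  let t : Fin n → ℝ := fun i => ρ * ((i : ℕ) + 1) / (2 * ((n : ℝ) + 1))
  let c : Fin n → ℂ := fun i => z0 + ((t i : ℝ) : ℂ)
  obtain ⟨r, hr⟩ : ∃ r, r = ρ / (8 * ((n : ℝ) + 1)) := ⟨_, rfl⟩
  have hr0 : 0 < r := by
    rw [hr]
    positivity
  have hr8 : 8 * r * ((n : ℝ) + 1) = ρ := by
    rw [hr]
    field_simp
  have hct : ∀ i j, dist (c i) (c j) = |t i - t j| := by
    intro i j
    show dist (z0 + ((t i : ℝ) : ℂ)) (z0 + ((t j : ℝ) : ℂ)) = _
    rw [dist_add_left, dist_eq_norm, ← Complex.ofReal_sub, Complex.norm_real, Real.norm_eq_abs]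
  have ht : ∀ i, t i = 4 * r * ((i : ℕ) + 1) := by
    intro i
    show ρ * ((i : ℕ) + 1) / (2 * ((n : ℝ) + 1)) = _
    rw [← hr8]
    field_simp
    ring
  have hsep : ∀ i j, i ≠ j → 4 * r ≤ dist (c i) (c j) := by
    intro i j hij
    rw [hct, ht, ht]
    have h1 : (1 : ℝ) ≤ |((i : ℕ) : ℝ) - ((j : ℕ) : ℝ)| := by
      have h2 : ((i : ℕ) : ℤ) - ((j : ℕ) : ℤ) ≠ 0 := by
        intro h3
        apply hij
        apply Fin.ext
        omega
      have h3 := Int.one_le_abs h2
      have h4 : ((1 : ℤ) : ℝ) ≤ ((|((i : ℕ) : ℤ) - ((j : ℕ) : ℤ)| : ℤ) : ℝ) := by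
        exact_mod_cast h3
      push_cast at h4
      exact h4
    have h5 : 4 * r * (((i : ℕ) : ℝ) + 1) - 4 * r * (((j : ℕ) : ℝ) + 1) =
        4 * r * (((i : ℕ) : ℝ) - ((j : ℕ) : ℝ)) := by ring
    rw [h5, abs_mul, abs_of_pos (by positivity : 0 < 4 * r)]
    nlinarith
  let B : ∀ i : Fin n, ContDiffBump (c i) := fun i => ⟨r / 2, r, by positivity, by linarith⟩
  let b : Fin n → ℂ → ℝ := fun i => B i
  have hts : ∀ i, tsupport (b i) = Metric.closedBall (c i) r := fun i => (B i).tsupport_eq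
  have hd : ∀ i j, i ≠ j → ∀ z, z ∈ tsupport (b i) → z ∉ tsupport (b j) := by
    intro i j hij z hi hj
    rw [hts, Metric.mem_closedBall] at hi hj
    have h1 := hsep i j hij
    have h2 := dist_triangle_left (c i) (c j) z
    linarith
  have hsm : ∀ i, ContDiff ℝ ∞ (b i) := fun i => (B i).contDiff
  have hcs : ∀ i, HasCompactSupport (b i) := fun i => (B i).hasCompactSupport
  have hb1 : ∀ i, b i (c i) = 1 := fun i =>
    (B i).one_of_mem_closedBall (Metric.mem_closedBall_self (B i).rIn_pos.le)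
  have hb0 : ∀ i j, i ≠ j → b i (c j) = 0 := by
    intro i j hij
    apply image_eq_zero_of_notMem_tsupport
    refine hd j i hij.symm (c j) ?_
    rw [hts]
    exact Metric.mem_closedBall_self hr0.le
  have hpos : ∀ i, 0 < ∫ z, b i z ^ 2 := by
    intro i
    have h3 : HasCompactSupport fun z => b i z ^ 2 := by
      refine (hcs i).mono' ?_
      intro z hz
      apply subset_tsupport
      intro h4
      exact hz (by simp [h4])
    refine ((hsm i).continuous.pow 2).integral_pos_of_hasCompactSupport_nonneg_nonzero h3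
      (fun z => sq_nonneg _) (x := c i) ?_
    show b i (c i) ^ 2 ≠ 0
    rw [hb1]
    norm_num
  have hin : ∀ i, tsupport (b i) ⊆ Metric.closedBall z0 (3 / 4 * ρ) := by
    intro i z hz
    rw [hts, Metric.mem_closedBall] at hz
    rw [Metric.mem_closedBall]
    have h1 : dist (c i) z0 = t i := by
      show dist (z0 + ((t i : ℝ) : ℂ)) z0 = t i
      rw [dist_eq_norm, add_sub_cancel_left, Complex.norm_real, Real.norm_eq_abs, abs_of_nonneg]
      rw [ht]
      positivity
    have h2 := dist_triangle z (c i) z0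
    have h3 : t i ≤ ρ / 2 := by
      rw [ht, ← hr8]
      have h4 : (((i : ℕ) : ℝ) + 1) ≤ (n : ℝ) + 1 := by
        have h5 := i.2
        have h6 : ((i : ℕ) : ℝ) ≤ (n : ℝ) := by exact_mod_cast h5.le
        linarith
      nlinarith
    have h4 : r ≤ ρ / 8 := by
      rw [← hr8]
      have h5 : (0 : ℝ) ≤ (n : ℝ) := Nat.cast_nonneg n
      nlinarith
    linarith
  have hli : LinearIndependent ℝ b := by
    rw [Fintype.linearIndependent_iff]
    intro g hg i
    have h1 := congrFun hg (c i)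
    rw [Finset.sum_apply, Finset.sum_eq_single i] at h1
    · rw [Pi.smul_apply, hb1, smul_eq_mul, mul_one] at h1
      exact h1
    · intro j _ hj
      rw [Pi.smul_apply, hb0 j i hj, smul_zero]
    · intro h
      exact absurd (Finset.mem_univ i) h
  refine ⟨∑ i, (∫ z, ‖fderiv ℝ (b i) z‖ ^ 2) / ∫ z, b i z ^ 2, Submodule.span ℝ (Set.range b),
    ?_, fun u hu => ?_, fun u hu => ?_⟩
  · rw [finrank_span_eq_card hli, Fintype.card_fin]
  · obtain ⟨g, rfl⟩ := (Submodule.mem_span_range_iff_exists_fun ℝ).1 hu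
    have h1 : tsupport (∑ i, g i • b i) ⊆ Metric.closedBall z0 (3 / 4 * ρ) := by
      refine closure_minimal ?_ Metric.isClosed_closedBall
      intro z hz
      by_contra hz'
      apply hz
      rw [Finset.sum_apply]
      refine Finset.sum_eq_zero fun i _ => ?_
      rw [Pi.smul_apply, image_eq_zero_of_notMem_tsupport fun h => hz' (hin i h), smul_zero]
    refine ⟨?_, ?_, ?_⟩
    · have h2 : (∑ i, g i • b i) = fun z => ∑ i, g i • b i z := by
        funext z
        rw [Finset.sum_apply]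
        rfl
      rw [h2]
      exact ContDiff.sum fun i _ => (hsm i).const_smul (g i)
    · exact (isCompact_closedBall z0 (3 / 4 * ρ)).of_isClosed_subset isClosed_closure h1
    · refine h1.trans (subset_trans ?_ hball)
      exact Metric.closedBall_subset_ball (by linarith)
  · obtain ⟨g, rfl⟩ := (Submodule.mem_span_range_iff_exists_fun ℝ).1 hu
    exact energy b hsm hcs hd hpos g

end DK4
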