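import Pool.Agent.Lib.DK4.Defs

/-!
Module DK4.Num: numerical facts on the first zeros of the Bessel functions.

`J0 x = ∑ (-1)^k (x/2)^(2k)/(k!)²`, `J1 x = ∑ (-1)^k (x/2)^(2k+1)/(k!(k+1)!)`; the alternating
partial sums bound them (terms decrease from some small k on).
* `j01_pos`, `J0_j01`: continuity of `J0`, `J0 0 = 1`, `J0 (5/2) < 0`.
* `j01_gt : 12/5 < j01`: `J0 x > 0` on `[0, 12/5]` (J0(2.4) = 0.0025; the zero is 2.4048): with
  `s = x²/4 ≤ 1.44`, `1 - s + s²/4 - s³/36 + s⁴/576 - s⁵/14400 > 0`, decreasing in `s` on `[0,1.44]`.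
* `j11_lt : j11 < 4`: `J1 4 < 0` (= -0.066), `J1 > 0` near `0+`.
* so `j11² < 16 < 3 · (12/5)² = 17.28 < 3 j01²`.
-/

open Set

namespace DK4

/-- The Bessel function `J₁(x) = ∑ (-1)^k (x/2)^(2k+1) / (k! (k+1)!)`. -/
noncomputable def J1 (x : ℝ) : ℝ :=
  ∑' k : ℕ, (-1 : ℝ) ^ k * (x / 2) ^ (2 * k + 1) / ((k.factorial : ℝ) * ((k + 1).factorial : ℝ))

/-- The first positive zero of `J₁`. -/
noncomputable def j11 : ℝ := sInf {x : ℝ | 0 < x ∧ J1 x = 0}

namespace NumAux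

theorem tail (f : ℕ → ℝ) (N : ℕ) (h : ∀ n, N ≤ n → |f (n + 1)| ≤ |f n| / 2) :
    Summable f ∧ |∑' k, f k - ∑ i ∈ Finset.range N, f i| ≤ 2 * |f N| := by
  have h1 : ∀ k, |f (k + N)| ≤ |f N| * (1 / 2) ^ k := by
    intro k
    induction k with
    | zero => simp
    | succ k ih =>
      have h2 := h (k + N) (Nat.le_add_left _ _)
      have h3 : k + 1 + N = k + N + 1 := by ring
      rw [h3, pow_succ]
      linarith
  have h2 : HasSum (fun k : ℕ => |f N| * (1 / 2 : ℝ) ^ k) (|f N| * 2) :=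
    hasSum_geometric_two.mul_left _
  have h3 : Summable fun k => f (k + N) :=
    Summable.of_norm_bounded h2.summable (fun k => h1 k)
  have h4 : Summable f := (summable_nat_add_iff N).1 h3
  refine ⟨h4, ?_⟩
  have h5 := h4.sum_add_tsum_nat_add N
  have h6 : ∑' k, f k - ∑ i ∈ Finset.range N, f i = ∑' k, f (k + N) := by
    rw [← h5]
    ring
  rw [h6]
  have h7 := tsum_of_norm_bounded (f := fun k => f (k + N)) h2 (fun k => h1 k)
  rw [Real.norm_eq_abs] at h7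
  linarith

/-- the terms of `J0` -/
noncomputable def t0 (x : ℝ) (k : ℕ) : ℝ :=
  (-1 : ℝ) ^ k * (x / 2) ^ (2 * k) / ((k.factorial : ℝ) ^ 2)

/-- the terms of `J1` -/
noncomputable def t1 (x : ℝ) (k : ℕ) : ℝ :=
  (-1 : ℝ) ^ k * (x / 2) ^ (2 * k + 1) / ((k.factorial : ℝ) * ((k + 1).factorial : ℝ))

theorem t0_succ (x : ℝ) (k : ℕ) : t0 x (k + 1) = -((x / 2) ^ 2 / ((k : ℝ) + 1) ^ 2) * t0 x k := by
  have h1 : (k.factorial : ℝ) ≠ 0 := by positivity
  have h2 : ((k : ℝ) + 1) ≠ 0 := by positivity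
  rw [t0, t0, Nat.factorial_succ]
  push_cast
  field_simp
  ring

theorem t1_succ (x : ℝ) (k : ℕ) :
    t1 x (k + 1) = -((x / 2) ^ 2 / (((k : ℝ) + 1) * ((k : ℝ) + 2))) * t1 x k := by
  have h1 : (k.factorial : ℝ) ≠ 0 := by positivity
  have h2 : ((k : ℝ) + 1) ≠ 0 := by positivity
  have h3 : ((k : ℝ) + 2) ≠ 0 := by positivity
  have h4 : ((k : ℝ) + 1 + 1) ≠ 0 := by positivity
  rw [t1, t1, Nat.factorial_succ (k + 1), Nat.factorial_succ k]
  push_cast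
  have h5 : (k : ℝ) + 1 + 1 = (k : ℝ) + 2 := by ring
  rw [h5]
  field_simp
  ring

theorem t0_half {x : ℝ} {N : ℕ} (hx : (x / 2) ^ 2 ≤ ((N : ℝ) + 1) ^ 2 / 2) (n : ℕ) (hn : N ≤ n) :
    |t0 x (n + 1)| ≤ |t0 x n| / 2 := by
  rw [t0_succ, abs_mul, abs_neg, abs_of_nonneg (by positivity)]
  have h1 : (N : ℝ) ≤ n := by exact_mod_cast hn
  have h2 : ((N : ℝ) + 1) ^ 2 ≤ ((n : ℝ) + 1) ^ 2 := by gcongr
  have h3 : (x / 2) ^ 2 / ((n : ℝ) + 1) ^ 2 ≤ 1 / 2 := by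
    rw [div_le_iff₀ (by positivity)]
    linarith
  have h4 := mul_le_mul_of_nonneg_right h3 (abs_nonneg (t0 x n))
  linarith

theorem t1_half {x : ℝ} {N : ℕ} (hx : (x / 2) ^ 2 ≤ ((N : ℝ) + 1) * ((N : ℝ) + 2) / 2) (n : ℕ)
    (hn : N ≤ n) : |t1 x (n + 1)| ≤ |t1 x n| / 2 := by
  rw [t1_succ, abs_mul, abs_neg, abs_of_nonneg (by positivity)]
  have h1 : (N : ℝ) ≤ n := by exact_mod_cast hn
  have h2 : ((N : ℝ) + 1) * ((N : ℝ) + 2) ≤ ((n : ℝ) + 1) * ((n : ℝ) + 2) := by gcongr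
  have h3 : (x / 2) ^ 2 / (((n : ℝ) + 1) * ((n : ℝ) + 2)) ≤ 1 / 2 := by
    rw [div_le_iff₀ (by positivity)]
    linarith
  have h4 := mul_le_mul_of_nonneg_right h3 (abs_nonneg (t1 x n))
  linarith

theorem exists_N (y : ℝ) : ∃ N : ℕ, y ≤ ((N : ℝ) + 1) ^ 2 / 2 ∧
    y ≤ ((N : ℝ) + 1) * ((N : ℝ) + 2) / 2 := by
  obtain ⟨N, hN⟩ := exists_nat_ge (2 * y)
  have h0 : (0 : ℝ) ≤ N := Nat.cast_nonneg N
  exact ⟨N, by nlinarith, by nlinarith⟩

theorem summable_t0 (x : ℝ) : Summable (t0 x) := by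
  obtain ⟨N, h, _⟩ := exists_N ((x / 2) ^ 2)
  exact (tail (t0 x) N (t0_half h)).1

theorem summable_t1 (x : ℝ) : Summable (t1 x) := by
  obtain ⟨N, _, h⟩ := exists_N ((x / 2) ^ 2)
  exact (tail (t1 x) N (t1_half h)).1

theorem cont_of {f : ℝ → ℕ → ℝ} (hf : ∀ k, Continuous fun x => f x k)
    (hs : ∀ x, Summable (f x)) (hm : ∀ x y k, |x| ≤ |y| → |f x k| ≤ |f y k|) :
    Continuous fun x => ∑' k, f x k := by
  rw [continuous_iff_continuousAt]
  intro x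
  have h1 : ContinuousOn (fun x => ∑' k, f x k) (Metric.ball 0 (|x| + 1)) := by
    refine continuousOn_tsum (u := fun k => |f (|x| + 1) k|) (fun k => (hf k).continuousOn)
      (hs _).abs ?_
    intro k y hy
    rw [Real.norm_eq_abs]
    refine hm y (|x| + 1) k ?_
    rw [Metric.mem_ball, dist_zero_right, Real.norm_eq_abs] at hy
    rw [abs_of_nonneg (by positivity : (0 : ℝ) ≤ |x| + 1)]
    exact hy.le
  refine h1.continuousAt (Metric.isOpen_ball.mem_nhds ?_)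
  rw [Metric.mem_ball, dist_zero_right, Real.norm_eq_abs]
  linarith

theorem cont_J0 : Continuous J0 := by
  refine cont_of (f := t0) ?_ summable_t0 ?_
  · intro k
    unfold t0
    fun_prop
  · intro x y k h
    simp only [t0, abs_div, abs_mul, abs_pow]
    gcongr

theorem cont_J1 : Continuous J1 := by
  refine cont_of (f := t1) ?_ summable_t1 ?_
  · intro k
    unfold t1
    fun_prop
  · intro x y k h
    simp only [t1, abs_div, abs_mul, abs_pow]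
    gcongr

theorem J0_zero : J0 0 = 1 := by
  have h := (tail (t0 0) 1 (t0_half (by norm_num))).2
  have h1 : |t0 0 1| = 0 := by simp [t0]
  rw [h1] at h
  have h2 : ∑' k, t0 0 k - ∑ i ∈ Finset.range 1, t0 0 i = 0 :=
    abs_eq_zero.1 (le_antisymm (by linarith) (abs_nonneg _))
  have h3 : ∑ i ∈ Finset.range 1, t0 0 i = 1 := by simp [t0]
  show ∑' k, t0 0 k = 1
  linarith

theorem J0_pos {x : ℝ} (h0 : 0 ≤ x) (hx : x ≤ 12 / 5) : 0 < J0 x := by
  set s := (x / 2) ^ 2 with hs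
  have hs0 : 0 ≤ s := by positivity
  have hs1 : s ≤ 36 / 25 := by
    rw [hs]
    nlinarith
  have h := (tail (t0 x) 6 (t0_half (by
    rw [← hs]
    norm_num
    linarith))).2
  have h1 : ∀ k, t0 x k = (-1 : ℝ) ^ k * s ^ k / ((k.factorial : ℝ) ^ 2) := fun k => by
    rw [t0, hs, ← pow_mul]
  have h2 : |t0 x 6| ≤ (36 / 25 : ℝ) ^ 6 / 518400 := by
    rw [h1, abs_of_nonneg (by positivity)]
    have h3 : s ^ 6 ≤ (36 / 25 : ℝ) ^ 6 := by gcongr
    norm_num [Nat.factorial]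
    norm_num at h3
    linarith
  have h3 : ∑ i ∈ Finset.range 6, t0 x i =
      1 - s + s ^ 2 / 4 - s ^ 3 / 36 + s ^ 4 / 576 - s ^ 5 / 14400 := by
    simp only [h1, Finset.sum_range_succ, Finset.sum_range_zero, Nat.factorial]
    norm_num
    ring
  have h4 : (1 : ℝ) / 1000 < 1 - s + s ^ 2 / 4 - s ^ 3 / 36 + s ^ 4 / 576 - s ^ 5 / 14400 := by
    obtain ⟨t, ht⟩ : ∃ t, t = 36 / 25 - s := ⟨_, rfl⟩
    have ht0 : 0 ≤ t := by linarith
    have hst : s = 36 / 25 - t := by linarith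
    rw [hst]
    nlinarith [ht0, pow_nonneg ht0 2, pow_nonneg ht0 3, pow_nonneg ht0 4, pow_nonneg ht0 5]
  show 0 < ∑' k, t0 x k
  rw [h3] at h
  have h5 := (abs_le.1 h).1
  have h6 : (36 / 25 : ℝ) ^ 6 / 518400 < 1 / 10000 := by norm_num
  linarith

theorem J0_neg : J0 (5 / 2) < 0 := by
  have h := (tail (t0 (5 / 2)) 6 (t0_half (by norm_num))).2
  have h2 : |t0 (5 / 2) 6| ≤ 1 / 1000 := by
    rw [t0, abs_of_nonneg (by positivity)]
    norm_num [Nat.factorial]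
  have h3 : ∑ i ∈ Finset.range 6, t0 (5 / 2) i < -1 / 100 := by
    simp only [t0, Finset.sum_range_succ, Finset.sum_range_zero, Nat.factorial]
    norm_num
  show ∑' k, t0 (5 / 2) k < 0
  have h5 := (abs_le.1 h).2
  linarith

theorem J1_neg : J1 4 < 0 := by
  have h := (tail (t1 4) 7 (t1_half (by norm_num))).2
  have h2 : |t1 4 7| ≤ 1 / 1000 := by
    unfold t1
    norm_num [Nat.factorial, abs_of_neg]
  have h3 : ∑ i ∈ Finset.range 7, t1 4 i < -1 / 100 := by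
    simp only [t1, Finset.sum_range_succ, Finset.sum_range_zero, Nat.factorial]
    norm_num
  show ∑' k, t1 4 k < 0
  have h5 := (abs_le.1 h).2
  linarith

theorem J1_pos : 0 < J1 2 := by
  have h := (tail (t1 2) 2 (t1_half (by norm_num))).2
  have h2 : |t1 2 2| ≤ 1 / 10 := by
    rw [t1, abs_of_nonneg (by positivity)]
    norm_num [Nat.factorial]
  have h3 : (1 : ℝ) / 4 < ∑ i ∈ Finset.range 2, t1 2 i := by
    simp only [t1, Finset.sum_range_succ, Finset.sum_range_zero, Nat.factorial]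
    norm_num
  show 0 < ∑' k, t1 2 k
  have h5 := (abs_le.1 h).1
  linarith

theorem set_eq : {x : ℝ | 0 < x ∧ J0 x = 0} = {x : ℝ | 12 / 5 ≤ x ∧ J0 x = 0} := by
  ext x
  constructor
  · rintro ⟨h1, h2⟩
    refine ⟨?_, h2⟩
    by_contra h3
    push Not at h3
    exact absurd h2 (J0_pos h1.le h3.le).ne'
  · rintro ⟨h1, h2⟩
    exact ⟨by linarith, h2⟩

theorem closed : IsClosed {x : ℝ | 12 / 5 ≤ x ∧ J0 x = 0} :=
  (isClosed_le continuous_const continuous_id).inter (isClosed_eq cont_J0 continuous_const)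

theorem nonempty : {x : ℝ | 12 / 5 ≤ x ∧ J0 x = 0}.Nonempty := by
  rw [← set_eq]
  have h1 := intermediate_value_Icc' (by norm_num : (0 : ℝ) ≤ 5 / 2) cont_J0.continuousOn
  obtain ⟨c, hc, h⟩ := h1 ⟨J0_neg.le, by rw [J0_zero]; exact zero_le_one⟩
  refine ⟨c, lt_of_le_of_ne hc.1 ?_, h⟩
  rintro rfl
  rw [J0_zero] at h
  exact one_ne_zero h

theorem bdd : BddBelow {x : ℝ | 12 / 5 ≤ x ∧ J0 x = 0} := ⟨12 / 5, fun _ h => h.1⟩

theorem mem : j01 ∈ {x : ℝ | 12 / 5 ≤ x ∧ J0 x = 0} := by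
  rw [j01, set_eq]
  exact closed.csInf_mem nonempty bdd

end NumAux

theorem j01_pos : 0 < j01 := by
  have := NumAux.mem.1
  linarith

theorem J0_j01 : J0 j01 = 0 := NumAux.mem.2

theorem J0_pos_of_lt {x : ℝ} (h0 : 0 ≤ x) (hx : x < j01) : 0 < J0 x := by
  by_contra h
  push Not at h
  have h1 := intermediate_value_Icc' h0 NumAux.cont_J0.continuousOn
  obtain ⟨c, hc, h2⟩ := h1 ⟨h, by rw [NumAux.J0_zero]; exact zero_le_one⟩
  have hc0 : 0 < c := by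
    refine lt_of_le_of_ne hc.1 ?_
    rintro rfl
    rw [NumAux.J0_zero] at h2
    exact one_ne_zero h2
  have h3 : j01 ≤ c := csInf_le (by rw [NumAux.set_eq]; exact NumAux.bdd) ⟨hc0, h2⟩
  linarith [hc.2]

theorem j01_gt : 12 / 5 < j01 := by
  refine lt_of_le_of_ne NumAux.mem.1 fun h => ?_
  have h1 := NumAux.J0_pos (by norm_num) (le_refl (12 / 5 : ℝ))
  rw [h, J0_j01] at h1
  exact lt_irrefl _ h1

theorem j11_lt : j11 < 4 := by
  have h1 := intermediate_value_Ioo' (by norm_num : (2 : ℝ) ≤ 4) NumAux.cont_J1.continuousOn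
  obtain ⟨c, hc, h⟩ := h1 ⟨NumAux.J1_neg, NumAux.J1_pos⟩
  have h2 : j11 ≤ c := csInf_le ⟨0, fun x hx => hx.1.le⟩ ⟨by linarith [hc.1], h⟩
  linarith [hc.2]

theorem j11_nonneg : 0 ≤ j11 := Real.sInf_nonneg fun _ hx => hx.1.le

theorem j11_sq_lt : j11 ^ 2 < 3 * j01 ^ 2 := by
  have h1 := j11_lt
  have h2 := j11_nonneg
  have h3 := j01_gt
  nlinarith

end DK4
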