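import Pool.Agent.Lib.DK4.Loc

/-!
Module DK4.Sign: in a two-dimensional space of functions on which the energy on `S` is negative
there is a function whose positive and negative parts both have negative energy on `S`.

Proof.  `u_t = cos t · v + sin t · w`, `F t = ∫_{S ∩ {u_t > 0}} (|∇u_t|² - Λ u_t²)`.
`u_{t+π} = -u_t`, so `F (t+π)` is the energy of the negative part, and
`F t + F (t+π) = ∫_S (|∇u_t|² - Λ u_t²) < 0` because `∇u_t = 0` a.e. on `{u_t = 0}` (ae_fderiv_zero).
`F` is continuous at `t₀` by dominated convergence: for a.e. `z`, either `u_{t₀} z ≠ 0` and the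
indicator is eventually constant, or `u_{t₀} z = 0 = ∇u_{t₀} z` and the integrand tends to `0`
whatever the indicator does; domination by `C · 1_{K}` with `K` the union of the two compact supports.
If for no `t` both `F t < 0` and `F (t+π) < 0`, then `{F < 0}` and `{t | F (t+π) < 0}` are disjoint
open nonempty sets covering ℝ: contradiction with connectedness (PreconnectedSpace ℝ).
-/

open MeasureTheory Set
open scoped ContDiff

namespace DK4

namespace SignAux

/-- the function -/
noncomputable def uu (v w : ℂ → ℝ) (t : ℝ) (z : ℂ) : ℝ := Real.cos t * v z + Real.sin t * w z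

/-- the energy density -/
noncomputable def ee (Λ : ℝ) (v w : ℂ → ℝ) (t : ℝ) (z : ℂ) : ℝ :=
  ‖Real.cos t • fderiv ℝ v z + Real.sin t • fderiv ℝ w z‖ ^ 2 - Λ * (uu v w t z) ^ 2

/-- the dominating function -/
noncomputable def bd (Λ : ℝ) (v w : ℂ → ℝ) (z : ℂ) : ℝ :=
  (‖fderiv ℝ v z‖ + ‖fderiv ℝ w z‖) ^ 2 + |Λ| * (|v z| + |w z|) ^ 2

variable {Λ : ℝ} {v w : ℂ → ℝ}

theorem fderiv_comb (hv : ContDiff ℝ ∞ v) (hw : ContDiff ℝ ∞ w) (a b : ℝ) (z : ℂ) :
    fderiv ℝ (fun z => a * v z + b * w z) z = a • fderiv ℝ v z + b • fderiv ℝ w z := by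
  have h1 : DifferentiableAt ℝ v z := hv.differentiable (by simp) z
  have h2 : DifferentiableAt ℝ w z := hw.differentiable (by simp) z
  have h3 : HasFDerivAt (fun z => a * v z + b * w z) (a • fderiv ℝ v z + b • fderiv ℝ w z) z :=
    (h1.hasFDerivAt.const_mul a).add (h2.hasFDerivAt.const_mul b)
  exact h3.fderiv

theorem ee_eq (hv : ContDiff ℝ ∞ v) (hw : ContDiff ℝ ∞ w) (t : ℝ) (z : ℂ) :
    ‖fderiv ℝ (fun z => Real.cos t * v z + Real.sin t * w z) z‖ ^ 2
        - Λ * (Real.cos t * v z + Real.sin t * w z) ^ 2 = ee Λ v w t z := by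
  rw [fderiv_comb hv hw]
  rfl

theorem cont_uu_z (hv : ContDiff ℝ ∞ v) (hw : ContDiff ℝ ∞ w) (t : ℝ) :
    Continuous (uu v w t) :=
  (continuous_const.mul hv.continuous).add (continuous_const.mul hw.continuous)

theorem cont_uu_t (z : ℂ) : Continuous fun t => uu v w t z :=
  (Real.continuous_cos.mul continuous_const).add (Real.continuous_sin.mul continuous_const)

theorem cont_fd (hv : ContDiff ℝ ∞ v) : Continuous (fderiv ℝ v) :=
  hv.continuous_fderiv (by simp)

theorem cont_ee_z (hv : ContDiff ℝ ∞ v) (hw : ContDiff ℝ ∞ w) (t : ℝ) :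
    Continuous (ee Λ v w t) := by
  have h1 : Continuous fun z => Real.cos t • fderiv ℝ v z := (cont_fd hv).const_smul (Real.cos t)
  have h2 : Continuous fun z => Real.sin t • fderiv ℝ w z := (cont_fd hw).const_smul (Real.sin t)
  have h3 : Continuous fun z => ‖Real.cos t • fderiv ℝ v z + Real.sin t • fderiv ℝ w z‖ ^ 2 :=
    (h1.add h2).norm.pow 2
  have h4 : Continuous fun z => Λ * (uu v w t z) ^ 2 :=
    continuous_const.mul ((cont_uu_z hv hw t).pow 2)
  exact h3.sub h4

theorem ind_pos {t : ℝ} {z : ℂ} (h : uu v w t z ≤ 0) :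
    {z | 0 < uu v w t z}.indicator (ee Λ v w t) z = 0 := by
  have h1 : z ∉ {z | 0 < uu v w t z} := fun h' => absurd h' (not_lt.2 h)
  exact Set.indicator_of_notMem h1 _

theorem ind_neg {t : ℝ} {z : ℂ} (h : 0 ≤ uu v w t z) :
    {z | uu v w t z < 0}.indicator (ee Λ v w t) z = 0 := by
  have h1 : z ∉ {z | uu v w t z < 0} := fun h' => absurd h' (not_lt.2 h)
  exact Set.indicator_of_notMem h1 _

theorem cont_ee_t (z : ℂ) : Continuous fun t => ee Λ v w t z := by
  have h1 : Continuous fun t => Real.cos t • fderiv ℝ v z :=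
    Real.continuous_cos.smul continuous_const
  have h2 : Continuous fun t => Real.sin t • fderiv ℝ w z :=
    Real.continuous_sin.smul continuous_const
  have h3 : Continuous fun t => ‖Real.cos t • fderiv ℝ v z + Real.sin t • fderiv ℝ w z‖ ^ 2 :=
    (h1.add h2).norm.pow 2
  have h4 : Continuous fun t => Λ * (uu v w t z) ^ 2 :=
    continuous_const.mul ((cont_uu_t z).pow 2)
  exact h3.sub h4

theorem ee_le (t : ℝ) (z : ℂ) : |ee Λ v w t z| ≤ bd Λ v w z := by
  have h1 : ‖Real.cos t • fderiv ℝ v z + Real.sin t • fderiv ℝ w z‖ ≤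
      ‖fderiv ℝ v z‖ + ‖fderiv ℝ w z‖ := by
    refine (norm_add_le _ _).trans ?_
    rw [norm_smul, norm_smul, Real.norm_eq_abs, Real.norm_eq_abs]
    refine add_le_add ?_ ?_
    · calc |Real.cos t| * ‖fderiv ℝ v z‖ ≤ 1 * ‖fderiv ℝ v z‖ :=
            mul_le_mul_of_nonneg_right (Real.abs_cos_le_one t) (norm_nonneg _)
        _ = _ := one_mul _
    · calc |Real.sin t| * ‖fderiv ℝ w z‖ ≤ 1 * ‖fderiv ℝ w z‖ :=
            mul_le_mul_of_nonneg_right (Real.abs_sin_le_one t) (norm_nonneg _)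
        _ = _ := one_mul _
  have h2 : |uu v w t z| ≤ |v z| + |w z| := by
    refine (abs_add_le _ _).trans ?_
    rw [abs_mul, abs_mul]
    refine add_le_add ?_ ?_
    · calc |Real.cos t| * |v z| ≤ 1 * |v z| :=
            mul_le_mul_of_nonneg_right (Real.abs_cos_le_one t) (abs_nonneg _)
        _ = _ := one_mul _
    · calc |Real.sin t| * |w z| ≤ 1 * |w z| :=
            mul_le_mul_of_nonneg_right (Real.abs_sin_le_one t) (abs_nonneg _)
        _ = _ := one_mul _
  have h3 := pow_le_pow_left₀ (norm_nonneg _) h1 2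
  have h4 := pow_le_pow_left₀ (abs_nonneg _) h2 2
  unfold ee bd
  refine (abs_sub _ _).trans ?_
  rw [abs_of_nonneg (sq_nonneg ‖Real.cos t • fderiv ℝ v z + Real.sin t • fderiv ℝ w z‖), abs_mul,
    abs_pow]
  exact add_le_add h3 (mul_le_mul_of_nonneg_left h4 (abs_nonneg _))

theorem bd_nonneg (z : ℂ) : 0 ≤ bd Λ v w z := by
  unfold bd
  positivity

theorem bd_int (hv : ContDiff ℝ ∞ v) (hvc : HasCompactSupport v) (hw : ContDiff ℝ ∞ w)
    (hwc : HasCompactSupport w) : Integrable (bd Λ v w) := by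
  have hc : Continuous (bd Λ v w) :=
    (((cont_fd hv).norm.add (cont_fd hw).norm).pow 2).add
      (continuous_const.mul ((hv.continuous.abs.add hw.continuous.abs).pow 2))
  refine hc.integrable_of_hasCompactSupport ?_
  refine HasCompactSupport.intro (hvc.isCompact.union hwc.isCompact) ?_
  intro z hz
  have hz1 : z ∉ tsupport v := fun h => hz (Or.inl h)
  have hz2 : z ∉ tsupport w := fun h => hz (Or.inr h)
  have e1 : v z = 0 := image_eq_zero_of_notMem_tsupport hz1
  have e2 : w z = 0 := image_eq_zero_of_notMem_tsupport hz2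
  have e3 : fderiv ℝ v z = 0 := by
    by_contra h
    exact hz1 (support_fderiv_subset ℝ h)
  have e4 : fderiv ℝ w z = 0 := by
    by_contra h
    exact hz2 (support_fderiv_subset ℝ h)
  unfold bd
  rw [e1, e2, e3, e4]
  simp

theorem ee_int (hv : ContDiff ℝ ∞ v) (hvc : HasCompactSupport v) (hw : ContDiff ℝ ∞ w)
    (hwc : HasCompactSupport w) (t : ℝ) : Integrable (ee Λ v w t) :=
  Integrable.mono' (bd_int (Λ := Λ) hv hvc hw hwc) (cont_ee_z hv hw t).aestronglyMeasurable
    (Filter.Eventually.of_forall fun z => ee_le t z)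

theorem adm_uu (hv : ContDiff ℝ ∞ v) (hvc : HasCompactSupport v) (hw : ContDiff ℝ ∞ w)
    (hwc : HasCompactSupport w) (t : ℝ) : Adm (uu v w t) := by
  refine IsTest.adm (Ω := Set.univ) ⟨?_, ?_, Set.subset_univ _⟩
  · exact (contDiff_const.mul hv).add (contDiff_const.mul hw)
  · refine HasCompactSupport.intro (hvc.isCompact.union hwc.isCompact) ?_
    intro z hz
    have hz1 : z ∉ tsupport v := fun h => hz (Or.inl h)
    have hz2 : z ∉ tsupport w := fun h => hz (Or.inr h)
    have e1 : v z = 0 := image_eq_zero_of_notMem_tsupport hz1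
    have e2 : w z = 0 := image_eq_zero_of_notMem_tsupport hz2
    unfold uu
    rw [e1, e2, mul_zero, mul_zero, add_zero]

theorem ae_ee_zero (hv : ContDiff ℝ ∞ v) (hvc : HasCompactSupport v) (hw : ContDiff ℝ ∞ w)
    (hwc : HasCompactSupport w) (t : ℝ) : ∀ᵐ z, uu v w t z = 0 → ee Λ v w t z = 0 := by
  filter_upwards [(adm_uu hv hvc hw hwc t).ae_fderiv_zero] with z hz h0
  have h1 := hz h0
  have h2 : fderiv ℝ (uu v w t) z = Real.cos t • fderiv ℝ v z + Real.sin t • fderiv ℝ w z :=
    fderiv_comb hv hw _ _ z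
  unfold ee
  rw [← h2, h1, h0]
  simp

/-- the energy of the positive part -/
noncomputable def FF (Λ : ℝ) (S : Set ℂ) (v w : ℂ → ℝ) (t : ℝ) : ℝ :=
  ∫ z in S, {z | 0 < uu v w t z}.indicator (ee Λ v w t) z

theorem meas_pos (hv : ContDiff ℝ ∞ v) (hw : ContDiff ℝ ∞ w) (t : ℝ) :
    MeasurableSet {z | 0 < uu v w t z} :=
  (isOpen_lt continuous_const (cont_uu_z hv hw t)).measurableSet

theorem meas_neg (hv : ContDiff ℝ ∞ v) (hw : ContDiff ℝ ∞ w) (t : ℝ) :
    MeasurableSet {z | uu v w t z < 0} :=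
  (isOpen_lt (cont_uu_z hv hw t) continuous_const).measurableSet

theorem ind_le (s : Set ℂ) (t : ℝ) (z : ℂ) :
    ‖s.indicator (ee Λ v w t) z‖ ≤ |ee Λ v w t z| := by
  by_cases h : z ∈ s
  · rw [Set.indicator_of_mem h, Real.norm_eq_abs]
  · rw [Set.indicator_of_notMem h, norm_zero]
    exact abs_nonneg _

theorem cont_FF (S : Set ℂ) (hv : ContDiff ℝ ∞ v) (hvc : HasCompactSupport v)
    (hw : ContDiff ℝ ∞ w) (hwc : HasCompactSupport w) : Continuous (FF Λ S v w) := by
  rw [continuous_iff_continuousAt]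
  intro t₀
  unfold FF
  refine MeasureTheory.continuousAt_of_dominated (bound := bd Λ v w) ?_ ?_ ?_ ?_
  · exact Filter.Eventually.of_forall fun t =>
      (((cont_ee_z hv hw t).measurable.indicator (meas_pos hv hw t)).aestronglyMeasurable)
  · exact Filter.Eventually.of_forall fun t => Filter.Eventually.of_forall fun z =>
      (ind_le _ t z).trans (ee_le t z)
  · exact (bd_int hv hvc hw hwc).restrict
  · refine ae_restrict_of_ae ?_
    filter_upwards [ae_ee_zero (Λ := Λ) hv hvc hw hwc t₀] with z hz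
    rcases lt_trichotomy (uu v w t₀ z) 0 with h | h | h
    · have h1 : ∀ᶠ t in nhds t₀, uu v w t z < 0 :=
        (cont_uu_t z).continuousAt.eventually_lt continuousAt_const h
      have h2 : (fun t => {z | 0 < uu v w t z}.indicator (ee Λ v w t) z) =ᶠ[nhds t₀]
          fun _ => 0 := by
        filter_upwards [h1] with t ht
        exact ind_pos ht.le
      exact continuousAt_const.congr h2.symm
    · have h0 := hz h
      have hval : {z | 0 < uu v w t₀ z}.indicator (ee Λ v w t₀) z = 0 := ind_pos h.le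
      change Filter.Tendsto (fun x => {z | 0 < uu v w x z}.indicator (ee Λ v w x) z) (nhds t₀)
        (nhds ({z | 0 < uu v w t₀ z}.indicator (ee Λ v w t₀) z))
      rw [hval]
      refine squeeze_zero_norm (fun t => ind_le _ t z) ?_
      have h3 := ((cont_ee_t (Λ := Λ) (v := v) (w := w) z).abs).continuousAt (x := t₀)
      change Filter.Tendsto (fun x => |ee Λ v w x z|) (nhds t₀) (nhds |ee Λ v w t₀ z|) at h3
      rw [h0, abs_zero] at h3
      exact h3
    · have h1 : ∀ᶠ t in nhds t₀, 0 < uu v w t z :=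
        continuousAt_const.eventually_lt (cont_uu_t z).continuousAt h
      have h2 : (fun t => {z | 0 < uu v w t z}.indicator (ee Λ v w t) z) =ᶠ[nhds t₀]
          fun t => ee Λ v w t z := by
        filter_upwards [h1] with t ht
        exact Set.indicator_of_mem (show z ∈ {z | 0 < uu v w t z} from ht) _
      exact (cont_ee_t z).continuousAt.congr h2.symm

theorem FF_eq (S : Set ℂ) (hv : ContDiff ℝ ∞ v) (hw : ContDiff ℝ ∞ w) (t : ℝ) :
    FF Λ S v w t = ∫ z in S ∩ {z | 0 < uu v w t z}, ee Λ v w t z :=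
  setIntegral_indicator (meas_pos hv hw t)

theorem uu_pi (t : ℝ) (z : ℂ) : uu v w (t + Real.pi) z = -uu v w t z := by
  unfold uu
  rw [Real.cos_add_pi, Real.sin_add_pi]
  ring

theorem ee_pi (t : ℝ) (z : ℂ) : ee Λ v w (t + Real.pi) z = ee Λ v w t z := by
  unfold ee
  rw [uu_pi, Real.cos_add_pi, Real.sin_add_pi, neg_smul, neg_smul, ← neg_add, norm_neg, neg_sq]

theorem FF_pi (S : Set ℂ) (hv : ContDiff ℝ ∞ v) (hw : ContDiff ℝ ∞ w) (t : ℝ) :
    FF Λ S v w (t + Real.pi) = ∫ z in S ∩ {z | uu v w t z < 0}, ee Λ v w t z := by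
  rw [FF_eq S hv hw]
  have h1 : {z | 0 < uu v w (t + Real.pi) z} = {z | uu v w t z < 0} := by
    ext z
    change 0 < uu v w (t + Real.pi) z ↔ uu v w t z < 0
    rw [uu_pi]
    exact neg_pos
  have h2 : ee Λ v w (t + Real.pi) = ee Λ v w t := funext fun z => ee_pi t z
  rw [h1, h2]

theorem FF_add (S : Set ℂ) (hv : ContDiff ℝ ∞ v) (hvc : HasCompactSupport v)
    (hw : ContDiff ℝ ∞ w) (hwc : HasCompactSupport w) (t : ℝ) :
    FF Λ S v w t + FF Λ S v w (t + Real.pi) = ∫ z in S, ee Λ v w t z := by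
  rw [FF_pi S hv hw, ← setIntegral_indicator (meas_neg hv hw t)]
  unfold FF
  have hi := (ee_int (Λ := Λ) hv hvc hw hwc t)
  rw [← integral_add]
  · refine integral_congr_ae (ae_restrict_of_ae ?_)
    filter_upwards [ae_ee_zero (Λ := Λ) hv hvc hw hwc t] with z hz
    rcases lt_trichotomy (uu v w t z) 0 with h | h | h
    · have e1 : {z | 0 < uu v w t z}.indicator (ee Λ v w t) z = 0 := ind_pos h.le
      have e2 : {z | uu v w t z < 0}.indicator (ee Λ v w t) z = ee Λ v w t z :=
        Set.indicator_of_mem (show z ∈ {z | uu v w t z < 0} from h) _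
      change {z | 0 < uu v w t z}.indicator (ee Λ v w t) z +
        {z | uu v w t z < 0}.indicator (ee Λ v w t) z = _
      rw [e1, e2, zero_add]
    · have e0 := hz h
      have e1 : {z | 0 < uu v w t z}.indicator (ee Λ v w t) z = 0 := ind_pos h.le
      have e2 : {z | uu v w t z < 0}.indicator (ee Λ v w t) z = 0 := ind_neg h.ge
      change {z | 0 < uu v w t z}.indicator (ee Λ v w t) z +
        {z | uu v w t z < 0}.indicator (ee Λ v w t) z = _
      rw [e1, e2, zero_add, e0]
    · have e2 : {z | uu v w t z < 0}.indicator (ee Λ v w t) z = 0 := ind_neg h.le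
      have e1 : {z | 0 < uu v w t z}.indicator (ee Λ v w t) z = ee Λ v w t z :=
        Set.indicator_of_mem (show z ∈ {z | 0 < uu v w t z} from h) _
      change {z | 0 < uu v w t z}.indicator (ee Λ v w t) z +
        {z | uu v w t z < 0}.indicator (ee Λ v w t) z = _
      rw [e1, e2, add_zero]
  · exact (hi.indicator (meas_pos hv hw t)).restrict
  · exact (hi.indicator (meas_neg hv hw t)).restrict

end SignAux

open SignAux in
theorem sign_trick {Λ : ℝ} {S : Set ℂ} (hS : MeasurableSet S) {v w : ℂ → ℝ}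
    (hv : ContDiff ℝ ∞ v) (hvc : HasCompactSupport v) (hw : ContDiff ℝ ∞ w)
    (hwc : HasCompactSupport w)
    (hneg : ∀ a b : ℝ, ¬(a = 0 ∧ b = 0) →
      ∫ z in S, (‖fderiv ℝ (fun z => a * v z + b * w z) z‖ ^ 2
        - Λ * (a * v z + b * w z) ^ 2) < 0) :
    ∃ a b : ℝ, ¬(a = 0 ∧ b = 0) ∧
      ∫ z in S ∩ {z | 0 < a * v z + b * w z},
        (‖fderiv ℝ (fun z => a * v z + b * w z) z‖ ^ 2 - Λ * (a * v z + b * w z) ^ 2) < 0 ∧
      ∫ z in S ∩ {z | a * v z + b * w z < 0},
        (‖fderiv ℝ (fun z => a * v z + b * w z) z‖ ^ 2 - Λ * (a * v z + b * w z) ^ 2) < 0 := by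
  have hne : ∀ t : ℝ, ¬(Real.cos t = 0 ∧ Real.sin t = 0) := by
    rintro t ⟨h1, h2⟩
    have := Real.sin_sq_add_cos_sq t
    rw [h1, h2] at this
    norm_num at this
  have hsum : ∀ t, FF Λ S v w t + FF Λ S v w (t + Real.pi) < 0 := by
    intro t
    rw [FF_add S hv hvc hw hwc]
    have h1 := hneg _ _ (hne t)
    have h2 : (fun z => ‖fderiv ℝ (fun z => Real.cos t * v z + Real.sin t * w z) z‖ ^ 2
        - Λ * (Real.cos t * v z + Real.sin t * w z) ^ 2) = fun z => ee Λ v w t z :=
      funext fun z => ee_eq hv hw t z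
    rw [h2] at h1
    exact h1
  have hF := cont_FF (Λ := Λ) S hv hvc hw hwc
  have hG : Continuous fun t => FF Λ S v w (t + Real.pi) :=
    hF.comp (continuous_id.add continuous_const)
  have hU : IsOpen {t | FF Λ S v w t < 0} := isOpen_lt hF continuous_const
  have hW : IsOpen {t | FF Λ S v w (t + Real.pi) < 0} := isOpen_lt hG continuous_const
  have hcov : (Set.univ : Set ℝ) ⊆ {t | FF Λ S v w t < 0} ∪ {t | FF Λ S v w (t + Real.pi) < 0} := by
    intro t _
    by_contra h
    rw [Set.mem_union, not_or] at h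
    have h1 : ¬ FF Λ S v w t < 0 := h.1
    have h2 : ¬ FF Λ S v w (t + Real.pi) < 0 := h.2
    have h3 := hsum t
    push Not at h1 h2
    linarith
  have hne1 : (Set.univ ∩ {t | FF Λ S v w t < 0}).Nonempty := by
    rcases hcov (Set.mem_univ (0 : ℝ)) with h | h
    · exact ⟨0, Set.mem_univ _, h⟩
    · exact ⟨0 + Real.pi, Set.mem_univ _, h⟩
  have hne2 : (Set.univ ∩ {t | FF Λ S v w (t + Real.pi) < 0}).Nonempty := by
    obtain ⟨t, _, ht⟩ := hne1
    refine ⟨t - Real.pi, Set.mem_univ _, ?_⟩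
    change FF Λ S v w (t - Real.pi + Real.pi) < 0
    rw [sub_add_cancel]
    exact ht
  obtain ⟨t, _, h1, h2⟩ := isPreconnected_univ _ _ hU hW hcov hne1 hne2
  refine ⟨Real.cos t, Real.sin t, hne t, ?_, ?_⟩
  · have h3 : FF Λ S v w t < 0 := h1
    rw [FF_eq S hv hw] at h3
    have e : (fun z => ‖fderiv ℝ (fun z => Real.cos t * v z + Real.sin t * w z) z‖ ^ 2
        - Λ * (Real.cos t * v z + Real.sin t * w z) ^ 2) = fun z => ee Λ v w t z :=
      funext fun z => ee_eq hv hw t z
    rw [e]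
    exact h3
  · have h3 : FF Λ S v w (t + Real.pi) < 0 := h2
    rw [FF_pi S hv hw] at h3
    have e : (fun z => ‖fderiv ℝ (fun z => Real.cos t * v z + Real.sin t * w z) z‖ ^ 2
        - Λ * (Real.cos t * v z + Real.sin t * w z) ^ 2) = fun z => ee Λ v w t z :=
      funext fun z => ee_eq hv hw t z
    rw [e]
    exact h3

end DK4
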