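import Pool.Agent.Lib.DK4.Strip
import Pool.Agent.Lib.DK4.Sign
import Pool.Agent.Lib.DK4.Num

/-!
Module DK4.Cases (helper65): the three analytic inputs `A1`, `A2`, `A3`.
-/

open MeasureTheory Set Metric
open scoped ContDiff NNReal

namespace DK4

/-- abbreviation for the energy density -/
noncomputable def den (Λ : ℝ) (u : ℂ → ℝ) (z : ℂ) : ℝ := ‖fderiv ℝ u z‖ ^ 2 - Λ * u z ^ 2

theorem den_int {Λ : ℝ} {u : ℂ → ℝ} (hu : Adm u) : Integrable (den Λ u) :=
  hu.integrable_en.sub (hu.integrable_sq.const_mul Λ)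

theorem L_pos : 0 < Real.pi * j01 ^ 2 := by
  have := j01_pos
  have := Real.pi_pos
  positivity

/-- Faber-Krahn on the part of `{u > 0}` inside `S` -/
theorem part_fk {Λ : ℝ} {u : ℂ → ℝ} (hu : Adm u) {S : Set ℂ} (hS : IsOpen S)
    (hfr : ∀ z ∈ frontier S, u z = 0) (hneg : ∫ z in S ∩ {z | 0 < u z}, den Λ u z < 0) :
    Real.pi * j01 ^ 2 ≤ Λ * volume.real (S ∩ {z | 0 < u z}) := by
  have hp := hu.pos
  have h0 : ∀ z, 0 ≤ max (u z) 0 := fun z => le_max_right _ _
  have hfr' : ∀ z ∈ frontier S, max (u z) 0 = 0 := fun z hz => by rw [hfr z hz, max_self]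
  have hadm : Adm (S.indicator fun z => max (u z) 0) := hp.ind hfr'
  have e1 := q_ind (Λ := Λ) hp h0 hS hfr'
  have hm : MeasurableSet {z | 0 < u z} := (isOpen_lt continuous_const hu.continuous).measurableSet
  have e2 : ∫ z in S, (‖fderiv ℝ (fun z => max (u z) 0) z‖ ^ 2 - Λ * (max (u z) 0) ^ 2) =
      ∫ z in S ∩ {z | 0 < u z}, den Λ u z := by
    rw [← setIntegral_indicator hm]
    apply setIntegral_congr_fun hS.measurableSet
    intro z _
    simp only [fderiv_pos hu.continuous]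
    by_cases hz : 0 < u z
    · have hz' : z ∈ {z | 0 < u z} := hz
      rw [indicator_of_mem hz', indicator_of_mem hz', max_eq_left hz.le]
      rfl
    · have hz' : z ∉ {z | 0 < u z} := hz
      rw [indicator_of_notMem hz', indicator_of_notMem hz', max_eq_right (not_lt.1 hz)]
      simp
  have hq : q Λ (S.indicator fun z => max (u z) 0) < 0 := by
    rw [e1, e2]; exact hneg
  have h := FK4.fk hadm (fun z => by
    by_cases hz : z ∈ S
    · rw [indicator_of_mem hz]; exact h0 z
    · rw [indicator_of_notMem hz]) hq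
  have e3 : {z | 0 < S.indicator (fun z => max (u z) 0) z} = S ∩ {z | 0 < u z} := by
    ext z
    by_cases hz : z ∈ S
    · simp [hz]
    · simp [hz]
  rwa [e3] at h

theorem two_indep {M : Submodule ℝ (ℂ → ℝ)} (h : 2 ≤ Module.finrank ℝ M) :
    ∃ v ∈ M, ∃ w ∈ M, ∀ a b : ℝ, ¬(a = 0 ∧ b = 0) →
      (fun z => a * v z + b * w z) ∈ M ∧ (fun z => a * v z + b * w z) ≠ 0 := by
  obtain ⟨f, hf⟩ := exists_linearIndependent_of_le_finrank h
  refine ⟨f 0, (f 0).2, f 1, (f 1).2, fun a b hab => ⟨?_, ?_⟩⟩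
  · exact M.add_mem (M.smul_mem a (f 0).2) (M.smul_mem b (f 1).2)
  · intro h0
    apply hab
    have h1 : a • f 0 + b • f 1 = 0 := by
      apply Subtype.ext
      exact h0
    have hf' : LinearIndependent ℝ ![f 0, f 1] := by
      convert hf using 1
      ext i
      fin_cases i <;> rfl
    exact LinearIndependent.pair_iff.1 hf' a b h1

theorem q_eq_den {Λ : ℝ} {u : ℂ → ℝ} (hu : Adm u) : q Λ u = ∫ z, den Λ u z := q_eq_integral hu

/-- `A1`: functions odd under conjugation -/
theorem odd_le_one {k : ℕ} {Ω : Set ℂ} (hΩo : IsOpen Ω) (hΩ : DSym k Ω) (hfin : volume Ω ≠ ⊤)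
    {Λ : ℝ} (hΛ : Λ * volume.real Ω < 4 * (Real.pi * j01 ^ 2))
    (M : Submodule ℝ (ℂ → ℝ)) (hM : ∀ u ∈ M, IsTest Ω u)
    (hodd : ∀ u ∈ M, ∀ z, u ((starRingEnd ℂ) z) = -u z) (hneg : ∀ u ∈ M, u ≠ 0 → q Λ u < 0) :
    Module.finrank ℝ M ≤ 1 := by
  by_contra hcon
  obtain ⟨v, hv, w, hw, hvw⟩ := two_indep (M := M) (by omega)
  set H : Set ℂ := {z | 0 < z.im} with hH
  have hHo : IsOpen H := isOpen_lt continuous_const Complex.continuous_im
  have hHm := hHo.measurableSet
  -- energy on the half plane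
  have half : ∀ u ∈ M, q Λ u = 2 * ∫ z in H, den Λ u z := by
    intro u hu
    have hadm := (hM u hu).adm
    rw [q_eq_den hadm]
    have hden : ∀ z, den Λ u ((starRingEnd ℂ) z) = den Λ u z := by
      intro z
      unfold den
      have h1 := fderiv_conj u z
      have h2 : (fun z => u ((starRingEnd ℂ) z)) = fun z => -u z := by
        funext z; exact hodd u hu z
      rw [h2, fderiv_fun_neg, norm_neg] at h1
      rw [← h1, hodd u hu z, neg_sq]
    have hint := den_int (Λ := Λ) hadm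
    rw [← integral_add_compl hHm hint]
    have hm2 : MeasurableSet {z : ℂ | z.im < 0} :=
      (isOpen_lt Complex.continuous_im continuous_const).measurableSet
    have e1 : ∫ z in Hᶜ, den Λ u z = ∫ z in {z : ℂ | z.im < 0}, den Λ u z := by
      have e2 : ∫ z in Hᶜ, den Λ u z = ∫ z in Hᶜ, {z : ℂ | z.im < 0}.indicator (den Λ u) z := by
        apply setIntegral_congr_ae hHm.compl
        filter_upwards [hadm.ae_fderiv_zero] with z hz hzH
        by_cases hlt : z.im < 0
        · rw [indicator_of_mem (show z ∈ {z : ℂ | z.im < 0} from hlt)]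
        · rw [indicator_of_notMem (show z ∉ {z : ℂ | z.im < 0} from hlt)]
          have h3 : z.im = 0 := le_antisymm (not_lt.1 hzH) (not_lt.1 hlt)
          have h4 : (starRingEnd ℂ) z = z := by
            apply Complex.ext
            · simp
            · simp [h3]
          have h5 : u z = 0 := by
            have := hodd u hu z
            rw [h4] at this
            linarith
          unfold den
          rw [hz h5, h5]; simp
      rw [e2, setIntegral_indicator hm2]
      congr 2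
      ext z
      simp only [hH, mem_inter_iff, mem_compl_iff, mem_setOf_eq, not_lt, and_iff_right_iff_imp]
      exact fun h => h.le
    have e3 : ∫ z in {z : ℂ | z.im < 0}, den Λ u z = ∫ z in H, den Λ u z := by
      have hmp : MeasurePreserving (fun z : ℂ => (starRingEnd ℂ) z) volume volume :=
        Complex.conjLIE.measurePreserving
      have hemb : MeasurableEmbedding (fun z : ℂ => (starRingEnd ℂ) z) :=
        Complex.conjLIE.toHomeomorph.measurableEmbedding
      have := hmp.setIntegral_preimage_emb hemb (den Λ u) {z : ℂ | z.im < 0}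
      rw [← this]
      have e4 : (fun z : ℂ => (starRingEnd ℂ) z) ⁻¹' {z : ℂ | z.im < 0} = H := by
        ext z; simp [hH]
      rw [e4]
      exact setIntegral_congr_fun hHm fun z _ => hden z
    rw [e1, e3]; ring
  obtain ⟨a, b, hab, h1, h2⟩ := sign_trick (Λ := Λ) (S := H) hHm (hM v hv).1 (hM v hv).2.1
    (hM w hw).1 (hM w hw).2.1 (fun a b hab => by
      obtain ⟨hm, hne⟩ := hvw a b hab
      have h1 := half _ hm
      have h2 := hneg _ hm hne
      rw [h1] at h2
      have : ∫ z in H, den Λ (fun z => a * v z + b * w z) z < 0 := by linarith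
      exact this)
  set u : ℂ → ℝ := fun z => a * v z + b * w z with hu
  obtain ⟨hm, hne⟩ := hvw a b hab
  have hadm := (hM u hm).adm
  have hfr : ∀ z ∈ frontier H, u z = 0 := by
    intro z hz
    have h3 : z.im = 0 := by
      have := frontier_lt_subset_eq continuous_const Complex.continuous_im hz
      exact this.symm
    have h4 : (starRingEnd ℂ) z = z := by
      apply Complex.ext
      · simp
      · simp [h3]
    have := hodd u hm z
    rw [h4] at this
    linarith
  have f1 := part_fk (Λ := Λ) hadm hHo hfr h1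
  have f2 := part_fk (Λ := Λ) hadm.neg hHo (fun z hz => by rw [hfr z hz, neg_zero]) (by
    have e : ∫ z in H ∩ {z | 0 < -u z}, den Λ (fun z => -u z) z =
        ∫ z in H ∩ {z | u z < 0}, den Λ u z := by
      have e1 : {z | 0 < -u z} = {z | u z < 0} := by ext z; simp
      rw [e1]
      congr 1
      funext z
      unfold den
      rw [fderiv_fun_neg, norm_neg, neg_sq]
    rw [e]
    exact h2)
  have hsuppΩ : ∀ z, u z ≠ 0 → z ∈ Ω := fun z hz =>
    (hM u hm).2.2 (subset_tsupport u hz)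
  -- volumes
  have hHΩ : 2 * volume.real (H ∩ Ω) ≤ volume.real Ω := by
    have e1 : volume ((fun z : ℂ => (starRingEnd ℂ) z) ⁻¹' (H ∩ Ω)) = volume (H ∩ Ω) := vol_conj _
    set H' := (fun z : ℂ => (starRingEnd ℂ) z) ⁻¹' (H ∩ Ω)
    have hd : Disjoint (H ∩ Ω) H' := by
      rw [Set.disjoint_left]
      rintro z ⟨hz1, -⟩ ⟨hz2, -⟩
      have h3 : 0 < z.im := hz1
      have h4 : 0 < ((starRingEnd ℂ) z).im := hz2
      rw [Complex.conj_im] at h4
      linarith
    have hHΩm : MeasurableSet (H ∩ Ω) := hHm.inter hΩo.measurableSet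
    have hH'm : MeasurableSet H' := hHΩm.preimage (Complex.continuous_conj.measurable)
    have hsub : (H ∩ Ω) ∪ H' ⊆ Ω := by
      rintro z (⟨-, hz⟩ | ⟨-, hz⟩)
      · exact hz
      · have := (hΩ _ hz).2
        rwa [Complex.conj_conj] at this
    have hf1 : volume (H ∩ Ω) ≠ ⊤ := ne_top_of_le_ne_top hfin (measure_mono inter_subset_right)
    have hf2 : volume H' ≠ ⊤ := by rw [e1]; exact hf1
    have h5 : volume.real ((H ∩ Ω) ∪ H') = volume.real (H ∩ Ω) + volume.real H' :=
      measureReal_union hd hH'm hf1 hf2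
    have h6 : volume.real H' = volume.real (H ∩ Ω) := by
      unfold Measure.real; rw [e1]
    have h7 := measureReal_mono hsub hfin
    rw [h5, h6] at h7
    linarith
  have hsum : volume.real (H ∩ {z | 0 < u z}) + volume.real (H ∩ {z | 0 < -u z}) ≤
      volume.real (H ∩ Ω) := by
    have hd : Disjoint (H ∩ {z | 0 < u z}) (H ∩ {z | 0 < -u z}) := by
      rw [Set.disjoint_left]
      rintro z ⟨-, hz1⟩ ⟨-, hz2⟩
      have h3 : 0 < u z := hz1
      have h4 : 0 < -u z := hz2
      linarith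
    have hm2 : MeasurableSet (H ∩ {z | 0 < -u z}) :=
      hHm.inter (isOpen_lt continuous_const hadm.neg.continuous).measurableSet
    have hf0 : volume (H ∩ Ω) ≠ ⊤ := ne_top_of_le_ne_top hfin (measure_mono inter_subset_right)
    have s1 : H ∩ {z | 0 < u z} ⊆ H ∩ Ω := fun z hz => ⟨hz.1, hsuppΩ z (ne_of_gt hz.2)⟩
    have s2 : H ∩ {z | 0 < -u z} ⊆ H ∩ Ω := fun z hz => ⟨hz.1, hsuppΩ z (by
      have h4 : 0 < -u z := hz.2
      linarith)⟩
    rw [← measureReal_union hd hm2 (ne_top_of_le_ne_top hf0 (measure_mono s1))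
      (ne_top_of_le_ne_top hf0 (measure_mono s2))]
    exact measureReal_mono (union_subset s1 s2) hf0
  have hL := L_pos
  have hΛ0 : 0 < Λ := by
    by_contra hle
    have : Λ * volume.real (H ∩ {z | 0 < u z}) ≤ 0 :=
      mul_nonpos_of_nonpos_of_nonneg (not_lt.1 hle) measureReal_nonneg
    linarith
  nlinarith [mul_le_mul_of_nonneg_left hsum hΛ0.le, mul_le_mul_of_nonneg_left hHΩ hΛ0.le]


theorem Adm.abs {u : ℂ → ℝ} (hu : Adm u) : Adm (fun z => |u z|) := by
  obtain ⟨K, hK⟩ := hu.lip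
  refine ⟨⟨K, LipschitzWith.of_dist_le_mul fun x y => ?_⟩, ?_⟩
  · refine le_trans ?_ (hK.dist_le_mul x y)
    rw [Real.dist_eq, Real.dist_eq]
    exact abs_abs_sub_abs_le_abs_sub _ _
  · apply hu.cpt.mono
    intro z hz
    rw [Function.mem_support] at hz ⊢
    exact fun h => hz (by simp [h])

theorem q_abs {Λ : ℝ} {u : ℂ → ℝ} (hu : Adm u) : q Λ (fun z => |u z|) = q Λ u := by
  unfold q
  congr 1
  · apply integral_congr_ae
    filter_upwards [hu.ae_fderiv_zero] with z hz
    rcases lt_trichotomy (u z) 0 with h | h | h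
    · have e : (fun z => |u z|) =ᶠ[nhds z] fun z => -u z := by
        filter_upwards [(isOpen_lt hu.continuous continuous_const).mem_nhds h] with w hw
        exact abs_of_neg hw
      rw [e.fderiv_eq, fderiv_fun_neg, norm_neg]
    · rw [hz h, fderiv_zero_of_nonneg (fun z => abs_nonneg _) (by rw [h, abs_zero])]
    · have e : (fun z => |u z|) =ᶠ[nhds z] fun z => u z := by
        filter_upwards [(isOpen_lt continuous_const hu.continuous).mem_nhds h] with w hw
        exact abs_of_pos hw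
      rw [e.fderiv_eq]
  · simp only [sq_abs]

/-- a component of `{f > 0}` with negative energy satisfies Faber-Krahn -/
theorem comp_fk {Λ : ℝ} {f : ℂ → ℝ} (hf : Adm f) (h0 : ∀ z, 0 ≤ f z) {W : Set ℂ}
    (hW : IsComp {z | 0 < f z} W) (hq : q Λ (W.indicator f) < 0) :
    Adm (W.indicator f) ∧ {z | 0 < W.indicator f z} = W ∧
      Real.pi * j01 ^ 2 ≤ Λ * volume.real W := by
  have hU : IsOpen {z | 0 < f z} := isOpen_lt continuous_const hf.continuous
  obtain ⟨hWo, hWc, hWU, hWf⟩ := comp_facts hU hW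
  have hadm : Adm (W.indicator f) := hf.ind (fun z hz =>
    le_antisymm (not_lt.1 (hWf z hz)) (h0 z))
  have he : {z | 0 < W.indicator f z} = W := by
    ext z
    by_cases hz : z ∈ W
    · have : 0 < f z := hWU hz
      simp [hz, this]
    · simp [hz]
  have h := FK4.fk hadm (fun z => by
    by_cases hz : z ∈ W
    · rw [indicator_of_mem hz]; exact h0 z
    · rw [indicator_of_notMem hz]) hq
  rw [he] at h
  exact ⟨hadm, he, h⟩

theorem L_le_pos {Λ x : ℝ} (hx : 0 ≤ x) (h : Real.pi * j01 ^ 2 ≤ Λ * x) : 0 < Λ := by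
  by_contra hle
  have := mul_nonpos_of_nonpos_of_nonneg (not_lt.1 hle) hx
  have := L_pos
  linarith

theorem sum_pow_zero {ζ : ℂ} {k : ℕ} (hζ : ζ ^ k = 1) (h1 : ζ ≠ 1) :
    ∑ i ∈ Finset.range k, ζ ^ i = 0 := by
  have := geom_sum_mul ζ k
  rw [hζ, sub_self] at this
  rcases mul_eq_zero.1 this with h | h
  · exact h
  · exact absurd (sub_eq_zero.1 h) h1

/-- `A2`: functions even under conjugation and odd under the rotation -/
theorem antirot {k : ℕ} (hk : 3 ≤ k) {Ω : Set ℂ} (hfin : volume Ω ≠ ⊤)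
    {Λ : ℝ} (hΛ : Λ * volume.real Ω < 4 * (Real.pi * j01 ^ 2))
    (u : ℂ → ℝ) (hu : IsTest Ω u) (heven : ∀ z, u ((starRingEnd ℂ) z) = u z)
    (hrot : ∀ z, u (rot k * z) = -u z) : 0 ≤ q Λ u := by
  by_contra hcon
  rw [not_le] at hcon
  have hk0 : 0 < k := by omega
  have hadm := hu.adm
  have habs := hadm.abs
  have hq : q Λ (fun z => |u z|) < 0 := by rw [q_abs hadm]; exact hcon
  have h0 : ∀ z, 0 ≤ |u z| := fun z => abs_nonneg _
  obtain ⟨W, hW, hqW⟩ := exists_comp_neg habs h0 hq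
  obtain ⟨-, -, hL⟩ := comp_fk habs h0 hW hqW
  have hU : IsOpen {z | 0 < |u z|} := isOpen_lt continuous_const habs.continuous
  have hUs : CSym k {z | 0 < |u z|} := fun z (hz : 0 < |u z|) => by
    show 0 < |u (rot k * z)|
    rw [hrot, abs_neg]; exact hz
  have hUΩ : {z | 0 < |u z|} ⊆ Ω := fun z hz => hu.2.2 (subset_tsupport u (abs_pos.1 hz))
  obtain ⟨hWo, hWc, hWU, hWf⟩ := comp_facts hU hW
  -- k is at least 4
  have hpow : ∀ (j : ℕ) z, u (rot k ^ j * z) = (-1) ^ j * u z := by
    intro j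
    induction j with
    | zero => intro z; simp
    | succ j ih =>
      intro z
      rw [pow_succ', mul_assoc, hrot, ih]; ring
  have hk4 : 4 ≤ k := by
    by_contra hlt
    have hk3 : k = 3 := by omega
    obtain ⟨z, hz⟩ := hWc.nonempty
    have h1 := hpow k z
    rw [rot_pow hk0, one_mul, hk3] at h1
    have h2 : u z = 0 := by linarith
    have h3 : 0 < |u z| := hWU hz
    rw [h2, abs_zero] at h3
    exact lt_irrefl _ h3
  -- trivial stabiliser
  have htriv : ¬ ∃ ζ : ℂ, ζ ^ k = 1 ∧ ζ ≠ 1 ∧ ∀ z ∈ W, ζ * z ∈ W := by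
    rintro ⟨ζ, hζ, h1, hinv⟩
    set η : ℂ := Complex.exp (Real.pi * Complex.I / k) with hη
    have hη2 : η * η = rot k := by
      rw [hη, ← Complex.exp_add]; unfold rot; congr 1; ring
    have hηn : ‖η‖ = 1 := by
      have e : (Real.pi : ℂ) * Complex.I / k = ((Real.pi / k : ℝ) : ℂ) * Complex.I := by
        push_cast; ring
      rw [hη, e, Complex.norm_exp_ofReal_mul_I]
    have hηc : η * (starRingEnd ℂ) η = 1 := by
      rw [Complex.mul_conj, Complex.normSq_eq_norm_sq, hηn]; simp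
    set φ : ℂ → ℝ := fun z => (z * (starRingEnd ℂ) η).im with hφ
    have hφc : Continuous φ := by
      rw [hφ]; fun_prop
    have hφ0 : ∀ z ∈ W, φ z ≠ 0 := by
      intro z hz h
      have h2 : (starRingEnd ℂ) (z * (starRingEnd ℂ) η) = z * (starRingEnd ℂ) η :=
        Complex.conj_eq_iff_im.2 h
      rw [map_mul, Complex.conj_conj] at h2
      have h3 : rot k * (starRingEnd ℂ) z = z := by
        rw [← hη2]
        calc η * η * (starRingEnd ℂ) z = η * ((starRingEnd ℂ) z * η) := by ring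
          _ = η * (z * (starRingEnd ℂ) η) := by rw [h2]
          _ = z * (η * (starRingEnd ℂ) η) := by ring
          _ = z := by rw [hηc, mul_one]
      have h4 := hrot ((starRingEnd ℂ) z)
      rw [h3, heven] at h4
      have h5 : u z = 0 := by linarith
      have h6 : 0 < |u z| := hWU hz
      rw [h5, abs_zero] at h6
      exact lt_irrefl _ h6
    obtain ⟨x, hx⟩ := hWc.nonempty
    have hall : ∀ i, ζ ^ i * x ∈ W := by
      intro i
      induction i with
      | zero => simpa using hx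
      | succ i ih => rw [pow_succ', mul_assoc]; exact hinv _ ih
    have hsum : ∑ i ∈ Finset.range k, φ (ζ ^ i * x) = 0 := by
      have : ∑ i ∈ Finset.range k, φ (ζ ^ i * x) =
          ((∑ i ∈ Finset.range k, ζ ^ i) * (x * (starRingEnd ℂ) η)).im := by
        rw [Finset.sum_mul, Complex.im_sum]
        apply Finset.sum_congr rfl
        intro i _
        simp only [hφ]
        congr 1; ring
      rw [this, sum_pow_zero hζ h1]; simp
    -- sign of φ on W
    have hsign : (∀ z ∈ W, 0 < φ z) ∨ (∀ z ∈ W, φ z < 0) := by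
      by_contra hc
      rw [not_or] at hc
      obtain ⟨hc1, hc2⟩ := hc
      push_neg at hc1 hc2
      obtain ⟨z1, hz1, hz1'⟩ := hc1
      obtain ⟨z2, hz2, hz2'⟩ := hc2
      have := hWc.isPreconnected.intermediate_value hz1 hz2 hφc.continuousOn
      obtain ⟨z, hz, hz0⟩ := this ⟨hz1', hz2'⟩
      exact hφ0 z hz hz0
    have hkne : (Finset.range k).Nonempty := Finset.nonempty_range_iff.2 (by omega)
    rcases hsign with hs | hs
    · have := Finset.sum_pos (fun i (_ : i ∈ Finset.range k) => hs _ (hall i)) hkne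
      linarith
    · have := Finset.sum_neg (fun i (_ : i ∈ Finset.range k) => hs _ (hall i)) hkne
      linarith
  have hUfin : volume {z | 0 < |u z|} ≠ ⊤ := ne_top_of_le_ne_top hfin (measure_mono hUΩ)
  have h5 := triv_disj hk0 hU hUs hUfin hW htriv
  have h6 := measureReal_mono hUΩ hfin
  have hΛ0 := L_le_pos measureReal_nonneg hL
  have hk4' : (4 : ℝ) ≤ k := by exact_mod_cast hk4
  have hLp := L_pos
  have h7 : Λ * (k * volume.real W) ≤ Λ * volume.real Ω :=
    mul_le_mul_of_nonneg_left (h5.trans h6) hΛ0.le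
  nlinarith [mul_le_mul_of_nonneg_left hL (by linarith : (0:ℝ) ≤ k)]


theorem CSym.pow {k : ℕ} {W : Set ℂ} (h : CSym k W) (j : ℕ) {z : ℂ} (hz : z ∈ W) :
    rot k ^ j * z ∈ W := by
  induction j with
  | zero => simpa using hz
  | succ j ih => rw [pow_succ', mul_assoc]; exact h _ ih

theorem CSym.iff {k : ℕ} (hk : 0 < k) {W : Set ℂ} (h : CSym k W) (z : ℂ) :
    rot k * z ∈ W ↔ z ∈ W := by
  constructor
  · intro hz
    have h1 := h.pow (k - 1) hz
    rwa [← mul_assoc, ← pow_succ, Nat.sub_add_cancel hk, rot_pow hk, one_mul] at h1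
  · exact h z

/-- the outer member of a nested pair of invariant components has at least three times the
minimal area -/
theorem outer_three {k : ℕ} (hk : 3 ≤ k) {Λ : ℝ} {f : ℂ → ℝ} (hf : Adm f) (h0 : ∀ z, 0 ≤ f z)
    (hrot : ∀ z, f (rot k * z) = f z) {W W' : Set ℂ} (hW : IsComp {z | 0 < f z} W)
    (hq : q Λ (W.indicator f) < 0)
    (hst : ∃ ζ : ℂ, ζ ^ k = 1 ∧ ζ ≠ 1 ∧ ∀ z ∈ W, ζ * z ∈ W) (hd : Disjoint W W')
    (hW' : Real.pi * j01 ^ 2 ≤ Λ * volume.real W') (h0W : (0 : ℂ) ∉ W)
    (hring : ∀ γ, IsRing k γ → γ ⊆ W → W' ⊆ Inner γ) :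
    3 * (Real.pi * j01 ^ 2) ≤ Λ * volume.real W := by
  have hk0 : 0 < k := by omega
  have hU : IsOpen {z | 0 < f z} := isOpen_lt continuous_const hf.continuous
  have hUs : CSym k {z | 0 < f z} := fun z (hz : 0 < f z) => by
    show 0 < f (rot k * z)
    rw [hrot]; exact hz
  have hWs : CSym k W := full_inv hk0 hU hUs hW hst
  obtain ⟨hadm, he, hL⟩ := comp_fk hf h0 hW hq
  have hΛ := L_le_pos measureReal_nonneg hL
  rcases le_total (volume.real W) (3 * volume.real W') with hle | hle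
  · have hq' : q (3 * (Λ / 3)) (W.indicator f) < 0 := by
      rw [mul_div_cancel₀ Λ (by norm_num : (3 : ℝ) ≠ 0)]; exact hq
    have h := ring_fk hk hadm (fun z => by
        by_cases hz : z ∈ W
        · rw [indicator_of_mem hz]; exact h0 z
        · rw [indicator_of_notMem hz])
      (fun z => by
        by_cases hz : z ∈ W
        · rw [indicator_of_mem hz, indicator_of_mem ((hWs.iff hk0 z).2 hz), hrot]
        · rw [indicator_of_notMem hz, indicator_of_notMem (fun h => hz ((hWs.iff hk0 z).1 h))])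
      (indicator_of_notMem h0W _) (W' := W')
      (fun z hz => indicator_of_notMem (fun h => Set.disjoint_left.1 hd h hz) _)
      (fun γ hγ hsub => hring γ hγ (by rw [he] at hsub; exact hsub))
      (by rw [he]; exact hle) hq'
    rw [he] at h
    linarith
  · nlinarith

/-- `A3`: no two-dimensional negative space of rotation-invariant functions -/
theorem no_inv_pair {k : ℕ} (hk : 3 ≤ k) {Ω : Set ℂ} (hfin : volume Ω ≠ ⊤)
    {Λ : ℝ} (hΛ : Λ * volume.real Ω < 4 * (Real.pi * j01 ^ 2))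
    (M : Submodule ℝ (ℂ → ℝ)) (hM2 : 2 ≤ Module.finrank ℝ M) (hM : ∀ u ∈ M, IsTest Ω u)
    (hinv : ∀ u ∈ M, ∀ z, u (rot k * z) = u z) (hneg : ∀ u ∈ M, u ≠ 0 → q Λ u < 0) : False := by
  have hk0 : 0 < k := by omega
  obtain ⟨v, hv, w, hw, hvw⟩ := two_indep hM2
  obtain ⟨a, b, hab, h1, h2⟩ := sign_trick (Λ := Λ) (S := univ) MeasurableSet.univ (hM v hv).1
    (hM v hv).2.1 (hM w hw).1 (hM w hw).2.1 (fun a b hab => by
      obtain ⟨hm, hne⟩ := hvw a b hab
      have h2 := hneg _ hm hne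
      rw [q_eq_integral (hM _ hm).adm] at h2
      rw [setIntegral_univ]
      exact h2)
  set u : ℂ → ℝ := fun z => a * v z + b * w z with hu
  obtain ⟨hm, hne⟩ := hvw a b hab
  rw [univ_inter] at h1 h2
  have hadm := (hM u hm).adm
  have hrot := hinv u hm
  have hp := hadm.pos
  have hn := hadm.neg.pos
  have hp0 : ∀ z, 0 ≤ max (u z) 0 := fun z => le_max_right _ _
  have hn0 : ∀ z, 0 ≤ max (-u z) 0 := fun z => le_max_right _ _
  have hq1 : q Λ (fun z => max (u z) 0) < 0 := by rw [q_pos hadm]; exact h1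
  have hq2 : q Λ (fun z => max (-u z) 0) < 0 := by
    rw [q_pos hadm.neg]
    have e1 : {z | 0 < -u z} = {z | u z < 0} := by ext z; simp
    rw [e1]
    have e : ∫ z in {z | u z < 0}, (‖fderiv ℝ (fun z => -u z) z‖ ^ 2 - Λ * (-u z) ^ 2) =
        ∫ z in {z | u z < 0}, (‖fderiv ℝ u z‖ ^ 2 - Λ * u z ^ 2) := by
      congr 1
      funext z
      rw [fderiv_fun_neg, norm_neg, neg_sq]
    rw [e]
    exact h2
  obtain ⟨W1, hW1, hqW1⟩ := exists_comp_neg hp hp0 hq1
  obtain ⟨W2, hW2, hqW2⟩ := exists_comp_neg hn hn0 hq2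
  obtain ⟨hadm1, he1, hL1⟩ := comp_fk hp hp0 hW1 hqW1
  obtain ⟨hadm2, he2, hL2⟩ := comp_fk hn hn0 hW2 hqW2
  have hU1 : IsOpen {z | 0 < max (u z) 0} := isOpen_lt continuous_const hp.continuous
  have hU2 : IsOpen {z | 0 < max (-u z) 0} := isOpen_lt continuous_const hn.continuous
  have hr1 : ∀ z, max (u (rot k * z)) 0 = max (u z) 0 := fun z => by rw [hrot]
  have hr2 : ∀ z, max (-u (rot k * z)) 0 = max (-u z) 0 := fun z => by rw [hrot]
  have hs1 : CSym k {z | 0 < max (u z) 0} := fun z (hz : 0 < max (u z) 0) => by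
    show 0 < max (u (rot k * z)) 0
    rw [hrot]; exact hz
  have hs2 : CSym k {z | 0 < max (-u z) 0} := fun z (hz : 0 < max (-u z) 0) => by
    show 0 < max (-u (rot k * z)) 0
    rw [hrot]; exact hz
  have hΩ1 : {z | 0 < max (u z) 0} ⊆ Ω := by
    intro z (hz : 0 < max (u z) 0)
    refine (hM u hm).2.2 (subset_tsupport u ?_)
    rw [Function.mem_support]
    intro h; rw [h, max_self] at hz; exact lt_irrefl _ hz
  have hΩ2 : {z | 0 < max (-u z) 0} ⊆ Ω := by
    intro z (hz : 0 < max (-u z) 0)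
    refine (hM u hm).2.2 (subset_tsupport u ?_)
    rw [Function.mem_support]
    intro h; rw [h, neg_zero, max_self] at hz; exact lt_irrefl _ hz
  have hdU : Disjoint {z | 0 < max (u z) 0} {z | 0 < max (-u z) 0} := by
    rw [Set.disjoint_left]
    intro z (hz1 : 0 < max (u z) 0) (hz2 : 0 < max (-u z) 0)
    rw [lt_max_iff] at hz1 hz2
    rcases hz1 with h1 | h1 <;> rcases hz2 with h2 | h2 <;> linarith
  have hf1 : volume {z | 0 < max (u z) 0} ≠ ⊤ := ne_top_of_le_ne_top hfin (measure_mono hΩ1)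
  have hf2 : volume {z | 0 < max (-u z) 0} ≠ ⊤ := ne_top_of_le_ne_top hfin (measure_mono hΩ2)
  have hsum : volume.real {z | 0 < max (u z) 0} + volume.real {z | 0 < max (-u z) 0} ≤
      volume.real Ω := by
    rw [← measureReal_union hdU hU2.measurableSet hf1 hf2]
    exact measureReal_mono (union_subset hΩ1 hΩ2) hfin
  obtain ⟨hWo1, hWc1, hWU1, -⟩ := comp_facts hU1 hW1
  obtain ⟨hWo2, hWc2, hWU2, -⟩ := comp_facts hU2 hW2
  have hd : Disjoint W1 W2 := hdU.mono hWU1 hWU2
  have hm1 := measureReal_mono hWU1 hf1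
  have hm2 := measureReal_mono hWU2 hf2
  have hΛ0 := L_le_pos measureReal_nonneg hL1
  have hLp := L_pos
  have hk3 : (3 : ℝ) ≤ k := by exact_mod_cast hk
  -- it is enough to find three times the area in one of the two
  have fin1 : 3 * (Real.pi * j01 ^ 2) ≤ Λ * volume.real {z | 0 < max (u z) 0} → False := by
    intro h
    have h3 : Λ * volume.real W2 ≤ Λ * volume.real {z | 0 < max (-u z) 0} :=
      mul_le_mul_of_nonneg_left hm2 hΛ0.le
    have h4 := mul_le_mul_of_nonneg_left hsum hΛ0.le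
    rw [mul_add] at h4
    linarith
  have fin2 : 3 * (Real.pi * j01 ^ 2) ≤ Λ * volume.real {z | 0 < max (-u z) 0} → False := by
    intro h
    have h3 : Λ * volume.real W1 ≤ Λ * volume.real {z | 0 < max (u z) 0} :=
      mul_le_mul_of_nonneg_left hm1 hΛ0.le
    have h4 := mul_le_mul_of_nonneg_left hsum hΛ0.le
    rw [mul_add] at h4
    linarith
  by_cases hst1 : ∃ ζ : ℂ, ζ ^ k = 1 ∧ ζ ≠ 1 ∧ ∀ z ∈ W1, ζ * z ∈ W1
  swap
  · apply fin1
    have h5 := triv_disj hk0 hU1 hs1 hf1 hW1 hst1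
    have h6 := mul_le_mul_of_nonneg_left h5 hΛ0.le
    have h7 := mul_le_mul_of_nonneg_right hk3 (hLp.le.trans hL1)
    nlinarith
  by_cases hst2 : ∃ ζ : ℂ, ζ ^ k = 1 ∧ ζ ≠ 1 ∧ ∀ z ∈ W2, ζ * z ∈ W2
  swap
  · apply fin2
    have h5 := triv_disj hk0 hU2 hs2 hf2 hW2 hst2
    have h6 := mul_le_mul_of_nonneg_left h5 hΛ0.le
    have h7 := mul_le_mul_of_nonneg_right hk3 (hLp.le.trans hL2)
    nlinarith
  rcases nest hk0 hWo1 hWc1 hWo2 hWc2 hd hst1 hst2 with ⟨h0W, hring⟩ | ⟨h0W, hring⟩
  · apply fin1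
    have := outer_three hk hp hp0 hr1 hW1 hqW1 hst1 hd hL2 h0W hring
    exact this.trans (mul_le_mul_of_nonneg_left hm1 hΛ0.le)
  · apply fin2
    have := outer_three hk hn hn0 hr2 hW2 hqW2 hst2 hd.symm hL1 h0W hring
    exact this.trans (mul_le_mul_of_nonneg_left hm2 hΛ0.le)

end DK4
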