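import Pool.Agent.Lib.DK4.ContP
import Pool.Agent.Lib.DK4.ContM
import Pool.Agent.Lib.DK4.Cases

/-!
Module DK4.ContE: joint continuity of the energy of `u_a⁺` in a moving set.

`cont_den`: merge the proof of `cont_qpos` (DK4.ContP: `ContPAux.ee`, `bd`, `ind_le`, `ee_le`, `bd_int`, ...) and the
proof of `ContMAux.main` (DK4.ContM: moving sets).  As in `q_pos`,
`∫_{A x} den Λ (u⁺) = ∫ (A x).indicator ({0 < u}.indicator (ee Λ v a))` with `u = uc v (a x)`
(`den Λ (u⁺) = {0 < u}.indicator (ee ...)` almost everywhere, see the proof of `q_pos` in DK4.Loc).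
`cont_denh`, `cont_denr`: special cases; off the boundary lines (null sets) membership is locally
constant (`ContMAux.sgn_loc`, `null_re`; for `cont_denr` the lines are the preimages of the axes under the
rotation, null because rotations preserve `volume`: `vol_rot`, or a line is a null set).
-/

open MeasureTheory Set Filter Topology
open scoped ContDiff

namespace DK4

namespace ContEAux

theorem den_eq {n : ℕ} {v : Fin n → ℂ → ℝ} (hv : ∀ i, ContDiff ℝ ∞ (v i)) (Λ : ℝ)
    (a : Fin n → ℝ) (z : ℂ) :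
    den Λ (fun z => max (uc v a z) 0) z =
      {z | 0 < uc v a z}.indicator (ContPAux.ee Λ v a) z := by
  unfold den
  simp only [fderiv_pos (ContPAux.cont_uc_z hv a)]
  by_cases hz : 0 < uc v a z
  · rw [indicator_of_mem (s := {z | 0 < uc v a z}) hz,
      indicator_of_mem (s := {z | 0 < uc v a z}) hz, max_eq_left hz.le]
    unfold ContPAux.ee
    rw [ContPAux.fderiv_uc hv]
  · rw [indicator_of_notMem (s := {z | 0 < uc v a z}) hz,
      indicator_of_notMem (s := {z | 0 < uc v a z}) hz, max_eq_right (not_lt.1 hz), norm_zero]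
    ring

theorem ind_le2 {n : ℕ} {v : Fin n → ℂ → ℝ} {Λ : ℝ} (S T : Set ℂ) (a : Fin n → ℝ) (z : ℂ) :
    ‖S.indicator (T.indicator (ContPAux.ee Λ v a)) z‖ ≤ |ContPAux.ee Λ v a z| := by
  by_cases h : z ∈ S
  · rw [Set.indicator_of_mem h]
    exact ContPAux.ind_le T a z
  · rw [Set.indicator_of_notMem h, norm_zero]
    exact abs_nonneg _

/-- continuity of the inner indicator at a point, almost everywhere -/
theorem cont_inner {X : Type*} [TopologicalSpace X] {n : ℕ}
    {v : Fin n → ℂ → ℝ} (hv : ∀ i, ContDiff ℝ ∞ (v i)) (Λ : ℝ)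
    (a : X → Fin n → ℝ) (ha : Continuous a) (x0 : X) (z : ℂ)
    (hz : uc v (a x0) z = 0 → fderiv ℝ (uc v (a x0)) z = 0) :
    ContinuousAt (fun x => {z | 0 < uc v (a x) z}.indicator (ContPAux.ee Λ v (a x)) z) x0 := by
  have hcu : Continuous fun x => uc v (a x) z := (ContPAux.cont_uc_a z).comp ha
  have hce : Continuous fun x => ContPAux.ee Λ v (a x) z := (ContPAux.cont_ee_a z).comp ha
  rcases lt_trichotomy (uc v (a x0) z) 0 with h | h | h
  · have h1 : ∀ᶠ x in 𝓝 x0, uc v (a x) z < 0 :=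
      hcu.continuousAt.eventually_lt continuousAt_const h
    refine (continuousAt_const (y := (0 : ℝ))).congr ?_
    filter_upwards [h1] with x hx
    exact (ContPAux.ind_pos hx.le).symm
  · have h0 : ContPAux.ee Λ v (a x0) z = 0 := by
      have h5 := hz h
      rw [ContPAux.fderiv_uc hv] at h5
      unfold ContPAux.ee
      rw [h5, h]
      simp
    have hval : {z | 0 < uc v (a x0) z}.indicator (ContPAux.ee Λ v (a x0)) z = 0 :=
      ContPAux.ind_pos h.le
    change Filter.Tendsto (fun x => {z | 0 < uc v (a x) z}.indicator (ContPAux.ee Λ v (a x)) z)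
      (𝓝 x0) (𝓝 ({z | 0 < uc v (a x0) z}.indicator (ContPAux.ee Λ v (a x0)) z))
    rw [hval]
    refine squeeze_zero_norm (fun x => ContPAux.ind_le _ (a x) z) ?_
    have h3 := (hce.abs).continuousAt (x := x0)
    change Filter.Tendsto (fun x => |ContPAux.ee Λ v (a x) z|) (𝓝 x0)
      (𝓝 |ContPAux.ee Λ v (a x0) z|) at h3
    rw [h0, abs_zero] at h3
    exact h3
  · have h1 : ∀ᶠ x in 𝓝 x0, 0 < uc v (a x) z :=
      continuousAt_const.eventually_lt hcu.continuousAt h
    refine hce.continuousAt.congr ?_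
    filter_upwards [h1] with x hx
    exact (Set.indicator_of_mem (show z ∈ {z | 0 < uc v (a x) z} from hx) _).symm

theorem sgn_loc' {X : Type*} [TopologicalSpace X] {g : X → ℝ} (hg : Continuous g) {σ : ℝ}
    (hσ : σ = 1 ∨ σ = -1) (x0 : X) (h : g x0 ≠ 0) :
    (∀ᶠ x in 𝓝 x0, 0 < σ * (g x - 0)) ∨ (∀ᶠ x in 𝓝 x0, ¬ 0 < σ * (g x - 0)) := by
  have := ContMAux.sgn_loc (g := fun x => -g x) hg.neg hσ x0 0 (by
    intro h'
    exact h (by linarith))
  have e : ∀ x, σ * (0 - -g x) = σ * (g x - 0) := fun x => by ring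
  simpa only [e] using this

end ContEAux

open ContEAux

theorem cont_den {X : Type*} [TopologicalSpace X] [FirstCountableTopology X] {n : ℕ}
    {v : Fin n → ℂ → ℝ} (hv : ∀ i, ContDiff ℝ ∞ (v i)) (hvc : ∀ i, HasCompactSupport (v i))
    (Λ : ℝ) (A : X → Set ℂ) (hA : ∀ x, MeasurableSet (A x))
    (hcont : ∀ x0, ∀ᵐ z, (∀ᶠ x in 𝓝 x0, z ∈ A x) ∨ (∀ᶠ x in 𝓝 x0, z ∉ A x))
    (a : X → Fin n → ℝ) (ha : Continuous a) :
    Continuous fun x => ∫ z in A x, den Λ (fun z => max (uc v (a x) z) 0) z := by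
  have e : (fun x => ∫ z in A x, den Λ (fun z => max (uc v (a x) z) 0) z) =
      fun x => ∫ z, (A x).indicator
        ({z | 0 < uc v (a x) z}.indicator (ContPAux.ee Λ v (a x))) z := by
    funext x
    rw [integral_indicator (hA x)]
    refine integral_congr_ae (Eventually.of_forall fun z => ?_)
    exact den_eq hv Λ (a x) z
  rw [e, continuous_iff_continuousAt]
  intro x0
  have hev : ∀ᶠ x in 𝓝 x0, ∀ i, |a x i| ≤ ‖a x0‖ + 1 := by
    have h1 : ∀ᶠ x in 𝓝 x0, ‖a x‖ < ‖a x0‖ + 1 :=
      ha.norm.continuousAt.eventually_lt continuousAt_const (by linarith)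
    filter_upwards [h1] with x hx i
    have := norm_le_pi_norm (a x) i
    rw [Real.norm_eq_abs] at this
    linarith
  refine continuousAt_of_dominated
    (bound := ContPAux.bd (‖a x0‖ + 1) Λ v) ?_ ?_ ?_ ?_
  · exact Eventually.of_forall fun x =>
      (((ContPAux.cont_ee_z hv (a x)).measurable.indicator
        (ContPAux.meas_pos hv (a x))).indicator (hA x)).aestronglyMeasurable
  · filter_upwards [hev] with x hx
    exact Eventually.of_forall fun z =>
      (ind_le2 _ _ (a x) z).trans (ContPAux.ee_le hx z)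
  · exact ContPAux.bd_int hv hvc _
  · filter_upwards [(uc_adm hv hvc (a x0)).ae_fderiv_zero, hcont x0] with z hz hz2
    have hc := cont_inner hv Λ a ha x0 z hz
    rcases hz2 with h | h
    · refine hc.congr ?_
      filter_upwards [h] with x hx
      rw [indicator_of_mem hx]
    · refine (continuousAt_const (y := (0 : ℝ))).congr ?_
      filter_upwards [h] with x hx
      rw [indicator_of_notMem hx]

theorem cont_denh {n : ℕ} {v : Fin n → ℂ → ℝ} (hv : ∀ i, ContDiff ℝ ∞ (v i))
    (hvc : ∀ i, HasCompactSupport (v i)) (Λ : ℝ) {σ : ℝ} (hσ : σ = 1 ∨ σ = -1) :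
    Continuous fun x : (Fin n → ℝ) × ℝ =>
      ∫ z in Hf x.2 σ, den Λ (fun z => max (uc v x.1 z) 0) z := by
  refine cont_den hv hvc Λ (fun x : (Fin n → ℝ) × ℝ => Hf x.2 σ) (fun x => ?_) (fun x0 => ?_)
    (fun x => x.1) continuous_fst
  · unfold Hf
    exact (isOpen_lt continuous_const (by fun_prop)).measurableSet
  · filter_upwards [ContMAux.null_re x0.2] with z hz
    exact ContMAux.sgn_loc (g := fun x : (Fin n → ℝ) × ℝ => x.2) continuous_snd hσ x0 z.re hz

theorem cont_denr {n : ℕ} {v : Fin n → ℂ → ℝ} (hv : ∀ i, ContDiff ℝ ∞ (v i))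
    (hvc : ∀ i, HasCompactSupport (v i)) (Λ : ℝ) {σ τ : ℝ} (hσ : σ = 1 ∨ σ = -1)
    (hτ : τ = 1 ∨ τ = -1) :
    Continuous fun x : (Fin n → ℝ) × ℝ =>
      ∫ z in {z | Complex.exp (-(x.2 : ℂ) * Complex.I) * z ∈ Qd 0 0 σ τ},
        den Λ (fun z => max (uc v x.1 z) 0) z := by
  refine cont_den hv hvc Λ (fun x : (Fin n → ℝ) × ℝ =>
    {z | Complex.exp (-(x.2 : ℂ) * Complex.I) * z ∈ Qd 0 0 σ τ}) (fun x => ?_) (fun x0 => ?_)
    (fun x => x.1) continuous_fst
  · have h1 : IsOpen (Qd 0 0 σ τ) := by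
      have k1 : IsOpen {z : ℂ | 0 < σ * (z.re - 0)} := isOpen_lt continuous_const (by fun_prop)
      have k2 : IsOpen {z : ℂ | 0 < τ * (z.im - 0)} := isOpen_lt continuous_const (by fun_prop)
      exact k1.inter k2
    have h2 : Continuous fun z : ℂ => Complex.exp (-(x.2 : ℂ) * Complex.I) * z := by fun_prop
    exact (h1.preimage h2).measurableSet
  · have hmp : MeasurePreserving (rotation (Circle.exp (-x0.2))) volume volume :=
      (rotation (Circle.exp (-x0.2))).measurePreserving
    have hrot : ∀ z : ℂ, rotation (Circle.exp (-x0.2)) z =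
        Complex.exp (-(x0.2 : ℂ) * Complex.I) * z := by
      intro z
      rw [rotation_apply, Circle.coe_exp]
      push_cast
      rfl
    have n1 := hmp.quasiMeasurePreserving.ae (ContMAux.null_re 0)
    have n2 := hmp.quasiMeasurePreserving.ae (ContMAux.null_im 0)
    filter_upwards [n1, n2] with z hz hz2
    rw [hrot] at hz hz2
    have g1 : Continuous fun x : (Fin n → ℝ) × ℝ =>
        (Complex.exp (-(x.2 : ℂ) * Complex.I) * z).re := by fun_prop
    have g2 : Continuous fun x : (Fin n → ℝ) × ℝ =>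
        (Complex.exp (-(x.2 : ℂ) * Complex.I) * z).im := by fun_prop
    have h1 := sgn_loc' g1 hσ x0 hz
    have h2 := sgn_loc' g2 hτ x0 hz2
    rcases h1 with h1 | h1
    · rcases h2 with h2 | h2
      · left
        filter_upwards [h1, h2] with x a b
        exact ⟨a, b⟩
      · right
        filter_upwards [h2] with x b h
        exact b h.2
    · right
      filter_upwards [h1] with x b h
      exact b h.1

end DK4
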