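import Pool.Agent.Lib.DK4.ContM

/-!
Module DK4.Cut: cutting a set of finite area by lines into parts of prescribed area.

`t ↦ volume.real (Ω ∩ Hf t (-1))` is continuous (dominated convergence for indicators, or
`tendsto_measure`; vertical lines are null sets, `ContMAux.null_re`), tends to `0` at `-∞` and to
`volume.real Ω` at `+∞`; intermediate value theorem.  The second part is the complement (up to a null
set).  Same for the horizontal cut of `Ω ∩ Hf t (-1)` by `y = s` (`null_im`).
-/

open MeasureTheory Set Filter Topology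

namespace DK4

namespace CutAux

theorem int_ind (μ : Measure ℂ) [IsFiniteMeasure μ] {g : ℂ → ℝ} (hg : Measurable g) (t : ℝ) :
    μ.real {z | g z < t} = ∫ z, {z | g z < t}.indicator (fun _ => (1 : ℝ)) z ∂μ := by
  rw [integral_indicator (measurableSet_lt hg measurable_const)]
  simp

theorem bound (g : ℂ → ℝ) (t : ℝ) (z : ℂ) :
    ‖{z | g z < t}.indicator (fun _ => (1 : ℝ)) z‖ ≤ 1 := by
  by_cases h : z ∈ {z | g z < t}
  · rw [indicator_of_mem h]; simp
  · rw [indicator_of_notMem h]; simp

theorem meas {g : ℂ → ℝ} (hg : Measurable g) (t : ℝ) :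
    Measurable ({z | g z < t}.indicator (fun _ => (1 : ℝ))) :=
  measurable_const.indicator (measurableSet_lt hg measurable_const)

theorem cont (μ : Measure ℂ) [IsFiniteMeasure μ] {g : ℂ → ℝ} (hg : Measurable g)
    (h0 : ∀ t, ∀ᵐ z ∂μ, g z ≠ t) : Continuous fun t => μ.real {z | g z < t} := by
  simp only [int_ind μ hg]
  rw [continuous_iff_continuousAt]
  intro t0
  refine continuousAt_of_dominated (bound := fun _ => (1 : ℝ)) ?_ ?_ ?_ ?_
  · exact Eventually.of_forall fun t => (meas hg t).aestronglyMeasurable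
  · exact Eventually.of_forall fun t => Eventually.of_forall fun z => bound g t z
  · exact integrable_const _
  · filter_upwards [h0 t0] with z hz
    rcases lt_or_gt_of_ne hz with h | h
    · refine (continuousAt_const (y := (1 : ℝ))).congr ?_
      filter_upwards [lt_mem_nhds h] with t ht
      exact (indicator_of_mem (show z ∈ {z | g z < t} from ht) (fun _ => (1 : ℝ))).symm
    · refine (continuousAt_const (y := (0 : ℝ))).congr ?_
      filter_upwards [gt_mem_nhds h] with t ht
      exact (indicator_of_notMem (show z ∉ {z | g z < t} from not_lt.2 (le_of_lt ht))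
        (fun _ => (1 : ℝ))).symm

theorem lim_bot (μ : Measure ℂ) [IsFiniteMeasure μ] {g : ℂ → ℝ} (hg : Measurable g) :
    Tendsto (fun t => μ.real {z | g z < t}) atBot (𝓝 0) := by
  simp only [int_ind μ hg]
  have h := tendsto_integral_filter_of_dominated_convergence (μ := μ) (l := atBot)
    (F := fun (t : ℝ) z => {z | g z < t}.indicator (fun _ => (1 : ℝ)) z)
    (f := fun _ => (0 : ℝ)) (bound := fun _ => (1 : ℝ))
    (Eventually.of_forall fun t => (meas hg t).aestronglyMeasurable)
    (Eventually.of_forall fun t => Eventually.of_forall fun z => bound g t z)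
    (integrable_const _)
    (Eventually.of_forall fun z => by
      refine (tendsto_const_nhds (x := (0 : ℝ))).congr' ?_
      filter_upwards [eventually_le_atBot (g z)] with t ht
      exact (indicator_of_notMem (show z ∉ {z | g z < t} from not_lt.2 ht)
        (fun _ => (1 : ℝ))).symm)
  simpa using h

theorem lim_top (μ : Measure ℂ) [IsFiniteMeasure μ] {g : ℂ → ℝ} (hg : Measurable g) :
    Tendsto (fun t => μ.real {z | g z < t}) atTop (𝓝 (μ.real univ)) := by
  simp only [int_ind μ hg]
  have h := tendsto_integral_filter_of_dominated_convergence (μ := μ) (l := atTop)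
    (F := fun (t : ℝ) z => {z | g z < t}.indicator (fun _ => (1 : ℝ)) z)
    (f := fun _ => (1 : ℝ)) (bound := fun _ => (1 : ℝ))
    (Eventually.of_forall fun t => (meas hg t).aestronglyMeasurable)
    (Eventually.of_forall fun t => Eventually.of_forall fun z => bound g t z)
    (integrable_const _)
    (Eventually.of_forall fun z => by
      refine (tendsto_const_nhds (x := (1 : ℝ))).congr' ?_
      filter_upwards [eventually_gt_atTop (g z)] with t ht
      exact (indicator_of_mem (show z ∈ {z | g z < t} from ht) (fun _ => (1 : ℝ))).symm)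
  simpa using h

theorem gen (μ : Measure ℂ) [IsFiniteMeasure μ] {g : ℂ → ℝ} (hg : Measurable g)
    (h0 : ∀ t, ∀ᵐ z ∂μ, g z ≠ t) {θ : ℝ} (hθ0 : 0 < θ) (hθ1 : θ < 1) :
    ∃ t, μ.real {z | g z < t} = θ * μ.real univ ∧
      μ.real {z | t < g z} = (1 - θ) * μ.real univ := by
  have hex : ∃ t, μ.real {z | g z < t} = θ * μ.real univ := by
    have hle : ∀ t, μ.real {z | g z < t} ≤ μ.real univ := fun t => measureReal_mono (subset_univ _)
    have hnn : (0 : ℝ) ≤ μ.real univ := measureReal_nonneg
    rcases eq_or_lt_of_le hnn with h | h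
    · refine ⟨0, ?_⟩
      rw [← h, mul_zero]
      exact le_antisymm ((hle 0).trans h.ge) measureReal_nonneg
    · have h1 : ∃ a, μ.real {z | g z < a} ≤ θ * μ.real univ := by
        have := (lim_bot μ hg).eventually (gt_mem_nhds (show (0 : ℝ) < θ * μ.real univ by positivity))
        obtain ⟨a, ha⟩ := this.exists
        exact ⟨a, ha.le⟩
      have h2 : ∃ b, θ * μ.real univ ≤ μ.real {z | g z < b} := by
        have := (lim_top μ hg).eventually (lt_mem_nhds (show θ * μ.real univ < μ.real univ by nlinarith))
        obtain ⟨b, hb⟩ := this.exists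
        exact ⟨b, hb.le⟩
      obtain ⟨t, ht⟩ := mem_range_of_exists_le_of_exists_ge (cont μ hg h0) h1 h2
      exact ⟨t, ht⟩
  obtain ⟨t, ht⟩ := hex
  refine ⟨t, ht, ?_⟩
  have e1 : μ.real {z | t < g z} = μ.real ({z | g z < t}ᶜ) := by
    refine measureReal_congr ?_
    filter_upwards [h0 t] with z hz
    refine propext ⟨fun h => ?_, fun h => ?_⟩
    · exact not_lt.2 (le_of_lt h)
    · exact lt_of_le_of_ne (not_lt.1 h) (Ne.symm hz)
  rw [e1, measureReal_compl (measurableSet_lt hg measurable_const), ht]
  ring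

end CutAux

theorem cut_t {Ω : Set ℂ} (hΩ : MeasurableSet Ω) (hfin : volume Ω ≠ ⊤) {θ : ℝ} (h0 : 0 < θ)
    (h1 : θ < 1) : ∃ t : ℝ, volume.real (Ω ∩ Hf t (-1)) = θ * volume.real Ω ∧
      volume.real (Ω ∩ Hf t 1) = (1 - θ) * volume.real Ω := by
  haveI : IsFiniteMeasure (volume.restrict Ω) := isFiniteMeasure_restrict.2 hfin
  obtain ⟨t, ht1, ht2⟩ := CutAux.gen (volume.restrict Ω) Complex.measurable_re
    (fun t => ae_restrict_of_ae (ContMAux.null_re t)) h0 h1
  refine ⟨t, ?_, ?_⟩
  · have e : Ω ∩ Hf t (-1) = {z : ℂ | z.re < t} ∩ Ω := by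
      ext z
      constructor
      · rintro ⟨a, b⟩
        have hb : 0 < (-1) * (z.re - t) := b
        exact ⟨show z.re < t by linarith, a⟩
      · rintro ⟨a, b⟩
        have ha : z.re < t := a
        exact ⟨b, show 0 < (-1) * (z.re - t) by linarith⟩
    rw [measureReal_restrict_apply (measurableSet_lt Complex.measurable_re measurable_const),
      measureReal_restrict_apply MeasurableSet.univ, univ_inter] at ht1
    rw [e]
    exact ht1
  · have e : Ω ∩ Hf t 1 = {z : ℂ | t < z.re} ∩ Ω := by
      ext z
      constructor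
      · rintro ⟨a, b⟩
        have hb : 0 < 1 * (z.re - t) := b
        exact ⟨show t < z.re by linarith, a⟩
      · rintro ⟨a, b⟩
        have ha : t < z.re := a
        exact ⟨b, show 0 < 1 * (z.re - t) by linarith⟩
    rw [measureReal_restrict_apply (measurableSet_lt measurable_const Complex.measurable_re),
      measureReal_restrict_apply MeasurableSet.univ, univ_inter] at ht2
    rw [e]
    exact ht2

theorem cut_s {Ω : Set ℂ} (hΩ : MeasurableSet Ω) (hfin : volume Ω ≠ ⊤) (t : ℝ) :
    ∃ s : ℝ, volume.real (Ω ∩ Qd t s (-1) 1) = 1 / 2 * volume.real (Ω ∩ Hf t (-1)) ∧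
      volume.real (Ω ∩ Qd t s (-1) (-1)) = 1 / 2 * volume.real (Ω ∩ Hf t (-1)) := by
  have hfin2 : volume (Ω ∩ Hf t (-1)) ≠ ⊤ :=
    ne_top_of_le_ne_top hfin (measure_mono inter_subset_left)
  haveI : IsFiniteMeasure (volume.restrict (Ω ∩ Hf t (-1))) := isFiniteMeasure_restrict.2 hfin2
  obtain ⟨s, hs1, hs2⟩ := CutAux.gen (volume.restrict (Ω ∩ Hf t (-1))) Complex.measurable_im
    (fun t => ae_restrict_of_ae (ContMAux.null_im t)) (show (0 : ℝ) < 1 / 2 by norm_num)
    (show (1 : ℝ) / 2 < 1 by norm_num)
  refine ⟨s, ?_, ?_⟩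
  · have e : Ω ∩ Qd t s (-1) 1 = {z : ℂ | s < z.im} ∩ (Ω ∩ Hf t (-1)) := by
      ext z
      constructor
      · rintro ⟨a, b, c⟩
        exact ⟨show s < z.im by linarith, a, b⟩
      · rintro ⟨c, a, b⟩
        have hc : s < z.im := c
        exact ⟨a, b, by linarith⟩
    rw [measureReal_restrict_apply (measurableSet_lt measurable_const Complex.measurable_im),
      measureReal_restrict_apply MeasurableSet.univ, univ_inter] at hs2
    rw [e, hs2]
    norm_num
  · have e : Ω ∩ Qd t s (-1) (-1) = {z : ℂ | z.im < s} ∩ (Ω ∩ Hf t (-1)) := by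
      ext z
      constructor
      · rintro ⟨a, b, c⟩
        exact ⟨show z.im < s by linarith, a, b⟩
      · rintro ⟨c, a, b⟩
        have hc : z.im < s := c
        exact ⟨a, b, by linarith⟩
    rw [measureReal_restrict_apply (measurableSet_lt Complex.measurable_im measurable_const),
      measureReal_restrict_apply MeasurableSet.univ, univ_inter] at hs1
    rw [e, hs1]

end DK4
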