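import Mathlib

/-!
# MP_6da7ef_an : the fourth Dirichlet eigenvalue of sets with dihedral symmetry

THEOREM.  Let `k ≥ 3` and let `Ω ⊂ ℂ` be open, nonempty, of finite area and invariant under the
dihedral group `D_k` (rotation by `2π/k` about `0` and complex conjugation).  Then
`λ₄(Ω) |Ω| ≥ 4 π j₀₁²`.

Overall plan: see the team progress row of MP_6da7ef_an and the headers of the modules `DK4.*`.
The plane is `ℂ` with `volume`, functions are `ℂ → ℝ`, and `|∇u| = ‖fderiv ℝ u z‖`.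
-/

open MeasureTheory Set
open scoped ContDiff

namespace DK4

/-- The Bessel function `J₀(x) = ∑ (-1)^k (x/2)^(2k) / (k!)²`. -/
noncomputable def J0 (x : ℝ) : ℝ :=
  ∑' k : ℕ, (-1 : ℝ) ^ k * (x / 2) ^ (2 * k) / ((k.factorial : ℝ) ^ 2)

/-- The first positive zero of `J₀`. -/
noncomputable def j01 : ℝ := sInf {x : ℝ | 0 < x ∧ J0 x = 0}

/-- Lipschitz functions with compact support. -/
structure Adm (u : ℂ → ℝ) : Prop where
  lip : ∃ K : NNReal, LipschitzWith K u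
  cpt : HasCompactSupport u

/-- The quadratic form `q(u) = ∫ |∇u|² - Λ ∫ u²`. -/
noncomputable def q (Λ : ℝ) (u : ℂ → ℝ) : ℝ :=
  (∫ z, ‖fderiv ℝ u z‖ ^ 2) - Λ * ∫ z, u z ^ 2

/-- Smooth functions with compact support inside `Ω`. -/
def IsTest (Ω : Set ℂ) (u : ℂ → ℝ) : Prop :=
  ContDiff ℝ ∞ u ∧ HasCompactSupport u ∧ tsupport u ⊆ Ω

/-- The `n`-th Dirichlet eigenvalue of the open set `Ω`, by the min-max formula over
`n`-dimensional spaces of smooth functions with compact support inside `Ω`. -/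
noncomputable def dirEig (n : ℕ) (Ω : Set ℂ) : ℝ :=
  sInf {Λ : ℝ | ∃ V : Submodule ℝ (ℂ → ℝ), Module.finrank ℝ V = n ∧
    (∀ u ∈ V, ContDiff ℝ ∞ u ∧ HasCompactSupport u ∧ tsupport u ⊆ Ω) ∧
    ∀ u ∈ V, ∫ z, ‖fderiv ℝ u z‖ ^ 2 ≤ Λ * ∫ z, u z ^ 2}

/-- The rotation by `2π/k`. -/
noncomputable def rot (k : ℕ) : ℂ := Complex.exp (2 * Real.pi * Complex.I / k)

/-- invariance under the cyclic group of rotations by multiples of `2π/k` -/
def CSym (k : ℕ) (Ω : Set ℂ) : Prop := ∀ z ∈ Ω, rot k * z ∈ Ω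

/-- invariance under the dihedral group -/
def DSym (k : ℕ) (Ω : Set ℂ) : Prop :=
  ∀ z ∈ Ω, rot k * z ∈ Ω ∧ (starRingEnd ℂ) z ∈ Ω

/-- The points of `γᶜ` whose connected component in `γᶜ` is bounded. -/
def Inner (γ : Set ℂ) : Set ℂ :=
  {z | z ∉ γ ∧ Bornology.IsBounded (connectedComponentIn γᶜ z)}

/-- The points of `γᶜ` whose connected component in `γᶜ` is unbounded. -/
def Outer (γ : Set ℂ) : Set ℂ :=
  {z | z ∉ γ ∧ ¬ Bornology.IsBounded (connectedComponentIn γᶜ z)}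

/-- A ring for `k`-fold symmetry: a compact connected set avoiding `0` and invariant under a
rotation `z ↦ ζ z` with `ζ^k = 1`, `ζ ≠ 1`. -/
structure IsRing (k : ℕ) (γ : Set ℂ) : Prop where
  cpt : IsCompact γ
  conn : IsConnected γ
  zero : (0 : ℂ) ∉ γ
  inv : ∃ ζ : ℂ, ζ ^ k = 1 ∧ ζ ≠ 1 ∧ ∀ z ∈ γ, ζ * z ∈ γ

/-- `W` is a connected component of `U`. -/
def IsComp (U W : Set ℂ) : Prop := ∃ x ∈ U, W = connectedComponentIn U x

end DK4
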