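import Pool.Agent.Lib.FK4.Bes
import Pool.Agent.Lib.DK4.Num

/-!
Module DK4.DiscA: the first eigenfunction of the disc of radius `R`.

`FK4.F s = ∑ (-s)^n/(n!)²`, `FK4.F1 = F'`, `(s F1)' = -F` (FK4.hasDerivAt_F, FK4.hasDerivAt_P, for
all real s), `J0 x = F (x²/4)` (FK4.J0_eq), `J0 j01 = 0`, `F > 0` on `[0, j01²/4)` (FK4.F_pos).
`psi R z = F (c ‖z‖²)`, `c = j01²/(4R²)`.

* `F_smooth`: `F` is C^∞ : an everywhere convergent power series (FormalMultilinearSeries / or by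
  induction: every function `s ↦ ∑ b_n s^n` with `|b_n| ≤ C^n... /n!` has a derivative of the same
  kind, FK4.deriv_series; or HasFPowerSeriesOnBall with infinite radius -> AnalyticOnNhd -> ContDiff).
* `psi_fderiv`: `‖fderiv (psi R) z‖ = 2 c ‖z‖ |F1 (c ‖z‖²)|` (gradient of `‖z‖²` is `2 z`).
* `disc_identity`: both integrals are integrals of radial functions
  (MeasureTheory.integral_fun_norm_addHaar: `∫ f ‖x‖ = 2 · vol(ball 0 1) · ∫_{y>0} y f y`), so it is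
  `∫_0^R y (2cy F1(cy²))² dy = 4c ∫_0^R y F(cy²)² dy`, `4c = j01²/R²`; and with
  `P(y) = 2 c y² F1(c y²) F(c y²)`: `P' = y (2cy F1)² - 4 c y F²`, `P(0) = 0`, `P(R) = 0` as
  `F(c R²) = J0 j01 = 0`.
* `F_neg_right`: `s F1 s` is strictly decreasing on `(0, s₀]`, `s₀ = j01²/4`, so `F1 s₀ < 0`; by
  continuity `F1 < 0` on `[s₀, s₀ + η]`, so `F < 0` on `(s₀, s₀ + η]`.
-/

open MeasureTheory Set Metric
open scoped ContDiff

namespace DK4

/-- the eigenfunction of the disc of radius `R`, extended to the plane -/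
noncomputable def psi (R : ℝ) (z : ℂ) : ℝ := FK4.F (j01 ^ 2 / (4 * R ^ 2) * ‖z‖ ^ 2)

namespace DiscAAux

open FK4

/-- one step: a series with `|c n| ≤ 1/n!` can be differentiated term by term -/
theorem hasDerivAt_series (c : ℕ → ℝ) (hc : ∀ n, |c n| ≤ 1 / (n.factorial : ℝ)) (z : ℝ) :
    HasDerivAt (fun y => ∑' n : ℕ, c n * y ^ n) (∑' n : ℕ, (((n : ℝ) + 1) * c (n + 1)) * z ^ n) z
      ∧ ∀ n : ℕ, |((n : ℝ) + 1) * c (n + 1)| ≤ 1 / (n.factorial : ℝ) := by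
  have hd : ∀ n : ℕ, |((n : ℝ) + 1) * c (n + 1)| ≤ 1 / (n.factorial : ℝ) := by
    intro n
    rw [abs_mul, abs_of_pos (by positivity : (0 : ℝ) < (n : ℝ) + 1)]
    have h := hc (n + 1)
    rw [Nat.factorial_succ] at h
    push_cast at h
    have hn : (0 : ℝ) < (n : ℝ) + 1 := by positivity
    have hf : (0 : ℝ) < n.factorial := by exact_mod_cast n.factorial_pos
    calc ((n : ℝ) + 1) * |c (n + 1)| ≤ ((n : ℝ) + 1) * (1 / (((n : ℝ) + 1) * n.factorial)) :=
          mul_le_mul_of_nonneg_left h hn.le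
      _ = 1 / (n.factorial : ℝ) := by field_simp
  refine ⟨?_, hd⟩
  have h := deriv_series (fun n => c (n + 1)) (fun n => ((n : ℝ) + 1) * c (n + 1))
    (fun n => rfl) hd z
  have e : (fun y => ∑' n : ℕ, c n * y ^ n) = fun y => c 0 + ∑' n : ℕ, c (n + 1) * y ^ (n + 1) := by
    funext y
    rw [(summ c hc y).tsum_eq_zero_add]
    simp
  rw [e]
  exact h.const_add (c 0)

theorem contDiff_series (m : ℕ) : ∀ c : ℕ → ℝ, (∀ n, |c n| ≤ 1 / (n.factorial : ℝ)) →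
    ContDiff ℝ m (fun y => ∑' n : ℕ, c n * y ^ n) := by
  induction m with
  | zero =>
    intro c hc
    rw [Nat.cast_zero, contDiff_zero]
    exact continuous_iff_continuousAt.2 fun z => (hasDerivAt_series c hc z).1.continuousAt
  | succ m ih =>
    intro c hc
    rw [Nat.cast_succ, contDiff_succ_iff_deriv]
    refine ⟨fun z => (hasDerivAt_series c hc z).1.differentiableAt, by simp, ?_⟩
    have e : deriv (fun y => ∑' n : ℕ, c n * y ^ n) =
        fun z => ∑' n : ℕ, (((n : ℝ) + 1) * c (n + 1)) * z ^ n :=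
      funext fun z => (hasDerivAt_series c hc z).1.deriv
    rw [e]
    exact ih _ (hasDerivAt_series c hc 0).2

theorem F_smooth : ContDiff ℝ ∞ F :=
  contDiff_infty.2 fun m => contDiff_series m ac abs_ac_le

theorem F1_smooth : ContDiff ℝ ∞ F1 :=
  contDiff_infty.2 fun m => contDiff_series m _ abs_succ_ac_le

theorem F_s0 : F (j01 ^ 2 / 4) = 0 := by
  rw [← J0_eq]
  exact J0_j01

theorem s0_pos : 0 < j01 ^ 2 / 4 := by
  have := j01_pos
  positivity

/-- `s F1 s < 0` at `s = j01²/4` -/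
theorem P_s0_neg : j01 ^ 2 / 4 * F1 (j01 ^ 2 / 4) < 0 := by
  have h : StrictAntiOn (fun y => y * F1 y) (Icc 0 (j01 ^ 2 / 4)) := by
    refine strictAntiOn_of_deriv_neg (convex_Icc _ _)
      (fun y _ => (hasDerivAt_P y).continuousAt.continuousWithinAt) ?_
    intro y hy
    rw [interior_Icc] at hy
    rw [(hasDerivAt_P y).deriv]
    exact neg_lt_zero.2 (F_pos hy.1.le hy.2)
  have := h (left_mem_Icc.2 s0_pos.le) (right_mem_Icc.2 s0_pos.le) s0_pos
  simpa using this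

/-- `F ≤ 0` on a right neighbourhood of `j01²/4` -/
theorem F_right : ∃ δ > 0, ∀ s, j01 ^ 2 / 4 ≤ s → s ≤ j01 ^ 2 / 4 + δ → F s ≤ 0 := by
  have hc : ContinuousAt (fun y => y * F1 y) (j01 ^ 2 / 4) := (hasDerivAt_P _).continuousAt
  have hev : ∀ᶠ y in nhds (j01 ^ 2 / 4), y * F1 y < 0 := hc.eventually_lt continuousAt_const P_s0_neg
  obtain ⟨ε, hε, hb⟩ := Metric.eventually_nhds_iff.1 hev
  refine ⟨ε / 2, by positivity, fun s h0 h1 => ?_⟩
  have hanti : AntitoneOn F (Icc (j01 ^ 2 / 4) (j01 ^ 2 / 4 + ε / 2)) := by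
    refine antitoneOn_of_deriv_nonpos (convex_Icc _ _) continuous_F.continuousOn
      (fun y _ => (hasDerivAt_F y).differentiableAt.differentiableWithinAt) ?_
    intro y hy
    rw [interior_Icc] at hy
    rw [(hasDerivAt_F y).deriv]
    have hy0 : 0 < y := s0_pos.trans hy.1
    have h2 : y * F1 y < 0 := by
      apply hb
      rw [Real.dist_eq, abs_of_pos (by linarith [hy.1])]
      linarith [hy.2]
    by_contra hcon
    push Not at hcon
    have := mul_pos hy0 hcon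
    linarith
  have := hanti ⟨le_rfl, by linarith⟩ ⟨h0, h1⟩ h0
  rwa [F_s0] at this

/-- the derivative of `psi` -/
theorem hasFDerivAt_psi (R : ℝ) (z : ℂ) :
    HasFDerivAt (psi R) (F1 (j01 ^ 2 / (4 * R ^ 2) * ‖z‖ ^ 2) •
      ((j01 ^ 2 / (4 * R ^ 2)) • ((2 : ℕ) • innerSL ℝ z))) z := by
  have h1 : HasFDerivAt (fun w : ℂ => j01 ^ 2 / (4 * R ^ 2) * ‖w‖ ^ 2)
      ((j01 ^ 2 / (4 * R ^ 2)) • ((2 : ℕ) • innerSL ℝ z)) z :=
    (hasStrictFDerivAt_norm_sq z).hasFDerivAt.const_mul _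
  exact (hasDerivAt_F _).comp_hasFDerivAt z h1

theorem norm_fderiv_psi (R : ℝ) (z : ℂ) :
    ‖fderiv ℝ (psi R) z‖ ^ 2 =
      (2 * (j01 ^ 2 / (4 * R ^ 2)) * ‖z‖ * F1 (j01 ^ 2 / (4 * R ^ 2) * ‖z‖ ^ 2)) ^ 2 := by
  rw [(hasFDerivAt_psi R z).fderiv, norm_smul, norm_smul, ← Nat.cast_smul_eq_nsmul ℝ, norm_smul,
    innerSL_apply_norm]
  simp only [Real.norm_eq_abs, mul_pow, sq_abs]
  push_cast
  ring

/-- integrals of radial functions over a disc -/
theorem integral_ball (R : ℝ) (hR : 0 < R) (g : ℝ → ℝ) :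
    ∫ z in ball (0 : ℂ) R, g ‖z‖ =
      2 * ((volume : Measure ℂ).real (ball 0 1) * ∫ y in (0 : ℝ)..R, y * g y) := by
  have h := integral_fun_norm_addHaar (volume : Measure ℂ) (indicator (Iio R) g)
  have e1 : ∫ z in ball (0 : ℂ) R, g ‖z‖ = ∫ z : ℂ, indicator (Iio R) g ‖z‖ := by
    rw [← integral_indicator measurableSet_ball]
    refine integral_congr_ae (Filter.Eventually.of_forall fun z => ?_)
    by_cases hz : ‖z‖ < R
    · simp [indicator, hz]
    · simp [indicator, hz]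
  rw [e1, h, Complex.finrank_real_complex]
  have e2 : ∫ y in Ioi (0 : ℝ), y ^ (2 - 1) • indicator (Iio R) g y =
      ∫ y in (0 : ℝ)..R, y * g y := by
    rw [intervalIntegral.integral_of_le hR.le, integral_Ioc_eq_integral_Ioo,
      ← integral_indicator measurableSet_Ioi, ← integral_indicator measurableSet_Ioo]
    refine integral_congr_ae (Filter.Eventually.of_forall fun y => ?_)
    by_cases h0 : 0 < y
    · by_cases h1 : y < R
      · simp [indicator, h0, h1]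
      · simp [indicator, h0, h1]
    · simp [indicator, h0]
  rw [e2]
  simp

/-- the radial identity -/
theorem radial (c R : ℝ) (hF : F (c * R ^ 2) = 0) :
    ∫ y in (0 : ℝ)..R, y * (2 * c * y * F1 (c * y ^ 2)) ^ 2 =
      4 * c * ∫ y in (0 : ℝ)..R, y * F (c * y ^ 2) ^ 2 := by
  have hsq : ∀ y : ℝ, HasDerivAt (fun y : ℝ => c * y ^ 2) (2 * c * y) y := by
    intro y
    have h := (hasDerivAt_pow 2 y).const_mul c
    have e : c * (((2 : ℕ) : ℝ) * y ^ (2 - 1)) = 2 * c * y := by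
      push_cast
      ring
    rw [e] at h
    exact h
  have hd : ∀ y : ℝ, HasDerivAt (fun y => 2 * ((c * y ^ 2) * F1 (c * y ^ 2)) * F (c * y ^ 2))
      (y * (2 * c * y * F1 (c * y ^ 2)) ^ 2 - 4 * c * (y * F (c * y ^ 2) ^ 2)) y := by
    intro y
    have h1 : HasDerivAt (fun y => (c * y ^ 2) * F1 (c * y ^ 2)) (-F (c * y ^ 2) * (2 * c * y)) y :=
      HasDerivAt.comp (h₂ := fun s => s * F1 s) y (hasDerivAt_P (c * y ^ 2)) (hsq y)
    have h2 : HasDerivAt (fun y => F (c * y ^ 2)) (F1 (c * y ^ 2) * (2 * c * y)) y :=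
      HasDerivAt.comp (h₂ := F) y (hasDerivAt_F (c * y ^ 2)) (hsq y)
    have h := (h1.const_mul 2).mul h2
    refine h.congr_deriv ?_
    ring
  have cF : Continuous fun y : ℝ => F (c * y ^ 2) := continuous_F.comp (by fun_prop)
  have cF1 : Continuous fun y : ℝ => F1 (c * y ^ 2) := F1_smooth.continuous.comp (by fun_prop)
  have c1 : Continuous fun y : ℝ => y * (2 * c * y * F1 (c * y ^ 2)) ^ 2 := by fun_prop
  have c2 : Continuous fun y : ℝ => 4 * c * (y * F (c * y ^ 2) ^ 2) := by fun_prop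
  have hi := intervalIntegral.integral_eq_sub_of_hasDerivAt (a := 0) (b := R)
    (fun y _ => hd y) ((c1.sub c2).intervalIntegrable _ _)
  rw [intervalIntegral.integral_sub (c1.intervalIntegrable _ _) (c2.intervalIntegrable _ _),
    intervalIntegral.integral_const_mul, hF] at hi
  simp only [mul_zero, ne_eq, OfNat.ofNat_ne_zero, not_false_eq_true, zero_pow, zero_mul,
    sub_zero] at hi
  linarith

end DiscAAux

open DiscAAux in
theorem psi_smooth (R : ℝ) : ContDiff ℝ ∞ (psi R) :=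
  F_smooth.comp (contDiff_const.mul (contDiff_norm_sq ℝ))

open DiscAAux in
theorem psi_pos {R : ℝ} (hR : 0 < R) {z : ℂ} (hz : ‖z‖ < R) : 0 < psi R z := by
  have h0 : 0 ≤ ‖z‖ := norm_nonneg z
  have hj := j01_pos
  apply FK4.F_pos (by positivity)
  have h1 : ‖z‖ ^ 2 < R ^ 2 := pow_lt_pow_left₀ hz h0 (by norm_num)
  have h2 : j01 ^ 2 / (4 * R ^ 2) * ‖z‖ ^ 2 < j01 ^ 2 / (4 * R ^ 2) * R ^ 2 :=
    mul_lt_mul_of_pos_left h1 (by positivity)
  have h3 : j01 ^ 2 / (4 * R ^ 2) * R ^ 2 = j01 ^ 2 / 4 := by field_simp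
  linarith

open DiscAAux in
theorem psi_neg {R : ℝ} (hR : 0 < R) : ∃ η > 0, ∀ z : ℂ, R ≤ ‖z‖ → ‖z‖ ≤ R + η → psi R z ≤ 0 := by
  obtain ⟨δ, hδ, hF⟩ := F_right
  have hj := j01_pos
  have h3 : j01 ^ 2 / (4 * R ^ 2) * R ^ 2 = j01 ^ 2 / 4 := by field_simp
  have hc : ContinuousAt (fun y : ℝ => j01 ^ 2 / (4 * R ^ 2) * y ^ 2) R := by fun_prop
  have hev : ∀ᶠ y in nhds R, j01 ^ 2 / (4 * R ^ 2) * y ^ 2 < j01 ^ 2 / 4 + δ := by
    refine hc.eventually_lt continuousAt_const ?_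
    rw [h3]
    linarith
  obtain ⟨ε, hε, hb⟩ := Metric.eventually_nhds_iff.1 hev
  refine ⟨ε / 2, by positivity, fun z h0 h1 => ?_⟩
  apply hF
  · rw [← h3]
    exact mul_le_mul_of_nonneg_left (pow_le_pow_left₀ hR.le h0 2) (by positivity)
  · have h4 : dist ‖z‖ R < ε := by
      rw [Real.dist_eq, abs_of_nonneg (by linarith)]
      linarith
    exact (hb h4).le

open DiscAAux in
theorem disc_identity {R : ℝ} (hR : 0 < R) :
    ∫ z in ball (0 : ℂ) R, ‖fderiv ℝ (psi R) z‖ ^ 2 =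
      j01 ^ 2 / R ^ 2 * ∫ z in ball (0 : ℂ) R, psi R z ^ 2 := by
  have e1 : ∫ z in ball (0 : ℂ) R, ‖fderiv ℝ (psi R) z‖ ^ 2 =
      ∫ z in ball (0 : ℂ) R, (fun y => (2 * (j01 ^ 2 / (4 * R ^ 2)) * y *
        FK4.F1 (j01 ^ 2 / (4 * R ^ 2) * y ^ 2)) ^ 2) ‖z‖ := by
    simp only [norm_fderiv_psi]
  have e2 : ∫ z in ball (0 : ℂ) R, psi R z ^ 2 =
      ∫ z in ball (0 : ℂ) R, (fun y => FK4.F (j01 ^ 2 / (4 * R ^ 2) * y ^ 2) ^ 2) ‖z‖ := rfl
  have h3 : j01 ^ 2 / (4 * R ^ 2) * R ^ 2 = j01 ^ 2 / 4 := by field_simp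
  have i1 := integral_ball R hR (fun y => (2 * (j01 ^ 2 / (4 * R ^ 2)) * y *
    FK4.F1 (j01 ^ 2 / (4 * R ^ 2) * y ^ 2)) ^ 2)
  have i2 := integral_ball R hR (fun y => FK4.F (j01 ^ 2 / (4 * R ^ 2) * y ^ 2) ^ 2)
  have i3 := radial (j01 ^ 2 / (4 * R ^ 2)) R (by rw [h3]; exact F_s0)
  have e4 : 4 * (j01 ^ 2 / (4 * R ^ 2)) = j01 ^ 2 / R ^ 2 := by field_simp
  rw [e1, e2, i1, i2, i3, e4]
  ring

end DK4
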