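import Pool.Agent.Lib.DK4.DiscA
import Pool.Agent.Lib.DK4.Loc

/-!
Module DK4.DiscB: almost optimal test functions in a disc.

Proof.  Choose `0 < R' < R` with `j01²/R'² < j01²/R² + ε`.  `psi R' > 0` on `ball 0 R'` and `≤ 0` on
`R' ≤ ‖z‖ ≤ R' + η`.  For `δ > 0` let `h_δ t = t * expNegInvGlue (t/δ)` (so `t e^{-δ/t}` for `t > 0`,
`0` for `t ≤ 0`; smooth; `0 ≤ h_δ' ≤ 1`, since `h_δ'(t) = (1 + δ/t) e^{-δ/t}` and `(1+x) e^{-x} ≤ 1`).
`φ z = h_δ (psi R' z)` if `‖z‖ < R' + η`, `0` otherwise: it equals `h_δ ∘ psi R'` near the closed ball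
of radius `R'` and `0` off that closed ball, so it is smooth with support in
`closedBall 0 R' ⊆ ball 0 R`.  `‖fderiv φ‖ ≤ ‖fderiv (psi R')‖` on the ball, `0` off it, so by
`disc_identity` `∫ ‖fderiv φ‖² ≤ (j01²/R'²) M`, `M = ∫_{ball R'} psi²> 0`; and `∫ φ² → M` as `δ → 0`
by dominated convergence (`0 ≤ h_δ t ≤ t`, `h_δ t → t`).  So for small `δ` the claim holds.
-/

open MeasureTheory Set Metric
open scoped ContDiff

namespace DK4

namespace DiscBAux

open Filter Topology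

/-- the cut-off function `t e^{-δ/t}` -/
noncomputable def hh (δ t : ℝ) : ℝ := t * expNegInvGlue (t / δ)

theorem hh_smooth (δ : ℝ) : ContDiff ℝ ∞ (hh δ) := by
  unfold hh
  exact contDiff_id.mul (expNegInvGlue.contDiff.comp (contDiff_id.div_const δ))

theorem glue_le_one (x : ℝ) : expNegInvGlue x ≤ 1 := by
  unfold expNegInvGlue
  split_ifs with h
  · exact zero_le_one
  · push Not at h
    rw [Real.exp_le_one_iff, Left.neg_nonpos_iff]
    exact (inv_pos.2 h).le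

theorem hh_zero {δ t : ℝ} (hδ : 0 < δ) (ht : t ≤ 0) : hh δ t = 0 := by
  rw [hh, expNegInvGlue.zero_of_nonpos (div_nonpos_of_nonpos_of_nonneg ht hδ.le), mul_zero]

theorem hh_nonneg {δ : ℝ} (hδ : 0 < δ) (t : ℝ) : 0 ≤ hh δ t := by
  rcases le_total t 0 with h | h
  · rw [hh_zero hδ h]
  · exact mul_nonneg h (expNegInvGlue.nonneg _)

theorem hh_le {δ t : ℝ} (ht : 0 ≤ t) : hh δ t ≤ t := by
  unfold hh
  calc t * expNegInvGlue (t / δ) ≤ t * 1 := mul_le_mul_of_nonneg_left (glue_le_one _) ht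
    _ = t := mul_one t

theorem hh_eq {δ t : ℝ} (hδ : 0 < δ) (ht : 0 < t) : hh δ t = t * Real.exp (-(δ / t)) := by
  unfold hh expNegInvGlue
  rw [if_neg (not_le.2 (div_pos ht hδ)), inv_div]

theorem deriv_hh {δ : ℝ} (hδ : 0 < δ) (t : ℝ) : |deriv (hh δ) t| ≤ 1 := by
  rcases le_or_gt t 0 with ht | ht
  · have h : IsLocalMin (hh δ) t := Filter.Eventually.of_forall fun w => by
      rw [hh_zero hδ ht]
      exact hh_nonneg hδ w
    rw [h.deriv_eq_zero, abs_zero]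
    exact zero_le_one
  · have h1 : HasDerivAt (fun s : ℝ => s * Real.exp (-(δ / s)))
        (1 * Real.exp (-(δ / t)) + t * (Real.exp (-(δ / t)) * (δ / t ^ 2))) t := by
      have h2 : HasDerivAt (fun s : ℝ => -(δ / s)) (δ / t ^ 2) t := by
        have h3 := ((hasDerivAt_inv ht.ne').const_mul δ).neg
        have e : -(δ * -(t ^ 2)⁻¹) = δ / t ^ 2 := by rw [div_eq_mul_inv]; ring
        rw [e] at h3
        exact h3
      exact (hasDerivAt_id t).mul h2.exp
    have h2 : hh δ =ᶠ[𝓝 t] fun s : ℝ => s * Real.exp (-(δ / s)) := by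
      filter_upwards [lt_mem_nhds ht] with s hs
      exact hh_eq hδ hs
    rw [h2.deriv_eq, h1.deriv]
    have e : 1 * Real.exp (-(δ / t)) + t * (Real.exp (-(δ / t)) * (δ / t ^ 2)) =
        (δ / t + 1) * Real.exp (-(δ / t)) := by
      field_simp
      ring
    rw [e, abs_of_nonneg (by positivity)]
    calc (δ / t + 1) * Real.exp (-(δ / t)) ≤ Real.exp (δ / t) * Real.exp (-(δ / t)) :=
          mul_le_mul_of_nonneg_right (Real.add_one_le_exp _) (Real.exp_pos _).le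
      _ = 1 := by rw [← Real.exp_add, add_neg_cancel, Real.exp_zero]

theorem hh_tendsto {t : ℝ} (ht : 0 < t) :
    Tendsto (fun n : ℕ => hh (1 / ((n : ℝ) + 1)) t) atTop (𝓝 t) := by
  have h1 : Tendsto (fun n : ℕ => t * Real.exp (-(1 / ((n : ℝ) + 1) / t))) atTop
      (𝓝 (t * Real.exp (-(0 / t)))) := by
    refine Tendsto.const_mul t ?_
    exact (Real.continuous_exp.tendsto _).comp
      ((tendsto_one_div_add_atTop_nhds_zero_nat.div_const t).neg)
  rw [zero_div, neg_zero, Real.exp_zero, mul_one] at h1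
  refine h1.congr fun n => ?_
  rw [hh_eq (by positivity) ht]

section

variable {r η : ℝ}

open Classical in
/-- the test function -/
noncomputable def ph (r η δ : ℝ) (z : ℂ) : ℝ := if ‖z‖ < r + η then hh δ (psi r z) else 0

theorem ph_nonneg {δ : ℝ} (hδ : 0 < δ) (z : ℂ) : 0 ≤ ph r η δ z := by
  unfold ph
  split_ifs
  · exact hh_nonneg hδ _
  · exact le_rfl

theorem ph_zero (hneg : ∀ z : ℂ, r ≤ ‖z‖ → ‖z‖ ≤ r + η → psi r z ≤ 0) {δ : ℝ} (hδ : 0 < δ)
    {z : ℂ} (hz : r ≤ ‖z‖) : ph r η δ z = 0 := by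
  unfold ph
  split_ifs with h
  · exact hh_zero hδ (hneg z hz h.le)
  · rfl

theorem ph_eq (hη : 0 < η) {δ : ℝ} {z : ℂ} (hz : ‖z‖ < r) : ph r η δ z = hh δ (psi r z) := by
  unfold ph
  rw [if_pos (by linarith)]

theorem ph_smooth (hη : 0 < η) (hneg : ∀ z : ℂ, r ≤ ‖z‖ → ‖z‖ ≤ r + η → psi r z ≤ 0) {δ : ℝ}
    (hδ : 0 < δ) : ContDiff ℝ ∞ (ph r η δ) := by
  rw [contDiff_iff_contDiffAt]
  intro z
  by_cases hz : ‖z‖ < r + η
  · have h1 : ph r η δ =ᶠ[𝓝 z] fun w => hh δ (psi r w) := by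
      filter_upwards [(isOpen_lt continuous_norm continuous_const).mem_nhds hz] with w hw
      unfold ph
      rw [if_pos hw]
    exact (((hh_smooth δ).comp (psi_smooth r)).contDiffAt).congr_of_eventuallyEq h1
  · have hz' : r < ‖z‖ := by linarith [not_lt.1 hz]
    have h1 : ph r η δ =ᶠ[𝓝 z] fun _ => 0 := by
      filter_upwards [(isOpen_lt continuous_const continuous_norm).mem_nhds hz'] with w hw
      exact ph_zero hneg hδ hw.le
    exact contDiffAt_const.congr_of_eventuallyEq h1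

theorem ph_tsupport (hneg : ∀ z : ℂ, r ≤ ‖z‖ → ‖z‖ ≤ r + η → psi r z ≤ 0) {δ : ℝ} (hδ : 0 < δ) :
    tsupport (ph r η δ) ⊆ closedBall 0 r := by
  refine closure_minimal ?_ isClosed_closedBall
  intro z hz
  rw [mem_closedBall_zero_iff]
  by_contra h
  exact hz (ph_zero hneg hδ (not_le.1 h).le)

theorem fderiv_ph (hη : 0 < η) (hneg : ∀ z : ℂ, r ≤ ‖z‖ → ‖z‖ ≤ r + η → psi r z ≤ 0) {δ : ℝ}
    (hδ : 0 < δ) (z : ℂ) :
    ‖fderiv ℝ (ph r η δ) z‖ ^ 2 ≤
      (ball (0 : ℂ) r).indicator (fun z => ‖fderiv ℝ (psi r) z‖ ^ 2) z := by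
  by_cases hz : ‖z‖ < r
  · rw [indicator_of_mem (mem_ball_zero_iff.2 hz)]
    have h1 : ph r η δ =ᶠ[𝓝 z] hh δ ∘ psi r := by
      filter_upwards [(isOpen_lt continuous_norm continuous_const).mem_nhds hz] with w hw
      exact ph_eq hη hw
    have h2 : DifferentiableAt ℝ (hh δ) (psi r z) :=
      ((hh_smooth δ).differentiable (by simp)) _
    have h3 : DifferentiableAt ℝ (psi r) z := ((psi_smooth r).differentiable (by simp)) _
    have h4 : fderiv ℝ (hh δ ∘ psi r) z = deriv (hh δ) (psi r z) • fderiv ℝ (psi r) z := by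
      exact (h2.hasDerivAt.comp_hasFDerivAt z h3.hasFDerivAt).fderiv
    rw [h1.fderiv_eq, h4, norm_smul, mul_pow]
    have h5 : ‖deriv (hh δ) (psi r z)‖ ^ 2 ≤ 1 := by
      rw [Real.norm_eq_abs]
      exact pow_le_one₀ (abs_nonneg _) (deriv_hh hδ _)
    calc ‖deriv (hh δ) (psi r z)‖ ^ 2 * ‖fderiv ℝ (psi r) z‖ ^ 2
        ≤ 1 * ‖fderiv ℝ (psi r) z‖ ^ 2 := mul_le_mul_of_nonneg_right h5 (by positivity)
      _ = _ := one_mul _
  · rw [indicator_of_notMem (fun h => hz (mem_ball_zero_iff.1 h)),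
      fderiv_zero_of_nonneg (ph_nonneg hδ) (ph_zero hneg hδ (not_lt.1 hz)), norm_zero]
    norm_num

theorem ph_sq_le (hr : 0 < r) (hη : 0 < η)
    (hneg : ∀ z : ℂ, r ≤ ‖z‖ → ‖z‖ ≤ r + η → psi r z ≤ 0) {δ : ℝ} (hδ : 0 < δ) (z : ℂ) :
    ph r η δ z ^ 2 ≤ (ball (0 : ℂ) r).indicator (fun z => psi r z ^ 2) z := by
  by_cases hz : ‖z‖ < r
  · rw [indicator_of_mem (mem_ball_zero_iff.2 hz), ph_eq hη hz]
    exact pow_le_pow_left₀ (hh_nonneg hδ _) (hh_le (psi_pos hr hz).le) 2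
  · rw [indicator_of_notMem (fun h => hz (mem_ball_zero_iff.1 h)), ph_zero hneg hδ (not_lt.1 hz)]
    norm_num

theorem integrable_ball {f : ℂ → ℝ} (hf : Continuous f) : IntegrableOn f (ball (0 : ℂ) r) :=
  (hf.continuousOn.integrableOn_compact (isCompact_closedBall (0 : ℂ) r)).mono_set
    ball_subset_closedBall

end

end DiscBAux

open DiscBAux Filter Topology in
theorem exists_disc_test {R ε : ℝ} (hR : 0 < R) (hε : 0 < ε) :
    ∃ φ : ℂ → ℝ, IsTest (ball (0 : ℂ) R) φ ∧ 0 < ∫ z, φ z ^ 2 ∧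
      ∫ z, ‖fderiv ℝ φ z‖ ^ 2 ≤ (j01 ^ 2 / R ^ 2 + ε) * ∫ z, φ z ^ 2 := by
  obtain ⟨r, hr0, hrR, hr⟩ : ∃ r, 0 < r ∧ r < R ∧ j01 ^ 2 / r ^ 2 < j01 ^ 2 / R ^ 2 + ε := by
    have h1 : Tendsto (fun r : ℝ => j01 ^ 2 / r ^ 2) (𝓝[<] R) (𝓝 (j01 ^ 2 / R ^ 2)) := by
      refine Tendsto.mono_left ?_ nhdsWithin_le_nhds
      exact (tendsto_const_nhds).div ((continuous_pow 2).tendsto R) (pow_ne_zero 2 hR.ne')
    have h2 := (h1.eventually (gt_mem_nhds (show j01 ^ 2 / R ^ 2 < j01 ^ 2 / R ^ 2 + ε by linarith))).and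
      ((Filter.Eventually.filter_mono nhdsWithin_le_nhds (lt_mem_nhds hR)).and self_mem_nhdsWithin)
    obtain ⟨r, h3, h4, h5⟩ := h2.exists
    exact ⟨r, h4, h5, h3⟩
  obtain ⟨η, hη, hneg⟩ := psi_neg hr0
  have hpc : Continuous (psi r) := (psi_smooth r).continuous
  have hfc : Continuous (fun z => ‖fderiv ℝ (psi r) z‖ ^ 2) :=
    (((psi_smooth r).continuous_fderiv (by simp)).norm.pow 2)
  have hM1 : Integrable ((ball (0 : ℂ) r).indicator (fun z => psi r z ^ 2)) :=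
    (integrable_indicator_iff measurableSet_ball).2 (integrable_ball (hpc.pow 2))
  have hM2 : Integrable ((ball (0 : ℂ) r).indicator (fun z => ‖fderiv ℝ (psi r) z‖ ^ 2)) :=
    (integrable_indicator_iff measurableSet_ball).2 (integrable_ball hfc)
  set M : ℝ := ∫ z in ball (0 : ℂ) r, psi r z ^ 2 with hM
  have hMpos : 0 < M := by
    have h1 : ball (0 : ℂ) r ⊆ Function.support (fun z => psi r z ^ 2) ∩ ball (0 : ℂ) r :=
      fun z hz => ⟨(pow_pos (psi_pos hr0 (mem_ball_zero_iff.1 hz)) 2).ne', hz⟩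
    exact (setIntegral_pos_iff_support_of_nonneg_ae (f := fun z => psi r z ^ 2)
      (Filter.Eventually.of_forall fun z => sq_nonneg (psi r z))
      (integrable_ball (f := fun z => psi r z ^ 2) (hpc.pow 2))).2
      (lt_of_lt_of_le (measure_ball_pos volume 0 hr0) (measure_mono h1))
  let φ : ℕ → ℂ → ℝ := fun n => ph r η (1 / ((n : ℝ) + 1))
  have hδ : ∀ n : ℕ, 0 < 1 / ((n : ℝ) + 1) := fun n => by positivity
  have hlim : Tendsto (fun n => ∫ z, φ n z ^ 2) atTop (𝓝 M) := by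
    rw [hM, ← integral_indicator measurableSet_ball]
    refine tendsto_integral_of_dominated_convergence
      ((ball (0 : ℂ) r).indicator (fun z => psi r z ^ 2)) ?_ hM1 ?_ ?_
    · intro n
      exact (((ph_smooth hη hneg (hδ n)).continuous.pow 2)).aestronglyMeasurable
    · intro n
      refine Filter.Eventually.of_forall fun z => ?_
      rw [Real.norm_of_nonneg (by positivity)]
      exact ph_sq_le hr0 hη hneg (hδ n) z
    · refine Filter.Eventually.of_forall fun z => ?_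
      by_cases hz : ‖z‖ < r
      · rw [indicator_of_mem (mem_ball_zero_iff.2 hz)]
        have h1 := (hh_tendsto (psi_pos hr0 hz)).pow 2
        refine h1.congr fun n => ?_
        simp only [φ]
        rw [ph_eq hη hz]
      · rw [indicator_of_notMem (fun h => hz (mem_ball_zero_iff.1 h))]
        refine tendsto_const_nhds.congr fun n => ?_
        simp only [φ]
        rw [ph_zero hneg (hδ n) (not_lt.1 hz)]
        norm_num
  have hen : ∀ n, ∫ z, ‖fderiv ℝ (φ n) z‖ ^ 2 ≤ j01 ^ 2 / r ^ 2 * M := by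
    intro n
    rw [hM, ← disc_identity hr0, ← integral_indicator measurableSet_ball]
    exact integral_mono_of_nonneg (Filter.Eventually.of_forall fun z => by positivity) hM2
      (Filter.Eventually.of_forall fun z => fderiv_ph hη hneg (hδ n) z)
  have h1 : Tendsto (fun n => (j01 ^ 2 / R ^ 2 + ε) * ∫ z, φ n z ^ 2) atTop
      (𝓝 ((j01 ^ 2 / R ^ 2 + ε) * M)) := hlim.const_mul _
  have h2 : j01 ^ 2 / r ^ 2 * M < (j01 ^ 2 / R ^ 2 + ε) * M := mul_lt_mul_of_pos_right hr hMpos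
  obtain ⟨n, h3, h4⟩ := ((h1.eventually (lt_mem_nhds h2)).and
    (hlim.eventually (lt_mem_nhds hMpos))).exists
  refine ⟨φ n, ⟨ph_smooth hη hneg (hδ n), ?_, ?_⟩, h4, (hen n).trans h3.le⟩
  · exact HasCompactSupport.of_support_subset_isCompact (isCompact_closedBall (0 : ℂ) r)
      ((subset_tsupport _).trans (ph_tsupport hneg (hδ n)))
  · exact (ph_tsupport hneg (hδ n)).trans (closedBall_subset_ball hrR)

end DK4
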