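import Pool.Agent.Lib.DK4.DiscB
import Pool.Agent.Lib.DK4.Bump

/-!
Module DK4.DiscC: `n` disjoint discs of radius `R` have `λ_n ≤ j01²/R²`.

Proof.  For `ε > 0` take `φ` from `exists_disc_test`, `b_i z = φ (z - c i)`, supported in
`ball (c i) R`; these balls are pairwise disjoint.  The span of the `b_i` has dimension `n`, consists of
test functions, and for `u = ∑ t_i b_i`: `∫ u² = ∑ t_i² ∫ φ²`, `∫ |∇u|² = ∑ t_i² ∫ |∇φ|²` (disjoint
supports; see the proof of Bump.exists_space).  So `j01²/R² + ε` lies in the set defining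
`dirEig n`, which is bounded below by `0` (n ≥ 1: a nonzero `u ∈ V` has `∫ u² > 0`).
-/

open MeasureTheory Set Metric
open scoped ContDiff

namespace DK4

namespace DiscCAux

/-- `∫ u²` and the energy of a sum of functions with disjoint supports -/
theorem energy_le {n : ℕ} (b : Fin n → ℂ → ℝ) (hb : ∀ i, ContDiff ℝ ∞ (b i))
    (hc : ∀ i, HasCompactSupport (b i)) (hd : ∀ i j, i ≠ j → ∀ z, z ∈ tsupport (b i) →
      z ∉ tsupport (b j)) {Λ : ℝ}
    (hle : ∀ i, ∫ z, ‖fderiv ℝ (b i) z‖ ^ 2 ≤ Λ * ∫ z, b i z ^ 2) (g : Fin n → ℝ) :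
    ∫ z, ‖fderiv ℝ (∑ i, g i • b i) z‖ ^ 2 ≤ Λ * ∫ z, (∑ i, g i • b i) z ^ 2 := by
  have hdiff : ∀ i z, DifferentiableAt ℝ (b i) z := fun i z =>
    ((hb i).differentiable (by simp)).differentiableAt
  have hE : ∀ z, ‖fderiv ℝ (∑ i, g i • b i) z‖ ^ 2 =
      ∑ i, g i ^ 2 * ‖fderiv ℝ (b i) z‖ ^ 2 := by
    intro z
    have h1 : HasFDerivAt (∑ i, g i • b i) (∑ i, g i • fderiv ℝ (b i) z) z :=
      HasFDerivAt.sum fun i _ => (hdiff i z).hasFDerivAt.const_smul (g i)
    rw [h1.fderiv, BumpAux.norm_sum_sq]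
    · refine Finset.sum_congr rfl fun i _ => ?_
      rw [norm_smul, mul_pow, Real.norm_eq_abs, sq_abs]
    · intro i j hij
      by_cases hz : z ∈ tsupport (b i)
      · right
        rw [fderiv_of_notMem_tsupport ℝ (hd i j hij z hz), smul_zero]
      · left
        rw [fderiv_of_notMem_tsupport ℝ hz, smul_zero]
  have hM : ∀ z, (∑ i, g i • b i) z ^ 2 = ∑ i, g i ^ 2 * b i z ^ 2 := by
    intro z
    have h1 : (∑ i, g i • b i) z = ∑ i, g i * b i z := by
      rw [Finset.sum_apply]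
      rfl
    rw [h1, ← sq_abs, ← Real.norm_eq_abs, BumpAux.norm_sum_sq]
    · refine Finset.sum_congr rfl fun i _ => ?_
      rw [Real.norm_eq_abs, sq_abs, mul_pow]
    · intro i j hij
      by_cases hz : z ∈ tsupport (b i)
      · right
        rw [image_eq_zero_of_notMem_tsupport (hd i j hij z hz), mul_zero]
      · left
        rw [image_eq_zero_of_notMem_tsupport hz, mul_zero]
  have hcontE : ∀ i, Integrable (fun z => g i ^ 2 * ‖fderiv ℝ (b i) z‖ ^ 2) := by
    intro i
    have h1 : Continuous (fderiv ℝ (b i)) := (hb i).continuous_fderiv (by simp)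
    have h2 : HasCompactSupport (fderiv ℝ (b i)) := (hc i).fderiv ℝ
    have h3 : HasCompactSupport fun z => ‖fderiv ℝ (b i) z‖ ^ 2 := by
      refine h2.mono' ?_
      intro z hz
      apply subset_tsupport
      intro h4
      exact hz (by simp [h4])
    exact ((h1.norm.pow 2).integrable_of_hasCompactSupport h3).const_mul _
  have hcontM : ∀ i, Integrable (fun z => g i ^ 2 * b i z ^ 2) := by
    intro i
    have h1 : Continuous (b i) := (hb i).continuous
    have h3 : HasCompactSupport fun z => b i z ^ 2 := by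
      refine (hc i).mono' ?_
      intro z hz
      apply subset_tsupport
      intro h4
      exact hz (by simp [h4])
    exact ((h1.pow 2).integrable_of_hasCompactSupport h3).const_mul _
  have hEI : ∫ z, ‖fderiv ℝ (∑ i, g i • b i) z‖ ^ 2 =
      ∑ i, g i ^ 2 * ∫ z, ‖fderiv ℝ (b i) z‖ ^ 2 := by
    rw [integral_congr_ae (Filter.Eventually.of_forall hE),
      integral_finsetSum _ fun i _ => hcontE i]
    exact Finset.sum_congr rfl fun i _ => integral_const_mul _ _
  have hMI : ∫ z, (∑ i, g i • b i) z ^ 2 = ∑ i, g i ^ 2 * ∫ z, b i z ^ 2 := by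
    rw [integral_congr_ae (Filter.Eventually.of_forall hM),
      integral_finsetSum _ fun i _ => hcontM i]
    exact Finset.sum_congr rfl fun i _ => integral_const_mul _ _
  rw [hEI, hMI, Finset.mul_sum]
  refine Finset.sum_le_sum fun i _ => ?_
  calc g i ^ 2 * ∫ z, ‖fderiv ℝ (b i) z‖ ^ 2 ≤ g i ^ 2 * (Λ * ∫ z, b i z ^ 2) :=
        mul_le_mul_of_nonneg_left (hle i) (by positivity)
    _ = _ := by ring

theorem fderiv_shift {φ : ℂ → ℝ} (hφ : ContDiff ℝ ∞ φ) (c z : ℂ) :
    fderiv ℝ (fun w => φ (w - c)) z = fderiv ℝ φ (z - c) := by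
  have h1 : HasFDerivAt φ (fderiv ℝ φ (z - c)) (z - c) :=
    ((hφ.differentiable (by simp)).differentiableAt).hasFDerivAt
  have h2 : HasFDerivAt (fun w : ℂ => w - c) (ContinuousLinearMap.id ℝ ℂ) z :=
    (hasFDerivAt_id z).sub_const c
  have h3 := h1.comp z h2
  rw [ContinuousLinearMap.comp_id] at h3
  exact h3.fderiv

theorem bdd {n : ℕ} (hn : 0 < n) (Ω : Set ℂ) :
    BddBelow {Λ : ℝ | ∃ V : Submodule ℝ (ℂ → ℝ), Module.finrank ℝ V = n ∧
    (∀ u ∈ V, ContDiff ℝ ∞ u ∧ HasCompactSupport u ∧ tsupport u ⊆ Ω) ∧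
    ∀ u ∈ V, ∫ z, ‖fderiv ℝ u z‖ ^ 2 ≤ Λ * ∫ z, u z ^ 2} := by
  refine ⟨0, ?_⟩
  rintro Λ ⟨V, hV, hT, hle⟩
  have hne : V ≠ ⊥ := by
    rintro rfl
    rw [finrank_bot] at hV
    omega
  obtain ⟨u, huV, hu0⟩ := (Submodule.ne_bot_iff V).1 hne
  obtain ⟨hsm, hcs, -⟩ := hT u huV
  have hx : ∃ x, u x ≠ 0 := by
    by_contra h
    push Not at h
    exact hu0 (funext h)
  obtain ⟨x, hx⟩ := hx
  have h3 : HasCompactSupport fun z => u z ^ 2 := by
    refine hcs.mono' ?_
    intro z hz
    apply subset_tsupport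
    intro h4
    exact hz (by simp [h4])
  have hpos : 0 < ∫ z, u z ^ 2 :=
    (hsm.continuous.pow 2).integral_pos_of_hasCompactSupport_nonneg_nonzero h3
      (fun z => sq_nonneg _) (x := x) (by positivity)
  have h1 := hle u huV
  have h2 : 0 ≤ ∫ z, ‖fderiv ℝ u z‖ ^ 2 := integral_nonneg fun z => by positivity
  by_contra hneg
  push Not at hneg
  have := mul_neg_of_neg_of_pos hneg hpos
  linarith

end DiscCAux

open DiscCAux

theorem discs_le {n : ℕ} (hn : 0 < n) {R : ℝ} (hR : 0 < R) (c : Fin n → ℂ)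
    (hd : ∀ i j, i ≠ j → 2 * R ≤ dist (c i) (c j)) :
    dirEig n (⋃ i, ball (c i) R) ≤ j01 ^ 2 / R ^ 2 := by
  refine le_of_forall_pos_le_add fun ε hε => ?_
  obtain ⟨φ, ⟨hφ1, hφ2, hφ3⟩, hpos, hle⟩ := exists_disc_test hR hε
  refine csInf_le (bdd hn _) ?_
  let b : Fin n → ℂ → ℝ := fun i z => φ (z - c i)
  have hts : ∀ i, tsupport (b i) ⊆ (fun z => z - c i) ⁻¹' tsupport φ := by
    intro i
    refine closure_minimal ?_ ((isClosed_tsupport φ).preimage (continuous_id.sub continuous_const))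
    intro z hz
    exact subset_tsupport _ hz
  have hball : ∀ i, tsupport (b i) ⊆ ball (c i) R := by
    intro i z hz
    have := hφ3 (hts i hz)
    rw [mem_ball, dist_zero_right] at this
    rw [mem_ball, dist_eq_norm]
    exact this
  have hsm : ∀ i, ContDiff ℝ ∞ (b i) := fun i => hφ1.comp (contDiff_id.sub contDiff_const)
  have hcs : ∀ i, HasCompactSupport (b i) := by
    intro i
    have h1 : IsCompact ((Homeomorph.subRight (c i)) ⁻¹' tsupport φ) :=
      (Homeomorph.subRight (c i)).isCompact_preimage.2 hφ2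
    exact h1.of_isClosed_subset (isClosed_tsupport _) (hts i)
  have hdis : ∀ i j, i ≠ j → ∀ z, z ∈ tsupport (b i) → z ∉ tsupport (b j) := by
    intro i j hij z hi hj
    have h1 := hball i hi
    have h2 := hball j hj
    rw [mem_ball] at h1 h2
    have h3 := hd i j hij
    have h4 := dist_triangle_left (c i) (c j) z
    linarith
  have hM : ∀ i, ∫ z, b i z ^ 2 = ∫ z, φ z ^ 2 := fun i =>
    integral_sub_right_eq_self (fun z => φ z ^ 2) (c i)
  have hE : ∀ i, ∫ z, ‖fderiv ℝ (b i) z‖ ^ 2 = ∫ z, ‖fderiv ℝ φ z‖ ^ 2 := by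
    intro i
    have : ∀ z, ‖fderiv ℝ (b i) z‖ ^ 2 = ‖fderiv ℝ φ (z - c i)‖ ^ 2 := by
      intro z
      rw [fderiv_shift hφ1]
    simp only [this]
    exact integral_sub_right_eq_self (fun z => ‖fderiv ℝ φ z‖ ^ 2) (c i)
  obtain ⟨z0, hz0⟩ : ∃ z0, φ z0 ≠ 0 := by
    by_contra h
    push Not at h
    simp [h] at hpos
  have hb1 : ∀ i, b i (z0 + c i) ≠ 0 := by
    intro i
    show φ (z0 + c i - c i) ≠ 0
    rw [add_sub_cancel_right]
    exact hz0
  have hb0 : ∀ i j, j ≠ i → b j (z0 + c i) = 0 := fun i j hij =>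
    image_eq_zero_of_notMem_tsupport (hdis i j hij.symm _ (subset_tsupport _ (hb1 i)))
  have hli : LinearIndependent ℝ b := by
    rw [Fintype.linearIndependent_iff]
    intro g hg i
    have h1 := congrFun hg (z0 + c i)
    rw [Finset.sum_apply, Finset.sum_eq_single i] at h1
    · rw [Pi.smul_apply, smul_eq_mul, Pi.zero_apply, mul_eq_zero] at h1
      exact h1.resolve_right (hb1 i)
    · intro j _ hj
      rw [Pi.smul_apply, hb0 i j hj, smul_zero]
    · intro h
      exact absurd (Finset.mem_univ i) h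
  refine ⟨Submodule.span ℝ (Set.range b), ?_, fun u hu => ?_, fun u hu => ?_⟩
  · rw [finrank_span_eq_card hli, Fintype.card_fin]
  · obtain ⟨g, rfl⟩ := (Submodule.mem_span_range_iff_exists_fun ℝ).1 hu
    have hcl : IsClosed (⋃ i, tsupport (b i)) := isClosed_iUnion_of_finite fun i => isClosed_tsupport _
    have h1 : tsupport (∑ i, g i • b i) ⊆ ⋃ i, tsupport (b i) := by
      refine closure_minimal ?_ hcl
      intro z hz
      by_contra hz'
      apply hz
      rw [Finset.sum_apply]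
      refine Finset.sum_eq_zero fun i _ => ?_
      rw [Pi.smul_apply, image_eq_zero_of_notMem_tsupport fun h => hz' (mem_iUnion.2 ⟨i, h⟩), smul_zero]
    refine ⟨?_, ?_, ?_⟩
    · have h2 : (∑ i, g i • b i) = fun z => ∑ i, g i • b i z := by
        funext z
        rw [Finset.sum_apply]
        rfl
      rw [h2]
      exact ContDiff.sum fun i _ => (hsm i).const_smul (g i)
    · exact (isCompact_iUnion fun i => hcs i).of_isClosed_subset isClosed_closure h1
    · exact h1.trans (iUnion_mono fun i => hball i)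
  · obtain ⟨g, rfl⟩ := (Submodule.mem_span_range_iff_exists_fun ℝ).1 hu
    exact energy_le b hsm hcs hdis (fun i => by rw [hE i, hM i]; exact hle) g

theorem discs_vol {n : ℕ} {R : ℝ} (hR : 0 < R) (c : Fin n → ℂ)
    (hd : ∀ i j, i ≠ j → 2 * R ≤ dist (c i) (c j)) :
    volume.real (⋃ i, ball (c i) R) = n * (Real.pi * R ^ 2) := by
  have hdis : Pairwise (Function.onFun Disjoint fun i => ball (c i) R) := by
    intro i j hij
    refine ball_disjoint_ball ?_
    have := hd i j hij
    linarith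
  rw [measureReal_def, measure_iUnion hdis fun i => measurableSet_ball, tsum_fintype]
  simp only [Complex.volume_ball, Finset.sum_const, Finset.card_univ, Fintype.card_fin, nsmul_eq_mul]
  rw [ENNReal.toReal_mul, ENNReal.toReal_mul, ENNReal.toReal_natCast, ENNReal.toReal_pow,
    ENNReal.toReal_ofReal hR.le, ENNReal.coe_toReal, NNReal.coe_real_pi]
  ring

end DK4
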