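import Pool.Agent.Lib.DK4.Main
import Pool.Agent.Lib.DK4.Iso
import Pool.Agent.Lib.DK4.Axes
import Pool.Agent.Lib.DK4.DiscC

/-!
Module DK4.Final (helper65): two axes of symmetry; the sharp sets for `k = 3` and `k = 4`.
-/

open MeasureTheory Set Metric
open scoped ContDiff NNReal

namespace DK4

theorem vol_iso_real {a p : ℂ} (ha : ‖a‖ = 1) (Ω : Set ℂ) :
    volume.real ((fun w => p + a * w) ⁻¹' Ω) = volume.real Ω := by
  unfold Measure.real; rw [vol_iso ha]

theorem two_axes {p a b : ℂ} (ha : ‖a‖ = 1) (hb : ‖b‖ = 1) (hab : a ^ 2 ≠ b ^ 2)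
    (hab' : a ^ 2 ≠ -b ^ 2) {Ω : Set ℂ} (hΩo : IsOpen Ω) (hne : Ω.Nonempty)
    (hfin : volume Ω ≠ ⊤)
    (hSa : ∀ z ∈ Ω, p + a ^ 2 * (starRingEnd ℂ) (z - p) ∈ Ω)
    (hSb : ∀ z ∈ Ω, p + b ^ 2 * (starRingEnd ℂ) (z - p) ∈ Ω) :
    4 * Real.pi * j01 ^ 2 ≤ dirEig 4 Ω * volume.real Ω := by
  have haa : a * (starRingEnd ℂ) a = 1 := by
    rw [Complex.mul_conj, Complex.normSq_eq_norm_sq, ha]; simp
  have ha0 : a ≠ 0 := by
    intro h; rw [h] at ha; simp at ha
  set Ω' : Set ℂ := (fun w => p + a * w) ⁻¹' Ω with hΩ'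
  have h1 : ∀ w ∈ Ω', (starRingEnd ℂ) w ∈ Ω' := by
    intro w hw
    have := hSa _ hw
    show p + a * (starRingEnd ℂ) w ∈ Ω
    convert this using 1
    rw [add_sub_cancel_left, map_mul]
    calc p + a * (starRingEnd ℂ) w = p + a * (a * (starRingEnd ℂ) a) * (starRingEnd ℂ) w := by
          rw [haa, mul_one]
      _ = _ := by ring
  have h2 : ∀ w ∈ Ω', (b / a) ^ 2 * (starRingEnd ℂ) w ∈ Ω' := by
    intro w hw
    have := hSb _ hw
    show p + a * ((b / a) ^ 2 * (starRingEnd ℂ) w) ∈ Ω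
    convert this using 1
    rw [add_sub_cancel_left, map_mul]
    have e : (starRingEnd ℂ) a = a⁻¹ := eq_inv_of_mul_eq_one_right haa
    rw [e]
    field_simp
  have hΩ'o : IsOpen Ω' := hΩo.preimage (by fun_prop)
  have hc : ‖(b / a) ^ 2‖ = 1 := by rw [norm_pow, norm_div, ha, hb]; norm_num
  have hc1 : (b / a) ^ 2 ≠ 1 := by
    intro h
    rw [div_pow, div_eq_iff (pow_ne_zero 2 ha0), one_mul] at h
    exact hab h.symm
  have hc2 : (b / a) ^ 2 ≠ -1 := by
    intro h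
    rw [div_pow, div_eq_iff (pow_ne_zero 2 ha0), neg_one_mul] at h
    apply hab'
    rw [h, neg_neg]
  obtain ⟨k, hk, hD⟩ := dsym_of_axes hc hc1 hc2 hΩ'o h1 h2
  have hne' : Ω'.Nonempty := by
    obtain ⟨z, hz⟩ := hne
    refine ⟨(z - p) / a, ?_⟩
    show p + a * ((z - p) / a) ∈ Ω
    rw [mul_div_cancel₀ _ ha0, add_sub_cancel]
    exact hz
  have hfin' : volume Ω' ≠ ⊤ := by rw [hΩ', vol_iso ha]; exact hfin
  have := eig_bound hk hΩ'o hne' hD hfin'
  rwa [hΩ', dirEig_iso 4 ha, vol_iso_real ha] at this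

theorem dsym_balls {n k : ℕ} {c : Fin n → ℂ} {R : ℝ} (h1 : ∀ i, ∃ j, rot k * c i = c j)
    (h2 : ∀ i, ∃ j, (starRingEnd ℂ) (c i) = c j) : DSym k (⋃ i, ball (c i) R) := by
  intro z hz
  rw [mem_iUnion] at hz
  obtain ⟨i, hi⟩ := hz
  rw [mem_ball, Complex.dist_eq] at hi
  constructor
  · obtain ⟨j, hj⟩ := h1 i
    rw [mem_iUnion]
    refine ⟨j, ?_⟩
    rw [mem_ball, Complex.dist_eq, ← hj, ← mul_sub, norm_mul, norm_rot, one_mul]
    exact hi
  · obtain ⟨j, hj⟩ := h2 i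
    rw [mem_iUnion]
    refine ⟨j, ?_⟩
    rw [mem_ball, Complex.dist_eq, ← hj, ← map_sub, RCLike.norm_conj]
    exact hi

/-- four equal discs are optimal whenever they have the symmetry -/
theorem sharp_of {k : ℕ} (hk : 3 ≤ k) {c : Fin 4 → ℂ}
    (hd : ∀ i j, i ≠ j → 2 ≤ dist (c i) (c j)) (h1 : ∀ i, ∃ j, rot k * c i = c j)
    (h2 : ∀ i, ∃ j, (starRingEnd ℂ) (c i) = c j) :
    ∃ c : Fin 4 → ℂ, (∀ i j, i ≠ j → 2 ≤ dist (c i) (c j)) ∧
      DSym k (⋃ i, ball (c i) 1) ∧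
      dirEig 4 (⋃ i, ball (c i) 1) * volume.real (⋃ i, ball (c i) 1) =
        4 * Real.pi * j01 ^ 2 := by
  have hd' : ∀ i j, i ≠ j → 2 * (1 : ℝ) ≤ dist (c i) (c j) := by
    intro i j hij; rw [mul_one]; exact hd i j hij
  have hop : IsOpen (⋃ i, ball (c i) 1) := isOpen_iUnion fun i => isOpen_ball
  have hne : (⋃ i, ball (c i) 1).Nonempty :=
    ⟨c 0, mem_iUnion.2 ⟨0, mem_ball_self one_pos⟩⟩
  have hbd : Bornology.IsBounded (⋃ i, ball (c i) 1) :=
    (Bornology.isBounded_iUnion).2 fun i => isBounded_ball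
  have hD : DSym k (⋃ i, ball (c i) 1) := dsym_balls h1 h2
  refine ⟨c, hd, hD, le_antisymm ?_ (eig_bound hk hop hne hD hbd.measure_lt_top.ne)⟩
  have e1 := discs_le (by norm_num : 0 < 4) one_pos c hd'
  have e2 := discs_vol one_pos c hd'
  rw [e2]
  have hpi := Real.pi_pos
  have : dirEig 4 (⋃ i, ball (c i) 1) ≤ j01 ^ 2 := by simpa using e1
  push_cast
  nlinarith

theorem rot3_re : (rot 3).re = -1 / 2 := by
  have e : (2 * Real.pi * Complex.I / (3 : ℕ) : ℂ) = ((2 * Real.pi / 3 : ℝ) : ℂ) * Complex.I := by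
    push_cast; ring
  unfold rot
  rw [e, Complex.exp_ofReal_mul_I_re]
  have : Real.cos (2 * Real.pi / 3) = -1 / 2 := by
    rw [show 2 * Real.pi / 3 = Real.pi - Real.pi / 3 by ring, Real.cos_pi_sub, Real.cos_pi_div_three]
    norm_num
  exact this

theorem rot4 : rot 4 = Complex.I := by
  have e : (2 * Real.pi * Complex.I / (4 : ℕ) : ℂ) = ((Real.pi / 2 : ℝ) : ℂ) * Complex.I := by
    push_cast; ring
  unfold rot
  rw [e]
  apply Complex.ext
  · rw [Complex.exp_ofReal_mul_I_re]; simp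
  · rw [Complex.exp_ofReal_mul_I_im]; simp

theorem sharp3 : ∃ c : Fin 4 → ℂ, (∀ i j, i ≠ j → 2 ≤ dist (c i) (c j)) ∧
      DSym 3 (⋃ i, ball (c i) 1) ∧
      dirEig 4 (⋃ i, ball (c i) 1) * volume.real (⋃ i, ball (c i) 1) =
        4 * Real.pi * j01 ^ 2 := by
  have h3 : rot 3 ^ 3 = 1 := rot_pow (by norm_num)
  have hn : ‖rot 3‖ = 1 := norm_rot 3
  have hcc : rot 3 * (starRingEnd ℂ) (rot 3) = 1 := by
    rw [Complex.mul_conj, Complex.normSq_eq_norm_sq, hn]; simp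
  have hcj : (starRingEnd ℂ) (rot 3) = rot 3 ^ 2 := by
    have h0 : rot 3 ≠ 0 := by intro h; rw [h] at hn; simp at hn
    apply mul_left_cancel₀ h0
    rw [hcc, ← h3]; ring
  have hcj2 : (starRingEnd ℂ) (rot 3 ^ 2) = rot 3 := by
    rw [map_pow, hcj, ← pow_mul]
    calc rot 3 ^ (2 * 2) = rot 3 ^ 3 * rot 3 := by ring
      _ = rot 3 := by rw [h3, one_mul]
  have hre := rot3_re
  have hnsq : (rot 3).re ^ 2 + (rot 3).im ^ 2 = 1 := by
    have := Complex.normSq_eq_norm_sq (rot 3)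
    rw [Complex.normSq_apply, hn] at this
    nlinarith
  have him : (rot 3).im ^ 2 = 3 / 4 := by rw [hre] at hnsq; linarith
  have hdist : ∀ z w : ℂ, 4 ≤ (z.re - w.re) ^ 2 + (z.im - w.im) ^ 2 → 2 ≤ dist z w := by
    intro z w h
    rw [Complex.dist_eq]
    have e := Complex.normSq_eq_norm_sq (z - w)
    rw [Complex.normSq_apply, Complex.sub_re, Complex.sub_im] at e
    nlinarith [norm_nonneg (z - w)]
  have hr2 : (rot 3 ^ 2).re = -1 / 2 := by
    rw [← hcj, Complex.conj_re, hre]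
  have hi2 : (rot 3 ^ 2).im = -(rot 3).im := by
    rw [← hcj, Complex.conj_im]
  have e1 : (3 * rot 3).re = -3 / 2 := by
    rw [Complex.mul_re, hre]; norm_num
  have e2 : (3 * rot 3).im = 3 * (rot 3).im := by
    rw [Complex.mul_im]; norm_num
  have e3 : (3 * rot 3 ^ 2).re = -3 / 2 := by
    rw [Complex.mul_re, hr2]; norm_num
  have e4 : (3 * rot 3 ^ 2).im = -(3 * (rot 3).im) := by
    rw [Complex.mul_im, hi2]; norm_num
  apply sharp_of (le_refl 3) (c := ![0, 3, 3 * rot 3, 3 * rot 3 ^ 2])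
  · intro i j hij
    fin_cases i <;> fin_cases j <;> first | exact absurd rfl hij | skip
    all_goals
      apply hdist
      simp only [Matrix.cons_val_zero, Matrix.cons_val_one, Matrix.cons_val, Fin.zero_eta,
        Fin.mk_one, Fin.reduceFinMk, e1, e2, e3, e4, Complex.zero_re, Complex.zero_im,
        Complex.re_ofNat, Complex.im_ofNat]
      nlinarith
  · intro i
    fin_cases i
    · exact ⟨0, by simp⟩
    · refine ⟨2, ?_⟩
      show rot 3 * 3 = 3 * rot 3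
      ring
    · refine ⟨3, ?_⟩
      show rot 3 * (3 * rot 3) = 3 * rot 3 ^ 2
      ring
    · refine ⟨1, ?_⟩
      show rot 3 * (3 * rot 3 ^ 2) = 3
      calc rot 3 * (3 * rot 3 ^ 2) = 3 * rot 3 ^ 3 := by ring
        _ = 3 := by rw [h3, mul_one]
  · intro i
    fin_cases i
    · exact ⟨0, by simp⟩
    · refine ⟨1, ?_⟩
      show (starRingEnd ℂ) 3 = 3
      exact Complex.conj_ofNat 3
    · refine ⟨3, ?_⟩
      show (starRingEnd ℂ) (3 * rot 3) = 3 * rot 3 ^ 2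
      rw [map_mul, hcj, Complex.conj_ofNat]
    · refine ⟨2, ?_⟩
      show (starRingEnd ℂ) (3 * rot 3 ^ 2) = 3 * rot 3
      rw [map_mul, hcj2, Complex.conj_ofNat]

theorem sharp4 : ∃ c : Fin 4 → ℂ, (∀ i j, i ≠ j → 2 ≤ dist (c i) (c j)) ∧
      DSym 4 (⋃ i, ball (c i) 1) ∧
      dirEig 4 (⋃ i, ball (c i) 1) * volume.real (⋃ i, ball (c i) 1) =
        4 * Real.pi * j01 ^ 2 := by
  have hdist : ∀ z w : ℂ, 4 ≤ (z.re - w.re) ^ 2 + (z.im - w.im) ^ 2 → 2 ≤ dist z w := by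
    intro z w h
    rw [Complex.dist_eq]
    have e := Complex.normSq_eq_norm_sq (z - w)
    rw [Complex.normSq_apply, Complex.sub_re, Complex.sub_im] at e
    nlinarith [norm_nonneg (z - w)]
  apply sharp_of (by norm_num : 3 ≤ 4) (c := ![2, 2 * Complex.I, -2, -(2 * Complex.I)])
  · intro i j hij
    fin_cases i <;> fin_cases j <;> first | exact absurd rfl hij | skip
    all_goals
      apply hdist
      simp [Complex.mul_re, Complex.mul_im]
      try norm_num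
  · rw [rot4]
    intro i
    fin_cases i
    · refine ⟨1, ?_⟩
      show Complex.I * 2 = 2 * Complex.I
      ring
    · refine ⟨2, ?_⟩
      show Complex.I * (2 * Complex.I) = -2
      linear_combination 2 * Complex.I_mul_I
    · refine ⟨3, ?_⟩
      show Complex.I * (-2) = -(2 * Complex.I)
      ring
    · refine ⟨0, ?_⟩
      show Complex.I * (-(2 * Complex.I)) = 2
      linear_combination (-2) * Complex.I_mul_I
  · intro i
    fin_cases i
    · refine ⟨0, ?_⟩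
      show (starRingEnd ℂ) 2 = 2
      exact Complex.conj_ofNat 2
    · refine ⟨3, ?_⟩
      show (starRingEnd ℂ) (2 * Complex.I) = -(2 * Complex.I)
      rw [map_mul, Complex.conj_I, Complex.conj_ofNat]; ring
    · refine ⟨2, ?_⟩
      show (starRingEnd ℂ) (-2) = -2
      rw [map_neg, Complex.conj_ofNat]
    · refine ⟨1, ?_⟩
      show (starRingEnd ℂ) (-(2 * Complex.I)) = 2 * Complex.I
      rw [map_neg, map_mul, Complex.conj_I, Complex.conj_ofNat]; ring

end DK4
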