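import Pool.Agent.Lib.DK4.GDefs
import Pool.Agent.Lib.DK4.Inv

/-!
Module DK4.Fold: folding of half planes and quadrants.

`foldq t s σ τ f = f ∘ Φ`, `Φ z = (t + σ|x|, s + τ|y|)`, `Φ` is 1-Lipschitz and proper, so `foldq f` is Adm.
On each open coordinate quadrant `Φ` coincides with an affine isometry of the plane mapping it onto
`Qd t s σ τ` (reflections and a translation), hence `‖fderiv (foldq f) z‖ = ‖fderiv f (Φ z)‖` there and
each of the four quadrants contributes `∫_{Qd} ‖fderiv f‖²`; the axes are null sets.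
Use `integral_foldq` for `g = f²`, `g = ‖fderiv f‖²` and indicators.
(Half planes: `foldh`, factor 2.)
-/

open MeasureTheory Set
open scoped ContDiff

namespace DK4

namespace FoldAux

theorem exists_L {a b : ℝ} (ha : a = 1 ∨ a = -1) (hb : b = 1 ∨ b = -1) :
    ∃ L : ℂ ≃ₗᵢ[ℝ] ℂ, ∀ z, L z = ⟨a * z.re, b * z.im⟩ := by
  rcases ha with rfl | rfl <;> rcases hb with rfl | rfl
  · exact ⟨LinearIsometryEquiv.refl ℝ ℂ, fun z => by apply Complex.ext <;> simp⟩
  · exact ⟨Complex.conjLIE, fun z => by apply Complex.ext <;> simp⟩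
  · refine ⟨Complex.conjLIE.trans (LinearIsometryEquiv.neg ℝ), fun z => ?_⟩
    apply Complex.ext <;> simp
  · refine ⟨LinearIsometryEquiv.neg ℝ, fun z => ?_⟩
    apply Complex.ext <;> simp

/-- an affine isometry -/
def Aff (t s a b : ℝ) (z : ℂ) : ℂ := ⟨t + a * z.re, s + b * z.im⟩

theorem aff_eq {t s a b : ℝ} {L : ℂ ≃ₗᵢ[ℝ] ℂ} (hL : ∀ z, L z = ⟨a * z.re, b * z.im⟩) :
    Aff t s a b = (fun w : ℂ => w + ⟨t, s⟩) ∘ (L : ℂ → ℂ) := by
  funext z
  change Aff t s a b z = L z + ⟨t, s⟩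
  rw [hL]
  apply Complex.ext
  · simp [Aff, add_comm]
  · simp [Aff, add_comm]

theorem aff_mp {a b : ℝ} (ha : a = 1 ∨ a = -1) (hb : b = 1 ∨ b = -1) (t s : ℝ) :
    MeasurePreserving (Aff t s a b) := by
  obtain ⟨L, hL⟩ := exists_L ha hb
  rw [aff_eq hL]
  exact (measurePreserving_add_right volume (⟨t, s⟩ : ℂ)).comp L.measurePreserving

theorem aff_me {a b : ℝ} (ha : a = 1 ∨ a = -1) (hb : b = 1 ∨ b = -1) (t s : ℝ) :
    MeasurableEmbedding (Aff t s a b) := by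
  obtain ⟨L, hL⟩ := exists_L ha hb
  rw [aff_eq hL]
  exact (Homeomorph.addRight (⟨t, s⟩ : ℂ)).measurableEmbedding.comp (InvAux.emb L)

theorem aff_fd {a b : ℝ} (ha : a = 1 ∨ a = -1) (hb : b = 1 ∨ b = -1) (t s : ℝ) (f : ℂ → ℝ)
    (z : ℂ) : ‖fderiv ℝ (fun z => f (Aff t s a b z)) z‖ = ‖fderiv ℝ f (Aff t s a b z)‖ := by
  obtain ⟨L, hL⟩ := exists_L ha hb
  rw [aff_eq hL]
  change ‖fderiv ℝ (fun z => (fun w => f (w + ⟨t, s⟩)) (L z)) z‖ = ‖fderiv ℝ f (L z + ⟨t, s⟩)‖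
  rw [InvAux.fd L (fun w => f (w + ⟨t, s⟩)) z, fderiv_comp_add_right]

/-- the master lemma -/
theorem master {ι : Type} [Fintype ι] (R : ι → Set ℂ) (A : ι → ℂ → ℂ) (S : Set ℂ)
    (hR : ∀ i, MeasurableSet (R i)) (hd : Pairwise (Function.onFun Disjoint R))
    (hcov : ∀ᵐ z : ℂ, z ∈ ⋃ i, R i) (hA : ∀ i, MeasurePreserving (A i))
    (hE : ∀ i, MeasurableEmbedding (A i)) (hpre : ∀ i, A i ⁻¹' S = R i) (G g : ℂ → ℝ)
    (hG : ∀ i, ∀ z ∈ R i, G z = g (A i z)) (hg : IntegrableOn g S) :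
    ∫ z, G z = Fintype.card ι * ∫ z in S, g z := by
  have h1 : ∫ z, G z = ∫ z in ⋃ i, R i, G z := by
    rw [Measure.restrict_eq_self_of_ae_mem hcov]
  have hint : ∀ i, IntegrableOn G (R i) := by
    intro i
    have h2 : IntegrableOn (g ∘ A i) (R i) := by
      rw [← hpre i]
      exact ((hA i).integrableOn_comp_preimage (hE i)).2 hg
    exact h2.congr_fun (fun z hz => (hG i z hz).symm) (hR i)
  rw [h1, integral_iUnion_fintype hR hd hint]
  have h3 : ∀ i, ∫ z in R i, G z = ∫ z in S, g z := by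
    intro i
    rw [setIntegral_congr_fun (hR i) (hG i), ← hpre i]
    exact (hA i).setIntegral_preimage_emb (hE i) g S
  rw [Finset.sum_congr rfl fun i _ => h3 i, Finset.sum_const, Finset.card_univ, nsmul_eq_mul]

/-- signs -/
def sg (b : Bool) : ℝ := if b then 1 else -1

theorem sg_or (b : Bool) : sg b = 1 ∨ sg b = -1 := by
  cases b
  · right; rfl
  · left; rfl

theorem sg_sq {a : ℝ} (ha : a = 1 ∨ a = -1) : a * a = 1 := by
  rcases ha with rfl | rfl <;> norm_num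

theorem mul_or {a b : ℝ} (ha : a = 1 ∨ a = -1) (hb : b = 1 ∨ b = -1) :
    a * b = 1 ∨ a * b = -1 := by
  rcases ha with rfl | rfl <;> rcases hb with rfl | rfl <;> norm_num

theorem sg_abs {b : Bool} {x : ℝ} (h : 0 < sg b * x) : |x| = sg b * x := by
  cases b
  · have h1 : sg false = -1 := rfl
    rw [h1] at h ⊢
    rw [abs_of_neg (by linarith)]
    ring
  · have h1 : sg true = 1 := rfl
    rw [h1] at h ⊢
    rw [abs_of_pos (by linarith)]
    ring

theorem sg_ne {b b' : Bool} (h : b ≠ b') {x : ℝ} (h1 : 0 < sg b * x) (h2 : 0 < sg b' * x) :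
    False := by
  cases b <;> cases b'
  · exact h rfl
  · simp only [sg] at h1 h2
    norm_num at h1 h2
    linarith
  · simp only [sg] at h1 h2
    norm_num at h1 h2
    linarith
  · exact h rfl

theorem sg_ex {x : ℝ} (h : x ≠ 0) : ∃ b, 0 < sg b * x := by
  rcases lt_or_gt_of_ne h with h | h
  · exact ⟨false, by simp only [sg]; norm_num; exact h⟩
  · exact ⟨true, by simp only [sg]; norm_num; exact h⟩

theorem ae_re : ∀ᵐ z : ℂ, z.re ≠ 0 := by
  have h := Measure.addHaar_submodule (volume : Measure ℂ) (LinearMap.ker Complex.reLm) (by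
    intro h
    have h1 : (1 : ℂ) ∈ LinearMap.ker Complex.reLm := by rw [h]; trivial
    have h2 : (1 : ℂ).re = 0 := h1
    norm_num at h2)
  have h3 : ∀ᵐ z : ℂ, z ∉ ((LinearMap.ker Complex.reLm : Submodule ℝ ℂ) : Set ℂ) :=
    measure_eq_zero_iff_ae_notMem.1 h
  exact h3.mono fun z hz h => hz h

theorem ae_im : ∀ᵐ z : ℂ, z.im ≠ 0 := by
  have h := Measure.addHaar_submodule (volume : Measure ℂ) (LinearMap.ker Complex.imLm) (by
    intro h
    have h1 : (Complex.I : ℂ) ∈ LinearMap.ker Complex.imLm := by rw [h]; trivial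
    have h2 : (Complex.I : ℂ).im = 0 := h1
    norm_num at h2)
  have h3 : ∀ᵐ z : ℂ, z ∉ ((LinearMap.ker Complex.imLm : Submodule ℝ ℂ) : Set ℂ) :=
    measure_eq_zero_iff_ae_notMem.1 h
  exact h3.mono fun z hz h => hz h

/-- the open quadrants -/
def RQ (i : Bool × Bool) : Set ℂ := {z | 0 < sg i.1 * z.re ∧ 0 < sg i.2 * z.im}

/-- the open half planes -/
def RH (i : Bool) : Set ℂ := {z | 0 < sg i * z.re}

theorem isOpen_RQ (i : Bool × Bool) : IsOpen (RQ i) :=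
  (isOpen_lt continuous_const (continuous_const.mul Complex.continuous_re)).inter
    (isOpen_lt continuous_const (continuous_const.mul Complex.continuous_im))

theorem isOpen_RH (i : Bool) : IsOpen (RH i) :=
  isOpen_lt continuous_const (continuous_const.mul Complex.continuous_re)

variable {t s σ τ : ℝ}

theorem intq (hσ : σ = 1 ∨ σ = -1) (hτ : τ = 1 ∨ τ = -1) (G g : ℂ → ℝ)
    (hG : ∀ i, ∀ z ∈ RQ i, G z = g (Aff t s (σ * sg i.1) (τ * sg i.2) z))
    (hg : IntegrableOn g (Qd t s σ τ)) : ∫ z, G z = 4 * ∫ z in Qd t s σ τ, g z := by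
  have h := master RQ (fun i => Aff t s (σ * sg i.1) (τ * sg i.2)) (Qd t s σ τ)
    (fun i => (isOpen_RQ i).measurableSet) ?_ ?_
    (fun i => aff_mp (mul_or hσ (sg_or _)) (mul_or hτ (sg_or _)) t s)
    (fun i => aff_me (mul_or hσ (sg_or _)) (mul_or hτ (sg_or _)) t s) ?_ G g hG hg
  · rw [h]
    norm_num
  · intro i j hij
    rw [Function.onFun, Set.disjoint_left]
    intro z hz hz'
    by_cases h1 : i.1 = j.1
    · have h2 : i.2 ≠ j.2 := fun h2 => hij (Prod.ext h1 h2)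
      exact sg_ne h2 hz.2 hz'.2
    · exact sg_ne h1 hz.1 hz'.1
  · filter_upwards [ae_re, ae_im] with z h1 h2
    obtain ⟨b, hb⟩ := sg_ex h1
    obtain ⟨b', hb'⟩ := sg_ex h2
    exact Set.mem_iUnion.2 ⟨(b, b'), hb, hb'⟩
  · intro i
    ext z
    simp only [Set.mem_preimage, Qd, RQ, Set.mem_ofPred_eq, Aff]
    have e1 : σ * (t + σ * sg i.1 * z.re - t) = sg i.1 * z.re := by
      have := sg_sq hσ
      linear_combination (sg i.1 * z.re) * this
    have e2 : τ * (s + τ * sg i.2 * z.im - s) = sg i.2 * z.im := by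
      have := sg_sq hτ
      linear_combination (sg i.2 * z.im) * this
    rw [e1, e2]

theorem inth (hσ : σ = 1 ∨ σ = -1) (G g : ℂ → ℝ)
    (hG : ∀ i, ∀ z ∈ RH i, G z = g (Aff t 0 (σ * sg i) 1 z))
    (hg : IntegrableOn g (Hf t σ)) : ∫ z, G z = 2 * ∫ z in Hf t σ, g z := by
  have h := master RH (fun i => Aff t 0 (σ * sg i) 1) (Hf t σ)
    (fun i => (isOpen_RH i).measurableSet) ?_ ?_
    (fun i => aff_mp (mul_or hσ (sg_or _)) (Or.inl rfl) t 0)
    (fun i => aff_me (mul_or hσ (sg_or _)) (Or.inl rfl) t 0) ?_ G g hG hg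
  · rw [h]
    norm_num
  · intro i j hij
    rw [Function.onFun, Set.disjoint_left]
    intro z hz hz'
    exact sg_ne hij hz hz'
  · filter_upwards [ae_re] with z h1
    obtain ⟨b, hb⟩ := sg_ex h1
    exact Set.mem_iUnion.2 ⟨b, hb⟩
  · intro i
    ext z
    simp only [Set.mem_preimage, Hf, RH, Set.mem_ofPred_eq, Aff]
    have e1 : σ * (t + σ * sg i * z.re - t) = sg i * z.re := by
      have := sg_sq hσ
      linear_combination (sg i * z.re) * this
    rw [e1]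

theorem foldq_eq (f : ℂ → ℝ) {i : Bool × Bool} {z : ℂ} (hz : z ∈ RQ i) :
    foldq t s σ τ f z = f (Aff t s (σ * sg i.1) (τ * sg i.2) z) := by
  unfold foldq Aff
  rw [sg_abs hz.1, sg_abs hz.2, mul_assoc, mul_assoc]

theorem foldh_eq (f : ℂ → ℝ) {i : Bool} {z : ℂ} (hz : z ∈ RH i) :
    foldh t σ f z = f (Aff t 0 (σ * sg i) 1 z) := by
  unfold foldh Aff
  rw [sg_abs hz, mul_assoc, zero_add, one_mul]

theorem foldq_fd (hσ : σ = 1 ∨ σ = -1) (hτ : τ = 1 ∨ τ = -1) (f : ℂ → ℝ) {i : Bool × Bool} {z : ℂ}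
    (hz : z ∈ RQ i) : ‖fderiv ℝ (foldq t s σ τ f) z‖ =
      ‖fderiv ℝ f (Aff t s (σ * sg i.1) (τ * sg i.2) z)‖ := by
  have h1 : foldq t s σ τ f =ᶠ[nhds z] fun z => f (Aff t s (σ * sg i.1) (τ * sg i.2) z) := by
    filter_upwards [(isOpen_RQ i).mem_nhds hz] with w hw
    exact foldq_eq f hw
  rw [h1.fderiv_eq]
  exact aff_fd (mul_or hσ (sg_or _)) (mul_or hτ (sg_or _)) t s f z

theorem foldh_fd (hσ : σ = 1 ∨ σ = -1) (f : ℂ → ℝ) {i : Bool} {z : ℂ}
    (hz : z ∈ RH i) : ‖fderiv ℝ (foldh t σ f) z‖ =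
      ‖fderiv ℝ f (Aff t 0 (σ * sg i) 1 z)‖ := by
  have h1 : foldh t σ f =ᶠ[nhds z] fun z => f (Aff t 0 (σ * sg i) 1 z) := by
    filter_upwards [(isOpen_RH i).mem_nhds hz] with w hw
    exact foldh_eq f hw
  rw [h1.fderiv_eq]
  exact aff_fd (mul_or hσ (sg_or _)) (Or.inl rfl) t 0 f z

theorem vol_fin {f : ℂ → ℝ} (hf : Adm f) : volume {z | 0 < f z} < ⊤ := by
  refine lt_of_le_of_lt (measure_mono ?_) hf.cpt.isCompact.measure_lt_top
  intro z hz
  exact subset_tsupport f (ne_of_gt hz)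

theorem meas_pos {f : ℂ → ℝ} (hf : Adm f) : MeasurableSet {z | 0 < f z} :=
  (isOpen_lt continuous_const hf.continuous).measurableSet

theorem int_ind {f : ℂ → ℝ} (hf : Adm f) (S : Set ℂ) :
    IntegrableOn ({z | 0 < f z}.indicator (1 : ℂ → ℝ)) S := by
  have h : Integrable ({z | 0 < f z}.indicator (1 : ℂ → ℝ)) := by
    rw [integrable_indicator_iff (meas_pos hf)]
    exact integrableOn_const (vol_fin hf).ne
  exact h.integrableOn

end FoldAux

open FoldAux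

theorem foldq_adm {f : ℂ → ℝ} (hf : Adm f) {t s σ τ : ℝ} (hσ : σ = 1 ∨ σ = -1)
    (hτ : τ = 1 ∨ τ = -1) : Adm (foldq t s σ τ f) := by
  have habs : ∀ {a : ℝ}, (a = 1 ∨ a = -1) → |a| = 1 := by
    rintro a (rfl | rfl) <;> norm_num
  refine ⟨?_, ?_⟩
  · obtain ⟨K, hK⟩ := hf.lip
    have hΦ : LipschitzWith 1 (fun z : ℂ => (⟨t + σ * |z.re|, s + τ * |z.im|⟩ : ℂ)) := by
      refine LipschitzWith.of_dist_le_mul fun z w => ?_
      rw [NNReal.coe_one, one_mul, Complex.dist_eq_re_im, Complex.dist_eq_re_im]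
      apply Real.sqrt_le_sqrt
      have h1 : ∀ {a : ℝ} (_ : a = 1 ∨ a = -1) (c x y : ℝ),
          (c + a * |x| - (c + a * |y|)) ^ 2 ≤ (x - y) ^ 2 := by
        intro a ha c x y
        have e : (c + a * |x| - (c + a * |y|)) ^ 2 = (|x| - |y|) ^ 2 := by
          have := sg_sq ha
          linear_combination ((|x| - |y|) ^ 2) * this
        rw [e]
        exact sq_le_sq.2 (abs_abs_sub_abs_le x y)
      exact add_le_add (h1 hσ t z.re w.re) (h1 hτ s z.im w.im)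
    refine ⟨K * 1, ?_⟩
    exact hK.comp hΦ
  · obtain ⟨M, hM⟩ := hf.cpt.isCompact.isBounded.subset_closedBall (0 : ℂ)
    refine HasCompactSupport.intro (isCompact_closedBall (0 : ℂ) (M + |t| + (M + |s|))) ?_
    intro z hz
    unfold foldq
    by_contra hne
    apply hz
    have h1 : (⟨t + σ * |z.re|, s + τ * |z.im|⟩ : ℂ) ∈ Metric.closedBall (0 : ℂ) M :=
      hM (subset_tsupport f hne)
    rw [mem_closedBall_zero_iff] at h1
    have h2 : abs (t + σ * |z.re|) ≤ M := (Complex.abs_re_le_norm _).trans h1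
    have h3 : abs (s + τ * |z.im|) ≤ M := (Complex.abs_im_le_norm _).trans h1
    have h4 : ∀ {a : ℝ} (_ : a = 1 ∨ a = -1) (c x : ℝ), abs (c + a * |x|) ≤ M → |x| ≤ M + |c| := by
      intro a ha c x h
      have h5 : |x| = |(c + a * |x|) - c| := by
        rw [add_sub_cancel_left, abs_mul, habs ha, one_mul, abs_abs]
      rw [h5]
      exact (abs_sub _ _).trans (add_le_add h le_rfl)
    rw [mem_closedBall_zero_iff]
    exact (Complex.norm_le_abs_re_add_abs_im z).trans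
      (add_le_add (h4 hσ t z.re h2) (h4 hτ s z.im h3))

theorem foldh_adm {f : ℂ → ℝ} (hf : Adm f) {t σ : ℝ} (hσ : σ = 1 ∨ σ = -1) :
    Adm (foldh t σ f) := by
  refine ⟨?_, ?_⟩
  · obtain ⟨K, hK⟩ := hf.lip
    have hΦ : LipschitzWith 1 (fun z : ℂ => (⟨t + σ * |z.re|, z.im⟩ : ℂ)) := by
      refine LipschitzWith.of_dist_le_mul fun z w => ?_
      rw [NNReal.coe_one, one_mul, Complex.dist_eq_re_im, Complex.dist_eq_re_im]
      apply Real.sqrt_le_sqrt
      have h1 : (t + σ * |z.re| - (t + σ * |w.re|)) ^ 2 ≤ (z.re - w.re) ^ 2 := by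
        have e : (t + σ * |z.re| - (t + σ * |w.re|)) ^ 2 = (|z.re| - |w.re|) ^ 2 := by
          have := sg_sq hσ
          linear_combination ((|z.re| - |w.re|) ^ 2) * this
        rw [e]
        exact sq_le_sq.2 (abs_abs_sub_abs_le _ _)
      exact add_le_add h1 le_rfl
    refine ⟨K * 1, ?_⟩
    exact hK.comp hΦ
  · obtain ⟨M, hM⟩ := hf.cpt.isCompact.isBounded.subset_closedBall (0 : ℂ)
    refine HasCompactSupport.intro (isCompact_closedBall (0 : ℂ) (M + |t| + M)) ?_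
    intro z hz
    unfold foldh
    by_contra hne
    apply hz
    have h1 : (⟨t + σ * |z.re|, z.im⟩ : ℂ) ∈ Metric.closedBall (0 : ℂ) M :=
      hM (subset_tsupport f hne)
    rw [mem_closedBall_zero_iff] at h1
    have h2 : abs (t + σ * |z.re|) ≤ M := (Complex.abs_re_le_norm _).trans h1
    have h3 : |z.im| ≤ M :=
      (Complex.abs_im_le_norm (⟨t + σ * |z.re|, z.im⟩ : ℂ)).trans h1
    have h4 : |z.re| ≤ M + |t| := by
      have h5 : |z.re| = |(t + σ * |z.re|) - t| := by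
        rw [add_sub_cancel_left, abs_mul, abs_abs]
        rcases hσ with rfl | rfl <;> norm_num
      rw [h5]
      exact (abs_sub _ _).trans (add_le_add h2 le_rfl)
    rw [mem_closedBall_zero_iff]
    exact (Complex.norm_le_abs_re_add_abs_im z).trans (add_le_add h4 h3)

theorem foldq_sq {f : ℂ → ℝ} (hf : Adm f) {t s σ τ : ℝ} (hσ : σ = 1 ∨ σ = -1)
    (hτ : τ = 1 ∨ τ = -1) :
    ∫ z, foldq t s σ τ f z ^ 2 = 4 * ∫ z in Qd t s σ τ, f z ^ 2 :=
  intq hσ hτ (fun z => foldq t s σ τ f z ^ 2) (fun z => f z ^ 2)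
    (fun i z hz => by simp only [foldq_eq f hz]) hf.integrable_sq.integrableOn

theorem foldh_sq {f : ℂ → ℝ} (hf : Adm f) {t σ : ℝ} (hσ : σ = 1 ∨ σ = -1) :
    ∫ z, foldh t σ f z ^ 2 = 2 * ∫ z in Hf t σ, f z ^ 2 :=
  inth hσ (fun z => foldh t σ f z ^ 2) (fun z => f z ^ 2)
    (fun i z hz => by simp only [foldh_eq f hz]) hf.integrable_sq.integrableOn

theorem foldq_en {f : ℂ → ℝ} (hf : Adm f) {t s σ τ : ℝ} (hσ : σ = 1 ∨ σ = -1)
    (hτ : τ = 1 ∨ τ = -1) :
    ∫ z, ‖fderiv ℝ (foldq t s σ τ f) z‖ ^ 2 = 4 * ∫ z in Qd t s σ τ, ‖fderiv ℝ f z‖ ^ 2 :=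
  intq hσ hτ (fun z => ‖fderiv ℝ (foldq t s σ τ f) z‖ ^ 2) (fun z => ‖fderiv ℝ f z‖ ^ 2)
    (fun i z hz => by simp only [foldq_fd hσ hτ f hz]) hf.integrable_en.integrableOn

theorem foldh_en {f : ℂ → ℝ} (hf : Adm f) {t σ : ℝ} (hσ : σ = 1 ∨ σ = -1) :
    ∫ z, ‖fderiv ℝ (foldh t σ f) z‖ ^ 2 = 2 * ∫ z in Hf t σ, ‖fderiv ℝ f z‖ ^ 2 :=
  inth hσ (fun z => ‖fderiv ℝ (foldh t σ f) z‖ ^ 2) (fun z => ‖fderiv ℝ f z‖ ^ 2)
    (fun i z hz => by simp only [foldh_fd hσ f hz]) hf.integrable_en.integrableOn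

theorem foldq_vol {f : ℂ → ℝ} (hf : Adm f) (h0 : ∀ z, 0 ≤ f z) {t s σ τ : ℝ}
    (hσ : σ = 1 ∨ σ = -1) (hτ : τ = 1 ∨ τ = -1) :
    volume.real {z | 0 < foldq t s σ τ f z} =
      4 * volume.real (Qd t s σ τ ∩ {z | 0 < f z}) := by
  have h := intq hσ hτ ({z | 0 < foldq t s σ τ f z}.indicator (1 : ℂ → ℝ))
    ({z | 0 < f z}.indicator (1 : ℂ → ℝ)) (t := t) (s := s) (fun i z hz => by
      simp only [Set.indicator_apply, Set.mem_ofPred_eq, foldq_eq f hz, Pi.one_apply])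
    (int_ind hf _)
  rw [integral_indicator_one (meas_pos (foldq_adm hf hσ hτ))] at h
  rw [h, setIntegral_indicator (meas_pos hf)]
  simp

theorem foldh_vol {f : ℂ → ℝ} (hf : Adm f) (h0 : ∀ z, 0 ≤ f z) {t σ : ℝ}
    (hσ : σ = 1 ∨ σ = -1) :
    volume.real {z | 0 < foldh t σ f z} = 2 * volume.real (Hf t σ ∩ {z | 0 < f z}) := by
  have h := inth hσ ({z | 0 < foldh t σ f z}.indicator (1 : ℂ → ℝ))
    ({z | 0 < f z}.indicator (1 : ℂ → ℝ)) (t := t) (fun i z hz => by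
      simp only [Set.indicator_apply, Set.mem_ofPred_eq, foldh_eq f hz, Pi.one_apply])
    (int_ind hf _)
  rw [integral_indicator_one (meas_pos (foldh_adm hf hσ))] at h
  rw [h, setIntegral_indicator (meas_pos hf)]
  simp

end DK4
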