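import Pool.Agent.Lib.DK4.TopoE
import Pool.Agent.Lib.DK4.Inv

/-!
Module DK4.Fund: a fundamental open set.

`U` open, `CSym k U`, `0 ∉ U`, `U` contains no ring.  Then every component of `U` has trivial
stabiliser (else `exists_ring`).  Choose one component in each orbit of components under the
rotations `ω^j`: `A` = the set of `x ∈ U` lying in the component of the chosen representative of the
class of `x`, for the equivalence relation `x ~ y` iff `ω^j x ∈ connectedComponentIn U y` for some `j`
(`Quotient.out`).  Then `A` is open, the sets `ω^j A`, `j < k`, are disjoint with union `U`, and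
`frontier A` misses `U` (both `A` and `U \ A` are unions of components, hence open).
-/

open MeasureTheory Set
open scoped ContDiff

namespace DK4

namespace FundAux

variable {k : ℕ} {U : Set ℂ}

theorem prim (hk : 0 < k) : IsPrimitiveRoot (rot k) k := Complex.isPrimitiveRoot_exp k hk.ne'

theorem pow_mem (hs : CSym k U) (j : ℕ) {z : ℂ} (hz : z ∈ U) : rot k ^ j * z ∈ U := by
  induction j with
  | zero => simpa using hz
  | succ j ih =>
    rw [pow_succ', mul_assoc]
    exact hs _ ih

theorem pow_back (hk : 0 < k) (j : ℕ) (z : ℂ) : rot k ^ (j * (k - 1)) * (rot k ^ j * z) = z := by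
  rw [← mul_assoc, ← pow_add]
  have : j * (k - 1) + j = k * j := by
    obtain ⟨m, rfl⟩ : ∃ m, k = m + 1 := ⟨k - 1, by omega⟩
    rw [Nat.add_sub_cancel]
    ring
  rw [this, pow_mul, rot_pow hk, one_pow, one_mul]

theorem mem_of_pow (hk : 0 < k) (hs : CSym k U) (j : ℕ) {z : ℂ} (hz : rot k ^ j * z ∈ U) :
    z ∈ U := by
  have := pow_mem hs (j * (k - 1)) hz
  rwa [pow_back hk] at this

theorem equiv (hs : CSym k U) (j : ℕ) {x y : ℂ} (hx : x ∈ U)
    (hy : y ∈ connectedComponentIn U x) :
    rot k ^ j * y ∈ connectedComponentIn U (rot k ^ j * x) := by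
  have h1 : IsPreconnected ((fun z => rot k ^ j * z) '' connectedComponentIn U x) :=
    isPreconnected_connectedComponentIn.image _ (continuous_const.mul continuous_id).continuousOn
  have h2 := h1.subset_connectedComponentIn (F := U)
    (x := rot k ^ j * x) ⟨x, mem_connectedComponentIn hx, rfl⟩ (by
      rintro _ ⟨z, hz, rfl⟩
      exact pow_mem hs j (connectedComponentIn_subset _ _ hz))
  exact h2 ⟨y, hy, rfl⟩

/-- the relation of being in the same orbit of components -/
def S (hk : 0 < k) (hs : CSym k U) : Setoid U where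
  r x y := ∃ j : ℕ, rot k ^ j * (x : ℂ) ∈ connectedComponentIn U (y : ℂ)
  iseqv := by
    refine ⟨fun x => ⟨0, ?_⟩, ?_, ?_⟩
    · rw [pow_zero, one_mul]
      exact mem_connectedComponentIn x.2
    · rintro x y ⟨j, hj⟩
      refine ⟨j * (k - 1), ?_⟩
      have h1 := connectedComponentIn_eq hj
      have h2 : (y : ℂ) ∈ connectedComponentIn U (rot k ^ j * (x : ℂ)) := by
        rw [← h1]
        exact mem_connectedComponentIn y.2
      have h3 := equiv hs (j * (k - 1)) (pow_mem hs j x.2) h2
      rwa [pow_back hk] at h3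
    · rintro x y z ⟨j, hj⟩ ⟨i, hi⟩
      refine ⟨i + j, ?_⟩
      have h1 := equiv hs i y.2 hj
      rw [← mul_assoc, ← pow_add] at h1
      rw [connectedComponentIn_eq hi]
      exact h1

/-- the chosen representative of the orbit of components -/
noncomputable def rep (hk : 0 < k) (hs : CSym k U) (x : U) : U :=
  (Quotient.mk (S hk hs) x).out

theorem rep_eq (hk : 0 < k) (hs : CSym k U) {x y : U} {j : ℕ}
    (h : rot k ^ j * (x : ℂ) ∈ connectedComponentIn U (y : ℂ)) : rep hk hs x = rep hk hs y := by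
  unfold rep
  congr 1
  exact Quotient.sound ⟨j, h⟩

theorem rep_rel (hk : 0 < k) (hs : CSym k U) (x : U) :
    ∃ j : ℕ, rot k ^ j * (x : ℂ) ∈ connectedComponentIn U (rep hk hs x : ℂ) :=
  (S hk hs).iseqv.symm (Quotient.exact (Quotient.out_eq (Quotient.mk (S hk hs) x)))

/-- the union of the chosen components -/
def AA (hk : 0 < k) (hs : CSym k U) : Set ℂ :=
  {x | ∃ h : x ∈ U, x ∈ connectedComponentIn U (rep hk hs ⟨x, h⟩ : ℂ)}

theorem AA_sub (hk : 0 < k) (hs : CSym k U) : AA hk hs ⊆ U := fun _ h => h.1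

theorem AA_comp (hk : 0 < k) (hs : CSym k U) {x y : ℂ} (hx : x ∈ AA hk hs)
    (hy : y ∈ connectedComponentIn U x) : y ∈ AA hk hs := by
  obtain ⟨hxU, hx⟩ := hx
  have hyU : y ∈ U := connectedComponentIn_subset _ _ hy
  refine ⟨hyU, ?_⟩
  have h1 : rep hk hs ⟨y, hyU⟩ = rep hk hs ⟨x, hxU⟩ :=
    rep_eq hk hs (j := 0) (by rw [pow_zero, one_mul]; exact hy)
  rw [h1, connectedComponentIn_eq hx]
  exact hy

theorem AA_open (hk : 0 < k) (hs : CSym k U) (hU : IsOpen U) : IsOpen (AA hk hs) := by
  rw [isOpen_iff_mem_nhds]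
  intro x hx
  exact Filter.mem_of_superset
    ((hU.connectedComponentIn (x := x)).mem_nhds (mem_connectedComponentIn hx.1))
    (fun y hy => AA_comp hk hs hx hy)

theorem AA_frontier (hk : 0 < k) (hs : CSym k U) (hU : IsOpen U) {z : ℂ}
    (hz : z ∈ frontier (AA hk hs)) : z ∉ U := by
  intro hzU
  have h1 : z ∈ closure (AA hk hs) := frontier_subset_closure hz
  rw [mem_closure_iff] at h1
  obtain ⟨y, hy, hyA⟩ := h1 _ (hU.connectedComponentIn (x := z)) (mem_connectedComponentIn hzU)
  have h2 : z ∈ connectedComponentIn U y := by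
    rw [← connectedComponentIn_eq hy]
    exact mem_connectedComponentIn hzU
  have h3 := AA_comp hk hs hyA h2
  have h4 := (AA_open hk hs hU).inter_frontier_eq
  have : z ∈ (∅ : Set ℂ) := by
    rw [← h4]
    exact ⟨h3, hz⟩
  exact this

end FundAux

open FundAux

theorem exists_fund {k : ℕ} (hk : 0 < k) {U : Set ℂ} (hU : IsOpen U) (hs : CSym k U)
    (h0 : (0 : ℂ) ∉ U) (hno : ¬ ∃ γ, IsRing k γ ∧ γ ⊆ U) :
    ∃ A : Set ℂ, IsOpen A ∧ A ⊆ U ∧ (∀ z ∈ frontier A, z ∉ U) ∧
      (∀ z ∈ U, ∃ j < k, rot k ^ j * z ∈ A) ∧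
      (∀ j < k, ∀ i < k, ∀ z, rot k ^ j * z ∈ A → rot k ^ i * z ∈ A → j = i) := by
  refine ⟨AA hk hs, AA_open hk hs hU, AA_sub hk hs, fun z hz => AA_frontier hk hs hU hz, ?_, ?_⟩
  · intro z hz
    obtain ⟨j, hj⟩ := rep_rel hk hs ⟨z, hz⟩
    refine ⟨j % k, Nat.mod_lt _ hk, ?_⟩
    have h1 : rot k ^ (j % k) = rot k ^ j := by
      conv_rhs => rw [← Nat.mod_add_div j k, pow_add, pow_mul, rot_pow hk, one_pow, mul_one]
    rw [h1]
    refine ⟨pow_mem hs j hz, ?_⟩
    have h2 : rep hk hs ⟨rot k ^ j * z, pow_mem hs j hz⟩ = rep hk hs ⟨z, hz⟩ := by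
      refine (rep_eq hk hs (j := j) ?_).symm
      exact mem_connectedComponentIn (pow_mem hs j hz)
    rw [h2]
    exact hj
  · intro j hj i hi z hjz hiz
    obtain ⟨hxU, hx⟩ := hjz
    obtain ⟨hyU, hy⟩ := hiz
    have hz0 : z ≠ 0 := by
      rintro rfl
      rw [mul_zero] at hxU
      exact h0 hxU
    let m := i + j * (k - 1)
    have hm : rot k ^ m * (rot k ^ j * z) = rot k ^ i * z := by
      change rot k ^ (i + j * (k - 1)) * (rot k ^ j * z) = rot k ^ i * z
      rw [pow_add, mul_assoc, pow_back hk]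
    have hrep : rep hk hs ⟨rot k ^ j * z, hxU⟩ = rep hk hs ⟨rot k ^ i * z, hyU⟩ := by
      refine rep_eq hk hs (j := m) ?_
      change rot k ^ m * (rot k ^ j * z) ∈ connectedComponentIn U (rot k ^ i * z)
      rw [hm]
      exact mem_connectedComponentIn hyU
    have hC : connectedComponentIn U (rot k ^ i * z) = connectedComponentIn U (rot k ^ j * z) := by
      rw [← connectedComponentIn_eq hx, ← connectedComponentIn_eq hy, hrep]
    by_cases h1 : rot k ^ m = 1
    · rw [h1, one_mul] at hm
      exact (prim hk).pow_inj hj hi (mul_right_cancel₀ hz0 hm)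
    · exfalso
      obtain ⟨γ, hγ, hγW⟩ := exists_ring hk (hU.connectedComponentIn (x := rot k ^ j * z))
        (isConnected_connectedComponentIn_iff.mpr hxU)
        (fun h => h0 (connectedComponentIn_subset _ _ h)) (ζ := rot k ^ m)
        (by rw [← pow_mul, mul_comm, pow_mul, rot_pow hk, one_pow]) h1 (by
          intro w hw
          have h2 := equiv hs m hxU hw
          rw [hm, hC] at h2
          exact h2)
      exact hno ⟨γ, hγ, hγW.trans (connectedComponentIn_subset _ _)⟩

/-- consequence for integrals of invariant functions -/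
theorem integral_fund {k : ℕ} (hk : 0 < k) {U A : Set ℂ} (hU : IsOpen U) (hs : CSym k U)
    (hA : IsOpen A) (hAU : A ⊆ U)
    (hcov : ∀ z ∈ U, ∃ j < k, rot k ^ j * z ∈ A)
    (hdis : ∀ j < k, ∀ i < k, ∀ z, rot k ^ j * z ∈ A → rot k ^ i * z ∈ A → j = i)
    {g : ℂ → ℝ} (hg : ∀ z, g (rot k * z) = g z) (hint : IntegrableOn g U) :
    ∫ z in U, g z = k * ∫ z in A, g z := by
  have hgj : ∀ (j : ℕ) (z : ℂ), g (rot k ^ j * z) = g z := by
    intro j
    induction j with
    | zero => intro z; rw [pow_zero, one_mul]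
    | succ j ih => intro z; rw [pow_succ', mul_assoc, hg, ih]
  have hUe : U = ⋃ j ∈ Finset.range k, (fun z => rot k ^ j * z) ⁻¹' A := by
    ext z
    simp only [Finset.mem_range, mem_iUnion, mem_preimage, exists_prop]
    constructor
    · exact fun hz => hcov z hz
    · rintro ⟨j, -, hj⟩
      exact mem_of_pow hk hs j (hAU hj)
  have hsub : ∀ j ∈ Finset.range k, (fun z => rot k ^ j * z) ⁻¹' A ⊆ U := by
    intro j _ z hz
    exact mem_of_pow hk hs j (hAU hz)
  have h1 := integral_biUnion_finset (μ := volume) (f := g) (Finset.range k)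
    (s := fun j => (fun z => rot k ^ j * z) ⁻¹' A)
    (fun j _ => (hA.preimage (continuous_const.mul continuous_id)).measurableSet)
    (by
      intro j hj i hi hji
      rw [Function.onFun, Set.disjoint_left]
      intro z hz hz'
      exact hji (hdis j (Finset.mem_range.mp hj) i (Finset.mem_range.mp hi) z hz hz'))
    (fun j hj => hint.mono_set (hsub j hj))
  rw [← hUe] at h1
  rw [h1]
  have h2 : ∀ j ∈ Finset.range k, ∫ z in (fun z => rot k ^ j * z) ⁻¹' A, g z = ∫ z in A, g z := by
    intro j _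
    rw [← setIntegral_rot (ζ := rot k ^ j) (by rw [norm_pow, norm_rot, one_pow]) g A]
    simp only [hgj]
  rw [Finset.sum_congr rfl h2, Finset.sum_const, Finset.card_range, nsmul_eq_mul]

end DK4
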