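import Pool.Agent.Lib.DK4.Loc

/-!
Definitions for the lower bound of `λ₄` of ALL open sets (package DK4, part 2):
`λ₄(Ω) |Ω| ≥ ((7 + 2√2)/4) π j01²`.

PROOF.  `V` four-dimensional with `q Λ < 0` on `V \ 0`, `Λ |Ω| < C L`, `L = π j01²`.  For `a ∈ S³`,
`u_a = ∑ a_i v_i`.  Borsuk-Ulam (`bu3`) for three odd functions of `a` gives `a`, a vertical line `x = t` and a
horizontal line `y = s` such that `u⁺` and `u⁻` both have negative energy, both have the
fraction `p` of their `L²` mass on the left of `x = t`, and of the left part one half above `y = s`.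
The three pieces (left top, left bottom, right) are folded (reflected) to functions on the whole
plane; for the two left pieces the folded `u⁺` and `u⁻` are centrally symmetric with disjoint
supports, and then one of the two satisfies Faber-Krahn with the double constant (module Pair).
The rest is Cauchy's inequality (module GReal).
-/

open MeasureTheory Set
open scoped ContDiff

namespace DK4

/-- linear combination -/
def uc {n : ℕ} (v : Fin n → ℂ → ℝ) (a : Fin n → ℝ) (z : ℂ) : ℝ := ∑ i, a i * v i z

/-- the half plane on the side `σ` of the line `x = t` -/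
def Hf (t σ : ℝ) : Set ℂ := {z | 0 < σ * (z.re - t)}

/-- the quadrant with corner `(t, s)` -/
def Qd (t s σ τ : ℝ) : Set ℂ := {z | 0 < σ * (z.re - t) ∧ 0 < τ * (z.im - s)}

/-- folding of the half plane -/
noncomputable def foldh (t σ : ℝ) (f : ℂ → ℝ) (z : ℂ) : ℝ := f ⟨t + σ * |z.re|, z.im⟩

/-- folding of the quadrant -/
noncomputable def foldq (t s σ τ : ℝ) (f : ℂ → ℝ) (z : ℂ) : ℝ :=
  f ⟨t + σ * |z.re|, s + τ * |z.im|⟩

end DK4
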