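import Mathlib

/-!
Module DK4.GReal: the inequality between real numbers at the end of the proof.

Constants: `C = (7 + 2√2)/4`, `p = (3 + 2√2)/(7 + 2√2)`, `α = p/2`, `γ = 1 - p = 4/(7 + 2√2)`.
With `A = (2 + √2)/4`, `N = (7 + 2√2)/8 = A² + 1/2`, `C = 2N`: `α = A²/(2N)`, `γ = 1/(2N)`.
Basic inequality: for `x > 0`, `r² = k α`: `k/x ≥ 2 μ r - μ² α x`.  So if `k_i L ≤ x_i A_i` and
`α x₁ + α x₂ + γ x₃ ≤ Λ` then `Λ (A₁ + A₂ + A₃) ≥ L (r₁ + r₂ + r₃)²` (take `μ = (r₁+r₂+r₃)/Λ`).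
Here `k = 1/4` (or `1/2` in case of the double constant) for the pieces 1, 2 and `k = 1/2` for piece 3.
With `n = √N`: `√(α/4) = A/(2√2 n)`, `√(α/2) = A/(2n)`, `√(γ/2) = 1/(2n)`.
All cases:
* both signs get the double constant once: total `2 ((A/(2n)) (1 + 1/√2) + 1/(2n))² = 2N = C` since
  `A (1 + √2)/(2√2) = A²`;
* one sign gets it twice: `((A + 1/2)² + (A/√2 + 1/2)²)/N ≥ 2N` (2.4825 > 2.4571);
* exceptional alternative, e.g. `8 L ≤ 4 y₁ A₁`, that is `A₁ ≥ 2 L/y₁`: use only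
  `A₂ + A₃` for the first sign: `≥ (L/Λ)(A/(2√2 n) + 1/(2n))²`, and
  `A₁ + B₁ + B₂ + B₃ ≥ L ((9/4)/y₁ + (1/4)/y₂ + (1/2)/y₃) ≥ (L/Λ) (3A/(2√2 n) + A/(2√2 n) + 1/(2n))²`;
  total 2.895 > C.  The other exceptional alternatives by symmetry.
-/

namespace DK4

namespace GRealAux

theorem two {u v A B r t L : ℝ} (hu : 0 ≤ u) (hv : 0 ≤ v) (hA : 0 ≤ A) (hB : 0 ≤ B) (hr : 0 ≤ r)
    (ht : 0 ≤ t) (hL : 0 ≤ L) (h1 : r ^ 2 * L ≤ u * A) (h2 : t ^ 2 * L ≤ v * B) :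
    2 * r * t * L ≤ u * B + v * A := by
  have h3 : (2 * r * t * L) ^ 2 ≤ (u * B + v * A) ^ 2 := by
    have e1 : (2 * r * t * L) ^ 2 = 4 * ((r ^ 2 * L) * (t ^ 2 * L)) := by ring
    have e2 : (r ^ 2 * L) * (t ^ 2 * L) ≤ (u * A) * (v * B) :=
      mul_le_mul h1 h2 (by positivity) (by positivity)
    have e3 : 4 * ((u * A) * (v * B)) ≤ (u * B + v * A) ^ 2 := by
      nlinarith [sq_nonneg (u * B - v * A)]
    rw [e1]
    linarith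
  exact (pow_le_pow_iff_left₀ (by positivity) (by positivity) (by norm_num)).mp h3

theorem cs3 {L Λ u1 u2 u3 A1 A2 A3 r1 r2 r3 : ℝ} (hL : 0 ≤ L) (hu1 : 0 ≤ u1) (hu2 : 0 ≤ u2)
    (hu3 : 0 ≤ u3) (hA1 : 0 ≤ A1) (hA2 : 0 ≤ A2) (hA3 : 0 ≤ A3) (hr1 : 0 ≤ r1) (hr2 : 0 ≤ r2)
    (hr3 : 0 ≤ r3) (h1 : r1 ^ 2 * L ≤ u1 * A1) (h2 : r2 ^ 2 * L ≤ u2 * A2)
    (h3 : r3 ^ 2 * L ≤ u3 * A3) (hΛ : u1 + u2 + u3 ≤ Λ) :
    (r1 + r2 + r3) ^ 2 * L ≤ Λ * (A1 + A2 + A3) := by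
  have t12 := two hu1 hu2 hA1 hA2 hr1 hr2 hL h1 h2
  have t13 := two hu1 hu3 hA1 hA3 hr1 hr3 hL h1 h3
  have t23 := two hu2 hu3 hA2 hA3 hr2 hr3 hL h2 h3
  have e1 : (r1 + r2 + r3) ^ 2 * L = r1 ^ 2 * L + r2 ^ 2 * L + r3 ^ 2 * L +
      2 * r1 * r2 * L + 2 * r1 * r3 * L + 2 * r2 * r3 * L := by ring
  have e2 : (u1 + u2 + u3) * (A1 + A2 + A3) = u1 * A1 + u2 * A2 + u3 * A3 +
      (u1 * A2 + u2 * A1) + (u1 * A3 + u3 * A1) + (u2 * A3 + u3 * A2) := by ring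
  have e3 : (u1 + u2 + u3) * (A1 + A2 + A3) ≤ Λ * (A1 + A2 + A3) :=
    mul_le_mul_of_nonneg_right hΛ (by positivity)
  linarith

/-- the parameters: `s = √2`, `q = 1 / √(7 + 2 s)` -/
structure Par (s q : ℝ) : Prop where
  hs0 : 0 < s
  hs : s ^ 2 = 2
  hq0 : 0 < q
  hq : q ^ 2 * (7 + 2 * s) = 1

/-- constants `1/4` or `1/2` for the pieces 1, 2: `κ = 1` or `2`, `r = e` or `d` -/
theorem row {s q L Λ x1 x2 x3 A1 A2 A3 k1 k2 r1 r2 : ℝ} (P : Par s q) (hL : 0 < L)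
    (hA1 : 0 ≤ A1) (hA2 : 0 ≤ A2) (hA3 : 0 ≤ A3) (hk1 : 0 < k1) (hk2 : 0 < k2)
    (hr1 : 0 ≤ r1) (hr2 : 0 ≤ r2)
    (hk1' : 4 * r1 ^ 2 = k1 * ((3 + 2 * s) / 2 * q ^ 2))
    (hk2' : 4 * r2 ^ 2 = k2 * ((3 + 2 * s) / 2 * q ^ 2))
    (a1 : k1 * L ≤ 4 * x1 * A1) (a2 : k2 * L ≤ 4 * x2 * A2) (a3 : L ≤ 2 * x3 * A3)
    (hx : (3 + 2 * s) / 2 * q ^ 2 * x1 + (3 + 2 * s) / 2 * q ^ 2 * x2 + 4 * q ^ 2 * x3 ≤ Λ) :
    (r1 + r2 + s * q) ^ 2 * L ≤ Λ * (A1 + A2 + A3) := by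
  obtain ⟨hs0, hs, hq0, hq⟩ := P
  have pos : ∀ {k x A : ℝ}, 0 < k → 0 ≤ A → k * L ≤ x * A → 0 ≤ x := by
    intro k x A hk hA h
    by_contra hneg
    push Not at hneg
    have : x * A ≤ 0 := mul_nonpos_of_nonpos_of_nonneg hneg.le hA
    have : 0 < k * L := by positivity
    linarith
  have hx1 : 0 ≤ x1 := by
    have := pos hk1 hA1 a1
    linarith
  have hx2 : 0 ≤ x2 := by
    have := pos hk2 hA2 a2
    linarith
  have hx3 : 0 ≤ x3 := by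
    have := pos one_pos hA3 (by rw [one_mul]; exact a3)
    linarith
  have hc : 0 ≤ (3 + 2 * s) / 2 * q ^ 2 := by positivity
  refine cs3 hL.le (mul_nonneg hc hx1) (mul_nonneg hc hx2) (mul_nonneg (by positivity) hx3)
    hA1 hA2 hA3 hr1 hr2 (by positivity) ?_ ?_ ?_ hx
  · have h1 := mul_le_mul_of_nonneg_left a1 hc
    have e1 : (3 + 2 * s) / 2 * q ^ 2 * (k1 * L) = 4 * r1 ^ 2 * L := by
      rw [hk1']
      ring
    rw [e1] at h1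
    linarith
  · have h1 := mul_le_mul_of_nonneg_left a2 hc
    have e1 : (3 + 2 * s) / 2 * q ^ 2 * (k2 * L) = 4 * r2 ^ 2 * L := by
      rw [hk2']
      ring
    rw [e1] at h1
    linarith
  · have h1 := mul_le_mul_of_nonneg_left a3 (show 0 ≤ 2 * q ^ 2 by positivity)
    have e1 : (s * q) ^ 2 * L = 2 * q ^ 2 * L := by
      rw [mul_pow, hs]
    rw [e1]
    linarith

/-- the constant `1/4`: `r = e` -/
theorem sqe {s q : ℝ} (P : Par s q) :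
    4 * ((s + 2) / 4 * q) ^ 2 = 1 * ((3 + 2 * s) / 2 * q ^ 2) := by
  have h : 4 * ((s + 2) / 4 * q) ^ 2 = (s ^ 2 + 4 * s + 4) / 4 * q ^ 2 := by ring
  rw [h, P.hs]
  ring

/-- the constant `1/2`: `r = d` -/
theorem sqd {s q : ℝ} (P : Par s q) :
    4 * ((1 + s) / 2 * q) ^ 2 = 2 * ((3 + 2 * s) / 2 * q ^ 2) := by
  have h : 4 * ((1 + s) / 2 * q) ^ 2 = (s ^ 2 + 2 * s + 1) * q ^ 2 := by ring
  rw [h, P.hs]
  ring

/-- the constant `9/4`: `r = 3 e` -/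
theorem sq3e {s q : ℝ} (P : Par s q) :
    4 * (3 * ((s + 2) / 4 * q)) ^ 2 = 9 * ((3 + 2 * s) / 2 * q ^ 2) := by
  have h := sqe P
  have h2 : 4 * (3 * ((s + 2) / 4 * q)) ^ 2 = 9 * (4 * ((s + 2) / 4 * q) ^ 2) := by ring
  rw [h2, h]
  ring

theorem const {s q : ℝ} (P : Par s q) :
    (7 + 2 * s) / 4 = (57 + 28 * s) / 4 * q ^ 2 := by
  have h1 : (57 + 28 * s) = (7 + 2 * s) ^ 2 := by
    have : (7 + 2 * s) ^ 2 = 49 + 28 * s + 4 * s ^ 2 := by ring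
    rw [this, P.hs]
    ring
  have h2 : (57 + 28 * s) / 4 * q ^ 2 = (7 + 2 * s) / 4 * (q ^ 2 * (7 + 2 * s)) := by
    rw [h1]
    ring
  rw [h2, P.hq, mul_one]

theorem val1 {s q : ℝ} (P : Par s q) :
    ((1 + s) / 2 * q + (s + 2) / 4 * q + s * q) ^ 2 = (57 + 28 * s) / 8 * q ^ 2 := by
  have h : ((1 + s) / 2 * q + (s + 2) / 4 * q + s * q) ^ 2 =
      (49 * s ^ 2 + 56 * s + 16) / 16 * q ^ 2 := by ring
  rw [h, P.hs]
  ring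

theorem val2 {s q : ℝ} (P : Par s q) :
    ((1 + s) / 2 * q + (1 + s) / 2 * q + s * q) ^ 2 = (9 + 4 * s) * q ^ 2 := by
  have h : ((1 + s) / 2 * q + (1 + s) / 2 * q + s * q) ^ 2 =
      (4 * s ^ 2 + 4 * s + 1) * q ^ 2 := by ring
  rw [h, P.hs]
  ring

theorem val0 {s q : ℝ} (P : Par s q) :
    ((s + 2) / 4 * q + (s + 2) / 4 * q + s * q) ^ 2 = (11 / 2 + 3 * s) * q ^ 2 := by
  have h : ((s + 2) / 4 * q + (s + 2) / 4 * q + s * q) ^ 2 =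
      (9 / 4 * s ^ 2 + 3 * s + 1) * q ^ 2 := by ring
  rw [h, P.hs]
  ring

theorem val3 {s q : ℝ} (P : Par s q) :
    (3 * ((s + 2) / 4 * q) + (s + 2) / 4 * q + s * q) ^ 2 = (12 + 8 * s) * q ^ 2 := by
  have h : (3 * ((s + 2) / 4 * q) + (s + 2) / 4 * q + s * q) ^ 2 =
      (4 * s ^ 2 + 8 * s + 4) * q ^ 2 := by ring
  rw [h, P.hs]
  ring

theorem val4 {s q : ℝ} (P : Par s q) :
    (0 + (s + 2) / 4 * q + s * q) ^ 2 = (27 + 10 * s) / 8 * q ^ 2 := by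
  have h : (0 + (s + 2) / 4 * q + s * q) ^ 2 =
      (25 * s ^ 2 + 20 * s + 4) / 16 * q ^ 2 := by ring
  rw [h, P.hs]
  ring

/-- the exceptional case -/
theorem exc {s q L Λ x1 x2 x3 y1 y2 y3 A1 A2 A3 B1 B2 B3 : ℝ} (P : Par s q) (hL : 0 < L)
    (hA1 : 0 ≤ A1) (hA2 : 0 ≤ A2) (hA3 : 0 ≤ A3) (hB1 : 0 ≤ B1) (hB2 : 0 ≤ B2) (hB3 : 0 ≤ B3)
    (a1 : L ≤ 4 * x1 * A1) (a2 : L ≤ 4 * x2 * A2) (a3 : L ≤ 2 * x3 * A3)
    (b1 : L ≤ 4 * y1 * B1) (b2 : L ≤ 4 * y2 * B2) (b3 : L ≤ 2 * y3 * B3)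
    (hx : (3 + 2 * s) / 2 * q ^ 2 * x1 + (3 + 2 * s) / 2 * q ^ 2 * x2 + 4 * q ^ 2 * x3 ≤ Λ)
    (hy : (3 + 2 * s) / 2 * q ^ 2 * y1 + (3 + 2 * s) / 2 * q ^ 2 * y2 + 4 * q ^ 2 * y3 ≤ Λ)
    (h : 8 * L ≤ 4 * y1 * A1) :
    (7 + 2 * s) / 4 * L ≤ Λ * (A1 + A2 + A3 + B1 + B2 + B3) := by
  -- second sign with `A1 + B1`
  have r1 := row (r1 := 3 * ((s + 2) / 4 * q)) (r2 := (s + 2) / 4 * q) (k1 := 9) (k2 := 1)
    (A1 := A1 + B1) (A2 := B2) (A3 := B3) (x1 := y1) (x2 := y2) (x3 := y3) (Λ := Λ) P hL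
    (add_nonneg hA1 hB1) hB2 hB3 (by norm_num) one_pos
    (by have := P.hs0; have := P.hq0; positivity) (by have := P.hs0; have := P.hq0; positivity)
    (sq3e P) (sqe P) (by nlinarith) (by linarith) b3 hy
  -- first sign without `A1`
  have hx1 : 0 ≤ x1 := by
    by_contra hneg
    push Not at hneg
    have : 4 * x1 * A1 ≤ 0 := mul_nonpos_of_nonpos_of_nonneg (by linarith) hA1
    linarith
  have hx2 : 0 ≤ x2 := by
    by_contra hneg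
    push Not at hneg
    have : 4 * x2 * A2 ≤ 0 := mul_nonpos_of_nonpos_of_nonneg (by linarith) hA2
    linarith
  have hx3 : 0 ≤ x3 := by
    by_contra hneg
    push Not at hneg
    have : 2 * x3 * A3 ≤ 0 := mul_nonpos_of_nonpos_of_nonneg (by linarith) hA3
    linarith
  have hs0 := P.hs0
  have hq0 := P.hq0
  have hc : 0 ≤ (3 + 2 * s) / 2 * q ^ 2 := by positivity
  have r2 : (0 + (s + 2) / 4 * q + s * q) ^ 2 * L ≤ Λ * (0 + A2 + A3) := by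
    refine cs3 (u1 := 0) (u2 := (3 + 2 * s) / 2 * q ^ 2 * x2) (u3 := 4 * q ^ 2 * x3) hL.le le_rfl
      (mul_nonneg hc hx2) (mul_nonneg (by positivity) hx3) le_rfl hA2 hA3 le_rfl
      (by positivity) (by positivity) (by simp) ?_ ?_ ?_
    · have h1 := mul_le_mul_of_nonneg_left a2 hc
      have e1 : ((s + 2) / 4 * q) ^ 2 * L = ((3 + 2 * s) / 2 * q ^ 2) * L / 4 := by
        have := sqe P
        linear_combination (L / 4) * this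
      rw [e1]
      linarith
    · have h1 := mul_le_mul_of_nonneg_left a3 (show 0 ≤ 2 * q ^ 2 by positivity)
      have e1 : (s * q) ^ 2 * L = 2 * q ^ 2 * L := by
        rw [mul_pow, P.hs]
      rw [e1]
      linarith
    · have := mul_nonneg hc hx1
      linarith
  rw [val3 P] at r1
  rw [val4 P] at r2
  have hC := const P
  have hCL : (7 + 2 * s) / 4 * L = (57 + 28 * s) / 4 * q ^ 2 * L := by rw [hC]
  have hqL : 0 ≤ q ^ 2 * L := by positivity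
  have hsqL : 0 ≤ s * (q ^ 2 * L) := by positivity
  rw [hCL]
  nlinarith

end GRealAux

open GRealAux

theorem greal {L Λ x1 x2 x3 y1 y2 y3 A1 A2 A3 B1 B2 B3 p : ℝ} (hL : 0 < L) (hΛ : 0 < Λ)
    (hp : p = (3 + 2 * √2) / (7 + 2 * √2))
    (hA1 : 0 ≤ A1) (hA2 : 0 ≤ A2) (hA3 : 0 ≤ A3) (hB1 : 0 ≤ B1) (hB2 : 0 ≤ B2) (hB3 : 0 ≤ B3)
    (a1 : L ≤ 4 * x1 * A1) (a2 : L ≤ 4 * x2 * A2) (a3 : L ≤ 2 * x3 * A3)
    (b1 : L ≤ 4 * y1 * B1) (b2 : L ≤ 4 * y2 * B2) (b3 : L ≤ 2 * y3 * B3)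
    (hx : p / 2 * x1 + p / 2 * x2 + (1 - p) * x3 ≤ Λ)
    (hy : p / 2 * y1 + p / 2 * y2 + (1 - p) * y3 ≤ Λ)
    (h1 : 2 * L ≤ 4 * x1 * A1 ∨ 2 * L ≤ 4 * y1 * B1 ∨ 8 * L ≤ 4 * y1 * A1 ∨
      8 * L ≤ 4 * x1 * B1)
    (h2 : 2 * L ≤ 4 * x2 * A2 ∨ 2 * L ≤ 4 * y2 * B2 ∨ 8 * L ≤ 4 * y2 * A2 ∨
      8 * L ≤ 4 * x2 * B2) :
    (7 + 2 * √2) / 4 * L ≤ Λ * (A1 + A2 + A3 + B1 + B2 + B3) := by
  -- parameters
  set s : ℝ := √2 with hsdef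
  have hs0 : 0 < s := Real.sqrt_pos.mpr (by norm_num)
  have hs : s ^ 2 = 2 := Real.sq_sqrt (by norm_num)
  have h7 : 0 < 7 + 2 * s := by positivity
  set q : ℝ := 1 / √(7 + 2 * s) with hqdef
  have hq0 : 0 < q := by positivity
  have hq : q ^ 2 * (7 + 2 * s) = 1 := by
    rw [hqdef, div_pow, Real.sq_sqrt h7.le, one_pow]
    field_simp
  have P : Par s q := ⟨hs0, hs, hq0, hq⟩
  have hq2 : q ^ 2 = 1 / (7 + 2 * s) := by
    field_simp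
    linarith
  have hp2 : p / 2 = (3 + 2 * s) / 2 * q ^ 2 := by
    rw [hp, hq2]
    field_simp
  have hp1 : 1 - p = 4 * q ^ 2 := by
    rw [hp, hq2]
    field_simp
    ring
  rw [hp2, hp1] at hx hy
  have hC := const P
  have hCL : (7 + 2 * s) / 4 * L = (57 + 28 * s) / 4 * q ^ 2 * L := by rw [hC]
  have hqL : 0 ≤ q ^ 2 * L := by positivity
  have he0 : 0 ≤ (s + 2) / 4 * q := by positivity
  have hd0 : 0 ≤ (1 + s) / 2 * q := by positivity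
  -- exceptional cases
  have ex1 : 8 * L ≤ 4 * y1 * A1 →
      (7 + 2 * s) / 4 * L ≤ Λ * (A1 + A2 + A3 + B1 + B2 + B3) := fun h =>
    exc P hL hA1 hA2 hA3 hB1 hB2 hB3 a1 a2 a3 b1 b2 b3 hx hy h
  have ex2 : 8 * L ≤ 4 * x1 * B1 →
      (7 + 2 * s) / 4 * L ≤ Λ * (A1 + A2 + A3 + B1 + B2 + B3) := fun h => by
    have := exc P hL hB1 hB2 hB3 hA1 hA2 hA3 b1 b2 b3 a1 a2 a3 hy hx h
    have e : B1 + B2 + B3 + A1 + A2 + A3 = A1 + A2 + A3 + B1 + B2 + B3 := by ring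
    rwa [e] at this
  have ex3 : 8 * L ≤ 4 * y2 * A2 →
      (7 + 2 * s) / 4 * L ≤ Λ * (A1 + A2 + A3 + B1 + B2 + B3) := fun h => by
    have := exc (Λ := Λ) P hL hA2 hA1 hA3 hB2 hB1 hB3 a2 a1 a3 b2 b1 b3 (by linarith) (by linarith) h
    have e : A2 + A1 + A3 + B2 + B1 + B3 = A1 + A2 + A3 + B1 + B2 + B3 := by ring
    rwa [e] at this
  have ex4 : 8 * L ≤ 4 * x2 * B2 →
      (7 + 2 * s) / 4 * L ≤ Λ * (A1 + A2 + A3 + B1 + B2 + B3) := fun h => by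
    have := exc (Λ := Λ) P hL hB2 hB1 hB3 hA2 hA1 hA3 b2 b1 b3 a2 a1 a3 (by linarith) (by linarith) h
    have e : B2 + B1 + B3 + A2 + A1 + A3 = A1 + A2 + A3 + B1 + B2 + B3 := by ring
    rwa [e] at this
  -- rows
  have a1' : 1 * L ≤ 4 * x1 * A1 := by linarith
  have a2' : 1 * L ≤ 4 * x2 * A2 := by linarith
  have b1' : 1 * L ≤ 4 * y1 * B1 := by linarith
  have b2' : 1 * L ≤ 4 * y2 * B2 := by linarith
  rcases h1 with h1 | h1 | h1 | h1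
  · rcases h2 with h2 | h2 | h2 | h2
    · have r1 := row P hL hA1 hA2 hA3 two_pos two_pos hd0 hd0 (sqd P) (sqd P) h1 h2 a3 hx
      have r2 := row P hL hB1 hB2 hB3 one_pos one_pos he0 he0 (sqe P) (sqe P) b1' b2' b3 hy
      rw [val2 P] at r1
      rw [val0 P] at r2
      rw [hCL]
      linarith
    · have r1 := row P hL hA1 hA2 hA3 two_pos one_pos hd0 he0 (sqd P) (sqe P) h1 a2' a3 hx
      have r2 := row P hL hB1 hB2 hB3 one_pos two_pos he0 hd0 (sqe P) (sqd P) b1' h2 b3 hy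
      rw [add_comm ((s + 2) / 4 * q) ((1 + s) / 2 * q)] at r2
      rw [val1 P] at r1 r2
      rw [hCL]
      linarith
    · exact ex3 h2
    · exact ex4 h2
  · rcases h2 with h2 | h2 | h2 | h2
    · have r1 := row P hL hA1 hA2 hA3 one_pos two_pos he0 hd0 (sqe P) (sqd P) a1' h2 a3 hx
      have r2 := row P hL hB1 hB2 hB3 two_pos one_pos hd0 he0 (sqd P) (sqe P) h1 b2' b3 hy
      rw [add_comm ((s + 2) / 4 * q) ((1 + s) / 2 * q)] at r1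
      rw [val1 P] at r1 r2
      rw [hCL]
      linarith
    · have r1 := row P hL hA1 hA2 hA3 one_pos one_pos he0 he0 (sqe P) (sqe P) a1' a2' a3 hx
      have r2 := row P hL hB1 hB2 hB3 two_pos two_pos hd0 hd0 (sqd P) (sqd P) h1 h2 b3 hy
      rw [val0 P] at r1
      rw [val2 P] at r2
      rw [hCL]
      linarith
    · exact ex3 h2
    · exact ex4 h2
  · exact ex1 h1
  · exact ex2 h1

end DK4
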