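import Mathlib

/-!
Module DK4.GReal1: real inequality for one axis of symmetry.  (Compare DK4.GReal for the technique.)

Basic inequality: if `k_i L ≤ x_i A_i` (`i = 1, 2`), `x₁ + x₂ ≤ 2 Λ`, then
`Λ (A₁ + A₂) ≥ (L/2) (√k₁ + √k₂)²` (Cauchy).
Here `k = 1/2`, or `k = 1` in case of the double constant.
Cases: one sign gets it twice: `(1/2)(2 √(1/2))² + (1/2)(2)² = 1 + 2 = 3 ≥ (3+2√2)/2`;
each sign gets it once: `2 · (1/2) (1 + √(1/2))² = (3 + 2√2)/2`.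
Exceptional alternative, e.g. `8 L ≤ 2 y₁ A₁`: `A₁ + B₁ + B₂ ≥ L ((9/2)/y₁ + (1/2)/y₂)`, so
`Λ (A₁ + B₁ + B₂) ≥ (L/2) (√(9/2) + √(1/2))² = 4 L`.
-/

namespace DK4

namespace GReal1Aux

theorem pos {L x A : ℝ} (hL : 0 < L) (hA : 0 ≤ A) (h : L ≤ 2 * x * A) : 0 ≤ x := by
  by_contra hneg
  push Not at hneg
  have : 2 * x * A ≤ 0 := mul_nonpos_of_nonpos_of_nonneg (by linarith) hA
  linarith

/-- Cauchy for two terms -/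
theorem cs2 {L Λ u1 u2 A1 A2 r1 r2 : ℝ} (hL : 0 ≤ L) (hu1 : 0 ≤ u1) (hu2 : 0 ≤ u2)
    (hA1 : 0 ≤ A1) (hA2 : 0 ≤ A2) (hr1 : 0 ≤ r1) (hr2 : 0 ≤ r2)
    (h1 : r1 ^ 2 * L ≤ u1 * A1) (h2 : r2 ^ 2 * L ≤ u2 * A2) (hΛ : u1 + u2 ≤ Λ) :
    (r1 + r2) ^ 2 * L ≤ Λ * (A1 + A2) := by
  have h3 : 2 * r1 * r2 * L ≤ u1 * A2 + u2 * A1 := by
    have h4 : (2 * r1 * r2 * L) ^ 2 ≤ (u1 * A2 + u2 * A1) ^ 2 := by
      have e1 : (2 * r1 * r2 * L) ^ 2 = 4 * ((r1 ^ 2 * L) * (r2 ^ 2 * L)) := by ring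
      have e2 : (r1 ^ 2 * L) * (r2 ^ 2 * L) ≤ (u1 * A1) * (u2 * A2) :=
        mul_le_mul h1 h2 (by positivity) (by positivity)
      have e3 : 4 * ((u1 * A1) * (u2 * A2)) ≤ (u1 * A2 + u2 * A1) ^ 2 := by
        nlinarith [sq_nonneg (u1 * A2 - u2 * A1)]
      rw [e1]
      linarith
    exact (pow_le_pow_iff_left₀ (by positivity) (by positivity) (by norm_num)).mp h4
  have e1 : (r1 + r2) ^ 2 * L = r1 ^ 2 * L + r2 ^ 2 * L + 2 * r1 * r2 * L := by ring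
  have e2 : (u1 + u2) * (A1 + A2) = u1 * A1 + u2 * A2 + (u1 * A2 + u2 * A1) := by ring
  have e3 : (u1 + u2) * (A1 + A2) ≤ Λ * (A1 + A2) :=
    mul_le_mul_of_nonneg_right hΛ (by positivity)
  linarith

theorem row {L Λ x1 x2 A1 A2 r1 r2 : ℝ} (hL : 0 < L)
    (hA1 : 0 ≤ A1) (hA2 : 0 ≤ A2) (hr1 : 0 ≤ r1) (hr2 : 0 ≤ r2) (hx1 : 0 ≤ x1) (hx2 : 0 ≤ x2)
    (a1 : 4 * (r1 ^ 2 * L) ≤ 2 * x1 * A1) (a2 : 4 * (r2 ^ 2 * L) ≤ 2 * x2 * A2)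
    (hx : 1 / 2 * x1 + 1 / 2 * x2 ≤ Λ) :
    (r1 + r2) ^ 2 * L ≤ Λ * (A1 + A2) :=
  cs2 hL.le (by linarith) (by linarith) hA1 hA2 hr1 hr2 (by linarith) (by linarith) hx

/-- the exceptional case -/
theorem exc {L Λ y1 y2 A1 B1 B2 A2 : ℝ} (hL : 0 < L) (hΛ : 0 < Λ)
    (hA1 : 0 ≤ A1) (hA2 : 0 ≤ A2) (hB1 : 0 ≤ B1) (hB2 : 0 ≤ B2)
    (b1 : L ≤ 2 * y1 * B1) (b2 : L ≤ 2 * y2 * B2)
    (hy : 1 / 2 * y1 + 1 / 2 * y2 ≤ Λ) (h : 8 * L ≤ 2 * y1 * A1) :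
    (3 + 2 * √2) / 2 * L ≤ Λ * (A1 + A2 + B1 + B2) := by
  have hy1 := pos hL hB1 b1
  have hy2 := pos hL hB2 b2
  have r := row (r1 := 3 / 2) (r2 := 1 / 2) (A1 := A1 + B1) (A2 := B2) (x1 := y1) (x2 := y2)
    (Λ := Λ) hL (add_nonneg hA1 hB1) hB2 (by norm_num) (by norm_num) hy1 hy2
    (by nlinarith) (by linarith) hy
  have hs : √2 ≤ 3 / 2 := by
    rw [Real.sqrt_le_left (by norm_num)]
    norm_num
  have hA : 0 ≤ Λ * A2 := by positivity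
  have h1 : √2 * L ≤ 3 / 2 * L := mul_le_mul_of_nonneg_right hs hL.le
  nlinarith

end GReal1Aux

open GReal1Aux

end DK4

open DK4.GReal1Aux in
theorem DK4.greal1 {L Λ x1 x2 y1 y2 A1 A2 B1 B2 : ℝ} (hL : 0 < L) (hΛ : 0 < Λ)
    (hA1 : 0 ≤ A1) (hA2 : 0 ≤ A2) (hB1 : 0 ≤ B1) (hB2 : 0 ≤ B2)
    (a1 : L ≤ 2 * x1 * A1) (a2 : L ≤ 2 * x2 * A2)
    (b1 : L ≤ 2 * y1 * B1) (b2 : L ≤ 2 * y2 * B2)
    (hx : 1 / 2 * x1 + 1 / 2 * x2 ≤ Λ) (hy : 1 / 2 * y1 + 1 / 2 * y2 ≤ Λ)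
    (h1 : 2 * L ≤ 2 * x1 * A1 ∨ 2 * L ≤ 2 * y1 * B1 ∨ 8 * L ≤ 2 * y1 * A1 ∨
      8 * L ≤ 2 * x1 * B1)
    (h2 : 2 * L ≤ 2 * x2 * A2 ∨ 2 * L ≤ 2 * y2 * B2 ∨ 8 * L ≤ 2 * y2 * A2 ∨
      8 * L ≤ 2 * x2 * B2) :
    (3 + 2 * √2) / 2 * L ≤ Λ * (A1 + A2 + B1 + B2) := by
  have hx1 := pos hL hA1 a1
  have hx2 := pos hL hA2 a2
  have hy1 := pos hL hB1 b1
  have hy2 := pos hL hB2 b2
  -- exceptional cases
  have ex1 : 8 * L ≤ 2 * y1 * A1 → (3 + 2 * √2) / 2 * L ≤ Λ * (A1 + A2 + B1 + B2) :=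
    fun h => exc hL hΛ hA1 hA2 hB1 hB2 b1 b2 hy h
  have ex2 : 8 * L ≤ 2 * x1 * B1 → (3 + 2 * √2) / 2 * L ≤ Λ * (A1 + A2 + B1 + B2) :=
    fun h => by
      have := exc (Λ := Λ) (A2 := B2) hL hΛ hB1 hB2 hA1 hA2 a1 a2 hx h
      have e : B1 + B2 + A1 + A2 = A1 + A2 + B1 + B2 := by ring
      rwa [e] at this
  have ex3 : 8 * L ≤ 2 * y2 * A2 → (3 + 2 * √2) / 2 * L ≤ Λ * (A1 + A2 + B1 + B2) :=
    fun h => by
      have := exc (Λ := Λ) (A2 := A1) hL hΛ hA2 hA1 hB2 hB1 b2 b1 (by linarith) h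
      have e : A2 + A1 + B2 + B1 = A1 + A2 + B1 + B2 := by ring
      rwa [e] at this
  have ex4 : 8 * L ≤ 2 * x2 * B2 → (3 + 2 * √2) / 2 * L ≤ Λ * (A1 + A2 + B1 + B2) :=
    fun h => by
      have := exc (Λ := Λ) (A2 := B1) hL hΛ hB2 hB1 hA2 hA1 a2 a1 (by linarith) h
      have e : B2 + B1 + A2 + A1 = A1 + A2 + B1 + B2 := by ring
      rwa [e] at this
  -- the square root
  obtain ⟨s, hs⟩ : ∃ s : ℝ, √2 = s := ⟨_, rfl⟩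
  have hs0 : 0 ≤ s := by rw [← hs]; exact Real.sqrt_nonneg 2
  have hs2 : s ^ 2 = 2 := by rw [← hs]; exact Real.sq_sqrt (by norm_num)
  have hs3 : s ≤ 3 / 2 := by
    by_contra hneg
    push Not at hneg
    nlinarith
  have hsL : s * L ≤ 3 / 2 * L := mul_le_mul_of_nonneg_right hs3 hL.le
  have sq2 : 4 * ((s / 2) ^ 2 * L) = 2 * L := by
    have : 4 * ((s / 2) ^ 2 * L) = s ^ 2 * L := by ring
    rw [this, hs2]
  have sq1 : 4 * ((1 / 2 : ℝ) ^ 2 * L) = L := by ring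
  rw [hs] at ex1 ex2 ex3 ex4 ⊢
  have v2 : (s / 2 + s / 2) ^ 2 = 2 := by
    have : (s / 2 + s / 2) ^ 2 = s ^ 2 := by ring
    rw [this, hs2]
  have v1 : (s / 2 + 1 / 2) ^ 2 = (3 + 2 * s) / 4 := by
    have : (s / 2 + 1 / 2) ^ 2 = (s ^ 2 + 2 * s + 1) / 4 := by ring
    rw [this, hs2]
    ring
  have v1' : (1 / 2 + s / 2) ^ 2 = (3 + 2 * s) / 4 := by rw [add_comm]; exact v1
  rcases h1 with h1 | h1 | h1 | h1
  · rcases h2 with h2 | h2 | h2 | h2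
    · have r1 := row (r1 := s / 2) (r2 := s / 2) (Λ := Λ) hL hA1 hA2 (by positivity)
        (by positivity) hx1 hx2 (by rw [sq2]; exact h1) (by rw [sq2]; exact h2) hx
      have r2 := row (r1 := 1 / 2) (r2 := 1 / 2) (Λ := Λ) hL hB1 hB2 (by norm_num)
        (by norm_num) hy1 hy2 (by rw [sq1]; exact b1) (by rw [sq1]; exact b2) hy
      rw [v2] at r1
      linarith
    · have r1 := row (r1 := s / 2) (r2 := 1 / 2) (Λ := Λ) hL hA1 hA2 (by positivity)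
        (by norm_num) hx1 hx2 (by rw [sq2]; exact h1) (by rw [sq1]; exact a2) hx
      have r2 := row (r1 := 1 / 2) (r2 := s / 2) (Λ := Λ) hL hB1 hB2 (by norm_num)
        (by positivity) hy1 hy2 (by rw [sq1]; exact b1) (by rw [sq2]; exact h2) hy
      rw [v1] at r1
      rw [v1'] at r2
      linarith
    · exact ex3 h2
    · exact ex4 h2
  · rcases h2 with h2 | h2 | h2 | h2
    · have r1 := row (r1 := 1 / 2) (r2 := s / 2) (Λ := Λ) hL hA1 hA2 (by norm_num)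
        (by positivity) hx1 hx2 (by rw [sq1]; exact a1) (by rw [sq2]; exact h2) hx
      have r2 := row (r1 := s / 2) (r2 := 1 / 2) (Λ := Λ) hL hB1 hB2 (by positivity)
        (by norm_num) hy1 hy2 (by rw [sq2]; exact h1) (by rw [sq1]; exact b2) hy
      rw [v1'] at r1
      rw [v1] at r2
      linarith
    · have r1 := row (r1 := 1 / 2) (r2 := 1 / 2) (Λ := Λ) hL hA1 hA2 (by norm_num)
        (by norm_num) hx1 hx2 (by rw [sq1]; exact a1) (by rw [sq1]; exact a2) hx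
      have r2 := row (r1 := s / 2) (r2 := s / 2) (Λ := Λ) hL hB1 hB2 (by positivity)
        (by positivity) hy1 hy2 (by rw [sq2]; exact h1) (by rw [sq2]; exact h2) hy
      rw [v2] at r2
      linarith
    · exact ex3 h2
    · exact ex4 h2
  · exact ex1 h1
  · exact ex2 h1
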