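import Pool.Agent.Lib.DK4.Cases
import Pool.Agent.Lib.DK4.Alg
import Pool.Agent.Lib.DK4.Bump

/-!
Module DK4.Main (helper65): the lower bound for the fourth eigenvalue.
-/

open MeasureTheory Set Metric
open scoped ContDiff NNReal

namespace DK4

theorem no_space {k : ℕ} (hk : 3 ≤ k) {Ω : Set ℂ} (hΩo : IsOpen Ω) (hΩ : DSym k Ω)
    (hfin : volume Ω ≠ ⊤) {Λ : ℝ} (hΛ : Λ * volume.real Ω < 4 * (Real.pi * j01 ^ 2))
    (V : Submodule ℝ (ℂ → ℝ)) (hV : Module.finrank ℝ V = 4) (hVt : ∀ u ∈ V, IsTest Ω u)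
    (hneg : ∀ u ∈ V, u ≠ 0 → q Λ u < 0) : False := by
  obtain ⟨K, hK2, hKt, hKi, hKn⟩ := inv_space hk hΩ hV hVt hneg
    (fun M hM hodd hn => odd_le_one hΩo hΩ hfin hΛ M hM hodd hn)
    (fun u hu he hr => antirot hk hfin hΛ u hu he hr)
  exact no_inv_pair hk hfin hΛ K hK2 hKt hKi hKn

theorem integral_sq_pos {Ω : Set ℂ} {u : ℂ → ℝ} (hu : IsTest Ω u) (hne : u ≠ 0) :
    0 < ∫ z, u z ^ 2 := by
  have hadm := hu.adm
  have hc : Continuous fun z => u z ^ 2 := hadm.continuous.pow 2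
  obtain ⟨z0, hz0⟩ : ∃ z, u z ≠ 0 := by
    by_contra h
    push_neg at h
    exact hne (funext h)
  apply hc.integral_pos_of_hasCompactSupport_nonneg_nonzero (x := z0)
  · exact hadm.cpt.comp_left (g := fun x : ℝ => x ^ 2) (by simp)
  · intro z; positivity
  · simpa using hz0

theorem eig_bound {k : ℕ} (hk : 3 ≤ k) {Ω : Set ℂ} (hΩo : IsOpen Ω) (hne : Ω.Nonempty)
    (hΩ : DSym k Ω) (hfin : volume Ω ≠ ⊤) :
    4 * Real.pi * j01 ^ 2 ≤ dirEig 4 Ω * volume.real Ω := by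
  have hpos : 0 < volume.real Ω := by
    unfold Measure.real
    exact ENNReal.toReal_pos (hΩo.measure_pos volume hne).ne' hfin
  rw [← div_le_iff₀ hpos]
  unfold dirEig
  apply le_csInf (exists_space 4 hΩo hne)
  rintro Λ ⟨V, hV, hVt, hq⟩
  rw [div_le_iff₀ hpos]
  by_contra hcon
  rw [not_le] at hcon
  -- choose a slightly larger Λ'
  obtain ⟨Λ', h1, h2⟩ : ∃ Λ', Λ < Λ' ∧ Λ' * volume.real Ω < 4 * (Real.pi * j01 ^ 2) := by
    obtain ⟨Λ', h1, h2⟩ := exists_between ((lt_div_iff₀ hpos).2 hcon)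
    exact ⟨Λ', h1, by rw [lt_div_iff₀ hpos] at h2; linarith⟩
  refine no_space hk hΩo hΩ hfin h2 V hV hVt ?_
  intro u hu hne'
  have h3 := hq u hu
  have h4 := integral_sq_pos (hVt u hu) hne'
  unfold q
  nlinarith

/-- in terms of the conjectured optimum -/
theorem eig_bound' {k : ℕ} (hk : 3 ≤ k) {Ω : Set ℂ} (hΩo : IsOpen Ω) (hne : Ω.Nonempty)
    (hΩ : DSym k Ω) (hfin : volume Ω ≠ ⊤) :
    Real.pi * (j01 ^ 2 + j11 ^ 2) < dirEig 4 Ω * volume.real Ω := by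
  have h1 := eig_bound hk hΩo hne hΩ hfin
  have h2 := j11_sq_lt
  have h3 := Real.pi_pos
  nlinarith

end DK4
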