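import Pool.Agent.Lib.DK4.Pair
import Pool.Agent.Lib.DK4.Balance
import Pool.Agent.Lib.DK4.Fold
import Pool.Agent.Lib.DK4.GReal
import Pool.Agent.Lib.DK4.ContM
import Pool.Agent.Lib.DK4.Main

/-!
Module DK4.Gen (helper65): the lower bound of `λ₄` for all open sets.
-/

open MeasureTheory Set Metric Filter Topology
open scoped ContDiff NNReal

namespace DK4

/-! ### limits -/

theorem lim_one {L x A : ℝ} (h : ∀ ε : ℝ, 0 < ε → L ≤ (x + ε) * A) : L ≤ x * A := by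
  have h1 : Tendsto (fun ε : ℝ => (x + ε) * A) (𝓝[>] 0) (𝓝 ((x + 0) * A)) :=
    (Continuous.tendsto (by fun_prop) 0).mono_left nhdsWithin_le_nhds
  rw [add_zero] at h1
  refine ge_of_tendsto h1 ?_
  filter_upwards [self_mem_nhdsWithin] with ε hε
  exact h ε hε

theorem ev_fail {K x A : ℝ} (h : ¬ K ≤ x * A) :
    ∀ᶠ ε : ℝ in 𝓝[>] 0, (x + ε) * A < K := by
  have h1 : Tendsto (fun ε : ℝ => (x + ε) * A) (𝓝[>] 0) (𝓝 ((x + 0) * A)) :=
    (Continuous.tendsto (by fun_prop) 0).mono_left nhdsWithin_le_nhds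
  rw [add_zero] at h1
  exact h1.eventually_lt_const (not_le.1 h)

theorem lim_four {K1 K2 K3 K4 x y A B : ℝ}
    (h : ∀ ε : ℝ, 0 < ε → K1 ≤ (x + ε) * A ∨ K2 ≤ (y + ε) * B ∨ K3 ≤ (y + ε) * A ∨
      K4 ≤ (x + ε) * B) :
    K1 ≤ x * A ∨ K2 ≤ y * B ∨ K3 ≤ y * A ∨ K4 ≤ x * B := by
  by_contra hcon
  simp only [not_or] at hcon
  obtain ⟨h1, h2, h3, h4⟩ := hcon
  have := (ev_fail h1).and ((ev_fail h2).and ((ev_fail h3).and ((ev_fail h4).and
    (self_mem_nhdsWithin : Ioi (0 : ℝ) ∈ 𝓝[>] 0))))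
  obtain ⟨ε, e1, e2, e3, e4, e5⟩ := this.exists
  rcases h ε e5 with h | h | h | h
  · linarith
  · linarith
  · linarith
  · linarith

/-! ### splitting along lines -/

theorem Hf_meas (t σ : ℝ) : MeasurableSet (Hf t σ) := by
  unfold Hf
  exact (isOpen_lt continuous_const (by fun_prop)).measurableSet

theorem Qd_meas (t s σ τ : ℝ) : MeasurableSet (Qd t s σ τ) := by
  have h1 : IsOpen {z : ℂ | 0 < σ * (z.re - t)} := isOpen_lt continuous_const (by fun_prop)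
  have h2 : IsOpen {z : ℂ | 0 < τ * (z.im - s)} := isOpen_lt continuous_const (by fun_prop)
  exact (h1.inter h2).measurableSet

theorem split_h {g : ℂ → ℝ} (hg : Integrable g) (t : ℝ) :
    ∫ z, g z = (∫ z in Hf t (-1), g z) + ∫ z in Hf t 1, g z := by
  rw [← setIntegral_union (s := Hf t (-1)) (t := Hf t 1) ?_ (Hf_meas t 1) hg.integrableOn
    hg.integrableOn]
  · rw [← setIntegral_univ]
    apply setIntegral_congr_set
    filter_upwards [ContMAux.null_re t] with z hz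
    apply propext
    constructor
    · intro _
      rcases lt_or_gt_of_ne hz with h | h
      · left
        show 0 < -1 * (z.re - t)
        linarith
      · right
        show 0 < 1 * (z.re - t)
        linarith
    · intro _
      trivial
  · rw [Set.disjoint_left]
    intro z h1 h2
    have h3 : 0 < -1 * (z.re - t) := h1
    have h4 : 0 < 1 * (z.re - t) := h2
    linarith

theorem split_q {g : ℂ → ℝ} (hg : Integrable g) (t s σ : ℝ) :
    ∫ z in Hf t σ, g z = (∫ z in Qd t s σ (-1), g z) + ∫ z in Qd t s σ 1, g z := by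
  rw [← setIntegral_union (s := Qd t s σ (-1)) (t := Qd t s σ 1) ?_ (Qd_meas t s σ 1)
    hg.integrableOn hg.integrableOn]
  · apply setIntegral_congr_set
    filter_upwards [ContMAux.null_im s] with z hz
    apply propext
    constructor
    · intro h0
      rcases lt_or_gt_of_ne hz with h | h
      · left
        refine ⟨h0, ?_⟩
        linarith
      · right
        refine ⟨h0, ?_⟩
        linarith
    · rintro (h | h)
      · exact h.1
      · exact h.1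
  · rw [Set.disjoint_left]
    intro z h1 h2
    have h3 : 0 < -1 * (z.im - s) := h1.2
    have h4 : 0 < 1 * (z.im - s) := h2.2
    linarith


theorem adm_vol {f : ℂ → ℝ} (hf : Adm f) : volume {z | 0 < f z} ≠ ⊤ := by
  refine ((measure_mono ?_).trans_lt hf.cpt.isCompact.measure_lt_top).ne
  intro z hz
  apply subset_tsupport
  exact (ne_of_gt hz)

theorem ind_int {f : ℂ → ℝ} (hf : Adm f) :
    Integrable ({z | 0 < f z}.indicator (1 : ℂ → ℝ)) :=
  (integrable_indicator_iff (isOpen_lt continuous_const hf.continuous).measurableSet).2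
    (integrableOn_const (adm_vol hf))

theorem ind_set {f : ℂ → ℝ} (hf : Adm f) (D : Set ℂ) :
    ∫ z in D, {z | 0 < f z}.indicator (1 : ℂ → ℝ) z = volume.real (D ∩ {z | 0 < f z}) := by
  have hm : MeasurableSet {z | 0 < f z} :=
    (isOpen_lt continuous_const hf.continuous).measurableSet
  rw [integral_indicator_one hm, measureReal_restrict_apply hm, inter_comm]

theorem ind_all {f : ℂ → ℝ} (hf : Adm f) :
    ∫ z, {z | 0 < f z}.indicator (1 : ℂ → ℝ) z = volume.real {z | 0 < f z} :=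
  integral_indicator_one (isOpen_lt continuous_const hf.continuous).measurableSet

theorem vol_split {f : ℂ → ℝ} (hf : Adm f) (t s : ℝ) :
    volume.real {z | 0 < f z} = volume.real (Qd t s (-1) 1 ∩ {z | 0 < f z}) +
      volume.real (Qd t s (-1) (-1) ∩ {z | 0 < f z}) + volume.real (Hf t 1 ∩ {z | 0 < f z}) := by
  rw [← ind_all hf, split_h (ind_int hf) t, split_q (ind_int hf) t s (-1), ind_set hf,
    ind_set hf, ind_set hf]
  ring

theorem en_split {f : ℂ → ℝ} (hf : Adm f) (t s : ℝ) :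
    ∫ z, ‖fderiv ℝ f z‖ ^ 2 = (∫ z in Qd t s (-1) 1, ‖fderiv ℝ f z‖ ^ 2) +
      (∫ z in Qd t s (-1) (-1), ‖fderiv ℝ f z‖ ^ 2) + ∫ z in Hf t 1, ‖fderiv ℝ f z‖ ^ 2 := by
  rw [split_h hf.integrable_en t, split_q hf.integrable_en t s (-1)]
  ring

/-- the three masses -/
theorem masses {f : ℂ → ℝ} (hf : Adm f) {t s p : ℝ}
    (h1 : (1 - p) * ∫ z in Hf t (-1), f z ^ 2 = p * ∫ z in Hf t 1, f z ^ 2)
    (h2 : ∫ z in Qd t s (-1) (-1), f z ^ 2 = ∫ z in Qd t s (-1) 1, f z ^ 2) :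
    ∫ z in Qd t s (-1) 1, f z ^ 2 = p / 2 * ∫ z, f z ^ 2 ∧
    ∫ z in Qd t s (-1) (-1), f z ^ 2 = p / 2 * ∫ z, f z ^ 2 ∧
    ∫ z in Hf t 1, f z ^ 2 = (1 - p) * ∫ z, f z ^ 2 := by
  have h3 := split_h hf.integrable_sq t
  have h4 := split_q hf.integrable_sq t s (-1)
  have h5 : ∫ z in Hf t (-1), f z ^ 2 = p * ∫ z, f z ^ 2 := by rw [h3]; linarith
  have h6 : ∫ z in Hf t 1, f z ^ 2 = (1 - p) * ∫ z, f z ^ 2 := by rw [h3] at h5 ⊢; linarith
  refine ⟨by linarith, by linarith, h6⟩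

/-! ### Faber-Krahn on the pieces -/

theorem q_fold {F : ℂ → ℝ} {c M E x lam : ℝ} (hc : 0 < c) (hM : 0 < M)
    (h1 : ∫ z, F z ^ 2 = c * M) (h2 : ∫ z, ‖fderiv ℝ F z‖ ^ 2 = c * E) (hx : x = E / M)
    (hl : x < lam) : q lam F < 0 := by
  unfold q
  rw [h1, h2]
  have h3 : E = x * M := by rw [hx]; field_simp
  rw [h3]
  have h4 : 0 < c * M * (lam - x) := mul_pos (mul_pos hc hM) (sub_pos.2 hl)
  nlinarith

theorem foldq_nonneg {f : ℂ → ℝ} (f0 : ∀ z, 0 ≤ f z) (t s σ τ : ℝ) (z : ℂ) :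
    0 ≤ foldq t s σ τ f z := f0 _

theorem foldq_even (f : ℂ → ℝ) (t s σ τ : ℝ) (z : ℂ) :
    foldq t s σ τ f (-z) = foldq t s σ τ f z := by
  simp [foldq]

/-- Faber-Krahn on a quadrant -/
theorem fk_quad {f : ℂ → ℝ} (hf : Adm f) (f0 : ∀ z, 0 ≤ f z) {t s σ τ : ℝ}
    (hσ : σ = 1 ∨ σ = -1) (hτ : τ = 1 ∨ τ = -1) (hM : 0 < ∫ z in Qd t s σ τ, f z ^ 2) :
    Real.pi * j01 ^ 2 ≤ 4 * ((∫ z in Qd t s σ τ, ‖fderiv ℝ f z‖ ^ 2) /
      ∫ z in Qd t s σ τ, f z ^ 2) * volume.real (Qd t s σ τ ∩ {z | 0 < f z}) := by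
  set x := (∫ z in Qd t s σ τ, ‖fderiv ℝ f z‖ ^ 2) / ∫ z in Qd t s σ τ, f z ^ 2 with hx
  have h1 : Real.pi * j01 ^ 2 ≤ x * (4 * volume.real (Qd t s σ τ ∩ {z | 0 < f z})) := by
    apply lim_one
    intro ε hε
    have h2 := FK4.fk (foldq_adm hf hσ hτ (t := t) (s := s)) (foldq_nonneg f0 t s σ τ)
      (q_fold (by norm_num : (0 : ℝ) < 4) hM (foldq_sq hf hσ hτ) (foldq_en hf hσ hτ) hx
        (lt_add_of_pos_right x hε))
    rwa [foldq_vol hf f0 hσ hτ] at h2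
  linarith

/-- Faber-Krahn on a half plane -/
theorem fk_half {f : ℂ → ℝ} (hf : Adm f) (f0 : ∀ z, 0 ≤ f z) {t σ : ℝ}
    (hσ : σ = 1 ∨ σ = -1) (hM : 0 < ∫ z in Hf t σ, f z ^ 2) :
    Real.pi * j01 ^ 2 ≤ 2 * ((∫ z in Hf t σ, ‖fderiv ℝ f z‖ ^ 2) /
      ∫ z in Hf t σ, f z ^ 2) * volume.real (Hf t σ ∩ {z | 0 < f z}) := by
  set x := (∫ z in Hf t σ, ‖fderiv ℝ f z‖ ^ 2) / ∫ z in Hf t σ, f z ^ 2 with hx
  have h1 : Real.pi * j01 ^ 2 ≤ x * (2 * volume.real (Hf t σ ∩ {z | 0 < f z})) := by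
    apply lim_one
    intro ε hε
    have h2 := FK4.fk (foldh_adm hf hσ (t := t)) (fun z => f0 _)
      (q_fold (by norm_num : (0 : ℝ) < 2) hM (foldh_sq hf hσ) (foldh_en hf hσ) hx
        (lt_add_of_pos_right x hε))
    rwa [foldh_vol hf f0 hσ] at h2
  linarith

/-- the double constant for one of the two signs on a quadrant -/
theorem pair_quad {f g : ℂ → ℝ} (hf : Adm f) (hg : Adm g) (f0 : ∀ z, 0 ≤ f z)
    (g0 : ∀ z, 0 ≤ g z) (hdis : ∀ z, f z = 0 ∨ g z = 0) {t s σ τ : ℝ}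
    (hσ : σ = 1 ∨ σ = -1) (hτ : τ = 1 ∨ τ = -1) {x y A B : ℝ}
    (hM : 0 < ∫ z in Qd t s σ τ, f z ^ 2) (hN : 0 < ∫ z in Qd t s σ τ, g z ^ 2)
    (hx : x = (∫ z in Qd t s σ τ, ‖fderiv ℝ f z‖ ^ 2) / ∫ z in Qd t s σ τ, f z ^ 2)
    (hy : y = (∫ z in Qd t s σ τ, ‖fderiv ℝ g z‖ ^ 2) / ∫ z in Qd t s σ τ, g z ^ 2)
    (hA : A = volume.real (Qd t s σ τ ∩ {z | 0 < f z}))
    (hB : B = volume.real (Qd t s σ τ ∩ {z | 0 < g z})) :
    2 * (Real.pi * j01 ^ 2) ≤ 4 * x * A ∨ 2 * (Real.pi * j01 ^ 2) ≤ 4 * y * B ∨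
      8 * (Real.pi * j01 ^ 2) ≤ 4 * y * A ∨ 8 * (Real.pi * j01 ^ 2) ≤ 4 * x * B := by
  have key := lim_four (K1 := 2 * (Real.pi * j01 ^ 2)) (K2 := 2 * (Real.pi * j01 ^ 2))
    (K3 := 8 * (Real.pi * j01 ^ 2)) (K4 := 8 * (Real.pi * j01 ^ 2)) (x := x) (y := y)
    (A := 4 * A) (B := 4 * B) (by
      intro ε hε
      have h := pair_lemma (foldq_adm hf hσ hτ (t := t) (s := s))
        (foldq_adm hg hσ hτ (t := t) (s := s)) (foldq_nonneg f0 t s σ τ)
        (foldq_nonneg g0 t s σ τ) (foldq_even f t s σ τ) (foldq_even g t s σ τ)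
        (fun z => hdis _)
        (q_fold (by norm_num : (0 : ℝ) < 4) hM (foldq_sq hf hσ hτ) (foldq_en hf hσ hτ) hx
          (lt_add_of_pos_right x hε))
        (q_fold (by norm_num : (0 : ℝ) < 4) hN (foldq_sq hg hσ hτ) (foldq_en hg hσ hτ) hy
          (lt_add_of_pos_right y hε))
      rwa [foldq_vol hf f0 hσ hτ, foldq_vol hg g0 hσ hτ, ← hA, ← hB] at h)
  rcases key with h | h | h | h
  · left; linarith
  · right; left; linarith
  · right; right; left; linarith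
  · right; right; right; linarith

theorem sq_pos_of_q {Λ : ℝ} {f : ℂ → ℝ} (h : q Λ f < 0) : 0 < ∫ z, f z ^ 2 := by
  rcases (integral_nonneg (fun z => sq_nonneg (f z)) : 0 ≤ ∫ z, f z ^ 2).lt_or_eq with h1 | h1
  · exact h1
  · exfalso
    have h2 : 0 ≤ ∫ z, ‖fderiv ℝ f z‖ ^ 2 := integral_nonneg (fun z => by positivity)
    unfold q at h
    rw [← h1] at h
    linarith

theorem gen_core {f g : ℂ → ℝ} (hf : Adm f) (hg : Adm g) (f0 : ∀ z, 0 ≤ f z)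
    (g0 : ∀ z, 0 ≤ g z) (hdis : ∀ z, f z = 0 ∨ g z = 0) {Λ t s p : ℝ} (hΛ : 0 < Λ)
    (hp : p = (3 + 2 * √2) / (7 + 2 * √2)) (hqf : q Λ f < 0) (hqg : q Λ g < 0)
    (f1 : (1 - p) * ∫ z in Hf t (-1), f z ^ 2 = p * ∫ z in Hf t 1, f z ^ 2)
    (g1 : (1 - p) * ∫ z in Hf t (-1), g z ^ 2 = p * ∫ z in Hf t 1, g z ^ 2)
    (f2 : ∫ z in Qd t s (-1) (-1), f z ^ 2 = ∫ z in Qd t s (-1) 1, f z ^ 2)
    (g2 : ∫ z in Qd t s (-1) (-1), g z ^ 2 = ∫ z in Qd t s (-1) 1, g z ^ 2)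
    (hL : 0 < Real.pi * j01 ^ 2) :
    (7 + 2 * √2) / 4 * (Real.pi * j01 ^ 2) ≤
      Λ * (volume.real {z | 0 < f z} + volume.real {z | 0 < g z}) := by
  have hs : 0 ≤ √2 := Real.sqrt_nonneg 2
  have hp0 : 0 < p := by rw [hp]; positivity
  have hp1 : p < 1 := by rw [hp, div_lt_one (by positivity)]; linarith
  have hmf := sq_pos_of_q hqf
  have hmg := sq_pos_of_q hqg
  obtain ⟨fT, fB, fR⟩ := masses hf f1 f2
  obtain ⟨gT, gB, gR⟩ := masses hg g1 g2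
  have hp2 : 0 < p / 2 := by positivity
  have hp3 : 0 < 1 - p := by linarith
  have pfT : 0 < ∫ z in Qd t s (-1) 1, f z ^ 2 := by rw [fT]; positivity
  have pfB : 0 < ∫ z in Qd t s (-1) (-1), f z ^ 2 := by rw [fB]; positivity
  have pfR : 0 < ∫ z in Hf t 1, f z ^ 2 := by rw [fR]; positivity
  have pgT : 0 < ∫ z in Qd t s (-1) 1, g z ^ 2 := by rw [gT]; positivity
  have pgB : 0 < ∫ z in Qd t s (-1) (-1), g z ^ 2 := by rw [gB]; positivity
  have pgR : 0 < ∫ z in Hf t 1, g z ^ 2 := by rw [gR]; positivity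
  have h1 : (1 : ℝ) = 1 ∨ (1 : ℝ) = -1 := Or.inl rfl
  have hm1 : (-1 : ℝ) = 1 ∨ (-1 : ℝ) = -1 := Or.inr rfl
  have sumE : ∀ (u : ℂ → ℝ) (hu : Adm u), q Λ u < 0 → 0 < ∫ z, u z ^ 2 →
      (∫ z in Qd t s (-1) 1, u z ^ 2 = p / 2 * ∫ z, u z ^ 2) →
      (∫ z in Qd t s (-1) (-1), u z ^ 2 = p / 2 * ∫ z, u z ^ 2) →
      (∫ z in Hf t 1, u z ^ 2 = (1 - p) * ∫ z, u z ^ 2) →
      p / 2 * ((∫ z in Qd t s (-1) 1, ‖fderiv ℝ u z‖ ^ 2) / ∫ z in Qd t s (-1) 1, u z ^ 2) +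
      p / 2 * ((∫ z in Qd t s (-1) (-1), ‖fderiv ℝ u z‖ ^ 2) /
        ∫ z in Qd t s (-1) (-1), u z ^ 2) +
      (1 - p) * ((∫ z in Hf t 1, ‖fderiv ℝ u z‖ ^ 2) / ∫ z in Hf t 1, u z ^ 2) ≤ Λ := by
    intro u hu hq hm e1 e2 e3
    rw [e1, e2, e3]
    have h5 := en_split hu t s
    have h6 : ∀ E m c : ℝ, 0 < m → 0 < c → c * (E / (c * m)) = E / m := by
      intro E m c hm hc
      field_simp
    rw [h6 _ _ _ hm hp2, h6 _ _ _ hm hp2, h6 _ _ _ hm hp3, ← add_div, ← add_div, ← h5,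
      div_le_iff₀ hm]
    unfold q at hq
    linarith
  have hE1 := sumE f hf hqf hmf fT fB fR
  have hE2 := sumE g hg hqg hmg gT gB gR
  have key := greal (A1 := volume.real (Qd t s (-1) 1 ∩ {z | 0 < f z}))
    (A2 := volume.real (Qd t s (-1) (-1) ∩ {z | 0 < f z}))
    (A3 := volume.real (Hf t 1 ∩ {z | 0 < f z}))
    (B1 := volume.real (Qd t s (-1) 1 ∩ {z | 0 < g z}))
    (B2 := volume.real (Qd t s (-1) (-1) ∩ {z | 0 < g z}))
    (B3 := volume.real (Hf t 1 ∩ {z | 0 < g z})) hL hΛ hp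
    measureReal_nonneg measureReal_nonneg measureReal_nonneg measureReal_nonneg
    measureReal_nonneg measureReal_nonneg
    (fk_quad hf f0 hm1 h1 pfT) (fk_quad hf f0 hm1 hm1 pfB) (fk_half hf f0 h1 pfR)
    (fk_quad hg g0 hm1 h1 pgT) (fk_quad hg g0 hm1 hm1 pgB) (fk_half hg g0 h1 pgR)
    hE1 hE2
    (pair_quad hf hg f0 g0 hdis hm1 h1 pfT pgT rfl rfl rfl rfl)
    (pair_quad hf hg f0 g0 hdis hm1 hm1 pfB pgB rfl rfl rfl rfl)
  rw [vol_split hf t s, vol_split hg t s]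
  linarith

theorem pi_j01_pos : 0 < Real.pi * j01 ^ 2 := by
  have h1 := j01_gt
  have h2 := Real.pi_pos
  positivity

theorem two_signs {Ω : Set ℂ} (hfin : volume Ω ≠ ⊤) {u : ℂ → ℝ} (hu : Adm u)
    (hs : ∀ z, u z ≠ 0 → z ∈ Ω) :
    volume.real {z | 0 < max (u z) 0} + volume.real {z | 0 < max (-u z) 0} ≤
      volume.real Ω := by
  have hm : MeasurableSet {z | 0 < max (-u z) 0} :=
    (isOpen_lt continuous_const hu.neg.pos.continuous).measurableSet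
  have hsub : {z | 0 < max (u z) 0} ∪ {z | 0 < max (-u z) 0} ⊆ Ω := by
    rintro z (h | h)
    · apply hs
      intro h0
      have : 0 < max (u z) 0 := h
      rw [h0] at this
      simp at this
    · apply hs
      intro h0
      have : 0 < max (-u z) 0 := h
      rw [h0] at this
      simp at this
  have hd : Disjoint {z | 0 < max (u z) 0} {z | 0 < max (-u z) 0} := by
    rw [Set.disjoint_left]
    intro z h1 h2
    have h3 : 0 < max (u z) 0 := h1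
    have h4 : 0 < max (-u z) 0 := h2
    rcases lt_max_iff.1 h3 with h | h
    · rcases lt_max_iff.1 h4 with h' | h'
      · linarith
      · exact lt_irrefl _ h'
    · exact lt_irrefl _ h
  rw [← measureReal_union hd hm (adm_vol hu.pos) (adm_vol hu.neg.pos)]
  exact measureReal_mono hsub hfin

theorem gen_space {Ω : Set ℂ} (hfin : volume Ω ≠ ⊤) {Λ : ℝ} (hΛ : 0 < Λ)
    {v : Fin 4 → ℂ → ℝ} (hv : ∀ i, IsTest Ω (v i))
    (hneg : ∀ a : Fin 4 → ℝ, a ≠ 0 → q Λ (uc v a) < 0) :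
    (7 + 2 * √2) / 4 * (Real.pi * j01 ^ 2) ≤ Λ * volume.real Ω := by
  have hs : 0 ≤ √2 := Real.sqrt_nonneg 2
  set p : ℝ := (3 + 2 * √2) / (7 + 2 * √2) with hp
  have hp0 : 0 < p := by rw [hp]; positivity
  have hp1 : p < 1 := by rw [hp, div_lt_one (by positivity)]; linarith
  have hv1 : ∀ i, ContDiff ℝ ∞ (v i) := fun i => (hv i).1
  have hv2 : ∀ i, HasCompactSupport (v i) := fun i => (hv i).2.1
  obtain ⟨a, t, s, h1, h2, h3, h4, h5, h6⟩ := exists_balanced hv1 hv2 hp0 hp1 hneg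
  have hu : Adm (uc v a) := uc_adm hv1 hv2 a
  have key := gen_core hu.pos hu.neg.pos (fun z => le_max_right _ _) (fun z => le_max_right _ _)
    (fun z => by
      rcases le_total (uc v a z) 0 with h | h
      · left
        exact max_eq_right h
      · right
        exact max_eq_right (by linarith)) hΛ hp h1 h2 h3 h4 h5 h6 pi_j01_pos
  refine key.trans (mul_le_mul_of_nonneg_left (two_signs hfin hu ?_) hΛ.le)
  intro z hz
  by_contra hzΩ
  apply hz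
  unfold uc
  refine Finset.sum_eq_zero fun i _ => ?_
  rw [show v i z = 0 from ?_, mul_zero]
  by_contra h0
  exact hzΩ ((hv i).2.2 (subset_tsupport _ h0))

/-- a basis of a space of test functions -/
theorem exists_basis {Ω : Set ℂ} {n : ℕ} (hn : 0 < n) {Λ : ℝ} (V : Submodule ℝ (ℂ → ℝ))
    (hV : Module.finrank ℝ V = n) (hVt : ∀ u ∈ V, IsTest Ω u)
    (hneg : ∀ u ∈ V, u ≠ 0 → q Λ u < 0) :
    0 < Λ ∧ ∃ v : Fin n → ℂ → ℝ, (∀ i, IsTest Ω (v i)) ∧ (∀ a, uc v a ∈ V) ∧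
      (∀ a : Fin n → ℝ, a ≠ 0 → uc v a ≠ 0) ∧ ∀ a : Fin n → ℝ, a ≠ 0 → q Λ (uc v a) < 0 := by
  have hfd : Module.Finite ℝ V := Module.finite_of_finrank_pos (by rw [hV]; exact hn)
  let b := Module.finBasisOfFinrankEq ℝ V hV
  have e : ∀ a : Fin n → ℝ, uc (fun i => (b i : ℂ → ℝ)) a = ((∑ i, a i • b i : V) : ℂ → ℝ) := by
    intro a
    ext z
    simp [uc, Finset.sum_apply]
  have hne : ∀ a : Fin n → ℝ, a ≠ 0 → uc (fun i => (b i : ℂ → ℝ)) a ≠ 0 := by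
    intro a ha h0
    rw [e] at h0
    have h1 : (∑ i, a i • b i : V) = 0 := Subtype.ext h0
    apply ha
    funext i
    exact Fintype.linearIndependent_iff.1 b.linearIndependent a h1 i
  have hmem : ∀ a, uc (fun i => (b i : ℂ → ℝ)) a ∈ V := by
    intro a
    rw [e]
    exact Submodule.coe_mem _
  refine ⟨?_, fun i => (b i : ℂ → ℝ), fun i => hVt _ (Submodule.coe_mem _), hmem, hne,
    fun a ha => hneg _ (hmem a) (hne a ha)⟩
  have h1 : (Function.update (0 : Fin n → ℝ) ⟨0, hn⟩ 1) ≠ 0 := by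
    intro h
    have := congrFun h ⟨0, hn⟩
    simp at this
  have h2 := hneg _ (hmem _) (hne _ h1)
  have h3 := sq_pos_of_q h2
  have h4 : 0 ≤ ∫ z, ‖fderiv ℝ (uc (fun i => (b i : ℂ → ℝ))
      (Function.update (0 : Fin n → ℝ) ⟨0, hn⟩ 1)) z‖ ^ 2 :=
    integral_nonneg (fun z => by positivity)
  unfold q at h2
  by_contra hΛ
  rw [not_lt] at hΛ
  nlinarith

/-- THE BOUND FOR ALL OPEN SETS -/
theorem eig_all {Ω : Set ℂ} (hΩo : IsOpen Ω) (hne : Ω.Nonempty) (hfin : volume Ω ≠ ⊤) :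
    (7 + 2 * √2) / 4 * (Real.pi * j01 ^ 2) ≤ dirEig 4 Ω * volume.real Ω := by
  have hpos : 0 < volume.real Ω := by
    unfold Measure.real
    exact ENNReal.toReal_pos (hΩo.measure_pos volume hne).ne' hfin
  rw [← div_le_iff₀ hpos]
  unfold dirEig
  apply le_csInf (exists_space 4 hΩo hne)
  rintro Λ ⟨V, hV, hVt, hq⟩
  rw [div_le_iff₀ hpos]
  by_contra hcon
  rw [not_le] at hcon
  obtain ⟨Λ', h1, h2⟩ : ∃ Λ', Λ < Λ' ∧
      Λ' * volume.real Ω < (7 + 2 * √2) / 4 * (Real.pi * j01 ^ 2) := by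
    obtain ⟨Λ', h1, h2⟩ := exists_between ((lt_div_iff₀ hpos).2 hcon)
    exact ⟨Λ', h1, by rw [lt_div_iff₀ hpos] at h2; linarith⟩
  obtain ⟨hΛ, v, v1, v2, v3, v4⟩ := exists_basis (Λ := Λ') (by norm_num : 0 < 4) V hV hVt (by
    intro u hu hne'
    have h3 := hq u hu
    have h4 := integral_sq_pos (hVt u hu) hne'
    unfold q
    nlinarith)
  exact absurd (gen_space hfin hΛ v1 v4) (not_le.2 h2)

end DK4
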