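import Pool.Agent.Lib.DK4.Gen
import Pool.Agent.Lib.DK4.Ax
import Pool.Agent.Lib.DK4.Ax2
import Pool.Agent.Lib.DK4.BU2E
import Pool.Agent.Lib.DK4.BU2T
import Pool.Agent.Lib.DK4.ContE
import Pool.Agent.Lib.DK4.Final

/-!
Module DK4.Gen1 (helper65): sets with one axis of symmetry, centrally symmetric sets.
-/

open MeasureTheory Set Metric Filter Topology
open scoped ContDiff NNReal

namespace DK4

/-! ### one axis -/

theorem den_set {f : ℂ → ℝ} (hf : Adm f) (Λ : ℝ) (D : Set ℂ) :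
    ∫ z in D, den Λ f z = (∫ z in D, ‖fderiv ℝ f z‖ ^ 2) - Λ * ∫ z in D, f z ^ 2 := by
  unfold den
  rw [integral_sub hf.integrable_en.integrableOn (hf.integrable_sq.integrableOn.const_mul Λ),
    integral_const_mul]

theorem q_foldh {f : ℂ → ℝ} (hf : Adm f) (Λ : ℝ) {t σ : ℝ} (hσ : σ = 1 ∨ σ = -1) :
    q Λ (foldh t σ f) = 2 * ∫ z in Hf t σ, den Λ f z := by
  unfold q
  rw [foldh_en hf hσ, foldh_sq hf hσ, den_set hf]
  ring

theorem q_foldq {f : ℂ → ℝ} (hf : Adm f) (Λ : ℝ) {t s σ τ : ℝ} (hσ : σ = 1 ∨ σ = -1)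
    (hτ : τ = 1 ∨ τ = -1) :
    q Λ (foldq t s σ τ f) = 4 * ∫ z in Qd t s σ τ, den Λ f z := by
  unfold q
  rw [foldq_en hf hσ hτ, foldq_sq hf hσ hτ, den_set hf]
  ring

/-- two centrally symmetric functions with disjoint supports: total `3 L` -/
theorem pair_three {f g : ℂ → ℝ} (hf : Adm f) (hg : Adm g) (f0 : ∀ z, 0 ≤ f z)
    (g0 : ∀ z, 0 ≤ g z) (hfs : ∀ z, f (-z) = f z) (hgs : ∀ z, g (-z) = g z)
    (hdis : ∀ z, f z = 0 ∨ g z = 0) {Λ : ℝ} (hqf : q Λ f < 0) (hqg : q Λ g < 0) :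
    3 * (Real.pi * j01 ^ 2) ≤
      Λ * (volume.real {z | 0 < f z} + volume.real {z | 0 < g z}) := by
  have h1 := FK4.fk hf f0 hqf
  have h2 := FK4.fk hg g0 hqg
  have hL := pi_j01_pos
  rcases pair_lemma hf hg f0 g0 hfs hgs hdis hqf hqg with h | h | h | h <;> nlinarith

theorem vol_split_h {f : ℂ → ℝ} (hf : Adm f) (t : ℝ) :
    volume.real {z | 0 < f z} = volume.real (Hf t (-1) ∩ {z | 0 < f z}) +
      volume.real (Hf t 1 ∩ {z | 0 < f z}) := by
  rw [← ind_all hf, split_h (ind_int hf) t, ind_set hf, ind_set hf]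

theorem axis_core {f g : ℂ → ℝ} (hf : Adm f) (hg : Adm g) (f0 : ∀ z, 0 ≤ f z)
    (g0 : ∀ z, 0 ≤ g z) (hdis : ∀ z, f z = 0 ∨ g z = 0)
    (hfc : ∀ z, f ((starRingEnd ℂ) z) = f z) (hgc : ∀ z, g ((starRingEnd ℂ) z) = g z)
    {Λ t : ℝ} (f1 : ∫ z in Hf t (-1), den Λ f z < 0) (f2 : ∫ z in Hf t 1, den Λ f z < 0)
    (g1 : ∫ z in Hf t (-1), den Λ g z < 0) (g2 : ∫ z in Hf t 1, den Λ g z < 0) :
    3 * (Real.pi * j01 ^ 2) ≤
      Λ * (volume.real {z | 0 < f z} + volume.real {z | 0 < g z}) := by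
  have even : ∀ (u : ℂ → ℝ), (∀ z, u ((starRingEnd ℂ) z) = u z) → ∀ σ z,
      foldh t σ u (-z) = foldh t σ u z := by
    intro u hu σ z
    unfold foldh
    rw [← hu]
    congr 1
    apply Complex.ext
    · simp
    · simp
  have piece : ∀ σ : ℝ, (σ = 1 ∨ σ = -1) → ∫ z in Hf t σ, den Λ f z < 0 →
      ∫ z in Hf t σ, den Λ g z < 0 →
      3 * (Real.pi * j01 ^ 2) ≤ Λ * (2 * volume.real (Hf t σ ∩ {z | 0 < f z}) +
        2 * volume.real (Hf t σ ∩ {z | 0 < g z})) := by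
    intro σ hσ hf1 hg1
    have h := pair_three (foldh_adm hf hσ (t := t)) (foldh_adm hg hσ (t := t)) (fun z => f0 _)
      (fun z => g0 _) (even f hfc σ) (even g hgc σ) (fun z => hdis _) (Λ := Λ)
      (by rw [q_foldh hf Λ hσ]; linarith) (by rw [q_foldh hg Λ hσ]; linarith)
    rwa [foldh_vol hf f0 hσ, foldh_vol hg g0 hσ] at h
  have h1 := piece (-1) (Or.inr rfl) f1 g1
  have h2 := piece 1 (Or.inl rfl) f2 g2
  rw [vol_split_h hf t, vol_split_h hg t]
  linarith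

/-- a disc outside of which everything vanishes -/
theorem exists_R {n : ℕ} {v : Fin n → ℂ → ℝ} (hvc : ∀ i, HasCompactSupport (v i)) :
    ∃ R : ℝ, 0 < R ∧ ∀ z : ℂ, R < ‖z‖ → ∀ i, v i z = 0 := by
  have h : ∀ i, ∃ r : ℝ, ∀ z : ℂ, r < ‖z‖ → v i z = 0 := by
    intro i
    obtain ⟨r, hr⟩ := (hvc i).isCompact.isBounded.subset_closedBall (0 : ℂ)
    refine ⟨r, fun z hz => image_eq_zero_of_notMem_tsupport fun hz' => ?_⟩
    have h2 := hr hz'
    rw [mem_closedBall_zero_iff] at h2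
    linarith
  choose r hr using h
  refine ⟨∑ i, |r i| + 1, by positivity, fun z hz i => hr i z ?_⟩
  have h1 : r i ≤ ∑ i, |r i| := (le_abs_self _).trans
    (Finset.single_le_sum (f := fun i => |r i|) (fun j _ => abs_nonneg _) (Finset.mem_univ i))
  linarith

theorem den_zero_out {u : ℂ → ℝ} {R : ℝ} (h : ∀ z : ℂ, R < ‖z‖ → u z = 0) (Λ : ℝ) {z : ℂ}
    (hz : R < ‖z‖) : den Λ u z = 0 := by
  have ho : IsOpen {z : ℂ | R < ‖z‖} := isOpen_lt continuous_const continuous_norm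
  have h1 : u =ᶠ[𝓝 z] fun _ => 0 := by
    filter_upwards [ho.mem_nhds hz] with w hw
    exact h w hw
  have h2 : fderiv ℝ u z = 0 := by
    rw [h1.fderiv_eq]
    simp
  unfold den
  rw [h2, h z hz]
  simp

theorem exists_bal1 {v : Fin 3 → ℂ → ℝ} (hv : ∀ i, ContDiff ℝ ∞ (v i))
    (hvc : ∀ i, HasCompactSupport (v i)) {Λ : ℝ}
    (hneg : ∀ a : Fin 3 → ℝ, a ≠ 0 → q Λ (uc v a) < 0) :
    ∃ a : Fin 3 → ℝ, ∃ t : ℝ,
      ∫ z in Hf t (-1), den Λ (fun z => max (uc v a z) 0) z < 0 ∧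
      ∫ z in Hf t 1, den Λ (fun z => max (uc v a z) 0) z < 0 ∧
      ∫ z in Hf t (-1), den Λ (fun z => max (-uc v a z) 0) z < 0 ∧
      ∫ z in Hf t 1, den Λ (fun z => max (-uc v a z) 0) z < 0 := by
  obtain ⟨R, hR, hRz⟩ := exists_R hvc
  have hu0 : ∀ (a : Fin 3 → ℝ) (z : ℂ), R < ‖z‖ → max (uc v a z) 0 = 0 := by
    intro a z hz
    have h : uc v a z = 0 := by
      unfold uc
      exact Finset.sum_eq_zero fun i _ => by rw [hRz z hz i, mul_zero]
    rw [h, max_self]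
  have hadm : ∀ a : Fin 3 → ℝ, Adm fun z => max (uc v a z) 0 := fun a => (uc_adm hv hvc a).pos
  set F : (Fin 3 → ℝ) → ℝ → ℝ := fun a t =>
    (∫ z in Hf t (-1), den Λ (fun z => max (uc v a z) 0) z) -
      ∫ z in Hf t 1, den Λ (fun z => max (uc v a z) 0) z with hF
  set Q : (Fin 3 → ℝ) → ℝ := fun a => q Λ (fun z => max (uc v a z) 0) with hQ
  have hsplit : ∀ a t, Q a = (∫ z in Hf t (-1), den Λ (fun z => max (uc v a z) 0) z) +
      ∫ z in Hf t 1, den Λ (fun z => max (uc v a z) 0) z := by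
    intro a t
    rw [hQ]
    simp only
    rw [q_eq_den (hadm a), split_h (den_int (hadm a)) t]
  have hzero : ∀ (a : Fin 3 → ℝ) {A : Set ℂ}, (∀ z ∈ A, R < ‖z‖) →
      ∫ z in A, den Λ (fun z => max (uc v a z) 0) z = 0 := by
    intro a A h
    exact setIntegral_eq_zero_of_forall_eq_zero fun z hz =>
      den_zero_out (hu0 a) Λ (h z hz)
  have hleft : ∀ a, F a (-(R + 1)) = -Q a := by
    intro a
    have h1 : ∫ z in Hf (-(R + 1)) (-1), den Λ (fun z => max (uc v a z) 0) z = 0 := by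
      apply hzero
      intro z hz
      have h2 : 0 < -1 * (z.re - -(R + 1)) := hz
      have h3 := Complex.abs_re_le_norm z
      have h4 := neg_abs_le z.re
      linarith
    rw [hsplit a (-(R + 1)), hF]
    simp only
    rw [h1]
    ring
  have hright : ∀ a, F a (R + 1) = Q a := by
    intro a
    have h1 : ∫ z in Hf (R + 1) 1, den Λ (fun z => max (uc v a z) 0) z = 0 := by
      apply hzero
      intro z hz
      have h2 : 0 < 1 * (z.re - (R + 1)) := hz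
      have h3 := Complex.abs_re_le_norm z
      have h4 := le_abs_self z.re
      linarith
    rw [hsplit a (R + 1), hF]
    simp only
    rw [h1]
    ring
  have hQsum : ∀ a : Fin 3 → ℝ, a ≠ 0 → Q a + Q (-a) < 0 := by
    intro a ha
    have h6 := hneg a ha
    rw [q_split (uc_adm hv hvc a)] at h6
    have e : Q (-a) = q Λ (fun z => max (-uc v a z) 0) := by
      rw [hQ]
      simp only [BalanceAux.uc_neg]
    rw [e]
    exact h6
  have hne : ∀ a : Fin 3 → ℝ, ∑ i, a i ^ 2 = 1 → a ≠ 0 := by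
    rintro a ha rfl
    simp at ha
  have hFc : Continuous fun x : (Fin 3 → ℝ) × ℝ => F x.1 x.2 :=
    (cont_denh hv hvc Λ (Or.inr rfl)).sub (cont_denh hv hvc Λ (Or.inl rfl))
  have hFn : Continuous fun x : (Fin 3 → ℝ) × ℝ => F x.1 ((R + 1) * (2 * x.2 - 1)) :=
    hFc.comp (continuous_fst.prodMk (by fun_prop))
  have hFm : Continuous fun x : (Fin 3 → ℝ) × ℝ => F (-x.1) ((R + 1) * (2 * x.2 - 1)) :=
    hFc.comp ((continuous_neg.comp continuous_fst).prodMk (by fun_prop))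
  have hQc : Continuous Q := cont_qpos hv hvc Λ
  obtain ⟨a, τ, ha, hτ, hc0, hg0⟩ := bu2e
    (c := fun a τ => ⟨Q a - Q (-a), F a ((R + 1) * (2 * τ - 1)) -
      F (-a) ((R + 1) * (2 * τ - 1))⟩)
    (g := fun a τ => F a ((R + 1) * (2 * τ - 1)) + F (-a) ((R + 1) * (2 * τ - 1)))
    (by
      have h1 : Continuous fun x : (Fin 3 → ℝ) × ℝ => Q x.1 - Q (-x.1) :=
        (hQc.comp continuous_fst).sub (hQc.comp (continuous_neg.comp continuous_fst))
      exact Complex.equivRealProdCLM.symm.continuous.comp (h1.prodMk (hFn.sub hFm)))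
    (hFn.add hFm)
    (by
      intro x t
      apply Complex.ext
      · simp
      · simp)
    (by
      intro x t
      simp only [neg_neg]
      ring)
    (by
      intro x hx
      have h1 := hQsum x (hne x hx)
      have e : (R + 1) * (2 * 0 - 1) = -(R + 1) := by ring
      simp only [e, hleft]
      linarith)
    (by
      intro x hx
      have h1 := hQsum x (hne x hx)
      have e : (R + 1) * (2 * 1 - 1) = R + 1 := by ring
      simp only [e, hright]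
      exact h1)
  set t : ℝ := (R + 1) * (2 * τ - 1) with ht
  have c1 : Q a - Q (-a) = 0 := congrArg Complex.re hc0
  have c2 : F a t - F (-a) t = 0 := congrArg Complex.im hc0
  have c3 : F a t + F (-a) t = 0 := hg0
  have c4 := hQsum a (hne a ha)
  have c5 := hsplit a t
  have c6 := hsplit (-a) t
  have c7 : F a t = 0 := by linarith
  have c8 : F (-a) t = 0 := by linarith
  rw [hF] at c7 c8
  simp only at c7 c8
  have e : (fun z => max (-uc v a z) 0) = fun z => max (uc v (-a) z) 0 := by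
    funext z
    rw [BalanceAux.uc_neg]
  refine ⟨a, t, by linarith, by linarith, ?_, ?_⟩
  · rw [e]
    linarith
  · rw [e]
    linarith

/-- linearly independent test functions in a space of large dimension -/
theorem exists_basis_le {Ω : Set ℂ} {n : ℕ} (hn : 0 < n) {Λ : ℝ} (V : Submodule ℝ (ℂ → ℝ))
    (hV : n ≤ Module.finrank ℝ V) (hVt : ∀ u ∈ V, IsTest Ω u)
    (hneg : ∀ u ∈ V, u ≠ 0 → q Λ u < 0) :
    0 < Λ ∧ ∃ v : Fin n → ℂ → ℝ, (∀ i, IsTest Ω (v i)) ∧ (∀ a, uc v a ∈ V) ∧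
      ∀ a : Fin n → ℝ, a ≠ 0 → q Λ (uc v a) < 0 := by
  obtain ⟨b, hb⟩ := exists_linearIndependent_of_le_finrank hV
  have e : ∀ a : Fin n → ℝ, uc (fun i => (b i : ℂ → ℝ)) a = ((∑ i, a i • b i : V) : ℂ → ℝ) := by
    intro a
    ext z
    simp [uc, Finset.sum_apply]
  have hne : ∀ a : Fin n → ℝ, a ≠ 0 → uc (fun i => (b i : ℂ → ℝ)) a ≠ 0 := by
    intro a ha h0
    rw [e] at h0
    have h1 : (∑ i, a i • b i : V) = 0 := Subtype.ext h0
    apply ha
    funext i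
    exact Fintype.linearIndependent_iff.1 hb a h1 i
  have hmem : ∀ a, uc (fun i => (b i : ℂ → ℝ)) a ∈ V := by
    intro a
    rw [e]
    exact Submodule.coe_mem _
  refine ⟨?_, fun i => (b i : ℂ → ℝ), fun i => hVt _ (Submodule.coe_mem _), hmem,
    fun a ha => hneg _ (hmem a) (hne a ha)⟩
  have h1 : (Function.update (0 : Fin n → ℝ) ⟨0, hn⟩ 1) ≠ 0 := by
    intro h
    have := congrFun h ⟨0, hn⟩
    simp at this
  have h2 := hneg _ (hmem _) (hne _ h1)
  have h3 := sq_pos_of_q h2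
  have h4 : 0 ≤ ∫ z, ‖fderiv ℝ (uc (fun i => (b i : ℂ → ℝ))
      (Function.update (0 : Fin n → ℝ) ⟨0, hn⟩ 1)) z‖ ^ 2 :=
    integral_nonneg (fun z => by positivity)
  unfold q at h2
  by_contra hΛ
  rw [not_lt] at hΛ
  nlinarith

theorem even_three {Ω : Set ℂ} (hfin : volume Ω ≠ ⊤) {Λ : ℝ} (P : Submodule ℝ (ℂ → ℝ))
    (h3 : 3 ≤ Module.finrank ℝ P) (hPt : ∀ u ∈ P, IsTest Ω u)
    (hPc : ∀ u ∈ P, ∀ z, u ((starRingEnd ℂ) z) = u z) (hneg : ∀ u ∈ P, u ≠ 0 → q Λ u < 0) :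
    3 * (Real.pi * j01 ^ 2) ≤ Λ * volume.real Ω := by
  obtain ⟨hΛ, v, hv, hmem, hn⟩ := exists_basis_le (by norm_num) P h3 hPt hneg
  obtain ⟨a, t, h1, h2, h3, h4⟩ := exists_bal1 (fun i => (hv i).1) (fun i => (hv i).2.1) hn
  have hu : Adm (uc v a) := (hPt _ (hmem a)).adm
  have hc := hPc _ (hmem a)
  have key := axis_core hu.pos hu.neg.pos (fun z => le_max_right _ _) (fun z => le_max_right _ _)
    (fun z => by
      rcases le_total (uc v a z) 0 with h | h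
      · left
        exact max_eq_right h
      · right
        exact max_eq_right (by linarith))
    (fun z => by simp only [hc]) (fun z => by simp only [hc]) h1 h2 h3 h4
  refine key.trans (mul_le_mul_of_nonneg_left (two_signs hfin hu ?_) hΛ.le)
  intro z hz
  exact (hPt _ (hmem a)).2.2 (subset_tsupport _ hz)

/-- from a bound for negative spaces to a bound for the fourth eigenvalue -/
theorem eig_of_space {Ω : Set ℂ} (hΩo : IsOpen Ω) (hne : Ω.Nonempty) (hfin : volume Ω ≠ ⊤)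
    {C : ℝ} (h : ∀ (Λ : ℝ) (V : Submodule ℝ (ℂ → ℝ)), Λ * volume.real Ω < C →
      Module.finrank ℝ V = 4 → (∀ u ∈ V, IsTest Ω u) → (∀ u ∈ V, u ≠ 0 → q Λ u < 0) → False) :
    C ≤ dirEig 4 Ω * volume.real Ω := by
  have hpos : 0 < volume.real Ω := by
    unfold Measure.real
    exact ENNReal.toReal_pos (hΩo.measure_pos volume hne).ne' hfin
  rw [← div_le_iff₀ hpos]
  unfold dirEig
  apply le_csInf (exists_space 4 hΩo hne)
  rintro Λ ⟨V, hV, hVt, hq⟩
  rw [div_le_iff₀ hpos]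
  by_contra hcon
  rw [not_le] at hcon
  obtain ⟨Λ', h1, h2⟩ : ∃ Λ', Λ < Λ' ∧ Λ' * volume.real Ω < C := by
    obtain ⟨Λ', h1, h2⟩ := exists_between ((lt_div_iff₀ hpos).2 hcon)
    exact ⟨Λ', h1, by rw [lt_div_iff₀ hpos] at h2; linarith⟩
  refine h Λ' V h2 hV hVt ?_
  intro u hu hne'
  have h3 := hq u hu
  have h4 := integral_sq_pos (hVt u hu) hne'
  unfold q
  nlinarith

theorem eig_conj {Ω : Set ℂ} (hΩo : IsOpen Ω) (hne : Ω.Nonempty) (hfin : volume Ω ≠ ⊤)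
    (hΩ : ∀ z ∈ Ω, (starRingEnd ℂ) z ∈ Ω) :
    3 * (Real.pi * j01 ^ 2) ≤ dirEig 4 Ω * volume.real Ω := by
  apply eig_of_space hΩo hne hfin
  intro Λ V hΛ hV hVt hneg
  have hL := pi_j01_pos
  obtain ⟨P, hP3, hPt, hPc, hPn⟩ := even_space1 hΩo hΩ hfin (by linarith) V hV hVt hneg
  exact absurd (even_three hfin P hP3 hPt hPc hPn) (not_le.2 hΛ)

/-- ONE AXIS: the line through `p` with direction `a` -/
theorem eig_axis {p a : ℂ} (ha : ‖a‖ = 1) {Ω : Set ℂ} (hΩo : IsOpen Ω) (hne : Ω.Nonempty)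
    (hfin : volume Ω ≠ ⊤) (hS : ∀ z ∈ Ω, p + a ^ 2 * (starRingEnd ℂ) (z - p) ∈ Ω) :
    3 * (Real.pi * j01 ^ 2) ≤ dirEig 4 Ω * volume.real Ω := by
  have haa : a * (starRingEnd ℂ) a = 1 := by
    rw [Complex.mul_conj, Complex.normSq_eq_norm_sq, ha]; simp
  have ha0 : a ≠ 0 := by
    intro h; rw [h] at ha; simp at ha
  set Ω' : Set ℂ := (fun w => p + a * w) ⁻¹' Ω with hΩ'
  have h1 : ∀ w ∈ Ω', (starRingEnd ℂ) w ∈ Ω' := by
    intro w hw
    have := hS _ hw
    show p + a * (starRingEnd ℂ) w ∈ Ω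
    convert this using 1
    rw [add_sub_cancel_left, map_mul]
    calc p + a * (starRingEnd ℂ) w = p + a * (a * (starRingEnd ℂ) a) * (starRingEnd ℂ) w := by
          rw [haa, mul_one]
      _ = _ := by ring
  have hne' : Ω'.Nonempty := by
    obtain ⟨z, hz⟩ := hne
    refine ⟨(z - p) / a, ?_⟩
    show p + a * ((z - p) / a) ∈ Ω
    rw [mul_div_cancel₀ _ ha0, add_sub_cancel]
    exact hz
  have hfin' : volume Ω' ≠ ⊤ := by rw [hΩ', vol_iso ha]; exact hfin
  have := eig_conj (hΩo.preimage (by fun_prop)) hne' hfin' h1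
  rwa [dirEig_iso 4 ha, vol_iso_real ha] at this

end DK4
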