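import Pool.Agent.Lib.DK4.Gen1

/-!
Module DK4.Gen2 (helper65): centrally symmetric sets.
-/

open MeasureTheory Set Metric Filter Topology
open scoped ContDiff NNReal

namespace DK4

/-- the quadrant of sign `(σ, τ)` rotated by the angle `φ` -/
def RQ (φ σ τ : ℝ) : Set ℂ := {z | Complex.exp (-(φ : ℂ) * Complex.I) * z ∈ Qd 0 0 σ τ}

theorem norm_e (φ : ℝ) : ‖Complex.exp ((φ : ℂ) * Complex.I)‖ = 1 :=
  Complex.norm_exp_ofReal_mul_I φ

theorem e_mul (φ : ℝ) (z : ℂ) :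
    Complex.exp (-(φ : ℂ) * Complex.I) * (Complex.exp ((φ : ℂ) * Complex.I) * z) = z := by
  rw [← mul_assoc, ← Complex.exp_add]
  have : -(φ : ℂ) * Complex.I + (φ : ℂ) * Complex.I = 0 := by ring
  rw [this, Complex.exp_zero, one_mul]

theorem RQ_meas (φ σ τ : ℝ) : MeasurableSet (RQ φ σ τ) :=
  (Qd_meas 0 0 σ τ).preimage (by fun_prop : Measurable fun z : ℂ =>
    Complex.exp (-(φ : ℂ) * Complex.I) * z)

theorem den_RQ (Λ φ σ τ : ℝ) (f : ℂ → ℝ) :
    ∫ z in RQ φ σ τ, den Λ f z =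
      ∫ z in Qd 0 0 σ τ, den Λ (fun z => f (Complex.exp ((φ : ℂ) * Complex.I) * z)) z := by
  rw [← integral_indicator (RQ_meas φ σ τ), ← integral_indicator (Qd_meas 0 0 σ τ)]
  obtain ⟨L, hL⟩ := InvAux.exists_rot (norm_e φ)
  rw [← InvAux.integ L]
  congr 1
  funext z
  rw [hL]
  have hm : Complex.exp ((φ : ℂ) * Complex.I) * z ∈ RQ φ σ τ ↔ z ∈ Qd 0 0 σ τ := by
    show Complex.exp (-(φ : ℂ) * Complex.I) * (Complex.exp ((φ : ℂ) * Complex.I) * z) ∈
      Qd 0 0 σ τ ↔ _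
    rw [e_mul]
  by_cases h : z ∈ Qd 0 0 σ τ
  · rw [indicator_of_mem h, indicator_of_mem (hm.2 h)]
    unfold den
    rw [fderiv_rot (norm_e φ)]
  · rw [indicator_of_notMem h, indicator_of_notMem (fun h' => h (hm.1 h'))]

theorem RQ_next (φ σ τ : ℝ) : RQ (φ + Real.pi / 2) σ τ = RQ φ (-τ) σ := by
  ext z
  have e : Complex.exp (-((φ + Real.pi / 2 : ℝ) : ℂ) * Complex.I) =
      -Complex.I * Complex.exp (-(φ : ℂ) * Complex.I) := by
    have : -((φ + Real.pi / 2 : ℝ) : ℂ) * Complex.I =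
        -(Real.pi / 2 * Complex.I) + -(φ : ℂ) * Complex.I := by
      push_cast
      ring
    rw [this, Complex.exp_add, Complex.exp_neg, Complex.exp_pi_div_two_mul_I, Complex.inv_I]
  show Complex.exp (-((φ + Real.pi / 2 : ℝ) : ℂ) * Complex.I) * z ∈ Qd 0 0 σ τ ↔
    Complex.exp (-(φ : ℂ) * Complex.I) * z ∈ Qd 0 0 (-τ) σ
  rw [e, mul_assoc]
  set w := Complex.exp (-(φ : ℂ) * Complex.I) * z
  have h1 : (-Complex.I * w).re = w.im := by simp
  have h2 : (-Complex.I * w).im = -w.re := by simp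
  show (0 < σ * ((-Complex.I * w).re - 0) ∧ 0 < τ * ((-Complex.I * w).im - 0)) ↔
    (0 < -τ * (w.re - 0) ∧ 0 < σ * (w.im - 0))
  rw [h1, h2]
  constructor
  · rintro ⟨a, b⟩
    exact ⟨by linarith, a⟩
  · rintro ⟨a, b⟩
    exact ⟨b, by linarith⟩

theorem den_neg_fun (Λ φ σ τ : ℝ) (f : ℂ → ℝ) :
    ∫ z in RQ φ σ τ, den Λ (fun z => f (-z)) z = ∫ z in RQ φ (-σ) (-τ), den Λ f z := by
  rw [← integral_indicator (RQ_meas φ σ τ), ← integral_indicator (RQ_meas φ (-σ) (-τ))]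
  obtain ⟨L, hL⟩ := InvAux.exists_rot (ζ := -1) (by simp)
  rw [← InvAux.integ L ((RQ φ (-σ) (-τ)).indicator (den Λ f))]
  congr 1
  funext z
  rw [hL]
  have hm : (-1 : ℂ) * z ∈ RQ φ (-σ) (-τ) ↔ z ∈ RQ φ σ τ := by
    show Complex.exp (-(φ : ℂ) * Complex.I) * (-1 * z) ∈ Qd 0 0 (-σ) (-τ) ↔
      Complex.exp (-(φ : ℂ) * Complex.I) * z ∈ Qd 0 0 σ τ
    have : Complex.exp (-(φ : ℂ) * Complex.I) * (-1 * z) =
      -(Complex.exp (-(φ : ℂ) * Complex.I) * z) := by ring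
    rw [this]
    set w := Complex.exp (-(φ : ℂ) * Complex.I) * z
    show (0 < -σ * ((-w).re - 0) ∧ 0 < -τ * ((-w).im - 0)) ↔
      (0 < σ * (w.re - 0) ∧ 0 < τ * (w.im - 0))
    rw [Complex.neg_re, Complex.neg_im]
    constructor
    · rintro ⟨a, b⟩
      exact ⟨by linarith, by linarith⟩
    · rintro ⟨a, b⟩
      exact ⟨by linarith, by linarith⟩
  have hd : den Λ (fun z => f (-z)) z = den Λ f (-1 * z) := by
    have e : (fun z => f (-z)) = fun z => f (-1 * z) := by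
      funext w
      rw [neg_one_mul]
    unfold den
    rw [e, fderiv_rot (by simp)]
  by_cases h : z ∈ RQ φ σ τ
  · rw [indicator_of_mem h, indicator_of_mem (hm.2 h), hd]
  · rw [indicator_of_notMem h, indicator_of_notMem (fun h' => h (hm.1 h'))]

theorem adm_rot {ζ : ℂ} (hζ : ‖ζ‖ = 1) {f : ℂ → ℝ} (hf : Adm f) : Adm fun z => f (ζ * z) := by
  obtain ⟨K, hK⟩ := hf.lip
  obtain ⟨L, hL⟩ := InvAux.exists_rot hζ
  have e : (fun z => f (ζ * z)) = f ∘ L := by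
    funext z
    rw [Function.comp_apply, hL]
  rw [e]
  refine ⟨⟨K * 1, hK.comp L.lipschitz⟩, ?_⟩
  exact hf.cpt.comp_homeomorph L.toHomeomorph

theorem four_quads {g : ℂ → ℝ} (hg : Integrable g) :
    ∫ z, g z = (∫ z in Qd 0 0 1 1, g z) + (∫ z in Qd 0 0 (-1) 1, g z) +
      (∫ z in Qd 0 0 (-1) (-1), g z) + ∫ z in Qd 0 0 1 (-1), g z := by
  rw [split_h hg 0, split_q hg 0 0 (-1), split_q hg 0 0 1]
  ring

theorem q_quads {f : ℂ → ℝ} (hf : Adm f) (Λ φ : ℝ) :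
    q Λ f = (∫ z in RQ φ 1 1, den Λ f z) + (∫ z in RQ φ (-1) 1, den Λ f z) +
      (∫ z in RQ φ (-1) (-1), den Λ f z) + ∫ z in RQ φ 1 (-1), den Λ f z := by
  rw [den_RQ, den_RQ, den_RQ, den_RQ, ← four_quads (den_int (adm_rot (norm_e φ) hf)),
    ← q_eq_den (adm_rot (norm_e φ) hf), q_rot (norm_e φ)]

theorem exists_balT {v : Fin 3 → ℂ → ℝ} (hv : ∀ i, ContDiff ℝ ∞ (v i))
    (hvc : ∀ i, HasCompactSupport (v i)) (hodd : ∀ i z, v i (-z) = -v i z) {Λ : ℝ}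
    (hneg : ∀ a : Fin 3 → ℝ, a ≠ 0 → q Λ (uc v a) < 0) :
    ∃ a : Fin 3 → ℝ, ∃ φ : ℝ, ∀ σ τ : ℝ, (σ = 1 ∨ σ = -1) → (τ = 1 ∨ τ = -1) →
      ∫ z in RQ φ σ τ, den Λ (fun z => max (uc v a z) 0) z < 0 ∧
      ∫ z in RQ φ σ τ, den Λ (fun z => max (-uc v a z) 0) z < 0 := by
  have hadm : ∀ a : Fin 3 → ℝ, Adm fun z => max (uc v a z) 0 := fun a => (uc_adm hv hvc a).pos
  have hneg' : ∀ (a : Fin 3 → ℝ) z, uc v (-a) z = uc v a (-z) := by
    intro a z
    rw [BalanceAux.uc_neg]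
    unfold uc
    rw [← Finset.sum_neg_distrib]
    exact Finset.sum_congr rfl fun i _ => by rw [hodd]; ring
  set E : ℝ → ℝ → (Fin 3 → ℝ) → ℝ → ℝ := fun σ τ a φ =>
    ∫ z in RQ φ σ τ, den Λ (fun z => max (uc v a z) 0) z with hE
  have hEc : ∀ σ τ : ℝ, (σ = 1 ∨ σ = -1) → (τ = 1 ∨ τ = -1) →
      Continuous fun x : (Fin 3 → ℝ) × ℝ => E σ τ x.1 x.2 := by
    intro σ τ hσ hτ
    exact cont_denr hv hvc Λ hσ hτ
  have hEneg : ∀ σ τ a φ, E σ τ (-a) φ = E (-σ) (-τ) a φ := by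
    intro σ τ a φ
    have e : (fun z => max (uc v (-a) z) 0) = fun z => (fun w => max (uc v a w) 0) (-z) := by
      funext z
      simp only [hneg' a z]
    rw [hE]
    simp only
    rw [e]
    exact den_neg_fun Λ φ σ τ (fun w => max (uc v a w) 0)
  have hEnext : ∀ σ τ a φ, E σ τ a (φ + Real.pi / 2) = E (-τ) σ a φ := by
    intro σ τ a φ
    rw [hE]
    simp only
    rw [RQ_next]
  have h1 : (1 : ℝ) = 1 ∨ (1 : ℝ) = -1 := Or.inl rfl
  have hm1 : (-1 : ℝ) = 1 ∨ (-1 : ℝ) = -1 := Or.inr rfl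
  have hcomp : ∀ σ τ : ℝ, (σ = 1 ∨ σ = -1) → (τ = 1 ∨ τ = -1) →
      Continuous fun x : (Fin 3 → ℝ) × ℝ => E σ τ x.1 (x.2 * (Real.pi / 2)) := by
    intro σ τ hσ hτ
    exact (hEc σ τ hσ hτ).comp (continuous_fst.prodMk (by fun_prop))
  obtain ⟨a, t, ha, -, hc0, hg0⟩ := bu2t
    (c := fun a t => ⟨E 1 1 a (t * (Real.pi / 2)) - E (-1) (-1) a (t * (Real.pi / 2)),
      E (-1) 1 a (t * (Real.pi / 2)) - E 1 (-1) a (t * (Real.pi / 2))⟩)
    (g := fun a t => E 1 1 a (t * (Real.pi / 2)) + E (-1) (-1) a (t * (Real.pi / 2)) -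
      (E (-1) 1 a (t * (Real.pi / 2)) + E 1 (-1) a (t * (Real.pi / 2))))
    (Complex.equivRealProdCLM.symm.continuous.comp
      (((hcomp 1 1 h1 h1).sub (hcomp (-1) (-1) hm1 hm1)).prodMk
        ((hcomp (-1) 1 hm1 h1).sub (hcomp 1 (-1) h1 hm1))))
    (((hcomp 1 1 h1 h1).add (hcomp (-1) (-1) hm1 hm1)).sub
        ((hcomp (-1) 1 hm1 h1).add (hcomp 1 (-1) h1 hm1)))
    (by
      intro x t
      apply Complex.ext
      · simp only [hEneg, neg_neg, Complex.neg_re]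
        ring
      · simp only [hEneg, neg_neg, Complex.neg_im]
        ring)
    (by
      intro x t
      simp only [hEneg, neg_neg]
      ring)
    (by
      intro x
      have e : (1 : ℝ) * (Real.pi / 2) = 0 * (Real.pi / 2) + Real.pi / 2 := by ring
      apply Complex.ext
      · simp only [e, hEnext, neg_neg]
        simp
      · simp only [e, hEnext, neg_neg]
        simp)
    (by
      intro x
      have e : (1 : ℝ) * (Real.pi / 2) = 0 * (Real.pi / 2) + Real.pi / 2 := by ring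
      simp only [e, hEnext, neg_neg]
      ring)
  set φ : ℝ := t * (Real.pi / 2)
  have c1 : E 1 1 a φ - E (-1) (-1) a φ = 0 := congrArg Complex.re hc0
  have c2 : E (-1) 1 a φ - E 1 (-1) a φ = 0 := congrArg Complex.im hc0
  have c3 : E 1 1 a φ + E (-1) (-1) a φ - (E (-1) 1 a φ + E 1 (-1) a φ) = 0 := hg0
  have ha0 : a ≠ 0 := by
    rintro rfl
    simp at ha
  have h6 := hneg a ha0
  rw [q_split (uc_adm hv hvc a)] at h6
  have e : (fun z => max (-uc v a z) 0) = fun z => max (uc v (-a) z) 0 := by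
    funext z
    rw [BalanceAux.uc_neg]
  rw [e] at h6
  have s1 : q Λ (fun z => max (uc v a z) 0) =
      E 1 1 a φ + E (-1) 1 a φ + E (-1) (-1) a φ + E 1 (-1) a φ := q_quads (hadm a) Λ φ
  have s2 : q Λ (fun z => max (uc v (-a) z) 0) =
      E 1 1 (-a) φ + E (-1) 1 (-a) φ + E (-1) (-1) (-a) φ + E 1 (-1) (-a) φ :=
    q_quads (hadm (-a)) Λ φ
  simp only [hEneg, neg_neg] at s2
  have n1 : E 1 1 a φ < 0 := by linarith
  have n2 : E (-1) 1 a φ < 0 := by linarith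
  have n3 : E (-1) (-1) a φ < 0 := by linarith
  have n4 : E 1 (-1) a φ < 0 := by linarith
  refine ⟨a, φ, ?_⟩
  intro σ τ hσ hτ
  rw [e]
  have g1 : E σ τ a φ < 0 := by
    rcases hσ with rfl | rfl <;> rcases hτ with rfl | rfl <;> assumption
  have g2 : E σ τ (-a) φ < 0 := by
    rw [hEneg]
    rcases hσ with rfl | rfl <;> rcases hτ with rfl | rfl <;>
      first | assumption | (simp only [neg_neg]; assumption)
  exact ⟨g1, g2⟩

theorem odd_three {Ω : Set ℂ} (hfin : volume Ω ≠ ⊤) {Λ : ℝ} (P : Submodule ℝ (ℂ → ℝ))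
    (h3 : 3 ≤ Module.finrank ℝ P) (hPt : ∀ u ∈ P, IsTest Ω u)
    (hPc : ∀ u ∈ P, ∀ z, u (-z) = -u z) (hneg : ∀ u ∈ P, u ≠ 0 → q Λ u < 0) :
    3 * (Real.pi * j01 ^ 2) ≤ Λ * volume.real Ω := by
  obtain ⟨hΛ, v, hv, hmem, hn⟩ := exists_basis_le (by norm_num) P h3 hPt hneg
  have hvodd : ∀ i z, v i (-z) = -v i z := by
    intro i z
    have h := hPc _ (hmem (Pi.single i 1)) z
    have e : ∀ z, uc v (Pi.single i 1) z = v i z := by
      intro z
      unfold uc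
      rw [Finset.sum_eq_single i]
      · simp
      · intro j _ hj
        rw [Pi.single_eq_of_ne hj, zero_mul]
      · intro h
        exact absurd (Finset.mem_univ i) h
    rwa [e, e] at h
  obtain ⟨a, φ, hE⟩ := exists_balT (fun i => (hv i).1) (fun i => (hv i).2.1) hvodd hn
  have hu : Adm (uc v a) := (hPt _ (hmem a)).adm
  set ζ : ℂ := Complex.exp ((φ : ℂ) * Complex.I) with hζ
  have hζ1 : ‖ζ‖ = 1 := norm_e φ
  have hF : Adm fun z => max (uc v a (ζ * z)) 0 := adm_rot hζ1 hu.pos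
  have hG : Adm fun z => max (-uc v a (ζ * z)) 0 := adm_rot hζ1 hu.neg.pos
  have piece : ∀ σ τ : ℝ, (σ = 1 ∨ σ = -1) → (τ = 1 ∨ τ = -1) →
      3 * (Real.pi * j01 ^ 2) ≤
        Λ * (4 * volume.real (Qd 0 0 σ τ ∩ {z | 0 < max (uc v a (ζ * z)) 0}) +
          4 * volume.real (Qd 0 0 σ τ ∩ {z | 0 < max (-uc v a (ζ * z)) 0})) := by
    intro σ τ hσ hτ
    obtain ⟨e1, e2⟩ := hE σ τ hσ hτ
    rw [den_RQ] at e1 e2
    have h := pair_three (foldq_adm hF hσ hτ (t := 0) (s := 0))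
      (foldq_adm hG hσ hτ (t := 0) (s := 0)) (foldq_nonneg (fun z => le_max_right _ _) 0 0 σ τ)
      (foldq_nonneg (fun z => le_max_right _ _) 0 0 σ τ) (foldq_even _ 0 0 σ τ)
      (foldq_even _ 0 0 σ τ)
      (fun z => by
        unfold foldq
        rcases le_total (uc v a (ζ * ⟨0 + σ * |z.re|, 0 + τ * |z.im|⟩)) 0 with h | h
        · left
          exact max_eq_right h
        · right
          exact max_eq_right (by linarith)) (Λ := Λ)
      (by rw [q_foldq hF Λ hσ hτ]; linarith) (by rw [q_foldq hG Λ hσ hτ]; linarith)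
    rwa [foldq_vol hF (fun z => le_max_right _ _) hσ hτ,
      foldq_vol hG (fun z => le_max_right _ _) hσ hτ] at h
  have vol4 : ∀ f : ℂ → ℝ, Adm f → volume.real {z | 0 < f z} =
      volume.real (Qd 0 0 1 1 ∩ {z | 0 < f z}) + volume.real (Qd 0 0 (-1) 1 ∩ {z | 0 < f z}) +
      volume.real (Qd 0 0 (-1) (-1) ∩ {z | 0 < f z}) +
      volume.real (Qd 0 0 1 (-1) ∩ {z | 0 < f z}) := by
    intro f hf
    rw [← ind_all hf, four_quads (ind_int hf), ind_set hf, ind_set hf, ind_set hf, ind_set hf]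
  have h1 : (1 : ℝ) = 1 ∨ (1 : ℝ) = -1 := Or.inl rfl
  have hm1 : (-1 : ℝ) = 1 ∨ (-1 : ℝ) = -1 := Or.inr rfl
  have p1 := piece 1 1 h1 h1
  have p2 := piece (-1) 1 hm1 h1
  have p3 := piece (-1) (-1) hm1 hm1
  have p4 := piece 1 (-1) h1 hm1
  have vF := vol4 _ hF
  have vG := vol4 _ hG
  have rF : volume.real {z | 0 < max (uc v a (ζ * z)) 0} =
      volume.real {z | 0 < max (uc v a z) 0} := by
    unfold Measure.real
    exact congrArg ENNReal.toReal (vol_rot hζ1 {z | 0 < max (uc v a z) 0})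
  have rG : volume.real {z | 0 < max (-uc v a (ζ * z)) 0} =
      volume.real {z | 0 < max (-uc v a z) 0} := by
    unfold Measure.real
    exact congrArg ENNReal.toReal (vol_rot hζ1 {z | 0 < max (-uc v a z) 0})
  have hsum := two_signs hfin hu (fun z hz => (hPt _ (hmem a)).2.2 (subset_tsupport _ hz))
  have h5 : 3 * (Real.pi * j01 ^ 2) ≤
      Λ * (volume.real {z | 0 < max (uc v a z) 0} + volume.real {z | 0 < max (-uc v a z) 0}) := by
    rw [← rF, ← rG, vF, vG]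
    linarith
  exact h5.trans (mul_le_mul_of_nonneg_left hsum hΛ.le)

theorem even_two {Ω : Set ℂ} (hfin : volume Ω ≠ ⊤) {Λ : ℝ} (P : Submodule ℝ (ℂ → ℝ))
    (h2 : 2 ≤ Module.finrank ℝ P) (hPt : ∀ u ∈ P, IsTest Ω u)
    (hPc : ∀ u ∈ P, ∀ z, u (-z) = u z) (hneg : ∀ u ∈ P, u ≠ 0 → q Λ u < 0) :
    3 * (Real.pi * j01 ^ 2) ≤ Λ * volume.real Ω := by
  obtain ⟨hΛ, v, hv, hmem, hn⟩ := exists_basis_le (by norm_num) P h2 hPt hneg
  have e : ∀ a b : ℝ, (fun z => a * v 0 z + b * v 1 z) = uc v ![a, b] := by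
    intro a b
    funext z
    simp [uc, Fin.sum_univ_two]
  have hne : ∀ a b : ℝ, ¬(a = 0 ∧ b = 0) → (![a, b] : Fin 2 → ℝ) ≠ 0 := by
    intro a b hab h
    apply hab
    constructor
    · simpa using congrFun h 0
    · simpa using congrFun h 1
  obtain ⟨a, b, hab, h3, h4⟩ := sign_trick (Λ := Λ) (S := univ) MeasurableSet.univ (hv 0).1
    (hv 0).2.1 (hv 1).1 (hv 1).2.1 (fun a b hab => by
      have h5 := hn _ (hne a b hab)
      rw [← e a b, q_eq_den (by rw [e]; exact (hPt _ (hmem _)).adm)] at h5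
      rw [setIntegral_univ]
      exact h5)
  set u : ℂ → ℝ := fun z => a * v 0 z + b * v 1 z with hu
  have hmu : u ∈ P := by
    rw [hu, e]
    exact hmem _
  have hadm : Adm u := (hPt _ hmu).adm
  have hc := hPc u hmu
  rw [univ_inter] at h3 h4
  have n1 : q Λ (fun z => max (u z) 0) < 0 := by
    rw [q_pos hadm]
    exact h3
  have n2 : q Λ (fun z => max (-u z) 0) < 0 := by
    rw [q_pos hadm.neg]
    have e1 : {z | 0 < -u z} = {z | u z < 0} := by ext z; simp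
    have e2 : (fun z => ‖fderiv ℝ (fun z => -u z) z‖ ^ 2 - Λ * (-u z) ^ 2) =
        fun z => ‖fderiv ℝ u z‖ ^ 2 - Λ * u z ^ 2 := by
      funext z
      rw [fderiv_fun_neg, norm_neg, neg_sq]
    rw [e1, e2]
    exact h4
  have key := pair_three hadm.pos hadm.neg.pos (fun z => le_max_right _ _)
    (fun z => le_max_right _ _) (fun z => by simp only [hc]) (fun z => by simp only [hc])
    (fun z => by
      rcases le_total (u z) 0 with h | h
      · left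
        exact max_eq_right h
      · right
        exact max_eq_right (by linarith)) n1 n2
  refine key.trans (mul_le_mul_of_nonneg_left (two_signs hfin hadm ?_) hΛ.le)
  intro z hz
  exact (hPt _ hmu).2.2 (subset_tsupport _ hz)

theorem eig_central0 {Ω : Set ℂ} (hΩo : IsOpen Ω) (hne : Ω.Nonempty) (hfin : volume Ω ≠ ⊤)
    (hΩ : ∀ z ∈ Ω, -z ∈ Ω) :
    3 * (Real.pi * j01 ^ 2) ≤ dirEig 4 Ω * volume.real Ω := by
  apply eig_of_space hΩo hne hfin
  intro Λ V hΛ hV hVt hneg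
  rcases central_space hΩo hΩ V hV hVt hneg with ⟨P, h, hPt, hPc, hPn⟩ | ⟨P, h, hPt, hPc, hPn⟩
  · exact absurd (even_two hfin P h hPt hPc hPn) (not_le.2 hΛ)
  · exact absurd (odd_three hfin P h hPt hPc hPn) (not_le.2 hΛ)

/-- CENTRALLY SYMMETRIC SETS -/
theorem eig_central {p : ℂ} {Ω : Set ℂ} (hΩo : IsOpen Ω) (hne : Ω.Nonempty)
    (hfin : volume Ω ≠ ⊤) (hS : ∀ z ∈ Ω, 2 * p - z ∈ Ω) :
    3 * (Real.pi * j01 ^ 2) ≤ dirEig 4 Ω * volume.real Ω := by
  have h1n : ‖(1 : ℂ)‖ = 1 := norm_one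
  set Ω' : Set ℂ := (fun w => p + 1 * w) ⁻¹' Ω with hΩ'
  have h1 : ∀ w ∈ Ω', -w ∈ Ω' := by
    intro w hw
    have := hS _ hw
    show p + 1 * (-w) ∈ Ω
    convert this using 1
    ring
  have hne' : Ω'.Nonempty := by
    obtain ⟨z, hz⟩ := hne
    refine ⟨z - p, ?_⟩
    show p + 1 * (z - p) ∈ Ω
    rw [one_mul, add_sub_cancel]
    exact hz
  have hfin' : volume Ω' ≠ ⊤ := by rw [hΩ', vol_iso h1n]; exact hfin
  have := eig_central0 (hΩo.preimage (by fun_prop)) hne' hfin' h1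
  rwa [dirEig_iso 4 h1n, vol_iso_real h1n] at this

end DK4
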