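import Pool.Agent.Lib.DK4.Cases
import Pool.Agent.Lib.DK4.Alg

/-!
Module DK4.Idx (proved, helper28): negative index of the energy in a part `D` of the plane.

PROOF.  (1) `AlgAux.bF`, `dF`, `aF` (DK4.Alg) with `∫ z in D` instead of `∫ z`: a symmetric bilinear form `aD` on
`AlgAux.TS Ω` with `aD u u = ∫ z in D, den Λ u z` (copy the definitions, `Integrable.integrableOn`; compare
`aF_symm`, `aF_self`; `norm_sq_dual`).  Restrict it to `V` (`V ≤ TS Ω`): symmetric bilinear form `b` on a finite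
dimensional space.
(2) Linear algebra: `b` has an orthogonal basis (`LinearMap.BilinForm.exists_orthogonal_basis` or
`LinearMap.exists_orthogonal_basis`, `b.IsSymm`); let `M` be the span of the basis vectors with
`b(e_i, e_i) < 0` and `W` the span of the others.  `b < 0` on `M \ 0`, `b ≥ 0` on `W`,
`finrank M + finrank W = finrank V`.  (Alternatively: the spectral theorem for the symmetric matrix of `b`.)
(3) `finrank M ≤ k` by hypothesis (map `M` into `ℂ → ℝ` by `V.subtype`, `Submodule.finrank_map_subtype_eq`).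
-/

open MeasureTheory Set
open scoped ContDiff

namespace DK4

namespace IdxAux

/-- the abstract form of the statement -/
theorem lin {X : Type*} [AddCommGroup X] [Module ℝ X] [FiniteDimensional ℝ X]
    (b : X →ₗ[ℝ] X →ₗ[ℝ] ℝ) (hb : ∀ x y, b x y = b y x) (k : ℕ)
    (h : ∀ M : Submodule ℝ X, (∀ x ∈ M, x ≠ 0 → b x x < 0) → Module.finrank ℝ M ≤ k) :
    ∃ W : Submodule ℝ X, Module.finrank ℝ X ≤ Module.finrank ℝ W + k ∧ ∀ x ∈ W, 0 ≤ b x x := by
  classical
  have hs : LinearMap.IsSymm b := ⟨fun x y => hb x y⟩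
  obtain ⟨v, hv⟩ := LinearMap.BilinForm.exists_orthogonal_basis (B := b) hs
  have hexp : ∀ x : X, b x x = ∑ i, (v.repr x i) ^ 2 * b (v i) (v i) := by
    intro x
    have e1 : b x x = ∑ i, ∑ j, v.repr x i * (v.repr x j * b (v i) (v j)) := by
      conv_lhs => rw [← v.sum_repr x]
      simp only [map_sum, LinearMap.sum_apply, map_smul, LinearMap.smul_apply, smul_eq_mul]
      refine Finset.sum_congr rfl fun i _ => ?_
      rw [Finset.mul_sum]
      refine Finset.sum_congr rfl fun j _ => ?_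
      rw [hb (v j) (v i)]
    rw [e1]
    refine Finset.sum_congr rfl fun i _ => ?_
    rw [Finset.sum_eq_single i]
    · ring
    · intro j _ hj
      have h1 : b (v i) (v j) = 0 := hv (Ne.symm hj)
      rw [h1]
      simp
    · intro hi
      exact absurd (Finset.mem_univ i) hi
  let J := {i // b (v i) (v i) < 0}
  let M : Submodule ℝ X := Submodule.span ℝ (Set.range fun i : J => v i.1)
  have hli : LinearIndependent ℝ (fun i : J => v i.1) :=
    v.linearIndependent.comp (fun i : J => i.1) Subtype.val_injective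
  have hM0 : ∀ x ∈ M, ∀ i, ¬ b (v i) (v i) < 0 → v.repr x i = 0 := by
    intro x hx i hi
    refine Submodule.span_induction (p := fun x _ => v.repr x i = 0) ?_ ?_ ?_ ?_ hx
    · rintro _ ⟨j, rfl⟩
      have hij : j.1 ≠ i := by
        rintro rfl
        exact hi j.2
      simp [hij]
    · simp
    · intro x y _ _ hx hy
      simp [hx, hy]
    · intro a x _ hx
      simp [hx]
  have hMk : Module.finrank ℝ M ≤ k := by
    refine h M fun x hx hx0 => ?_
    rw [hexp]
    obtain ⟨i, hi⟩ : ∃ i, v.repr x i ≠ 0 := by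
      by_contra hcon
      push Not at hcon
      apply hx0
      rw [← v.sum_repr x]
      exact Finset.sum_eq_zero fun i _ => by rw [hcon i, zero_smul]
    have hli' : b (v i) (v i) < 0 := by
      by_contra h'
      exact hi (hM0 x hx i h')
    refine Finset.sum_neg' (fun j _ => ?_) ⟨i, Finset.mem_univ _, ?_⟩
    · by_cases hj : b (v j) (v j) < 0
      · exact mul_nonpos_of_nonneg_of_nonpos (sq_nonneg _) hj.le
      · rw [hM0 x hx j hj]; simp
    · exact mul_neg_of_pos_of_neg (by positivity) hli'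
  have hMc : Module.finrank ℝ M = Fintype.card J := finrank_span_eq_card hli
  let F : X →ₗ[ℝ] (J → ℝ) := LinearMap.pi fun i => (v.coord i.1)
  refine ⟨LinearMap.ker F, ?_, ?_⟩
  · have h1 := LinearMap.finrank_range_add_finrank_ker F
    have h2 : Module.finrank ℝ (LinearMap.range F) ≤ Fintype.card J := by
      have := Submodule.finrank_le (LinearMap.range F)
      simpa using this
    omega
  · intro x hx
    rw [hexp]
    refine Finset.sum_nonneg fun i _ => ?_
    by_cases hi : b (v i) (v i) < 0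
    · have h1 : F x ⟨i, hi⟩ = 0 := by
        rw [LinearMap.mem_ker.1 hx]; rfl
      have h2 : v.repr x i = 0 := h1
      rw [h2]; simp
    · exact mul_nonneg (sq_nonneg _) (not_lt.1 hi)

/-- the polarised density -/
noncomputable def pd (Λ : ℝ) (u v : ℂ → ℝ) (z : ℂ) : ℝ :=
  fderiv ℝ u z 1 * fderiv ℝ v z 1 + fderiv ℝ u z Complex.I * fderiv ℝ v z Complex.I -
    Λ * (u z * v z)

theorem pd_int {Ω : Set ℂ} {Λ : ℝ} {u v : ℂ → ℝ} (hu : IsTest Ω u) (hv : IsTest Ω v) :
    Integrable (pd Λ u v) := by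
  have h1 : ∀ e : ℂ, Integrable fun z => fderiv ℝ u z e * fderiv ℝ v z e := fun e =>
    AlgAux.int_mul (AlgAux.dc (AlgAux.mem_TS.2 hu) e).1 (AlgAux.dc (AlgAux.mem_TS.2 hu) e).2
      (AlgAux.dc (AlgAux.mem_TS.2 hv) e).1
  exact ((h1 1).add (h1 Complex.I)).sub
    ((AlgAux.int_mul hu.1.continuous hu.2.1 hv.1.continuous).const_mul Λ)

theorem pd_self {Λ : ℝ} (u : ℂ → ℝ) (z : ℂ) : pd Λ u u z = den Λ u z := by
  unfold pd den
  rw [AlgAux.norm_sq_dual]
  ring

theorem pd_comm {Λ : ℝ} (u v : ℂ → ℝ) (z : ℂ) : pd Λ u v z = pd Λ v u z := by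
  unfold pd
  ring

theorem pd_add {Ω : Set ℂ} {Λ : ℝ} {u v : ℂ → ℝ} (hu : IsTest Ω u) (hv : IsTest Ω v)
    (w : ℂ → ℝ) (z : ℂ) : pd Λ (u + v) w z = pd Λ u w z + pd Λ v w z := by
  unfold pd
  have h1 : fderiv ℝ (u + v) z = fderiv ℝ u z + fderiv ℝ v z :=
    fderiv_add (AlgAux.test_diff (AlgAux.mem_TS.2 hu) z) (AlgAux.test_diff (AlgAux.mem_TS.2 hv) z)
  rw [h1, add_apply, add_apply, Pi.add_apply]
  ring

theorem pd_smul {Ω : Set ℂ} {Λ : ℝ} {u : ℂ → ℝ} (hu : IsTest Ω u) (c : ℝ)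
    (w : ℂ → ℝ) (z : ℂ) : pd Λ (c • u) w z = c * pd Λ u w z := by
  unfold pd
  have h1 : fderiv ℝ (c • u) z = c • fderiv ℝ u z :=
    fderiv_const_smul (AlgAux.test_diff (AlgAux.mem_TS.2 hu) z) c
  rw [h1, smul_apply, smul_apply, Pi.smul_apply, smul_eq_mul, smul_eq_mul, smul_eq_mul]
  ring

theorem pd_add' {Ω : Set ℂ} {Λ : ℝ} {u v : ℂ → ℝ} (hu : IsTest Ω u) (hv : IsTest Ω v)
    (w : ℂ → ℝ) (z : ℂ) : pd Λ w (u + v) z = pd Λ w u z + pd Λ w v z := by
  rw [pd_comm, pd_add hu hv, pd_comm u, pd_comm v]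

theorem pd_smul' {Ω : Set ℂ} {Λ : ℝ} {u : ℂ → ℝ} (hu : IsTest Ω u) (c : ℝ)
    (w : ℂ → ℝ) (z : ℂ) : pd Λ w (c • u) z = c * pd Λ w u z := by
  rw [pd_comm, pd_smul hu, pd_comm u]

/-- the form on a space of tests -/
noncomputable def form {Ω : Set ℂ} (D : Set ℂ) (Λ : ℝ) {V : Submodule ℝ (ℂ → ℝ)}
    (hVt : ∀ u ∈ V, IsTest Ω u) : V →ₗ[ℝ] V →ₗ[ℝ] ℝ :=
  LinearMap.mk₂ ℝ (fun u v => ∫ z in D, pd Λ (u : ℂ → ℝ) (v : ℂ → ℝ) z)
    (fun u v w => by
      rw [← integral_add (pd_int (hVt _ u.2) (hVt _ w.2)).integrableOn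
        (pd_int (hVt _ v.2) (hVt _ w.2)).integrableOn]
      congr 1; funext z
      exact pd_add (hVt _ u.2) (hVt _ v.2) _ z)
    (fun c u v => by
      rw [smul_eq_mul, ← integral_const_mul]
      congr 1; funext z
      exact pd_smul (hVt _ u.2) c _ z)
    (fun u v w => by
      rw [← integral_add (pd_int (hVt _ u.2) (hVt _ v.2)).integrableOn
        (pd_int (hVt _ u.2) (hVt _ w.2)).integrableOn]
      congr 1; funext z
      exact pd_add' (hVt _ v.2) (hVt _ w.2) _ z)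
    (fun c u v => by
      rw [smul_eq_mul, ← integral_const_mul]
      congr 1; funext z
      exact pd_smul' (hVt _ v.2) c _ z)

end IdxAux

theorem nonneg_sub {Ω D : Set ℂ} (hD : MeasurableSet D) {Λ : ℝ} (V : Submodule ℝ (ℂ → ℝ))
    [FiniteDimensional ℝ V] (hVt : ∀ u ∈ V, IsTest Ω u) (k : ℕ)
    (h : ∀ M : Submodule ℝ (ℂ → ℝ), M ≤ V →
      (∀ u ∈ M, u ≠ 0 → ∫ z in D, den Λ u z < 0) → Module.finrank ℝ M ≤ k) :
    ∃ W : Submodule ℝ (ℂ → ℝ), W ≤ V ∧ Module.finrank ℝ V ≤ Module.finrank ℝ W + k ∧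
      ∀ u ∈ W, 0 ≤ ∫ z in D, den Λ u z := by
  have _ := hD
  have hself : ∀ u : V, IdxAux.form D Λ hVt u u = ∫ z in D, den Λ (u : ℂ → ℝ) z := by
    intro u
    change ∫ z in D, IdxAux.pd Λ (u : ℂ → ℝ) (u : ℂ → ℝ) z = _
    congr 1; funext z
    exact IdxAux.pd_self _ z
  obtain ⟨W, h1, h2⟩ := IdxAux.lin (IdxAux.form D Λ hVt) (fun u v => by
      change ∫ z in D, IdxAux.pd Λ (u : ℂ → ℝ) (v : ℂ → ℝ) z =
        ∫ z in D, IdxAux.pd Λ (v : ℂ → ℝ) (u : ℂ → ℝ) z
      congr 1; funext z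
      exact IdxAux.pd_comm _ _ z) k (fun M hM => by
    have h3 := h (M.map V.subtype) (by rintro _ ⟨x, _, rfl⟩; exact x.2) (by
      rintro _ ⟨x, hx, rfl⟩ hx0
      have h4 := hM x hx (fun h' => hx0 (by rw [h']; rfl))
      rw [hself] at h4
      exact h4)
    rwa [Submodule.finrank_map_subtype_eq] at h3)
  refine ⟨W.map V.subtype, by rintro _ ⟨x, _, rfl⟩; exact x.2, ?_, ?_⟩
  · rwa [Submodule.finrank_map_subtype_eq]
  · rintro _ ⟨x, hx, rfl⟩
    have h3 := h2 x hx
    rw [hself] at h3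
    exact h3

end DK4
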