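import Pool.Agent.Lib.DK4.Gen1
import Pool.Agent.Lib.DK4.Idx
import Pool.Agent.Lib.DK4.Cut

/-!
Module DK4.GenA (helper65): all open sets, `λ₄(Ω) |Ω| ≥ (5/2) π j01²`.

Cut the plane into a right half plane and two left quadrants, of area `2/5`, `3/10`, `3/10` of `Ω`.  If
`Λ |Ω| < (5/2) L` then each of the three pieces has negative index at most one, so some function
of the four dimensional negative space has nonnegative energy in all three pieces.
-/

open MeasureTheory Set Metric Filter Topology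
open scoped ContDiff NNReal

namespace DK4

/-- a two dimensional negative space in `D` gives a function both signs of which are negative in `D` -/
theorem both_signs {Ω D : Set ℂ} (hD : MeasurableSet D) {Λ : ℝ} (M : Submodule ℝ (ℂ → ℝ))
    (hMt : ∀ u ∈ M, IsTest Ω u) (h2 : 2 ≤ Module.finrank ℝ M)
    (hneg : ∀ u ∈ M, u ≠ 0 → ∫ z in D, den Λ u z < 0) :
    ∃ u ∈ M, ∫ z in D, den Λ (fun z => max (u z) 0) z < 0 ∧
      ∫ z in D, den Λ (fun z => max (-u z) 0) z < 0 := by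
  obtain ⟨v, hv, w, hw, hvw⟩ := two_indep (M := M) h2
  obtain ⟨a, b, hab, h3, h4⟩ := sign_trick (Λ := Λ) (S := D) hD (hMt v hv).1
    (hMt v hv).2.1 (hMt w hw).1 (hMt w hw).2.1 (fun a b hab => by
      obtain ⟨hm, hne⟩ := hvw a b hab
      exact hneg _ hm hne)
  set u : ℂ → ℝ := fun z => a * v z + b * w z with hu
  obtain ⟨hm, hne⟩ := hvw a b hab
  have hadm : Adm u := (hMt _ hm).adm
  have key : ∀ f : ℂ → ℝ, Adm f → ∫ z in D, den Λ (fun z => max (f z) 0) z =
      ∫ z in D ∩ {z | 0 < f z}, den Λ f z := by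
    intro f hf
    have hpm : MeasurableSet {z | 0 < f z} :=
      (isOpen_lt continuous_const hf.continuous).measurableSet
    rw [← setIntegral_indicator hpm]
    refine setIntegral_congr_ae hD ?_
    filter_upwards [hf.pos.ae_fderiv_zero] with z hz _
    by_cases h : 0 < f z
    · rw [indicator_of_mem (show z ∈ {z | 0 < f z} from h)]
      have ho : IsOpen {z | 0 < f z} := isOpen_lt continuous_const hf.continuous
      have h1 : (fun z => max (f z) 0) =ᶠ[𝓝 z] f := by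
        filter_upwards [ho.mem_nhds h] with y hy
        exact max_eq_left (le_of_lt hy)
      unfold den
      rw [h1.fderiv_eq]
      simp only [max_eq_left h.le]
    · rw [indicator_of_notMem (show z ∉ {z | 0 < f z} from h)]
      have h0 : max (f z) 0 = 0 := max_eq_right (not_lt.1 h)
      have h1 := hz h0
      unfold den
      rw [h1]
      simp only [h0]
      simp
  refine ⟨u, hm, ?_, ?_⟩
  · rw [key u hadm]
    exact h3
  · rw [key _ hadm.neg]
    have e1 : {z | 0 < -u z} = {z | u z < 0} := by ext z; simp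
    have e2 : den Λ (fun z => -u z) = den Λ u := by
      funext z
      unfold den
      rw [fderiv_fun_neg, norm_neg, neg_sq]
    rw [e1, e2]
    exact h4

theorem mem_of_ne {Ω : Set ℂ} {u : ℂ → ℝ} (hu : IsTest Ω u) {z : ℂ} (h : u z ≠ 0) : z ∈ Ω :=
  hu.2.2 (subset_tsupport _ h)

/-- the two signs in a piece `D` -/
theorem two_signs_in {Ω D : Set ℂ} (hfin : volume Ω ≠ ⊤) (hD : MeasurableSet D) {u : ℂ → ℝ}
    (hu : IsTest Ω u) :
    volume.real (D ∩ {z | 0 < max (u z) 0}) + volume.real (D ∩ {z | 0 < max (-u z) 0}) ≤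
      volume.real (Ω ∩ D) := by
  have hm : MeasurableSet (D ∩ {z | 0 < max (-u z) 0}) :=
    hD.inter (isOpen_lt continuous_const hu.adm.neg.pos.continuous).measurableSet
  have hf : volume (Ω ∩ D) ≠ ⊤ := ne_top_of_le_ne_top hfin (measure_mono inter_subset_left)
  have s1 : D ∩ {z | 0 < max (u z) 0} ⊆ Ω ∩ D := by
    rintro z ⟨h1, h2⟩
    refine ⟨mem_of_ne hu fun h0 => ?_, h1⟩
    have : 0 < max (u z) 0 := h2
    rw [h0] at this
    simp at this
  have s2 : D ∩ {z | 0 < max (-u z) 0} ⊆ Ω ∩ D := by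
    rintro z ⟨h1, h2⟩
    refine ⟨mem_of_ne hu fun h0 => ?_, h1⟩
    have : 0 < max (-u z) 0 := h2
    rw [h0] at this
    simp at this
  have hd : Disjoint (D ∩ {z | 0 < max (u z) 0}) (D ∩ {z | 0 < max (-u z) 0}) := by
    rw [Set.disjoint_left]
    rintro z ⟨-, h1⟩ ⟨-, h2⟩
    have h3 : 0 < max (u z) 0 := h1
    have h4 : 0 < max (-u z) 0 := h2
    rcases lt_max_iff.1 h3 with h | h
    · rcases lt_max_iff.1 h4 with h' | h'
      · linarith
      · exact lt_irrefl _ h'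
    · exact lt_irrefl _ h
  rw [← measureReal_union hd hm (ne_top_of_le_ne_top hf (measure_mono s1))
    (ne_top_of_le_ne_top hf (measure_mono s2))]
  exact measureReal_mono (union_subset s1 s2) hf

theorem disj_signs (u : ℂ → ℝ) (z : ℂ) : max (u z) 0 = 0 ∨ max (-u z) 0 = 0 := by
  rcases le_total (u z) 0 with h | h
  · left
    exact max_eq_right h
  · right
    exact max_eq_right (by linarith)

theorem index_quad {Ω : Set ℂ} (hfin : volume Ω ≠ ⊤) {Λ : ℝ} (hΛ : 0 < Λ) {t s σ τ : ℝ}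
    (hσ : σ = 1 ∨ σ = -1) (hτ : τ = 1 ∨ τ = -1)
    (ha : 4 * (Λ * volume.real (Ω ∩ Qd t s σ τ)) < 3 * (Real.pi * j01 ^ 2))
    (M : Submodule ℝ (ℂ → ℝ)) (hMt : ∀ u ∈ M, IsTest Ω u)
    (hneg : ∀ u ∈ M, u ≠ 0 → ∫ z in Qd t s σ τ, den Λ u z < 0) :
    Module.finrank ℝ M ≤ 1 := by
  by_contra hcon
  obtain ⟨u, hu, h1, h2⟩ := both_signs (Qd_meas t s σ τ) M hMt (by omega) hneg
  have hadm := (hMt u hu).adm
  have h := pair_three (foldq_adm hadm.pos hσ hτ (t := t) (s := s))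
    (foldq_adm hadm.neg.pos hσ hτ (t := t) (s := s))
    (foldq_nonneg (fun z => le_max_right _ _) t s σ τ)
    (foldq_nonneg (fun z => le_max_right _ _) t s σ τ) (foldq_even _ t s σ τ)
    (foldq_even _ t s σ τ) (fun z => disj_signs u _) (Λ := Λ)
    (by rw [q_foldq hadm.pos Λ hσ hτ]; linarith) (by rw [q_foldq hadm.neg.pos Λ hσ hτ]; linarith)
  rw [foldq_vol hadm.pos (fun z => le_max_right _ _) hσ hτ,
    foldq_vol hadm.neg.pos (fun z => le_max_right _ _) hσ hτ] at h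
  have h3 := mul_le_mul_of_nonneg_left (two_signs_in hfin (Qd_meas t s σ τ) (hMt u hu)) hΛ.le
  linarith

theorem index_half {Ω : Set ℂ} (hfin : volume Ω ≠ ⊤) {Λ : ℝ} (hΛ : 0 < Λ) {t σ : ℝ}
    (hσ : σ = 1 ∨ σ = -1)
    (ha : Λ * volume.real (Ω ∩ Hf t σ) < Real.pi * j01 ^ 2)
    (M : Submodule ℝ (ℂ → ℝ)) (hMt : ∀ u ∈ M, IsTest Ω u)
    (hneg : ∀ u ∈ M, u ≠ 0 → ∫ z in Hf t σ, den Λ u z < 0) :
    Module.finrank ℝ M ≤ 1 := by
  by_contra hcon
  obtain ⟨u, hu, h1, h2⟩ := both_signs (Hf_meas t σ) M hMt (by omega) hneg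
  have hadm := (hMt u hu).adm
  have k1 := FK4.fk (foldh_adm hadm.pos hσ (t := t)) (fun z => le_max_right _ _) (lam := Λ)
    (by rw [q_foldh hadm.pos Λ hσ]; linarith)
  have k2 := FK4.fk (foldh_adm hadm.neg.pos hσ (t := t)) (fun z => le_max_right _ _) (lam := Λ)
    (by rw [q_foldh hadm.neg.pos Λ hσ]; linarith)
  rw [foldh_vol hadm.pos (fun z => le_max_right _ _) hσ] at k1
  rw [foldh_vol hadm.neg.pos (fun z => le_max_right _ _) hσ] at k2
  have h3 := mul_le_mul_of_nonneg_left (two_signs_in hfin (Hf_meas t σ) (hMt u hu)) hΛ.le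
  linarith

theorem three_pieces {u : ℂ → ℝ} (hu : Adm u) (Λ t s : ℝ) :
    q Λ u = (∫ z in Qd t s (-1) 1, den Λ u z) + (∫ z in Qd t s (-1) (-1), den Λ u z) +
      ∫ z in Hf t 1, den Λ u z := by
  rw [q_eq_den hu, split_h (den_int hu) t, split_q (den_int hu) t s (-1)]
  ring

theorem inter_three {V A B C : Submodule ℝ (ℂ → ℝ)} [FiniteDimensional ℝ V]
    (hA : A ≤ V) (hB : B ≤ V) (hC : C ≤ V) (hV : Module.finrank ℝ V = 4)
    (h1 : 3 ≤ Module.finrank ℝ A) (h2 : 3 ≤ Module.finrank ℝ B)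
    (h3 : 3 ≤ Module.finrank ℝ C) : ∃ u : ℂ → ℝ, u ≠ 0 ∧ u ∈ A ∧ u ∈ B ∧ u ∈ C := by
  haveI : FiniteDimensional ℝ A := Submodule.finiteDimensional_of_le hA
  haveI : FiniteDimensional ℝ B := Submodule.finiteDimensional_of_le hB
  haveI : FiniteDimensional ℝ C := Submodule.finiteDimensional_of_le hC
  have e1 := Submodule.finrank_sup_add_finrank_inf_eq A B
  have e2 := Submodule.finrank_mono (sup_le hA hB)
  haveI : FiniteDimensional ℝ (A ⊓ B : Submodule ℝ (ℂ → ℝ)) :=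
    Submodule.finiteDimensional_of_le (inf_le_left.trans hA)
  have e3 := Submodule.finrank_sup_add_finrank_inf_eq (A ⊓ B) C
  have e4 := Submodule.finrank_mono (sup_le (inf_le_left.trans hA : A ⊓ B ≤ V) hC)
  have e5 : 0 < Module.finrank ℝ ((A ⊓ B) ⊓ C : Submodule ℝ (ℂ → ℝ)) := by omega
  haveI : FiniteDimensional ℝ ((A ⊓ B) ⊓ C : Submodule ℝ (ℂ → ℝ)) :=
    Submodule.finiteDimensional_of_le (inf_le_right.trans hC)
  have e6 : ((A ⊓ B) ⊓ C : Submodule ℝ (ℂ → ℝ)) ≠ ⊥ := by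
    intro h
    rw [h, finrank_bot] at e5
    exact lt_irrefl _ e5
  obtain ⟨u, hu, hne⟩ := Submodule.exists_mem_ne_zero_of_ne_bot e6
  exact ⟨u, hne, hu.1.1, hu.1.2, hu.2⟩

/-- THE BOUND FOR ALL OPEN SETS -/
theorem eig_all' {Ω : Set ℂ} (hΩo : IsOpen Ω) (hne : Ω.Nonempty) (hfin : volume Ω ≠ ⊤) :
    5 / 2 * (Real.pi * j01 ^ 2) ≤ dirEig 4 Ω * volume.real Ω := by
  apply eig_of_space hΩo hne hfin
  intro Λ V hΛA hV hVt hneg
  have hL := pi_j01_pos
  haveI : FiniteDimensional ℝ V := Module.finite_of_finrank_pos (by omega)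
  obtain ⟨hΛ, -⟩ := exists_basis_le (n := 4) (by norm_num) V (by omega) hVt hneg
  obtain ⟨t, ht1, ht2⟩ := cut_t hΩo.measurableSet hfin (θ := 3 / 5) (by norm_num) (by norm_num)
  obtain ⟨s, hs1, hs2⟩ := cut_s hΩo.measurableSet hfin t
  have h1 : (1 : ℝ) = 1 ∨ (1 : ℝ) = -1 := Or.inl rfl
  have hm1 : (-1 : ℝ) = 1 ∨ (-1 : ℝ) = -1 := Or.inr rfl
  obtain ⟨A, hA, hA3, hAn⟩ := nonneg_sub (Qd_meas t s (-1) 1) (Λ := Λ) V hVt 1
    (fun M hM hn => index_quad hfin hΛ hm1 h1 (by rw [hs1, ht1]; nlinarith) M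
      (fun u hu => hVt u (hM hu)) hn)
  obtain ⟨B, hB, hB3, hBn⟩ := nonneg_sub (Qd_meas t s (-1) (-1)) (Λ := Λ) V hVt 1
    (fun M hM hn => index_quad hfin hΛ hm1 hm1 (by rw [hs2, ht1]; nlinarith) M
      (fun u hu => hVt u (hM hu)) hn)
  obtain ⟨C, hC, hC3, hCn⟩ := nonneg_sub (Hf_meas t 1) (Λ := Λ) V hVt 1
    (fun M hM hn => index_half hfin hΛ h1 (by rw [ht2]; nlinarith) M
      (fun u hu => hVt u (hM hu)) hn)
  obtain ⟨u, hu0, huA, huB, huC⟩ := inter_three hA hB hC hV (by omega) (by omega) (by omega)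
  have h5 := hneg u (hA huA) hu0
  rw [three_pieces (hVt u (hA huA)).adm Λ t s] at h5
  have h6 := hAn u huA
  have h7 := hBn u huB
  have h8 := hCn u huC
  linarith

end DK4
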