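import Pool.Agent.Lib.DK4.Loc

/-!
Module DK4.Ind: restriction of `f ≥ 0` to an open set `W` on whose frontier `f` vanishes.

* Lipschitz: for `x ∈ W`, `y ∉ W` the segment `[x, y]` meets `frontier W` in some `z`
  (e.g. IsPreconnected of the segment, `IsPreconnected.inter_frontier_nonempty`), so
  `|f x| = |f x - f z| ≤ K ‖x - z‖ ≤ K ‖x - y‖`.
* `fderiv`: on `W` (open) the functions agree; off `closure W` it is locally `0`; on `frontier W` the
  indicator function is `0` and `≥ 0` everywhere, so `fderiv_zero_of_nonneg` applies; `frontier W`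
  misses `W` as `W` is open.
* `exists_comp_neg`: the components of the open set `{f > 0}` are countably many disjoint open sets
  covering it (Set.PairwiseDisjoint.countable_of_isOpen); `q Λ f = ∑' ∫_W` over them
  (integral over {f>0} since both integrands vanish elsewhere), so one term is negative.
-/

open MeasureTheory Set
open scoped ContDiff

namespace DK4

theorem Adm.ind {f : ℂ → ℝ} (hf : Adm f) {W : Set ℂ} (hfr : ∀ z ∈ frontier W, f z = 0) :
    Adm (W.indicator f) := by
  obtain ⟨K, hK⟩ := hf.lip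
  have key : ∀ x ∈ W, ∀ y ∉ W, |f x| ≤ K * dist x y := by
    intro x hx y hy
    obtain ⟨z, hz, hzf⟩ : (segment ℝ x y ∩ (closure W ∩ closure Wᶜ)).Nonempty := by
      refine isPreconnected_closed_iff.1 (convex_segment (𝕜 := ℝ) x y).isPreconnected
        (closure W) (closure Wᶜ) isClosed_closure isClosed_closure ?_
        ⟨x, left_mem_segment ℝ x y, subset_closure hx⟩
        ⟨y, right_mem_segment ℝ x y, subset_closure hy⟩
      intro w _
      by_cases hw : w ∈ W
      · exact Or.inl (subset_closure hw)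
      · exact Or.inr (subset_closure hw)
    rw [← frontier_eq_closure_inter_closure] at hzf
    have h1 := hK.dist_le_mul x z
    rw [Real.dist_eq, hfr z hzf, sub_zero] at h1
    have h2 := dist_add_dist_of_mem_segment hz
    have h3 : dist x z ≤ dist x y := by
      have := dist_nonneg (x := z) (y := y)
      linarith
    exact h1.trans (mul_le_mul_of_nonneg_left h3 K.coe_nonneg)
  refine ⟨⟨K, LipschitzWith.of_dist_le_mul fun x y => ?_⟩, ?_⟩
  · rw [Real.dist_eq]
    by_cases hx : x ∈ W
    · by_cases hy : y ∈ W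
      · rw [indicator_of_mem hx, indicator_of_mem hy, ← Real.dist_eq]
        exact hK.dist_le_mul x y
      · rw [indicator_of_mem hx, indicator_of_notMem hy, sub_zero]
        exact key x hx y hy
    · by_cases hy : y ∈ W
      · rw [indicator_of_notMem hx, indicator_of_mem hy, zero_sub, abs_neg, dist_comm]
        exact key y hy x hx
      · rw [indicator_of_notMem hx, indicator_of_notMem hy, sub_zero, abs_zero]
        positivity
  · refine hf.cpt.mono ?_
    intro z hz
    rw [Function.mem_support] at hz ⊢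
    intro h
    apply hz
    by_cases hzW : z ∈ W
    · rw [indicator_of_mem hzW, h]
    · rw [indicator_of_notMem hzW]

theorem fderiv_ind {f : ℂ → ℝ} (h0 : ∀ z, 0 ≤ f z) {W : Set ℂ}
    (hW : IsOpen W) (z : ℂ) :
    fderiv ℝ (W.indicator f) z = W.indicator (fderiv ℝ f) z := by
  by_cases hz : z ∈ W
  · rw [indicator_of_mem hz]
    apply Filter.EventuallyEq.fderiv_eq
    filter_upwards [hW.mem_nhds hz] with w hw
    exact indicator_of_mem hw f
  · rw [indicator_of_notMem hz]
    exact fderiv_zero_of_nonneg (fun w => indicator_nonneg (fun v _ => h0 v) w)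
      (indicator_of_notMem hz f)

theorem q_ind {Λ : ℝ} {f : ℂ → ℝ} (hf : Adm f) (h0 : ∀ z, 0 ≤ f z) {W : Set ℂ}
    (hW : IsOpen W) (hfr : ∀ z ∈ frontier W, f z = 0) :
    q Λ (W.indicator f) = ∫ z in W, (‖fderiv ℝ f z‖ ^ 2 - Λ * f z ^ 2) := by
  rw [q_eq_integral (hf.ind hfr), ← integral_indicator hW.measurableSet]
  refine integral_congr_ae (Filter.Eventually.of_forall fun z => ?_)
  show ‖fderiv ℝ (W.indicator f) z‖ ^ 2 - Λ * W.indicator f z ^ 2 =
    W.indicator (fun z => ‖fderiv ℝ f z‖ ^ 2 - Λ * f z ^ 2) z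
  rw [fderiv_ind h0 hW z]
  by_cases hz : z ∈ W
  · rw [indicator_of_mem hz, indicator_of_mem hz, indicator_of_mem hz]
  · rw [indicator_of_notMem hz, indicator_of_notMem hz, indicator_of_notMem hz]
    simp

/-- some connected component of `{f > 0}` has negative energy -/
theorem exists_comp_neg {Λ : ℝ} {f : ℂ → ℝ} (hf : Adm f) (h0 : ∀ z, 0 ≤ f z)
    (hq : q Λ f < 0) :
    ∃ W, IsComp {z | 0 < f z} W ∧ q Λ (W.indicator f) < 0 := by
  have hU : IsOpen {z | 0 < f z} := isOpen_lt continuous_const hf.continuous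
  have hopen : ∀ W, IsComp {z | 0 < f z} W → IsOpen W := by
    rintro W ⟨x, hx, rfl⟩
    exact hU.connectedComponentIn
  have hfr : ∀ W, IsComp {z | 0 < f z} W → ∀ z ∈ frontier W, f z = 0 := by
    intro W hW z hz
    by_contra hne
    have hpos : 0 < f z := lt_of_le_of_ne (h0 z) (Ne.symm hne)
    have hWo := hopen W hW
    rw [hWo.frontier_eq] at hz
    have hzc : z ∈ connectedComponentIn {z | 0 < f z} z := mem_connectedComponentIn hpos
    have hco : IsOpen (connectedComponentIn {z | 0 < f z} z) := hU.connectedComponentIn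
    obtain ⟨w, hw1, hw2⟩ := mem_closure_iff.1 hz.1 _ hco hzc
    obtain ⟨x, hx, rfl⟩ := hW
    apply hz.2
    have e1 := connectedComponentIn_eq hw1
    have e2 := connectedComponentIn_eq hw2
    rw [e2, ← e1]
    exact hzc
  have hdis : ∀ W W', IsComp {z | 0 < f z} W → IsComp {z | 0 < f z} W' → W ≠ W' →
      Disjoint W W' := by
    rintro W W' ⟨x, hx, rfl⟩ ⟨y, hy, rfl⟩ hne
    rw [Set.disjoint_left]
    intro w hw1 hw2
    exact hne ((connectedComponentIn_eq hw1).trans (connectedComponentIn_eq hw2).symm)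
  have hcount : {W | IsComp {z | 0 < f z} W}.Countable := by
    refine Set.PairwiseDisjoint.countable_of_isOpen (s := id) ?_ ?_ ?_
    · intro W hW W' hW' hne
      exact hdis W W' hW hW' hne
    · intro W hW
      exact hopen W hW
    · rintro W ⟨x, hx, rfl⟩
      exact ⟨x, mem_connectedComponentIn hx⟩
  have hc : Countable {W | IsComp {z | 0 < f z} W} := hcount.to_subtype
  by_contra hcon
  push Not at hcon
  have hint : Integrable (fun z => ‖fderiv ℝ f z‖ ^ 2 - Λ * f z ^ 2) :=
    hf.integrable_en.sub (hf.integrable_sq.const_mul Λ)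
  have hun : (⋃ W : {W | IsComp {z | 0 < f z} W}, (W : Set ℂ)) = {z | 0 < f z} := by
    ext z
    rw [mem_iUnion]
    constructor
    · rintro ⟨⟨W, x, hx, rfl⟩, hz⟩
      exact connectedComponentIn_subset _ _ hz
    · intro hz
      exact ⟨⟨_, z, hz, rfl⟩, mem_connectedComponentIn hz⟩
  have h1 : q Λ f = ∫ z in {z | 0 < f z}, (‖fderiv ℝ f z‖ ^ 2 - Λ * f z ^ 2) := by
    rw [q_eq_integral hf]
    refine (setIntegral_eq_integral_of_forall_compl_eq_zero fun z hz => ?_).symm
    have hz0 : f z = 0 := le_antisymm (not_lt.1 hz) (h0 z)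
    rw [fderiv_zero_of_nonneg h0 hz0, hz0]
    simp
  have h2 := hasSum_integral_iUnion (μ := volume)
    (s := fun W : {W | IsComp {z | 0 < f z} W} => (W : Set ℂ))
    (f := fun z => ‖fderiv ℝ f z‖ ^ 2 - Λ * f z ^ 2)
    (fun W => (hopen W W.2).measurableSet)
    (fun W W' hne => hdis W W' W.2 W'.2 fun h => hne (Subtype.ext h)) hint.integrableOn
  rw [hun, ← h1] at h2
  have h3 : 0 ≤ q Λ f := by
    refine h2.nonneg fun W => ?_
    rw [← q_ind hf h0 (hopen W W.2) (hfr W W.2)]
    exact hcon W W.2
  exact absurd hq (not_lt.2 h3)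

end DK4
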