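import Pool.Agent.Lib.DK4.Strip2
import Pool.Agent.Lib.DK4.Cases

/-!
Module DK4.Pair (helper65): two centrally symmetric functions with disjoint supports: one of them
satisfies Faber-Krahn with the double constant.
-/

open MeasureTheory Set Metric
open scoped ContDiff NNReal

namespace DK4

theorem rot2 : rot 2 = -1 := by
  have e : (2 * Real.pi * Complex.I / (2 : ℕ) : ℂ) = Real.pi * Complex.I := by
    push_cast; ring
  unfold rot
  rw [e, Complex.exp_pi_mul_I]

theorem csym2 {U : Set ℂ} (h : ∀ z ∈ U, -z ∈ U) : CSym 2 U := by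
  intro z hz
  rw [rot2, neg_one_mul]
  exact h z hz

/-- the outer one of two nested centrally symmetric components -/
theorem outer_two {lam mu : ℝ} {f : ℂ → ℝ} (hf : Adm f) (h0 : ∀ z, 0 ≤ f z)
    (hs : ∀ z, f (-z) = f z) {W W' : Set ℂ} (hW : IsComp {z | 0 < f z} W)
    (hq : q lam (W.indicator f) < 0)
    (hst : ∃ ζ : ℂ, ζ ^ 2 = 1 ∧ ζ ≠ 1 ∧ ∀ z ∈ W, ζ * z ∈ W) (hd : Disjoint W W')
    (hW' : Real.pi * j01 ^ 2 ≤ mu * volume.real W') (h0W : (0 : ℂ) ∉ W)
    (hring : ∀ γ, IsRing 2 γ → γ ⊆ W → W' ⊆ Inner γ) :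
    2 * (Real.pi * j01 ^ 2) ≤ lam * volume.real W ∨
      8 * (Real.pi * j01 ^ 2) ≤ mu * volume.real W := by
  have hk0 : 0 < 2 := by norm_num
  have hrot : ∀ z, f (rot 2 * z) = f z := fun z => by rw [rot2, neg_one_mul, hs]
  have hU : IsOpen {z | 0 < f z} := isOpen_lt continuous_const hf.continuous
  have hUs : CSym 2 {z | 0 < f z} := fun z (hz : 0 < f z) => by
    show 0 < f (rot 2 * z)
    rw [hrot]; exact hz
  have hWs : CSym 2 W := full_inv hk0 hU hUs hW hst
  obtain ⟨hadm, he, hL⟩ := comp_fk hf h0 hW hq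
  have hmu := L_le_pos measureReal_nonneg hW'
  rcases le_total (volume.real W) (8 * volume.real W') with hle | hle
  · left
    have hq' : q (2 * (lam / 2)) (W.indicator f) < 0 := by
      rw [mul_div_cancel₀ lam (by norm_num : (2 : ℝ) ≠ 0)]; exact hq
    have h := ring_fk2 (le_refl 2) hadm (fun z => by
        by_cases hz : z ∈ W
        · rw [indicator_of_mem hz]; exact h0 z
        · rw [indicator_of_notMem hz])
      (fun z => by
        by_cases hz : z ∈ W
        · rw [indicator_of_mem hz, indicator_of_mem ((hWs.iff hk0 z).2 hz), hrot]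
        · rw [indicator_of_notMem hz, indicator_of_notMem (fun h => hz ((hWs.iff hk0 z).1 h))])
      (indicator_of_notMem h0W _) (W' := W')
      (fun z hz => indicator_of_notMem (fun h => Set.disjoint_left.1 hd h hz) _)
      (fun γ hγ hsub => hring γ hγ (by rw [he] at hsub; exact hsub))
      (by rw [he]; exact hle) hq'
    rw [he] at h
    linarith
  · right
    nlinarith

theorem pair_lemma {f g : ℂ → ℝ} (hf : Adm f) (hg : Adm g) (f0 : ∀ z, 0 ≤ f z)
    (g0 : ∀ z, 0 ≤ g z) (hfs : ∀ z, f (-z) = f z) (hgs : ∀ z, g (-z) = g z)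
    (hdis : ∀ z, f z = 0 ∨ g z = 0) {lam mu : ℝ} (hqf : q lam f < 0) (hqg : q mu g < 0) :
    2 * (Real.pi * j01 ^ 2) ≤ lam * volume.real {z | 0 < f z} ∨
    2 * (Real.pi * j01 ^ 2) ≤ mu * volume.real {z | 0 < g z} ∨
    8 * (Real.pi * j01 ^ 2) ≤ mu * volume.real {z | 0 < f z} ∨
    8 * (Real.pi * j01 ^ 2) ≤ lam * volume.real {z | 0 < g z} := by
  have hk0 : 0 < 2 := by norm_num
  obtain ⟨W1, hW1, hqW1⟩ := exists_comp_neg hf f0 hqf
  obtain ⟨W2, hW2, hqW2⟩ := exists_comp_neg hg g0 hqg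
  obtain ⟨hadm1, he1, hL1⟩ := comp_fk hf f0 hW1 hqW1
  obtain ⟨hadm2, he2, hL2⟩ := comp_fk hg g0 hW2 hqW2
  have hU1 : IsOpen {z | 0 < f z} := isOpen_lt continuous_const hf.continuous
  have hU2 : IsOpen {z | 0 < g z} := isOpen_lt continuous_const hg.continuous
  have hs1 : CSym 2 {z | 0 < f z} := csym2 fun z (hz : 0 < f z) => by
    show 0 < f (-z)
    rw [hfs]; exact hz
  have hs2 : CSym 2 {z | 0 < g z} := csym2 fun z (hz : 0 < g z) => by
    show 0 < g (-z)
    rw [hgs]; exact hz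
  have hf1 : volume {z | 0 < f z} ≠ ⊤ := vol_fin hf le_rfl
  have hf2 : volume {z | 0 < g z} ≠ ⊤ := vol_fin hg le_rfl
  have hdU : Disjoint {z | 0 < f z} {z | 0 < g z} := by
    rw [Set.disjoint_left]
    intro z (hz1 : 0 < f z) (hz2 : 0 < g z)
    rcases hdis z with h | h <;> linarith
  obtain ⟨hWo1, hWc1, hWU1, -⟩ := comp_facts hU1 hW1
  obtain ⟨hWo2, hWc2, hWU2, -⟩ := comp_facts hU2 hW2
  have hd : Disjoint W1 W2 := hdU.mono hWU1 hWU2
  have hm1 := measureReal_mono hWU1 hf1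
  have hm2 := measureReal_mono hWU2 hf2
  have hlam := L_le_pos measureReal_nonneg hL1
  have hmu := L_le_pos measureReal_nonneg hL2
  by_cases hst1 : ∃ ζ : ℂ, ζ ^ 2 = 1 ∧ ζ ≠ 1 ∧ ∀ z ∈ W1, ζ * z ∈ W1
  swap
  · left
    have h5 := triv_disj hk0 hU1 hs1 hf1 hW1 hst1
    have h6 := mul_le_mul_of_nonneg_left h5 hlam.le
    push_cast at h6
    linarith
  by_cases hst2 : ∃ ζ : ℂ, ζ ^ 2 = 1 ∧ ζ ≠ 1 ∧ ∀ z ∈ W2, ζ * z ∈ W2
  swap
  · right; left
    have h5 := triv_disj hk0 hU2 hs2 hf2 hW2 hst2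
    have h6 := mul_le_mul_of_nonneg_left h5 hmu.le
    push_cast at h6
    linarith
  rcases nest hk0 hWo1 hWc1 hWo2 hWc2 hd hst1 hst2 with ⟨h0W, hring⟩ | ⟨h0W, hring⟩
  · rcases outer_two hf f0 hfs hW1 hqW1 hst1 hd hL2 h0W hring with h | h
    · left; exact h.trans (mul_le_mul_of_nonneg_left hm1 hlam.le)
    · right; right; left; exact h.trans (mul_le_mul_of_nonneg_left hm1 hmu.le)
  · rcases outer_two hg g0 hgs hW2 hqW2 hst2 hd.symm hL1 h0W hring with h | h
    · right; left; exact h.trans (mul_le_mul_of_nonneg_left hm2 hmu.le)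
    · right; right; right; exact h.trans (mul_le_mul_of_nonneg_left hm2 hlam.le)

end DK4
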