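import Mathlib

/-!
Module DK4.RectA: almost optimal smooth bumps on an interval.

Proof.  Choose `0 < c < l/2` with `π²/(l-2c)² < π²/l² + ε`; `w = l - 2c`.  For `δ > 0` let
`h t = t * expNegInvGlue (t/δ)` (`t e^{-δ/t}` for `t > 0`, `0` for `t ≤ 0`; smooth; `0 ≤ h' ≤ 1`, since
`h'(t) = (1 + δ/t) e^{-δ/t}` and `(1+x) e^{-x} ≤ 1`).  `g x = h (sin (π (x-c)/w))` for
`x ∈ (c - w/2, l - c + w/2)`, `0` otherwise (the sine is `≤ 0` on the two added pieces, so `g` is smooth
and supported in `[c, l-c]`).  `∫ g'² ≤ (π/w)² ∫_c^{l-c} cos² = (π²/w²)(w/2)`, and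
`∫ g² → ∫_c^{l-c} sin² = w/2` as `δ → 0` (dominated convergence).  So small `δ` works.  Symmetric
about `l/2`.
-/

open MeasureTheory Set
open scoped ContDiff

namespace DK4

namespace RectAAux

/-- the profile `t exp (-δ / t)` -/
noncomputable def h (δ t : ℝ) : ℝ := t * expNegInvGlue (t / δ)

theorem h_smooth (δ : ℝ) : ContDiff ℝ ∞ (h δ) :=
  contDiff_id.mul (expNegInvGlue.contDiff.comp (contDiff_id.div_const δ))

theorem h_nonpos {δ t : ℝ} (hδ : 0 < δ) (ht : t ≤ 0) : h δ t = 0 := by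
  unfold h
  rw [expNegInvGlue.zero_of_nonpos (div_nonpos_of_nonpos_of_nonneg ht hδ.le), mul_zero]

theorem h_nonneg {δ : ℝ} (hδ : 0 < δ) (t : ℝ) : 0 ≤ h δ t := by
  rcases le_total t 0 with ht | ht
  · rw [h_nonpos hδ ht]
  · exact mul_nonneg ht (expNegInvGlue.nonneg _)

theorem deriv_h_nonpos {δ t : ℝ} (hδ : 0 < δ) (ht : t ≤ 0) : deriv (h δ) t = 0 := by
  have h1 : IsLocalMin (h δ) t := Filter.Eventually.of_forall (fun s => by
    rw [h_nonpos hδ ht]
    exact h_nonneg hδ s)
  exact h1.deriv_eq_zero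

theorem h_pos_eq {δ t : ℝ} (hδ : 0 < δ) (ht : 0 < t) : h δ t = t * Real.exp (-(δ / t)) := by
  unfold h expNegInvGlue
  rw [if_neg (not_le.2 (div_pos ht hδ)), inv_div]

theorem deriv_h_abs {δ : ℝ} (hδ : 0 < δ) (t : ℝ) : |deriv (h δ) t| ≤ 1 := by
  rcases le_or_gt t 0 with ht | ht
  · rw [deriv_h_nonpos hδ ht]
    simp
  · have hd : HasDerivAt (h δ) ((1 + δ / t) * Real.exp (-(δ / t))) t := by
      have h1 : HasDerivAt (fun s : ℝ => s * Real.exp (-(δ / s)))
          ((1 + δ / t) * Real.exp (-(δ / t))) t := by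
        have h2 : HasDerivAt (fun s : ℝ => -(δ / s)) (δ / t ^ 2) t := by
          have h3 : HasDerivAt (fun s : ℝ => -(δ * s⁻¹)) (-(δ * -(t ^ 2)⁻¹)) t :=
            ((hasDerivAt_inv ht.ne').const_mul δ).neg
          have e : (fun s : ℝ => -(δ / s)) = fun s => -(δ * s⁻¹) := by
            funext s
            rw [div_eq_mul_inv]
          rw [e]
          have e' : δ / t ^ 2 = -(δ * -(t ^ 2)⁻¹) := by
            rw [div_eq_mul_inv]
            ring
          rw [e']
          exact h3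
        have h4 : HasDerivAt (fun s : ℝ => s * Real.exp (-(δ / s)))
            (1 * Real.exp (-(δ / t)) + t * (Real.exp (-(δ / t)) * (δ / t ^ 2))) t :=
          (hasDerivAt_id t).mul h2.exp
        have e : (1 + δ / t) * Real.exp (-(δ / t)) =
            1 * Real.exp (-(δ / t)) + t * (Real.exp (-(δ / t)) * (δ / t ^ 2)) := by
          have e1 : t * (δ / t ^ 2) = δ / t := by
            field_simp
          linear_combination (-Real.exp (-(δ / t))) * e1
        rw [e]
        exact h4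
      refine h1.congr_of_eventuallyEq ?_
      filter_upwards [lt_mem_nhds ht] with s hs
      exact h_pos_eq hδ hs
    have hx : 0 < δ / t := div_pos hδ ht
    rw [hd.deriv, abs_of_nonneg (mul_nonneg (by linarith) (Real.exp_pos _).le), Real.exp_neg,
      ← div_eq_mul_inv, div_le_one (Real.exp_pos _)]
    linarith [Real.add_one_le_exp (δ / t)]

theorem h_lower {δ t : ℝ} (hδ : 0 < δ) (ht : t ≤ 1) (ht0 : 0 ≤ t) :
    t ^ 2 - 2 * δ ≤ h δ t ^ 2 := by
  rcases ht0.eq_or_lt with rfl | ht0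
  · have := sq_nonneg (h δ 0)
    nlinarith
  · rw [h_pos_eq hδ ht0]
    have h1 : 1 - δ / t ≤ Real.exp (-(δ / t)) := by
      have := Real.add_one_le_exp (-(δ / t))
      linarith
    have h2 : t - δ ≤ t * Real.exp (-(δ / t)) := by
      have h3 := mul_le_mul_of_nonneg_left h1 ht0.le
      have h4 : t * (1 - δ / t) = t - δ := by
        field_simp
      linarith
    rcases le_or_gt δ t with hle | hlt
    · have h5 : (t - δ) ^ 2 ≤ (t * Real.exp (-(δ / t))) ^ 2 :=
        pow_le_pow_left₀ (by linarith) h2 2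
      nlinarith
    · have := sq_nonneg (t * Real.exp (-(δ / t)))
      nlinarith

/-- the bump -/
noncomputable def G (w δ y : ℝ) : ℝ := if |y| < w then h δ (Real.cos (Real.pi / w * y)) else 0

theorem cos_nonpos {w y : ℝ} (hw : 0 < w) (h1 : w / 2 ≤ |y|) (h2 : |y| < w) :
    Real.cos (Real.pi / w * y) ≤ 0 := by
  have hp : 0 < Real.pi / w := div_pos Real.pi_pos hw
  rw [← Real.cos_abs, abs_mul, abs_of_pos hp]
  have e1 : Real.pi / w * (w / 2) = Real.pi / 2 := by field_simp
  have e2 : Real.pi / w * w = Real.pi := by field_simp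
  refine Real.cos_nonpos_of_pi_div_two_le_of_le ?_ ?_
  · rw [← e1]
    exact mul_le_mul_of_nonneg_left h1 hp.le
  · have := mul_le_mul_of_nonneg_left h2.le hp.le
    rw [e2] at this
    linarith [Real.pi_pos]

theorem G_zero {w δ y : ℝ} (hw : 0 < w) (hδ : 0 < δ) (h1 : w / 2 ≤ |y|) : G w δ y = 0 := by
  unfold G
  split_ifs with h2
  · exact h_nonpos hδ (cos_nonpos hw h1 h2)
  · rfl

theorem G_near {w δ y : ℝ} (h1 : |y| < w) :
    G w δ =ᶠ[nhds y] fun z => h δ (Real.cos (Real.pi / w * z)) := by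
  have h2 : ∀ᶠ z in nhds y, |z| < w := (continuous_abs.tendsto y).eventually (gt_mem_nhds h1)
  filter_upwards [h2] with z hz
  unfold G
  rw [if_pos hz]

theorem G_far {w δ y : ℝ} (hw : 0 < w) (hδ : 0 < δ) (h1 : w / 2 < |y|) :
    G w δ =ᶠ[nhds y] fun _ => 0 := by
  have h2 : ∀ᶠ z in nhds y, w / 2 < |z| := (continuous_abs.tendsto y).eventually (lt_mem_nhds h1)
  filter_upwards [h2] with z hz
  exact G_zero hw hδ hz.le

theorem G_smooth {w δ : ℝ} (hw : 0 < w) (hδ : 0 < δ) : ContDiff ℝ ∞ (G w δ) := by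
  rw [contDiff_iff_contDiffAt]
  intro y
  rcases lt_or_ge (|y|) w with h1 | h1
  · refine ContDiffAt.congr_of_eventuallyEq ?_ (G_near h1)
    exact ((h_smooth δ).comp (Real.contDiff_cos.comp (contDiff_const.mul contDiff_id))).contDiffAt
  · refine ContDiffAt.congr_of_eventuallyEq contDiffAt_const (G_far hw hδ (by linarith))

theorem G_even (w δ y : ℝ) : G w δ (-y) = G w δ y := by
  unfold G
  rw [abs_neg, mul_neg, Real.cos_neg]

theorem deriv_far {w δ y : ℝ} (hw : 0 < w) (hδ : 0 < δ) (h1 : w / 2 < |y|) :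
    deriv (G w δ) y = 0 := by
  rw [(G_far hw hδ h1).deriv_eq, deriv_const]

theorem deriv_near {w δ y : ℝ} (hδ : 0 < δ) (h1 : |y| < w) :
    deriv (G w δ) y ^ 2 ≤ (Real.pi / w) ^ 2 * Real.sin (Real.pi / w * y) ^ 2 := by
  have hc : HasDerivAt (fun z : ℝ => Real.cos (Real.pi / w * z))
      (-Real.sin (Real.pi / w * y) * (Real.pi / w)) y := by
    have h2 : HasDerivAt (fun z : ℝ => Real.pi / w * z) (Real.pi / w) y := by
      simpa using (hasDerivAt_id y).const_mul (Real.pi / w)
    exact (Real.hasDerivAt_cos _).comp y h2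
  have hh : HasDerivAt (h δ) (deriv (h δ) (Real.cos (Real.pi / w * y)))
      (Real.cos (Real.pi / w * y)) :=
    ((h_smooth δ).differentiable (by simp)).differentiableAt.hasDerivAt
  have hd := hh.comp y hc
  rw [(G_near h1).deriv_eq]
  have e : deriv (fun z => h δ (Real.cos (Real.pi / w * z))) y =
      deriv (h δ) (Real.cos (Real.pi / w * y)) * (-Real.sin (Real.pi / w * y) * (Real.pi / w)) :=
    hd.deriv
  rw [e]
  have h3 : deriv (h δ) (Real.cos (Real.pi / w * y)) ^ 2 ≤ 1 := by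
    rw [← sq_abs]
    exact pow_le_one₀ (abs_nonneg _) (deriv_h_abs hδ _)
  have h4 : 0 ≤ (Real.pi / w) ^ 2 * Real.sin (Real.pi / w * y) ^ 2 := by positivity
  calc (deriv (h δ) (Real.cos (Real.pi / w * y)) *
        (-Real.sin (Real.pi / w * y) * (Real.pi / w))) ^ 2
      = deriv (h δ) (Real.cos (Real.pi / w * y)) ^ 2 *
        ((Real.pi / w) ^ 2 * Real.sin (Real.pi / w * y) ^ 2) := by ring
    _ ≤ 1 * ((Real.pi / w) ^ 2 * Real.sin (Real.pi / w * y) ^ 2) :=
        mul_le_mul_of_nonneg_right h3 h4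
    _ = _ := one_mul _

theorem int_cos {w : ℝ} (hw : 0 < w) :
    ∫ y in (-(w / 2))..(w / 2), Real.cos (Real.pi / w * y) ^ 2 = w / 2 := by
  have hp : Real.pi / w ≠ 0 := (div_pos Real.pi_pos hw).ne'
  have e1 : Real.pi / w * (w / 2) = Real.pi / 2 := by field_simp
  have e2 : Real.pi / w * (-(w / 2)) = -(Real.pi / 2) := by rw [mul_neg, e1]
  rw [intervalIntegral.integral_comp_mul_left (fun z => Real.cos z ^ 2) hp, e1, e2,
    integral_cos_sq, Real.cos_neg, Real.cos_pi_div_two, smul_eq_mul]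
  have := Real.pi_ne_zero
  field_simp
  ring

theorem int_sin {w : ℝ} (hw : 0 < w) :
    ∫ y in (-(w / 2))..(w / 2), Real.sin (Real.pi / w * y) ^ 2 = w / 2 := by
  have hp : Real.pi / w ≠ 0 := (div_pos Real.pi_pos hw).ne'
  have e1 : Real.pi / w * (w / 2) = Real.pi / 2 := by field_simp
  have e2 : Real.pi / w * (-(w / 2)) = -(Real.pi / 2) := by rw [mul_neg, e1]
  rw [intervalIntegral.integral_comp_mul_left (fun z => Real.sin z ^ 2) hp, e1, e2,
    integral_sin_sq, Real.cos_neg, Real.cos_pi_div_two, smul_eq_mul]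
  have := Real.pi_ne_zero
  field_simp
  ring

theorem mem_or {w y : ℝ} (hy : y ∉ Icc (-(w / 2)) (w / 2)) : w / 2 < |y| := by
  rw [mem_Icc, ← abs_le, not_le] at hy
  exact hy

theorem upper {w δ : ℝ} (hw : 0 < w) (hδ : 0 < δ) :
    ∫ y, deriv (G w δ) y ^ 2 ≤ (Real.pi / w) ^ 2 * (w / 2) := by
  have h1 : ∫ y in Icc (-(w / 2)) (w / 2), deriv (G w δ) y ^ 2 = ∫ y, deriv (G w δ) y ^ 2 :=
    setIntegral_eq_integral_of_forall_compl_eq_zero (fun y hy => by
      rw [deriv_far hw hδ (mem_or hy)]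
      norm_num)
  have hcd : Continuous (deriv (G w δ)) := (G_smooth hw hδ).continuous_deriv (by simp)
  rw [← h1]
  calc ∫ y in Icc (-(w / 2)) (w / 2), deriv (G w δ) y ^ 2
      ≤ ∫ y in Icc (-(w / 2)) (w / 2), (Real.pi / w) ^ 2 * Real.sin (Real.pi / w * y) ^ 2 := by
        refine setIntegral_mono_on (hcd.pow 2).integrableOn_Icc
          (Continuous.integrableOn_Icc (by fun_prop)) measurableSet_Icc (fun y hy => ?_)
        exact deriv_near hδ (lt_of_le_of_lt (abs_le.2 hy) (by linarith))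
    _ = ∫ y in (-(w / 2))..(w / 2), (Real.pi / w) ^ 2 * Real.sin (Real.pi / w * y) ^ 2 := by
        rw [intervalIntegral.integral_of_le (by linarith), integral_Icc_eq_integral_Ioc]
    _ = (Real.pi / w) ^ 2 * (w / 2) := by
        rw [intervalIntegral.integral_const_mul, int_sin hw]

theorem lower {w δ : ℝ} (hw : 0 < w) (hδ : 0 < δ) :
    w / 2 - 2 * δ * w ≤ ∫ y, G w δ y ^ 2 := by
  have h1 : ∫ y in Icc (-(w / 2)) (w / 2), G w δ y ^ 2 = ∫ y, G w δ y ^ 2 :=
    setIntegral_eq_integral_of_forall_compl_eq_zero (fun y hy => by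
      rw [G_zero hw hδ (mem_or hy).le]
      norm_num)
  have hc : Continuous (G w δ) := (G_smooth hw hδ).continuous
  rw [← h1]
  calc w / 2 - 2 * δ * w
      = ∫ y in (-(w / 2))..(w / 2), (Real.cos (Real.pi / w * y) ^ 2 - 2 * δ) := by
        rw [intervalIntegral.integral_sub (Continuous.intervalIntegrable (by fun_prop) _ _)
          (Continuous.intervalIntegrable (by fun_prop) _ _), int_cos hw,
          intervalIntegral.integral_const, smul_eq_mul]
        ring
    _ = ∫ y in Icc (-(w / 2)) (w / 2), (Real.cos (Real.pi / w * y) ^ 2 - 2 * δ) := by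
        rw [intervalIntegral.integral_of_le (by linarith), integral_Icc_eq_integral_Ioc]
    _ ≤ ∫ y in Icc (-(w / 2)) (w / 2), G w δ y ^ 2 := by
        refine setIntegral_mono_on (Continuous.integrableOn_Icc (by fun_prop))
          (hc.pow 2).integrableOn_Icc measurableSet_Icc (fun y hy => ?_)
        have hy' : |y| ≤ w / 2 := abs_le.2 hy
        have hlt : |y| < w := lt_of_le_of_lt hy' (by linarith)
        have e : G w δ y = h δ (Real.cos (Real.pi / w * y)) := if_pos hlt
        rw [e]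
        refine h_lower hδ (Real.cos_le_one _) ?_
        have hp : 0 < Real.pi / w := div_pos Real.pi_pos hw
        have e1 : Real.pi / w * (w / 2) = Real.pi / 2 := by field_simp
        refine Real.cos_nonneg_of_mem_Icc ⟨?_, ?_⟩
        · rw [← e1, ← mul_neg]
          exact mul_le_mul_of_nonneg_left hy.1 hp.le
        · rw [← e1]
          exact mul_le_mul_of_nonneg_left hy.2 hp.le

end RectAAux

theorem exists_bump {l ε : ℝ} (hl : 0 < l) (hε : 0 < ε) :
    ∃ g : ℝ → ℝ, ContDiff ℝ ∞ g ∧ HasCompactSupport g ∧ tsupport g ⊆ Ioo 0 l ∧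
      (∀ x, g (l - x) = g x) ∧ 0 < ∫ x, g x ^ 2 ∧
      ∫ x, deriv g x ^ 2 ≤ (Real.pi ^ 2 / l ^ 2 + ε) * ∫ x, g x ^ 2 := by
  have hpi := Real.pi_pos
  set K : ℝ := Real.pi ^ 2 / l ^ 2 with hK
  have hK0 : 0 < K := by positivity
  have hs : 0 < Real.sqrt (K + ε / 2) := Real.sqrt_pos.2 (by positivity)
  set w : ℝ := Real.pi / Real.sqrt (K + ε / 2) with hw'
  have hw : 0 < w := by positivity
  have hsq : Real.sqrt (K + ε / 2) ^ 2 = K + ε / 2 := Real.sq_sqrt (by positivity)
  have hpw : (Real.pi / w) ^ 2 = K + ε / 2 := by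
    have : Real.pi / w = Real.sqrt (K + ε / 2) := by
      rw [hw']
      field_simp
    rw [this, hsq]
  have hwl : w < l := by
    have h1 : Real.pi / l < Real.pi / w := by
      have h2 : (Real.pi / l) ^ 2 < (Real.pi / w) ^ 2 := by
        rw [hpw, div_pow]
        linarith
      exact lt_of_pow_lt_pow_left₀ 2 (by positivity) h2
    exact (div_lt_div_iff_of_pos_left hpi hl hw).1 h1
  set δ : ℝ := ε / (8 * (K + ε)) with hδ'
  have hδ : 0 < δ := by positivity
  have hδe : δ * (8 * (K + ε)) = ε := by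
    rw [hδ']
    field_simp
  have hlow := RectAAux.lower hw hδ
  have hup := RectAAux.upper hw hδ
  have hδ4 : 4 * δ < 1 := by
    by_contra hcon
    push Not at hcon
    nlinarith
  have hpos : 0 < w / 2 - 2 * δ * w := by nlinarith
  have hsub : ∀ x, RectAAux.G w δ (x - l / 2) ≠ 0 → x ∈ Icc (l / 2 - w / 2) (l / 2 + w / 2) := by
    intro x hx
    by_contra hcon
    apply hx
    refine RectAAux.G_zero hw hδ ?_
    rw [mem_Icc, not_and_or, not_le, not_le] at hcon
    rcases hcon with h1 | h1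
    · rw [le_abs]
      right
      linarith
    · rw [le_abs]
      left
      linarith
  have hts : tsupport (fun x => RectAAux.G w δ (x - l / 2)) ⊆
      Icc (l / 2 - w / 2) (l / 2 + w / 2) :=
    closure_minimal (fun x hx => hsub x hx) isClosed_Icc
  have e1 : ∫ x, RectAAux.G w δ (x - l / 2) ^ 2 = ∫ x, RectAAux.G w δ x ^ 2 :=
    integral_sub_right_eq_self (fun x => RectAAux.G w δ x ^ 2) (l / 2)
  have e2 : ∫ x, deriv (fun x => RectAAux.G w δ (x - l / 2)) x ^ 2 =
      ∫ x, deriv (RectAAux.G w δ) x ^ 2 := by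
    rw [← integral_sub_right_eq_self (fun x => deriv (RectAAux.G w δ) x ^ 2) (l / 2)]
    refine integral_congr_ae (Filter.Eventually.of_forall (fun x => ?_))
    show deriv (fun x => RectAAux.G w δ (x - l / 2)) x ^ 2 = deriv (RectAAux.G w δ) (x - l / 2) ^ 2
    rw [deriv_comp_sub_const]
  refine ⟨fun x => RectAAux.G w δ (x - l / 2), ?_, ?_, ?_, ?_, ?_, ?_⟩
  · exact (RectAAux.G_smooth hw hδ).comp (contDiff_id.sub contDiff_const)
  · exact HasCompactSupport.of_support_subset_isCompact isCompact_Icc (fun x hx => hsub x hx)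
  · intro x hx
    have := hts hx
    exact ⟨by linarith [this.1], by linarith [this.2]⟩
  · intro x
    show RectAAux.G w δ (l - x - l / 2) = RectAAux.G w δ (x - l / 2)
    rw [← RectAAux.G_even w δ (x - l / 2)]
    congr 1
    ring
  · rw [e1]
    linarith
  · rw [e1, e2]
    calc ∫ x, deriv (RectAAux.G w δ) x ^ 2 ≤ (Real.pi / w) ^ 2 * (w / 2) := hup
      _ = (K + ε) * (w / 2 - 2 * δ * w) := by
          rw [hpw]
          linear_combination (w / 4) * hδe
      _ ≤ (K + ε) * ∫ x, RectAAux.G w δ x ^ 2 :=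
          mul_le_mul_of_nonneg_left hlow (by positivity)

end DK4
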