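import Pool.Agent.Lib.DK4.Defs

/-!
Module DK4.RectB: functions `z ↦ f (re z) h (im z)` and sums of two of them.

* `prod_test`: smooth; the support is in the product of the supports.
* `prod_grad`: `fderiv` at `z` is `v ↦ f'(re z) h(im z) v.re + f(re z) h'(im z) v.im`, whose operator norm
  squared is the sum of the squares of the two coefficients.  So with `u = f₁⊗h₁ + f₂⊗h₂`,
  `‖fderiv u z‖² = (f₁' h₁ + f₂' h₂)² + (f₁ h₁' + f₂ h₂')²`.
* integrals: Fubini through `Complex.volume_preserving_equiv_real_prod`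
  (`MeasureTheory.integral_prod_mul`); cross terms: `∫ h₁ h₂ = 0` and `∫ h₁' h₂' = 0`.
-/

open MeasureTheory Set
open scoped ContDiff

namespace DK4

namespace RectBAux

/-- Fubini for the square of a sum of two products -/
theorem sq_aux {a₁ b₁ a₂ b₂ : ℝ → ℝ} (ha₁ : Continuous a₁) (hb₁ : Continuous b₁)
    (ha₂ : Continuous a₂) (hb₂ : Continuous b₂)
    (ca₁ : HasCompactSupport a₁) (cb₁ : HasCompactSupport b₁)
    (ca₂ : HasCompactSupport a₂) (cb₂ : HasCompactSupport b₂)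
    (ho : ∫ y, b₁ y * b₂ y = 0) :
    Integrable (fun z : ℂ => (a₁ z.re * b₁ z.im + a₂ z.re * b₂ z.im) ^ 2) ∧
    ∫ z : ℂ, (a₁ z.re * b₁ z.im + a₂ z.re * b₂ z.im) ^ 2 =
      (∫ x, a₁ x ^ 2) * (∫ y, b₁ y ^ 2) + (∫ x, a₂ x ^ 2) * (∫ y, b₂ y ^ 2) := by
  have i1 : Integrable (fun x => a₁ x ^ 2) :=
    (ha₁.pow 2).integrable_of_hasCompactSupport (by
      simpa only [pow_two] using ca₁.mul_right (f' := a₁))
  have i2 : Integrable (fun x => b₁ x ^ 2) :=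
    (hb₁.pow 2).integrable_of_hasCompactSupport (by
      simpa only [pow_two] using cb₁.mul_right (f' := b₁))
  have i3 : Integrable (fun x => a₂ x ^ 2) :=
    (ha₂.pow 2).integrable_of_hasCompactSupport (by
      simpa only [pow_two] using ca₂.mul_right (f' := a₂))
  have i4 : Integrable (fun x => b₂ x ^ 2) :=
    (hb₂.pow 2).integrable_of_hasCompactSupport (by
      simpa only [pow_two] using cb₂.mul_right (f' := b₂))
  have i5 : Integrable (fun x => a₁ x * a₂ x) :=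
    (ha₁.mul ha₂).integrable_of_hasCompactSupport ca₁.mul_right
  have i6 : Integrable (fun x => b₁ x * b₂ x) :=
    (hb₁.mul hb₂).integrable_of_hasCompactSupport cb₁.mul_right
  have j1 : Integrable (fun p : ℝ × ℝ => a₁ p.1 ^ 2 * b₁ p.2 ^ 2) (volume.prod volume) :=
    i1.mul_prod i2
  have j2 : Integrable (fun p : ℝ × ℝ => a₂ p.1 ^ 2 * b₂ p.2 ^ 2) (volume.prod volume) :=
    i3.mul_prod i4
  have j3 : Integrable (fun p : ℝ × ℝ => (a₁ p.1 * a₂ p.1) * (b₁ p.2 * b₂ p.2))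
      (volume.prod volume) := i5.mul_prod i6
  let g : ℝ × ℝ → ℝ := fun p => (a₁ p.1 * b₁ p.2 + a₂ p.1 * b₂ p.2) ^ 2
  have hg : g = fun p => (a₁ p.1 ^ 2 * b₁ p.2 ^ 2 + a₂ p.1 ^ 2 * b₂ p.2 ^ 2) +
      2 * ((a₁ p.1 * a₂ p.1) * (b₁ p.2 * b₂ p.2)) := by
    funext p
    change (a₁ p.1 * b₁ p.2 + a₂ p.1 * b₂ p.2) ^ 2 = _
    ring
  have j4 : Integrable (fun p : ℝ × ℝ => a₁ p.1 ^ 2 * b₁ p.2 ^ 2 + a₂ p.1 ^ 2 * b₂ p.2 ^ 2)
      (volume.prod volume) := j1.add j2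
  have j5 : Integrable (fun p : ℝ × ℝ => 2 * ((a₁ p.1 * a₂ p.1) * (b₁ p.2 * b₂ p.2)))
      (volume.prod volume) := j3.const_mul 2
  have hgi : Integrable g (volume.prod volume) := by
    rw [hg]
    exact j4.add j5
  have hgint : ∫ p, g p ∂(volume.prod volume) =
      (∫ x, a₁ x ^ 2) * (∫ y, b₁ y ^ 2) + (∫ x, a₂ x ^ 2) * (∫ y, b₂ y ^ 2) := by
    rw [hg, integral_add j4 j5, integral_add j1 j2, integral_const_mul]
    have e1 : ∫ p : ℝ × ℝ, a₁ p.1 ^ 2 * b₁ p.2 ^ 2 ∂(volume.prod volume) =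
        (∫ x, a₁ x ^ 2) * (∫ y, b₁ y ^ 2) := integral_prod_mul (fun x => a₁ x ^ 2) (fun y => b₁ y ^ 2)
    have e2 : ∫ p : ℝ × ℝ, a₂ p.1 ^ 2 * b₂ p.2 ^ 2 ∂(volume.prod volume) =
        (∫ x, a₂ x ^ 2) * (∫ y, b₂ y ^ 2) := integral_prod_mul (fun x => a₂ x ^ 2) (fun y => b₂ y ^ 2)
    have e3 : ∫ p : ℝ × ℝ, (a₁ p.1 * a₂ p.1) * (b₁ p.2 * b₂ p.2) ∂(volume.prod volume) =
        (∫ x, a₁ x * a₂ x) * (∫ y, b₁ y * b₂ y) :=
      integral_prod_mul (fun x => a₁ x * a₂ x) (fun y => b₁ y * b₂ y)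
    rw [e1, e2, e3, ho, mul_zero, mul_zero, add_zero]
  have hmp := Complex.volume_preserving_equiv_real_prod
  have hcomp : (fun z : ℂ => (a₁ z.re * b₁ z.im + a₂ z.re * b₂ z.im) ^ 2) =
      g ∘ Complex.measurableEquivRealProd := by
    funext z
    rfl
  constructor
  · rw [hcomp]
    exact (hmp.integrable_comp_emb Complex.measurableEquivRealProd.measurableEmbedding).mpr hgi
  · have h1 := hmp.integral_comp Complex.measurableEquivRealProd.measurableEmbedding g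
    have h2 : ∫ z : ℂ, (a₁ z.re * b₁ z.im + a₂ z.re * b₂ z.im) ^ 2 =
        ∫ z : ℂ, g (Complex.measurableEquivRealProd z) := rfl
    rw [h2, h1]
    exact hgint

/-- the operator norm of `A re + B im` -/
theorem norm_aux (A B : ℝ) : ‖A • Complex.reCLM + B • Complex.imCLM‖ ^ 2 = A ^ 2 + B ^ 2 := by
  have hnn : 0 ≤ A ^ 2 + B ^ 2 := by positivity
  have hle : ‖A • Complex.reCLM + B • Complex.imCLM‖ ≤ √(A ^ 2 + B ^ 2) := by
    refine ContinuousLinearMap.opNorm_le_bound _ (Real.sqrt_nonneg _) fun v => ?_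
    have h1 : (A • Complex.reCLM + B • Complex.imCLM) v = A * v.re + B * v.im := rfl
    rw [h1, Real.norm_eq_abs]
    have h2 : ‖v‖ = √(v.re ^ 2 + v.im ^ 2) := by
      rw [Complex.norm_def, Complex.normSq_apply]
      congr 1
      ring
    rw [h2, ← Real.sqrt_mul hnn]
    apply Real.abs_le_sqrt
    nlinarith [sq_nonneg (A * v.im - B * v.re)]
  have hge : √(A ^ 2 + B ^ 2) ≤ ‖A • Complex.reCLM + B • Complex.imCLM‖ := by
    by_cases h0 : A ^ 2 + B ^ 2 = 0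
    · rw [h0, Real.sqrt_zero]
      exact norm_nonneg _
    · have hpos : 0 < A ^ 2 + B ^ 2 := lt_of_le_of_ne hnn (Ne.symm h0)
      have h1 := (A • Complex.reCLM + B • Complex.imCLM).le_opNorm (⟨A, B⟩ : ℂ)
      have h2 : (A • Complex.reCLM + B • Complex.imCLM) (⟨A, B⟩ : ℂ) = A ^ 2 + B ^ 2 := by
        change A * A + B * B = _
        ring
      have h3 : ‖(⟨A, B⟩ : ℂ)‖ = √(A ^ 2 + B ^ 2) := by
        have h31 : Complex.normSq (⟨A, B⟩ : ℂ) = A ^ 2 + B ^ 2 := by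
          rw [Complex.normSq_mk]
          ring
        rw [Complex.norm_def, h31]
      rw [h2, h3, Real.norm_eq_abs, abs_of_pos hpos] at h1
      have h4 : 0 < √(A ^ 2 + B ^ 2) := Real.sqrt_pos.mpr hpos
      have h5 : √(A ^ 2 + B ^ 2) * √(A ^ 2 + B ^ 2) = A ^ 2 + B ^ 2 := Real.mul_self_sqrt hnn
      have h6 : √(A ^ 2 + B ^ 2) * √(A ^ 2 + B ^ 2) ≤
          ‖A • Complex.reCLM + B • Complex.imCLM‖ * √(A ^ 2 + B ^ 2) := h5.trans_le h1
      exact le_of_mul_le_mul_right h6 h4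
  have heq := le_antisymm hle hge
  rw [heq, Real.sq_sqrt hnn]

theorem hasFDerivAt_prod {f h : ℝ → ℝ} (hf : Differentiable ℝ f) (hh : Differentiable ℝ h) (z : ℂ) :
    HasFDerivAt (fun z : ℂ => f z.re * h z.im)
      ((deriv f z.re * h z.im) • Complex.reCLM + (f z.re * deriv h z.im) • Complex.imCLM) z := by
  have h1 : HasFDerivAt (fun z : ℂ => f z.re) ((deriv f z.re) • Complex.reCLM) z :=
    (hf z.re).hasDerivAt.comp_hasFDerivAt z Complex.reCLM.hasFDerivAt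
  have h2 : HasFDerivAt (fun z : ℂ => h z.im) ((deriv h z.im) • Complex.imCLM) z :=
    (hh z.im).hasDerivAt.comp_hasFDerivAt z Complex.imCLM.hasFDerivAt
  refine (h1.mul h2).congr_fderiv ?_
  rw [smul_smul, smul_smul, add_comm, mul_comm (h z.im)]

end RectBAux

open RectBAux

theorem prod_test {f h : ℝ → ℝ} (hf : ContDiff ℝ ∞ f) (hh : ContDiff ℝ ∞ h)
    (hfc : HasCompactSupport f) (hhc : HasCompactSupport h) {S T : Set ℝ}
    (hfs : tsupport f ⊆ S) (hhs : tsupport h ⊆ T) :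
    IsTest {z : ℂ | z.re ∈ S ∧ z.im ∈ T} (fun z => f z.re * h z.im) := by
  have hK : IsCompact (tsupport f ×ℂ tsupport h) := hfc.isCompact.reProdIm hhc.isCompact
  have hsub : Function.support (fun z : ℂ => f z.re * h z.im) ⊆ tsupport f ×ℂ tsupport h := by
    intro z hz
    have h1 : f z.re ≠ 0 := left_ne_zero_of_mul hz
    have h2 : h z.im ≠ 0 := right_ne_zero_of_mul hz
    rw [Complex.mem_reProdIm]
    exact ⟨subset_tsupport _ h1, subset_tsupport _ h2⟩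
  have hts : tsupport (fun z : ℂ => f z.re * h z.im) ⊆ tsupport f ×ℂ tsupport h :=
    closure_minimal hsub hK.isClosed
  refine ⟨(hf.comp Complex.reCLM.contDiff).mul (hh.comp Complex.imCLM.contDiff), ?_, ?_⟩
  · exact hK.of_isClosed_subset (isClosed_tsupport _) hts
  · intro z hz
    have := hts hz
    rw [Complex.mem_reProdIm] at this
    exact ⟨hfs this.1, hhs this.2⟩

theorem prod_sq {f₁ h₁ f₂ h₂ : ℝ → ℝ} (hf₁ : ContDiff ℝ ∞ f₁) (hh₁ : ContDiff ℝ ∞ h₁)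
    (hf₂ : ContDiff ℝ ∞ f₂) (hh₂ : ContDiff ℝ ∞ h₂)
    (cf₁ : HasCompactSupport f₁) (ch₁ : HasCompactSupport h₁)
    (cf₂ : HasCompactSupport f₂) (ch₂ : HasCompactSupport h₂)
    (ho : ∫ y, h₁ y * h₂ y = 0) :
    ∫ z : ℂ, (f₁ z.re * h₁ z.im + f₂ z.re * h₂ z.im) ^ 2 =
      (∫ x, f₁ x ^ 2) * (∫ y, h₁ y ^ 2) + (∫ x, f₂ x ^ 2) * (∫ y, h₂ y ^ 2) :=
  (sq_aux hf₁.continuous hh₁.continuous hf₂.continuous hh₂.continuous cf₁ ch₁ cf₂ ch₂ ho).2

theorem prod_grad {f₁ h₁ f₂ h₂ : ℝ → ℝ} (hf₁ : ContDiff ℝ ∞ f₁) (hh₁ : ContDiff ℝ ∞ h₁)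
    (hf₂ : ContDiff ℝ ∞ f₂) (hh₂ : ContDiff ℝ ∞ h₂)
    (cf₁ : HasCompactSupport f₁) (ch₁ : HasCompactSupport h₁)
    (cf₂ : HasCompactSupport f₂) (ch₂ : HasCompactSupport h₂)
    (ho : ∫ y, h₁ y * h₂ y = 0) (ho' : ∫ y, deriv h₁ y * deriv h₂ y = 0) :
    ∫ z : ℂ, ‖fderiv ℝ (fun z : ℂ => f₁ z.re * h₁ z.im + f₂ z.re * h₂ z.im) z‖ ^ 2 =
      ((∫ x, deriv f₁ x ^ 2) * (∫ y, h₁ y ^ 2) + (∫ x, f₁ x ^ 2) * (∫ y, deriv h₁ y ^ 2)) +
      ((∫ x, deriv f₂ x ^ 2) * (∫ y, h₂ y ^ 2) + (∫ x, f₂ x ^ 2) * (∫ y, deriv h₂ y ^ 2)) := by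
  have one_le : (1 : WithTop ℕ∞) ≤ ∞ := by simp
  have ne0 : (∞ : WithTop ℕ∞) ≠ 0 := by simp
  have key : ∀ z : ℂ,
      ‖fderiv ℝ (fun z : ℂ => f₁ z.re * h₁ z.im + f₂ z.re * h₂ z.im) z‖ ^ 2 =
        (deriv f₁ z.re * h₁ z.im + deriv f₂ z.re * h₂ z.im) ^ 2 +
        (f₁ z.re * deriv h₁ z.im + f₂ z.re * deriv h₂ z.im) ^ 2 := by
    intro z
    have e1 := hasFDerivAt_prod (hf₁.differentiable ne0) (hh₁.differentiable ne0) z
    have e2 := hasFDerivAt_prod (hf₂.differentiable ne0) (hh₂.differentiable ne0) z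
    have e3 : fderiv ℝ (fun z : ℂ => f₁ z.re * h₁ z.im + f₂ z.re * h₂ z.im) z =
        (deriv f₁ z.re * h₁ z.im + deriv f₂ z.re * h₂ z.im) • Complex.reCLM +
        (f₁ z.re * deriv h₁ z.im + f₂ z.re * deriv h₂ z.im) • Complex.imCLM := by
      have := (e1.add e2).fderiv
      refine Eq.trans this ?_
      rw [add_smul, add_smul]
      abel
    rw [e3, norm_aux]
  simp only [key]
  obtain ⟨i1, s1⟩ := sq_aux (hf₁.continuous_deriv one_le) hh₁.continuous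
    (hf₂.continuous_deriv one_le) hh₂.continuous cf₁.deriv ch₁ cf₂.deriv ch₂ ho
  obtain ⟨i2, s2⟩ := sq_aux hf₁.continuous (hh₁.continuous_deriv one_le)
    hf₂.continuous (hh₂.continuous_deriv one_le) cf₁ ch₁.deriv cf₂ ch₂.deriv ho'
  rw [integral_add i1 i2, s1, s2]
  ring

end DK4
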