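import Pool.Agent.Lib.DK4.RectA
import Pool.Agent.Lib.DK4.RectB
import Pool.Agent.Lib.DK4.DiscC

/-!
Module DK4.RectC: the `8 × 5` rectangle has `λ₄ · area ≤ 7.225 π² < 4 π j01²`.

`R = {0 < re z < 8, 0 < im z < 5}`, area 40.
`rect_le`: for `ε > 0` take bumps (exists_bump, with `ε/2`): `g` on `(0, 8/3)`, `f` on `(0, 8)`, `h` on
`(0, 5)` (so `h (5 - y) = h y`), `b` on `(0, 5/2)`, and `H y = b y - b (5 - y)` (so `H (5 - y) = -H y`,
supported in `(0,5)`, `∫ H² = 2 ∫ b²`, `∫ H'² = 2 ∫ b'²` (disjoint supports)).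
`g_i x = g (x - 8 i/3)`, `i = 0, 1, 2` (disjoint supports).
`V` = span of `g_i ⊗ h` (i = 0,1,2) and `f ⊗ H`; for `u = (∑ c_i g_i) ⊗ h + (d f) ⊗ H` use prod_sq and
prod_grad with `f₁ = ∑ c_i g_i`, `h₁ = h`, `f₂ = d f`, `h₂ = H`: `∫ h H = 0` and `∫ h' H' = 0` by the
substitution `y ↦ 5 - y` (parity).  `∫ f₁² = (∑ c_i²) ∫ g²`, `∫ f₁'² = (∑ c_i²) ∫ g'²`.  Hence
`∫ |∇u|² ≤ Λ ∫ u²` with `Λ = max (9π²/64 + π²/25, π²/64 + 16π²/100) + ε = (289/1600) π² + ε`
(`9/64 + 1/25 = 289/1600`, `1/64 + 4/25 = 281/1600`).  `finrank V = 4`: if `u = 0` then `∫ u² = 0` so all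
`c_i = 0`, `d = 0`.  The set in `dirEig 4` is bounded below (see DiscC, namespace DiscCAux, `bdd`).
`rect_lt`: `(289/1600) π² · 40 = 7.225 π² < 4 π j01²` from `j01 > 12/5` and `π < 3.15`.
-/

open MeasureTheory Set
open scoped ContDiff

namespace DK4

namespace RectCAux

theorem cs_sq {p : ℝ → ℝ} (hc : HasCompactSupport p) : HasCompactSupport fun x => p x ^ 2 := by
  refine hc.mono' ?_
  intro z hz
  apply subset_tsupport
  intro h4
  exact hz (by simp [h4])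

theorem int_sq {p : ℝ → ℝ} (hp : Continuous p) (hc : HasCompactSupport p) :
    Integrable fun x => p x ^ 2 :=
  (hp.pow 2).integrable_of_hasCompactSupport (cs_sq hc)

/-- the sum of three translates -/
noncomputable def tri (c : Fin 3 → ℝ) (p : ℝ → ℝ) (x : ℝ) : ℝ :=
  ∑ i : Fin 3, c i * p (x - 8 * ((i : ℕ) : ℝ) / 3)

theorem int_tri {p : ℝ → ℝ} (hp : Continuous p) (hc : HasCompactSupport p)
    (h0 : ∀ x, x ∉ Ioo (0 : ℝ) (8 / 3) → p x = 0) (c : Fin 3 → ℝ) :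
    ∫ x, tri c p x ^ 2 = (∑ i, c i ^ 2) * ∫ x, p x ^ 2 := by
  have hpt : ∀ x, tri c p x ^ 2 =
      ∑ i : Fin 3, c i ^ 2 * p (x - 8 * ((i : ℕ) : ℝ) / 3) ^ 2 := by
    intro x
    have hz : ∀ a b : ℝ, 8 / 3 ≤ b - a → p (x - a) * p (x - b) = 0 := by
      intro a b hab
      by_cases ha : x - a ∈ Ioo (0 : ℝ) (8 / 3)
      · have hb : x - b ∉ Ioo (0 : ℝ) (8 / 3) := by
          intro hb
          have h1 := ha.2
          have h2 := hb.1
          linarith
        rw [h0 _ hb, mul_zero]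
      · rw [h0 _ ha, zero_mul]
    have h1 := hz (8 * (((0 : Fin 3) : ℕ) : ℝ) / 3) (8 * (((1 : Fin 3) : ℕ) : ℝ) / 3)
      (by norm_num)
    have h2 := hz (8 * (((0 : Fin 3) : ℕ) : ℝ) / 3) (8 * (((2 : Fin 3) : ℕ) : ℝ) / 3)
      (by norm_num)
    have h3 := hz (8 * (((1 : Fin 3) : ℕ) : ℝ) / 3) (8 * (((2 : Fin 3) : ℕ) : ℝ) / 3)
      (by norm_num)
    rw [tri, Fin.sum_univ_three, Fin.sum_univ_three]
    linear_combination (2 * c 0 * c 1) * h1 + (2 * c 0 * c 2) * h2 + (2 * c 1 * c 2) * h3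
  have hi : ∀ i : Fin 3,
      Integrable fun x => c i ^ 2 * p (x - 8 * ((i : ℕ) : ℝ) / 3) ^ 2 := fun i =>
    ((int_sq hp hc).comp_sub_right (8 * ((i : ℕ) : ℝ) / 3)).const_mul _
  rw [integral_congr_ae (Filter.Eventually.of_forall hpt), integral_finsetSum _ fun i _ => hi i,
    Finset.sum_mul]
  refine Finset.sum_congr rfl fun i _ => ?_
  rw [integral_const_mul]
  congr 1
  exact integral_sub_right_eq_self (fun x => p x ^ 2) _

theorem hasDeriv {g : ℝ → ℝ} (hg : ContDiff ℝ ∞ g) (x : ℝ) : HasDerivAt g (deriv g x) x :=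
  ((hg.differentiable (by simp)).differentiableAt).hasDerivAt

theorem deriv_tri {g : ℝ → ℝ} (hg : ContDiff ℝ ∞ g) (c : Fin 3 → ℝ) (x : ℝ) :
    deriv (tri c g) x = tri c (deriv g) x := by
  have h1 : ∀ i ∈ (Finset.univ : Finset (Fin 3)),
      HasDerivAt (fun y => c i * g (y - 8 * ((i : ℕ) : ℝ) / 3))
        (c i * deriv g (x - 8 * ((i : ℕ) : ℝ) / 3)) x := fun i _ =>
    ((hasDeriv hg (x - 8 * ((i : ℕ) : ℝ) / 3)).comp_sub_const x _).const_mul _
  exact (HasDerivAt.fun_sum h1).deriv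

theorem smooth_tri {g : ℝ → ℝ} (hg : ContDiff ℝ ∞ g) (c : Fin 3 → ℝ) :
    ContDiff ℝ ∞ (tri c g) :=
  ContDiff.sum fun _ _ => contDiff_const.mul (hg.comp (contDiff_id.sub contDiff_const))

theorem ts_shift (g : ℝ → ℝ) (a : ℝ) :
    tsupport (fun x => g (x - a)) ⊆ (fun x => x - a) ⁻¹' tsupport g := by
  refine closure_minimal ?_ ((isClosed_tsupport g).preimage (continuous_id.sub continuous_const))
  intro z hz
  exact subset_tsupport _ hz

theorem ts_tri {g : ℝ → ℝ} (hc : HasCompactSupport g) (hs : tsupport g ⊆ Ioo (0 : ℝ) (8 / 3))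
    (c : Fin 3 → ℝ) : HasCompactSupport (tri c g) ∧ tsupport (tri c g) ⊆ Ioo (0 : ℝ) 8 := by
  have h1 : tsupport (tri c g) ⊆
      ⋃ i : Fin 3, (fun x => x - 8 * ((i : ℕ) : ℝ) / 3) ⁻¹' tsupport g := by
    refine closure_minimal ?_ (isClosed_iUnion_of_finite fun i =>
      (isClosed_tsupport g).preimage (continuous_id.sub continuous_const))
    intro z hz
    by_contra hz'
    apply hz
    refine Finset.sum_eq_zero fun i _ => ?_
    have h2 : z - 8 * ((i : ℕ) : ℝ) / 3 ∉ tsupport g := fun h => hz' (mem_iUnion.2 ⟨i, h⟩)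
    rw [image_eq_zero_of_notMem_tsupport h2, mul_zero]
  refine ⟨?_, ?_⟩
  · have h2 : IsCompact (⋃ i : Fin 3, (fun x => x - 8 * ((i : ℕ) : ℝ) / 3) ⁻¹' tsupport g) :=
      isCompact_iUnion fun i => (Homeomorph.subRight (8 * ((i : ℕ) : ℝ) / 3)).isCompact_preimage.2 hc
    exact h2.of_isClosed_subset (isClosed_tsupport _) h1
  · intro z hz
    obtain ⟨i, hi⟩ := mem_iUnion.1 (h1 hz)
    have h3 := hs hi
    have h4 : ((i : ℕ) : ℝ) ≤ 2 := by
      have : (i : ℕ) ≤ 2 := by omega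
      exact_mod_cast this
    have h5 : (0 : ℝ) ≤ ((i : ℕ) : ℝ) := Nat.cast_nonneg _
    have h6 := h3.1
    have h7 := h3.2
    constructor
    · show (0 : ℝ) < z
      linarith
    · show z < 8
      linarith

/-- `p y + s p (5 - y)` -/
noncomputable def refl (s : ℝ) (p : ℝ → ℝ) (y : ℝ) : ℝ := p y + s * p (5 - y)

theorem int_refl {p : ℝ → ℝ} (hp : Continuous p) (hc : HasCompactSupport p)
    (h0 : ∀ x, x ∉ Ioo (0 : ℝ) (5 / 2) → p x = 0) {s : ℝ} (hs : s ^ 2 = 1) :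
    ∫ y, refl s p y ^ 2 = 2 * ∫ y, p y ^ 2 := by
  have hpt : ∀ y, refl s p y ^ 2 = p y ^ 2 + p (5 - y) ^ 2 := by
    intro y
    have hz : p y * p (5 - y) = 0 := by
      by_cases ha : y ∈ Ioo (0 : ℝ) (5 / 2)
      · have hb : 5 - y ∉ Ioo (0 : ℝ) (5 / 2) := by
          intro hb
          have h1 := ha.2
          have h2 := hb.2
          linarith
        rw [h0 _ hb, mul_zero]
      · rw [h0 _ ha, zero_mul]
    rw [refl]
    linear_combination (2 * s) * hz + p (5 - y) ^ 2 * hs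
  rw [integral_congr_ae (Filter.Eventually.of_forall hpt),
    integral_add (int_sq hp hc) ((int_sq hp hc).comp_sub_left 5),
    integral_sub_left_eq_self (fun y => p y ^ 2) volume 5]
  ring

theorem deriv_refl {b : ℝ → ℝ} (hb : ContDiff ℝ ∞ b) (s y : ℝ) :
    deriv (refl s b) y = refl (-s) (deriv b) y := by
  have h1 : HasDerivAt (fun y : ℝ => b (5 - y)) (-deriv b (5 - y)) y :=
    (hasDeriv hb (5 - y)).comp_const_sub 5 y
  have h2 := (hasDeriv hb y).add (h1.const_mul s)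
  have h3 := h2.deriv
  have h4 : deriv (refl s b) y = deriv b y + s * -deriv b (5 - y) := h3
  rw [h4, refl]
  ring

theorem smooth_refl {b : ℝ → ℝ} (hb : ContDiff ℝ ∞ b) (s : ℝ) : ContDiff ℝ ∞ (refl s b) :=
  hb.add (contDiff_const.mul (hb.comp (contDiff_const.sub contDiff_id)))

theorem ts_refl {b : ℝ → ℝ} (hc : HasCompactSupport b) (hs : tsupport b ⊆ Ioo (0 : ℝ) (5 / 2))
    (s : ℝ) : HasCompactSupport (refl s b) ∧ tsupport (refl s b) ⊆ Ioo (0 : ℝ) 5 := by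
  have h1 : tsupport (refl s b) ⊆ tsupport b ∪ (fun x => 5 - x) ⁻¹' tsupport b := by
    refine closure_minimal ?_ ((isClosed_tsupport b).union
      ((isClosed_tsupport b).preimage (continuous_const.sub continuous_id)))
    intro z hz
    by_contra hz'
    apply hz
    have h2 : z ∉ tsupport b := fun h => hz' (Or.inl h)
    have h3 : 5 - z ∉ tsupport b := fun h => hz' (Or.inr h)
    show b z + s * b (5 - z) = 0
    rw [image_eq_zero_of_notMem_tsupport h2, image_eq_zero_of_notMem_tsupport h3, mul_zero,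
      add_zero]
  refine ⟨?_, ?_⟩
  · have h2 : IsCompact (tsupport b ∪ (fun x => 5 - x) ⁻¹' tsupport b) :=
      IsCompact.union hc ((Homeomorph.subLeft (5 : ℝ)).isCompact_preimage.2 hc)
    exact h2.of_isClosed_subset (isClosed_tsupport _) h1
  · intro z hz
    rcases h1 hz with h | h
    · have h3 := hs h
      exact ⟨h3.1, by linarith [h3.2]⟩
    · have h3 := hs h
      have h4 := h3.1
      have h5 := h3.2
      constructor
      · show (0 : ℝ) < z
        linarith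
      · show z < 5
        linarith

/-- an odd function around `5 / 2` has integral `0` -/
theorem int_odd {φ : ℝ → ℝ} (h : ∀ y, φ (5 - y) = -φ y) : ∫ y, φ y = 0 := by
  have h1 := integral_sub_left_eq_self φ volume (5 : ℝ)
  simp only [h] at h1
  rw [integral_neg] at h1
  linarith

/-- the test functions -/
noncomputable def L (g f h H : ℝ → ℝ) : ((Fin 3 → ℝ) × ℝ) →ₗ[ℝ] (ℂ → ℝ) where
  toFun p z := tri p.1 g z.re * h z.im + (p.2 * f z.re) * H z.im
  map_add' p p' := by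
    funext z
    simp only [tri, Prod.fst_add, Prod.snd_add, Pi.add_apply, add_mul, Finset.sum_add_distrib]
    ring
  map_smul' r p := by
    funext z
    simp only [tri, Prod.smul_fst, Prod.smul_snd, Pi.smul_apply, smul_eq_mul, RingHom.id_apply,
      mul_assoc, ← Finset.mul_sum]
    ring

theorem L_apply (g f h H : ℝ → ℝ) (p : (Fin 3 → ℝ) × ℝ) :
    L g f h H p = fun z : ℂ => tri p.1 g z.re * h z.im + (p.2 * f z.re) * H z.im := rfl

theorem zero_out {p : ℝ → ℝ} {S : Set ℝ} (hs : tsupport p ⊆ S) (x : ℝ) (hx : x ∉ S) : p x = 0 :=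
  image_eq_zero_of_notMem_tsupport fun h => hx (hs h)

theorem zero_out' {p : ℝ → ℝ} {S : Set ℝ} (hs : tsupport p ⊆ S) (x : ℝ) (hx : x ∉ S) :
    deriv p x = 0 := by
  have h1 : x ∉ tsupport p := fun h => hx (hs h)
  by_contra h2
  exact h1 (support_deriv_subset h2)

end RectCAux

open RectCAux

/-- the `8 × 5` rectangle -/
def rect : Set ℂ := {z : ℂ | z.re ∈ Ioo (0 : ℝ) 8 ∧ z.im ∈ Ioo (0 : ℝ) 5}

theorem rect_vol : volume.real rect = 40 := by
  have h1 : rect = Complex.measurableEquivRealProd ⁻¹' (Ioo (0 : ℝ) 8 ×ˢ Ioo (0 : ℝ) 5) := by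
    ext z
    exact Iff.rfl
  rw [h1, measureReal_def, Complex.volume_preserving_equiv_real_prod.measure_preimage
    (measurableSet_Ioo.prod measurableSet_Ioo).nullMeasurableSet]
  rw [Measure.volume_eq_prod, Measure.prod_prod, Real.volume_Ioo, Real.volume_Ioo,
    ← ENNReal.ofReal_mul (by norm_num), ENNReal.toReal_ofReal (by norm_num)]
  norm_num

theorem rect_le : dirEig 4 rect ≤ 289 / 1600 * Real.pi ^ 2 := by
  refine le_of_forall_pos_le_add fun ε hε => ?_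
  have hε2 : 0 < ε / 2 := by positivity
  obtain ⟨g, g1, g2, g3, -, g5, g6⟩ := exists_bump (l := 8 / 3) (by norm_num) hε2
  obtain ⟨f, f1, f2, f3, -, f5, f6⟩ := exists_bump (l := 8) (by norm_num) hε2
  obtain ⟨h, h1, h2, h3, h4, h5, h6⟩ := exists_bump (l := 5) (by norm_num) hε2
  obtain ⟨b, b1, b2, b3, -, b5, b6⟩ := exists_bump (l := 5 / 2) (by norm_num) hε2
  set H : ℝ → ℝ := refl (-1) b with hH
  have H1 : ContDiff ℝ ∞ H := smooth_refl b1 _
  obtain ⟨H2, H3⟩ := ts_refl b2 b3 (-1)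
  rw [← hH] at H2 H3
  have cd : ∀ {p : ℝ → ℝ}, ContDiff ℝ ∞ p → Continuous (deriv p) := fun hp =>
    hp.continuous_deriv (by simp)
  have H5 : ∫ y, H y ^ 2 = 2 * ∫ y, b y ^ 2 :=
    int_refl b1.continuous b2 (zero_out b3) (by norm_num)
  have H6 : ∫ y, deriv H y ^ 2 = 2 * ∫ y, deriv b y ^ 2 := by
    have e : ∀ y, deriv H y ^ 2 = refl (-(-1)) (deriv b) y ^ 2 := fun y => by
      rw [hH, deriv_refl b1]
    rw [integral_congr_ae (Filter.Eventually.of_forall e)]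
    exact int_refl (cd b1) b2.deriv (zero_out' b3) (by norm_num)
  have Hodd : ∀ y, H (5 - y) = -H y := by
    intro y
    show b (5 - y) + -1 * b (5 - (5 - y)) = -(b y + -1 * b (5 - y))
    rw [sub_sub_cancel]
    ring
  have Hd : ∀ y, deriv H (5 - y) = deriv H y := by
    intro y
    rw [hH, deriv_refl b1, deriv_refl b1]
    show deriv b (5 - y) + -(-1) * deriv b (5 - (5 - y)) = deriv b y + -(-1) * deriv b (5 - y)
    rw [sub_sub_cancel]
    ring
  have hd : ∀ y, deriv h (5 - y) = -deriv h y := by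
    intro y
    have e1 : HasDerivAt (fun y : ℝ => h (5 - y)) (-deriv h (5 - y)) y :=
      (hasDeriv h1 (5 - y)).comp_const_sub 5 y
    have e2 : (fun y : ℝ => h (5 - y)) = h := funext h4
    rw [e2] at e1
    rw [e1.deriv, neg_neg]
  have o1 : ∫ y, h y * H y = 0 := int_odd fun y => by rw [h4, Hodd, mul_neg]
  have o2 : ∫ y, deriv h y * deriv H y = 0 := int_odd fun y => by rw [hd, Hd, neg_mul]
  have f1' : ∀ r : ℝ, ContDiff ℝ ∞ fun x => r * f x := fun r => contDiff_const.mul f1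
  have f2' : ∀ r : ℝ, HasCompactSupport fun x => r * f x := fun r => f2.mul_left
  have f3' : ∀ r : ℝ, tsupport (fun x => r * f x) ⊆ Ioo (0 : ℝ) 8 := fun r =>
    (closure_mono (Function.support_mul_subset_right _ _)).trans f3
  have f5' : ∀ r : ℝ, ∫ x, (r * f x) ^ 2 = r ^ 2 * ∫ x, f x ^ 2 := by
    intro r
    rw [← integral_const_mul]
    exact integral_congr_ae (Filter.Eventually.of_forall fun x => mul_pow _ _ _)
  have f6' : ∀ r : ℝ, ∫ x, deriv (fun x => r * f x) x ^ 2 = r ^ 2 * ∫ x, deriv f x ^ 2 := by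
    intro r
    rw [← integral_const_mul]
    refine integral_congr_ae (Filter.Eventually.of_forall fun x => ?_)
    show deriv (fun x => r * f x) x ^ 2 = r ^ 2 * deriv f x ^ 2
    rw [((hasDeriv f1 x).const_mul r).deriv, mul_pow]
  have t1 : ∀ c, ContDiff ℝ ∞ (tri c g) := smooth_tri g1
  have t5 : ∀ c, ∫ x, tri c g x ^ 2 = (∑ i, c i ^ 2) * ∫ x, g x ^ 2 :=
    int_tri g1.continuous g2 (zero_out g3)
  have t6 : ∀ c, ∫ x, deriv (tri c g) x ^ 2 = (∑ i, c i ^ 2) * ∫ x, deriv g x ^ 2 := by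
    intro c
    have e : ∀ x, deriv (tri c g) x ^ 2 = tri c (deriv g) x ^ 2 := fun x => by rw [deriv_tri g1]
    rw [integral_congr_ae (Filter.Eventually.of_forall e)]
    exact int_tri (cd g1) g2.deriv (zero_out' g3) c
  have hM : ∀ p, ∫ z, L g f h H p z ^ 2 =
      ((∑ i, p.1 i ^ 2) * ∫ x, g x ^ 2) * (∫ y, h y ^ 2) +
        (p.2 ^ 2 * ∫ x, f x ^ 2) * (2 * ∫ y, b y ^ 2) := by
    intro p
    have e := prod_sq (f₁ := tri p.1 g) (h₁ := h) (f₂ := fun x => p.2 * f x) (h₂ := H)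
      (t1 p.1) h1 (f1' p.2) H1 (ts_tri g2 g3 p.1).1 h2 (f2' p.2) H2 o1
    rw [t5, f5', H5] at e
    rw [L_apply]
    exact e
  have hE : ∀ p, ∫ z, ‖fderiv ℝ (L g f h H p) z‖ ^ 2 =
      (((∑ i, p.1 i ^ 2) * ∫ x, deriv g x ^ 2) * (∫ y, h y ^ 2) +
        ((∑ i, p.1 i ^ 2) * ∫ x, g x ^ 2) * (∫ y, deriv h y ^ 2)) +
      ((p.2 ^ 2 * ∫ x, deriv f x ^ 2) * (2 * ∫ y, b y ^ 2) +
        (p.2 ^ 2 * ∫ x, f x ^ 2) * (2 * ∫ y, deriv b y ^ 2)) := by
    intro p
    have e := prod_grad (f₁ := tri p.1 g) (h₁ := h) (f₂ := fun x => p.2 * f x) (h₂ := H)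
      (t1 p.1) h1 (f1' p.2) H1 (ts_tri g2 g3 p.1).1 h2 (f2' p.2) H2 o1 o2
    rw [t5, t6, f5', f6', H5, H6] at e
    rw [L_apply]
    exact e
  have hinj : Function.Injective (L g f h H) := by
    rw [← LinearMap.ker_eq_bot, LinearMap.ker_eq_bot']
    intro p hp
    have e1 := hM p
    rw [hp] at e1
    simp only [Pi.zero_apply, ne_eq, OfNat.ofNat_ne_zero, not_false_eq_true, zero_pow,
      integral_zero] at e1
    have e2 : 0 ≤ ∑ i, p.1 i ^ 2 := Finset.sum_nonneg fun i _ => sq_nonneg _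
    have e3 : 0 ≤ ((∑ i, p.1 i ^ 2) * ∫ x, g x ^ 2) * (∫ y, h y ^ 2) := by positivity
    have e4 : 0 ≤ (p.2 ^ 2 * ∫ x, f x ^ 2) * (2 * ∫ y, b y ^ 2) := by positivity
    have e5 : ((∑ i, p.1 i ^ 2) * ∫ x, g x ^ 2) * (∫ y, h y ^ 2) = 0 := by linarith
    have e6 : (p.2 ^ 2 * ∫ x, f x ^ 2) * (2 * ∫ y, b y ^ 2) = 0 := by linarith
    have e7 : ∑ i, p.1 i ^ 2 = 0 := by
      rcases mul_eq_zero.1 e5 with h | h
      · rcases mul_eq_zero.1 h with h | h
        · exact h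
        · exact absurd h g5.ne'
      · exact absurd h h5.ne'
    have e8 : p.2 ^ 2 = 0 := by
      rcases mul_eq_zero.1 e6 with h | h
      · rcases mul_eq_zero.1 h with h | h
        · exact h
        · exact absurd h f5.ne'
      · rcases mul_eq_zero.1 h with h | h
        · norm_num at h
        · exact absurd h b5.ne'
    have e9 := (Finset.sum_eq_zero_iff_of_nonneg fun i _ => sq_nonneg (p.1 i)).1 e7
    refine Prod.ext ?_ ?_
    · funext i
      exact pow_eq_zero_iff (by norm_num) |>.1 (e9 i (Finset.mem_univ i))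
    · exact pow_eq_zero_iff (by norm_num) |>.1 e8
  refine csInf_le (DiscCAux.bdd (by norm_num) _) ?_
  refine ⟨LinearMap.range (L g f h H), ?_, ?_, ?_⟩
  · rw [LinearMap.finrank_range_of_inj hinj]
    simp
  · rintro _ ⟨p, rfl⟩
    obtain ⟨u1, u2, u3⟩ := prod_test (t1 p.1) h1 (ts_tri g2 g3 p.1).1 h2 (ts_tri g2 g3 p.1).2 h3
    obtain ⟨v1, v2, v3⟩ := prod_test (f1' p.2) H1 (f2' p.2) H2 (f3' p.2) H3
    refine ⟨u1.add v1, u2.add v2, ?_⟩
    refine (tsupport_add _ _).trans (union_subset u3 v3)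
  · rintro _ ⟨p, rfl⟩
    rw [hM, hE]
    have e2 : 0 ≤ ∑ i, p.1 i ^ 2 := Finset.sum_nonneg fun i _ => sq_nonneg _
    generalize (∑ i, p.1 i ^ 2) = C at e2 ⊢
    have e3 : 0 ≤ p.2 ^ 2 := sq_nonneg _
    generalize p.2 ^ 2 = D at e3 ⊢
    generalize (∫ x, g x ^ 2) = G at g5 g6 ⊢
    generalize (∫ x, deriv g x ^ 2) = G' at g6 ⊢
    generalize (∫ x, f x ^ 2) = F at f5 f6 ⊢
    generalize (∫ x, deriv f x ^ 2) = F' at f6 ⊢
    generalize (∫ x, h x ^ 2) = K at h5 h6 ⊢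
    generalize (∫ x, deriv h x ^ 2) = K' at h6 ⊢
    generalize (∫ x, b x ^ 2) = B at b5 b6 ⊢
    generalize (∫ x, deriv b x ^ 2) = B' at b6 ⊢
    have i1 : C * G' * K ≤ C * ((Real.pi ^ 2 / (8 / 3) ^ 2 + ε / 2) * G) * K := by gcongr
    have i2 : C * G * K' ≤ C * G * ((Real.pi ^ 2 / 5 ^ 2 + ε / 2) * K) := by gcongr
    have i3 : D * F' * (2 * B) ≤ D * ((Real.pi ^ 2 / 8 ^ 2 + ε / 2) * F) * (2 * B) := by gcongr
    have i4 : D * F * (2 * B') ≤ D * F * (2 * ((Real.pi ^ 2 / (5 / 2) ^ 2 + ε / 2) * B)) := by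
      gcongr
    have i5 : 0 ≤ D * F * (2 * B) * (Real.pi ^ 2 * (8 / 1600)) := by positivity
    refine (add_le_add (add_le_add i1 i2) (add_le_add i3 i4)).trans ?_
    refine le_trans (le_of_eq ?_) (le_add_of_nonneg_right i5 |>.trans (le_of_eq ?_)) (b := 
      (289 / 1600 * Real.pi ^ 2 + ε) * (C * G * K + D * F * (2 * B)) -
        D * F * (2 * B) * (Real.pi ^ 2 * (8 / 1600)))
    · ring
    · ring

theorem rect_lt : dirEig 4 rect * volume.real rect < 4 * Real.pi * j01 ^ 2 := by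
  have h1 := rect_le
  have h2 := rect_vol
  have h3 := j01_gt
  have h4 := Real.pi_lt_d2
  have h5 := Real.pi_pos
  rw [h2]
  have h6 : (12 / 5 : ℝ) ^ 2 < j01 ^ 2 := by
    have : (0 : ℝ) ≤ 12 / 5 := by norm_num
    exact pow_lt_pow_left₀ h3 this (by norm_num)
  have h7 : dirEig 4 rect * 40 ≤ 289 / 1600 * Real.pi ^ 2 * 40 :=
    mul_le_mul_of_nonneg_right h1 (by norm_num)
  have h8 : 289 / 1600 * Real.pi ^ 2 * 40 < 4 * Real.pi * (12 / 5) ^ 2 := by
    nlinarith [mul_pos h5 (sub_pos.2 h4)]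
  have h9 : 4 * Real.pi * (12 / 5) ^ 2 < 4 * Real.pi * j01 ^ 2 :=
    mul_lt_mul_of_pos_left h6 (by positivity)
  linarith

end DK4
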