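import Pool.Agent.Lib.DK4.Fund
import Pool.Agent.Lib.DK4.Ind
import Pool.Agent.Lib.FK4.Fkk

/-!
Module DK4.Strip (helper65): the strip inequality with constant `3` and Faber-Krahn on rings.
-/

open MeasureTheory Set Metric
open scoped ContDiff NNReal

namespace DK4

theorem cap {φ : ℂ → ℝ} (hφ : Adm φ) (h0 : ∀ z, 0 ≤ φ z) (h1 : ∀ z, φ z ≤ 1) :
    4 * Real.pi * volume.real {z | φ z = 1} ≤
      volume.real {z | 0 < φ z ∧ φ z < 1} *
        ∫ z in {z | 0 < φ z ∧ φ z < 1}, ‖fderiv ℝ φ z‖ ^ 2 := by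
  obtain ⟨K, hK⟩ := hφ.lip
  exact FK4.cap hK hφ.cpt h0 h1

/-- restriction of a Lipschitz function to a set on whose frontier it vanishes -/
theorem lip_ind {K : ℝ≥0} {g : ℂ → ℝ} (hg : LipschitzWith K g) {W : Set ℂ}
    (hfr : ∀ z ∈ frontier W, g z = 0) : LipschitzWith K (W.indicator g) := by
  have key : ∀ x ∈ W, ∀ y ∉ W, |g x| ≤ K * dist x y := by
    intro x hx y hy
    have hseg : IsPreconnected (segment ℝ x y) := (convex_segment x y).isPreconnected
    have h1 : (segment ℝ x y ∩ frontier W).Nonempty := by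
      by_contra hcon
      rw [Set.not_nonempty_iff_eq_empty] at hcon
      have hno : ∀ w ∈ segment ℝ x y, w ∉ frontier W := fun w hw hf => by
        have : w ∈ segment ℝ x y ∩ frontier W := ⟨hw, hf⟩
        rw [hcon] at this; exact this
      have hcov : segment ℝ x y ⊆ interior W ∪ (closure W)ᶜ := by
        intro w hw
        by_cases h : w ∈ closure W
        · left
          by_contra h'
          exact hno w hw ⟨h, h'⟩
        · right; exact h
      have hx' : x ∈ interior W := by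
        by_contra h'
        exact hno x (left_mem_segment ℝ x y) ⟨subset_closure hx, h'⟩
      have hy' : y ∈ (closure W)ᶜ := by
        intro h'
        exact hno y (right_mem_segment ℝ x y) ⟨h', fun h => hy (interior_subset h)⟩
      obtain ⟨w, -, hw1, hw2⟩ := hseg _ _ isOpen_interior isClosed_closure.isOpen_compl hcov
        ⟨x, left_mem_segment ℝ x y, hx'⟩ ⟨y, right_mem_segment ℝ x y, hy'⟩
      exact hw2 (subset_closure (interior_subset hw1))
    obtain ⟨z, hz, hzf⟩ := h1
    have h2 := hg.dist_le_mul x z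
    rw [hfr z hzf, Real.dist_eq, sub_zero] at h2
    refine h2.trans ?_
    apply mul_le_mul_of_nonneg_left _ K.2
    have h3 := dist_add_dist_of_mem_segment hz
    linarith [dist_nonneg (x := z) (y := y)]
  apply LipschitzWith.of_dist_le_mul
  intro x y
  by_cases hx : x ∈ W <;> by_cases hy : y ∈ W
  · rw [indicator_of_mem hx, indicator_of_mem hy]; exact hg.dist_le_mul x y
  · rw [indicator_of_mem hx, indicator_of_notMem hy, Real.dist_eq, sub_zero]
    exact key x hx y hy
  · rw [indicator_of_notMem hx, indicator_of_mem hy, Real.dist_eq, zero_sub, abs_neg, dist_comm]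
    exact key y hy x hx
  · rw [indicator_of_notMem hx, indicator_of_notMem hy, dist_self]
    positivity

/-- the clamped function `((f - s)/(t - s))` in `[0,1]` -/
noncomputable def cl (s t : ℝ) (f : ℂ → ℝ) (z : ℂ) : ℝ := max 0 (min 1 ((f z - s) / (t - s)))

section Cl
variable {s t : ℝ} (hst : s < t) (f : ℂ → ℝ)

theorem cl_nonneg (z : ℂ) : 0 ≤ cl s t f z := le_max_left _ _

theorem cl_le_one (z : ℂ) : cl s t f z ≤ 1 := max_le zero_le_one (min_le_left _ _)

include hst

theorem cl_eq_one {z : ℂ} : cl s t f z = 1 ↔ t ≤ f z := by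
  have h : 0 < t - s := by linarith
  have e : (1 ≤ (f z - s) / (t - s)) ↔ t ≤ f z := by
    rw [le_div_iff₀ h]; constructor <;> intro <;> linarith
  unfold cl
  constructor
  · intro h1
    rw [← e]
    by_contra h2
    rw [not_le] at h2
    rw [min_eq_right h2.le] at h1
    rcases le_total 0 ((f z - s) / (t - s)) with h3 | h3
    · rw [max_eq_right h3] at h1; linarith
    · rw [max_eq_left h3] at h1; linarith
  · intro h1
    rw [min_eq_left (e.2 h1), max_eq_right zero_le_one]

theorem cl_eq_zero {z : ℂ} : cl s t f z = 0 ↔ f z ≤ s := by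
  have h : 0 < t - s := by linarith
  have e : ((f z - s) / (t - s) ≤ 0) ↔ f z ≤ s := by
    rw [div_le_iff₀ h]; constructor <;> intro <;> linarith
  unfold cl
  constructor
  · intro h1
    rw [← e]
    by_contra h2
    rw [not_le] at h2
    have : 0 < min 1 ((f z - s) / (t - s)) := lt_min one_pos h2
    rw [max_eq_right this.le] at h1; linarith
  · intro h1
    exact max_eq_left ((min_le_right _ _).trans (e.2 h1))

theorem cl_mid {z : ℂ} : (0 < cl s t f z ∧ cl s t f z < 1) ↔ (s < f z ∧ f z < t) := by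
  have a := cl_eq_one hst f (z := z)
  have b := cl_eq_zero hst f (z := z)
  have c := cl_nonneg (s := s) (t := t) f z
  have d := cl_le_one (s := s) (t := t) f z
  constructor
  · rintro ⟨h1, h2⟩
    constructor
    · by_contra h; rw [not_lt, ← b] at h; linarith
    · by_contra h; rw [not_lt, ← a] at h; linarith
  · rintro ⟨h1, h2⟩
    constructor
    · exact lt_of_le_of_ne c (fun h => by rw [eq_comm, b] at h; linarith)
    · exact lt_of_le_of_ne d (fun h => by rw [a] at h; linarith)

theorem cl_lip (hf : Adm f) : ∃ K : ℝ≥0, LipschitzWith K (cl s t f) := by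
  obtain ⟨K, hK⟩ := hf.lip
  have h : 0 < t - s := by linarith
  refine ⟨K * ⟨(t - s)⁻¹, by positivity⟩, ?_⟩
  have h1 : LipschitzWith (K * ⟨(t - s)⁻¹, by positivity⟩) (fun z => (f z - s) / (t - s)) := by
    apply LipschitzWith.of_dist_le_mul
    intro x y
    have := hK.dist_le_mul x y
    rw [Real.dist_eq] at this ⊢
    rw [← sub_div, sub_sub_sub_cancel_right, abs_div, abs_of_pos h, div_eq_mul_inv]
    have e : ((K * ⟨(t - s)⁻¹, by positivity⟩ : ℝ≥0) : ℝ) = K * (t - s)⁻¹ := rfl
    rw [e, mul_assoc, mul_comm (t - s)⁻¹, ← mul_assoc]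
    exact mul_le_mul_of_nonneg_right this (by positivity)
  have h2 := h1.const_min 1
  exact h2.const_max 0

theorem cl_cpt (hf : Adm f) (hs : 0 ≤ s) : HasCompactSupport (cl s t f) := by
  apply hf.cpt.mono
  intro z hz
  rw [Function.mem_support] at hz ⊢
  intro h
  exact hz ((cl_eq_zero hst f).2 (by rw [h]; exact hs))

theorem cl_adm (hf : Adm f) (hs : 0 ≤ s) : Adm (cl s t f) :=
  ⟨cl_lip hst f hf, cl_cpt hst f hf hs⟩

/-- on the strip the derivative is that of `f` up to the factor -/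
theorem cl_fderiv (hf : Continuous f) {z : ℂ} (hz : s < f z ∧ f z < t) :
    ‖fderiv ℝ (cl s t f) z‖ ^ 2 = ‖fderiv ℝ f z‖ ^ 2 / (t - s) ^ 2 := by
  have h : 0 < t - s := by linarith
  have e : cl s t f =ᶠ[nhds z] fun z => (t - s)⁻¹ * f z - (t - s)⁻¹ * s := by
    have ho : IsOpen {z | s < f z ∧ f z < t} :=
      (isOpen_lt continuous_const hf).inter (isOpen_lt hf continuous_const)
    filter_upwards [ho.mem_nhds hz] with w hw
    obtain ⟨h1, h2⟩ := hw
    unfold cl
    have h3 : (f w - s) / (t - s) ≤ 1 := by rw [div_le_one h]; linarith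
    have h4 : 0 ≤ (f w - s) / (t - s) := div_nonneg (by linarith) h.le
    rw [min_eq_right h3, max_eq_right h4]
    ring
  rw [e.fderiv_eq, fderiv_sub_const]
  have e2 : fderiv ℝ (fun z => (t - s)⁻¹ * f z) z = (t - s)⁻¹ • fderiv ℝ f z := by
    exact congrFun (fderiv_const_smul_field (𝕜 := ℝ) (f := f) (t - s)⁻¹) z
  rw [e2, norm_smul, mul_pow, Real.norm_eq_abs, sq_abs]
  field_simp

end Cl

theorem cap_ind {ψ : ℂ → ℝ} (hlip : ∃ K : ℝ≥0, LipschitzWith K ψ) (h0 : ∀ z, 0 ≤ ψ z)
    (h1 : ∀ z, ψ z ≤ 1) {A : Set ℂ} (hA : IsOpen A) (hfr : ∀ z ∈ frontier A, ψ z = 0)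
    (hc : HasCompactSupport (A.indicator ψ)) :
    4 * Real.pi * volume.real (A ∩ {z | ψ z = 1}) ≤
      volume.real (A ∩ {z | 0 < ψ z ∧ ψ z < 1}) *
        ∫ z in A ∩ {z | 0 < ψ z ∧ ψ z < 1}, ‖fderiv ℝ ψ z‖ ^ 2 := by
  obtain ⟨K, hK⟩ := hlip
  have hadm : Adm (A.indicator ψ) := ⟨⟨K, lip_ind hK hfr⟩, hc⟩
  have hcap := cap hadm
    (fun z => by by_cases h : z ∈ A <;> simp [h, h0 z])
    (fun z => by by_cases h : z ∈ A <;> simp [h, h1 z])
  have e1 : {z | A.indicator ψ z = 1} = A ∩ {z | ψ z = 1} := by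
    ext z; by_cases h : z ∈ A <;> simp [h]
  have e2 : {z | 0 < A.indicator ψ z ∧ A.indicator ψ z < 1} =
      A ∩ {z | 0 < ψ z ∧ ψ z < 1} := by
    ext z; by_cases h : z ∈ A <;> simp [h]
  rw [e1, e2] at hcap
  have hcont : Continuous ψ := hK.continuous
  have hm : MeasurableSet (A ∩ {z | 0 < ψ z ∧ ψ z < 1}) :=
    (hA.inter ((isOpen_lt continuous_const hcont).inter
      (isOpen_lt hcont continuous_const))).measurableSet
  rwa [setIntegral_congr_fun (g := fun z => ‖fderiv ℝ ψ z‖ ^ 2) hm] at hcap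
  intro z hz
  have : A.indicator ψ =ᶠ[nhds z] ψ := by
    filter_upwards [hA.mem_nhds hz.1] with w hw
    exact indicator_of_mem hw _
  simp only [this.fderiv_eq]

theorem cap_ind' {ψ : ℂ → ℝ} (hlip : ∃ K : ℝ≥0, LipschitzWith K ψ) (h0 : ∀ z, 0 ≤ ψ z)
    (h1 : ∀ z, ψ z ≤ 1) {A : Set ℂ} (hA : IsOpen A) (hfr : ∀ z ∈ frontier A, ψ z = 0)
    (hc : HasCompactSupport (fun z => 1 - A.indicator ψ z)) :
    4 * Real.pi * volume.real {z | z ∈ A → ψ z = 0} ≤
      volume.real (A ∩ {z | 0 < ψ z ∧ ψ z < 1}) *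
        ∫ z in A ∩ {z | 0 < ψ z ∧ ψ z < 1}, ‖fderiv ℝ ψ z‖ ^ 2 := by
  obtain ⟨K, hK⟩ := hlip
  have hl : LipschitzWith K (fun z => 1 - A.indicator ψ z) := by
    apply LipschitzWith.of_dist_le_mul
    intro x y
    have := (lip_ind hK hfr).dist_le_mul x y
    rw [Real.dist_eq] at this ⊢
    rw [sub_sub_sub_cancel_left, abs_sub_comm]
    exact this
  have hadm : Adm (fun z => 1 - A.indicator ψ z) := ⟨⟨K, hl⟩, hc⟩
  have hcap := cap hadm
    (fun z => by by_cases h : z ∈ A <;> simp [h, h1 z])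
    (fun z => by by_cases h : z ∈ A <;> simp [h, h0 z])
  have e1 : {z | 1 - A.indicator ψ z = 1} = {z | z ∈ A → ψ z = 0} := by
    ext z; by_cases h : z ∈ A <;> simp [h]
  have e2 : {z | 0 < 1 - A.indicator ψ z ∧ 1 - A.indicator ψ z < 1} =
      A ∩ {z | 0 < ψ z ∧ ψ z < 1} := by
    ext z; by_cases h : z ∈ A <;> simp [h, and_comm]
  rw [e1, e2] at hcap
  have hcont : Continuous ψ := hK.continuous
  have hm : MeasurableSet (A ∩ {z | 0 < ψ z ∧ ψ z < 1}) :=
    (hA.inter ((isOpen_lt continuous_const hcont).inter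
      (isOpen_lt hcont continuous_const))).measurableSet
  rwa [setIntegral_congr_fun (g := fun z => ‖fderiv ℝ ψ z‖ ^ 2) hm] at hcap
  intro z hz
  have : (fun z => 1 - A.indicator ψ z) =ᶠ[nhds z] fun z => 1 - ψ z := by
    filter_upwards [hA.mem_nhds hz.1] with w hw
    rw [indicator_of_mem hw]
  simp only [this.fderiv_eq, fderiv_const_sub, norm_neg]

theorem cap_on {s t : ℝ} (hst : s < t) (hs : 0 ≤ s) {f : ℂ → ℝ} (hf : Adm f)
    {A : Set ℂ} (hA : IsOpen A) (hfr : ∀ z ∈ frontier A, f z ≤ s) :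
    4 * Real.pi * volume.real (A ∩ {z | t ≤ f z}) * (t - s) ^ 2 ≤
      volume.real (A ∩ {z | s < f z ∧ f z < t}) *
        ∫ z in A ∩ {z | s < f z ∧ f z < t}, ‖fderiv ℝ f z‖ ^ 2 := by
  have hcs : HasCompactSupport (A.indicator (cl s t f)) := by
    apply (cl_cpt hst f hf hs).mono
    intro z hz
    rw [Function.mem_support] at hz ⊢
    intro h
    apply hz
    by_cases hA' : z ∈ A <;> simp [hA', h]
  have h := cap_ind (cl_lip hst f hf) (cl_nonneg f) (cl_le_one f) hA
    (fun z hz => (cl_eq_zero hst f).2 (hfr z hz)) hcs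
  have e1 : {z | cl s t f z = 1} = {z | t ≤ f z} := by ext z; exact cl_eq_one hst f
  have e2 : {z | 0 < cl s t f z ∧ cl s t f z < 1} = {z | s < f z ∧ f z < t} := by
    ext z; exact cl_mid hst f
  rw [e1, e2] at h
  obtain ⟨K, hK⟩ := hf.lip
  have hm : MeasurableSet (A ∩ {z | s < f z ∧ f z < t}) :=
    (hA.inter ((isOpen_lt continuous_const hK.continuous).inter
      (isOpen_lt hK.continuous continuous_const))).measurableSet
  rw [setIntegral_congr_fun (g := fun z => ‖fderiv ℝ f z‖ ^ 2 / (t - s) ^ 2) hm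
    (fun z hz => cl_fderiv hst f hK.continuous hz.2), integral_div] at h
  have hp : 0 < (t - s) ^ 2 := by have : 0 < t - s := by linarith
                                  positivity
  rw [← mul_div_assoc, le_div_iff₀ hp] at h
  exact h


/-! ### volume bookkeeping -/

theorem vol_fin {f : ℂ → ℝ} (hf : Adm f) {s : ℝ} (hs : 0 ≤ s) : volume {z | s < f z} ≠ ⊤ := by
  refine ne_top_of_le_ne_top hf.cpt.isCompact.measure_lt_top.ne (measure_mono ?_)
  intro z hz
  apply subset_tsupport
  rw [Function.mem_support]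
  exact (lt_of_le_of_lt hs hz).ne'

theorem vol_strip {f : ℂ → ℝ} (hf : Adm f) {s t : ℝ} (hst : s < t) (hs : 0 ≤ s) :
    volume.real {z | s < f z ∧ f z < t} = volume.real {z | s < f z} - volume.real {z | t ≤ f z} := by
  obtain ⟨K, hK⟩ := hf.lip
  have hm : MeasurableSet {z | t ≤ f z} := (isClosed_le continuous_const hK.continuous).measurableSet
  have hsub : {z | t ≤ f z} ⊆ {z | s < f z} := fun z hz => lt_of_lt_of_le hst hz
  have := measureReal_sdiff (μ := volume) hsub hm (vol_fin hf hs)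
  rw [← this]
  congr 1
  ext z
  simp

theorem vol_le {f : ℂ → ℝ} (hf : Adm f) {t : ℝ} (ht : 0 < t) :
    volume.real {z | t < f z} ≤ volume.real {z | t ≤ f z} := by
  have h1 : volume {z | t ≤ f z} ≠ ⊤ := by
    refine ne_top_of_le_ne_top (vol_fin hf le_rfl) (measure_mono ?_)
    intro z (hz : t ≤ f z)
    exact lt_of_lt_of_le ht hz
  exact measureReal_mono (fun z (hz : t < f z) => (le_of_lt hz : t ≤ f z)) h1

/-- strips above the level `T0`: no rings -/
theorem strip_fund {k : ℕ} (hk : 3 ≤ k) {f : ℂ → ℝ} (hf : Adm f)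
    (hrot : ∀ z, f (rot k * z) = f z) (hz : f 0 = 0) {s t : ℝ} (hs : 0 ≤ s) (hst : s < t)
    (hno : ¬ ∃ γ, IsRing k γ ∧ γ ⊆ {z | s < f z}) :
    4 * Real.pi * 3 * volume.real {z | t < f z} * (t - s) ^ 2 ≤
      (volume.real {z | s < f z} - volume.real {z | t < f z}) *
        ∫ z in {z | s < f z ∧ f z < t}, ‖fderiv ℝ f z‖ ^ 2 := by
  have hk0 : 0 < k := by omega
  obtain ⟨K, hK⟩ := hf.lip
  have hc := hK.continuous
  have hU : IsOpen {z | s < f z} := isOpen_lt continuous_const hc
  have hUs : CSym k {z | s < f z} := fun z (hz : s < f z) => by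
    show s < f (rot k * z)
    rw [hrot]; exact hz
  have h0U : (0 : ℂ) ∉ {z | s < f z} := by
    simp only [mem_setOf_eq, hz, not_lt]; exact hs
  obtain ⟨A, hA, hAU, hfr, hcov, hdis⟩ := exists_fund hk0 hU hUs h0U hno
  have hcap := cap_on hst hs hf hA (fun z hz => not_lt.1 (hfr z hz))
  -- the integrals over U
  have hUfin := vol_fin hf hs
  have key : ∀ (P : Set ℂ) (g : ℂ → ℝ), MeasurableSet P → (∀ z, rot k * z ∈ P ↔ z ∈ P) →
      (∀ z, g (rot k * z) = g z) → P ⊆ {z | s < f z} → IntegrableOn g {z | s < f z} →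
      ∫ z in P, g z = k * ∫ z in A ∩ P, g z := by
    intro P g hP hPs hg hPU hint
    have h1 := integral_fund hk0 hU hUs hA hAU hcov hdis (g := P.indicator g)
      (fun z => by
        by_cases h : z ∈ P
        · rw [indicator_of_mem h, indicator_of_mem ((hPs z).2 h), hg]
        · rw [indicator_of_notMem h, indicator_of_notMem (fun h' => h ((hPs z).1 h'))])
      (hint.indicator hP)
    rw [setIntegral_indicator hP, setIntegral_indicator hP, inter_eq_self_of_subset_right hPU] at h1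
    exact h1
  have hone : IntegrableOn (fun _ : ℂ => (1 : ℝ)) {z | s < f z} := by
    rw [integrableOn_const_iff]; right; exact lt_of_le_of_ne le_top hUfin
  have e1 : volume.real {z | t ≤ f z} = k * volume.real (A ∩ {z | t ≤ f z}) := by
    have := key {z | t ≤ f z} (fun _ => 1)
      (isClosed_le continuous_const hc).measurableSet (fun z => by simp [hrot]) (fun _ => rfl)
      (fun z hz => lt_of_lt_of_le hst hz) hone
    simpa using this
  have hm2 : MeasurableSet {z | s < f z ∧ f z < t} :=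
    ((isOpen_lt continuous_const hc).inter (isOpen_lt hc continuous_const)).measurableSet
  have e2 : volume.real {z | s < f z ∧ f z < t} = k * volume.real (A ∩ {z | s < f z ∧ f z < t}) := by
    have := key {z | s < f z ∧ f z < t} (fun _ => 1) hm2 (fun z => by simp [hrot]) (fun _ => rfl)
      (fun z hz => hz.1) hone
    simpa using this
  have hnr : ∀ z, ‖fderiv ℝ f (rot k * z)‖ = ‖fderiv ℝ f z‖ := by
    intro z
    rw [← fderiv_rot (norm_rot k) f z]
    congr 2
    funext z
    exact hrot z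
  have e3 : ∫ z in {z | s < f z ∧ f z < t}, ‖fderiv ℝ f z‖ ^ 2 =
      k * ∫ z in A ∩ {z | s < f z ∧ f z < t}, ‖fderiv ℝ f z‖ ^ 2 := by
    exact key {z | s < f z ∧ f z < t} (fun z => ‖fderiv ℝ f z‖ ^ 2) hm2 (fun z => by simp [hrot])
      (fun z => by rw [hnr]) (fun z hz => hz.1) hf.integrable_en.integrableOn
  have e4 := vol_strip hf hst hs
  have e5 := vol_le hf (lt_of_le_of_lt hs hst)
  set a := volume.real (A ∩ {z | t ≤ f z})
  set b := volume.real (A ∩ {z | s < f z ∧ f z < t})
  set e := ∫ z in A ∩ {z | s < f z ∧ f z < t}, ‖fderiv ℝ f z‖ ^ 2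
  have hk3 : (3 : ℝ) ≤ k := by exact_mod_cast hk
  have hb : 0 ≤ b := measureReal_nonneg
  have he : 0 ≤ e := integral_nonneg (fun z => by positivity)
  have ha : 0 ≤ a := measureReal_nonneg
  rw [e3]
  have h1 : k * b ≤ volume.real {z | s < f z} - volume.real {z | t < f z} := by
    rw [← e2, e4]; linarith
  have h2 : volume.real {z | t < f z} ≤ k * a := by rw [← e1]; exact e5
  have hpi := Real.pi_pos
  have hsq : 0 ≤ (t - s) ^ 2 := sq_nonneg _
  calc 4 * Real.pi * 3 * volume.real {z | t < f z} * (t - s) ^ 2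
      ≤ 4 * Real.pi * k * (k * a) * (t - s) ^ 2 := by
        apply mul_le_mul_of_nonneg_right _ hsq
        apply mul_le_mul _ h2 measureReal_nonneg (by positivity)
        nlinarith
    _ = k * k * (4 * Real.pi * a * (t - s) ^ 2) := by ring
    _ ≤ k * k * (b * e) := mul_le_mul_of_nonneg_left hcap (by positivity)
    _ = (k * b) * (k * e) := by ring
    _ ≤ _ := mul_le_mul_of_nonneg_right h1 (by positivity)


theorem ring_alg {A1 A2 E1 E2 a h c : ℝ} (hA1 : 0 ≤ A1) (hA2 : 0 ≤ A2) (hE1 : 0 ≤ E1)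
    (hE2 : 0 ≤ E2) (hc : 0 ≤ c) (ha : 0 ≤ a) (hh : 0 ≤ h) (h1 : c * h ≤ A1 * E1)
    (h2 : c * (a + h) ≤ A2 * E2) (h3 : a ≤ 3 * h) :
    c * (3 * a) ≤ (A1 + A2) * (E1 + E2) := by
  have hX : 0 ≤ A1 * E2 + A2 * E1 := by positivity
  have key : 2 * c * (a - h) ≤ A1 * E2 + A2 * E1 := by
    rcases le_total a h with hle | hle
    · have : c * (a - h) ≤ 0 := mul_nonpos_of_nonneg_of_nonpos hc (by linarith)
      linarith
    · apply le_of_sq_le_sq _ hX
      have e1 : (2 * c * (a - h)) ^ 2 ≤ 4 * ((c * h) * (c * (a + h))) := by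
        have : (a - h) ^ 2 ≤ h * (a + h) := by nlinarith
        have hc2 : 0 ≤ c ^ 2 := sq_nonneg _
        nlinarith [mul_le_mul_of_nonneg_left this hc2]
      have e2 : (c * h) * (c * (a + h)) ≤ (A1 * E1) * (A2 * E2) :=
        mul_le_mul h1 h2 (by positivity) (by positivity)
      nlinarith [sq_nonneg (A1 * E2 - A2 * E1)]
  nlinarith

/-- strips below the level `T0`: a ring above the level `t` -/
theorem strip_ring {k : ℕ} {f : ℂ → ℝ} (hf : Adm f) {s t : ℝ} (hs : 0 ≤ s)
    (hst : s < t) {γ : Set ℂ} (hγ : IsRing k γ) (hft : ∀ z ∈ γ, t ≤ f z) {W' : Set ℂ}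
    (hW' : W' ⊆ Inner γ) (hWf : ∀ z ∈ W', f z = 0)
    (hvol : volume.real {z | 0 < f z} ≤ 3 * volume.real W') :
    4 * Real.pi * 3 * volume.real {z | t < f z} * (t - s) ^ 2 ≤
      (volume.real {z | s < f z} - volume.real {z | t < f z}) *
        ∫ z in {z | s < f z ∧ f z < t}, ‖fderiv ℝ f z‖ ^ 2 := by
  obtain ⟨K, hK⟩ := hf.lip
  have hc := hK.continuous
  have hcl : IsClosed γ := hγ.cpt.isClosed
  have hts : 0 < t - s := by linarith
  -- a bound for the inner part
  obtain ⟨R, hR⟩ : ∃ R : ℝ, ∀ w ∈ γ, ‖w‖ ≤ R := hγ.cpt.isBounded.exists_norm_le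
  have hin : Inner γ ⊆ closedBall 0 R := by
    intro z hz
    obtain ⟨w, hw, hlt⟩ := inner_lt hγ.conn.nonempty hγ.zero hz
    rw [mem_closedBall_zero_iff]
    exact hlt.le.trans (hR w hw)
  have hγR : γ ⊆ closedBall 0 R := fun w hw => by rw [mem_closedBall_zero_iff]; exact hR w hw
  set ψ : ℂ → ℝ := fun z => 1 - cl s t f z with hψ
  have hlip : ∃ K : ℝ≥0, LipschitzWith K ψ := by
    obtain ⟨K', hK'⟩ := cl_lip hst f hf
    refine ⟨K', LipschitzWith.of_dist_le_mul fun x y => ?_⟩
    have := hK'.dist_le_mul x y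
    rw [Real.dist_eq] at this ⊢
    rw [hψ]
    simp only
    rw [sub_sub_sub_cancel_left, abs_sub_comm]
    exact this
  have hψ0 : ∀ z, 0 ≤ ψ z := fun z => by
    have := cl_le_one (s := s) (t := t) f z; simp only [hψ]; linarith
  have hψ1 : ∀ z, ψ z ≤ 1 := fun z => by
    have := cl_nonneg (s := s) (t := t) f z; simp only [hψ]; linarith
  have hz : ∀ z, ψ z = 0 ↔ t ≤ f z := fun z => by
    rw [← cl_eq_one hst f]; simp only [hψ]; constructor <;> intro <;> linarith
  have ho : ∀ z, ψ z = 1 ↔ f z ≤ s := fun z => by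
    rw [← cl_eq_zero hst f]; simp only [hψ]; constructor <;> intro <;> linarith
  have hmid : ∀ z, (0 < ψ z ∧ ψ z < 1) ↔ (s < f z ∧ f z < t) := fun z => by
    rw [← cl_mid hst f]; simp only [hψ]
    constructor <;> rintro ⟨h1, h2⟩ <;> constructor <;> linarith
  have hfi : ∀ z ∈ frontier (Inner γ), ψ z = 0 := fun z h =>
    (hz z).2 (hft z (frontier_inner hcl h))
  have hfo : ∀ z ∈ frontier (Outer γ), ψ z = 0 := fun z h =>
    (hz z).2 (hft z (frontier_outer hcl h))
  have hci : HasCompactSupport ((Inner γ).indicator ψ) := by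
    apply HasCompactSupport.intro (isCompact_closedBall (0 : ℂ) R)
    intro z hzR
    exact indicator_of_notMem (fun h => hzR (hin h)) _
  have hout : ∀ z, z ∉ closedBall (0 : ℂ) R → z ∈ Outer γ := by
    intro z hz
    have : z ∈ Inner γ ∪ Outer γ := by
      rw [← compl_eq]; exact fun h => hz (hγR h)
    rcases this with h | h
    · exact absurd (hin h) hz
    · exact h
  have hco : HasCompactSupport (fun z => 1 - (Outer γ).indicator ψ z) := by
    apply HasCompactSupport.intro (hf.cpt.isCompact.union (isCompact_closedBall (0 : ℂ) R))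
    intro z hzR
    rw [mem_union, not_or] at hzR
    rw [indicator_of_mem (hout z hzR.2), (ho z).2, sub_self]
    rw [image_eq_zero_of_notMem_tsupport hzR.1]
    exact hs
  have cap1 := cap_ind hlip hψ0 hψ1 (isOpen_inner hcl) hfi hci
  have cap2 := cap_ind' hlip hψ0 hψ1 (isOpen_outer hcl) hfo hco
  set S : Set ℂ := {z | s < f z ∧ f z < t} with hS
  have eS : {z | 0 < ψ z ∧ ψ z < 1} = S := by ext z; exact hmid z
  have eO : {z | ψ z = 1} = {z | f z ≤ s} := by ext z; exact ho z
  have eZ : {z | z ∈ Outer γ → ψ z = 0} = {z | z ∈ Outer γ → t ≤ f z} := by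
    ext z; exact imp_congr_right fun _ => hz z
  rw [eS, eO] at cap1
  rw [eS, eZ] at cap2
  have hSm : MeasurableSet S :=
    ((isOpen_lt continuous_const hc).inter (isOpen_lt hc continuous_const)).measurableSet
  have hfd : ∀ z ∈ S, ‖fderiv ℝ ψ z‖ ^ 2 = ‖fderiv ℝ f z‖ ^ 2 / (t - s) ^ 2 := by
    intro z hzS
    rw [← cl_fderiv hst f hc hzS, hψ, fderiv_const_sub, norm_neg]
  have hmi : MeasurableSet (Inner γ ∩ S) := (isOpen_inner hcl).measurableSet.inter hSm
  have hmo : MeasurableSet (Outer γ ∩ S) := (isOpen_outer hcl).measurableSet.inter hSm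
  rw [setIntegral_congr_fun hmi (fun z hz => hfd z hz.2), integral_div] at cap1
  rw [setIntegral_congr_fun hmo (fun z hz => hfd z hz.2), integral_div] at cap2
  have hp : 0 < (t - s) ^ 2 := by positivity
  rw [← mul_div_assoc, le_div_iff₀ hp] at cap1 cap2
  -- decomposition of the strip
  have hdec : S = (Inner γ ∩ S) ∪ (Outer γ ∩ S) := by
    rw [← union_inter_distrib_right, ← compl_eq]
    ext z
    simp only [mem_inter_iff, mem_compl_iff]
    constructor
    · intro h; exact ⟨fun hg => absurd h.2 (not_lt.2 (hft z hg)), h⟩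
    · exact fun h => h.2
  have hdis : Disjoint (Inner γ ∩ S) (Outer γ ∩ S) :=
    (disjoint_inner_outer γ).mono inter_subset_left inter_subset_left
  have hSfin : volume S ≠ ⊤ := ne_top_of_le_ne_top (vol_fin hf hs) (measure_mono fun z hz => hz.1)
  have eA : volume.real S = volume.real (Inner γ ∩ S) + volume.real (Outer γ ∩ S) := by
    conv_lhs => rw [hdec]
    exact measureReal_union hdis hmo
      (ne_top_of_le_ne_top hSfin (measure_mono inter_subset_right))
      (ne_top_of_le_ne_top hSfin (measure_mono inter_subset_right))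
  have eE : ∫ z in S, ‖fderiv ℝ f z‖ ^ 2 = (∫ z in Inner γ ∩ S, ‖fderiv ℝ f z‖ ^ 2) +
      ∫ z in Outer γ ∩ S, ‖fderiv ℝ f z‖ ^ 2 := by
    conv_lhs => rw [hdec]
    exact setIntegral_union hdis hmo hf.integrable_en.integrableOn hf.integrable_en.integrableOn
  -- the volumes
  set h : ℝ := volume.real (Inner γ ∩ {z | f z ≤ s}) with hh
  set a : ℝ := volume.real {z | t ≤ f z} with ha
  have hBfin : volume (closedBall (0 : ℂ) R) ≠ ⊤ := (isCompact_closedBall (0 : ℂ) R).measure_lt_top.ne
  have h1 : volume.real W' ≤ h := by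
    apply measureReal_mono
    · intro z hz'
      refine ⟨hW' hz', ?_⟩
      show f z ≤ s
      rw [hWf z hz']; exact hs
    · exact ne_top_of_le_ne_top hBfin (measure_mono (inter_subset_left.trans hin))
  have h0f := vol_fin hf le_rfl
  have hsub : {z | t ≤ f z} ⊆ {z | 0 < f z} := fun z hz' =>
    lt_of_lt_of_le (lt_of_le_of_lt hs hst) hz'
  have h2 : a ≤ volume.real {z | 0 < f z} := measureReal_mono hsub h0f
  have hafin : volume {z | t ≤ f z} ≠ ⊤ := ne_top_of_le_ne_top h0f (measure_mono hsub)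
  have h3 : a + h ≤ volume.real {z | z ∈ Outer γ → t ≤ f z} := by
    have hd : Disjoint {z | t ≤ f z} (Inner γ ∩ {z | f z ≤ s}) := by
      rw [Set.disjoint_left]
      rintro z (hz1 : t ≤ f z) ⟨-, hz2 : f z ≤ s⟩
      linarith
    have hm : MeasurableSet (Inner γ ∩ {z | f z ≤ s}) :=
      (isOpen_inner hcl).measurableSet.inter (isClosed_le hc continuous_const).measurableSet
    have hhfin : volume (Inner γ ∩ {z | f z ≤ s}) ≠ ⊤ :=
      ne_top_of_le_ne_top hBfin (measure_mono (inter_subset_left.trans hin))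
    rw [ha, hh, ← measureReal_union hd hm hafin hhfin]
    apply measureReal_mono
    · rintro z (hz1 | ⟨hz1, -⟩)
      · exact fun _ => hz1
      · intro hz2
        exact absurd hz2 (Set.disjoint_left.1 (disjoint_inner_outer γ) hz1)
    · have : {z | z ∈ Outer γ → t ≤ f z} ⊆ closedBall 0 R ∪ {z | t ≤ f z} := by
        intro z (hz1 : z ∈ Outer γ → t ≤ f z)
        by_cases hzR : z ∈ closedBall (0 : ℂ) R
        · left; exact hzR
        · right; exact hz1 (hout z hzR)
      refine ne_top_of_le_ne_top ?_ (measure_mono this)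
      exact measure_union_ne_top hBfin hafin
  have ha0 : 0 ≤ a := measureReal_nonneg
  have hh0 : 0 ≤ h := measureReal_nonneg
  have hpi := Real.pi_pos
  set A1 := volume.real (Inner γ ∩ S)
  set A2 := volume.real (Outer γ ∩ S)
  set E1 := ∫ z in Inner γ ∩ S, ‖fderiv ℝ f z‖ ^ 2
  set E2 := ∫ z in Outer γ ∩ S, ‖fderiv ℝ f z‖ ^ 2
  have hA1 : 0 ≤ A1 := measureReal_nonneg
  have hA2 : 0 ≤ A2 := measureReal_nonneg
  have hE1 : 0 ≤ E1 := integral_nonneg fun z => by positivity
  have hE2 : 0 ≤ E2 := integral_nonneg fun z => by positivity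
  have hfin := ring_alg hA1 hA2 hE1 hE2 (c := 4 * Real.pi * (t - s) ^ 2) (by positivity) ha0 hh0
    (by linarith) (by
      have : 4 * Real.pi * (a + h) * (t - s) ^ 2 ≤ A2 * E2 := by
        refine le_trans ?_ cap2
        apply mul_le_mul_of_nonneg_right _ hp.le
        exact mul_le_mul_of_nonneg_left h3 (by positivity)
      linarith) (by linarith)
  have e4 := vol_strip hf hst hs
  have e5 := vol_le hf (lt_of_le_of_lt hs hst)
  rw [eE]
  calc 4 * Real.pi * 3 * volume.real {z | t < f z} * (t - s) ^ 2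
      ≤ 4 * Real.pi * 3 * a * (t - s) ^ 2 := by
        apply mul_le_mul_of_nonneg_right _ hp.le
        exact mul_le_mul_of_nonneg_left e5 (by positivity)
    _ = 4 * Real.pi * (t - s) ^ 2 * (3 * a) := by ring
    _ ≤ (A1 + A2) * (E1 + E2) := hfin
    _ ≤ _ := by
        apply mul_le_mul_of_nonneg_right _ (by positivity)
        rw [← eA]
        rw [e4]
        linarith


theorem Adm.bdd {f : ℂ → ℝ} (hf : Adm f) : ∃ M : ℝ, ∀ z, f z ≤ M := by
  obtain ⟨K, hK⟩ := hf.lip
  obtain ⟨C, hC⟩ := hK.continuous.bounded_above_of_compact_support hf.cpt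
  exact ⟨C, fun z => (le_abs_self _).trans (hC z)⟩

/-- Faber-Krahn with constant `3` for rotation-invariant functions whose rings all surround a set
of at least a third of the area -/
theorem ring_fk {k : ℕ} (hk : 3 ≤ k) {f : ℂ → ℝ} (hf : Adm f) (h0 : ∀ z, 0 ≤ f z)
    (hrot : ∀ z, f (rot k * z) = f z) (hz : f 0 = 0) {W' : Set ℂ} (hWf : ∀ z ∈ W', f z = 0)
    (hring : ∀ γ, IsRing k γ → γ ⊆ {z | 0 < f z} → W' ⊆ Inner γ)
    (hvol : volume.real {z | 0 < f z} ≤ 3 * volume.real W') {Λ : ℝ} (hq : q (3 * Λ) f < 0) :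
    Real.pi * j01 ^ 2 ≤ Λ * volume.real {z | 0 < f z} := by
  obtain ⟨M, hM⟩ := hf.bdd
  set T : Set ℝ := {t | 0 ≤ t ∧ (t = 0 ∨ ∃ γ, IsRing k γ ∧ γ ⊆ {z | t < f z})} with hT
  have hTne : T.Nonempty := ⟨0, le_rfl, Or.inl rfl⟩
  have hM0 : 0 ≤ M := (h0 0).trans (hM 0)
  have hTb : BddAbove T := by
    refine ⟨M, ?_⟩
    rintro t ⟨ht, rfl | ⟨γ, hγ, hsub⟩⟩
    · exact hM0
    · obtain ⟨z, hz⟩ := hγ.conn.nonempty
      exact (hsub hz).le.trans (hM z)
  have hT0 : 0 ≤ sSup T := le_csSup hTb ⟨le_rfl, Or.inl rfl⟩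
  have hbelow : ∀ s t : ℝ, 0 ≤ s → s < t → t < sSup T →
      4 * Real.pi * 3 * volume.real {z | t < f z} * (t - s) ^ 2 ≤
      (volume.real {z | s < f z} - volume.real {z | t < f z}) *
        ∫ z in {z | s < f z ∧ f z < t}, ‖fderiv ℝ f z‖ ^ 2 := by
    intro s t hs hst ht
    obtain ⟨t', ht', htt'⟩ := exists_lt_of_lt_csSup hTne ht
    obtain ⟨h1, h2 | ⟨γ, hγ, hsub⟩⟩ := ht'
    · exact absurd htt' (by rw [h2]; linarith)
    · exact strip_ring hf hs hst hγ (fun z hz => (htt'.trans (hsub hz)).le)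
        (hring γ hγ fun z hz => lt_of_le_of_lt h1 (hsub hz)) hWf hvol
  refine FK4.fkk hf h0 (κ := 3) (T0 := sSup T) (by norm_num) hT0 ?_ ?_
  · intro s t hs hst hcase
    rcases hcase with hle | hge
    · rcases hle.lt_or_eq with hlt | heq
      · exact hbelow s t hs hst hlt
      · -- the limit case
        have hlim : Filter.Tendsto (fun t' : ℝ => 4 * Real.pi * 3 * volume.real {z | t < f z} *
            (t' - s) ^ 2) (nhdsWithin t (Iio t))
            (nhds (4 * Real.pi * 3 * volume.real {z | t < f z} * (t - s) ^ 2)) := by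
          apply Filter.Tendsto.mono_left _ nhdsWithin_le_nhds
          apply Continuous.tendsto
          fun_prop
        haveI : (nhdsWithin t (Iio t)).NeBot := inferInstance
        refine le_of_tendsto hlim ?_
        filter_upwards [Ioo_mem_nhdsLT hst] with t' ht'
        have h1 := hbelow s t' hs ht'.1 (by rw [← heq]; exact ht'.2)
        have hfin := vol_fin hf hs
        have hmono : volume.real {z | t < f z} ≤ volume.real {z | t' < f z} :=
          measureReal_mono (fun z (hz : t < f z) => ht'.2.trans hz) (vol_fin hf (hs.trans ht'.1.le))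
        have hmono2 : volume.real {z | t' < f z} ≤ volume.real {z | s < f z} :=
          measureReal_mono (fun z (hz : t' < f z) => ht'.1.trans hz) hfin
        have hint : ∫ z in {z | s < f z ∧ f z < t'}, ‖fderiv ℝ f z‖ ^ 2 ≤
            ∫ z in {z | s < f z ∧ f z < t}, ‖fderiv ℝ f z‖ ^ 2 := by
          apply setIntegral_mono_set hf.integrable_en.integrableOn
          · exact Filter.Eventually.of_forall fun z => by positivity
          · exact Filter.Eventually.of_forall fun z hz => ⟨hz.1, hz.2.trans ht'.2⟩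
        have hpi := Real.pi_pos
        calc 4 * Real.pi * 3 * volume.real {z | t < f z} * (t' - s) ^ 2
            ≤ 4 * Real.pi * 3 * volume.real {z | t' < f z} * (t' - s) ^ 2 := by
              apply mul_le_mul_of_nonneg_right _ (sq_nonneg _)
              exact mul_le_mul_of_nonneg_left hmono (by positivity)
          _ ≤ _ := h1
          _ ≤ _ := by
              apply mul_le_mul _ hint (integral_nonneg fun z => by positivity) (by linarith)
              linarith
    · -- above the level T0 there is no ring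
      apply strip_fund hk hf hrot hz hs hst
      rintro ⟨γ, hγ, hsub⟩
      obtain ⟨K, hK⟩ := hf.lip
      obtain ⟨z0, hz0, hmin⟩ := hγ.cpt.exists_isMinOn hγ.conn.nonempty hK.continuous.continuousOn
      have h1 : s < f z0 := hsub hz0
      have h2 : (s + f z0) / 2 ∈ T := by
        refine ⟨by linarith, Or.inr ⟨γ, hγ, fun z hz' => ?_⟩⟩
        have h3 : f z0 ≤ f z := hmin hz'
        show (s + f z0) / 2 < f z
        linarith
      have := le_csSup hTb h2
      linarith
  · unfold q at hq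
    linarith

end DK4
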