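import Pool.Agent.Lib.DK4.Defs

/-!
Module DK4.TopoA: basic facts on `Inner γ`, `Outer γ` (pure planar point-set topology).

* `inner_or_outer`: a preconnected `S` missing `γ` lies in `Inner γ` or in `Outer γ`: for
  `z ∈ S`, `S ⊆ connectedComponentIn γᶜ z` (IsPreconnected.subset_connectedComponentIn), and all
  points of that component have the same component (connectedComponentIn_eq).
* open: for closed `γ` the components of the open set `γᶜ` are open
  (IsOpen.connectedComponentIn, ℂ is locally connected).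
* frontier: a point of the frontier of `Inner γ` off `γ` would lie in an open component, which is
  inside `Inner γ` or inside `Outer γ`, both open.
* `inner_lt`: if `‖w‖ ≤ ‖z‖` for all `w ∈ γ`, `z ∉ γ`, `z ≠ 0`, the ray `{r z : r ≥ 1}` misses `γ`,
  is connected and unbounded, so the component of `z` is unbounded.  For `z = 0` use any `w ∈ γ`.
-/

open MeasureTheory Set

namespace DK4

namespace TopoAAux

theorem comp_eq {γ : Set ℂ} {z w : ℂ} (hw : w ∈ connectedComponentIn γᶜ z) :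
    connectedComponentIn γᶜ w = connectedComponentIn γᶜ z :=
  (connectedComponentIn_eq hw).symm

theorem comp_inner {γ : Set ℂ} {z : ℂ} (hz : z ∈ Inner γ) :
    connectedComponentIn γᶜ z ⊆ Inner γ := by
  intro w hw
  refine ⟨fun h => connectedComponentIn_subset _ _ hw h, ?_⟩
  rw [comp_eq hw]
  exact hz.2

theorem comp_outer {γ : Set ℂ} {z : ℂ} (hz : z ∈ Outer γ) :
    connectedComponentIn γᶜ z ⊆ Outer γ := by
  intro w hw
  refine ⟨fun h => connectedComponentIn_subset _ _ hw h, ?_⟩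
  rw [comp_eq hw]
  exact hz.2

/-- an unbounded ray -/
theorem ray_unbdd {v : ℂ} (hv : v ≠ 0) (a : ℝ) :
    ¬ Bornology.IsBounded ((fun r : ℝ => (r : ℂ) * v) '' Set.Ici a) := by
  intro h
  obtain ⟨C, hC⟩ := h.exists_norm_le
  have hvn : 0 < ‖v‖ := norm_pos_iff.2 hv
  have h1 := hC _ ⟨max a ((|C| + 1) / ‖v‖), Set.mem_Ici.2 (le_max_left _ _), rfl⟩
  simp only [norm_mul, Complex.norm_real, Real.norm_eq_abs] at h1
  have h2 : (|C| + 1) / ‖v‖ ≤ |max a ((|C| + 1) / ‖v‖)| :=
    (le_max_right _ _).trans (le_abs_self _)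
  have h3 := mul_le_mul_of_nonneg_right h2 hvn.le
  rw [div_mul_cancel₀ _ hvn.ne'] at h3
  have h4 := le_abs_self C
  linarith

theorem ray_conn (v : ℂ) (a : ℝ) :
    IsPreconnected ((fun r : ℝ => (r : ℂ) * v) '' Set.Ici a) := by
  refine isPreconnected_Ici.image _ ?_
  exact (Complex.continuous_ofReal.mul continuous_const).continuousOn

end TopoAAux

open TopoAAux

theorem inner_or_outer {γ S : Set ℂ} (hS : IsPreconnected S) (hd : Disjoint S γ) :
    S ⊆ Inner γ ∨ S ⊆ Outer γ := by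
  rcases S.eq_empty_or_nonempty with rfl | ⟨z, hz⟩
  · exact Or.inl (Set.empty_subset _)
  · have hsub : S ⊆ γᶜ := fun w hw h => Set.disjoint_left.1 hd hw h
    have h1 := hS.subset_connectedComponentIn hz hsub
    by_cases hb : Bornology.IsBounded (connectedComponentIn γᶜ z)
    · exact Or.inl (h1.trans (comp_inner ⟨hsub hz, hb⟩))
    · exact Or.inr (h1.trans (comp_outer ⟨hsub hz, hb⟩))

theorem isOpen_inner {γ : Set ℂ} (hγ : IsClosed γ) : IsOpen (Inner γ) := by
  rw [isOpen_iff_forall_mem_open]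
  intro z hz
  exact ⟨connectedComponentIn γᶜ z, comp_inner hz, hγ.isOpen_compl.connectedComponentIn,
    mem_connectedComponentIn hz.1⟩

theorem isOpen_outer {γ : Set ℂ} (hγ : IsClosed γ) : IsOpen (Outer γ) := by
  rw [isOpen_iff_forall_mem_open]
  intro z hz
  exact ⟨connectedComponentIn γᶜ z, comp_outer hz, hγ.isOpen_compl.connectedComponentIn,
    mem_connectedComponentIn hz.1⟩

namespace TopoAAux

theorem inner_outer_cases {γ : Set ℂ} {z : ℂ} (hz : z ∉ γ) : z ∈ Inner γ ∨ z ∈ Outer γ := by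
  by_cases hb : Bornology.IsBounded (connectedComponentIn γᶜ z)
  · exact Or.inl ⟨hz, hb⟩
  · exact Or.inr ⟨hz, hb⟩

theorem not_both {γ : Set ℂ} {z : ℂ} (h1 : z ∈ Inner γ) (h2 : z ∈ Outer γ) : False :=
  h2.2 h1.2

theorem frontier_aux {γ A B : Set ℂ} (hA : IsOpen A) (hB : IsOpen B)
    (hc : ∀ z, z ∉ γ → z ∈ A ∨ z ∈ B) (hn : ∀ z, z ∈ A → z ∈ B → False) : frontier A ⊆ γ := by
  intro z hz
  by_contra hzγ
  rw [frontier, Set.mem_diff, hA.interior_eq] at hz
  rcases hc z hzγ with h | h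
  · exact hz.2 h
  · obtain ⟨w, hw1, hw2⟩ := mem_closure_iff.1 hz.1 B hB h
    exact hn w hw2 hw1

end TopoAAux

theorem frontier_inner {γ : Set ℂ} (hγ : IsClosed γ) : frontier (Inner γ) ⊆ γ :=
  frontier_aux (isOpen_inner hγ) (isOpen_outer hγ) (fun _ h => inner_outer_cases h)
    (fun _ h1 h2 => not_both h1 h2)

theorem frontier_outer {γ : Set ℂ} (hγ : IsClosed γ) : frontier (Outer γ) ⊆ γ :=
  frontier_aux (isOpen_outer hγ) (isOpen_inner hγ) (fun _ h => (inner_outer_cases h).symm)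
    (fun _ h1 h2 => not_both h2 h1)

theorem compl_eq (γ : Set ℂ) : γᶜ = Inner γ ∪ Outer γ := by
  ext z
  constructor
  · intro hz
    exact inner_outer_cases hz
  · rintro (hz | hz)
    · exact hz.1
    · exact hz.1

theorem disjoint_inner_outer (γ : Set ℂ) : Disjoint (Inner γ) (Outer γ) :=
  Set.disjoint_left.2 fun _ h1 h2 => not_both h1 h2

/-- points of `Inner γ` are closer to `0` than some point of `γ` -/
theorem inner_lt {γ : Set ℂ} (hne : γ.Nonempty) (h0 : (0 : ℂ) ∉ γ) {z : ℂ} (hz : z ∈ Inner γ) :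
    ∃ w ∈ γ, ‖z‖ < ‖w‖ := by
  by_contra hcon
  push Not at hcon
  by_cases hz0 : z = 0
  · obtain ⟨w, hw⟩ := hne
    have h1 := hcon w hw
    rw [hz0, norm_zero] at h1
    have h2 : w = 0 := norm_le_zero_iff.1 h1
    exact h0 (h2 ▸ hw)
  · have hzn : 0 < ‖z‖ := norm_pos_iff.2 hz0
    have hsub : (fun r : ℝ => (r : ℂ) * z) '' Set.Ici 1 ⊆ γᶜ := by
      rintro w ⟨r, hr, rfl⟩ hw
      have hr1 : (1 : ℝ) ≤ r := hr
      have h1 := hcon _ hw
      simp only [norm_mul, Complex.norm_real, Real.norm_eq_abs] at h1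
      rw [abs_of_pos (by linarith)] at h1
      have h2 : r ≤ 1 := by
        by_contra h3
        push Not at h3
        nlinarith
      have h3 : r = 1 := le_antisymm h2 hr1
      subst h3
      apply hz.1
      simpa using hw
    have hmem : z ∈ (fun r : ℝ => (r : ℂ) * z) '' Set.Ici 1 :=
      ⟨1, Set.mem_Ici.2 le_rfl, by simp⟩
    have h1 := (ray_conn z 1).subset_connectedComponentIn hmem hsub
    exact ray_unbdd hz0 1 (hz.2.subset h1)

/-- the ray `[0, ∞)·v` (v ≠ 0) meets `γ` when `0 ∈ Inner γ` -/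
theorem ray_meets {γ : Set ℂ} {v : ℂ} (hv : v ≠ 0) (h0 : (0 : ℂ) ∈ Inner γ) :
    ∃ r : ℝ, 0 < r ∧ (r : ℂ) * v ∈ γ := by
  by_contra hcon
  push Not at hcon
  have hsub : (fun r : ℝ => (r : ℂ) * v) '' Set.Ici 0 ⊆ γᶜ := by
    rintro w ⟨r, hr, rfl⟩ hw
    have hr0 : (0 : ℝ) ≤ r := hr
    rcases hr0.eq_or_lt with h | h
    · subst h
      apply h0.1
      simpa using hw
    · exact hcon r h hw
  have hmem : (0 : ℂ) ∈ (fun r : ℝ => (r : ℂ) * v) '' Set.Ici 0 :=
    ⟨0, Set.mem_Ici.2 le_rfl, by simp⟩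
  have h1 := (ray_conn v 0).subset_connectedComponentIn hmem hsub
  exact ray_unbdd hv 0 (h0.2.subset h1)

end DK4
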