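import Pool.Agent.Lib.DK4.TopoA

/-!
Module DK4.TopoB: `0` is inside every ring.

Say that `z` has a log on `γ` if `∃ ℓ : ℂ → ℂ, ContinuousOn ℓ γ ∧ ∀ w ∈ γ, exp (ℓ w) = w - z`.

Lemma A (`log_of_outer`).  `γ` compact, `z ∈ Outer γ` ⇒ `z` has a log on `γ`.
Lemma B (`no_log`).  `γ` nonempty preconnected, `ζ γ ⊆ γ`, `ζ^m = 1`, `ζ ≠ 1` (m ≥ 1), `0 ∉ γ` ⇒
`0` has no log on `γ`.
-/

open MeasureTheory Set

namespace DK4

namespace TopoBAux

/-- `z` has a log on `γ` -/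
def HasLog (γ : Set ℂ) (z : ℂ) : Prop :=
  ∃ l : ℂ → ℂ, ContinuousOn l γ ∧ ∀ w ∈ γ, Complex.exp (l w) = w - z

theorem slit {v : ℂ} (hv : ‖v‖ < 1) : 1 - v ∈ Complex.slitPlane := by
  have := Complex.mem_slitPlane_of_norm_lt_one (z := -v) (by rwa [norm_neg])
  rwa [← sub_eq_add_neg] at this

theorem HasLog.near {γ : Set ℂ} {z z' : ℂ} (h : HasLog γ z)
    (hz : ∀ w ∈ γ, ‖z' - z‖ < ‖w - z‖) : HasLog γ z' := by
  obtain ⟨l, hl, he⟩ := h
  have hne : ∀ w ∈ γ, w - z ≠ 0 := fun w hw =>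
    norm_pos_iff.1 (lt_of_le_of_lt (norm_nonneg _) (hz w hw))
  have hs : ∀ w ∈ γ, 1 - (z' - z) / (w - z) ∈ Complex.slitPlane := fun w hw => by
    apply slit
    rw [norm_div, div_lt_one (norm_pos_iff.2 (hne w hw))]
    exact hz w hw
  refine ⟨fun w => l w + Complex.log (1 - (z' - z) / (w - z)), ?_, ?_⟩
  · refine hl.add (ContinuousOn.clog ?_ hs)
    exact continuousOn_const.sub (continuousOn_const.div
      (continuousOn_id.sub continuousOn_const) hne)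
  · intro w hw
    rw [Complex.exp_add, he w hw, Complex.exp_log (Complex.slitPlane_ne_zero (hs w hw))]
    have := hne w hw
    field_simp
    ring

theorem ball_far {γ : Set ℂ} {z : ℂ} {ε : ℝ} (h : Metric.ball z ε ⊆ γᶜ) {w : ℂ} (hw : w ∈ γ) :
    ε ≤ ‖w - z‖ := by
  by_contra h1
  push Not at h1
  exact h (by rwa [Metric.mem_ball, dist_eq_norm]) hw

theorem open_log {γ : Set ℂ} (hγ : IsClosed γ) : IsOpen {z | z ∉ γ ∧ HasLog γ z} := by
  rw [Metric.isOpen_iff]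
  rintro z ⟨hz, hl⟩
  obtain ⟨ε, hε, hb⟩ := Metric.isOpen_iff.1 hγ.isOpen_compl z hz
  refine ⟨ε, hε, fun z' hz' => ⟨hb hz', hl.near fun w hw => ?_⟩⟩
  rw [Metric.mem_ball, dist_eq_norm] at hz'
  exact lt_of_lt_of_le hz' (ball_far hb hw)

theorem open_nolog {γ : Set ℂ} (hγ : IsClosed γ) : IsOpen {z | z ∉ γ ∧ ¬ HasLog γ z} := by
  rw [Metric.isOpen_iff]
  rintro z ⟨hz, hl⟩
  obtain ⟨ε, hε, hb⟩ := Metric.isOpen_iff.1 hγ.isOpen_compl z hz
  refine ⟨ε / 2, by positivity, fun z' hz' => ⟨hb (Metric.ball_subset_ball (by linarith) hz'),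
    fun h => hl (h.near fun w hw => ?_)⟩⟩
  rw [Metric.mem_ball, dist_eq_norm] at hz'
  have h1 := ball_far hb hw
  have h2 : ‖w - z‖ ≤ ‖w - z'‖ + ‖z' - z‖ := norm_sub_le_norm_sub_add_norm_sub _ _ _
  rw [norm_sub_rev z z']
  linarith

theorem far_log {γ : Set ℂ} {z : ℂ} (h : ∀ w ∈ γ, ‖w‖ < ‖z‖) (hz : z ≠ 0) : HasLog γ z := by
  have hs : ∀ w ∈ γ, 1 - w / z ∈ Complex.slitPlane := fun w hw => by
    apply slit
    rw [norm_div, div_lt_one (norm_pos_iff.2 hz)]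
    exact h w hw
  refine ⟨fun w => Complex.log (-z) + Complex.log (1 - w / z), ?_, ?_⟩
  · refine continuousOn_const.add (ContinuousOn.clog ?_ hs)
    exact continuousOn_const.sub (continuousOn_id.div_const z)
  · intro w hw
    rw [Complex.exp_add, Complex.exp_log (neg_ne_zero.2 hz),
      Complex.exp_log (Complex.slitPlane_ne_zero (hs w hw))]
    field_simp
    ring

end TopoBAux

open TopoBAux

theorem log_of_outer {γ : Set ℂ} (hγ : IsCompact γ) {z : ℂ} (hz : z ∈ Outer γ) :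
    ∃ l : ℂ → ℂ, ContinuousOn l γ ∧ ∀ w ∈ γ, Complex.exp (l w) = w - z := by
  obtain ⟨hzγ, hunb⟩ := hz
  have hpre : IsPreconnected (connectedComponentIn γᶜ z) := isPreconnected_connectedComponentIn
  have hzC : z ∈ connectedComponentIn γᶜ z := mem_connectedComponentIn hzγ
  have hsub : connectedComponentIn γᶜ z ⊆ γᶜ := connectedComponentIn_subset _ _
  obtain ⟨R, hR⟩ := isBounded_iff_forall_norm_le.1 hγ.isBounded
  obtain ⟨z', hz', hRz⟩ : ∃ z' ∈ connectedComponentIn γᶜ z, max R 0 < ‖z'‖ := by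
    by_contra h
    push Not at h
    exact hunb (isBounded_iff_forall_norm_le.2 ⟨max R 0, h⟩)
  have hlog' : HasLog γ z' := far_log (fun w hw => lt_of_le_of_lt ((hR w hw).trans
    (le_max_left _ _)) hRz) (norm_pos_iff.1 (lt_of_le_of_lt (le_max_right _ _) hRz))
  by_contra hcon
  have hcover : connectedComponentIn γᶜ z ⊆
      {z | z ∉ γ ∧ HasLog γ z} ∪ {z | z ∉ γ ∧ ¬ HasLog γ z} := by
    intro x hx
    by_cases h : HasLog γ x
    · exact Or.inl ⟨hsub hx, h⟩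
    · exact Or.inr ⟨hsub hx, h⟩
  obtain ⟨x, _, ⟨_, h1⟩, _, h2⟩ := hpre _ _ (open_log hγ.isClosed) (open_nolog hγ.isClosed) hcover
    ⟨z', hz', hsub hz', hlog'⟩ ⟨z, hzC, hzγ, hcon⟩
  exact h2 h1

theorem no_log {γ : Set ℂ} (hne : γ.Nonempty) (hc : IsPreconnected γ) {ζ : ℂ} {m : ℕ}
    (hm : 0 < m) (hζ : ζ ^ m = 1) (h1 : ζ ≠ 1) (hinv : ∀ z ∈ γ, ζ * z ∈ γ) :
    ¬ ∃ l : ℂ → ℂ, ContinuousOn l γ ∧ ∀ w ∈ γ, Complex.exp (l w) = w := by
  rintro ⟨l, hl, he⟩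
  obtain ⟨w₀, hw₀⟩ := hne
  have h0 : ∀ w ∈ γ, w ≠ 0 := fun w hw h => by
    have := he w hw
    rw [h] at this
    exact Complex.exp_ne_zero _ this
  have hD : ContinuousOn (fun w => l (ζ * w) - l w) γ :=
    (hl.comp (continuousOn_const.mul continuousOn_id) hinv).sub hl
  have hexp : ∀ w ∈ γ, Complex.exp (l (ζ * w) - l w) = ζ := fun w hw => by
    rw [Complex.exp_sub, he _ (hinv w hw), he w hw, mul_div_assoc, div_self (h0 w hw), mul_one]
  have h2π : (2 * Real.pi * Complex.I : ℂ) ≠ 0 := Complex.two_pi_I_ne_zero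
  have hint : ∀ w ∈ γ, ∃ n : ℤ, ((l (ζ * w) - l w - (l (ζ * w₀) - l w₀)) /
      (2 * Real.pi * Complex.I)).re = n ∧
      l (ζ * w) - l w = (l (ζ * w₀) - l w₀) + n * (2 * Real.pi * Complex.I) := fun w hw => by
    obtain ⟨n, hn⟩ := Complex.exp_eq_exp_iff_exists_int.1 ((hexp w hw).trans (hexp w₀ hw₀).symm)
    refine ⟨n, ?_, hn⟩
    rw [hn, add_sub_cancel_left, mul_div_assoc, div_self h2π, mul_one, Complex.intCast_re]
  have hf : ContinuousOn (fun w => ((l (ζ * w) - l w - (l (ζ * w₀) - l w₀)) /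
      (2 * Real.pi * Complex.I)).re) γ :=
    Complex.continuous_re.comp_continuousOn ((hD.sub continuousOn_const).div_const _)
  have hpre := hc.image _ hf
  have hz : (0 : ℝ) ∈ (fun w => ((l (ζ * w) - l w - (l (ζ * w₀) - l w₀)) /
      (2 * Real.pi * Complex.I)).re) '' γ := ⟨w₀, hw₀, by simp⟩
  have hcst : ∀ w ∈ γ, l (ζ * w) - l w = l (ζ * w₀) - l w₀ := by
    intro w hw
    obtain ⟨n, hn, hn'⟩ := hint w hw
    have hmem : (n : ℝ) ∈ (fun w => ((l (ζ * w) - l w - (l (ζ * w₀) - l w₀)) /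
      (2 * Real.pi * Complex.I)).re) '' γ := ⟨w, hw, hn⟩
    have hn0 : n = 0 := by
      rcases lt_trichotomy n 0 with h | h | h
      · exfalso
        have h3 : (n : ℝ) ≤ -1 := by exact_mod_cast (by omega : n ≤ -1)
        obtain ⟨x, hx, hx'⟩ := hpre.Icc_subset hmem hz (show (-(1 / 2) : ℝ) ∈ Icc (n : ℝ) 0 from
          ⟨by linarith, by norm_num⟩)
        obtain ⟨k, hk, _⟩ := hint x hx
        have h4 : (k : ℝ) = -(1 / 2) := hk.symm.trans hx'
        have h5 : ((2 * k : ℤ) : ℝ) = ((-1 : ℤ) : ℝ) := by push_cast; linarith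
        have h6 : 2 * k = -1 := by exact_mod_cast h5
        omega
      · exact h
      · exfalso
        have h3 : (1 : ℝ) ≤ n := by exact_mod_cast (by omega : 1 ≤ n)
        obtain ⟨x, hx, hx'⟩ := hpre.Icc_subset hz hmem (show (1 / 2 : ℝ) ∈ Icc (0 : ℝ) n from
          ⟨by norm_num, by linarith⟩)
        obtain ⟨k, hk, _⟩ := hint x hx
        have h4 : (k : ℝ) = 1 / 2 := hk.symm.trans hx'
        have h5 : ((2 * k : ℤ) : ℝ) = ((1 : ℤ) : ℝ) := by push_cast; linarith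
        have h6 : 2 * k = 1 := by exact_mod_cast h5
        omega
    rw [hn', hn0]
    simp
  have hpow : ∀ i : ℕ, ζ ^ i * w₀ ∈ γ ∧
      l (ζ ^ i * w₀) = l w₀ + i * (l (ζ * w₀) - l w₀) := by
    intro i
    induction i with
    | zero => simpa using hw₀
    | succ i ih =>
      have h3 : ζ ^ (i + 1) * w₀ = ζ * (ζ ^ i * w₀) := by ring
      rw [h3]
      refine ⟨hinv _ ih.1, ?_⟩
      have h4 := hcst _ ih.1
      rw [sub_eq_iff_eq_add.1 h4, ih.2]
      push_cast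
      ring
  have h3 := (hpow m).2
  rw [hζ, one_mul] at h3
  have h4 : (m : ℂ) * (l (ζ * w₀) - l w₀) = 0 := by
    linear_combination -h3
  rcases mul_eq_zero.1 h4 with h5 | h5
  · exact absurd (by exact_mod_cast h5) hm.ne'
  · have h6 := hexp w₀ hw₀
    rw [h5, Complex.exp_zero] at h6
    exact h1 h6.symm

theorem ring_zero_inner {k : ℕ} (hk : 0 < k) {γ : Set ℂ} (hγ : IsRing k γ) :
    (0 : ℂ) ∈ Inner γ := by
  refine ⟨hγ.zero, ?_⟩
  by_contra hb
  obtain ⟨l, hl, he⟩ := log_of_outer hγ.cpt (z := 0) ⟨hγ.zero, hb⟩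
  obtain ⟨ζ, hζ, h1, hinv⟩ := hγ.inv
  exact no_log hγ.conn.nonempty hγ.conn.isPreconnected hk hζ h1 hinv
    ⟨l, hl, fun w hw => by rw [he w hw, sub_zero]⟩

end DK4
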