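import Pool.Agent.Lib.DK4.Defs

/-!
Module DK4.TopoC: a connected open set invariant under a nontrivial rotation contains a ring.

Proof.  `W` open and connected in ℂ is path connected (IsOpen.isConnected_iff_isPathConnected).
Take `x ∈ W` and a path in `W` from `x` to `ζ x`; `P` = its range, compact and connected, in `W`.
`γ = ⋃_{i<k} (ζ^i · ) '' P` is compact, contained in `W`, invariant under `ζ` (as `ζ^k = 1`), avoids
`0` since `0 ∉ W`, and connected: consecutive pieces share the point `ζ^{i+1} x`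
(IsConnected.iUnion_of_chain or biUnion version, or induction with IsConnected.union).
-/

open MeasureTheory Set

namespace DK4

theorem exists_ring {k : ℕ} (hk : 0 < k) {W : Set ℂ} (hW : IsOpen W) (hc : IsConnected W)
    (h0 : (0 : ℂ) ∉ W) {ζ : ℂ} (hζ : ζ ^ k = 1) (h1 : ζ ≠ 1) (hinv : ∀ z ∈ W, ζ * z ∈ W) :
    ∃ γ, IsRing k γ ∧ γ ⊆ W := by
  have hpc : IsPathConnected W := hW.isConnected_iff_isPathConnected.1 hc
  obtain ⟨x, hx⟩ := hc.nonempty
  obtain ⟨g, hg⟩ := hpc.joinedIn x hx (ζ * x) (hinv x hx)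
  set s : ℕ → Set ℂ := fun n => (fun z => ζ ^ n * z) '' range g with hs
  have hpowinv : ∀ (n : ℕ) (z : ℂ), z ∈ W → ζ ^ n * z ∈ W := by
    intro n
    induction n with
    | zero => intro z hz; rwa [pow_zero, one_mul]
    | succ n ih =>
      intro z hz
      rw [pow_succ', mul_assoc]
      exact hinv _ (ih z hz)
  have hsW : ∀ n, s n ⊆ W := by
    rintro n _ ⟨z, ⟨t, rfl⟩, rfl⟩
    exact hpowinv n _ (hg t)
  have hcont : ∀ n : ℕ, Continuous (fun z : ℂ => ζ ^ n * z) := fun n => continuous_const.mul continuous_id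
  have hscpt : ∀ n, IsCompact (s n) := fun n =>
    (isCompact_range g.continuous).image (hcont n)
  have hsconn : ∀ n, IsPreconnected (s n) := fun n =>
    (isPreconnected_range g.continuous).image _ (hcont n).continuousOn
  have hmemx : ∀ n, ζ ^ n * x ∈ s n := fun n => ⟨x, ⟨0, g.source⟩, rfl⟩
  have hmemx' : ∀ n, ζ ^ (n + 1) * x ∈ s n := fun n =>
    ⟨ζ * x, ⟨1, g.target⟩, by rw [pow_succ, mul_assoc]⟩
  have hfin : (⋃ n, s n) = ⋃ i : Fin k, s i := by
    apply Subset.antisymm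
    · refine iUnion_subset fun n => ?_
      have h2 : ζ ^ n = ζ ^ (n % k) := by
        conv_lhs => rw [← Nat.div_add_mod n k, pow_add, pow_mul, hζ, one_pow, one_mul]
      have h3 : s n = s (n % k) := by
        simp only [hs, h2]
      rw [h3]
      exact subset_iUnion (fun i : Fin k => s i) ⟨n % k, Nat.mod_lt n hk⟩
    · exact iUnion_subset fun i => subset_iUnion s i
  refine ⟨⋃ n, s n, ⟨?_, ⟨?_, ?_⟩, ?_, ⟨ζ, hζ, h1, ?_⟩⟩, iUnion_subset hsW⟩
  · rw [hfin]
    exact isCompact_iUnion fun i => hscpt i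
  · exact ⟨_, mem_iUnion.2 ⟨0, hmemx 0⟩⟩
  · exact IsPreconnected.iUnion_of_chain hsconn fun n => ⟨ζ ^ (n + 1) * x, hmemx' n, hmemx (n + 1)⟩
  · intro h
    exact h0 (iUnion_subset hsW h)
  · intro z hz
    obtain ⟨n, y, hy, rfl⟩ := mem_iUnion.1 hz
    refine mem_iUnion.2 ⟨n + 1, y, hy, ?_⟩
    simp only
    rw [pow_succ', mul_assoc]

end DK4
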