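import Pool.Agent.Lib.DK4.TopoB

/-!
Module DK4.TopoD: two disjoint rings are nested.

`not_both_outer`: `W, W'` disjoint, `γ ⊆ W`, `γ' ⊆ W'` rings.  Not both `W' ⊆ Outer γ` and
`W ⊆ Outer γ'`.
Proof.  `0 ∈ Inner γ` and `0 ∈ Inner γ'` (ring_zero_inner), so the ray `[0,∞)` meets `γ` and `γ'`
(ray_meets with v = 1).  The set `{r ≥ 0 : (r : ℂ) ∈ γ ∪ γ'}` is closed and nonempty; let `r₀` be
its minimum, `r₀ > 0`.  If `r₀ ∈ γ`, then `r₀ ∉ γ'` (disjoint), so the segment `[0, r₀]` misses `γ'`,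
hence by `inner_or_outer` (it contains `0 ∈ Inner γ'`) `r₀ ∈ Inner γ'`; but `r₀ ∈ γ ⊆ W ⊆ Outer γ'`:
contradiction with disjoint_inner_outer.  The case `r₀ ∈ γ'` is symmetric.
-/

open MeasureTheory Set

namespace DK4

theorem TopoDAux.aux {γ γ' : Set ℂ} (h0 : (0 : ℂ) ∈ Inner γ') (hd : Disjoint γ γ')
    (hout : γ ⊆ Outer γ') {r₀ : ℝ} (hr : 0 ≤ r₀) (hmem : (r₀ : ℂ) ∈ γ)
    (hmin : ∀ t : ℝ, 0 ≤ t → t < r₀ → (t : ℂ) ∉ γ') : False := by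
  have hS : IsPreconnected ((fun t : ℝ => (t : ℂ)) '' Icc 0 r₀) :=
    isPreconnected_Icc.image _ Complex.continuous_ofReal.continuousOn
  have hdis : Disjoint ((fun t : ℝ => (t : ℂ)) '' Icc 0 r₀) γ' := by
    rw [Set.disjoint_left]
    rintro _ ⟨t, ht, rfl⟩ ht'
    rcases lt_or_eq_of_le ht.2 with h | h
    · exact hmin t ht.1 h ht'
    · subst h
      exact Set.disjoint_left.1 hd hmem ht'
  have hr0S : (r₀ : ℂ) ∈ (fun t : ℝ => (t : ℂ)) '' Icc 0 r₀ := ⟨r₀, ⟨hr, le_rfl⟩, rfl⟩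
  have h0S : (0 : ℂ) ∈ (fun t : ℝ => (t : ℂ)) '' Icc 0 r₀ := ⟨0, ⟨le_rfl, hr⟩, by simp⟩
  have hdio := Set.disjoint_left.1 (disjoint_inner_outer γ')
  rcases inner_or_outer hS hdis with h | h
  · exact hdio (h hr0S) (hout hmem)
  · exact hdio h0 (h h0S)

theorem not_both_outer {k : ℕ} (hk : 0 < k) {γ γ' W W' : Set ℂ} (hγ : IsRing k γ)
    (hγ' : IsRing k γ') (hW : γ ⊆ W) (hW' : γ' ⊆ W') (hd : Disjoint W W') :
    ¬ (W' ⊆ Outer γ ∧ W ⊆ Outer γ') := by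
  rintro ⟨h1, h2⟩
  have hz : (0 : ℂ) ∈ Inner γ := ring_zero_inner hk hγ
  have hz' : (0 : ℂ) ∈ Inner γ' := ring_zero_inner hk hγ'
  have hdγ : Disjoint γ γ' := hd.mono hW hW'
  obtain ⟨T, hT⟩ : ∃ T : Set ℝ, T = {r : ℝ | 0 ≤ r ∧ (r : ℂ) ∈ γ ∪ γ'} := ⟨_, rfl⟩
  have hcl : IsClosed T := by
    rw [hT]
    exact isClosed_Ici.inter ((hγ.cpt.isClosed.union hγ'.cpt.isClosed).preimage
      Complex.continuous_ofReal)
  have hne : T.Nonempty := by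
    obtain ⟨r, hr, hr'⟩ := ray_meets (one_ne_zero) hz
    rw [mul_one] at hr'
    rw [hT]
    exact ⟨r, hr.le, Or.inl hr'⟩
  have hbd : BddBelow T := by
    refine ⟨0, ?_⟩
    rw [hT]
    exact fun r hr => hr.1
  have hmem : sInf T ∈ T := hcl.csInf_mem hne hbd
  have hmin : ∀ t : ℝ, 0 ≤ t → t < sInf T → (t : ℂ) ∉ γ ∪ γ' := by
    intro t ht hlt htm
    have : t ∈ T := by
      rw [hT]
      exact ⟨ht, htm⟩
    exact absurd (csInf_le hbd this) (not_le.2 hlt)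
  have hmem' : 0 ≤ sInf T ∧ ((sInf T : ℝ) : ℂ) ∈ γ ∪ γ' := by
    have h := hmem
    rw [hT] at h
    rw [hT]
    exact h
  rcases hmem'.2 with h | h
  · exact TopoDAux.aux hz' hdγ (hW.trans h2) hmem'.1 h
      (fun t ht hlt htm => hmin t ht hlt (Or.inr htm))
  · exact TopoDAux.aux hz hdγ.symm (hW'.trans h1) hmem'.1 h
      (fun t ht hlt htm => hmin t ht hlt (Or.inl htm))

end DK4
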