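import Pool.Agent.Lib.DK4.TopoC
import Pool.Agent.Lib.DK4.TopoD

/-!
Module DK4.TopoE: connected components of open sets with `k`-fold rotational symmetry.

`U` is open with `CSym k U` (so `ω U = U`, `ω = rot k`, `ω^k = 1`); `W` is a component of `U`
(`IsComp`).  For `ζ = ω^j` the set `ζ W` is again a component of `U` (multiplication by `ζ` is a
homeomorphism of ℂ mapping `U` onto `U`), so `ζ W = W` or `ζ W ∩ W = ∅`.

* `comp_facts`: basic facts on components of open sets.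
* `full_inv`: a component invariant under a nontrivial rotation of the group is invariant under
  all of it.  Proof: if `0 ∈ W` then `0 ∈ ωW ∩ W`, so `ωW = W`.  Else suppose `ωW ∩ W = ∅`. `W` and
  `ωW` are open connected, invariant under the same `ζ`, miss `0`.  By `inner_or_outer` and
  `not_both_outer` either `ωW ⊆ Inner γ` for every ring `γ ⊆ W`, or `W ⊆ Inner γ'` for every ring
  `γ' ⊆ ωW` (see `nest`).  In the first case take a ring `γ ⊆ W` (exists_ring) and `w ∈ γ` with `‖w‖`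
  maximal on `γ`; then `ω w ∈ ωW ⊆ Inner γ`, and `inner_lt` gives `‖w‖ = ‖ω w‖ < max ‖γ‖ = ‖w‖`.
  Second case: the same with `w ∈ γ'` of maximal norm and `ω⁻¹ w ∈ W`.
* `triv_disj`: if `W` has trivial stabiliser then the sets `ω^j W`, `j < k`, are pairwise disjoint
  subsets of `U`, so `k |W| ≤ |U|`.
* `nest`: `W, W'` disjoint open connected, each invariant under some nontrivial rotation of order
  dividing `k`.  Then [`0 ∉ W` and `W' ⊆ Inner γ` for every ring `γ ⊆ W`] or the same with `W, W'`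
  exchanged.  Proof: `0 ∈ W'`: then `0 ∉ W`, `0 ∈ Inner γ` (ring_zero_inner), so `W' ⊆ Inner γ`
  (inner_or_outer).  `0 ∈ W` symmetric.  Neither: if some ring `γ₁ ⊆ W` has not `W' ⊆ Inner γ₁` then
  `W' ⊆ Outer γ₁`, and for any ring `γ' ⊆ W'` `not_both_outer` and `inner_or_outer` give
  `W ⊆ Inner γ'`.
-/

open MeasureTheory Set

namespace DK4

theorem comp_facts {U W : Set ℂ} (hU : IsOpen U) (hW : IsComp U W) :
    IsOpen W ∧ IsConnected W ∧ W ⊆ U ∧ (∀ z ∈ frontier W, z ∉ U) := by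
  obtain ⟨x, hx, rfl⟩ := hW
  have ho : IsOpen (connectedComponentIn U x) := hU.connectedComponentIn
  refine ⟨ho, ⟨⟨x, mem_connectedComponentIn hx⟩, isPreconnected_connectedComponentIn⟩,
    connectedComponentIn_subset U x, fun z hz hzU => ?_⟩
  have hz1 : z ∈ closure (connectedComponentIn U x) := frontier_subset_closure hz
  have hz2 : z ∉ connectedComponentIn U x := by
    intro h
    rw [ho.frontier_eq] at hz
    exact hz.2 h
  have ho' : IsOpen (connectedComponentIn U z) := hU.connectedComponentIn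
  obtain ⟨y, hy1, hy2⟩ := mem_closure_iff.1 hz1 _ ho' (mem_connectedComponentIn hzU)
  apply hz2
  rw [connectedComponentIn_eq hy2, ← connectedComponentIn_eq hy1]
  exact mem_connectedComponentIn hzU

/-- two components are equal or disjoint -/
theorem comp_eq_or_disj {U W W' : Set ℂ} (hW : IsComp U W) (hW' : IsComp U W') :
    W = W' ∨ Disjoint W W' := by
  obtain ⟨x, hx, rfl⟩ := hW
  obtain ⟨x', hx', rfl⟩ := hW'
  by_cases h : Disjoint (connectedComponentIn U x) (connectedComponentIn U x')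
  · exact Or.inr h
  · left
    obtain ⟨y, hy, hy'⟩ := Set.not_disjoint_iff.1 h
    rw [connectedComponentIn_eq hy, connectedComponentIn_eq hy']

theorem rot_pow {k : ℕ} (hk : 0 < k) : rot k ^ k = 1 :=
  (Complex.isPrimitiveRoot_exp k hk.ne').pow_eq_one

theorem rot_ne_one {k : ℕ} (hk : 2 ≤ k) : rot k ≠ 1 :=
  (Complex.isPrimitiveRoot_exp k (by omega)).ne_one (by omega)

theorem norm_rot (k : ℕ) : ‖rot k‖ = 1 := by
  unfold rot
  have h : 2 * (Real.pi : ℂ) * Complex.I / k = ((2 * Real.pi / k : ℝ) : ℂ) * Complex.I := by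
    push_cast
    ring
  rw [h, Complex.norm_exp_ofReal_mul_I]

/-- every `k`-th root of unity is a power of `rot k` -/
theorem eq_rot_pow {k : ℕ} (hk : 0 < k) {ζ : ℂ} (hζ : ζ ^ k = 1) : ∃ j < k, ζ = rot k ^ j := by
  have : NeZero k := ⟨hk.ne'⟩
  obtain ⟨j, hj, h⟩ := (Complex.isPrimitiveRoot_exp k hk.ne').eq_pow_of_pow_eq_one hζ
  exact ⟨j, hj, h.symm⟩

theorem nest {k : ℕ} (hk : 0 < k) {W W' : Set ℂ} (hW : IsOpen W) (hc : IsConnected W)
    (hW' : IsOpen W') (hc' : IsConnected W') (hd : Disjoint W W')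
    (hs : ∃ ζ : ℂ, ζ ^ k = 1 ∧ ζ ≠ 1 ∧ ∀ z ∈ W, ζ * z ∈ W)
    (hs' : ∃ ζ : ℂ, ζ ^ k = 1 ∧ ζ ≠ 1 ∧ ∀ z ∈ W', ζ * z ∈ W') :
    ((0 : ℂ) ∉ W ∧ ∀ γ, IsRing k γ → γ ⊆ W → W' ⊆ Inner γ) ∨
    ((0 : ℂ) ∉ W' ∧ ∀ γ, IsRing k γ → γ ⊆ W' → W ⊆ Inner γ) := by
  by_cases h0' : (0 : ℂ) ∈ W'
  · left
    refine ⟨fun h0 => Set.disjoint_left.1 hd h0 h0', fun γ hγ hγW => ?_⟩
    rcases inner_or_outer hc'.isPreconnected (hd.symm.mono_right hγW) with h | h
    · exact h
    · exact absurd (h h0') (Set.disjoint_left.1 (disjoint_inner_outer γ) (ring_zero_inner hk hγ))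
  by_cases h0 : (0 : ℂ) ∈ W
  · right
    refine ⟨h0', fun γ hγ hγW => ?_⟩
    rcases inner_or_outer hc.isPreconnected (hd.mono_right hγW) with h | h
    · exact h
    · exact absurd (h h0) (Set.disjoint_left.1 (disjoint_inner_outer γ) (ring_zero_inner hk hγ))
  by_cases h : ∀ γ, IsRing k γ → γ ⊆ W → W' ⊆ Inner γ
  · exact Or.inl ⟨h0, h⟩
  · right
    push Not at h
    obtain ⟨γ₁, hγ₁, hγ₁W, hn⟩ := h
    have ho := (inner_or_outer hc'.isPreconnected (hd.symm.mono_right hγ₁W)).resolve_left hn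
    refine ⟨h0', fun γ hγ hγW => ?_⟩
    rcases inner_or_outer hc.isPreconnected (hd.mono_right hγW) with h | h
    · exact h
    · exact absurd ⟨ho, h⟩ (not_both_outer hk hγ₁ hγ hγ₁W hγW hd)

namespace TopoEAux

theorem sym_pow {k : ℕ} {U : Set ℂ} (hs : CSym k U) (j : ℕ) {z : ℂ} (hz : z ∈ U) :
    rot k ^ j * z ∈ U := by
  induction j with
  | zero => rwa [pow_zero, one_mul]
  | succ j ih =>
    have h := hs _ ih
    rwa [← mul_assoc, ← pow_succ'] at h

theorem image_eq {k : ℕ} (hk : 0 < k) {U : Set ℂ} (hs : CSym k U) {j : ℕ} (hj : j ≤ k) :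
    (fun z => rot k ^ j * z) '' U = U := by
  ext z
  constructor
  · rintro ⟨y, hy, rfl⟩
    exact sym_pow hs j hy
  · intro hz
    refine ⟨rot k ^ (k - j) * z, sym_pow hs _ hz, ?_⟩
    change rot k ^ j * (rot k ^ (k - j) * z) = z
    rw [← mul_assoc, ← pow_add, Nat.add_sub_cancel' hj, rot_pow hk, one_mul]

theorem rot_ne (k j : ℕ) : rot k ^ j ≠ 0 := pow_ne_zero _ (Complex.exp_ne_zero _)

theorem comp_rot {k : ℕ} (hk : 0 < k) {U W : Set ℂ} (hs : CSym k U) (hW : IsComp U W) {j : ℕ}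
    (hj : j ≤ k) : IsComp U ((fun z => rot k ^ j * z) '' W) := by
  obtain ⟨x, hx, rfl⟩ := hW
  refine ⟨rot k ^ j * x, sym_pow hs j hx, ?_⟩
  have h := (Homeomorph.mulLeft₀ (rot k ^ j) (rot_ne k j)).image_connectedComponentIn hx
  rw [Homeomorph.coe_mulLeft₀, image_eq hk hs hj] at h
  exact h

theorem vol_rot (k j : ℕ) (W : Set ℂ) : volume ((fun z => rot k ^ j * z) '' W) = volume W := by
  have hn : ‖rot k ^ j‖ = 1 := by rw [norm_pow, norm_rot, one_pow]
  let a : Circle := ⟨rot k ^ j, mem_sphere_zero_iff_norm.2 hn⟩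
  have h1 : (fun z => rot k ^ j * z) '' W = (rotation a).symm ⁻¹' W := by
    rw [← LinearIsometryEquiv.image_eq_preimage_symm]
    rfl
  rw [h1]
  have h2 := (rotation a).symm.measurePreserving
  exact h2.measure_preimage_emb (rotation a).symm.toHomeomorph.measurableEmbedding W

end TopoEAux

open TopoEAux

theorem full_inv {k : ℕ} (hk : 0 < k) {U W : Set ℂ} (hU : IsOpen U) (hs : CSym k U)
    (hW : IsComp U W) (hst : ∃ ζ : ℂ, ζ ^ k = 1 ∧ ζ ≠ 1 ∧ ∀ z ∈ W, ζ * z ∈ W) :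
    CSym k W := by
  have hW' := comp_rot hk hs hW (j := 1) hk
  simp only [pow_one] at hW'
  rcases comp_eq_or_disj hW hW' with h | hd
  · intro z hz
    rw [h]
    exact ⟨z, hz, rfl⟩
  exfalso
  obtain ⟨ho, hc, -, -⟩ := comp_facts hU hW
  obtain ⟨ho', hc', -, -⟩ := comp_facts hU hW'
  obtain ⟨ζ, hζ, hζ1, hinv⟩ := hst
  have hinv' : ∀ z ∈ (fun z => rot k * z) '' W, ζ * z ∈ (fun z => rot k * z) '' W := by
    rintro _ ⟨z, hz, rfl⟩
    refine ⟨ζ * z, hinv z hz, ?_⟩
    change rot k * (ζ * z) = ζ * (rot k * z)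
    ring
  have hn : ∀ z : ℂ, ‖rot k * z‖ = ‖z‖ := fun z => by rw [norm_mul, norm_rot, one_mul]
  rcases nest hk ho hc ho' hc' hd ⟨ζ, hζ, hζ1, hinv⟩ ⟨ζ, hζ, hζ1, hinv'⟩ with ⟨h0, h⟩ | ⟨h0, h⟩
  · obtain ⟨γ, hγ, hγW⟩ := exists_ring hk ho hc h0 hζ hζ1 hinv
    obtain ⟨w, hw, hmax⟩ := hγ.cpt.exists_isMaxOn hγ.conn.nonempty continuous_norm.continuousOn
    obtain ⟨w', hw', hlt⟩ := inner_lt hγ.conn.nonempty hγ.zero (h γ hγ hγW ⟨w, hγW hw, rfl⟩)
    have h1 : ‖w'‖ ≤ ‖w‖ := hmax hw'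
    have h2 : ‖w‖ < ‖w'‖ := by
      have h3 := hn w
      simp only [h3] at hlt
      exact hlt
    exact absurd h1 (not_le.2 h2)
  · obtain ⟨γ, hγ, hγW⟩ := exists_ring hk ho' hc' h0 hζ hζ1 hinv'
    obtain ⟨w, hw, hmax⟩ := hγ.cpt.exists_isMaxOn hγ.conn.nonempty continuous_norm.continuousOn
    obtain ⟨v, hv, hvw⟩ := hγW hw
    obtain ⟨w', hw', hlt⟩ := inner_lt hγ.conn.nonempty hγ.zero (h γ hγ hγW hv)
    have h1 : ‖w'‖ ≤ ‖w‖ := hmax hw'
    have h2 : ‖w‖ = ‖v‖ := by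
      rw [← hvw]
      exact hn v
    rw [h2] at h1
    exact absurd h1 (not_le.2 hlt)

theorem triv_disj {k : ℕ} (hk : 0 < k) {U W : Set ℂ} (hU : IsOpen U) (hs : CSym k U)
    (hfin : volume U ≠ ⊤) (hW : IsComp U W)
    (hst : ¬ ∃ ζ : ℂ, ζ ^ k = 1 ∧ ζ ≠ 1 ∧ ∀ z ∈ W, ζ * z ∈ W) :
    k * volume.real W ≤ volume.real U := by
  have hpr := Complex.isPrimitiveRoot_exp k hk.ne'
  have hlt : ∀ i j : ℕ, i < j → j < k →
      Disjoint ((fun z => rot k ^ i * z) '' W) ((fun z => rot k ^ j * z) '' W) := by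
    intro i j hij hj
    rcases comp_eq_or_disj (comp_rot hk hs hW (j := i) (by omega))
      (comp_rot hk hs hW (j := j) hj.le) with h | h
    · exfalso
      apply hst
      refine ⟨rot k ^ (j - i), ?_, ?_, fun z hz => ?_⟩
      · rw [← pow_mul, mul_comm, pow_mul, rot_pow hk, one_pow]
      · exact hpr.pow_ne_one_of_pos_of_lt (by omega) (by omega)
      · have h1 : rot k ^ j * z ∈ (fun z => rot k ^ i * z) '' W := by
          rw [h]
          exact ⟨z, hz, rfl⟩
        obtain ⟨y, hy, hyz⟩ := h1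
        have h2 : rot k ^ i * y = rot k ^ i * (rot k ^ (j - i) * z) := by
          rw [← mul_assoc, ← pow_add, Nat.add_sub_cancel' hij.le]
          exact hyz
        rw [← mul_left_cancel₀ (rot_ne k i) h2]
        exact hy
    · exact h
  have hdis : (↑(Finset.range k) : Set ℕ).PairwiseDisjoint (fun j => (fun z => rot k ^ j * z) '' W) := by
    intro i hi j hj hij
    rw [Finset.coe_range, Set.mem_Iio] at hi hj
    rcases Nat.lt_or_gt_of_ne hij with h | h
    · exact hlt i j h hj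
    · exact (hlt j i h hi).symm
  have hmeas : ∀ j ∈ Finset.range k, MeasurableSet ((fun z => rot k ^ j * z) '' W) := by
    intro j hj
    exact (comp_facts hU (comp_rot hk hs hW (j := j) (Finset.mem_range.1 hj).le)).1.measurableSet
  have h1 := measure_biUnion_finset (μ := volume) hdis hmeas
  have h2 : volume (⋃ j ∈ Finset.range k, (fun z => rot k ^ j * z) '' W) ≤ volume U := by
    refine measure_mono ?_
    refine Set.iUnion₂_subset fun j hj => ?_
    exact (comp_facts hU (comp_rot hk hs hW (j := j) (Finset.mem_range.1 hj).le)).2.2.1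
  rw [h1, Finset.sum_congr rfl (fun j _ => vol_rot k j W), Finset.sum_const, Finset.card_range,
    nsmul_eq_mul] at h2
  have h3 := ENNReal.toReal_mono hfin h2
  rw [ENNReal.toReal_mul, ENNReal.toReal_natCast] at h3
  exact h3

end DK4
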